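import Pool.Agent.Work.MP_223b32_t4.Interface

namespace Pool.T4

theorem CYD_sqrt (q : ℕ) (hq : 0 < q) : ∃ s : Qb, s ^ 2 = (q : Qb) ∧ Weil q s := by
  obtain ⟨s, hs⟩ : ∃ s : Qb, s ^ 2 = (q : Qb) := by
    obtain ⟨s, hs⟩ := IsAlgClosed.exists_pow_nat_eq (k := Qb) (q : Qb) (n := 2) (by norm_num)
    exact ⟨s, hs⟩
  refine ⟨s, hs, ?_, fun ρ' => ?_⟩
  · refine IsIntegral.of_pow (n := 2) (by norm_num) ?_
    rw [hs]
    have h1 : IsIntegral ℤ ((algebraMap ℤ Qb) (q : ℤ)) := isIntegral_algebraMap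
    have h2 : (algebraMap ℤ Qb) (q : ℤ) = (q : Qb) := by simp
    rwa [h2] at h1
  · rw [← norm_pow, ← map_pow, hs, map_natCast]
    simp

theorem CYD_ss {q : ℕ} {s y : Qb} (hs : s ^ 2 = (q : Qb)) (hy : SS q y) : Sim y s := by
  obtain ⟨N, hN, h⟩ := hy
  refine ⟨2 * N, by omega, ?_⟩
  rw [pow_mul, h, pow_mul, hs]

theorem CYD_germ {x y : Qb} (h : Sim x y) : germ x = germ y := Quotient.sound h

theorem p_CYD (hX : Stmt_MKX) (hG : Stmt_GLU) (hP : Stmt_PMN) : Stmt_CYD := by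
  intro p _ a ι ρ c hc ha hd R J hR hJ hgood hnd r m hm hr hg
  have hq : 0 < p ^ a := pow_pos (Fact.out (p := p.Prime)).pos a
  obtain ⟨S, z, n, t, hz, hSz, hcm, hcase⟩ := hX p a ι ρ c hc ha hd R J hR hJ hgood hnd r m hm hr hg
  obtain ⟨s, hs, hsw⟩ := CYD_sqrt (p ^ a) hq
  have hpair : Sim (s * s) ((p ^ a : ℕ) : Qb) := ⟨1, one_pos, by rw [← hs, pow_two]⟩
  refine Cyc.sim (S + z) J hSz ?_
  rcases hcase with ⟨rfl, rfl, rfl⟩ | ⟨hns, ht0, htn, ⟨rfl, rfl⟩ | ⟨rfl, hz1⟩⟩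
  · rw [add_zero]
    exact Cyc.weil4 r m false S hcm
  · rw [add_zero]
    have key : ∀ e : ℕ, e = 0 ∨ e = 1 → t + e + e = 3 → Cyc (p ^ a) ι S := by
      intro e he hte
      have h1 := hP p a ι ha hd r m hm hr hns s hs e he
      have h2 := hG (p ^ a) p ι r m _ _ _ _ _ _ _ _ (hG (p ^ a) p ι r m _ _ _ _ _ _ _ _ hcm h1) h1
      rw [hte] at h2
      have h3 : Cyc (p ^ a) ι (S + {s} + {s}) := Cyc.weil6 r m _ h2
      refine Cyc.cancel S s s hsw hpair ?_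
      rw [add_assoc] at h3
      exact h3
    rcases (by omega : t = 1 ∨ t = 2 ∨ t = 3) with rfl | rfl | rfl
    · exact key 1 (Or.inr rfl) rfl
    · exact Cyc.weil4 r m false S hcm
    · exact key 0 (Or.inl rfl) rfl
  · obtain ⟨y, rfl⟩ := Multiset.card_eq_one.1 hz1
    have hy : Sim y s := CYD_ss hs (hz y (Multiset.mem_singleton_self y))
    have key : ∀ e : ℕ, e = 0 ∨ e = 1 → t + e = 2 → Cyc (p ^ a) ι (S + {y}) := by
      intro e he hte
      have h1 := hP p a ι ha hd r m hm hr hns s hs e he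
      have h2 := hG (p ^ a) p ι r m _ _ _ _ _ _ _ _ hcm h1
      rw [hte] at h2
      refine Cyc.sim (S + {s}) _ ?_ (Cyc.weil4 r m _ _ h2)
      rw [Multiset.map_add, Multiset.map_add, Multiset.map_singleton, Multiset.map_singleton,
        CYD_germ hy]
    rcases (by omega : t = 1 ∨ t = 2) with rfl | rfl
    · exact key 1 (Or.inr rfl) rfl
    · exact key 0 (Or.inl rfl) rfl

end Pool.T4
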