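import Pool.Agent.Work.MP_223b32_t4.Interface
import Pool.Agent.Work.MP_223b32_t4.CYD

namespace Pool.T4

open Pool.Agent.Work.MP_223b32_ag

theorem FN2_lift {α β : Type} (f : α → β) {s : Multiset β} {t : Multiset α}
    (h : s ≤ t.map f) : ∃ u ≤ t, u.map f = s := by
  induction t using Quotient.inductionOn with
  | _ l =>
    induction s using Quotient.inductionOn with
    | _ l' =>
      have h1 : l'.Subperm (l.map f) := h
      obtain ⟨k, hk1, hk2⟩ := h1
      obtain ⟨k', hk3, rfl⟩ := List.sublist_map_iff.1 hk2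
      refine ⟨(k' : Multiset α), Multiset.coe_le.2 hk3.subperm, ?_⟩
      rw [Multiset.map_coe]
      exact Quotient.sound hk1

theorem FN2_weil_of_pow {q : ℕ} {x : Qb} {N : ℕ} (hN : 0 < N) {y : Qb} (hy : Weil q y)
    (h : x ^ N = y ^ N) : Weil q x := by
  refine ⟨?_, fun ρ => ?_⟩
  · refine IsIntegral.of_pow hN ?_
    rw [h]
    exact hy.1.pow N
  · rw [← hy.2 ρ]
    have h1 : ‖ρ x‖ ^ N = ‖ρ y‖ ^ N := by
      rw [← norm_pow, ← norm_pow, ← map_pow, ← map_pow, h]
    rw [(pow_left_inj₀ (norm_nonneg _) (norm_nonneg _) hN.ne').1 h1]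

theorem FN2_weil_of_ss {q : ℕ} (hq : 0 < q) {x : Qb} (hx : SS q x) : Weil q x := by
  obtain ⟨s, hs, hsw⟩ := CYD_sqrt q hq
  obtain ⟨N, hN, h⟩ := hx
  refine FN2_weil_of_pow (N := 2 * N) (by omega) hsw ?_
  rw [pow_mul, pow_mul, hs, h]

theorem FN2_sim {q j : ℕ} {x : Qb} (h : Sim (x ^ 2) ((q : Qb) ^ (2 * j))) :
    Sim x ((q : Qb) ^ j) := by
  obtain ⟨N, hN, h⟩ := h
  refine ⟨2 * N, by omega, ?_⟩
  rw [pow_mul, h, ← pow_mul, ← pow_mul]
  congr 1
  ring

theorem FN2_sim' {q j : ℕ} {x : Qb} (h : Sim x ((q : Qb) ^ j)) :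
    Sim (x ^ 2) ((q : Qb) ^ (2 * j)) := by
  obtain ⟨N, hN, h⟩ := h
  refine ⟨N, hN, ?_⟩
  rw [← pow_mul, mul_comm 2 N, pow_mul, h, ← pow_mul, ← pow_mul, ← pow_mul]
  congr 1
  ring

theorem FN2_noPair {U : Type} [AddCommGroup U] {A B : Multiset U} (h : A ≤ B) (hB : NoPair B) :
    NoPair A := fun a b hab => hB a b (hab.trans h)

theorem FN2_split {U : Type} [AddCommGroup U] (J : Multiset U) :
    ∃ (S : Multiset U) (z : ℕ), J = S + Multiset.replicate z 0 ∧ (∀ v ∈ S, v ≠ 0) ∧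
      S.sum = J.sum := by
  classical
  refine ⟨J.filter fun v => v ≠ 0, J.count 0, ?_, fun v hv => (Multiset.mem_filter.1 hv).2, ?_⟩
  · have h1 := Multiset.filter_add_not (fun v : U => v ≠ 0) J
    have h2 : J.filter (fun v => ¬ (v ≠ 0)) = Multiset.replicate (J.count 0) 0 := by
      have h3 : J.filter (fun v => ¬ (v ≠ 0)) = J.filter (fun v => v = 0) :=
        Multiset.filter_congr fun v _ => by simp
      rw [h3]
      convert Multiset.filter_eq' J (0 : U)
    rw [h2] at h1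
    exact h1.symm
  · have h1 := Multiset.filter_add_not (fun v : U => v ≠ 0) J
    have h2 : (J.filter (fun v => ¬ (v ≠ 0))).sum = 0 := by
      refine Multiset.sum_eq_zero fun v hv => ?_
      have h3 := (Multiset.mem_filter.1 hv).2
      simpa using h3
    conv_rhs => rw [← h1]
    rw [Multiset.sum_add, h2, add_zero]

theorem p_FN2 (hFN : Stmt_FN1) (hVOR : Stmt_VOR) (hEQC : Stmt_EQC) (hTHR : Stmt_THR)
    (hRNP : Stmt_RNP) (hCYS : Stmt_CYS) (hDIC : Stmt_DIC) (hCCJ : Stmt_CCJ) (hRHO : Stmt_RHO) :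
    Stmt_FN2 := by
  intro p _ a ι ha R T hR hcard hI S j hST hSc hSs
  have hq : 0 < p ^ a := pow_pos (Fact.out (p := p.Prime)).pos a
  have hd := hDIC p a ι ha
  obtain ⟨ρ⟩ := hRHO
  obtain ⟨c, hc⟩ := hCCJ ρ
  obtain ⟨s, hs, hsw⟩ := CYD_sqrt (p ^ a) hq
  have hTw : ∀ x ∈ T, Weil (p ^ a) x := fun x hx => by
    rcases hI.2 x hx with h | ⟨y, hy, N, hN, h⟩
    · exact FN2_weil_of_ss hq h
    · exact FN2_weil_of_pow hN (hR.weil y hy) h
  have hSw : ∀ x ∈ S, Weil (p ^ a) x := fun x hx => hTw x (Multiset.mem_of_le hST hx)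
  obtain ⟨J, hJS, hJnp, hJsum, hJev, hJcyc⟩ := hRNP p a ι ha hd S hSw
  refine hJcyc ?_
  have hJw : ∀ x ∈ J, Weil (p ^ a) x := fun x hx => hSw x (Multiset.mem_of_le hJS hx)
  have hS0 : (S.map (uu (p ^ a) ι)).sum = 0 := by
    rw [hd.sum S hSw, hSc]
    exact FN2_sim' hSs
  rw [hS0] at hJsum
  have hJe : Even J.card := hJev.2 ⟨j, by rw [hSc]; ring⟩
  obtain ⟨S', z, hJ', hnz, hsum⟩ := FN2_split (J.map (uu (p ^ a) ι))
  rw [hJsum] at hsum
  have hS'le : S' ≤ J.map (uu (p ^ a) ι) := by rw [hJ']; exact Multiset.le_add_right _ _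
  have hS'np : NoPair S' := FN2_noPair hS'le hJnp
  have hcardJ : J.card = S'.card + z := by
    have h1 := congrArg Multiset.card hJ'
    rwa [Multiset.card_map, Multiset.card_add, Multiset.card_replicate] at h1
  have hz : z ≤ 1 := by
    by_contra hz
    push Not at hz
    refine hJnp 0 0 ?_ (add_zero 0)
    rw [hJ']
    refine le_trans ?_ (Multiset.le_add_left _ _)
    have h1 : ({0, 0} : Multiset (UU ι)) = Multiset.replicate 2 0 := rfl
    rw [h1]
    exact (Multiset.replicate_le_replicate (0 : UU ι)).2 hz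
  have hR' : ∀ v ∈ S', v ∈ R.map (uu (p ^ a) ι) := fun v hv => by
    obtain ⟨x, hx, rfl⟩ := Multiset.mem_map.1 (Multiset.mem_of_le hS'le hv)
    have hxT : x ∈ T := Multiset.mem_of_le (hJS.trans hST) hx
    rcases hI.2 x hxT with h | ⟨y, hy, h⟩
    · exact absurd ((hd.ss x (hTw x hxT)).1 h) (hnz _ hv)
    · rw [(hd.sim x y (hTw x hxT) (hR.weil y hy)).1 h]
      exact Multiset.mem_map_of_mem _ hy
  by_cases hS'0 : S' = 0
  · have h1 : J = 0 := by
      rw [← Multiset.card_eq_zero]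
      rw [hS'0, Multiset.card_zero, zero_add] at hcardJ
      obtain ⟨k, hk⟩ := hJe
      omega
    rw [h1]
    exact Cyc.zero
  obtain ⟨v0, hv0⟩ := Multiset.exists_mem_of_ne_zero hS'0
  have hex : ∃ x ∈ R, ¬ SS (p ^ a) x := by
    obtain ⟨x, hx, h⟩ := Multiset.mem_map.1 (hR' v0 hv0)
    refine ⟨x, hx, fun h1 => hnz v0 hv0 ?_⟩
    rw [← h]
    exact (hd.ss x (hR.weil x hx)).1 h1
  obtain ⟨V, m, hV, hmem, hcnt⟩ := hVOR p a ι ρ c hc ha hd R hR hcard hex hI.1
  obtain ⟨t, Jf, ht, hSt, hJf0, hJfnp, hJfV, hJfc, hJfcard, hcase⟩ :=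
    hEQC GQ (UU ι) (coreU ι ρ c hc) V m hV S' (fun v hv => (hmem v).2 ⟨hnz v hv, hR' v hv⟩)
      hsum hS'np hS'0
  have hJf0' : Jf.val.sum = 0 := by
    have h1 : Jf.sum id = (Jf.val.map id).sum := rfl
    rw [h1, Multiset.map_id] at hJf0
    exact hJf0
  have hS'card : S'.card = t * Jf.card := by
    rw [hSt, Multiset.card_nsmul]; rfl
  rcases hcase with h3 | h4
  · -- three pairs
    have hV6 : V.card = 6 := by omega
    have hm1 : m = 1 := by
      have h1 := hV.card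
      have h2 := hV.m_pos
      rw [hV6] at h1
      omega
    obtain ⟨R', hR'av, hR'V⟩ := hTHR p a ι ha hd R hR V hV6 hmem
      (fun v hv => by rw [hcnt v hv, hm1]) s hs
    have hR'card : R'.card = 6 := by
      have h1 := congrArg Multiset.card hR'V
      rw [Multiset.card_map] at h1
      rw [h1]; exact hV6
    obtain ⟨J0, hJ0, hJ0m⟩ := FN2_lift (uu (p ^ a) ι) (s := Jf.val) (t := R') (by
      rw [hR'V]; exact Finset.val_le_iff.2 hJfV)
    have hJ0w : ∀ x ∈ J0, Weil (p ^ a) x := fun x hx =>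
      hR'av.weil x (Multiset.mem_add.2 (Or.inl (Multiset.mem_of_le hJ0 hx)))
    have hJ0card : J0.card = 3 := by
      have h1 := congrArg Multiset.card hJ0m
      rw [Multiset.card_map] at h1
      rw [h1]; exact h3
    have hT := hFN p a ι ha (R' + {s, s}) hR'av (by
      rw [Multiset.card_add, hR'card]; simp)
    have huus : uu (p ^ a) ι s = 0 := (hd.ss s hsw).1 ⟨1, one_pos, by rw [hs]⟩
    have hcyc : Cyc (p ^ a) ι (J0 + Multiset.replicate 1 s) := by
      refine hT _ 2 ?_ ?_ ?_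
      · refine add_le_add hJ0 ?_
        have h1 : ({s, s} : Multiset Qb) = Multiset.replicate 2 s := rfl
        rw [h1]
        exact (Multiset.replicate_le_replicate s).2 (by norm_num)
      · rw [Multiset.card_add, hJ0card, Multiset.card_replicate]
      · apply FN2_sim
        have h1 := (hd.sum (J0 + Multiset.replicate 1 s) (by
          intro x hx
          rcases Multiset.mem_add.1 hx with hx | hx
          · exact hJ0w x hx
          · rw [Multiset.eq_of_mem_replicate hx]; exact hsw)).1 (by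
          rw [Multiset.map_add, Multiset.map_replicate, hJ0m, huus, Multiset.sum_add, hJf0',
            Multiset.sum_replicate, nsmul_zero, add_zero])
        rw [Multiset.card_add, hJ0card, Multiset.card_replicate] at h1
        exact h1
    refine hCYS p a ι ha hd s hs J0 J hJ0w hJw 1 t z hcyc ?_ ?_
    · obtain ⟨k, hk⟩ := hJe
      rw [hcardJ, hS'card, h3] at hk
      exact ⟨k - t, by omega⟩
    · rw [hJ', hSt, hJ0m]
  · -- four pairs
    obtain ⟨J0, hJ0, hJ0m⟩ := FN2_lift (uu (p ^ a) ι) (s := Jf.val) (t := R) (by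
      rw [Multiset.le_iff_subset Jf.nodup]
      intro v hv
      exact ((hmem v).1 (hJfV hv)).2)
    have hJ0w : ∀ x ∈ J0, Weil (p ^ a) x := fun x hx => hR.weil x (Multiset.mem_of_le hJ0 hx)
    have hJ0card : J0.card = 4 := by
      have h1 := congrArg Multiset.card hJ0m
      rw [Multiset.card_map] at h1
      rw [h1]; exact h4
    have hcyc : Cyc (p ^ a) ι J0 := by
      refine hFN p a ι ha R hR hcard _ 2 hJ0 hJ0card ?_
      apply FN2_sim
      have h1 := (hd.sum J0 hJ0w).1 (by rw [hJ0m, hJf0'])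
      rw [hJ0card] at h1
      exact h1
    refine hCYS p a ι ha hd s hs J0 J hJ0w hJw 0 t z ?_ ?_ ?_
    · rw [Multiset.replicate_zero, add_zero]; exact hcyc
    · obtain ⟨k, hk⟩ := hJe
      rw [hcardJ, hS'card, h4] at hk
      exact ⟨k - 2 * t, by omega⟩
    · rw [hJ', hSt, hJ0m]

end Pool.T4
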