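import Pool.Agent.Work.MP_223b32_t4.Interface2
import Pool.Agent.Work.MP_223b32_t4.FN2

namespace Pool.T4

open Pool.Agent.Work.MP_223b32_ag

theorem FN3_ncard {A B C : Type*} (F : A → B) (H : A → C) (h : ∀ a b, F a = F b ↔ H a = H b) :
    (Set.range F).ncard = (Set.range H).ncard := by
  have h1 : Setoid.ker F = Setoid.ker H := by
    ext a b
    exact h a b
  have e1 := Nat.card_congr (Setoid.quotientKerEquivRange F)
  have e2 := Nat.card_congr (Setoid.quotientKerEquivRange H)
  rw [h1] at e1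
  rw [← Nat.card_coe_set_eq, ← Nat.card_coe_set_eq, ← e1, ← e2]

theorem FN3_orb {p : ℕ} [Fact p.Prime] {q : ℕ} {ι : Qb →+* PadicAlgCl p} (hd : Dict q ι) {x : Qb}
    (hx : Weil q x) : (gorb GQ (uu q ι x)).ncard = (galOrbit x).ncard := by
  have h1 : gorb GQ (uu q ι x) = Set.range (fun g : GQ => uu q ι (g x)) := by
    ext v
    simp only [gorb, Set.mem_range]
    constructor
    · rintro ⟨g, rfl⟩
      exact ⟨g, hd.smul x hx g⟩
    · rintro ⟨g, rfl⟩
      exact ⟨g, hd.smul x hx g⟩
  have h2 : galOrbit x = Set.range (fun g : GQ => germ (g x)) := by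
    ext v
    simp only [galOrbit, Set.mem_range]
    constructor
    · rintro ⟨g, rfl⟩
      exact ⟨g, rfl⟩
    · rintro ⟨g, rfl⟩
      exact ⟨g, rfl⟩
  rw [h1, h2]
  refine FN3_ncard _ _ fun g g' => ?_
  rw [← hd.sim _ _ (hd.weil x hx g) (hd.weil x hx g')]
  constructor
  · intro h
    exact Quotient.sound h
  · intro h
    exact Quotient.exact h

theorem FN3_cnt {G U : Type} [Group G] [AddCommGroup U] [DistribMulAction G U] {R : Multiset U}
    (g : G) (h : tr g R = R) (u : U) : cnt (g • u) R = cnt u R := by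
  classical
  have h1 : Multiset.count (g • u) (R.map fun v => g • v) = Multiset.count u R :=
    Multiset.count_map_eq_count' _ _ (MulAction.injective g) u
  have h2 : (R.map fun v => g • v) = R := h
  rw [h2] at h1
  unfold cnt
  exact h1

theorem FN3_mem {U : Type} {v : U} {R : Multiset U} : v ∈ R ↔ cnt v R ≠ 0 := by
  classical
  unfold cnt
  rw [ne_eq, Multiset.count_eq_zero, not_not]

theorem p_FN3 (hFN : Stmt_FN1) (hEQG : Stmt_EQG) (hSAV : Stmt_SAV) (hTHR : Stmt_THR)
    (hRNP : Stmt_RNP) (hCYS : Stmt_CYS) (hHTC : Stmt_HTC) (hDIC : Stmt_DIC) (hCCJ : Stmt_CCJ)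
    (hRHO : Stmt_RHO) : Stmt_FN3 := by
  classical
  intro p _ a ι ha R T hR hcard hTS hI S j hST hSc hSs
  have hq : 0 < p ^ a := pow_pos (Fact.out (p := p.Prime)).pos a
  have hd := hDIC p a ι ha
  obtain ⟨ρ⟩ := hRHO
  obtain ⟨c, hc⟩ := hCCJ ρ
  obtain ⟨s, hs, hsw⟩ := CYD_sqrt (p ^ a) hq
  have hTw : ∀ x ∈ T, Weil (p ^ a) x := fun x hx => by
    rcases hI x hx with h | ⟨y, hy, N, hN, h⟩
    · exact FN2_weil_of_ss hq h
    · exact FN2_weil_of_pow hN (hR.weil y hy) h
  have hSw : ∀ x ∈ S, Weil (p ^ a) x := fun x hx => hTw x (Multiset.mem_of_le hST hx)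
  obtain ⟨J, hJS, hJnp, hJsum, hJev, hJcyc⟩ := hRNP p a ι ha hd S hSw
  refine hJcyc ?_
  have hJw : ∀ x ∈ J, Weil (p ^ a) x := fun x hx => hSw x (Multiset.mem_of_le hJS hx)
  have hS0 : (S.map (uu (p ^ a) ι)).sum = 0 := by
    rw [hd.sum S hSw, hSc]
    exact FN2_sim' hSs
  rw [hS0] at hJsum
  have hJe : Even J.card := hJev.2 ⟨j, by rw [hSc]; ring⟩
  obtain ⟨S', z, hJ', hnz, hsum⟩ := FN2_split (J.map (uu (p ^ a) ι))
  rw [hJsum] at hsum
  have hS'le : S' ≤ J.map (uu (p ^ a) ι) := by rw [hJ']; exact Multiset.le_add_right _ _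
  have hS'np : NoPair S' := FN2_noPair hS'le hJnp
  have hcardJ : J.card = S'.card + z := by
    have h1 := congrArg Multiset.card hJ'
    rwa [Multiset.card_map, Multiset.card_add, Multiset.card_replicate] at h1
  have hR' : ∀ v ∈ S', v ∈ R.map (uu (p ^ a) ι) := fun v hv => by
    obtain ⟨x, hx, rfl⟩ := Multiset.mem_map.1 (Multiset.mem_of_le hS'le hv)
    have hxT : x ∈ T := Multiset.mem_of_le (hJS.trans hST) hx
    rcases hI x hxT with h | ⟨y, hy, h⟩
    · exact absurd ((hd.ss x (hTw x hxT)).1 h) (hnz _ hv)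
    · rw [(hd.sim x y (hTw x hxT) (hR.weil y hy)).1 h]
      exact Multiset.mem_map_of_mem _ hy
  by_cases hS'0 : S' = 0
  · have h1 : J = 0 := by
      rw [← Multiset.card_eq_zero]
      have hz : z ≤ 1 := by
        by_contra hz
        push Not at hz
        refine hJnp 0 0 ?_ (add_zero 0)
        rw [hJ']
        refine le_trans ?_ (Multiset.le_add_left _ _)
        have h1 : ({0, 0} : Multiset (UU ι)) = Multiset.replicate 2 0 := rfl
        rw [h1]
        exact (Multiset.replicate_le_replicate (0 : UU ι)).2 hz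
      rw [hS'0, Multiset.card_zero, zero_add] at hcardJ
      obtain ⟨k, hk⟩ := hJe
      omega
    rw [h1]
    exact Cyc.zero
  have hRK : IsR (coreU ι ρ c hc) (R.map (uu (p ^ a) ι)) := hHTC p a ι ρ c hc ha hd R hR
  obtain ⟨t, J1, ht, hSt, hJ10, hJ1np, hcase⟩ :=
    hEQG GQ (UU ι) (coreU ι ρ c hc) (R.map (uu (p ^ a) ι)) hRK
      (by rw [Multiset.card_map]; exact hcard) (by
        intro x hx y hy _ _ h4x h4y
        obtain ⟨x0, hx0, rfl⟩ := Multiset.mem_map.1 hx
        obtain ⟨y0, hy0, rfl⟩ := Multiset.mem_map.1 hy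
        rw [FN3_orb hd (hR.weil x0 hx0)] at h4x
        rw [FN3_orb hd (hR.weil y0 hy0)] at h4y
        by_contra hcon
        refine hTS ⟨x0, y0, hx0, hy0, h4x, h4y, fun hg => hcon ?_⟩
        obtain ⟨g, hg⟩ := hg
        refine ⟨g, ?_⟩
        rw [← hd.smul x0 (hR.weil x0 hx0) g]
        exact (hd.sim _ _ (hR.weil y0 hy0) (hd.weil x0 (hR.weil x0 hx0) g)).1 (Quotient.exact hg))
      S' (fun v hv => ⟨hR' v hv, hnz v hv⟩) hsum hS'np hS'0
  have hS'card : S'.card = t * J1.card := by
    rw [hSt, Multiset.card_nsmul]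
  have hJ1S : ∀ v ∈ J1, v ∈ S' := fun v hv => by
    rw [hSt, Multiset.mem_nsmul]
    exact ⟨ht.ne', hv⟩
  have hJ1nz : ∀ v ∈ J1, v ≠ 0 := fun v hv => hnz v (hJ1S v hv)
  rcases hcase with ⟨h4, hJ1R⟩ | ⟨h3, hnd, hone, hstab⟩
  · obtain ⟨J0, hJ0, hJ0m⟩ := FN2_lift (uu (p ^ a) ι) hJ1R
    have hJ0w : ∀ x ∈ J0, Weil (p ^ a) x := fun x hx => hR.weil x (Multiset.mem_of_le hJ0 hx)
    have hJ0card : J0.card = 4 := by
      have h1 := congrArg Multiset.card hJ0m
      rw [Multiset.card_map] at h1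
      rw [h1]; exact h4
    have hcyc : Cyc (p ^ a) ι J0 := by
      refine hFN p a ι ha R hR hcard _ 2 hJ0 hJ0card ?_
      apply FN2_sim
      have h1 := (hd.sum J0 hJ0w).1 (by rw [hJ0m, hJ10])
      rw [hJ0card] at h1
      exact h1
    refine hCYS p a ι ha hd s hs J0 J hJ0w hJw 0 t z ?_ ?_ ?_
    · rw [Multiset.replicate_zero, add_zero]; exact hcyc
    · obtain ⟨k, hk⟩ := hJe
      rw [hcardJ, hS'card, h4] at hk
      exact ⟨k - 2 * t, by omega⟩
    · rw [hJ', hSt, hJ0m]
  · -- three pairs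
    have hself : ∀ v : UU ι, v = -v → v = 0 := fun v hv => by
      have h1 : (2 : ℚ) • v = 0 := by
        rw [two_smul]
        nth_rewrite 2 [hv]
        exact add_neg_cancel v
      exact (smul_eq_zero.1 h1).resolve_left (by norm_num)
    have hdisj : Disjoint J1 (ng J1) := by
      rw [Multiset.disjoint_left]
      intro v hv hv'
      obtain ⟨u, hu, hu'⟩ := Multiset.mem_map.1 hv'
      by_cases huv : u = v
      · subst huv
        exact hJ1nz u hv (hself u hu'.symm)
      · refine hJ1np u v ?_ ?_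
        · rw [show ({u, v} : Multiset (UU ι)) = u ::ₘ {v} from rfl, Multiset.le_iff_subset (by
            rw [Multiset.nodup_cons]
            exact ⟨by simpa using huv, Multiset.nodup_singleton v⟩)]
          intro w hw
          rw [Multiset.mem_cons, Multiset.mem_singleton] at hw
          rcases hw with rfl | rfl
          · exact hu
          · exact hv
        · rw [← hu', add_neg_cancel]
    have hnd2 : (ng J1).Nodup := hnd.map neg_injective
    have hnd6 : (J1 + ng J1).Nodup := (Multiset.nodup_add.2 ⟨hnd, hnd2, hdisj⟩)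
    let V : Finset (UU ι) := ⟨J1 + ng J1, hnd6⟩
    have hVmem : ∀ v, v ∈ V ↔ v ∈ J1 ∨ -v ∈ J1 := fun v => by
      change v ∈ J1 + ng J1 ↔ _
      rw [Multiset.mem_add, ng, Multiset.mem_map]
      constructor
      · rintro (h | ⟨u, hu, rfl⟩)
        · exact Or.inl h
        · right; rw [neg_neg]; exact hu
      · rintro (h | h)
        · exact Or.inl h
        · exact Or.inr ⟨-v, h, neg_neg v⟩
    have hV6 : V.card = 6 := by
      change Multiset.card (J1 + ng J1) = 6
      rw [Multiset.card_add, ng, Multiset.card_map, h3]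
    have hVst : ∀ g : GQ, ∀ v ∈ V, g • v ∈ V := fun g v hv => by
      rw [hVmem] at hv ⊢
      rcases hv with hv | hv
      · exact hstab g v hv
      · have h1 := hstab g _ hv
        rw [smul_neg, neg_neg] at h1
        exact h1.symm
    obtain ⟨R1, hR1R, hR1av, hR1m, hR1c⟩ := hSAV p a ι ha hd R hR V hVst
    have hVone : ∀ v ∈ V, cnt v (R.map (uu (p ^ a) ι)) = 1 := fun v hv => by
      rcases (hVmem v).1 hv with h | h
      · exact hone v h
      · have h1 := FN3_cnt (coreU ι ρ c hc).c0 (hRK.stable _) v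
        rw [(coreU ι ρ c hc).cc v] at h1
        rw [← h1]
        exact hone _ h
    obtain ⟨R', hR'av, hR'V⟩ := hTHR p a ι ha hd R1 hR1av V hV6 (by
      intro v
      constructor
      · intro hv
        refine ⟨?_, ?_⟩
        · rcases (hVmem v).1 hv with h | h
          · exact hJ1nz v h
          · intro h0
            exact hJ1nz _ h (by rw [h0, neg_zero])
        · rw [FN3_mem, hR1c v hv, hVone v hv]
          exact one_ne_zero
      · rintro ⟨-, hv⟩
        obtain ⟨x, hx, rfl⟩ := Multiset.mem_map.1 hv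
        exact ((hR1m x).1 hx).2)
      (fun v hv => by rw [hR1c v hv, hVone v hv]) s hs
    obtain ⟨J0, hJ0, hJ0m⟩ := FN2_lift (uu (p ^ a) ι) (s := J1) (t := R') (by
      rw [hR'V]
      change J1 ≤ J1 + ng J1
      exact Multiset.le_add_right _ _)
    have hR'card : R'.card = 6 := by
      have h1 := congrArg Multiset.card hR'V
      rw [Multiset.card_map] at h1
      rw [h1]; exact hV6
    have hJ0w : ∀ x ∈ J0, Weil (p ^ a) x := fun x hx =>
      hR'av.weil x (Multiset.mem_add.2 (Or.inl (Multiset.mem_of_le hJ0 hx)))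
    have hJ0card : J0.card = 3 := by
      have h1 := congrArg Multiset.card hJ0m
      rw [Multiset.card_map] at h1
      rw [h1]; exact h3
    have hT := hFN p a ι ha (R' + {s, s}) hR'av (by
      rw [Multiset.card_add, hR'card]; simp)
    have huus : uu (p ^ a) ι s = 0 := (hd.ss s hsw).1 ⟨1, one_pos, by rw [hs]⟩
    have hcyc : Cyc (p ^ a) ι (J0 + Multiset.replicate 1 s) := by
      refine hT _ 2 ?_ ?_ ?_
      · refine add_le_add hJ0 ?_
        have h1 : ({s, s} : Multiset Qb) = Multiset.replicate 2 s := rfl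
        rw [h1]
        exact (Multiset.replicate_le_replicate s).2 (by norm_num)
      · rw [Multiset.card_add, hJ0card, Multiset.card_replicate]
      · apply FN2_sim
        have h1 := (hd.sum (J0 + Multiset.replicate 1 s) (by
          intro x hx
          rcases Multiset.mem_add.1 hx with hx | hx
          · exact hJ0w x hx
          · rw [Multiset.eq_of_mem_replicate hx]; exact hsw)).1 (by
          rw [Multiset.map_add, Multiset.map_replicate, hJ0m, huus, Multiset.sum_add, hJ10,
            Multiset.sum_replicate, nsmul_zero, add_zero])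
        rw [Multiset.card_add, hJ0card, Multiset.card_replicate] at h1
        exact h1
    refine hCYS p a ι ha hd s hs J0 J hJ0w hJw 1 t z hcyc ?_ ?_
    · obtain ⟨k, hk⟩ := hJe
      rw [hcardJ, hS'card, h3] at hk
      exact ⟨k - t, by omega⟩
    · rw [hJ', hSt, hJ0m]

end Pool.T4
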