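import Pool.Agent.Work.MP_223b32_t4.Interface9
import Pool.Agent.Work.MP_223b32_t4.FN2
import Pool.Agent.Work.MP_223b32_t4.FN3

/-! # Block AL9: the first alternative -/

set_option autoImplicit false

namespace Pool.T4

open Pool.Agent.Work.MP_223b32_ag

/-- A multiset of Weil numbers of `R` or supersingular ones, of even card and with sum `0`. -/
theorem AL9_cyc (hFN4 : Stmt_FN4) (p : ℕ) [Fact p.Prime] (a : ℕ) (ι : Qb →+* PadicAlgCl p)
    (ha : 0 < a) (hd : Dict (p ^ a) ι) (R T : Multiset Qb) (hR : IsAV (p ^ a) ι R)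
    (hcard : R.card ≤ 8) (hE : ¬ Exc4 (p ^ a) R) (hT : ∀ x ∈ T, Weil (p ^ a) x)
    (hP : PowOf (p ^ a) R T) (he : Even T.card) (h0 : (T.map (uu (p ^ a) ι)).sum = 0) :
    Cyc (p ^ a) ι T := by
  obtain ⟨j, hj⟩ := he
  refine hFN4 p a ι ha R T hR hcard hE hP T j le_rfl (by omega) ?_
  apply FN2_sim
  have h1 := (hd.sum T hT).1 h0
  rw [hj, ← two_mul] at h1
  exact h1

/-- The part of `R` which belongs to a stable set of vectors. -/
theorem AL9_part (hSAV : Stmt_SAV) (hPR9 : Stmt_PR9) (hHTC : Stmt_HTC) (p : ℕ) [Fact p.Prime]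
    (a : ℕ) (ι : Qb →+* PadicAlgCl p) (ρ : Qb →+* ℂ) (c : GQ) (hc : IsConj c ρ) (ha : 0 < a)
    (hd : Dict (p ^ a) ι) (R : Multiset Qb) (hR : IsAV (p ^ a) ι R) (hcard : R.card ≤ 10)
    (hnz : ∀ v ∈ R.map (uu (p ^ a) ι), v ≠ 0) (P : UU ι → Prop)
    (hP : ∀ (g : GQ) (v : UU ι), P v → P (g • v)) (hex : ∃ y ∈ R.map (uu (p ^ a) ι), ¬ P y) :
    ∃ R1 : Multiset Qb, R1 ≤ R ∧ IsAV (p ^ a) ι R1 ∧ R1.card ≤ 8 ∧
      ∀ x ∈ R, P (uu (p ^ a) ι x) → x ∈ R1 := by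
  classical
  have hRK : IsR (coreU ι ρ c hc) (R.map (uu (p ^ a) ι)) := hHTC p a ι ρ c hc ha hd R hR
  let V : Finset (UU ι) := (R.map (uu (p ^ a) ι)).toFinset.filter P
  have hV : ∀ v, v ∈ V ↔ v ∈ R.map (uu (p ^ a) ι) ∧ P v := fun v => by
    rw [Finset.mem_filter, Multiset.mem_toFinset]
  obtain ⟨R1, hle, hav, hmem, -⟩ := hSAV p a ι ha hd R hR V (fun g v hv => by
    rw [hV] at hv ⊢
    refine ⟨?_, hP g v hv.2⟩
    have h1 : g • v ∈ tr g (R.map (uu (p ^ a) ι)) := Multiset.mem_map_of_mem _ hv.1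
    rwa [hRK.stable g] at h1)
  refine ⟨R1, hle, hav, ?_, fun x hx hPx => (hmem x).2 ⟨hx, (hV _).2
    ⟨Multiset.mem_map_of_mem _ hx, hPx⟩⟩⟩
  have hlt : R1.card < R.card := by
    refine Multiset.card_lt_card (lt_of_le_of_ne hle ?_)
    rintro rfl
    obtain ⟨y, hy, hPy⟩ := hex
    obtain ⟨x, hx, rfl⟩ := Multiset.mem_map.1 hy
    exact hPy ((hV _).1 ((hmem x).1 hx).2).2
  have hev : Even (R1.map (uu (p ^ a) ι)).card := by
    refine hPR9 GQ (UU ι) (coreU ι ρ c hc) _ ((hHTC p a ι ρ c hc ha hd R1 hav).stable _) ?_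
    intro v hv
    obtain ⟨x, hx, rfl⟩ := Multiset.mem_map.1 hv
    exact hnz _ (Multiset.mem_map_of_mem _ (Multiset.mem_of_le hle hx))
  rw [Multiset.card_map] at hev
  obtain ⟨k, hk⟩ := hev
  omega

theorem p_AL9 (hSAV : Stmt_SAV) (hPR9 : Stmt_PR9) (hHTC : Stmt_HTC) (hFN4 : Stmt_FN4) :
    Stmt_AL9 := by
  classical
  intro p _ a ι ρ c hc ha hd R J hR hcard hnz hexc hJ hJe x hx hxy S1 S2 hJS hS1 hS2 h1 h2
  have hq : 0 < p ^ a := pow_pos (Fact.out (p := p.Prime)).pos a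
  obtain ⟨s, hs, hsw⟩ := CYD_sqrt (p ^ a) hq
  have huus : uu (p ^ a) ι s = 0 := (hd.ss s hsw).1 ⟨1, one_pos, by rw [hs]⟩
  have hss : SS (p ^ a) s := ⟨1, one_pos, by rw [hs]⟩
  have hpair : Sim (s * s) ((p ^ a : ℕ) : Qb) := ⟨1, one_pos, by rw [← hs, pow_two]⟩
  have hsm : ∀ (g : GQ) (v : UU ι), v ∈ gorb GQ x → g • v ∈ gorb GQ x := by
    rintro g v ⟨h, rfl⟩
    exact ⟨g * h, by simp only [mul_smul]⟩
  have hxx : x ∈ gorb GQ x := ⟨1, by simp only [one_smul]⟩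
  obtain ⟨R1, hR1, hR1av, hR1c, hR1m⟩ := AL9_part hSAV hPR9 hHTC p a ι ρ c hc ha hd R hR hcard hnz
    (fun v => v ∈ gorb GQ x) hsm hxy
  obtain ⟨R2, hR2, hR2av, hR2c, hR2m⟩ := AL9_part hSAV hPR9 hHTC p a ι ρ c hc ha hd R hR hcard hnz
    (fun v => v ∉ gorb GQ x) (fun g v hv h => hv (by
      have h3 := hsm g⁻¹ _ h
      rwa [inv_smul_smul] at h3)) ⟨x, hx, fun h => h hxx⟩
  have hE1 : ¬ Exc4 (p ^ a) R1 := fun h => hexc ⟨R1, hR1, h⟩
  have hE2 : ¬ Exc4 (p ^ a) R2 := fun h => hexc ⟨R2, hR2, h⟩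
  obtain ⟨A, hAJ, hA⟩ := FN2_lift (uu (p ^ a) ι) (s := S1) (t := J) (by
    rw [hJS]; exact Multiset.le_add_right _ _)
  obtain ⟨B, rfl⟩ := Multiset.le_iff_exists_add.1 hAJ
  have hB : B.map (uu (p ^ a) ι) = S2 := by
    rw [Multiset.map_add, hA] at hJS
    exact add_left_cancel hJS
  have hAw : ∀ y ∈ A, Weil (p ^ a) y := fun y hy => (hJ y (Multiset.mem_add.2 (Or.inl hy))).1
  have hBw : ∀ y ∈ B, Weil (p ^ a) y := fun y hy => (hJ y (Multiset.mem_add.2 (Or.inr hy))).1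
  have hAP : PowOf (p ^ a) R1 A := fun y hy => by
    obtain ⟨z, hz, hyz⟩ := (hJ y (Multiset.mem_add.2 (Or.inl hy))).2
    refine Or.inr ⟨z, hR1m z hz ?_, hyz⟩
    rw [← (hd.sim y z (hAw y hy) (hR.weil z hz)).1 hyz]
    exact hS1 _ (by rw [← hA]; exact Multiset.mem_map_of_mem _ hy)
  have hBP : PowOf (p ^ a) R2 B := fun y hy => by
    obtain ⟨z, hz, hyz⟩ := (hJ y (Multiset.mem_add.2 (Or.inr hy))).2
    refine Or.inr ⟨z, hR2m z hz ?_, hyz⟩
    rw [← (hd.sim y z (hBw y hy) (hR.weil z hz)).1 hyz]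
    exact hS2 _ (by rw [← hB]; exact Multiset.mem_map_of_mem _ hy)
  rw [Multiset.card_add] at hJe
  by_cases hAe : Even A.card
  · have hBe : Even B.card := (Nat.even_add.1 hJe).1 hAe
    exact Cyc.join A B
      (AL9_cyc hFN4 p a ι ha hd R1 A hR1av hR1c hE1 hAw hAP hAe (by rw [hA]; exact h1))
      (AL9_cyc hFN4 p a ι ha hd R2 B hR2av hR2c hE2 hBw hBP hBe (by rw [hB]; exact h2))
  · have hBe : ¬ Even B.card := fun h => hAe ((Nat.even_add.1 hJe).2 h)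
    have key : ∀ R' T : Multiset Qb, IsAV (p ^ a) ι R' → R'.card ≤ 8 → ¬ Exc4 (p ^ a) R' →
        (∀ y ∈ T, Weil (p ^ a) y) → PowOf (p ^ a) R' T → ¬ Even T.card →
        (T.map (uu (p ^ a) ι)).sum = 0 → Cyc (p ^ a) ι (T + {s}) := by
      intro R' T hav hc8 hE hw hP hodd h0
      refine AL9_cyc hFN4 p a ι ha hd R' (T + {s}) hav hc8 hE ?_ ?_ ?_ ?_
      · intro y hy
        rcases Multiset.mem_add.1 hy with hy | hy
        · exact hw y hy
        · rw [Multiset.mem_singleton.1 hy]; exact hsw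
      · intro y hy
        rcases Multiset.mem_add.1 hy with hy | hy
        · exact hP y hy
        · rw [Multiset.mem_singleton.1 hy]; exact Or.inl hss
      · rw [Multiset.card_add, Multiset.card_singleton]
        exact (Nat.not_even_iff_odd.1 hodd).add_one
      · rw [Multiset.map_add, Multiset.map_singleton, Multiset.sum_add, h0, huus,
          Multiset.sum_singleton, add_zero]
    refine Cyc.cancel (A + B) s s hsw hpair ?_
    have h3 := Cyc.join _ _ (key R1 A hR1av hR1c hE1 hAw hAP hAe (by rw [hA]; exact h1))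
      (key R2 B hR2av hR2c hE2 hBw hBP hBe (by rw [hB]; exact h2))
    have h4 : A + {s} + (B + {s}) = A + B + {s, s} := by
      have h5 : ({s, s} : Multiset Qb) = {s} + {s} := rfl
      rw [h5]
      abel
    rwa [h4] at h3

end Pool.T4
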