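import Pool.Agent.Work.MP_223b32_t4.Interface10
import Pool.Agent.Work.MP_223b32_t4.AL9

/-! # Block AL10: the first alternative, with supersingular elements -/

set_option autoImplicit false

namespace Pool.T4

open Pool.Agent.Work.MP_223b32_ag

theorem p_AL10 (hSAV : Stmt_SAV) (hPR9 : Stmt_PR9) (hHTC : Stmt_HTC) (hFN4 : Stmt_FN4) :
    Stmt_AL10 := by
  classical
  intro p _ a ι ρ c hc ha hd R J hR hcard hnz hexc hJ hJe x hx hxy S1 S2 z0 hJS hS1 hS2 h1 h2
  have hq : 0 < p ^ a := pow_pos (Fact.out (p := p.Prime)).pos a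
  obtain ⟨s, hs, hsw⟩ := CYD_sqrt (p ^ a) hq
  have huus : uu (p ^ a) ι s = 0 := (hd.ss s hsw).1 ⟨1, one_pos, by rw [hs]⟩
  have hss : SS (p ^ a) s := ⟨1, one_pos, by rw [hs]⟩
  have hpair : Sim (s * s) ((p ^ a : ℕ) : Qb) := ⟨1, one_pos, by rw [← hs, pow_two]⟩
  have hsm : ∀ (g : GQ) (v : UU ι), v ∈ gorb GQ x → g • v ∈ gorb GQ x := by
    rintro g v ⟨h, rfl⟩
    exact ⟨g * h, by simp only [mul_smul]⟩
  have hxx : x ∈ gorb GQ x := ⟨1, by simp only [one_smul]⟩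
  have hRK : IsR (coreU ι ρ c hc) (R.map (uu (p ^ a) ι)) := hHTC p a ι ρ c hc ha hd R hR
  have horb : ∀ v : UU ι, v ∈ gorb GQ x → v ∈ R.map (uu (p ^ a) ι) := by
    rintro v ⟨g, rfl⟩
    have h3 : g • x ∈ tr g (R.map (uu (p ^ a) ι)) := Multiset.mem_map_of_mem _ hx
    rwa [hRK.stable g] at h3
  obtain ⟨R1, hR1, hR1av, hR1c, hR1m⟩ := AL9_part hSAV hPR9 hHTC p a ι ρ c hc ha hd R hR hcard hnz
    (fun v => v ∈ gorb GQ x) hsm hxy
  obtain ⟨R2, hR2, hR2av, hR2c, hR2m⟩ := AL9_part hSAV hPR9 hHTC p a ι ρ c hc ha hd R hR hcard hnz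
    (fun v => v ∉ gorb GQ x) (fun g v hv h => hv (by
      have h3 := hsm g⁻¹ _ h
      rwa [inv_smul_smul] at h3)) ⟨x, hx, fun h => h hxx⟩
  have hE1 : ¬ Exc4 (p ^ a) R1 := fun h => hexc ⟨R1, hR1, h⟩
  have hE2 : ¬ Exc4 (p ^ a) R2 := fun h => hexc ⟨R2, hR2, h⟩
  rw [add_assoc] at hJS
  obtain ⟨A, hAJ, hA⟩ := FN2_lift (uu (p ^ a) ι) (s := S1) (t := J) (by
    rw [hJS]; exact Multiset.le_add_right _ _)
  obtain ⟨B, rfl⟩ := Multiset.le_iff_exists_add.1 hAJ
  have hB : B.map (uu (p ^ a) ι) = S2 + Multiset.replicate z0 0 := by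
    rw [Multiset.map_add, hA] at hJS
    exact add_left_cancel hJS
  have hB0 : (B.map (uu (p ^ a) ι)).sum = 0 := by
    rw [hB, Multiset.sum_add, h2, Multiset.sum_replicate, smul_zero, add_zero]
  have hAw : ∀ y ∈ A, Weil (p ^ a) y := fun y hy => hJ y (Multiset.mem_add.2 (Or.inl hy))
  have hBw : ∀ y ∈ B, Weil (p ^ a) y := fun y hy => hJ y (Multiset.mem_add.2 (Or.inr hy))
  have hAP : PowOf (p ^ a) R1 A := fun y hy => by
    have h3 : uu (p ^ a) ι y ∈ gorb GQ x :=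
      hS1 _ (by rw [← hA]; exact Multiset.mem_map_of_mem _ hy)
    obtain ⟨z, hz, hyz⟩ := Multiset.mem_map.1 (horb _ h3)
    refine Or.inr ⟨z, hR1m z hz ?_, (hd.sim y z (hAw y hy) (hR.weil z hz)).2 hyz.symm⟩
    show uu (p ^ a) ι z ∈ gorb GQ x
    rw [hyz]
    exact h3
  have hBP : PowOf (p ^ a) R2 B := fun y hy => by
    have h3 : uu (p ^ a) ι y ∈ S2 + Multiset.replicate z0 0 := by
      rw [← hB]
      exact Multiset.mem_map_of_mem _ hy
    rcases Multiset.mem_add.1 h3 with h4 | h4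
    · obtain ⟨h5, h6⟩ := hS2 _ h4
      obtain ⟨z, hz, hyz⟩ := Multiset.mem_map.1 h5
      refine Or.inr ⟨z, hR2m z hz ?_, (hd.sim y z (hBw y hy) (hR.weil z hz)).2 hyz.symm⟩
      show uu (p ^ a) ι z ∉ gorb GQ x
      rw [hyz]
      exact h6
    · exact Or.inl ((hd.ss y (hBw y hy)).2 (Multiset.eq_of_mem_replicate h4))
  rw [Multiset.card_add] at hJe
  by_cases hAe : Even A.card
  · have hBe : Even B.card := (Nat.even_add.1 hJe).1 hAe
    exact Cyc.join A B
      (AL9_cyc hFN4 p a ι ha hd R1 A hR1av hR1c hE1 hAw hAP hAe (by rw [hA]; exact h1))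
      (AL9_cyc hFN4 p a ι ha hd R2 B hR2av hR2c hE2 hBw hBP hBe hB0)
  · have hBe : ¬ Even B.card := fun h => hAe ((Nat.even_add.1 hJe).2 h)
    have key : ∀ R' T : Multiset Qb, IsAV (p ^ a) ι R' → R'.card ≤ 8 → ¬ Exc4 (p ^ a) R' →
        (∀ y ∈ T, Weil (p ^ a) y) → PowOf (p ^ a) R' T → ¬ Even T.card →
        (T.map (uu (p ^ a) ι)).sum = 0 → Cyc (p ^ a) ι (T + {s}) := by
      intro R' T hav hc8 hE hw hP hodd h0
      refine AL9_cyc hFN4 p a ι ha hd R' (T + {s}) hav hc8 hE ?_ ?_ ?_ ?_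
      · intro y hy
        rcases Multiset.mem_add.1 hy with hy | hy
        · exact hw y hy
        · rw [Multiset.mem_singleton.1 hy]; exact hsw
      · intro y hy
        rcases Multiset.mem_add.1 hy with hy | hy
        · exact hP y hy
        · rw [Multiset.mem_singleton.1 hy]; exact Or.inl hss
      · rw [Multiset.card_add, Multiset.card_singleton]
        exact (Nat.not_even_iff_odd.1 hodd).add_one
      · rw [Multiset.map_add, Multiset.map_singleton, Multiset.sum_add, h0, huus,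
          Multiset.sum_singleton, add_zero]
    refine Cyc.cancel (A + B) s s hsw hpair ?_
    have h3 := Cyc.join _ _ (key R1 A hR1av hR1c hE1 hAw hAP hAe (by rw [hA]; exact h1))
      (key R2 B hR2av hR2c hE2 hBw hBP hBe hB0)
    have h4 : A + {s} + (B + {s}) = A + B + {s, s} := by
      have h5 : ({s, s} : Multiset Qb) = {s} + {s} := rfl
      rw [h5]
      abel
    rwa [h4] at h3

end Pool.T4
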