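import Pool.Agent.Work.MP_223b32_t4.InterfaceU
import Pool.Agent.Work.MP_223b32_t4.ARV

/-!
# Block ARU: independent Weil numbers
-/

namespace Pool.T4

open Pool.Agent.Work.MP_223b32_ag

theorem p_ARU : Stmt_ARU := by
  intro p hp a ι ρ c hc ha hd R hR n x hx H
  have hq : ((p ^ a : ℕ) : Qb) ≠ 0 := by
    exact_mod_cast (pow_pos hp.out.pos a).ne'
  have hW : ∀ i, Weil (p ^ a) (x i) := fun i => hR _ (hx i)
  have hcx : ∀ i, x i * c (x i) = ((p ^ a : ℕ) : Qb) := fun i => hd.conj _ (hW i) ρ c hc
  have hx0 : ∀ i, x i ≠ 0 := by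
    intro i h
    have := hcx i
    rw [h, zero_mul] at this
    exact hq this.symm
  have hcx' : ∀ i, c (x i) = ((p ^ a : ℕ) : Qb) * (x i)⁻¹ := by
    intro i
    rw [← hcx i, mul_comm (x i), mul_assoc, mul_inv_cancel₀ (hx0 i), mul_one]
  rw [← LinearIndependent.iff_fractionRing ℤ ℚ, Fintype.linearIndependent_iff]
  intro g hg
  have key : g = 0 := by
    apply H
    let S : Multiset Qb := ∑ i, ((g i).toNat • ({x i} : Multiset Qb) +
      (-g i).toNat • ({c (x i)} : Multiset Qb))
    have hSW : ∀ y ∈ S, Weil (p ^ a) y := by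
      intro y hy
      obtain ⟨i, _, hi⟩ := Multiset.mem_sum.1 hy
      rw [Multiset.mem_add] at hi
      rcases hi with hi | hi
      · have h1 := Multiset.mem_of_mem_nsmul hi
        rw [Multiset.mem_singleton] at h1
        rw [h1]; exact hW i
      · have h1 := Multiset.mem_of_mem_nsmul hi
        rw [Multiset.mem_singleton] at h1
        rw [h1]; exact hd.weil _ (hW i) c
    have h1 : (S.map (uu (p ^ a) ι)).sum = 0 := by
      let φ : Multiset Qb →+ UU ι :=
        (Multiset.sumAddMonoidHom).comp (Multiset.mapAddMonoidHom (uu (p ^ a) ι))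
      have h2 : (S.map (uu (p ^ a) ι)).sum = φ S := rfl
      have h3 : ∀ y : Qb, φ {y} = uu (p ^ a) ι y := by
        intro y
        change (({y} : Multiset Qb).map (uu (p ^ a) ι)).sum = _
        rw [Multiset.map_singleton, Multiset.sum_singleton]
      have h4 : φ S = ∑ i, ((g i).toNat • uu (p ^ a) ι (x i) +
          (-g i).toNat • uu (p ^ a) ι (c (x i))) := by
        simp only [S, map_sum, map_add, map_nsmul, h3]
      rw [h2, h4, ← hg]
      apply Finset.sum_congr rfl
      intro i _
      rw [ARV_neg hd (hW i) hc, smul_neg, ← sub_eq_add_neg, ← natCast_zsmul, ← natCast_zsmul,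
        ← sub_smul, ARV_toNat]
    have h5 := (hd.sum S hSW).1 h1
    have h6 : S.card = ∑ i, ((g i).toNat + (-g i).toNat) := by
      simp only [S, Multiset.card_sum, Multiset.card_add, Multiset.card_nsmul,
        Multiset.card_singleton, mul_one]
    have h7 : S.prod = ∏ i, (x i ^ (g i).toNat * c (x i) ^ (-g i).toNat) := by
      simp only [S, Multiset.prod_sum, Multiset.prod_add, Multiset.prod_nsmul,
        Multiset.prod_singleton]
    obtain ⟨N, hN, h8⟩ := h5
    set Q : Qb := ((p ^ a : ℕ) : Qb) with hQ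
    set m : ℕ := ∑ i, (-g i).toNat with hm
    have h9 : S.prod ^ 2 = (∏ i, x i ^ (2 * g i)) * Q ^ (2 * m) := by
      rw [h7, ← Finset.prod_pow, mul_comm 2 m, pow_mul, hm, ← Finset.prod_pow_eq_pow_sum,
        ← Finset.prod_pow, ← Finset.prod_mul_distrib]
      apply Finset.prod_congr rfl
      intro i _
      rw [hcx' i]
      have h10 : x i ^ (2 * g i) = (x i ^ (g i).toNat * ((x i)⁻¹) ^ (-g i).toNat) ^ 2 := by
        rw [mul_comm, zpow_mul]
        have h11 : x i ^ g i = x i ^ (g i).toNat * ((x i)⁻¹) ^ (-g i).toNat := by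
          have h12 := ARV_toNat (g i)
          conv_lhs => rw [← h12]
          rw [zpow_sub₀ (hx0 i), zpow_natCast, zpow_natCast, inv_pow, div_eq_mul_inv]
        rw [h11]
        norm_cast
      rw [h10]
      ring
    have h10 : Q ^ S.card = Q ^ (∑ i, g i) * Q ^ (2 * m) := by
      rw [h6, ← zpow_natCast Q (2 * m), ← zpow_natCast Q, ← zpow_add₀ hq]
      congr 1
      rw [hm]
      push_cast
      rw [Finset.mul_sum, ← Finset.sum_add_distrib]
      apply Finset.sum_congr rfl
      intro i _
      have h12 := ARV_toNat (g i)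
      push_cast at h12
      linarith
    rw [h9, h10, mul_pow, mul_pow] at h8
    refine ⟨N, hN, ?_⟩
    exact mul_right_cancel₀ (pow_ne_zero _ (pow_ne_zero _ hq)) h8
  intro i
  rw [key]
  rfl

end Pool.T4
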