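import Pool.Agent.Work.MP_223b32_t4.Interface9

/-!
# Block AV9 (typed by helper63): averaging over a subgroup
-/

namespace Pool.T4

theorem p_AV9 : Stmt_AV9 := by
  classical
  intro G U _ _ _ _ H X hX
  letI act : MulAction H {x // x ∈ X} :=
    { smul := fun h x => ⟨(h : G) • (x : U), hX h h.2 x x.2⟩
      one_smul := fun x => Subtype.ext (one_smul G (x : U))
      mul_smul := fun g h x => Subtype.ext (mul_smul (g : G) (h : G) (x : U)) }
  let φ : H →* Equiv.Perm {x // x ∈ X} := MulAction.toPermHom H _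
  have hφ : ∀ (h : H) (x : {x // x ∈ X}),
      ((φ h x : {x // x ∈ X}) : U) = (h : G) • (x : U) := fun h x => rfl
  letI : Fintype φ.range := Fintype.ofFinite _
  have hs : ∀ π : φ.range, ∃ h : H, φ h = π := fun π => π.2
  choose s hs using hs
  have key : ∀ (π : φ.range) (x : {x // x ∈ X}),
      ((s π : H) : G) • (x : U) = (((π : Equiv.Perm {x // x ∈ X}) x : {x // x ∈ X}) : U) := by
    intro π x
    rw [← hφ, hs π]
  let B : U →+ U := ∑ π : φ.range, DistribSMul.toAddMonoidHom U ((s π : H) : G)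
  have hB : ∀ u : U, B u = ∑ π : φ.range, ((s π : H) : G) • u := by
    intro u
    simp only [B, AddMonoidHom.finset_sum_apply, DistribSMul.toAddMonoidHom_apply]
  have hcard : ((Fintype.card φ.range : ℕ) : ℚ) ≠ 0 := by
    have : 0 < Fintype.card φ.range := Fintype.card_pos
    exact_mod_cast this.ne'
  refine ⟨((Fintype.card φ.range : ℕ) : ℚ)⁻¹ • B.toRatLinearMap, ?_, ?_⟩
  · intro u hu
    have h1 : B u = (Fintype.card φ.range) • u := by
      rw [hB, Finset.sum_congr rfl (fun π _ => hu _ (s π).2), Finset.sum_const, Finset.card_univ]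
    change ((Fintype.card φ.range : ℕ) : ℚ)⁻¹ • B u = u
    rw [h1, ← Nat.cast_smul_eq_nsmul ℚ, smul_smul, inv_mul_cancel₀ hcard, one_smul]
  · intro O hO htr hst v hv
    have h2 : ∀ w ∈ O, B w = B v := by
      intro w hw
      obtain ⟨h, hh, hhv⟩ := htr v hv w hw
      have hvX : v ∈ X := hO hv
      have hwX : w ∈ X := hO hw
      rw [hB, hB]
      let π0 : φ.range := ⟨φ ⟨h, hh⟩, ⟨h, hh⟩, rfl⟩
      refine Fintype.sum_equiv (Equiv.mulRight π0) _ _ ?_
      intro π
      have e1 := key π ⟨w, hwX⟩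
      have e2 := key (π * π0) ⟨v, hvX⟩
      have e3 : (φ ⟨h, hh⟩) ⟨v, hvX⟩ = ⟨w, hwX⟩ := Subtype.ext hhv
      change ((s π : H) : G) • w = ((s (π * π0) : H) : G) • v
      rw [show ((s π : H) : G) • w = _ from e1, show ((s (π * π0) : H) : G) • v = _ from e2]
      change _ = (((π : Equiv.Perm {x // x ∈ X}) ((φ ⟨h, hh⟩) ⟨v, hvX⟩) : {x // x ∈ X}) : U)
      rw [e3]
    have h3 : ∀ g ∈ H, ∑ w ∈ O, g • w = O.sum id := by
      intro g hg
      refine Finset.sum_bij (fun w _ => g • w) (fun w hw => hst g hg w hw) ?_ ?_ ?_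
      · intro a _ b _ hab
        exact MulAction.injective g hab
      · intro b hb
        exact ⟨g⁻¹ • b, hst _ (H.inv_mem hg) b hb, smul_inv_smul g b⟩
      · intro w _
        rfl
    have h4 : O.card • B v = (Fintype.card φ.range) • O.sum id := by
      calc O.card • B v = ∑ w ∈ O, B w := by
            rw [Finset.sum_congr rfl h2, Finset.sum_const]
        _ = ∑ π : φ.range, ∑ w ∈ O, ((s π : H) : G) • w := by
            rw [Finset.sum_congr rfl (fun w _ => hB w), Finset.sum_comm]
        _ = ∑ _π : φ.range, O.sum id := Finset.sum_congr rfl (fun π _ => h3 _ (s π).2)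
        _ = _ := by rw [Finset.sum_const, Finset.card_univ]
    change (O.card : ℚ) • (((Fintype.card φ.range : ℕ) : ℚ)⁻¹ • B v) = O.sum id
    rw [smul_comm, Nat.cast_smul_eq_nsmul ℚ, h4, ← Nat.cast_smul_eq_nsmul ℚ, smul_smul,
      inv_mul_cancel₀ hcard, one_smul]

end Pool.T4
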