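import Pool.Agent.Work.MP_223b32_t4.Interface9
import Pool.Agent.Work.MP_223b32_t4.FN2

/-! # Block BE9: the second alternative -/

namespace Pool.T4

open Pool.Agent.Work.MP_223b32_ag

theorem BE9_cnt_add {U : Type} (v : U) (A B : Multiset U) :
    cnt v (A + B) = cnt v A + cnt v B := by
  classical
  unfold cnt
  exact Multiset.count_add _ _ _

theorem BE9_cnt_nsmul {U : Type} (v : U) (n : ℕ) (A : Multiset U) :
    cnt v (n • A) = n * cnt v A := by
  classical
  unfold cnt
  exact Multiset.count_nsmul _ _ _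

theorem BE9_cnt_ng {U : Type} [AddCommGroup U] (v : U) (A : Multiset U) :
    cnt v (ng A) = cnt (-v) A := by
  classical
  unfold cnt ng
  have h := Multiset.count_map_eq_count' (fun v : U => -v) A neg_injective (-v)
  simpa using h

theorem BE9_cnt_zero {U : Type} {v : U} {A : Multiset U} (h : v ∉ A) : cnt v A = 0 := by
  classical
  unfold cnt
  exact Multiset.count_eq_zero_of_notMem h

/-- The difference of the multiplicities of `v` and `-v`. -/
noncomputable def BE9_d {U : Type} [AddCommGroup U] (v : U) (A : Multiset U) : ℤ :=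
  (cnt v A : ℤ) - cnt (-v) A

theorem BE9_d_add {U : Type} [AddCommGroup U] (v : U) (A B : Multiset U) :
    BE9_d v (A + B) = BE9_d v A + BE9_d v B := by
  unfold BE9_d
  rw [BE9_cnt_add, BE9_cnt_add]
  push_cast
  ring

theorem BE9_d_nsmul {U : Type} [AddCommGroup U] (v : U) (n : ℕ) (A : Multiset U) :
    BE9_d v (n • A) = n * BE9_d v A := by
  unfold BE9_d
  rw [BE9_cnt_nsmul, BE9_cnt_nsmul]
  push_cast
  ring

theorem BE9_d_ng {U : Type} [AddCommGroup U] (v : U) (A : Multiset U) :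
    BE9_d v (ng A) = - BE9_d v A := by
  unfold BE9_d
  rw [BE9_cnt_ng, BE9_cnt_ng, neg_neg]
  ring

/-- The decomposition of a multiset supported in `V`, `y`, `-y`. -/
theorem BE9_split {U : Type} [AddCommGroup U] (V : Finset U) (y : U) (hy : y ≠ -y)
    (hyV : y ∉ V) (hyV' : -y ∉ V) (M : Multiset U) (hM : ∀ v ∈ M, v ∈ V ∨ v = y ∨ v = -y) :
    ∃ M0 : Multiset U, (∀ v ∈ M0, v ∈ V) ∧
      M = M0 + (cnt y M • ({y} : Multiset U) + cnt (-y) M • ({-y} : Multiset U)) := by
  classical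
  refine ⟨M.filter fun v => v ∈ V, fun v hv => (Multiset.mem_filter.1 hv).2, ?_⟩
  have h1 := Multiset.filter_add_not (fun v : U => v ∈ V) M
  have h2 : M.filter (fun v => ¬ v ∈ V) = M.filter (fun v => v = y) + M.filter (fun v => v = -y) := by
    ext u
    rw [Multiset.count_add, Multiset.count_filter, Multiset.count_filter, Multiset.count_filter]
    by_cases hu : u ∈ M
    · rcases hM u hu with h | h | h
      · have h3 : u ≠ y := fun h4 => hyV (h4 ▸ h)
        have h4 : u ≠ -y := fun h4 => hyV' (h4 ▸ h)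
        simp [h, h3, h4]
      · subst h
        simp [hyV, hy]
      · subst h
        simp [hyV', hy.symm]
    · rw [Multiset.count_eq_zero_of_notMem hu]
      simp
  have h3 : ∀ w : U, M.filter (fun v => v = w) = cnt w M • ({w} : Multiset U) := fun w => by
    rw [Multiset.nsmul_singleton, Multiset.filter_eq' M w]
    unfold cnt
    congr
  rw [h3, h3] at h2
  rw [h2] at h1
  exact h1.symm

theorem BE9_lift {q : ℕ} {p : ℕ} [Fact p.Prime] {ι : Qb →+* PadicAlgCl p} (N : Multiset (UU ι))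
    (hN : ∀ v ∈ N, ∃ x, Weil q x ∧ uu q ι x = v) :
    ∃ B : Multiset Qb, (∀ x ∈ B, Weil q x) ∧ B.map (uu q ι) = N := by
  induction N using Multiset.induction_on with
  | empty => exact ⟨0, fun x hx => absurd hx (Multiset.notMem_zero x), rfl⟩
  | cons v N ih =>
    obtain ⟨B, hB, hBm⟩ := ih fun u hu => hN u (Multiset.mem_cons_of_mem hu)
    obtain ⟨x, hx, hxv⟩ := hN v (Multiset.mem_cons_self v N)
    refine ⟨x ::ₘ B, fun z hz => ?_, ?_⟩
    · rcases Multiset.mem_cons.1 hz with rfl | hz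
      · exact hx
      · exact hB z hz
    · rw [Multiset.map_cons, hBm, hxv]

theorem BE9_nsmul {q : ℕ} {p : ℕ} [Fact p.Prime] {ι : Qb →+* PadicAlgCl p} {B : Multiset Qb}
    (h : Cyc q ι B) (n : ℕ) : Cyc q ι (n • B) := by
  induction n with
  | zero => rw [zero_nsmul]; exact Cyc.zero
  | succ n ih => rw [succ_nsmul]; exact Cyc.join _ _ ih h

/-- A multiple of a multiset, which is only needed if the factor is positive. -/
theorem BE9_mul {q : ℕ} {p : ℕ} [Fact p.Prime] {ι : Qb →+* PadicAlgCl p} (z : ℕ)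
    (N : Multiset (UU ι))
    (h : 0 < z → ∃ B : Multiset Qb, (∀ x ∈ B, Weil q x) ∧ B.map (uu q ι) = N ∧ Cyc q ι B) :
    ∃ C : Multiset Qb, (∀ x ∈ C, Weil q x) ∧ C.map (uu q ι) = z • N ∧ Cyc q ι C := by
  rcases Nat.eq_zero_or_pos z with hz | hz
  · exact ⟨0, fun x hx => absurd hx (Multiset.notMem_zero x), by
      rw [hz, zero_nsmul, Multiset.map_zero], Cyc.zero⟩
  · obtain ⟨B, hB, hBm, hBc⟩ := h hz
    refine ⟨z • B, fun x hx => hB x (Multiset.mem_of_mem_nsmul hx), ?_, BE9_nsmul hBc z⟩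
    rw [Multiset.map_nsmul, hBm]

theorem BE9_card {U : Type} (V : Finset U) (m : ℕ) (M : Multiset U) (hM : ∀ v ∈ M, v ∈ V)
    (hc : ∀ v ∈ V, cnt v M = m) : M.card = m * V.card := by
  classical
  have h1 : M = m • V.val := by
    ext u
    rw [Multiset.count_nsmul]
    by_cases hu : u ∈ V
    · have h2 := hc u hu
      rw [Multiset.count_eq_one_of_mem V.nodup hu, mul_one, ← h2]
      unfold cnt
      congr
    · rw [Multiset.count_eq_zero_of_notMem fun h => hu (hM u h),
        Multiset.count_eq_zero_of_notMem (s := V.val) hu, mul_zero]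
  rw [h1, Multiset.card_nsmul]
  rfl

theorem p_BE9 (hPY : Stmt_PY9) (hDT : Stmt_DT9) (hSAV : Stmt_SAV) (hFN : Stmt_FN4)
    (hCY : Stmt_CY9) (hEV : Stmt_EV9) : Stmt_BE9 := by
  intro p _ a ι ρ c hc ha hd R J hR hExc hJ hJe hJ0 hJnp y V m P hH
  have hq : 0 < p ^ a := pow_pos (Fact.out (p := p.Prime)).pos a
  have hJw : ∀ x ∈ J, Weil (p ^ a) x := fun x hx => (hJ x hx).1
  set M := J.map (uu (p ^ a) ι) with hMdef
  have hMc : M.card = J.card := Multiset.card_map _ _
  have hMR : ∀ v ∈ M, v ∈ R.map (uu (p ^ a) ι) := fun v hv => by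
    obtain ⟨x, hx, rfl⟩ := Multiset.mem_map.1 hv
    exact (hJ x hx).2
  obtain ⟨⟨z, hz⟩, z', hz'⟩ := hPY GQ (UU ι) (coreU ι ρ c hc) (R.map (uu (p ^ a) ι)) y V m P hH M
    hMR hJ0 hJnp (by rw [hMc]; exact hJe)
  have hmP := (hDT GQ (UU ι) (coreU ι ρ c hc) (R.map (uu (p ^ a) ι)) y V m P hH).1
  have hcc : ∀ v : UU ι, c • v = -v := (coreU ι ρ c hc).cc
  have hVng : ∀ v ∈ V, -v ∈ V := fun v hv => by
    rw [← hcc v]
    exact hH.orbit.stable c v hv
  have hyV : y ∉ V := hH.ny
  have hyV' : -y ∉ V := fun h => hyV (by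
    have := hVng _ h
    rwa [neg_neg] at this)
  have hyy : y ≠ -y := fun h => by
    have h1 : (2 : ℚ) • y = 0 := by
      rw [two_smul]
      nth_rw 2 [h]
      exact add_neg_cancel y
    exact hH.line.1 ((smul_eq_zero_iff_right (by norm_num)).1 h1)
  obtain ⟨M0, hM0, hMeq⟩ := BE9_split V y hyy hyV hyV' M fun v hv => hH.mem v (hMR v hv)
  rw [hz, hz'] at hMeq
  -- the part in `V`
  obtain ⟨R1, hR1, hR1av, hR1m, hR1c⟩ := hSAV p a ι ha hd R hR V hH.orbit.stable
  have hR1card : R1.card ≤ 8 := by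
    have h1 := BE9_card V m (R1.map (uu (p ^ a) ι)) (fun v hv => by
      obtain ⟨x, hx, rfl⟩ := Multiset.mem_map.1 hv
      exact ((hR1m x).1 hx).2) (fun v hv => by rw [hR1c v hv, (hH.mul v hv).2])
    rw [Multiset.card_map, hH.card] at h1
    exact h1.le
  have hVx : ∀ v ∈ V, ∃ x ∈ R1, uu (p ^ a) ι x = v := fun v hv => by
    obtain ⟨x, hx, hxv⟩ := Multiset.mem_map.1 (hH.mul v hv).1
    exact ⟨x, (hR1m x).2 ⟨hx, by rw [hxv]; exact hv⟩, hxv⟩
  have hVw : ∀ v ∈ V, ∃ x, Weil (p ^ a) x ∧ uu (p ^ a) ι x = v := fun v hv => by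
    obtain ⟨x, hx, hxv⟩ := hVx v hv
    exact ⟨x, hR1av.weil x hx, hxv⟩
  set Q : Multiset (UU ι) := m • P.val with hQdef
  have hQV : ∀ v ∈ Q, v ∈ V := fun v hv => hH.half.sub (Multiset.mem_of_mem_nsmul hv)
  have hQV' : ∀ v ∈ ng Q, v ∈ V := fun v hv => by
    obtain ⟨u, hu, rfl⟩ := Multiset.mem_map.1 hv
    exact hVng u (hQV u hu)
  have hQs : Q.sum = 2 • y := by
    rw [hQdef, Multiset.sum_nsmul, ← hH.sum]
    congr 1
    have h1 : P.sum id = (P.val.map id).sum := rfl
    rw [h1, Multiset.map_id]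
  have hQs' : (ng Q).sum = -(2 • y) := by
    unfold ng
    rw [Multiset.sum_map_neg, Multiset.map_id', hQs]
  have hQc : Q.card = 4 := by
    rw [hQdef, Multiset.card_nsmul]
    exact hmP
  have hQc' : (ng Q).card = 4 := by
    unfold ng
    rw [Multiset.card_map, hQc]
  have hMsum : M.sum = M0.sum + z • (2 • y) - z' • (2 • y) := by
    conv_lhs => rw [hMeq]
    rw [Multiset.sum_add, Multiset.sum_add, Multiset.sum_nsmul, Multiset.sum_nsmul,
      Multiset.sum_singleton, Multiset.sum_singleton]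
    module
  have hMcard : M.card = M0.card + (z + z) + (z' + z') := by
    conv_lhs => rw [hMeq]
    rw [Multiset.card_add, Multiset.card_add, Multiset.card_nsmul, Multiset.card_nsmul,
      Multiset.card_singleton, Multiset.card_singleton]
    ring
  set N : Multiset (UU ι) := M0 + (z • Q + z' • ng Q) with hNdef
  have hNV : ∀ v ∈ N, v ∈ V := fun v hv => by
    rcases Multiset.mem_add.1 hv with h | h
    · exact hM0 v h
    · rcases Multiset.mem_add.1 h with h | h
      · exact hQV v (Multiset.mem_of_mem_nsmul h)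
      · exact hQV' v (Multiset.mem_of_mem_nsmul h)
  have hNs : N.sum = 0 := by
    have h1 : (z • Q).sum = z • (2 • y) := by rw [Multiset.sum_nsmul Q z, hQs]
    have h2 : (z' • ng Q).sum = z' • (-(2 • y)) := by rw [Multiset.sum_nsmul (ng Q) z', hQs']
    rw [hNdef, Multiset.sum_add, Multiset.sum_add, h1, h2, ← hJ0, hMsum]
    module
  have hNc : N.card = M0.card + 4 * z + 4 * z' := by
    have h1 : (z • Q).card = z * 4 := by rw [Multiset.card_nsmul Q z, hQc]
    have h2 : (z' • ng Q).card = z' * 4 := by rw [Multiset.card_nsmul (ng Q) z', hQc']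
    rw [hNdef, Multiset.card_add, Multiset.card_add, h1, h2]
    ring
  obtain ⟨B0, hB0w, hB0m⟩ := BE9_lift (q := p ^ a) N fun v hv => hVw v (hNV v hv)
  have hB0c : B0.card = N.card := by rw [← hB0m, Multiset.card_map]
  obtain ⟨k, hk⟩ := hJe
  rw [← hMc, hMcard] at hk
  have hB0k : B0.card = 2 * (k + z + z') := by omega
  have hB0Cyc : Cyc (p ^ a) ι B0 := by
    refine hFN p a ι ha R1 B0 hR1av hR1card (fun h => hExc ⟨R1, hR1, h⟩) (fun x hx => ?_) B0
      (k + z + z') le_rfl hB0k ?_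
    · have h1 : uu (p ^ a) ι x ∈ N := by
        rw [← hB0m]; exact Multiset.mem_map_of_mem _ hx
      obtain ⟨x', hx', h2⟩ := hVx _ (hNV _ h1)
      exact Or.inr ⟨x', hx', (hd.sim x x' (hB0w x hx) (hR1av.weil x' hx')).2 h2.symm⟩
    · apply FN2_sim
      have h1 := (hd.sum B0 hB0w).1 (by rw [hB0m, hNs])
      rwa [hB0k] at h1
  -- the Weil classes
  have hyx : 0 < z ∨ 0 < z' → (∃ x, Weil (p ^ a) x ∧ uu (p ^ a) ι x = y) ∧
      ∃ x, Weil (p ^ a) x ∧ uu (p ^ a) ι x = -y := by
    intro h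
    have key : ∀ w : UU ι, cnt w M ≠ 0 → (∃ x, Weil (p ^ a) x ∧ uu (p ^ a) ι x = w) ∧
        ∃ x, Weil (p ^ a) x ∧ uu (p ^ a) ι x = -w := by
      intro w hw
      have h1 : w ∈ M := by
        by_contra h2
        exact hw (BE9_cnt_zero h2)
      obtain ⟨x, hx, hxw⟩ := Multiset.mem_map.1 h1
      refine ⟨⟨x, hJw x hx, hxw⟩, c x, hd.weil x (hJw x hx) c, ?_⟩
      rw [hd.smul x (hJw x hx), hxw, hcc]
    rcases h with h | h
    · exact key y (by omega)
    · have h1 := key (-y) (by omega)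
      rw [neg_neg] at h1
      exact ⟨h1.2, h1.1⟩
  obtain ⟨C1, hC1w, hC1m, hC1c⟩ := BE9_mul (q := p ^ a) z (ng Q + {y, y}) fun h => by
    obtain ⟨hx, hx'⟩ := hyx (Or.inl h)
    obtain ⟨B, hB, hBm⟩ := BE9_lift (q := p ^ a) (ng Q + {y, y}) fun v hv => by
      rcases Multiset.mem_add.1 hv with h | h
      · exact hVw v (hQV' v h)
      · have h1 : v = y := by simpa using h
        rw [h1]; exact hx
    exact ⟨B, hB, hBm, hCY p a ι ρ c hc ha hd R hR y V m P hH B hB (Or.inr hBm)⟩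
  obtain ⟨C2, hC2w, hC2m, hC2c⟩ := BE9_mul (q := p ^ a) z' (Q + {-y, -y}) fun h => by
    obtain ⟨hx, hx'⟩ := hyx (Or.inr h)
    obtain ⟨B, hB, hBm⟩ := BE9_lift (q := p ^ a) (Q + {-y, -y}) fun v hv => by
      rcases Multiset.mem_add.1 hv with h | h
      · exact hVw v (hQV v h)
      · have h1 : v = -y := by simpa using h
        rw [h1]; exact hx'
    exact ⟨B, hB, hBm, hCY p a ι ρ c hc ha hd R hR y V m P hH B hB (Or.inl hBm)⟩
  have hCc1 : C1.card = 6 * z := by
    have h1 := congrArg Multiset.card hC1m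
    rw [Multiset.card_map, Multiset.card_nsmul, Multiset.card_add, hQc'] at h1
    rw [h1]
    simp
    ring
  have hCc2 : C2.card = 6 * z' := by
    have h1 := congrArg Multiset.card hC2m
    rw [Multiset.card_map, Multiset.card_nsmul, Multiset.card_add, hQc] at h1
    rw [h1]
    simp
    ring
  refine hEV p a ι ha hd J (B0 + (C1 + C2)) hJw (fun x hx => ?_) ⟨k, ?_⟩ ?_ (fun v => ?_) ?_
  · rcases Multiset.mem_add.1 hx with h | h
    · exact hB0w x h
    · rcases Multiset.mem_add.1 h with h | h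
      · exact hC1w x h
      · exact hC2w x h
  · rw [← hMc, hMcard, hk]
  · rw [Multiset.card_add, Multiset.card_add, hB0k, hCc1, hCc2]
    exact ⟨k + z + z' + 3 * z + 3 * z', by ring⟩
  · have h1 : BE9_d v M = BE9_d v ((B0 + (C1 + C2)).map (uu (p ^ a) ι)) := by
      have h2 : ∀ w : UU ι, BE9_d v ({w, w} : Multiset (UU ι)) = 2 * BE9_d v {w} := fun w => by
        have h3 : ({w, w} : Multiset (UU ι)) = 2 • {w} := by
          rw [Multiset.nsmul_singleton]; rfl
        rw [h3, BE9_d_nsmul]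
        norm_num
      rw [Multiset.map_add, Multiset.map_add, hB0m, hC1m, hC2m, hNdef]
      conv_lhs => rw [hMeq]
      simp only [BE9_d_add, BE9_d_nsmul, BE9_d_ng, h2]
      push_cast
      ring
    exact h1
  · exact Cyc.join _ _ hB0Cyc (Cyc.join _ _ hC1c hC2c)

end Pool.T4
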