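import Pool.Agent.Work.MP_223b32_t4.InterfaceW
import Pool.Agent.Work.MP_223b32_t4.CYS

/-! # Block CSW: closure under multiples -/

namespace Pool.T4

open Pool.Agent.Work.MP_223b32_ag

theorem CSW_nsmul {q p : ℕ} [Fact p.Prime] {ι : Qb →+* PadicAlgCl p} {J : Multiset Qb}
    (h : CycW q ι J) (t : ℕ) : CycW q ι (t • J) := by
  induction t with
  | zero => rw [zero_nsmul]; exact CycW.zero
  | succ t ih => rw [succ_nsmul]; exact CycW.join _ _ ih h

theorem CSW_cancel {q p : ℕ} [Fact p.Prime] {ι : Qb →+* PadicAlgCl p} {s : Qb}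
    (hw : Weil q s) (hs : Sim (s * s) q) (J : Multiset Qb) (k : ℕ) :
    CycW q ι (J + k • ({s, s} : Multiset Qb)) → CycW q ι J := by
  induction k with
  | zero => intro h; rwa [zero_nsmul, add_zero] at h
  | succ k ih =>
    intro h
    rw [succ_nsmul, ← add_assoc] at h
    exact ih (CycW.cancel _ s s hw hs h)

theorem p_CSW : Stmt_CSW := by
  intro p _ a ι ha D s hs J S hJ hS e t z hC hE hU
  classical
  have hw : Weil (p ^ a) s := CYS_weil hs
  have hss : Sim (s * s) ((p ^ a : ℕ) : Qb) := by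
    rw [← sq, hs]
    exact ⟨1, one_pos, rfl⟩
  have hus : uu (p ^ a) ι s = 0 := by
    rw [← D.ss s hw]
    unfold SS
    rw [hs]
    exact ⟨1, one_pos, rfl⟩
  -- the map from vectors to germs
  obtain ⟨φ, hφ⟩ : ∃ φ : UU ι → Quotient simSetoid, ∀ x, Weil (p ^ a) x →
      φ (uu (p ^ a) ι x) = germ x := by
    refine ⟨fun v => if h : ∃ x, Weil (p ^ a) x ∧ uu (p ^ a) ι x = v then germ h.choose else
      germ 0, fun x hx => ?_⟩
    have h : ∃ y, Weil (p ^ a) y ∧ uu (p ^ a) ι y = uu (p ^ a) ι x := ⟨x, hx, rfl⟩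
    simp only [dif_pos h]
    have h1 := h.choose_spec
    exact Quotient.sound ((D.sim _ _ h1.1 hx).2 h1.2)
  have hg : ∀ T : Multiset Qb, (∀ x ∈ T, Weil (p ^ a) x) →
      (T.map (uu (p ^ a) ι)).map φ = T.map germ := by
    intro T hT
    rw [Multiset.map_map]
    exact Multiset.map_congr rfl fun x hx => hφ x (hT x hx)
  have hTW : ∀ x ∈ t • J + Multiset.replicate z s, Weil (p ^ a) x := by
    intro x hx
    rcases Multiset.mem_add.1 hx with h | h
    · exact hJ x (Multiset.mem_of_mem_nsmul h)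
    · rw [Multiset.eq_of_mem_replicate h]; exact hw
  have hTU : (t • J + Multiset.replicate z s).map (uu (p ^ a) ι) = S.map (uu (p ^ a) ι) := by
    rw [hU, Multiset.map_add, Multiset.map_nsmul, Multiset.map_replicate, hus]
  have hgerm : (t • J + Multiset.replicate z s).map germ = S.map germ := by
    rw [← hg _ hTW, ← hg _ hS, hTU]
  refine CycW.sim _ _ hgerm ?_
  have h1 : CycW (p ^ a) ι (t • J + Multiset.replicate (e * t) s) := by
    have h := CSW_nsmul hC t
    rwa [nsmul_add, Multiset.nsmul_replicate, mul_comm t e] at h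
  rcases le_total (e * t) z with h | h
  · obtain ⟨k, hk⟩ : ∃ k, z = e * t + 2 * k := by
      obtain ⟨m, hm⟩ := hE
      exact ⟨m - e * t, by omega⟩
    rw [hk, CYS_rep, ← add_assoc]
    exact CycW.join _ _ h1 (CSW_nsmul (CycW.pair s s hw hss) k)
  · obtain ⟨k, hk⟩ : ∃ k, e * t = z + 2 * k := by
      obtain ⟨m, hm⟩ := hE
      exact ⟨m - z, by omega⟩
    rw [hk, CYS_rep, ← add_assoc] at h1
    exact CSW_cancel hw hss _ k h1

end Pool.T4
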