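import Pool.Agent.Work.MP_223b32_t4.InterfaceV

/-! # Block CYV: the sixfold -/

namespace Pool.T4

theorem p_CYV (hX : Stmt_MXV) (hQ : Stmt_RQU) : Stmt_CYV := by
  intro p _ a ι ρ c hc ha hd R J hR hJ hh ho
  obtain ⟨r, m, hm, hr, hg⟩ := hQ p a ι ha hd J
    (fun x hx => hR.weil x (Multiset.mem_of_le hJ hx)) hh.sgn hh.ne
  obtain ⟨S, hSJ, hcm⟩ := hX p a ι ρ c hc ha hd R J hR hJ hh ho r m hm hr hg
  exact CycW.sim S J hSJ (CycW.weil6 r m false S hcm)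

end Pool.T4
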