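import Pool.Agent.Work.MP_223b32_t4.Interface9

/-! # Block DT9: the decomposition group (helper82) -/

namespace Pool.T4

open Pool.Agent.Work.MP_223b32_ag

section

variable {G U : Type} [Group G] [AddCommGroup U] [Module ℚ U] [DistribMulAction G U]

theorem DT9_eq (K : Core G U) (y : U) (V P : Finset U) (hL : Line G y) (hH : Half G y V P)
    (hc : P.card ≤ 2) (u v : U) (hu : u ∈ P) (hv : v ∈ P) (hw : K.w u = K.w v) : u = v := by
  classical
  by_contra hne
  have hP : ({u, v} : Finset U) = P := by
    apply Finset.eq_of_subset_of_card_le
    · intro x hx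
      simp only [Finset.mem_insert, Finset.mem_singleton] at hx
      rcases hx with rfl | rfl
      · exact hu
      · exact hv
    · rw [Finset.card_pair hne]
      exact hc
  have hall : ∀ x ∈ P, K.w x = K.w v := by
    intro x hx
    rw [← hP] at hx
    simp only [Finset.mem_insert, Finset.mem_singleton] at hx
    rcases hx with h | h
    · rw [h]
      exact hw
    · rw [h]
  apply hne
  have h0 : u - v = 0 := by
    apply K.kron
    intro g
    rw [smul_sub, map_sub]
    rcases hL.2 g with h | h
    · rw [hall _ (hH.pos g h u hu), hall _ (hH.pos g h v hv), sub_self]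
    · have h1 := hall _ (hH.neg g h u hu)
      have h2 := hall _ (hH.neg g h v hv)
      rw [map_neg] at h1 h2
      linarith
  exact sub_eq_zero.mp h0

theorem DT9_card (K : Core G U) (y : U) (V P : Finset U) (m : ℕ) (hV : IsOrb K V m)
    (hH : Half G y V P) : 2 * P.card = V.card := by
  classical
  have hinj : (P.image fun v => -v).card = P.card :=
    Finset.card_image_of_injective P neg_injective
  have hdis : Disjoint P (P.image fun v => -v) := by
    rw [Finset.disjoint_left]
    intro v hv hv'
    rw [Finset.mem_image] at hv'
    obtain ⟨u, hu, rfl⟩ := hv'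
    have h1 := (hH.half (-u) (hH.sub hv)).mp hv
    rw [neg_neg] at h1
    exact h1 hu
  have hun : V = P ∪ P.image fun v => -v := by
    ext v
    rw [Finset.mem_union, Finset.mem_image]
    constructor
    · intro hv
      by_cases h : v ∈ P
      · exact Or.inl h
      · right
        refine ⟨-v, ?_, neg_neg v⟩
        by_contra h'
        exact h ((hH.half v hv).mpr h')
    · rintro (hv | ⟨u, hu, rfl⟩)
      · exact hH.sub hv
      · have h1 := hV.stable K.c0 u (hH.sub hu)
        rw [K.cc] at h1
        exact h1
  rw [hun, Finset.card_union_of_disjoint hdis, hinj]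
  ring

end

theorem p_DT9 (hLNE : Stmt_LNE) : Stmt_DT9 := by
  classical
  intro G U _ _ _ _ K R y V m P hx
  have hcard := DT9_card K y V P m hx.orbit hx.half
  have h4 : m * P.card = 4 := by
    have h8 := hx.card
    rw [← hcard] at h8
    have : m * (2 * P.card) = 2 * (m * P.card) := by ring
    omega
  refine ⟨h4, ?_⟩
  have hm : m ≤ 4 := by
    have hpos : 0 < P.card := by
      rcases Nat.eq_zero_or_pos P.card with h | h
      · rw [h] at h4
        omega
      · exact h
    calc m = m * 1 := (mul_one m).symm
      _ ≤ m * P.card := Nat.mul_le_mul_left m hpos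
      _ = 4 := h4
  have hD := (hLNE G U K y hx.line).2
  have key : P.card ≤ 2 → ∀ d ∈ K.D, ∀ v ∈ V, d • v = v := by
    intro hc
    have hP : ∀ d ∈ K.D, ∀ v ∈ P, d • v = v := by
      intro d hd v hv
      exact DT9_eq K y V P hx.line hx.half hc _ _ (hx.half.pos d (hD d hd) v hv) hv
        (K.wD d hd v)
    intro d hd v hv
    by_cases h : v ∈ P
    · exact hP d hd v h
    · have h' : -v ∈ P := by
        by_contra h'
        exact h ((hx.half.half v hv).mpr h')
      have h1 := hP d hd _ h'
      rw [smul_neg] at h1
      exact neg_injective h1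
  interval_cases m
  · omega
  · exact Or.inl rfl
  · right
    exact ⟨Or.inl rfl, key (by omega)⟩
  · omega
  · right
    exact ⟨Or.inr rfl, key (by omega)⟩

end Pool.T4
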