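import Pool.Agent.Work.MP_223b32_t4.Defs

/-! # Independence of several abelian varieties -/

namespace Pool.T4

/-- The abelian varieties with the Weil numbers `R 0, …, R (n - 1)` are independent: for every `i`
some automorphism `g i` acts as the complex conjugation on the germs in `R i` (`x * g i x ~ q`) and
trivially on the germs in all the other `R j`.  This is so if the Galois closures of the fields
`ℚ(x ^ N : x ∈ R i)`, `N` sufficiently divisible, are linearly disjoint over `ℚ`. -/
def Indep (q : ℕ) {n : ℕ} (R : Fin n → Multiset Qb) : Prop :=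
  ∃ g : Fin n → GQ, (∀ i, ∀ x ∈ R i, Sim (x * g i x) (q : Qb)) ∧
    ∀ i j, i ≠ j → ∀ x ∈ R j, Sim (g i x) x

end Pool.T4
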