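import Pool.Agent.Work.MP_223b32_t4.Defs

/-!
# The exception for powers times supersingular abelian varieties in dimension five
-/

namespace Pool.T4

/-- There are `x`, `x'`, `y` in `R`, not supersingular, such that `y` generates (after a finite
extension of the finite field) an imaginary quadratic field, and `x * x' * y` is `q ^ (3 / 2)` up to
roots of unity. -/
def Tri (q : ℕ) (R : Multiset Qb) : Prop :=
  ∃ x ∈ R, ∃ x' ∈ R, ∃ y ∈ R, ¬ SS q x ∧ ¬ SS q x' ∧ ¬ SS q y ∧
    (∀ g : GQ, Sim (g y) y ∨ Sim (y * g y) q) ∧ Sim ((x * x' * y) ^ 2) ((q : Qb) ^ 3)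

end Pool.T4
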