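import Pool.Agent.Work.MP_223b32_t4.DefsW

/-!
# Simple abelian varieties of dimension six of angle rank at least five
-/

namespace Pool.T4

open Pool.Agent.Work.MP_223b32_ag

variable {p : ℕ} [Fact p.Prime]

/-- The angle rank is at least five: five elements of `R` have no multiplicative relation modulo
powers of `q` and roots of unity. -/
def FiveIndep (q : ℕ) (R : Multiset Qb) : Prop :=
  ∃ x : Fin 5 → Qb, (∀ i, x i ∈ R) ∧ ∀ c : Fin 5 → ℤ,
    Sim (∏ i, x i ^ (2 * c i)) ((q : Qb) ^ (∑ i, c i)) → c = 0

/-- `p` splits in all imaginary quadratic fields `ℚ(r)` which are contained in the Galois closure of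
`ℚ(x ^ N : x ∈ R)`, `N` sufficiently divisible. -/
def KSplit (ι : Qb →+* PadicAlgCl p) (R : Multiset Qb) : Prop :=
  ∀ (r : Qb) (m : ℚ), 0 < m → r ^ 2 = -(m : Qb) →
    (∀ g : GQ, (∀ x ∈ R, Sim (g x) x) → g r = r) → ∀ d ∈ dec ι, d r = r

/-- The Newton polygon of the abelian variety goes through the point `(dim, 1)`: the sum over `R` of
`min(s, 1 - s)`, `s` the slope, is `2`. -/
def MidOne (q : ℕ) (ι : Qb →+* PadicAlgCl p) (R : Multiset Qb) : Prop :=
  (R.map fun x => max ‖ι x‖ ((q : ℝ) * ‖ι x‖)⁻¹).prod * (q : ℝ) ^ 2 = 1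

/-- The Weil numbers of an absolutely simple abelian variety of dimension six with twelve different
germs, of angle rank at least five (for instance if five divides the degree of the Galois closure),
and one of the following holds: `p` splits in the imaginary quadratic field; some place over `p` of
the totally real field does not split; the Newton polygon does not go through `(6, 1)` (for
instance ordinary). -/
def SixOK (q : ℕ) (ι : Qb →+* PadicAlgCl p) (R : Multiset Qb) : Prop :=
  R.card ≤ 12 ∧ (∃ x ∈ R, (galOrbit x).ncard = 12) ∧ (HasFive R ∨ FiveIndep q R) ∧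
    (KSplit ι R ∨ SelfConj q ι R ∨ ¬ MidOne q ι R)

end Pool.T4
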