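import Pool.Agent.Work.MP_223b32_t4.DefsPow
import Pool.Agent.Work.MP_223b32_t4.Defs6
import Pool.Agent.Work.MP_223b32_t4.DefsInd
import Pool.Agent.Work.MP_223b32_t4.DefsTri
import Pool.Agent.Work.MP_223b32_t4.DefsV

/-! # The abelian varieties of the theorem -/

namespace Pool.T4

variable {p : ℕ} [Fact p.Prime]

/-- The abelian variety contains (up to isogeny, over the algebraic closure of the finite field) an
abelian variety of dimension four without supersingular factors as in `Exc4`. -/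
def HasExc (q : ℕ) (R : Multiset Qb) : Prop := ∃ S ≤ R, Exc4 q S ∧ ∀ x ∈ S, ¬ SS q x

/-- The abelian varieties of dimension at most five which do not contain `Exc4`. -/
def Five (q : ℕ) (ι : Qb →+* PadicAlgCl p) (R : Multiset Qb) : Prop :=
  IsAV q ι R ∧ R.card ≤ 10 ∧ ¬ HasExc q R

/-- The abelian varieties whose powers, times supersingular abelian varieties, are considered:
dimension at most five, not containing `Exc4`, and not `Tri` in dimension five; simple abelian
varieties of dimension six as in `SixOK`. -/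
def Factor2 (q : ℕ) (ι : Qb →+* PadicAlgCl p) (R : Multiset Qb) : Prop :=
  (Five q ι R ∧ (R.card ≤ 8 ∨ ¬ Tri q R)) ∨ (IsAV q ι R ∧ SixOK q ι R)

/-- The theorem is about this multiset `T`. -/
def Covered (q : ℕ) (ι : Qb →+* PadicAlgCl p) (T : Multiset Qb) : Prop :=
  (IsAV q ι T ∧ T.card ≤ 10 ∧ ¬ (HasExc q T ∧ ∃ x ∈ T, SS q x)) ∨
  (∃ R, Five q ι R ∧ ∀ x ∈ T, ∃ y ∈ R, Sim x y) ∨
  (∃ (n : ℕ) (R : Fin n → Multiset Qb), (∀ i, Factor2 q ι (R i)) ∧ (n = 1 ∨ Indep q R) ∧
    PowOf q (∑ i, R i) T)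

end Pool.T4
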