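import Pool.Agent.Work.MP_223b32_t4.Interface9

/-! Block EQ9: the classification. -/

set_option autoImplicit false
set_option linter.unusedSectionVars false

namespace Pool.T4

open Pool.Agent.Work.MP_223b32_ag

section

variable {G U : Type} [Group G] [AddCommGroup U] [Module ℚ U] [DistribMulAction G U]

theorem EQ9_gorb_symm {x y : U} (h : y ∈ gorb G x) : x ∈ gorb G y := by
  obtain ⟨g, rfl⟩ := h
  exact ⟨g⁻¹, (inv_smul_smul g x).symm⟩

theorem EQ9_gorb_trans {x y z : U} (h : y ∈ gorb G x) (h' : z ∈ gorb G y) : z ∈ gorb G x := by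
  obtain ⟨g, rfl⟩ := h
  obtain ⟨g', rfl⟩ := h'
  exact ⟨g' * g, (mul_smul g' g x).symm⟩

theorem EQ9_gorb_self (x : U) : x ∈ gorb G x := ⟨1, (one_smul G x).symm⟩

omit [DistribMulAction G U] [Group G] in
theorem EQ9_ne_neg {v : U} (h : v ≠ 0) : v ≠ -v := by
  intro h1
  apply h
  have h3 : (2 : ℚ) • v = 0 := by
    rw [two_smul]
    nth_rewrite 1 [h1]
    exact neg_add_cancel v
  exact (smul_eq_zero.mp h3).resolve_left two_ne_zero

/-- the number of elements with the property `p` -/
noncomputable def EQ9_n (R : Multiset U) (p : U → Prop) : ℕ :=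
  @Multiset.countP U p (Classical.decPred p) R

omit [AddCommGroup U] [Module ℚ U] [DistribMulAction G U] [Group G] in
theorem EQ9_cons_pos (a : U) (R : Multiset U) (p : U → Prop) (h : p a) :
    EQ9_n (a ::ₘ R) p = EQ9_n R p + 1 := by
  classical
  unfold EQ9_n
  exact Multiset.countP_cons_of_pos (s := R) h

omit [AddCommGroup U] [Module ℚ U] [DistribMulAction G U] [Group G] in
theorem EQ9_cons_neg (a : U) (R : Multiset U) (p : U → Prop) (h : ¬ p a) :
    EQ9_n (a ::ₘ R) p = EQ9_n R p := by
  classical
  unfold EQ9_n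
  exact Multiset.countP_cons_of_neg (s := R) h

omit [AddCommGroup U] [Module ℚ U] [DistribMulAction G U] [Group G] in
theorem EQ9_three (R : Multiset U) (p q r : U → Prop) (h1 : ∀ v, p v → ¬ q v)
    (h2 : ∀ v, p v → ¬ r v) (h3 : ∀ v, q v → ¬ r v) :
    EQ9_n R p + EQ9_n R q + EQ9_n R r ≤ R.card := by
  classical
  induction R using Multiset.induction_on with
  | empty => simp [EQ9_n]
  | cons a R ih =>
    rw [Multiset.card_cons]
    by_cases hp : p a
    · rw [EQ9_cons_pos a R p hp, EQ9_cons_neg a R q (h1 a hp), EQ9_cons_neg a R r (h2 a hp)]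
      omega
    · rw [EQ9_cons_neg a R p hp]
      by_cases hq : q a
      · rw [EQ9_cons_pos a R q hq, EQ9_cons_neg a R r (h3 a hq)]
        omega
      · rw [EQ9_cons_neg a R q hq]
        by_cases hr : r a
        · rw [EQ9_cons_pos a R r hr]
          omega
        · rw [EQ9_cons_neg a R r hr]
          omega

omit [AddCommGroup U] [Module ℚ U] [DistribMulAction G U] [Group G] in
theorem EQ9_two (R : Multiset U) (p q : U → Prop) (h1 : ∀ v, p v → ¬ q v) :
    EQ9_n R p + EQ9_n R q ≤ R.card := by
  have h := EQ9_three R p q (fun _ => False) h1 (fun _ _ h => h) (fun _ _ h => h)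
  omega

omit [AddCommGroup U] [Module ℚ U] [DistribMulAction G U] [Group G] in
theorem EQ9_rest (R : Multiset U) (p q : U → Prop) (h : EQ9_n R p + EQ9_n R q < R.card) :
    ∃ z ∈ R, ¬ p z ∧ ¬ q z := by
  classical
  by_contra hcon
  push Not at hcon
  revert h
  rw [imp_false, not_lt]
  induction R using Multiset.induction_on with
  | empty => simp
  | cons a R ih =>
    have ih' := ih (fun z hz => hcon z (Multiset.mem_cons_of_mem hz))
    rw [Multiset.card_cons]
    by_cases hp : p a
    · rw [EQ9_cons_pos a R p hp]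
      by_cases hq : q a
      · rw [EQ9_cons_pos a R q hq]
        omega
      · rw [EQ9_cons_neg a R q hq]
        omega
    · have hq := hcon a (Multiset.mem_cons_self a R) hp
      rw [EQ9_cons_neg a R p hp, EQ9_cons_pos a R q hq]
      omega

omit [AddCommGroup U] [Module ℚ U] [DistribMulAction G U] [Group G] in
theorem EQ9_pos (R : Multiset U) (p : U → Prop) (v : U) (hv : v ∈ R) (h : p v) :
    0 < EQ9_n R p := by
  classical
  unfold EQ9_n
  exact Multiset.countP_pos_of_mem hv h

omit [AddCommGroup U] [Module ℚ U] [DistribMulAction G U] [Group G] in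
theorem EQ9_fin (R : Multiset U) (W : Finset U) (m : ℕ) (h : ∀ v ∈ W, cnt v R = m) :
    EQ9_n R (fun v => v ∈ W) = m * W.card := by
  classical
  have hcnt : ∀ v : U, cnt v R = R.count v := by
    intro v
    unfold cnt
    congr
  have h0 : EQ9_n R (fun v => v ∈ W) = (R.filter (fun v => v ∈ W)).card := by
    unfold EQ9_n
    rw [← Multiset.countP_eq_card_filter]
    congr
  rw [h0]
  have h1 : ∑ v ∈ W, (R.filter (fun v => v ∈ W)).count v = (R.filter (fun v => v ∈ W)).card :=
    Multiset.sum_count_eq_card (fun a ha => (Multiset.mem_filter.mp ha).2)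
  rw [← h1]
  have h2 : ∀ v ∈ W, (R.filter (fun v => v ∈ W)).count v = m := by
    intro v hv
    rw [Multiset.count_filter_of_pos hv, ← hcnt v, h v hv]
  rw [Finset.sum_congr rfl h2, Finset.sum_const, smul_eq_mul, mul_comm]

/-- `V` is the orbit of `x`. -/
structure EQ9_Orb (K : Core G U) (R : Multiset U) (x : U) (V : Finset U) : Prop where
  isOrb : IsOrb K V (cnt x R)
  mem : ∀ v, v ∈ V ↔ v ∈ gorb G x
  all : ∀ v ∈ V, v ∈ R ∧ cnt v R = cnt x R
  ev : Even V.card
  self : x ∈ V

theorem EQ9_s {K : Core G U} {R : Multiset U} {x : U} {V : Finset U} (h : EQ9_Orb K R x V) :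
    EQ9_n R (fun v => v ∈ gorb G x) = cnt x R * V.card := by
  have h1 : (fun v => v ∈ gorb G x) = (fun v => v ∈ V) := by
    funext v
    exact propext (h.mem v).symm
  rw [h1]
  exact EQ9_fin R V (cnt x R) (fun v hv => (h.all v hv).2)

theorem EQ9_pair {K : Core G U} {V : Finset U} {m : ℕ} (h : IsOrb K V m) {x : U} (hx : x ∈ V)
    (h2 : V.card = 2) : ∀ v ∈ V, v = x ∨ v = -x := by
  classical
  have hnx : -x ∈ V := by
    rw [← K.cc x]
    exact h.stable K.c0 x hx
  have hne : x ≠ -x := EQ9_ne_neg (h.nz x hx)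
  have hsub : ({x, -x} : Finset U) ⊆ V := by
    intro v hv
    rw [Finset.mem_insert, Finset.mem_singleton] at hv
    rcases hv with rfl | rfl
    · exact hx
    · exact hnx
  have heq : ({x, -x} : Finset U) = V := by
    apply Finset.eq_of_subset_of_card_le hsub
    rw [h2, Finset.card_pair hne]
  intro v hv
  rw [← heq, Finset.mem_insert, Finset.mem_singleton] at hv
  exact hv

theorem EQ9_line {K : Core G U} {V : Finset U} {m : ℕ} (h : IsOrb K V m) {x : U} (hx : x ∈ V)
    (h2 : V.card = 2) : Line G x :=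
  ⟨h.nz x hx, fun g => EQ9_pair h hx h2 _ (h.stable g x hx)⟩

theorem EQ9_star (hLNE : Stmt_LNE) {K : Core G U} {R : Multiset U} {x : U} {V : Finset U}
    (hlin : ∀ v ∈ R, Line G v → (K.w v = 1 ∨ K.w v = -1) → cnt v R = 1)
    (h : EQ9_Orb K R x V) (h2 : V.card = 2) (hm : cnt x R ≤ 2) :
    Line G x ∧ (K.w x = 1 ∨ K.w x = -1) ∧ cnt x R = 1 := by
  have hL : Line G x := EQ9_line h.isOrb h.self h2
  have hw : K.w x = 1 ∨ K.w x = -1 := by
    obtain ⟨hw0, hD⟩ := hLNE G U K x hL
    have horb : orb K.D x = {x} := by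
      ext v
      constructor
      · rintro ⟨d, hd, rfl⟩
        exact hD d hd
      · intro hv
        have hv' : v = x := hv
        rw [hv']
        exact ⟨1, K.D.one_mem, (one_smul G x).symm⟩
    obtain ⟨n, hn⟩ := h.isOrb.ht x h.self
    rw [horb, Set.ncard_singleton, mul_one] at hn
    have hle := h.isOrb.le_one x h.self
    rw [abs_le] at hle
    have hm0 := h.isOrb.m_pos
    have hcase : cnt x R = 1 ∨ cnt x R = 2 := by omega
    rcases hcase with h1 | h1
    · rw [h1] at hn
      push_cast at hn
      rw [one_mul] at hn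
      have hn1 : (n : ℝ) ≤ 1 := by linarith [hle.2]
      have hn2 : n ≤ 1 := by exact_mod_cast hn1
      have hn3 : n = 0 ∨ n = 1 := by omega
      rcases hn3 with h4 | h4
      · right
        rw [h4] at hn
        push_cast at hn
        linarith
      · left
        rw [h4] at hn
        push_cast at hn
        linarith
    · rw [h1] at hn
      push_cast at hn
      have hn1 : (n : ℝ) ≤ 2 := by linarith [hle.2]
      have hn2 : n ≤ 2 := by exact_mod_cast hn1
      have hn3 : n = 0 ∨ n = 1 ∨ n = 2 := by omega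
      rcases hn3 with h4 | h4 | h4
      · right
        rw [h4] at hn
        push_cast at hn
        linarith
      · exfalso
        apply hw0
        rw [h4] at hn
        push_cast at hn
        linarith
      · left
        rw [h4] at hn
        push_cast at hn
        linarith
  exact ⟨hL, hw, hlin x (h.all x h.self).1 hL hw⟩

theorem EQ9_le_pair {S : Multiset U} {a b : U} (ha : a ∈ S) (hb : b ∈ S) (hab : a ≠ b) :
    ({a, b} : Multiset U) ≤ S := by
  rw [Multiset.le_iff_subset (by simp [hab])]
  intro v hv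
  rw [Multiset.insert_eq_cons, Multiset.mem_cons, Multiset.mem_singleton] at hv
  rcases hv with rfl | rfl
  · exact ha
  · exact hb

theorem EQ9_lineSum {S : Multiset U} {y : U} (hy : y ≠ 0) (h : ∀ v ∈ S, v = y ∨ v = -y)
    (hNP : NoPair S) (hS : S ≠ 0) : ∃ k : ℤ, k ≠ 0 ∧ S.sum = k • y := by
  obtain ⟨v, hv⟩ := Multiset.exists_mem_of_ne_zero hS
  have hne : y ≠ -y := EQ9_ne_neg hy
  have hnot : ¬ (y ∈ S ∧ -y ∈ S) := by
    rintro ⟨h1, h2⟩
    exact hNP y (-y) (EQ9_le_pair h1 h2 hne) (add_neg_cancel y)
  have hcard : (S.card : ℤ) ≠ 0 := by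
    have : 0 < S.card := Multiset.card_pos.mpr hS
    omega
  by_cases hyS : y ∈ S
  · have hall : ∀ b ∈ S, b = y := by
      intro b hb
      rcases h b hb with h1 | h1
      · exact h1
      · exfalso
        rw [h1] at hb
        exact hnot ⟨hyS, hb⟩
    refine ⟨S.card, hcard, ?_⟩
    rw [Multiset.eq_replicate_card.mpr hall, Multiset.sum_replicate, Multiset.card_replicate,
      natCast_zsmul]
  · have hall : ∀ b ∈ S, b = -y := by
      intro b hb
      rcases h b hb with h1 | h1
      · exfalso
        rw [h1] at hb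
        exact hyS hb
      · exact h1
    refine ⟨-(S.card : ℤ), by omega, ?_⟩
    rw [Multiset.eq_replicate_card.mpr hall, Multiset.sum_replicate, Multiset.card_replicate,
      neg_smul, natCast_zsmul, smul_neg]

theorem EQ9_half_card {y : U} {W P : Finset U} (h : Half G y W P)
    (hneg : ∀ v ∈ W, -v ∈ W) : W.card = 2 * P.card := by
  classical
  have h1 : W = P ∪ P.image (fun v => -v) := by
    ext v
    rw [Finset.mem_union, Finset.mem_image]
    constructor
    · intro hv
      by_cases hP : v ∈ P
      · exact Or.inl hP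
      · right
        refine ⟨-v, ?_, neg_neg v⟩
        rw [h.half (-v) (hneg v hv), neg_neg]
        exact hP
    · rintro (hv | ⟨u, hu, rfl⟩)
      · exact h.sub hv
      · exact hneg u (h.sub hu)
  have h2 : Disjoint P (P.image (fun v => -v)) := by
    rw [Finset.disjoint_left]
    intro v hv hv'
    rw [Finset.mem_image] at hv'
    obtain ⟨u, hu, hu'⟩ := hv'
    have h3 := (h.half v (h.sub hv)).mp hv
    apply h3
    rw [← hu', neg_neg]
    exact hu
  rw [h1, Finset.card_union_of_disjoint h2, Finset.card_image_of_injective _ neg_injective]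
  omega

theorem EQ9_key {y z : U} {W P P' : Finset U} (h : Half G y W P) (h' : Half G z W P')
    (hneg : ∀ v ∈ W, -v ∈ W) (g : G) (hy : g • y = y) (hz : g • z = -z) : Even P.card := by
  classical
  have h1 : (P ∩ P').card ≤ (P \ P').card := by
    apply Finset.card_le_card_of_injOn (fun v => g • v)
    · intro v hv
      rw [Finset.mem_coe, Finset.mem_inter] at hv
      rw [Finset.mem_coe, Finset.mem_sdiff]
      refine ⟨h.pos g hy v hv.1, ?_⟩
      have h3 := h'.neg g hz v hv.2
      intro h4
      exact (h'.half _ (h'.sub h4)).mp h4 h3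
    · intro a _ b _ hab
      exact MulAction.injective g hab
  have h2 : (P \ P').card ≤ (P ∩ P').card := by
    apply Finset.card_le_card_of_injOn (fun v => g • v)
    · intro v hv
      rw [Finset.mem_coe, Finset.mem_sdiff] at hv
      rw [Finset.mem_coe, Finset.mem_inter]
      refine ⟨h.pos g hy v hv.1, ?_⟩
      have hvW := h.sub hv.1
      have h3 : -v ∈ P' := by
        rw [h'.half (-v) (hneg v hvW), neg_neg]
        exact hv.2
      have h4 := h'.neg g hz (-v) h3
      rw [smul_neg, neg_neg] at h4
      exact h4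
    · intro a _ b _ hab
      exact MulAction.injective g hab
  have h3 : (P \ P').card + (P ∩ P').card = P.card := Finset.card_sdiff_add_card_inter P P'
  exact ⟨(P ∩ P').card, by omega⟩

theorem EQ9_neg_mem {K : Core G U} {V : Finset U} {m : ℕ} (h : IsOrb K V m) :
    ∀ v ∈ V, -v ∈ V := by
  intro v hv
  rw [← K.cc v]
  exact h.stable K.c0 v hv

theorem EQ9_half_neg {y : U} {W P : Finset U} (h : Half G y W P) : Half G (-y) W P := by
  have e1 : ∀ g : G, g • (-y) = -y ↔ g • y = y := by
    intro g
    rw [smul_neg, neg_inj]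
  have e2 : ∀ g : G, g • (-y) = -(-y) ↔ g • y = -y := by
    intro g
    rw [smul_neg, neg_inj]
  refine ⟨h.sub, h.half, ?_, ?_, ?_⟩
  · intro g hg
    exact h.pos g ((e1 g).mp hg)
  · intro g hg
    exact h.neg g ((e2 g).mp hg)
  · intro u hu v hv
    obtain ⟨g, h1, h2⟩ := h.tra u hu v hv
    exact ⟨g, (e1 g).mpr h1, h2⟩

theorem EQ9_line_neg {y : U} (h : Line G y) : Line G (-y) := by
  refine ⟨neg_ne_zero.mpr h.1, fun g => ?_⟩
  rcases h.2 g with h1 | h1
  · left
    rw [smul_neg, h1]
  · right
    rw [smul_neg, h1]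

end

theorem p_EQ9 (hOF9 : Stmt_OF9) (hLNE : Stmt_LNE) (hOF4 : Stmt_OF4) (hRA9 : Stmt_RA9)
    (hGW9 : Stmt_GW9) (hXM9 : Stmt_XM9) (hLL9 : Stmt_LL9) : Stmt_EQ9 := by
  classical
  intro G U _ _ _ _ K R S hR hcard hnz hlin hSR hmeet hS0 hNP hex
  have hother : ∀ x ∈ R, ∃ y ∈ R, y ∉ gorb G x := by
    intro x hx
    obtain ⟨x0, hx0, y0, hy0, hne⟩ := hex
    by_cases h : x0 ∈ gorb G x
    · refine ⟨y0, hy0, fun h1 => hne ?_⟩
      exact EQ9_gorb_trans (EQ9_gorb_symm h) h1
    · exact ⟨x0, hx0, h⟩
  have horb : ∀ x ∈ R, ∃ V, EQ9_Orb K R x V := by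
    intro x hx
    obtain ⟨V, h1, h2, h3, h4, h5⟩ := hOF9 G U K R hR (le_of_eq hcard) hnz x hx (hother x hx)
    exact ⟨V, h1, h2, h3, h4, h5⟩
  obtain ⟨s, hs⟩ : ∃ s : U → ℕ, ∀ x, s x = EQ9_n R (fun v => v ∈ gorb G x) := ⟨_, fun _ => rfl⟩
  have hseven : ∀ x ∈ R, Even (s x) ∧ 0 < s x := by
    intro x hx
    obtain ⟨V, hV⟩ := horb x hx
    rw [hs x]
    constructor
    · rw [EQ9_s hV]
      exact Even.mul_left hV.ev _
    · exact EQ9_pos R _ x hx (EQ9_gorb_self x)
  have hs2 : ∀ x y, y ∉ gorb G x → s x + s y ≤ 10 := by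
    intro x y hxy
    rw [hs x, hs y, ← hcard]
    apply EQ9_two
    intro v hv hv'
    exact hxy (EQ9_gorb_trans hv (EQ9_gorb_symm hv'))
  have hs3 : ∀ x y z, y ∉ gorb G x → z ∉ gorb G x → z ∉ gorb G y → s x + s y + s z ≤ 10 := by
    intro x y z hxy hxz hyz
    rw [hs x, hs y, hs z, ← hcard]
    apply EQ9_three
    · intro v hv hv'
      exact hxy (EQ9_gorb_trans hv (EQ9_gorb_symm hv'))
    · intro v hv hv'
      exact hxz (EQ9_gorb_trans hv (EQ9_gorb_symm hv'))
    · intro v hv hv'
      exact hyz (EQ9_gorb_trans hv (EQ9_gorb_symm hv'))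
  obtain ⟨x, hxT, hminT⟩ := Finset.exists_min_image R.toFinset s (by
    obtain ⟨x0, hx0, _⟩ := hex
    exact ⟨x0, Multiset.mem_toFinset.mpr hx0⟩)
  have hx : x ∈ R := Multiset.mem_toFinset.mp hxT
  have hmin : ∀ y ∈ R, s x ≤ s y := fun y hy => hminT y (Multiset.mem_toFinset.mpr hy)
  obtain ⟨V, hV⟩ := horb x hx
  have hsx : s x = cnt x R * V.card := by rw [hs x, EQ9_s hV]
  obtain ⟨y0, hy0, hxy0⟩ := hother x hx
  have h10 := hs2 x y0 hxy0
  have h11 := hmin y0 hy0
  obtain ⟨hev, hposx⟩ := hseven x hx
  have hVpos : 0 < V.card := Finset.card_pos.mpr ⟨x, hV.self⟩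
  have hV2 : 2 ≤ V.card := by
    obtain ⟨k, hk⟩ := hV.ev
    omega
  have hmpos := hV.isOrb.m_pos
  have hcase : s x = 4 ∨ s x = 2 := by
    obtain ⟨k, hk⟩ := hev
    omega
  rcases hcase with h4 | h2
  · -- Case I
    left
    have hV4 : V.card = 4 ∧ cnt x R = 1 := by
      have hle : cnt x R ≤ 2 := by
        by_contra hc
        push Not at hc
        have : 3 * 2 ≤ cnt x R * V.card := Nat.mul_le_mul hc hV2
        omega
      have h12 : cnt x R = 1 ∨ cnt x R = 2 := by omega
      rcases h12 with h1 | h1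
      · refine ⟨?_, h1⟩
        rw [h1] at hsx
        omega
      · exfalso
        rw [h1] at hsx
        have hc2 : V.card = 2 := by omega
        have := (EQ9_star hLNE hlin hV hc2 hle).2.2
        omega
    have hO1 : IsOrb K V 1 := by
      have := hV.isOrb
      rw [hV4.2] at this
      exact this
    obtain ⟨W, hW⟩ := horb y0 hy0
    have hsy : s y0 = cnt y0 R * W.card := by rw [hs y0, EQ9_s hW]
    obtain ⟨hevy, _⟩ := hseven y0 hy0
    have hsy6 : s y0 = 6 := by
      obtain ⟨k, hk⟩ := hevy
      have h13 : s y0 = 4 ∨ s y0 = 6 := by omega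
      rcases h13 with h1 | h1
      · exfalso
        have h14 : EQ9_n R (fun v => v ∈ gorb G x) + EQ9_n R (fun v => v ∈ gorb G y0) < R.card := by
          rw [← hs x, ← hs y0, hcard]
          omega
        obtain ⟨z, hz, hz1, hz2⟩ := EQ9_rest R _ _ h14
        have h15 := hs3 x y0 z hxy0 hz1 hz2
        have h16 := hmin z hz
        omega
      · exact h1
    have hall : ∀ z ∈ R, z ∈ gorb G x ∨ z ∈ gorb G y0 := by
      intro z hz
      by_contra hcon
      push Not at hcon
      have h15 := hs3 x y0 z hxy0 hcon.1 hcon.2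
      have h16 := hmin z hz
      omega
    have hS12 : S = S.filter (fun v => v ∈ gorb G x) + S.filter (fun v => ¬ v ∈ gorb G x) :=
      (Multiset.filter_add_not _ S).symm
    have hS1 : ∀ v ∈ S.filter (fun v => v ∈ gorb G x), v ∈ V := by
      intro v hv
      exact (hV.mem v).mpr (Multiset.mem_filter.mp hv).2
    have hS2 : ∀ v ∈ S.filter (fun v => ¬ v ∈ gorb G x), v ∈ W := by
      intro v hv
      obtain ⟨h1, h3⟩ := Multiset.mem_filter.mp hv
      exact (hW.mem v).mpr ((hall v (hSR v h1)).resolve_left h3)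
    have hsum : (S.filter (fun v => v ∈ gorb G x)).sum +
        (S.filter (fun v => ¬ v ∈ gorb G x)).sum = 0 := by
      rw [← Multiset.sum_add, ← hS12]
      exact hS0
    refine ⟨x, hx, ⟨y0, hy0, hxy0⟩, _, _, hS12, fun v hv => (Multiset.mem_filter.mp hv).2,
      fun v hv => (Multiset.mem_filter.mp hv).2, ?_⟩
    have hWcase : W.card = 6 ∧ cnt y0 R = 1 ∨ W.card = 2 := by
      obtain ⟨k, hk⟩ := hW.ev
      have hWpos : 0 < W.card := Finset.card_pos.mpr ⟨y0, hW.self⟩
      rw [hsy6] at hsy
      have hdvd : W.card ∣ 6 := ⟨cnt y0 R, by rw [hsy, mul_comm]⟩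
      have hle6 : W.card ≤ 6 := Nat.le_of_dvd (by norm_num) hdvd
      have hk3 : k = 1 ∨ k = 2 ∨ k = 3 := by omega
      rcases hk3 with h1 | h1 | h1
      · right
        omega
      · exfalso
        rw [hk, h1] at hdvd
        revert hdvd
        decide
      · left
        have h6 : W.card = 6 := by omega
        refine ⟨h6, ?_⟩
        rw [h6] at hsy
        omega
    rcases hWcase with ⟨h6, h1⟩ | hW2
    · have hO2 : IsOrb K W 1 := by
        have := hW.isOrb
        rw [h1] at this
        exact this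
      exact hRA9 G U K V W hO1 hO2 hV4.1 h6 _ _ hS1 hS2 hsum
    · exfalso
      have hLy : Line G y0 := EQ9_line hW.isOrb hW.self hW2
      obtain ⟨u, huS, huy⟩ := hmeet y0 hy0
      have hne : S.filter (fun v => ¬ v ∈ gorb G x) ≠ 0 := by
        intro h0
        have hu2 : u ∈ S.filter (fun v => ¬ v ∈ gorb G x) := by
          rw [Multiset.mem_filter]
          refine ⟨huS, fun hux => hxy0 ?_⟩
          exact EQ9_gorb_trans hux (EQ9_gorb_symm huy)
        rw [h0] at hu2
        exact Multiset.notMem_zero u hu2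
      have hNP2 : NoPair (S.filter (fun v => ¬ v ∈ gorb G x)) := by
        intro a b hab
        exact hNP a b (hab.trans (Multiset.filter_le _ S))
      obtain ⟨k, hk0, hk⟩ := EQ9_lineSum hLy.1
        (fun v hv => EQ9_pair hW.isOrb hW.self hW2 v (hS2 v hv)) hNP2 hne
      apply hOF4 G U K V hO1 hV4.1 y0 hLy
      have h1 : (S.filter (fun v => v ∈ gorb G x)).sum ∈ Submodule.span ℚ (V : Set U) := by
        refine multiset_sum_mem _ ?_
        intro v hv
        exact Submodule.subset_span (Finset.mem_coe.mpr (hS1 v hv))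
      have h3 : (k : ℚ) • y0 = -(S.filter (fun v => v ∈ gorb G x)).sum := by
        rw [Int.cast_smul_eq_zsmul, ← hk]
        exact eq_neg_of_add_eq_zero_right hsum
      have h5 : (k : ℚ) • y0 ∈ Submodule.span ℚ (V : Set U) := by
        rw [h3]
        exact Submodule.neg_mem _ h1
      have hk0' : (k : ℚ) ≠ 0 := by exact_mod_cast hk0
      have h6 : y0 = (k : ℚ)⁻¹ • ((k : ℚ) • y0) := by
        rw [smul_smul, inv_mul_cancel₀ hk0', one_smul]
      rw [h6]
      exact Submodule.smul_mem _ _ h5
  · -- Case II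
    have hVc : V.card = 2 ∧ cnt x R = 1 := by
      have hle : cnt x R < 2 := by
        by_contra hc
        push Not at hc
        have : 2 * 2 ≤ cnt x R * V.card := Nat.mul_le_mul hc hV2
        omega
      have h1 : cnt x R = 1 := by omega
      refine ⟨?_, h1⟩
      rw [h1] at hsx
      omega
    -- a general fact about lines
    have hline : ∀ z ∈ R, s z = 2 → ∃ z' ∈ S, z' ∈ R ∧ Line G z' ∧ (K.w z' = 1 ∨ K.w z' = -1) ∧
        (∀ v, v ∈ gorb G z ↔ (v = z' ∨ v = -z')) ∧ s z' = 2 := by
      intro z hz hsz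
      obtain ⟨Z, hZ⟩ := horb z hz
      have hsz' : s z = cnt z R * Z.card := by rw [hs z, EQ9_s hZ]
      have hZpos : 0 < Z.card := Finset.card_pos.mpr ⟨z, hZ.self⟩
      have hZ2 : 2 ≤ Z.card := by
        obtain ⟨k, hk⟩ := hZ.ev
        omega
      have hm0 := hZ.isOrb.m_pos
      have hle : cnt z R < 2 := by
        by_contra hc
        push Not at hc
        have : 2 * 2 ≤ cnt z R * Z.card := Nat.mul_le_mul hc hZ2
        omega
      have h1 : cnt z R = 1 := by omega
      have hZc : Z.card = 2 := by
        rw [h1] at hsz'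
        omega
      obtain ⟨u, huS, huz⟩ := hmeet z hz
      have huZ : u ∈ Z := (hZ.mem u).mpr huz
      have huR : u ∈ R := hSR u huS
      have hgu : (fun v => v ∈ gorb G u) = (fun v => v ∈ gorb G z) := by
        funext v
        apply propext
        exact ⟨fun h => EQ9_gorb_trans huz h, fun h => EQ9_gorb_trans (EQ9_gorb_symm huz) h⟩
      have hcu : cnt u R = 1 := by rw [(hZ.all u huZ).2, h1]
      have hZu : EQ9_Orb K R u Z := by
        refine ⟨?_, ?_, ?_, hZ.ev, huZ⟩
        · rw [(hZ.all u huZ).2]
          exact hZ.isOrb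
        · intro v
          rw [hZ.mem v]
          exact ⟨fun h => EQ9_gorb_trans (EQ9_gorb_symm huz) h, fun h => EQ9_gorb_trans huz h⟩
        · intro v hv
          rw [(hZ.all u huZ).2]
          exact hZ.all v hv
      obtain ⟨hLu, hwu, _⟩ := EQ9_star hLNE hlin hZu hZc (by omega)
      refine ⟨u, huS, huR, hLu, hwu, ?_, ?_⟩
      · intro v
        constructor
        · intro hv
          exact EQ9_pair hZu.isOrb huZ hZc v ((hZ.mem v).mpr hv)
        · rintro (rfl | rfl)
          · exact huz
          · exact (hZ.mem _).mp (EQ9_neg_mem hZu.isOrb u huZ)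
      · rw [hs u, hgu, ← hs z, hsz]
    obtain ⟨y, hyS, hyR, hLy, hwy, hgy, hsy⟩ := hline x hx h2
    obtain ⟨W, P, m, hOW, h6, hWall, hyW, hHalf, hPne⟩ :=
      hGW9 G U K R S hR (le_of_eq hcard) hnz hlin hSR hS0 hNP y hyS hLy hwy
    have hWneg := EQ9_neg_mem hOW
    have hWP := EQ9_half_card hHalf hWneg
    have hnyW : -y ∉ W := by
      intro h
      apply hyW
      have := hWneg _ h
      rw [neg_neg] at this
      exact this
    have hnW : EQ9_n R (fun v => v ∈ W) = m * W.card := EQ9_fin R W m (fun v hv => (hWall v hv).2)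
    have hny : EQ9_n R (fun v => v = y ∨ v = -y) = 2 := by
      have h1 : (fun v => v = y ∨ v = -y) = (fun v => v ∈ gorb G x) := by
        funext v
        exact propext (hgy v).symm
      rw [h1, ← hs x, h2]
    have h8 := hOW.card
    have hcase2 : m * W.card = 8 ∨ m * W.card = 6 := by
      rw [hWP] at h6 h8 ⊢
      have e1 : m * (2 * P.card) = 2 * (m * P.card) := by ring
      rw [e1] at h6 h8 ⊢
      omega
    rcases hcase2 with hc8 | hc6
    · right
      have hmemR : ∀ v ∈ R, v ∈ W ∨ v = y ∨ v = -y := by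
        intro z hz
        by_contra hcon
        push Not at hcon
        have h1 := EQ9_three R (fun v => v ∈ W) (fun v => v = y ∨ v = -y) (fun v => v = z)
          (by
            rintro v hv (rfl | rfl)
            · exact hyW hv
            · exact hnyW hv)
          (by
            rintro v hv rfl
            exact hcon.1 hv)
          (by
            rintro v (hv | hv) rfl
            · exact hcon.2.1 hv
            · exact hcon.2.2 hv)
        have h3 := EQ9_pos R (fun v => v = z) z hz rfl
        rw [hnW, hny, hcard] at h1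
        omega
      rcases hXM9 G U K W P m y hOW hc8 hLy hwy hyW hHalf hPne with hX | hX
      · exact ⟨y, W, m, P, ⟨hLy, hwy, hOW, hc8, hyW, hHalf, hX, hmemR, hWall⟩⟩
      · refine ⟨-y, W, m, P, ⟨EQ9_line_neg hLy, ?_, hOW, hc8, hnyW, EQ9_half_neg hHalf, ?_, ?_,
          hWall⟩⟩
        · rw [map_neg]
          rcases hwy with h1 | h1
          · right
            rw [h1]
          · left
            rw [h1, neg_neg]
        · rw [hX, smul_neg]
        · intro v hv
          rw [neg_neg]
          rcases hmemR v hv with h1 | h1 | h1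
          · exact Or.inl h1
          · exact Or.inr (Or.inr h1)
          · exact Or.inr (Or.inl h1)
    · exfalso
      have h14 : EQ9_n R (fun v => v ∈ W) + EQ9_n R (fun v => v = y ∨ v = -y) < R.card := by
        rw [hnW, hny, hcard]
        omega
      obtain ⟨z0, hz0, hz0W, hz0y⟩ := EQ9_rest R _ _ h14
      push Not at hz0y
      have hz0x : z0 ∉ gorb G x := by
        intro h
        rcases (hgy z0).mp h with h1 | h1
        · exact hz0y.1 h1
        · exact hz0y.2 h1
      -- the orbit of z0 does not meet W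
      have hWst : ∀ v, v ∈ W → v ∉ gorb G z0 := by
        rintro v hv ⟨g, hg⟩
        apply hz0W
        have h1 := hOW.stable g⁻¹ v hv
        rw [hg, inv_smul_smul] at h1
        exact h1
      have hsz0 : s z0 = 2 := by
        have h1 := EQ9_three R (fun v => v ∈ W) (fun v => v ∈ gorb G x) (fun v => v ∈ gorb G z0)
          (by
            intro v hv hv'
            rcases (hgy v).mp hv' with h1 | h1
            · rw [h1] at hv
              exact hyW hv
            · rw [h1] at hv
              exact hnyW hv)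
          hWst
          (by
            intro v hv hv'
            exact hz0x (EQ9_gorb_trans hv (EQ9_gorb_symm hv')))
        rw [hnW, ← hs x, ← hs z0, hcard] at h1
        obtain ⟨⟨k, hk⟩, hp⟩ := hseven z0 hz0
        omega
      obtain ⟨z, hzS, hzR, hLz, hwz, hgz, hsz⟩ := hline z0 hz0 hsz0
      obtain ⟨W', P', m', hOW', h6', hWall', hzW', hHalf', hPne'⟩ :=
        hGW9 G U K R S hR (le_of_eq hcard) hnz hlin hSR hS0 hNP z hzS hLz hwz
      have hWW : W' = W := by
        have hmeetW : ∃ v, v ∈ W ∧ v ∈ W' := by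
          by_contra hcon
          push Not at hcon
          have h1 := EQ9_two R (fun v => v ∈ W) (fun v => v ∈ W') hcon
          rw [hnW, EQ9_fin R W' m' (fun v hv => (hWall' v hv).2), hcard] at h1
          omega
        obtain ⟨v, hv, hv'⟩ := hmeetW
        apply Finset.Subset.antisymm
        · intro u hu
          obtain ⟨g, rfl⟩ := hOW'.trans v hv' u hu
          exact hOW.stable g v hv
        · intro u hu
          obtain ⟨g, rfl⟩ := hOW.trans v hv u hu
          exact hOW'.stable g v hv'
      rw [hWW] at hHalf'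
      have hWP' := EQ9_half_card hHalf' hWneg
      have hodd : ¬ Even P.card := by
        rintro ⟨k, hk⟩
        rw [hWP, hk] at hc6
        have e1 : m * (2 * (k + k)) = 4 * (m * k) := by ring
        rw [e1] at hc6
        omega
      have hodd' : ¬ Even P'.card := by
        have : P'.card = P.card := by omega
        rw [this]
        exact hodd
      have hny0 : y ≠ -y := EQ9_ne_neg hLy.1
      have hfix : ∀ g : G, g • y = y → g • z = z := by
        intro g hg
        rcases hLz.2 g with h1 | h1
        · exact h1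
        · exact absurd (EQ9_key hHalf hHalf' hWneg g hg h1) hodd
      have hneg : ∀ g : G, g • y = -y → g • z = -z := by
        intro g hg
        rcases hLz.2 g with h1 | h1
        · exact absurd (EQ9_key hHalf' hHalf hWneg g h1 hg) hodd'
        · exact h1
      have hzy : z = y ∨ z = -y := by
        rcases hwy with h1 | h1 <;> rcases hwz with h3 | h3
        · left
          have := hLL9 G U K y z hLy hfix hneg 1 (by rw [h1, h3]; push_cast; ring)
          rw [one_smul] at this
          exact this
        · right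
          have := hLL9 G U K y z hLy hfix hneg (-1) (by rw [h1, h3]; push_cast; ring)
          rw [neg_smul, one_smul] at this
          exact this
        · right
          have := hLL9 G U K y z hLy hfix hneg (-1) (by rw [h1, h3]; push_cast; ring)
          rw [neg_smul, one_smul] at this
          exact this
        · left
          have := hLL9 G U K y z hLy hfix hneg 1 (by rw [h1, h3]; push_cast; ring)
          rw [one_smul] at this
          exact this
      apply hz0x
      have hzg : z ∈ gorb G z0 := (hgz z).mpr (Or.inl rfl)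
      have hzx : z ∈ gorb G x := (hgy z).mpr hzy
      exact EQ9_gorb_trans hzx (EQ9_gorb_symm hzg)

end Pool.T4
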