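import Pool.Agent.Work.MP_223b32_t4.Interface

/-! Block SGN. -/

namespace Pool.T4

open Pool.Agent.Work.MP_223b32_ag

theorem SGN_zero {U : Type} [AddCommGroup U] [Module ℚ U] {v : U} (h : v + v = 0) : v = 0 := by
  have h1 : v = (1 / 2 : ℚ) • (v + v) := by
    rw [← two_smul ℚ v, smul_smul]
    norm_num
  rw [h1, h, smul_zero]

theorem SGN_neg_ne {U : Type} [AddCommGroup U] [Module ℚ U] {v : U} (h : v ≠ 0) : v ≠ -v := by
  intro h1
  apply h
  apply SGN_zero
  nth_rewrite 2 [h1]
  exact add_neg_cancel v

theorem SGN_pair {U : Type} {J : Multiset U} {a b : U} (ha : a ∈ J) (hb : b ∈ J) (hab : a ≠ b) :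
    ({a, b} : Multiset U) ≤ J := by
  have hnd : ({a, b} : Multiset U).Nodup := by
    rw [Multiset.insert_eq_cons, Multiset.nodup_cons]
    exact ⟨by simpa using hab, Multiset.nodup_singleton b⟩
  rw [Multiset.le_iff_subset hnd]
  intro x hx
  rw [Multiset.insert_eq_cons, Multiset.mem_cons, Multiset.mem_singleton] at hx
  rcases hx with rfl | rfl
  · exact ha
  · exact hb

theorem SGN_notMem {U : Type} [AddCommGroup U] [Module ℚ U] {J : Multiset U} (hJ : NoPair J)
    {v : U} (hv : v ∈ J) (h0 : v ≠ 0) : -v ∉ J := fun h =>
  hJ v (-v) (SGN_pair hv h (SGN_neg_ne h0)) (add_neg_cancel v)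

theorem SGN_small {U : Type} [AddCommGroup U] {J A : Multiset U} (hJ : NoPair J) (hA : A ≤ J)
    (h0 : ∀ v ∈ A, v ≠ 0) (hs : A.sum = 0) (hc : A.card ≤ 2) : A = 0 := by
  have h3 : A.card = 0 ∨ A.card = 1 ∨ A.card = 2 := by omega
  rcases h3 with h | h | h
  · exact Multiset.card_eq_zero.1 h
  · obtain ⟨a, rfl⟩ := Multiset.card_eq_one.1 h
    rw [Multiset.sum_singleton] at hs
    exact absurd hs (h0 a (Multiset.mem_singleton_self a))
  · obtain ⟨a, b, rfl⟩ := Multiset.card_eq_two.1 h
    refine absurd ?_ (hJ a b hA)
    simpa using hs

theorem SGN_count_ng {U : Type} [AddCommGroup U] [DecidableEq U] (J : Multiset U) (v : U) :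
    (ng J).count v = J.count (-v) := by
  have h := Multiset.count_map_eq_count' (fun v : U => -v) J neg_injective (-v)
  rw [neg_neg] at h
  exact h

theorem p_SGN : Stmt_SGN := by
  intro G U _ _ _ _ K R J hG
  classical
  have hJ := hG.noPair
  have hR : ∀ v, R.count v = J.count v + J.count (-v) := by
    intro v
    rw [hG.eq, Multiset.count_add, SGN_count_ng]
  refine ⟨fun g => ?_, fun h => ?_⟩
  · have hinj : Function.Injective (fun v : U => g • v) := MulAction.injective g
    have hgn : tr g (ng J) = ng (tr g J) := by
      unfold tr ng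
      rw [Multiset.map_map, Multiset.map_map]
      refine Multiset.map_congr rfl fun v _ => ?_
      simp
    have hgR : R = tr g J + ng (tr g J) := by
      have h1 : tr g R = tr g J + tr g (ng J) := by
        unfold tr
        rw [← Multiset.map_add, ← hG.eq]
      rw [hG.isR.stable g, hgn] at h1
      exact h1
    have hR' : ∀ v, R.count v = (tr g J).count v + (tr g J).count (-v) := by
      intro v
      conv_lhs => rw [hgR]
      rw [Multiset.count_add, SGN_count_ng]
    have hgJ : NoPair (tr g J) := by
      intro a b hab h0
      have h1 : ({g⁻¹ • a, g⁻¹ • b} : Multiset U) ≤ J := by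
        have h2 := Multiset.map_le_map (f := fun v : U => g⁻¹ • v) hab
        have h3 : Multiset.map (fun v : U => g⁻¹ • v) (tr g J) = J := by
          unfold tr
          rw [Multiset.map_map]
          conv_rhs => rw [← Multiset.map_id J]
          refine Multiset.map_congr rfl fun v _ => ?_
          simp
        rw [h3] at h2
        simpa using h2
      refine hJ _ _ h1 ?_
      rw [← smul_add, h0, smul_zero]
    have hc0 : (tr g J).count 0 = J.count 0 := by
      have h := Multiset.count_map_eq_count' (fun v : U => g • v) J hinj 0
      simpa [tr] using h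
    set A := J.filter fun v => v ≠ 0 ∧ v ∈ tr g J with hA
    set B := J.filter fun v => v ≠ 0 ∧ v ∉ tr g J with hB
    set Z := J.filter fun v => v = 0 with hZ
    have hsplit : J = A + B + Z := by
      ext v
      rw [Multiset.count_add, Multiset.count_add, hA, hB, hZ, Multiset.count_filter,
        Multiset.count_filter, Multiset.count_filter]
      by_cases h0 : v = 0 <;> by_cases h1 : v ∈ tr g J <;> simp [h0, h1]
    have hsplit' : tr g J = A + ng B + Z := by
      ext v
      rw [Multiset.count_add, Multiset.count_add, SGN_count_ng, hA, hB, hZ, Multiset.count_filter,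
        Multiset.count_filter, Multiset.count_filter]
      by_cases h0 : v = 0
      · subst h0
        simp [hc0]
      · have h0' : -v ≠ 0 := neg_ne_zero.2 h0
        have e1 := hR v
        have e2 := hR' v
        by_cases h1 : v ∈ tr g J
        · have h2 : -v ∉ tr g J := SGN_notMem hgJ h1 h0
          have h3 : (tr g J).count (-v) = 0 := Multiset.count_eq_zero_of_notMem h2
          have h4 : J.count v = 0 ∨ J.count (-v) = 0 := by
            by_cases h5 : v ∈ J
            · exact Or.inr (Multiset.count_eq_zero_of_notMem (SGN_notMem hJ h5 h0))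
            · exact Or.inl (Multiset.count_eq_zero_of_notMem h5)
          simp only [h0, h0', h1, h2, ne_eq, not_false_eq_true, and_self, if_true, if_false]
          omega
        · have h3 : (tr g J).count v = 0 := Multiset.count_eq_zero_of_notMem h1
          by_cases h2 : -v ∈ tr g J
          · simp [h0, h1, h2]
          · have h5 : (tr g J).count (-v) = 0 := Multiset.count_eq_zero_of_notMem h2
            simp only [h0, h0', h1, h2, ne_eq, not_false_eq_true, and_self, and_false, if_true,
              if_false]
            omega
    have hsumZ : Z.sum = 0 := by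
      refine Multiset.sum_eq_zero fun x hx => ?_
      exact (Multiset.mem_filter.1 hx).2
    have hsumng : ∀ S : Multiset U, (ng S).sum = -S.sum := by
      intro S
      unfold ng
      rw [Multiset.sum_map_neg']
    have hs1 : A.sum + B.sum = 0 := by
      have h1 := hG.sum
      rw [hsplit, Multiset.sum_add, Multiset.sum_add, hsumZ, add_zero] at h1
      exact h1
    have hs2 : A.sum - B.sum = 0 := by
      have h1 : (tr g J).sum = 0 := by
        unfold tr
        rw [← Multiset.smul_sum, hG.sum, smul_zero]
      rw [hsplit', Multiset.sum_add, Multiset.sum_add, hsumZ, add_zero, hsumng] at h1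
      rw [sub_eq_add_neg]
      exact h1
    have hsA : A.sum = 0 := by
      apply SGN_zero
      have h1 : A.sum + A.sum = (A.sum + B.sum) + (A.sum - B.sum) := by abel
      rw [h1, hs1, hs2, add_zero]
    have hsB : B.sum = 0 := by
      rw [hsA, zero_add] at hs1
      exact hs1
    have hcard : A.card + B.card ≤ 4 := by
      have h1 := hG.card
      rw [hsplit, Multiset.card_add, Multiset.card_add] at h1
      omega
    have hAB : A = 0 ∨ B = 0 := by
      by_cases hcA : A.card ≤ 2
      · exact Or.inl (SGN_small hJ (Multiset.filter_le _ _)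
          (fun v hv => (Multiset.mem_filter.1 hv).2.1) hsA hcA)
      · exact Or.inr (SGN_small hJ (Multiset.filter_le _ _)
          (fun v hv => (Multiset.mem_filter.1 hv).2.1) hsB (by omega))
    rcases hAB with h | h
    · right
      rw [hsplit', h]
      conv_rhs => rw [hsplit, h]
      have hZ0 : ng Z = Z := by
        unfold ng
        conv_rhs => rw [← Multiset.map_id Z]
        refine Multiset.map_congr rfl fun v hv => ?_
        rw [(Multiset.mem_filter.1 hv).2]
        simp
      have h5 : ng (0 + B + Z) = ng B + ng Z := by
        unfold ng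
        rw [zero_add, Multiset.map_add]
      rw [h5, hZ0, zero_add]
    · left
      rw [hsplit', h]
      conv_rhs => rw [hsplit, h]
      rfl
  · by_cases h0 : ∃ v ∈ J, v ≠ 0
    · obtain ⟨v, hv, hv0⟩ := h0
      refine SGN_notMem hJ hv hv0 ?_
      rw [← h]
      exact Multiset.mem_map_of_mem _ hv
    · push Not at h0
      have h1 : J = Multiset.replicate 4 0 := by
        rw [Multiset.eq_replicate]
        exact ⟨hG.card, h0⟩
      refine hJ 0 0 ?_ (add_zero 0)
      rw [h1]
      have h2 : ({0, 0} : Multiset U) = Multiset.replicate 2 0 := rfl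
      rw [h2]
      exact (Multiset.replicate_le_replicate 0).2 (by norm_num)

end Pool.T4
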