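import Pool.Agent.Work.MP_223b32_t4.Interface7
import Pool.Agent.Work.MP_223b32_t4.SGN

/-! # Block EQ7: an orbit of ten vectors with a relation -/

namespace Pool.T4

open Polynomial

section

variable {G U : Type} [Group G] [AddCommGroup U] [Module ℚ U] [DistribMulAction G U]

/-- The operator of `g`. -/
noncomputable def EQ7_T (g : G) : Module.End ℚ U := (DistribSMul.toAddMonoidHom U g).toRatLinearMap

theorem EQ7_T_apply (g : G) (v : U) : EQ7_T g v = g • v := rfl

theorem EQ7_T_pow (g : G) (n : ℕ) (v : U) : (EQ7_T g ^ n) v = g ^ n • v := by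
  induction n with
  | zero => simp
  | succ n ih => rw [pow_succ', Module.End.mul_apply, ih, EQ7_T_apply, pow_succ', mul_smul]

theorem EQ7_rel (g : G) (v : U) (h5 : g ^ 5 • v = v) (h1 : g • v ≠ v) (c : ℕ → ℚ)
    (h : ∑ i ∈ Finset.range 5, c i • (g ^ i • v) = 0) : ∀ i < 5, c i = c 0 := by
  obtain ⟨P, hP⟩ : ∃ P : ℚ[X], P = ∑ i ∈ Finset.range 5, C (c i) * X ^ i := ⟨_, rfl⟩
  have hPv : (aeval (EQ7_T (U := U) g) P) v = 0 := by
    rw [hP, map_sum, LinearMap.sum_apply, ← h]
    refine Finset.sum_congr rfl fun i _ => ?_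
    rw [map_mul, aeval_C, map_pow, aeval_X, Module.End.mul_apply, EQ7_T_pow,
      Module.algebraMap_end_apply]
  have hi : Irreducible (cyclotomic 5 ℚ) := cyclotomic.irreducible_rat (by norm_num)
  have : Fact (Nat.Prime 5) := ⟨by norm_num⟩
  by_cases hd : cyclotomic 5 ℚ ∣ P
  · obtain ⟨Q, hQ⟩ := hd
    have hP4 : P.natDegree ≤ 4 := by
      rw [hP]
      apply natDegree_sum_le_of_forall_le
      intro i hi
      refine (natDegree_C_mul_X_pow_le _ _).trans ?_
      have := Finset.mem_range.1 hi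
      omega
    have hF : (cyclotomic 5 ℚ).natDegree = 4 := by
      rw [natDegree_cyclotomic]
      decide
    have hQ0 : Q.natDegree = 0 := by
      by_contra h0
      have hm := (cyclotomic.monic 5 ℚ).natDegree_mul' (q := Q) (by rintro rfl; simp at h0)
      rw [← hQ, hF] at hm
      omega
    have hQC := eq_C_of_natDegree_eq_zero hQ0
    have hco : ∀ i < 5, P.coeff i = c i := by
      intro i hi
      rw [hP, finsetSum_coeff]
      simp only [coeff_C_mul, coeff_X_pow]
      simp [hi]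
    have hco2 : ∀ i < 5, P.coeff i = Q.coeff 0 := by
      intro i hi
      rw [hQ, hQC, coeff_mul_C, cyclotomic_prime, finsetSum_coeff]
      simp only [coeff_X_pow]
      simp [hi]
    intro i hi
    rw [← hco i hi, ← hco 0 (by norm_num), hco2 i hi, hco2 0 (by norm_num)]
  · exfalso
    obtain ⟨A, B, hAB⟩ := hi.coprime_iff_not_dvd.2 hd
    apply h1
    have h2 : (aeval (EQ7_T (U := U) g) (A * cyclotomic 5 ℚ)) v = v := by
      have h3 : (aeval (EQ7_T (U := U) g) (A * cyclotomic 5 ℚ + B * P)) v = v := by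
        rw [hAB, map_one]
        rfl
      rw [map_add, LinearMap.add_apply, map_mul _ B P, Module.End.mul_apply, hPv, map_zero,
        add_zero] at h3
      exact h3
    have h3 : (aeval (EQ7_T (U := U) g) (X - 1 : ℚ[X])) v = 0 := by
      have e : (X - 1) * (A * cyclotomic 5 ℚ) = A * (X ^ 5 - 1) := by
        rw [← cyclotomic_prime_mul_X_sub_one ℚ 5]
        ring
      have h4 : (aeval (EQ7_T (U := U) g) (X ^ 5 - 1 : ℚ[X])) v = 0 := by
        rw [map_sub, map_one, map_pow, aeval_X, LinearMap.sub_apply, EQ7_T_pow, h5]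
        exact sub_self v
      have h5' : (aeval (EQ7_T (U := U) g) (X - 1 : ℚ[X]))
          ((aeval (EQ7_T (U := U) g) (A * cyclotomic 5 ℚ)) v) = 0 := by
        rw [← Module.End.mul_apply, ← map_mul, e, map_mul, Module.End.mul_apply, h4, map_zero]
      rw [h2] at h5'
      exact h5'
    rw [map_sub, map_one, aeval_X, LinearMap.sub_apply, EQ7_T_apply] at h3
    exact sub_eq_zero.1 h3

omit [Module ℚ U] in
theorem EQ7_cop (g : G) (v : U) (h5 : g ^ 5 • v = v) (h1 : g • v ≠ v) {k : ℕ} (hk0 : 0 < k)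
    (hk : k < 5) (h : g ^ k • v = v ∨ g ^ k • v = -v) : False := by
  have h2 : g ^ (2 * k) • v = v := by
    rw [two_mul, pow_add, mul_smul]
    rcases h with h | h
    · rw [h, h]
    · rw [h, smul_neg, h, neg_neg]
  apply h1
  have hs : ∀ n m : ℕ, g ^ n • v = v → g ^ (m * n) • v = v := by
    intro n m hn
    induction m with
    | zero => simp
    | succ m ih => rw [Nat.succ_mul, pow_add, mul_smul, hn, ih]
  have key : ∀ m1 m2 : ℕ, m1 * (2 * k) = m2 * 5 + 1 → g • v = v := by
    intro m1 m2 e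
    have e1 := hs (2 * k) m1 h2
    rw [e, pow_succ', mul_smul, hs 5 m2 h5] at e1
    exact e1
  interval_cases k
  · exact key 3 1 (by norm_num)
  · exact key 4 3 (by norm_num)
  · exact key 1 1 (by norm_num)
  · exact key 2 3 (by norm_num)

omit [Module ℚ U] in
theorem EQ7_lt (g : G) (v : U) (h5 : g ^ 5 • v = v) (h1 : g • v ≠ v) {i j : ℕ} (hj : j < 5)
    (hij : i < j) : g ^ j • v ≠ g ^ i • v ∧ g ^ j • v ≠ -(g ^ i • v) := by
  have e : g ^ j = g ^ i * g ^ (j - i) := by
    rw [← pow_add]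
    congr 1
    omega
  constructor
  · intro h
    rw [e, mul_smul] at h
    exact EQ7_cop g v h5 h1 (by omega : 0 < j - i) (by omega)
      (Or.inl (MulAction.injective (g ^ i) h))
  · intro h
    rw [e, mul_smul, ← smul_neg] at h
    exact EQ7_cop g v h5 h1 (by omega : 0 < j - i) (by omega)
      (Or.inr (MulAction.injective (g ^ i) h))

omit [Module ℚ U] in
theorem EQ7_inj (g : G) (v : U) (h5 : g ^ 5 • v = v) (h1 : g • v ≠ v) {i j : ℕ} (hi : i < 5)
    (hj : j < 5) (h : g ^ i • v = g ^ j • v) : i = j := by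
  rcases lt_trichotomy i j with hl | hl | hl
  · exact absurd h.symm (EQ7_lt g v h5 h1 hj hl).1
  · exact hl
  · exact absurd h (EQ7_lt g v h5 h1 hi hl).1

theorem EQ7_neg (g : G) (v : U) (h0 : v ≠ 0) (h5 : g ^ 5 • v = v) (h1 : g • v ≠ v) {i j : ℕ}
    (hi : i < 5) (hj : j < 5) (h : g ^ i • v = -(g ^ j • v)) : False := by
  rcases lt_trichotomy i j with hl | hl | hl
  · apply (EQ7_lt g v h5 h1 hj hl).2
    rw [h, neg_neg]
  · rw [hl] at h
    exact SGN_neg_ne ((smul_ne_zero_iff_ne (g ^ j)).2 h0) h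
  · exact (EQ7_lt g v h5 h1 hi hl).2 h

/-- The five vectors. -/
def EQ7_E (g : G) (v : U) : Multiset U := (Multiset.range 5).map fun i => g ^ i • v

omit [Module ℚ U] in
theorem EQ7_memE {g : G} {v u : U} : u ∈ EQ7_E g v ↔ ∃ i < 5, g ^ i • v = u := by
  unfold EQ7_E
  rw [Multiset.mem_map]
  constructor
  · rintro ⟨i, hi, h⟩
    exact ⟨i, Multiset.mem_range.1 hi, h⟩
  · rintro ⟨i, hi, h⟩
    exact ⟨i, Multiset.mem_range.2 hi, h⟩

omit [Module ℚ U] in
theorem EQ7_memng {J : Multiset U} {u : U} : u ∈ ng J ↔ -u ∈ J := by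
  unfold ng
  rw [Multiset.mem_map]
  constructor
  · rintro ⟨w, hw, rfl⟩
    rw [neg_neg]
    exact hw
  · intro h
    exact ⟨-u, h, neg_neg u⟩

omit [Module ℚ U] in
theorem EQ7_Eneg (g : G) (v : U) : EQ7_E g (-v) = ng (EQ7_E g v) := by
  unfold EQ7_E ng
  rw [Multiset.map_map]
  refine Multiset.map_congr rfl fun i _ => ?_
  exact smul_neg _ _

omit [Module ℚ U] in
theorem EQ7_cardE (g : G) (v : U) : (EQ7_E g v).card = 5 := by
  unfold EQ7_E
  rw [Multiset.card_map, Multiset.card_range]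

theorem EQ7_nodup (g : G) (v : U) (h0 : v ≠ 0) (h5 : g ^ 5 • v = v) (h1 : g • v ≠ v) :
    (EQ7_E g v + ng (EQ7_E g v)).Nodup := by
  have hE : (EQ7_E g v).Nodup := by
    unfold EQ7_E
    refine Multiset.Nodup.map_on ?_ (Multiset.nodup_range 5)
    intro i hi j hj h
    exact EQ7_inj g v h5 h1 (Multiset.mem_range.1 hi) (Multiset.mem_range.1 hj) h
  rw [Multiset.nodup_add]
  refine ⟨hE, hE.map neg_injective, ?_⟩
  rw [Multiset.disjoint_left]
  intro u hu hu2
  rw [EQ7_memng] at hu2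
  obtain ⟨i, hi, hi2⟩ := EQ7_memE.1 hu
  obtain ⟨j, hj, hj2⟩ := EQ7_memE.1 hu2
  apply EQ7_neg g v h0 h5 h1 hi hj
  rw [hi2, hj2, neg_neg]

/-- The properties of `R`. -/
structure EQ7_R (G : Type) {U : Type} [Group G] [AddCommGroup U] [DistribMulAction G U]
    (R : Multiset U) : Prop where
  st : ∀ h : G, ∀ v ∈ R, h • v ∈ R
  neg : ∀ v ∈ R, -v ∈ R
  card : R.card = 10
  nz : ∀ v ∈ R, v ≠ 0
  nd : R.Nodup

theorem EQ7_eq {R : Multiset U} (hR : EQ7_R G R) (g : G) (v : U) (hv : v ∈ R)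
    (h5 : g ^ 5 • v = v) (h1 : g • v ≠ v) : R = EQ7_E g v + ng (EQ7_E g v) := by
  symm
  apply Multiset.eq_of_le_of_card_le
  · rw [Multiset.le_iff_subset (EQ7_nodup g v (hR.nz v hv) h5 h1)]
    intro u hu
    rcases Multiset.mem_add.1 hu with h | h
    · obtain ⟨i, hi, rfl⟩ := EQ7_memE.1 h
      exact hR.st _ _ hv
    · rw [EQ7_memng] at h
      obtain ⟨i, hi, hi2⟩ := EQ7_memE.1 h
      have h2 : u = -(g ^ i • v) := by rw [hi2, neg_neg]
      rw [h2]
      exact hR.neg _ (hR.st _ _ hv)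
  · rw [hR.card, Multiset.card_add, ng, Multiset.card_map, EQ7_cardE]

open Classical in
theorem EQ7_const {R : Multiset U} (hR : EQ7_R G R) (g : G) (v : U) (hv : v ∈ R)
    (h5 : g ^ 5 • v = v) (h1 : g • v ≠ v) {S : Multiset U} (hS : ∀ u ∈ S, u ∈ R)
    (hsum : S.sum = 0) : ∀ i < 5, ((S.count (g ^ i • v) : ℚ) - (S.count (-(g ^ i • v)) : ℚ)) =
      (S.count v : ℚ) - (S.count (-v) : ℚ) := by
  have hRE := EQ7_eq hR g v hv h5 h1
  have e1 : ∀ F : U → U, (R.map F).sum = ∑ i ∈ Finset.range 5, F (g ^ i • v) +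
      ∑ i ∈ Finset.range 5, F (-(g ^ i • v)) := by
    intro F
    rw [hRE, Multiset.map_add, Multiset.sum_add]
    unfold EQ7_E ng
    rw [Multiset.map_map, Multiset.map_map, Multiset.map_map]
    rfl
  have hsub : S.toFinset ⊆ R.toFinset := by
    intro u hu
    rw [Multiset.mem_toFinset] at hu ⊢
    exact hS u hu
  have e2 : S.sum = (R.map fun m => S.count m • m).sum := by
    rw [Finset.sum_multiset_count_of_subset S R.toFinset hsub, Finset.sum_eq_multiset_sum,
      Multiset.toFinset_val, hR.nd.dedup]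
  have e3 : ∑ i ∈ Finset.range 5, ((S.count (g ^ i • v) : ℚ) - (S.count (-(g ^ i • v)) : ℚ)) •
      (g ^ i • v) = 0 := by
    rw [← hsum, e2, e1, ← Finset.sum_add_distrib]
    refine Finset.sum_congr rfl fun i _ => ?_
    rw [sub_smul, Nat.cast_smul_eq_nsmul, Nat.cast_smul_eq_nsmul, smul_neg, sub_eq_add_neg]
  have e4 := EQ7_rel g v h5 h1
    (fun i => (S.count (g ^ i • v) : ℚ) - (S.count (-(g ^ i • v)) : ℚ)) e3
  intro i hi
  have e5 := e4 i hi
  simp only [pow_zero, one_smul] at e5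
  exact e5

open Classical in
theorem EQ7_pos {R : Multiset U} (hR : EQ7_R G R) (g : G) (v : U) (hv : v ∈ R)
    (h5 : g ^ 5 • v = v) (h1 : g • v ≠ v) {S : Multiset U} (hS : ∀ u ∈ S, u ∈ R)
    (hsum : S.sum = 0) (hp : NoPair S) (hc : S.count (-v) < S.count v) :
    S = S.count v • EQ7_E g v := by
  have hRE := EQ7_eq hR g v hv h5 h1
  have hcon := EQ7_const hR g v hv h5 h1 hS hsum
  have hE : (EQ7_E g v).Nodup ∧ (ng (EQ7_E g v)).Nodup ∧
      Disjoint (EQ7_E g v) (ng (EQ7_E g v)) :=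
    Multiset.nodup_add.1 (EQ7_nodup g v (hR.nz v hv) h5 h1)
  have hz : ∀ u : U, u ∈ R → S.count (-u) < S.count u → S.count (-u) = 0 := by
    intro u hu h
    have hu1 : u ∈ S := Multiset.count_pos.1 (by omega)
    exact Multiset.count_eq_zero_of_notMem (SGN_notMem hp hu1 (hR.nz u hu))
  have hv0 := hz v hv hc
  have hi0 : ∀ i < 5, S.count (-(g ^ i • v)) = 0 ∧ S.count (g ^ i • v) = S.count v := by
    intro i hi
    have h2 := hcon i hi
    rw [hv0] at h2
    have hc' : (0 : ℚ) < (S.count v : ℚ) := by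
      have : 0 < S.count v := by omega
      exact_mod_cast this
    have h3 : S.count (-(g ^ i • v)) < S.count (g ^ i • v) := by
      have h4 : (S.count (-(g ^ i • v)) : ℚ) < (S.count (g ^ i • v) : ℚ) := by
        push_cast at h2
        linarith
      exact_mod_cast h4
    have h4 := hz _ (hR.st (g ^ i) v hv) h3
    rw [h4] at h2
    refine ⟨h4, ?_⟩
    push_cast at h2
    have h5 : (S.count (g ^ i • v) : ℚ) = (S.count v : ℚ) := by linarith
    exact_mod_cast h5
  ext u
  rw [Multiset.count_nsmul]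
  by_cases hu : u ∈ R
  · rw [hRE] at hu
    rcases Multiset.mem_add.1 hu with h | h
    · rw [Multiset.count_eq_one_of_mem hE.1 h, mul_one]
      obtain ⟨i, hi, rfl⟩ := EQ7_memE.1 h
      exact (hi0 i hi).2
    · have h2 : u ∉ EQ7_E g v := fun h3 => Multiset.disjoint_left.1 hE.2.2 h3 h
      rw [Multiset.count_eq_zero_of_notMem h2, mul_zero]
      rw [EQ7_memng] at h
      obtain ⟨i, hi, hi2⟩ := EQ7_memE.1 h
      have h3 : u = -(g ^ i • v) := by rw [hi2, neg_neg]
      rw [h3]
      exact (hi0 i hi).1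
  · have h2 : u ∉ EQ7_E g v := by
      intro h
      apply hu
      rw [hRE]
      exact Multiset.mem_add.2 (Or.inl h)
    rw [Multiset.count_eq_zero_of_notMem h2, mul_zero,
      Multiset.count_eq_zero_of_notMem (fun h => hu (hS u h))]

theorem EQ7_two {R : Multiset U} (hR : EQ7_R G R) (g : G) (v : U) (hv : v ∈ R)
    (h5 : g ^ 5 • v = v) (h1 : g • v ≠ v) {S : Multiset U} (hS : ∀ u ∈ S, u ∈ R)
    (hsum : S.sum = 0) (hp : NoPair S) (hne : S ≠ 0) :
    ∃ t : ℕ, 0 < t ∧ (S = t • EQ7_E g v ∨ S = t • ng (EQ7_E g v)) := by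
  classical
  rcases lt_trichotomy (S.count v) (S.count (-v)) with h | h | h
  · refine ⟨S.count (-v), by omega, Or.inr ?_⟩
    rw [← EQ7_Eneg]
    apply EQ7_pos hR g (-v) (hR.neg v hv) _ _ hS hsum hp
    · rw [neg_neg]
      exact h
    · rw [smul_neg, h5]
    · rw [smul_neg]
      exact fun h => h1 (neg_injective h)
  · exfalso
    apply hne
    rw [Multiset.eq_zero_iff_forall_notMem]
    intro u hu
    have hcon := EQ7_const hR g v hv h5 h1 hS hsum
    rw [h, sub_self] at hcon
    have hRE := EQ7_eq hR g v hv h5 h1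
    have huR := hS u hu
    rw [hRE] at huR
    rcases Multiset.mem_add.1 huR with h2 | h2
    · obtain ⟨i, hi, rfl⟩ := EQ7_memE.1 h2
      have h3 := SGN_notMem hp hu (hR.nz _ (hS _ hu))
      have h4 := hcon i hi
      rw [Multiset.count_eq_zero_of_notMem h3] at h4
      have h6 : 0 < S.count (g ^ i • v) := Multiset.count_pos.2 hu
      have h7 : (0 : ℚ) < (S.count (g ^ i • v) : ℚ) := by exact_mod_cast h6
      push_cast at h4
      linarith
    · rw [EQ7_memng] at h2
      obtain ⟨i, hi, hi2⟩ := EQ7_memE.1 h2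
      have h3 := SGN_notMem hp hu (hR.nz _ (hS _ hu))
      have h4 := hcon i hi
      rw [hi2, neg_neg, Multiset.count_eq_zero_of_notMem h3] at h4
      have h6 : 0 < S.count u := Multiset.count_pos.2 hu
      have h7 : (0 : ℚ) < (S.count u : ℚ) := by exact_mod_cast h6
      push_cast at h4
      linarith
  · exact ⟨S.count v, by omega, Or.inl (EQ7_pos hR g v hv h5 h1 hS hsum hp h)⟩

theorem EQ7_pent {K : Core G U} {R : Multiset U} (hK : IsR K R) (hR : EQ7_R G R) (g : G) (v : U)
    (hv : v ∈ R) (h5 : g ^ 5 • v = v) (h1 : g • v ≠ v) (hs : (EQ7_E g v).sum = 0) :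
    Pent K R (EQ7_E g v) := by
  have hE : (EQ7_E g v).Nodup ∧ (ng (EQ7_E g v)).Nodup ∧
      Disjoint (EQ7_E g v) (ng (EQ7_E g v)) :=
    Multiset.nodup_add.1 (EQ7_nodup g v (hR.nz v hv) h5 h1)
  have hno : ∀ a b : U, a ∈ EQ7_E g v → b ∈ EQ7_E g v → a + b ≠ 0 := by
    intro a b ha hb hab
    apply Multiset.disjoint_left.1 hE.2.2 ha
    rw [EQ7_memng]
    have h2 : -a = b := neg_eq_of_add_eq_zero_right hab
    rw [h2]
    exact hb
  have hER : ∀ u ∈ EQ7_E g v, u ∈ R := by
    intro u hu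
    obtain ⟨i, hi, rfl⟩ := EQ7_memE.1 hu
    exact hR.st _ _ hv
  refine
    { isR := hK
      card := EQ7_cardE g v
      eq := EQ7_eq hR g v hv h5 h1
      sum := hs
      noPair := ?_
      nodup := hE.1
      nz := fun u hu => hR.nz u (hER u hu)
      sgn := ?_
      ne := ?_ }
  · intro a b hab
    exact hno a b (Multiset.mem_of_le hab (by simp)) (Multiset.mem_of_le hab (by simp))
  · intro h
    have hmem : ∀ u ∈ tr h (EQ7_E g v), ∃ w ∈ EQ7_E g v, h • w = u := by
      intro u hu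
      exact Multiset.mem_map.1 hu
    have hcard : (tr h (EQ7_E g v)).card = 5 := by
      unfold tr
      rw [Multiset.card_map, EQ7_cardE]
    have hsum : (tr h (EQ7_E g v)).sum = 0 := by
      have h2 : (tr h (EQ7_E g v)).sum = h • (EQ7_E g v).sum := by
        unfold tr
        rw [Multiset.smul_sum]
      rw [h2, hs, smul_zero]
    obtain ⟨t, ht, hst⟩ := EQ7_two hR g v hv h5 h1 (S := tr h (EQ7_E g v)) (by
      intro u hu
      obtain ⟨w, hw, rfl⟩ := hmem u hu
      exact hR.st h w (hER w hw)) hsum (by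
      intro a b hab h0
      obtain ⟨w, hw, rfl⟩ := hmem a (Multiset.mem_of_le hab (by simp))
      obtain ⟨z, hz, rfl⟩ := hmem b (Multiset.mem_of_le hab (by simp))
      rw [← smul_add] at h0
      apply hno w z hw hz
      by_contra h3
      exact (smul_ne_zero_iff_ne h).2 h3 h0) (by
      intro h0
      rw [h0] at hcard
      simp at hcard)
    have hc2 : ∀ J : Multiset U, J.card = 5 → tr h (EQ7_E g v) = t • J → tr h (EQ7_E g v) = J := by
      intro J hJ he
      have h3 := congrArg Multiset.card he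
      rw [hcard, Multiset.card_nsmul, hJ] at h3
      have h4 : t = 1 := by omega
      rw [he, h4, one_smul]
    rcases hst with h2 | h2
    · exact Or.inl (hc2 _ (EQ7_cardE g v) h2)
    · refine Or.inr (hc2 _ ?_ h2)
      unfold ng
      rw [Multiset.card_map, EQ7_cardE]
  · intro h
    have h2 : v ∈ EQ7_E g v := EQ7_memE.2 ⟨0, by norm_num, by rw [pow_zero, one_smul]⟩
    have h3 := h2
    rw [← h] at h3
    exact Multiset.disjoint_left.1 hE.2.2 h2 h3

omit [Module ℚ U] in
theorem EQ7_elt (R : Multiset U) (hst : ∀ h : G, ∀ v ∈ R, h • v ∈ R) (x : U) (hx : x ∈ R)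
    (horb : ∀ v ∈ R, ∃ g : G, v = g • x) (hcard : Nat.card {v : U // v ∈ R} = 10) :
    ∃ g : G, ∃ v ∈ R, g ^ 5 • v = v ∧ g • v ≠ v := by
  classical
  let act : MulAction G {v : U // v ∈ R} :=
    { smul := fun g y => ⟨g • y.1, hst g y.1 y.2⟩
      one_smul := fun y => Subtype.ext (one_smul G y.1)
      mul_smul := fun g h y => Subtype.ext (mul_smul g h y.1) }
  have hfin : Finite {v : U // v ∈ R} := Nat.finite_of_card_ne_zero (by rw [hcard]; norm_num)
  have hPfin : Finite (MulAction.toPermHom G {v : U // v ∈ R}).range := inferInstance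
  have horb1 : MulAction.orbit (MulAction.toPermHom G {v : U // v ∈ R}).range
      (⟨x, hx⟩ : {v : U // v ∈ R}) = Set.univ := by
    rw [Set.eq_univ_iff_forall]
    intro y
    obtain ⟨g, hg⟩ := horb y.1 y.2
    refine ⟨⟨MulAction.toPermHom G {v : U // v ∈ R} g, ⟨g, rfl⟩⟩, ?_⟩
    apply Subtype.ext
    exact hg.symm
  have hidx := MulAction.index_stabilizer (MulAction.toPermHom G {v : U // v ∈ R}).range
    (⟨x, hx⟩ : {v : U // v ∈ R})
  rw [horb1, Set.ncard_univ, hcard] at hidx
  have hdvd := Subgroup.index_dvd_card (MulAction.stabilizer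
    (MulAction.toPermHom G {v : U // v ∈ R}).range (⟨x, hx⟩ : {v : U // v ∈ R}))
  rw [hidx] at hdvd
  have : Fact (Nat.Prime 5) := ⟨by norm_num⟩
  obtain ⟨π, hπ⟩ := exists_prime_orderOf_dvd_card' 5 ((by norm_num : 5 ∣ 10).trans hdvd)
  obtain ⟨π, g, rfl⟩ := π
  have hπ5 : (MulAction.toPermHom G {v : U // v ∈ R} g) ^ 5 = 1 := by
    have h := pow_orderOf_eq_one (⟨MulAction.toPermHom G {v : U // v ∈ R} g, ⟨g, rfl⟩⟩ :
      (MulAction.toPermHom G {v : U // v ∈ R}).range)
    rw [hπ] at h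
    exact congrArg Subtype.val h
  have hπ1 : (MulAction.toPermHom G {v : U // v ∈ R} g) ≠ 1 := by
    intro h
    have h2 : (⟨MulAction.toPermHom G {v : U // v ∈ R} g, ⟨g, rfl⟩⟩ :
      (MulAction.toPermHom G {v : U // v ∈ R}).range) = 1 := Subtype.ext h
    rw [h2, orderOf_one] at hπ
    norm_num at hπ
  obtain ⟨y, hy⟩ : ∃ y : {v : U // v ∈ R}, g • y ≠ y := by
    by_contra hn
    push Not at hn
    apply hπ1
    ext y
    rw [Equiv.Perm.one_apply]
    exact congrArg Subtype.val (hn y)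
  refine ⟨g, y.1, y.2, ?_, ?_⟩
  · rw [← map_pow] at hπ5
    have h := congrArg (fun σ : Equiv.Perm {v : U // v ∈ R} => (σ y).1) hπ5
    exact h
  · intro h
    exact hy (Subtype.ext h)

end

theorem p_EQ7 : Stmt_EQ7 := by
  classical
  intro G U _ _ _ _ K R hK hcard x hx hox S hS hsum hp hne
  have hst : ∀ h : G, ∀ v ∈ R, h • v ∈ R := by
    intro h v hv
    have h2 : h • v ∈ tr h R := Multiset.mem_map_of_mem _ hv
    rw [hK.stable h] at h2
    exact h2
  have hsub : gorb G x ⊆ (R.toFinset : Set U) := by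
    rintro u ⟨g, rfl⟩
    rw [Finset.mem_coe, Multiset.mem_toFinset]
    exact hst g x hx
  have hle := Multiset.toFinset_card_le R
  have hge : 10 ≤ R.toFinset.card := by
    rw [← hox, ← Set.ncard_coe_finset]
    exact Set.ncard_le_ncard hsub (Finset.finite_toSet _)
  have hRc : R.card = 10 := by omega
  have hRf : R.toFinset.card = 10 := by omega
  have hnd : R.Nodup := by
    rw [← Multiset.toFinset_card_eq_card_iff_nodup]
    omega
  have heq : gorb G x = (R.toFinset : Set U) := by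
    apply Set.eq_of_subset_of_ncard_le hsub _ (Finset.finite_toSet _)
    rw [hox, Set.ncard_coe_finset, hRf]
  have horb : ∀ v ∈ R, ∃ g : G, v = g • x := by
    intro v hv
    have h : v ∈ gorb G x := by
      rw [heq, Finset.mem_coe, Multiset.mem_toFinset]
      exact hv
    exact h
  have hx0 : x ≠ 0 := by
    intro h0
    have h2 : gorb G x = {0} := by
      ext u
      rw [Set.mem_singleton_iff]
      constructor
      · rintro ⟨g, rfl⟩
        rw [h0, smul_zero]
      · intro h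
        refine ⟨1, ?_⟩
        rw [one_smul, h, h0]
    rw [h2, Set.ncard_singleton] at hox
    norm_num at hox
  have hR : EQ7_R G R :=
    { st := hst
      neg := by
        intro v hv
        rw [← K.cc v]
        exact hst _ v hv
      card := hRc
      nz := by
        intro v hv
        obtain ⟨g, rfl⟩ := horb v hv
        exact (smul_ne_zero_iff_ne g).2 hx0
      nd := hnd }
  have hNc : Nat.card {v : U // v ∈ R} = 10 := by
    have h := Nat.card_eq_card_toFinset (R.toFinset : Set U)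
    have h2 : Nat.card {v : U // v ∈ R} = Nat.card (R.toFinset : Set U) := by
      apply Nat.card_congr
      exact Equiv.subtypeEquivRight fun v => by
        rw [Finset.mem_coe, Multiset.mem_toFinset]
    rw [h2, Nat.card_coe_set_eq, Set.ncard_coe_finset, hRf]
  obtain ⟨g, v, hv, h5, h1⟩ := EQ7_elt R hst x hx horb hNc
  obtain ⟨t, ht, h⟩ := EQ7_two hR g v hv h5 h1 hS hsum hp hne
  have hz : ∀ J : Multiset U, S = t • J → J.sum = 0 := by
    intro J hJ
    have h2 := congrArg Multiset.sum hJ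
    rw [hsum, Multiset.sum_nsmul, ← Nat.cast_smul_eq_nsmul ℚ] at h2
    have ht' : (t : ℚ) ≠ 0 := by
      have : t ≠ 0 := by omega
      exact_mod_cast this
    exact (smul_eq_zero.1 h2.symm).resolve_left ht'
  rcases h with h | h
  · exact ⟨t, EQ7_E g v, ht, h, EQ7_pent hK hR g v hv h5 h1 (hz _ h)⟩
  · refine ⟨t, EQ7_E g (-v), ht, ?_, ?_⟩
    · rw [EQ7_Eneg]
      exact h
    · apply EQ7_pent hK hR g (-v) (hR.neg v hv)
      · rw [smul_neg, h5]
      · rw [smul_neg]
        exact fun h => h1 (neg_injective h)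
      · rw [EQ7_Eneg]
        exact hz _ h

end Pool.T4
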