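import Pool.Agent.Work.MP_223b32_t4.InterfaceW
import Pool.Agent.Work.MP_223b32_t4.EQ7

/-! # Block EQW: an orbit of twelve vectors and an element of order five -/

namespace Pool.T4

section

variable {G U : Type} [Group G] [AddCommGroup U] [Module ℚ U] [DistribMulAction G U]

/-- The properties of `R`. -/
structure EQW_R (G : Type) {U : Type} [Group G] [AddCommGroup U] [DistribMulAction G U]
    (R : Multiset U) : Prop where
  st : ∀ h : G, ∀ v ∈ R, h • v ∈ R
  neg : ∀ v ∈ R, -v ∈ R
  card : R.card = 12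
  nz : ∀ v ∈ R, v ≠ 0
  nd : R.Nodup

omit [Module ℚ U] in
theorem EQW_Mg (g : G) (v : U) (h5 : g ^ 5 • v = v) {u : U}
    (hu : u ∈ EQ7_E g v + ng (EQ7_E g v)) : g • u ∈ EQ7_E g v + ng (EQ7_E g v) := by
  have h : ∀ u ∈ EQ7_E g v, g • u ∈ EQ7_E g v := by
    intro u hu
    obtain ⟨i, hi, rfl⟩ := EQ7_memE.1 hu
    rw [← mul_smul, ← pow_succ']
    by_cases h4 : i = 4
    · rw [h4]
      exact EQ7_memE.2 ⟨0, by norm_num, by rw [pow_zero, one_smul]; exact h5.symm⟩
    · exact EQ7_memE.2 ⟨i + 1, by omega, rfl⟩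
  rcases Multiset.mem_add.1 hu with h1 | h1
  · exact Multiset.mem_add.2 (Or.inl (h u h1))
  · rw [EQ7_memng] at h1
    refine Multiset.mem_add.2 (Or.inr ?_)
    rw [EQ7_memng, ← smul_neg]
    exact h _ h1

omit [Module ℚ U] in
theorem EQW_Mgk (g : G) (v : U) (h5 : g ^ 5 • v = v) (k : ℕ) {u : U}
    (hu : u ∈ EQ7_E g v + ng (EQ7_E g v)) : g ^ k • u ∈ EQ7_E g v + ng (EQ7_E g v) := by
  induction k with
  | zero => rw [pow_zero, one_smul]; exact hu
  | succ k ih => rw [pow_succ', mul_smul]; exact EQW_Mg g v h5 ih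

omit [Module ℚ U] in
theorem EQW_Mneg (g : G) (v : U) {u : U} (hu : -u ∈ EQ7_E g v + ng (EQ7_E g v)) :
    u ∈ EQ7_E g v + ng (EQ7_E g v) := by
  rcases Multiset.mem_add.1 hu with h1 | h1
  · exact Multiset.mem_add.2 (Or.inr (EQ7_memng.2 h1))
  · rw [EQ7_memng, neg_neg] at h1
    exact Multiset.mem_add.2 (Or.inl h1)

theorem EQW_z {R : Multiset U} (hR : EQW_R G R) (g : G) (v : U) (hv : v ∈ R)
    (h5 : g ^ 5 • v = v) (h1 : g • v ≠ v) : ∃ z ∈ R, z ∉ EQ7_E g v + ng (EQ7_E g v) ∧
      R = (EQ7_E g v + ng (EQ7_E g v)) + {z, -z} := by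
  classical
  have hMnd := EQ7_nodup g v (hR.nz v hv) h5 h1
  have hMR : ∀ u ∈ EQ7_E g v + ng (EQ7_E g v), u ∈ R := by
    intro u hu
    rcases Multiset.mem_add.1 hu with h | h
    · obtain ⟨i, hi, rfl⟩ := EQ7_memE.1 h
      exact hR.st _ _ hv
    · rw [EQ7_memng] at h
      obtain ⟨i, hi, hi2⟩ := EQ7_memE.1 h
      have h2 : u = -(g ^ i • v) := by rw [hi2, neg_neg]
      rw [h2]
      exact hR.neg _ (hR.st _ _ hv)
  have hMc : (EQ7_E g v + ng (EQ7_E g v)).card = 10 := by
    rw [Multiset.card_add, ng, Multiset.card_map, EQ7_cardE]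
  obtain ⟨z, hz, hzM⟩ : ∃ z ∈ R, z ∉ EQ7_E g v + ng (EQ7_E g v) := by
    by_contra hcon
    push Not at hcon
    have h := Multiset.card_le_card ((Multiset.le_iff_subset hR.nd).2 hcon)
    rw [hR.card, hMc] at h
    omega
  have hz0 := hR.nz z hz
  have hzn : z ≠ -z := SGN_neg_ne hz0
  refine ⟨z, hz, hzM, ?_⟩
  symm
  apply Multiset.eq_of_le_of_card_le
  · have hnd : ((EQ7_E g v + ng (EQ7_E g v)) + {z, -z}).Nodup := by
      rw [Multiset.nodup_add]
      refine ⟨hMnd, by simp [hzn], ?_⟩
      rw [Multiset.disjoint_left]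
      intro u hu hu2
      simp only [Multiset.insert_eq_cons, Multiset.mem_cons, Multiset.mem_singleton] at hu2
      rcases hu2 with rfl | rfl
      · exact hzM hu
      · exact hzM (EQW_Mneg g v hu)
    rw [Multiset.le_iff_subset hnd]
    intro u hu
    rcases Multiset.mem_add.1 hu with h | h
    · exact hMR u h
    · simp only [Multiset.insert_eq_cons, Multiset.mem_cons, Multiset.mem_singleton] at h
      rcases h with rfl | rfl
      · exact hz
      · exact hR.neg z hz
  · rw [hR.card, Multiset.card_add, hMc]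
    simp

theorem EQW_gz {R : Multiset U} (hR : EQW_R G R) (g : G) (v : U) (z : U)
    (h5 : g ^ 5 • v = v) (hz : z ∈ R) (hz5 : g ^ 5 • z = z)
    (hzM : z ∉ EQ7_E g v + ng (EQ7_E g v))
    (hRM : R = (EQ7_E g v + ng (EQ7_E g v)) + {z, -z}) : g • z = z := by
  have h := hR.st g z hz
  rw [hRM, Multiset.mem_add] at h
  rcases h with h | h
  · exfalso
    apply hzM
    have h2 := EQW_Mgk g v h5 4 h
    rw [← mul_smul, ← pow_succ, hz5] at h2
    exact h2
  · simp only [Multiset.insert_eq_cons, Multiset.mem_cons, Multiset.mem_singleton] at h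
    rcases h with h | h
    · exact h
    · exfalso
      have h2 : g ^ 2 • z = z := by
        rw [pow_two, mul_smul, h, smul_neg, h, neg_neg]
      have h3 : g ^ 5 • z = -z := by
        have e : g ^ 5 = g * g ^ 2 * g ^ 2 := by group
        rw [e, mul_smul, mul_smul, h2, h2, h]
      rw [hz5] at h3
      exact SGN_neg_ne (hR.nz z hz) h3

theorem EQW_shift (V : Finset U) (hst : ∀ h : G, ∀ v ∈ V, h • v ∈ V) (f : U → ℤ)
    (hf : IsRel V f) (g : G) : IsRel V (fun v => f (g • v)) := by
  refine ⟨fun v => ?_, fun v hv => ?_, ?_⟩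
  · show f (g • -v) = -f (g • v)
    rw [smul_neg]; exact hf.1 _
  · apply hf.2.1
    intro h
    apply hv
    have := hst g⁻¹ _ h
    rwa [inv_smul_smul] at this
  · have h1 : ∑ v ∈ V, f (g • v) • v = g⁻¹ • ∑ u ∈ V, f u • u := by
      rw [Finset.smul_sum]
      refine Finset.sum_nbij' (fun v => g • v) (fun u => g⁻¹ • u) ?_ ?_ ?_ ?_ ?_
      · intro v hv; exact hst g v hv
      · intro v hv; exact hst g⁻¹ v hv
      · intro v _; exact inv_smul_smul g v
      · intro v _; exact smul_inv_smul g v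
      · intro v _
        have h2 := map_zsmul (DistribSMul.toAddMonoidHom U g⁻¹) (f (g • v)) (g • v)
        rw [DistribSMul.toAddMonoidHom_apply, DistribSMul.toAddMonoidHom_apply,
          inv_smul_smul] at h2
        exact h2.symm
    show ∑ v ∈ V, f (g • v) • v = 0
    rw [h1, hf.2.2, smul_zero]

omit [Module ℚ U] in
theorem EQW_lin (V : Finset U) (f h : U → ℤ) (hf : IsRel V f) (hh : IsRel V h) (a b : ℤ) :
    IsRel V (fun u => a * f u - b * h u) := by
  refine ⟨fun v => ?_, fun v hv => ?_, ?_⟩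
  · show a * f (-v) - b * h (-v) = -(a * f v - b * h v)
    rw [hf.1, hh.1]; ring
  · show a * f v - b * h v = 0
    rw [hf.2.1 v hv, hh.2.1 v hv]; ring
  · show ∑ v ∈ V, (a * f v - b * h v) • v = 0
    simp only [sub_smul, mul_smul]
    rw [Finset.sum_sub_distrib, ← Finset.smul_sum, ← Finset.smul_sum, hf.2.2, hh.2.2]
    simp

omit [Module ℚ U] in
theorem EQW_relS [DecidableEq U] (V : Finset U) (hneg : ∀ v ∈ V, -v ∈ V)
    (S : Multiset U) (hS : ∀ v ∈ S, v ∈ V) (h0 : S.sum = 0) :
    IsRel V (fun v => (S.count v : ℤ) - (S.count (-v) : ℤ)) := by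
  have hz : ∀ v ∉ V, S.count v = 0 := fun v hv =>
    Multiset.count_eq_zero.2 fun h => hv (hS v h)
  have h1 : ∑ v ∈ V, (S.count v : ℤ) • v = 0 := by
    rw [← h0, Finset.sum_multiset_count]
    simp only [natCast_zsmul]
    symm
    apply Finset.sum_subset
    · intro v hv; exact hS v (Multiset.mem_toFinset.1 hv)
    · intro v _ hv
      rw [Multiset.count_eq_zero.2 (fun h => hv (Multiset.mem_toFinset.2 h)), zero_smul]
  have h2 : ∑ v ∈ V, (S.count (-v) : ℤ) • v = -∑ v ∈ V, (S.count v : ℤ) • v := by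
    rw [← Finset.sum_neg_distrib]
    refine Finset.sum_nbij' (fun v => -v) (fun u => -u) ?_ ?_ ?_ ?_ ?_
    · intro v hv; exact hneg v hv
    · intro v hv; exact hneg v hv
    · intro v _; exact neg_neg v
    · intro v _; exact neg_neg v
    · intro v _
      rw [smul_neg, neg_neg]
  refine ⟨fun v => ?_, fun v hv => ?_, ?_⟩
  · show (S.count (-v) : ℤ) - (S.count (- -v) : ℤ) = -((S.count v : ℤ) - (S.count (-v) : ℤ))
    rw [neg_neg]; ring
  · show (S.count v : ℤ) - (S.count (-v) : ℤ) = 0
    rw [hz v hv, hz (-v) (fun h => hv (by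
      have := hneg _ h
      rwa [neg_neg] at this))]
    simp
  · show ∑ v ∈ V, ((S.count v : ℤ) - (S.count (-v) : ℤ)) • v = 0
    simp only [sub_smul]
    rw [Finset.sum_sub_distrib, h2, h1]
    simp

open Classical in
theorem EQW_const {R : Multiset U} (hR : EQW_R G R) (g : G) (v : U) (hv : v ∈ R)
    (h5 : ∀ u ∈ R, g ^ 5 • u = u) (h1 : g • v ≠ v) (f : U → ℤ) (hf : IsRel R.toFinset f) :
    ∀ i < 5, f (g ^ i • v) = f v := by
  obtain ⟨z, hz, hzM, hRM⟩ := EQW_z hR g v hv (h5 v hv) h1
  have hgz := EQW_gz hR g v z (h5 v hv) hz (h5 z hz) hzM hRM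
  -- the relation on the six pairs
  have e0 : (R.map fun u => f u • u).sum = 0 := by
    rw [← hf.2.2, Finset.sum_eq_multiset_sum, Multiset.toFinset_val, hR.nd.dedup]
  have e1 : ∑ i ∈ Finset.range 5, f (g ^ i • v) • (g ^ i • v) + f z • z = 0 := by
    have e2 : (R.map fun u => f u • u).sum =
        (∑ i ∈ Finset.range 5, f (g ^ i • v) • (g ^ i • v) + f z • z) +
        (∑ i ∈ Finset.range 5, f (g ^ i • v) • (g ^ i • v) + f z • z) := by
      have e3 : ((EQ7_E g v).map fun u => f u • u).sum =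
          ∑ i ∈ Finset.range 5, f (g ^ i • v) • (g ^ i • v) := by
        unfold EQ7_E
        rw [Multiset.map_map]
        rfl
      have e4 : ((ng (EQ7_E g v)).map fun u => f u • u).sum =
          ∑ i ∈ Finset.range 5, f (g ^ i • v) • (g ^ i • v) := by
        rw [← e3]
        unfold ng
        rw [Multiset.map_map]
        congr 1
        refine Multiset.map_congr rfl fun u _ => ?_
        show f (-u) • (-u) = f u • u
        rw [hf.1, neg_smul, smul_neg, neg_neg]
      have e5 : (({z, -z} : Multiset U).map fun u => f u • u).sum = f z • z + f z • z := by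
        simp only [Multiset.insert_eq_cons, Multiset.map_cons, Multiset.map_singleton,
          Multiset.sum_cons, Multiset.sum_singleton]
        rw [hf.1, neg_smul, smul_neg, neg_neg]
      rw [hRM, Multiset.map_add, Multiset.map_add, Multiset.sum_add, Multiset.sum_add, e3, e4, e5]
      abel
    rw [e0] at e2
    have e6 : (2 : ℚ) • (∑ i ∈ Finset.range 5, f (g ^ i • v) • (g ^ i • v) + f z • z) = 0 := by
      rw [two_smul]
      exact e2.symm
    exact (smul_eq_zero.1 e6).resolve_left (by norm_num)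
  have hzs : ∀ (a : ℤ) (u : U), g • (a • u) = a • (g • u) := by
    intro a u
    have h2 := map_zsmul (DistribSMul.toAddMonoidHom U g) a u
    exact h2
  have e2 : ∑ i ∈ Finset.range 5, f (g ^ i • v) • (g ^ i • (g • v - v)) = 0 := by
    have e3 := congrArg (fun y => g • y) e1
    simp only [smul_add, smul_zero] at e3
    rw [Finset.smul_sum, hzs, hgz] at e3
    have e4 : ∑ i ∈ Finset.range 5, f (g ^ i • v) • (g ^ i • (g • v - v)) =
        (∑ i ∈ Finset.range 5, g • (f (g ^ i • v) • (g ^ i • v)) + f z • z) -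
        (∑ i ∈ Finset.range 5, f (g ^ i • v) • (g ^ i • v) + f z • z) := by
      rw [add_sub_add_right_eq_sub, ← Finset.sum_sub_distrib]
      refine Finset.sum_congr rfl fun i _ => ?_
      rw [hzs, ← smul_sub, smul_sub (g ^ i), ← mul_smul, ← mul_smul, ← pow_succ, ← pow_succ']
    rw [e4, e3, e1, sub_zero]
  have hw5 : g ^ 5 • (g • v - v) = g • v - v := by
    rw [smul_sub, h5 v hv, ← mul_smul, ← pow_succ, pow_succ', mul_smul, h5 v hv]
  have hw1 : g • (g • v - v) ≠ g • v - v := by
    intro h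
    apply h1
    have h2 : ∀ i : ℕ, g ^ i • (g • v - v) = g • v - v := by
      intro i
      induction i with
      | zero => rw [pow_zero, one_smul]
      | succ i ih => rw [pow_succ, mul_smul, h, ih]
    have h3 : ∑ i ∈ Finset.range 5, (g ^ (i + 1) • v - g ^ i • v) = 0 := by
      rw [Finset.sum_range_sub (fun i => g ^ i • v), h5 v hv, pow_zero, one_smul, sub_self]
    have h4 : ∑ i ∈ Finset.range 5, (g ^ (i + 1) • v - g ^ i • v) = (5 : ℚ) • (g • v - v) := by
      have h5' : ∀ i ∈ Finset.range 5, g ^ (i + 1) • v - g ^ i • v = g • v - v := by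
        intro i _
        have h6 := h2 i
        rw [smul_sub, ← mul_smul, ← pow_succ] at h6
        exact h6
      rw [Finset.sum_congr rfl h5', Finset.sum_const, Finset.card_range,
        ← Nat.cast_smul_eq_nsmul ℚ]
      norm_num
    rw [h3] at h4
    exact sub_eq_zero.1 ((smul_eq_zero.1 h4.symm).resolve_left (by norm_num))
  have e3 := EQ7_rel g (g • v - v) hw5 hw1 (fun i => (f (g ^ i • v) : ℚ)) (by
    rw [← e2]
    refine Finset.sum_congr rfl fun i _ => ?_
    exact Int.cast_smul_eq_zsmul ℚ _ _)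
  intro i hi
  have e4 := e3 i hi
  simp only [pow_zero, one_smul] at e4
  exact_mod_cast e4

open Classical in
theorem EQW_abs {R : Multiset U} (hR : EQW_R G R)
    (htr : ∀ u ∈ R, ∀ v ∈ R, ∃ h : G, h • u = v) (g : G) (v : U) (hv : v ∈ R)
    (h5 : ∀ u ∈ R, g ^ 5 • u = u) (h1 : g • v ≠ v) (f : U → ℤ) (hf : IsRel R.toFinset f) :
    ∀ u ∈ R, |f u| = |f v| := by
  obtain ⟨z, hz, hzM, hRM⟩ := EQW_z hR g v hv (h5 v hv) h1
  have hst : ∀ h : G, ∀ v ∈ R.toFinset, h • v ∈ R.toFinset := by
    intro h v hv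
    rw [Multiset.mem_toFinset] at hv ⊢
    exact hR.st h v hv
  have hM : ∀ u ∈ EQ7_E g v + ng (EQ7_E g v), |f u| = |f v| := by
    intro u hu
    rcases Multiset.mem_add.1 hu with h | h
    · obtain ⟨i, hi, rfl⟩ := EQ7_memE.1 h
      rw [EQW_const hR g v hv h5 h1 f hf i hi]
    · rw [EQ7_memng] at h
      obtain ⟨i, hi, hi2⟩ := EQ7_memE.1 h
      have h2 : u = -(g ^ i • v) := by rw [hi2, neg_neg]
      rw [h2, hf.1, EQW_const hR g v hv h5 h1 f hf i hi, abs_neg]
  have hzv : |f z| = |f v| := by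
    obtain ⟨h, hh⟩ := htr v hv z hz
    have e1 := EQW_const hR g v hv h5 h1 _ (EQW_shift R.toFinset hst f hf h) 1 (by norm_num)
    simp only [pow_one] at e1
    rw [hh] at e1
    have e2 := hR.st h _ (hR.st g v hv)
    rw [hRM, Multiset.mem_add] at e2
    rcases e2 with e2 | e2
    · rw [← e1]
      exact hM _ e2
    · exfalso
      simp only [Multiset.insert_eq_cons, Multiset.mem_cons, Multiset.mem_singleton] at e2
      rcases e2 with e2 | e2
      · rw [← hh] at e2
        exact h1 (MulAction.injective h e2)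
      · rw [← hh, ← smul_neg] at e2
        have e3 : g • v = -v := MulAction.injective h e2
        exact EQ7_cop g v (h5 v hv) h1 (by norm_num : 0 < 1) (by norm_num)
          (Or.inr (by rw [pow_one]; exact e3))
  intro u hu
  rw [hRM, Multiset.mem_add] at hu
  rcases hu with h | h
  · exact hM u h
  · simp only [Multiset.insert_eq_cons, Multiset.mem_cons, Multiset.mem_singleton] at h
    rcases h with rfl | rfl
    · exact hzv
    · rw [hf.1, abs_neg]
      exact hzv

end

theorem p_EQW : Stmt_EQW := by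
  classical
  intro G U _ _ _ _ K R hK hcard x hx hox hg S hS hsum hp hne
  have hst : ∀ h : G, ∀ v ∈ R, h • v ∈ R := by
    intro h v hv
    have h2 : h • v ∈ tr h R := Multiset.mem_map_of_mem _ hv
    rw [hK.stable h] at h2
    exact h2
  have hsub : gorb G x ⊆ (R.toFinset : Set U) := by
    rintro u ⟨g, rfl⟩
    rw [Finset.mem_coe, Multiset.mem_toFinset]
    exact hst g x hx
  have hle := Multiset.toFinset_card_le R
  have hge : 12 ≤ R.toFinset.card := by
    rw [← hox, ← Set.ncard_coe_finset]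
    exact Set.ncard_le_ncard hsub (Finset.finite_toSet _)
  have hRc : R.card = 12 := by omega
  have hRf : R.toFinset.card = 12 := by omega
  have hnd : R.Nodup := by
    rw [← Multiset.toFinset_card_eq_card_iff_nodup]
    omega
  have heq : gorb G x = (R.toFinset : Set U) := by
    apply Set.eq_of_subset_of_ncard_le hsub _ (Finset.finite_toSet _)
    rw [hox, Set.ncard_coe_finset, hRf]
  have horb : ∀ v ∈ R, ∃ g : G, v = g • x := by
    intro v hv
    have h : v ∈ gorb G x := by
      rw [heq, Finset.mem_coe, Multiset.mem_toFinset]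
      exact hv
    exact h
  have hx0 : x ≠ 0 := by
    intro h0
    have h2 : gorb G x = {0} := by
      ext u
      rw [Set.mem_singleton_iff]
      constructor
      · rintro ⟨g, rfl⟩
        rw [h0, smul_zero]
      · intro h
        refine ⟨1, ?_⟩
        rw [one_smul, h, h0]
    rw [h2, Set.ncard_singleton] at hox
    norm_num at hox
  have hR : EQW_R G R :=
    { st := hst
      neg := by
        intro v hv
        rw [← K.cc v]
        exact hst _ v hv
      card := hRc
      nz := by
        intro v hv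
        obtain ⟨g, rfl⟩ := horb v hv
        exact (smul_ne_zero_iff_ne g).2 hx0
      nd := hnd }
  have htr : ∀ u ∈ R, ∀ v ∈ R, ∃ h : G, h • u = v := by
    intro u hu v hv
    obtain ⟨g, rfl⟩ := horb u hu
    obtain ⟨g', rfl⟩ := horb v hv
    exact ⟨g' * g⁻¹, by rw [mul_smul, inv_smul_smul]⟩
  obtain ⟨g, ⟨v, hv, h1⟩, h5⟩ := hg
  have hstF : ∀ h : G, ∀ v ∈ R.toFinset, h • v ∈ R.toFinset := by
    intro h v hv
    rw [Multiset.mem_toFinset] at hv ⊢
    exact hR.st h v hv
  have hnegF : ∀ v ∈ R.toFinset, -v ∈ R.toFinset := by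
    intro v hv
    rw [Multiset.mem_toFinset] at hv ⊢
    exact hR.neg v hv
  have hSF : ∀ v ∈ S, v ∈ R.toFinset := fun v hv => Multiset.mem_toFinset.2 (hS v hv)
  obtain ⟨f, hfdef⟩ : ∃ f : U → ℤ, f = fun v => (S.count v : ℤ) - (S.count (-v) : ℤ) := ⟨_, rfl⟩
  have hf : IsRel R.toFinset f := by
    rw [hfdef]
    exact EQW_relS R.toFinset hnegF S hSF hsum
  have habs := EQW_abs hR htr g v hv h5 h1
  have hall := habs f hf
  -- no opposite pairs
  have hpair : ∀ v ∈ S, -v ∉ S := fun v hv => SGN_notMem hp hv (hR.nz v (hS v hv))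
  have hfs : ∀ v ∈ S, f v = S.count v := by
    intro v hv
    rw [hfdef]
    show (S.count v : ℤ) - (S.count (-v) : ℤ) = S.count v
    rw [Multiset.count_eq_zero.2 (hpair v hv)]
    simp
  obtain ⟨s0, hs0⟩ := Multiset.exists_mem_of_ne_zero hne
  obtain ⟨t, ht⟩ : ∃ t : ℕ, (t : ℤ) = |f v| := ⟨(f v).natAbs, Int.natCast_natAbs _⟩
  have htpos : 0 < t := by
    have h2 := hall s0 (hS s0 hs0)
    rw [← ht, hfs s0 hs0] at h2
    have h3 : 0 < S.count s0 := Multiset.count_pos.2 hs0
    have h4 : (0 : ℤ) < (S.count s0 : ℤ) := by exact_mod_cast h3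
    rw [abs_of_pos h4] at h2
    have h5' : S.count s0 = t := by exact_mod_cast h2
    omega
  have hcount : ∀ v ∈ S, S.count v = t := by
    intro v hv
    have h1 := hall v (hS v hv)
    rw [hfs v hv, ← ht, abs_of_nonneg (by positivity)] at h1
    exact_mod_cast h1
  have hmem : ∀ u : U, u ∈ S ↔ f u = t := by
    intro u
    constructor
    · intro hu
      rw [hfs u hu, hcount u hu]
    · intro hu
      by_contra hcon
      have h2 : f u ≤ 0 := by
        rw [hfdef]
        show (S.count u : ℤ) - (S.count (-u) : ℤ) ≤ 0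
        rw [Multiset.count_eq_zero.2 hcon]
        simp
      have h3 : (0 : ℤ) < t := by exact_mod_cast htpos
      omega
  have hSJ : S = t • S.dedup := by
    ext v
    rw [Multiset.count_nsmul]
    by_cases hv : v ∈ S
    · rw [hcount v hv, Multiset.count_eq_one_of_mem (Multiset.nodup_dedup S)
        (Multiset.mem_dedup.2 hv), mul_one]
    · rw [Multiset.count_eq_zero.2 hv,
        Multiset.count_eq_zero.2 (fun h => hv (Multiset.mem_dedup.1 h)), mul_zero]
  have hJsum : S.dedup.sum = 0 := by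
    have h1 : (t : ℕ) • S.dedup.sum = 0 := by
      rw [← Multiset.sum_nsmul, ← hSJ, hsum]
    have h2 : ((t : ℚ)) • S.dedup.sum = 0 := by
      rw [Nat.cast_smul_eq_nsmul, h1]
    exact (smul_eq_zero.1 h2).resolve_left (by exact_mod_cast htpos.ne')
  have hJnd : (ng S.dedup).Nodup := (Multiset.nodup_dedup S).map neg_injective
  have hdisj : ∀ u ∈ S.dedup, u ∉ ng S.dedup := by
    intro u hu hu2
    rw [EQ7_memng, Multiset.mem_dedup] at hu2
    exact hpair u (Multiset.mem_dedup.1 hu) hu2
  have hRJ : R = S.dedup + ng S.dedup := by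
    refine (Multiset.Nodup.ext hnd ?_).2 fun u => ?_
    · rw [Multiset.nodup_add]
      exact ⟨Multiset.nodup_dedup S, hJnd, Multiset.disjoint_left.2 fun {u} h h' => hdisj u h h'⟩
    · rw [Multiset.mem_add, EQ7_memng, Multiset.mem_dedup, Multiset.mem_dedup]
      constructor
      · intro hu
        by_contra hcon
        have h2 : u ∉ S := fun h => hcon (Or.inl h)
        have h3 : -u ∉ S := fun h => hcon (Or.inr h)
        have h4 := hall u hu
        have h5' : f u = 0 := by
          rw [hfdef]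
          show (S.count u : ℤ) - (S.count (-u) : ℤ) = 0
          rw [Multiset.count_eq_zero.2 h2, Multiset.count_eq_zero.2 h3]
          simp
        rw [h5', abs_zero, ← ht] at h4
        have h6 : (0 : ℤ) < t := by exact_mod_cast htpos
        omega
      · rintro (h | h)
        · exact hS u h
        · rw [← neg_neg u]
          exact hR.neg _ (hS _ h)
  have hJc : S.dedup.card = 6 := by
    have h2 := congrArg Multiset.card hRJ
    rw [hRc, Multiset.card_add, ng, Multiset.card_map] at h2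
    omega
  refine ⟨t, S.dedup, htpos, hSJ,
    { isR := hK
      card := hJc
      eq := hRJ
      sum := hJsum
      noPair := fun a b hab => hp a b (hab.trans (Multiset.dedup_le S))
      nodup := Multiset.nodup_dedup S
      nz := fun u hu => hR.nz u (hS u (Multiset.mem_dedup.1 hu))
      sgn := ?_
      ne := ?_ }⟩
  · intro h
    have hsh := EQW_shift R.toFinset hstF f hf h⁻¹
    have htr2 : (tr h S.dedup).Nodup := (Multiset.nodup_dedup S).map (MulAction.injective h)
    have hmem2 : ∀ u : U, u ∈ tr h S.dedup ↔ f (h⁻¹ • u) = t := by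
      intro u
      rw [← hmem]
      unfold tr
      rw [Multiset.mem_map]
      constructor
      · rintro ⟨w, hw, rfl⟩
        rw [inv_smul_smul]
        exact Multiset.mem_dedup.1 hw
      · intro hu
        exact ⟨h⁻¹ • u, Multiset.mem_dedup.2 hu, smul_inv_smul h u⟩
    -- the difference of the two relations
    have hlin := habs _ (EQW_lin R.toFinset f _ hf hsh (f (h⁻¹ • v)) (f v))
    have hvan : ∀ u ∈ R, f (h⁻¹ • v) * f u = f v * f (h⁻¹ • u) := by
      intro u hu
      have h2 := hlin u hu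
      have h3 : f (h⁻¹ • v) * f v - f v * f (h⁻¹ • v) = 0 := by ring
      rw [h3, abs_zero, abs_eq_zero] at h2
      exact sub_eq_zero.1 h2
    have hfv0 : f v ≠ 0 := by
      intro h2
      rw [h2, abs_zero] at ht
      omega
    have h3 : f (h⁻¹ • v) = f v ∨ f (h⁻¹ • v) = -f v :=
      abs_eq_abs.1 (hall _ (hR.st _ _ hv))
    have hout : ∀ u : U, u ∉ R → f u = 0 ∧ f (h⁻¹ • u) = 0 := by
      intro u hu
      have hu' : u ∉ R.toFinset := fun h => hu (Multiset.mem_toFinset.1 h)
      exact ⟨hf.2.1 u hu', hsh.2.1 u hu'⟩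
    rcases h3 with h3 | h3
    · left
      refine (Multiset.Nodup.ext htr2 (Multiset.nodup_dedup S)).2 fun u => ?_
      rw [hmem2, Multiset.mem_dedup, hmem]
      by_cases hu : u ∈ R
      · have h4 := hvan u hu
        rw [h3] at h4
        rw [mul_left_cancel₀ hfv0 h4]
      · rw [(hout u hu).1, (hout u hu).2]
    · right
      refine (Multiset.Nodup.ext htr2 hJnd).2 fun u => ?_
      rw [hmem2, EQ7_memng, Multiset.mem_dedup, hmem, hf.1]
      by_cases hu : u ∈ R
      · have h4 := hvan u hu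
        rw [h3, neg_mul, ← mul_neg] at h4
        rw [mul_left_cancel₀ hfv0 h4]
      · rw [(hout u hu).1, (hout u hu).2, neg_zero]
  · intro h
    have h2 : s0 ∈ S.dedup := Multiset.mem_dedup.2 hs0
    have h3 := h2
    rw [← h] at h3
    exact hdisj s0 h2 h3

end Pool.T4
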