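import Pool.Agent.Work.MP_223b32_t4.InterfaceV
import Pool.Agent.Work.MP_223b32_t4.EQW

/-! # Block EQV (helper58): an orbit of twelve vectors with at most one relation -/

namespace Pool.T4

/-- the absolute value of a relation is invariant -/
theorem EQV_abs {G U : Type} [Group G] [AddCommGroup U] [Module ℚ U] [DistribMulAction G U]
    (V : Finset U) (hst : ∀ h : G, ∀ v ∈ V, h • v ∈ V)
    (hone : ∀ f h : U → ℤ, IsRel V f → IsRel V h → ∀ u v : U, f u * h v = f v * h u)
    (f : U → ℤ) (hf : IsRel V f) (g : G) : ∀ u ∈ V, |f (g • u)| = |f u| := by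
  have hsum : ∑ w ∈ V, f (g • w) ^ 2 = ∑ w ∈ V, f w ^ 2 := by
    refine Finset.sum_nbij' (fun v => g • v) (fun u => g⁻¹ • u) ?_ ?_ ?_ ?_ ?_
    · intro v hv; exact hst g v hv
    · intro v hv; exact hst g⁻¹ v hv
    · intro v _; exact inv_smul_smul g v
    · intro v _; exact smul_inv_smul g v
    · intro v _; rfl
  intro u hu
  have h1 : f u ^ 2 * ∑ w ∈ V, f w ^ 2 = f (g • u) ^ 2 * ∑ w ∈ V, f w ^ 2 := by
    rw [← hsum, Finset.mul_sum, hsum, Finset.mul_sum]
    refine Finset.sum_congr rfl fun w _ => ?_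
    have h2 : f u * f (g • w) = f w * f (g • u) := hone f _ hf (EQW_shift V hst f hf g) u w
    linear_combination (f u * f (g • w) + f w * f (g • u)) * h2
  by_cases h0 : ∑ w ∈ V, f w ^ 2 = 0
  · have h3 := (Finset.sum_eq_zero_iff_of_nonneg (fun w _ => sq_nonneg (f w))).1 h0
    have h4 : f u = 0 := by
      have := h3 u hu
      exact pow_eq_zero_iff (two_ne_zero) |>.1 this
    have h5 : f (g • u) = 0 := by
      have := h3 _ (hst g u hu)
      exact pow_eq_zero_iff (two_ne_zero) |>.1 this
    rw [h4, h5]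
  · have h2 := mul_right_cancel₀ h0 h1
    exact (sq_eq_sq_iff_abs_eq_abs _ _).1 h2.symm

theorem p_EQV : Stmt_EQV := by
  classical
  intro G U _ _ _ _ K R hK hcard x hx hox hone S hS hsum hp hne
  have hst : ∀ h : G, ∀ v ∈ R, h • v ∈ R := by
    intro h v hv
    have h2 : h • v ∈ tr h R := Multiset.mem_map_of_mem _ hv
    rw [hK.stable h] at h2
    exact h2
  have hsub : gorb G x ⊆ (R.toFinset : Set U) := by
    rintro u ⟨g, rfl⟩
    rw [Finset.mem_coe, Multiset.mem_toFinset]
    exact hst g x hx
  have hle := Multiset.toFinset_card_le R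
  have hge : 12 ≤ R.toFinset.card := by
    rw [← hox, ← Set.ncard_coe_finset]
    exact Set.ncard_le_ncard hsub (Finset.finite_toSet _)
  have hRc : R.card = 12 := by omega
  have hRf : R.toFinset.card = 12 := by omega
  have hnd : R.Nodup := by
    rw [← Multiset.toFinset_card_eq_card_iff_nodup]
    omega
  have heq : gorb G x = (R.toFinset : Set U) := by
    apply Set.eq_of_subset_of_ncard_le hsub _ (Finset.finite_toSet _)
    rw [hox, Set.ncard_coe_finset, hRf]
  have horb : ∀ v ∈ R, ∃ g : G, v = g • x := by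
    intro v hv
    have h : v ∈ gorb G x := by
      rw [heq, Finset.mem_coe, Multiset.mem_toFinset]
      exact hv
    exact h
  have hx0 : x ≠ 0 := by
    intro h0
    have h2 : gorb G x = {0} := by
      ext u
      rw [Set.mem_singleton_iff]
      constructor
      · rintro ⟨g, rfl⟩
        rw [h0, smul_zero]
      · intro h
        refine ⟨1, ?_⟩
        rw [one_smul, h, h0]
    rw [h2, Set.ncard_singleton] at hox
    norm_num at hox
  have hR : EQW_R G R :=
    { st := hst
      neg := by
        intro v hv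
        rw [← K.cc v]
        exact hst _ v hv
      card := hRc
      nz := by
        intro v hv
        obtain ⟨g, rfl⟩ := horb v hv
        exact (smul_ne_zero_iff_ne g).2 hx0
      nd := hnd }
  have htr : ∀ u ∈ R, ∀ v ∈ R, ∃ h : G, h • u = v := by
    intro u hu v hv
    obtain ⟨g, rfl⟩ := horb u hu
    obtain ⟨g', rfl⟩ := horb v hv
    exact ⟨g' * g⁻¹, by rw [mul_smul, inv_smul_smul]⟩
  have hstF : ∀ h : G, ∀ v ∈ R.toFinset, h • v ∈ R.toFinset := by
    intro h v hv
    rw [Multiset.mem_toFinset] at hv ⊢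
    exact hR.st h v hv
  have hnegF : ∀ v ∈ R.toFinset, -v ∈ R.toFinset := by
    intro v hv
    rw [Multiset.mem_toFinset] at hv ⊢
    exact hR.neg v hv
  have hSF : ∀ v ∈ S, v ∈ R.toFinset := fun v hv => Multiset.mem_toFinset.2 (hS v hv)
  obtain ⟨f, hfdef⟩ : ∃ f : U → ℤ, f = fun v => (S.count v : ℤ) - (S.count (-v) : ℤ) := ⟨_, rfl⟩
  have hf : IsRel R.toFinset f := by
    rw [hfdef]
    exact EQW_relS R.toFinset hnegF S hSF hsum
  have hone' := hone R.toFinset (fun v => Multiset.mem_toFinset)
  have hall : ∀ u ∈ R, |f u| = |f x| := by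
    intro u hu
    obtain ⟨h, hh⟩ := htr x hx u hu
    rw [← hh]
    exact EQV_abs R.toFinset hstF hone' f hf h x (Multiset.mem_toFinset.2 hx)
  -- no opposite pairs
  have hpair : ∀ v ∈ S, -v ∉ S := fun v hv => SGN_notMem hp hv (hR.nz v (hS v hv))
  have hfs : ∀ v ∈ S, f v = S.count v := by
    intro v hv
    rw [hfdef]
    show (S.count v : ℤ) - (S.count (-v) : ℤ) = S.count v
    rw [Multiset.count_eq_zero.2 (hpair v hv)]
    simp
  obtain ⟨s0, hs0⟩ := Multiset.exists_mem_of_ne_zero hne
  obtain ⟨t, ht⟩ : ∃ t : ℕ, (t : ℤ) = |f x| := ⟨(f x).natAbs, Int.natCast_natAbs _⟩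
  have htpos : 0 < t := by
    have h2 := hall s0 (hS s0 hs0)
    rw [← ht, hfs s0 hs0] at h2
    have h3 : 0 < S.count s0 := Multiset.count_pos.2 hs0
    have h4 : (0 : ℤ) < (S.count s0 : ℤ) := by exact_mod_cast h3
    rw [abs_of_pos h4] at h2
    have h5' : S.count s0 = t := by exact_mod_cast h2
    omega
  have hcount : ∀ v ∈ S, S.count v = t := by
    intro v hv
    have h1 := hall v (hS v hv)
    rw [hfs v hv, ← ht, abs_of_nonneg (by positivity)] at h1
    exact_mod_cast h1
  have hmem : ∀ u : U, u ∈ S ↔ f u = t := by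
    intro u
    constructor
    · intro hu
      rw [hfs u hu, hcount u hu]
    · intro hu
      by_contra hcon
      have h2 : f u ≤ 0 := by
        rw [hfdef]
        show (S.count u : ℤ) - (S.count (-u) : ℤ) ≤ 0
        rw [Multiset.count_eq_zero.2 hcon]
        simp
      have h3 : (0 : ℤ) < t := by exact_mod_cast htpos
      omega
  have hSJ : S = t • S.dedup := by
    ext v
    rw [Multiset.count_nsmul]
    by_cases hv : v ∈ S
    · rw [hcount v hv, Multiset.count_eq_one_of_mem (Multiset.nodup_dedup S)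
        (Multiset.mem_dedup.2 hv), mul_one]
    · rw [Multiset.count_eq_zero.2 hv,
        Multiset.count_eq_zero.2 (fun h => hv (Multiset.mem_dedup.1 h)), mul_zero]
  have hJsum : S.dedup.sum = 0 := by
    have h1 : (t : ℕ) • S.dedup.sum = 0 := by
      rw [← Multiset.sum_nsmul, ← hSJ, hsum]
    have h2 : ((t : ℚ)) • S.dedup.sum = 0 := by
      rw [Nat.cast_smul_eq_nsmul, h1]
    exact (smul_eq_zero.1 h2).resolve_left (by exact_mod_cast htpos.ne')
  have hJnd : (ng S.dedup).Nodup := (Multiset.nodup_dedup S).map neg_injective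
  have hdisj : ∀ u ∈ S.dedup, u ∉ ng S.dedup := by
    intro u hu hu2
    rw [EQ7_memng, Multiset.mem_dedup] at hu2
    exact hpair u (Multiset.mem_dedup.1 hu) hu2
  have hRJ : R = S.dedup + ng S.dedup := by
    refine (Multiset.Nodup.ext hnd ?_).2 fun u => ?_
    · rw [Multiset.nodup_add]
      exact ⟨Multiset.nodup_dedup S, hJnd, Multiset.disjoint_left.2 fun {u} h h' => hdisj u h h'⟩
    · rw [Multiset.mem_add, EQ7_memng, Multiset.mem_dedup, Multiset.mem_dedup]
      constructor
      · intro hu
        by_contra hcon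
        have h2 : u ∉ S := fun h => hcon (Or.inl h)
        have h3 : -u ∉ S := fun h => hcon (Or.inr h)
        have h4 := hall u hu
        have h5' : f u = 0 := by
          rw [hfdef]
          show (S.count u : ℤ) - (S.count (-u) : ℤ) = 0
          rw [Multiset.count_eq_zero.2 h2, Multiset.count_eq_zero.2 h3]
          simp
        rw [h5', abs_zero, ← ht] at h4
        have h6 : (0 : ℤ) < t := by exact_mod_cast htpos
        omega
      · rintro (h | h)
        · exact hS u h
        · rw [← neg_neg u]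
          exact hR.neg _ (hS _ h)
  have hJc : S.dedup.card = 6 := by
    have h2 := congrArg Multiset.card hRJ
    rw [hRc, Multiset.card_add, ng, Multiset.card_map] at h2
    omega
  refine ⟨t, S.dedup, htpos, hSJ,
    { isR := hK
      card := hJc
      eq := hRJ
      sum := hJsum
      noPair := fun a b hab => hp a b (hab.trans (Multiset.dedup_le S))
      nodup := Multiset.nodup_dedup S
      nz := fun u hu => hR.nz u (hS u (Multiset.mem_dedup.1 hu))
      sgn := ?_
      ne := ?_ }⟩
  · intro h
    have hsh := EQW_shift R.toFinset hstF f hf h⁻¹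
    have htr2 : (tr h S.dedup).Nodup := (Multiset.nodup_dedup S).map (MulAction.injective h)
    have hmem2 : ∀ u : U, u ∈ tr h S.dedup ↔ f (h⁻¹ • u) = t := by
      intro u
      rw [← hmem]
      unfold tr
      rw [Multiset.mem_map]
      constructor
      · rintro ⟨w, hw, rfl⟩
        rw [inv_smul_smul]
        exact Multiset.mem_dedup.1 hw
      · intro hu
        exact ⟨h⁻¹ • u, Multiset.mem_dedup.2 hu, smul_inv_smul h u⟩
    -- the two relations are proportional
    have hvan : ∀ u ∈ R, f (h⁻¹ • x) * f u = f x * f (h⁻¹ • u) := by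
      intro u hu
      have h2 := hone' f _ hf hsh u x
      rw [mul_comm, h2]
    have hfv0 : f x ≠ 0 := by
      intro h2
      rw [h2, abs_zero] at ht
      omega
    have h3 : f (h⁻¹ • x) = f x ∨ f (h⁻¹ • x) = -f x :=
      abs_eq_abs.1 (hall _ (hR.st _ _ hx))
    have hout : ∀ u : U, u ∉ R → f u = 0 ∧ f (h⁻¹ • u) = 0 := by
      intro u hu
      have hu' : u ∉ R.toFinset := fun h => hu (Multiset.mem_toFinset.1 h)
      exact ⟨hf.2.1 u hu', hsh.2.1 u hu'⟩
    rcases h3 with h3 | h3
    · left
      refine (Multiset.Nodup.ext htr2 (Multiset.nodup_dedup S)).2 fun u => ?_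
      rw [hmem2, Multiset.mem_dedup, hmem]
      by_cases hu : u ∈ R
      · have h4 := hvan u hu
        rw [h3] at h4
        rw [mul_left_cancel₀ hfv0 h4]
      · rw [(hout u hu).1, (hout u hu).2]
    · right
      refine (Multiset.Nodup.ext htr2 hJnd).2 fun u => ?_
      rw [hmem2, EQ7_memng, Multiset.mem_dedup, hmem, hf.1]
      by_cases hu : u ∈ R
      · have h4 := hvan u hu
        rw [h3, neg_mul, ← mul_neg] at h4
        rw [mul_left_cancel₀ hfv0 h4]
      · rw [(hout u hu).1, (hout u hu).2, neg_zero]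
  · intro h
    have h2 : s0 ∈ S.dedup := Multiset.mem_dedup.2 hs0
    have h3 := h2
    rw [← h] at h3
    exact hdisj s0 h2 h3

end Pool.T4
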