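import Pool.Agent.Work.MP_223b32_t4.Interface

/-!
# RNP: removal of pairs
-/

namespace Pool.T4

theorem RNP_pre {A B : Type} (f : A → B) (S : Multiset A) (a b : B)
    (h : ({a, b} : Multiset B) ≤ S.map f) :
    ∃ (x y : A) (S' : Multiset A), S = S' + {x, y} ∧ f x = a ∧ f y = b := by
  classical
  have ha : a ∈ S.map f := Multiset.mem_of_le h (by simp)
  obtain ⟨x, hx, hxa⟩ := Multiset.mem_map.1 ha
  obtain ⟨S1, hS1⟩ := Multiset.exists_cons_of_mem hx
  have h1 : ({b} : Multiset B) ≤ S1.map f := by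
    have : a ::ₘ ({b} : Multiset B) ≤ a ::ₘ S1.map f := by
      have e : S.map f = a ::ₘ S1.map f := by rw [hS1, Multiset.map_cons, hxa]
      rw [← e]; exact h
    exact (Multiset.cons_le_cons_iff a).1 this
  have hb : b ∈ S1.map f := Multiset.mem_of_le h1 (by simp)
  obtain ⟨y, hy, hyb⟩ := Multiset.mem_map.1 hb
  obtain ⟨S2, hS2⟩ := Multiset.exists_cons_of_mem hy
  refine ⟨x, y, S2, ?_, hxa, hyb⟩
  rw [hS1, hS2, add_comm]
  simp

theorem p_RNP : Stmt_RNP := by
  intro p _ a ι ha hD S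
  induction' hn : S.card using Nat.strong_induction_on with n ih generalizing S
  intro hS
  by_cases hNP : NoPair (S.map (uu (p ^ a) ι))
  · exact ⟨S, le_rfl, hNP, rfl, by rw [hn], fun h => h⟩
  · unfold NoPair at hNP
    push Not at hNP
    obtain ⟨u, v, huv, h0⟩ := hNP
    obtain ⟨x, y, S', hSS, hx, hy⟩ := RNP_pre (uu (p ^ a) ι) S u v huv
    have hxS : x ∈ S := by rw [hSS]; simp
    have hyS : y ∈ S := by rw [hSS]; simp
    have hS' : ∀ z ∈ S', Weil (p ^ a) z := fun z hz => hS z (by rw [hSS]; simp [hz])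
    have hcard : S.card = S'.card + 2 := by rw [hSS]; simp
    obtain ⟨J, hJ, hJN, hJs, hJc, hJC⟩ := ih S'.card (by omega) S' rfl hS'
    have hsum : ((({x, y} : Multiset Qb)).map (uu (p ^ a) ι)).sum = 0 := by
      simp [hx, hy, h0]
    have hpair : Sim (x * y) ((p ^ a : ℕ) : Qb) := by
      have hW : ∀ z ∈ ({x, y} : Multiset Qb), Weil (p ^ a) z := by
        intro z hz
        simp only [Multiset.insert_eq_cons, Multiset.mem_cons, Multiset.mem_singleton] at hz
        rcases hz with rfl | rfl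
        · exact hS _ hxS
        · exact hS _ hyS
      obtain ⟨N, hN, e⟩ := (hD.sum _ hW).1 hsum
      refine ⟨2 * N, by omega, ?_⟩
      have e2 : ((x * y) ^ 2) ^ N = (((p ^ a : ℕ) : Qb) ^ 2) ^ N := by
        simpa using e
      rw [pow_mul, pow_mul, e2]
    refine ⟨J, hJ.trans (by rw [hSS]; exact Multiset.le_add_right _ _), hJN, ?_, ?_, ?_⟩
    · rw [hJs, hSS, Multiset.map_add, Multiset.sum_add, hsum, add_zero]
    · rw [hJc, ← hn, hcard, Nat.even_add]
      simp
    · intro hC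
      rw [hSS]
      exact Cyc.join _ _ (hJC hC) (Cyc.pair x y (hS x hxS) hpair)

end Pool.T4
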