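import Pool.Agent.Work.MP_223b32_t4.Interface9
import Pool.Agent.Work.MP_223b32_t4.RNP

/-!
# Block EV9: `Cyc` depends only on the class modulo pairs (typed by helper56)
-/

namespace Pool.T4

theorem EV9_pair {U : Type} [AddCommGroup U] (M : Multiset U) (u v w : U) (h : u + v = 0) :
    (cnt w (M + {u, v}) : ℤ) - cnt (-w) (M + {u, v}) = (cnt w M : ℤ) - cnt (-w) M := by
  classical
  have hv : v = -u := (neg_eq_of_add_eq_zero_right h).symm
  subst hv
  unfold cnt
  have h1 : ∀ z : U, Multiset.count z ({u, -u} : Multiset U) =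
      (if z = u then 1 else 0) + (if z = -u then 1 else 0) := by
    intro z
    rw [Multiset.insert_eq_cons, Multiset.count_cons, Multiset.count_singleton, add_comm]
  have h2 : (-w = u) ↔ (w = -u) := neg_eq_iff_eq_neg
  have h3 : (-w = -u) ↔ (w = u) := neg_inj
  simp only [Multiset.count_add, h1, h2, h3]
  push_cast
  ring

theorem EV9_sim {p : ℕ} [Fact p.Prime] {a : ℕ} {ι : Qb →+* PadicAlgCl p} (hD : Dict (p ^ a) ι)
    {x y : Qb} (hx : Weil (p ^ a) x) (hy : Weil (p ^ a) y)
    (h0 : uu (p ^ a) ι x + uu (p ^ a) ι y = 0) : Sim (x * y) ((p ^ a : ℕ) : Qb) := by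
  have hW : ∀ z ∈ ({x, y} : Multiset Qb), Weil (p ^ a) z := by
    intro z hz
    simp only [Multiset.insert_eq_cons, Multiset.mem_cons, Multiset.mem_singleton] at hz
    rcases hz with rfl | rfl
    · exact hx
    · exact hy
  have hsum : ((({x, y} : Multiset Qb)).map (uu (p ^ a) ι)).sum = 0 := by
    simp [h0]
  obtain ⟨N, hN, e⟩ := (hD.sum _ hW).1 hsum
  refine ⟨2 * N, by omega, ?_⟩
  have e2 : ((x * y) ^ 2) ^ N = (((p ^ a : ℕ) : Qb) ^ 2) ^ N := by
    simpa using e
  rw [pow_mul, pow_mul, e2]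

theorem EV9_le {U : Type} [AddCommGroup U] (M : Multiset U) (h : NoPair M) (v : U) (hv : v ≠ -v) :
    cnt v M = 0 ∨ cnt (-v) M = 0 := by
  classical
  unfold cnt
  by_contra hcon
  push Not at hcon
  obtain ⟨h1, h2⟩ := hcon
  refine h v (-v) ?_ (add_neg_cancel v)
  have hnd : ({v, -v} : Multiset U).Nodup := by
    rw [Multiset.insert_eq_cons, Multiset.nodup_cons]
    exact ⟨by rw [Multiset.mem_singleton]; exact hv, Multiset.nodup_singleton _⟩
  rw [Multiset.le_iff_subset hnd]
  intro w hw
  rw [Multiset.insert_eq_cons, Multiset.mem_cons, Multiset.mem_singleton] at hw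
  rcases hw with rfl | rfl
  · exact Multiset.count_ne_zero.1 h1
  · exact Multiset.count_ne_zero.1 h2

theorem EV9_zero {U : Type} [AddCommGroup U] (M : Multiset U) (h : NoPair M) : cnt 0 M ≤ 1 := by
  classical
  unfold cnt
  by_contra hcon
  push Not at hcon
  refine h 0 0 ?_ (add_zero 0)
  have h1 : ({0, 0} : Multiset U) = Multiset.replicate 2 0 := rfl
  rw [h1]
  exact Multiset.le_count_iff_replicate_le.1 hcon

theorem EV9_eq {U : Type} [AddCommGroup U] (M N : Multiset U) (hM : NoPair M) (hN : NoPair N)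
    (hMe : Even M.card) (hNe : Even N.card) (h : ∀ v : U, v ≠ 0 → cnt v M = cnt v N) : M = N := by
  classical
  have key : ∀ M : Multiset U, M.card = (M.filter fun v => v ≠ 0).card + M.count 0 := by
    intro M
    have h1 := congrArg Multiset.card (Multiset.filter_add_not (fun v : U => v ≠ 0) M)
    rw [Multiset.card_add] at h1
    rw [← h1]
    congr 1
    have h2 : M.filter (fun v => ¬ (v ≠ 0)) = M.filter (fun v => v = 0) :=
      Multiset.filter_congr fun v _ => by simp
    have h3 : M.filter (fun v => v = 0) = Multiset.replicate (M.count 0) 0 := by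
      convert Multiset.filter_eq' M (0 : U)
    rw [h2, h3, Multiset.card_replicate]
  have hc : ∀ v : U, v ≠ 0 → M.count v = N.count v := fun v hv => by
    have h1 := h v hv
    unfold cnt at h1
    exact h1
  have hf : M.filter (fun v => v ≠ 0) = N.filter (fun v => v ≠ 0) := by
    ext v
    rw [Multiset.count_filter, Multiset.count_filter]
    split_ifs with hv
    · exact hc v hv
    · rfl
  have hA1 := key M
  have hB1 := key N
  rw [hf] at hA1
  have h2 := EV9_zero M hM
  have h3 := EV9_zero N hN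
  unfold cnt at h2 h3
  ext v
  by_cases hv : v = 0
  · subst hv
    obtain ⟨k, hk⟩ := hMe
    obtain ⟨l, hl⟩ := hNe
    omega
  · exact hc v hv

theorem EV9_germ {p : ℕ} [Fact p.Prime] {a : ℕ} {ι : Qb →+* PadicAlgCl p} (hD : Dict (p ^ a) ι)
    {A B : Multiset Qb} (hA : ∀ x ∈ A, Weil (p ^ a) x) (hB : ∀ x ∈ B, Weil (p ^ a) x)
    (h : A.map (uu (p ^ a) ι) = B.map (uu (p ^ a) ι)) : A.map germ = B.map germ := by
  have h1 : Multiset.Rel (fun x y => uu (p ^ a) ι x = uu (p ^ a) ι y) A B := by
    rw [← Multiset.rel_map, h]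
    exact Multiset.rel_eq.2 rfl
  rw [← Multiset.rel_eq, Multiset.rel_map]
  refine Multiset.Rel.mono h1 ?_
  intro x hx y hy hxy
  exact Quotient.sound ((hD.sim x y (hA x hx) (hB y hy)).2 hxy)

theorem p_EV9 : Stmt_EV9 := by
  classical
  intro p _ a ι ha hD A B
  induction' hn : A.card + B.card using Nat.strong_induction_on with n ih generalizing A B
  intro hA hB hAe hBe hdiff hcyc
  by_cases hNB : NoPair (B.map (uu (p ^ a) ι))
  swap
  · unfold NoPair at hNB
    push Not at hNB
    obtain ⟨u, v, huv, h0⟩ := hNB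
    obtain ⟨x, y, B', hBB, hx, hy⟩ := RNP_pre (uu (p ^ a) ι) B u v huv
    have hxB : x ∈ B := by rw [hBB]; simp
    have hyB : y ∈ B := by rw [hBB]; simp
    have hcard : B.card = B'.card + 2 := by rw [hBB]; simp
    have hpair : Sim (x * y) ((p ^ a : ℕ) : Qb) :=
      EV9_sim hD (hB x hxB) (hB y hyB) (by rw [hx, hy, h0])
    have hmap : B.map (uu (p ^ a) ι) = B'.map (uu (p ^ a) ι) + {u, v} := by
      rw [hBB, Multiset.map_add]
      congr 1
      rw [Multiset.insert_eq_cons, Multiset.map_cons, Multiset.map_singleton, hx, hy]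
      rfl
    refine ih (A.card + B'.card) (by omega) A B' rfl hA
      (fun z hz => hB z (by rw [hBB]; exact Multiset.mem_add.2 (Or.inl hz))) hAe ?_ ?_ ?_
    · rw [hcard] at hBe
      have := hBe
      rw [Nat.even_add] at this
      exact this.2 (by decide)
    · intro w
      rw [hdiff w, hmap, EV9_pair _ u v w h0]
    · rw [hBB] at hcyc
      exact Cyc.cancel _ x y (hB x hxB) hpair hcyc
  by_cases hNA : NoPair (A.map (uu (p ^ a) ι))
  swap
  · unfold NoPair at hNA
    push Not at hNA
    obtain ⟨u, v, huv, h0⟩ := hNA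
    obtain ⟨x, y, A', hAA, hx, hy⟩ := RNP_pre (uu (p ^ a) ι) A u v huv
    have hxA : x ∈ A := by rw [hAA]; simp
    have hyA : y ∈ A := by rw [hAA]; simp
    have hcard : A.card = A'.card + 2 := by rw [hAA]; simp
    have hpair : Sim (x * y) ((p ^ a : ℕ) : Qb) :=
      EV9_sim hD (hA x hxA) (hA y hyA) (by rw [hx, hy, h0])
    have hmap : A.map (uu (p ^ a) ι) = A'.map (uu (p ^ a) ι) + {u, v} := by
      rw [hAA, Multiset.map_add]
      congr 1
      rw [Multiset.insert_eq_cons, Multiset.map_cons, Multiset.map_singleton, hx, hy]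
      rfl
    have h1 : Cyc (p ^ a) ι A' := by
      refine ih (A'.card + B.card) (by omega) A' B rfl
        (fun z hz => hA z (by rw [hAA]; exact Multiset.mem_add.2 (Or.inl hz))) hB ?_ hBe ?_ hcyc
      · rw [hcard] at hAe
        have := hAe
        rw [Nat.even_add] at this
        exact this.2 (by decide)
      · intro w
        rw [← hdiff w, hmap, EV9_pair _ u v w h0]
    rw [hAA]
    exact Cyc.join _ _ h1 (Cyc.pair x y (hA x hxA) hpair)
  -- no pairs
  have hne : ∀ v : UU ι, v ≠ 0 → v ≠ -v := by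
    intro v hv h
    apply hv
    have h1 : (2 : ℚ) • v = 0 := by
      rw [two_smul]
      nth_rewrite 2 [h]
      exact add_neg_cancel v
    exact (smul_eq_zero.1 h1).resolve_left (by norm_num)
  have hcnt : ∀ v : UU ι, v ≠ 0 →
      cnt v (A.map (uu (p ^ a) ι)) = cnt v (B.map (uu (p ^ a) ι)) := by
    intro v hv
    have h1 := hdiff v
    rcases EV9_le _ hNA v (hne v hv) with h2 | h2 <;> rcases EV9_le _ hNB v (hne v hv) with h3 | h3
    · rw [h2, h3]
    · rw [h2, h3] at h1
      rw [h2]
      push_cast at h1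
      omega
    · rw [h2, h3] at h1
      rw [h3]
      push_cast at h1
      omega
    · rw [h2, h3] at h1
      push_cast at h1
      omega
  refine Cyc.sim B A ?_ hcyc
  refine EV9_germ hD hB hA ?_
  exact (EV9_eq _ _ hNA hNB (by rwa [Multiset.card_map]) (by rwa [Multiset.card_map]) hcnt).symm

end Pool.T4
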