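import Pool.Agent.Work.MP_223b32_t4.Interface8
import Pool.Agent.Work.MP_223b32_t4.FN3

/-!
# Block FN8, typed by helper56
-/

namespace Pool.T4

open Pool.Agent.Work.MP_223b32_ag

theorem FN8_self {U : Type} [AddCommGroup U] [Module ℚ U] {v : U} (hv : v = -v) : v = 0 := by
  have h1 : (2 : ℚ) • v = 0 := by
    rw [two_smul]
    nth_rewrite 2 [hv]
    exact add_neg_cancel v
  exact (smul_eq_zero.1 h1).resolve_left (by norm_num)

theorem FN8_card {U : Type} (V : Finset U) (A : Multiset U) (h : ∀ v ∈ A, v ∈ V) :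
    ∑ v ∈ V, cnt v A = A.card := by
  classical
  unfold cnt
  exact Multiset.sum_count_eq_card h

theorem FN8_even {U : Type} [AddCommGroup U] [Module ℚ U] (V : Finset U)
    (h0 : ∀ v ∈ V, v ≠ 0) (hn : ∀ v ∈ V, -v ∈ V) : Even V.card := by
  classical
  have h1 : ∑ v ∈ V, (1 : ZMod 2) = 0 := by
    refine Finset.sum_involution (fun v _ => -v) ?_ ?_ ?_ ?_
    · intro v _
      decide
    · intro v hv _ h
      exact h0 v hv (FN8_self h.symm)
    · intro v hv
      exact hn v hv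
    · intro v _
      exact neg_neg v
  rw [Finset.sum_const, nsmul_eq_mul, mul_one] at h1
  exact (ZMod.natCast_eq_zero_iff_even).1 h1

theorem FN8_two {U : Type} [AddCommGroup U] [Module ℚ U] (V : Finset U) (hV : V.card = 2)
    (h0 : ∀ v ∈ V, v ≠ 0) (hn : ∀ v ∈ V, -v ∈ V) (S : Multiset U) (hS : ∀ v ∈ S, v ∈ V)
    (hsum : S.sum = 0) (hnp : NoPair S) : S = 0 := by
  classical
  by_contra hne
  obtain ⟨v, hv⟩ := Multiset.exists_mem_of_ne_zero hne
  have hvV := hS v hv
  have hvn : v ≠ -v := fun h => h0 v hvV (FN8_self h)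
  have hV2 : V = {v, -v} := by
    symm
    refine Finset.eq_of_subset_of_card_le ?_ ?_
    · intro w hw
      rw [Finset.mem_insert, Finset.mem_singleton] at hw
      rcases hw with rfl | rfl
      · exact hvV
      · exact hn _ hvV
    · rw [hV, Finset.card_pair hvn]
  have hnS : -v ∉ S := by
    intro h
    refine hnp v (-v) ?_ (add_neg_cancel v)
    have hnd : ({v, -v} : Multiset U).Nodup := by
      rw [Multiset.insert_eq_cons, Multiset.nodup_cons]
      refine ⟨?_, Multiset.nodup_singleton _⟩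
      rw [Multiset.mem_singleton]
      exact hvn
    rw [Multiset.le_iff_subset hnd]
    intro w hw
    rw [Multiset.insert_eq_cons, Multiset.mem_cons, Multiset.mem_singleton] at hw
    rcases hw with rfl | rfl
    · exact hv
    · exact h
  have hrep : S = Multiset.replicate S.card v := by
    rw [Multiset.eq_replicate]
    refine ⟨rfl, fun w hw => ?_⟩
    have h1 := hS w hw
    rw [hV2, Finset.mem_insert, Finset.mem_singleton] at h1
    rcases h1 with h1 | h1
    · exact h1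
    · exact absurd (h1 ▸ hw) hnS
  rw [hrep, Multiset.sum_replicate] at hsum
  have h2 : ((S.card : ℕ) : ℚ) • v = 0 := by
    rw [Nat.cast_smul_eq_nsmul]
    exact hsum
  rcases smul_eq_zero.1 h2 with h3 | h3
  · have h4 : S.card = 0 := by exact_mod_cast h3
    exact hne (Multiset.card_eq_zero.1 h4)
  · exact h0 v hvV h3

theorem FN8_ss {q : ℕ} {x y : Qb} (h : Sim x y) (hy : SS q y) : SS q x := by
  obtain ⟨N, hN, h1⟩ := h
  obtain ⟨M, hM, h2⟩ := hy
  refine ⟨N * M, Nat.mul_pos hN hM, ?_⟩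
  calc (x ^ 2) ^ (N * M) = ((x ^ N) ^ M) ^ 2 := by ring
    _ = ((y ^ 2) ^ M) ^ N := by rw [h1]; ring
    _ = (q : Qb) ^ (N * M) := by rw [h2]; ring

theorem p_FN8 (hFN7 : Stmt_FN7) (hFN2 : Stmt_FN2) (hSAV : Stmt_SAV) (hRNP : Stmt_RNP)
    (hHTC : Stmt_HTC) (hDIC : Stmt_DIC) (hCCJ : Stmt_CCJ) (hRHO : Stmt_RHO) : Stmt_FN8 := by
  classical
  intro p _ a ι ha R T hR hcard hIs
  obtain ⟨hI1, hI2⟩ := hIs
  by_cases h10 : ∃ x ∈ R, (galOrbit x).ncard = 10
  · exact hFN7 p a ι ha R T hR hcard h10 hI2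
  have hq : 0 < p ^ a := pow_pos (Fact.out (p := p.Prime)).pos a
  have hd := hDIC p a ι ha
  obtain ⟨ρ⟩ := hRHO
  obtain ⟨c, hc⟩ := hCCJ ρ
  have hRK : IsR (coreU ι ρ c hc) (R.map (uu (p ^ a) ι)) := hHTC p a ι ρ c hc ha hd R hR
  obtain ⟨V, hVdef⟩ : ∃ V : Finset (UU ι),
      V = (R.map (uu (p ^ a) ι)).toFinset.filter (fun v => v ≠ 0) := ⟨_, rfl⟩
  have hVm : ∀ v, v ∈ V ↔ v ∈ R.map (uu (p ^ a) ι) ∧ v ≠ 0 := by
    intro v
    rw [hVdef, Finset.mem_filter, Multiset.mem_toFinset]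
  have hVst : ∀ g : GQ, ∀ v ∈ V, g • v ∈ V := by
    intro g v hv
    rw [hVm] at hv ⊢
    refine ⟨?_, (smul_ne_zero_iff_ne g).2 hv.2⟩
    rw [← hRK.stable g]
    exact Multiset.mem_map_of_mem _ hv.1
  have hVn : ∀ v ∈ V, -v ∈ V := by
    intro v hv
    rw [← (coreU ι ρ c hc).cc v]
    exact hVst _ v hv
  obtain ⟨R1, hR1R, hR1av, hR1m, hR1c⟩ := hSAV p a ι ha hd R hR V hVst
  by_cases h8 : R1.card ≤ 8
  · refine hFN2 p a ι ha R1 T hR1av h8 ⟨?_, ?_⟩
    · intro x hx y hy
      exact hI1 x (Multiset.mem_of_le hR1R hx) y (Multiset.mem_of_le hR1R hy)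
    · intro x hx
      rcases hI2 x hx with h | ⟨y, hy, h⟩
      · exact Or.inl h
      · by_cases hys : SS (p ^ a) y
        · exact Or.inl (FN8_ss h hys)
        · refine Or.inr ⟨y, (hR1m y).2 ⟨hy, ?_⟩, h⟩
          rw [hVm]
          refine ⟨Multiset.mem_map_of_mem _ hy, fun h0 => hys ?_⟩
          exact (hd.ss y (hR.weil y hy)).2 h0
  -- the orbit has two or ten elements
  have hVne : V.Nonempty := by
    rw [Finset.nonempty_iff_ne_empty]
    intro hV0
    apply h8
    have h1 : R1 = 0 := by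
      rw [Multiset.eq_zero_iff_forall_notMem]
      intro x hx
      have h2 := ((hR1m x).1 hx).2
      rw [hV0] at h2
      exact Finset.notMem_empty _ h2
    rw [h1, Multiset.card_zero]
    omega
  obtain ⟨v0, hv0⟩ := hVne
  have htrans : ∀ v ∈ V, ∃ g : GQ, g • v0 = v := by
    intro v hv
    obtain ⟨x0, hx0, e0⟩ := Multiset.mem_map.1 ((hVm v0).1 hv0).1
    obtain ⟨x, hx, e⟩ := Multiset.mem_map.1 ((hVm v).1 hv).1
    rcases hI1 x0 hx0 x hx with h | h | ⟨g, h⟩
    · exact absurd ((hd.ss x0 (hR.weil x0 hx0)).1 h) (by rw [e0]; exact ((hVm v0).1 hv0).2)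
    · exact absurd ((hd.ss x (hR.weil x hx)).1 h) (by rw [e]; exact ((hVm v).1 hv).2)
    · refine ⟨g, ?_⟩
      rw [← e0, ← e, ← hd.smul x0 (hR.weil x0 hx0) g]
      exact (hd.sim _ _ (hd.weil x0 (hR.weil x0 hx0) g) (hR.weil x hx)).1 h
  have hcnt : ∀ v ∈ V, cnt v (R1.map (uu (p ^ a) ι)) = cnt v0 (R.map (uu (p ^ a) ι)) := by
    intro v hv
    have h1 := hR1c v hv
    obtain ⟨g, rfl⟩ := htrans v hv
    have h2 := FN3_cnt g (hRK.stable g) v0
    rw [h2] at h1
    exact h1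
  have hsum1 : V.card * cnt v0 (R.map (uu (p ^ a) ι)) = R1.card := by
    have h1 : ∑ v ∈ V, cnt v (R1.map (uu (p ^ a) ι)) = (R1.map (uu (p ^ a) ι)).card := by
      refine FN8_card V _ ?_
      intro v hv
      obtain ⟨x, hx, rfl⟩ := Multiset.mem_map.1 hv
      exact ((hR1m x).1 hx).2
    rw [Finset.sum_congr rfl hcnt, Finset.sum_const, smul_eq_mul, Multiset.card_map] at h1
    exact h1
  have hVe : Even V.card := FN8_even V (fun v hv => ((hVm v).1 hv).2) hVn
  have hR1c10 : R1.card ≤ 10 := (Multiset.card_le_card hR1R).trans hcard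
  have hV10 : V.card ≠ 10 := by
    intro h1
    obtain ⟨x0, hx0, e0⟩ := Multiset.mem_map.1 ((hVm v0).1 hv0).1
    refine h10 ⟨x0, hx0, ?_⟩
    rw [← FN3_orb hd (hR.weil x0 hx0), e0]
    have h2 : gorb GQ v0 = (V : Set (UU ι)) := by
      ext v
      constructor
      · rintro ⟨g, rfl⟩
        exact hVst g v0 hv0
      · intro hv
        obtain ⟨g, hg⟩ := htrans v hv
        exact ⟨g, hg.symm⟩
    rw [h2, Set.ncard_coe_finset, h1]
  have hV2 : V.card = 2 := by
    obtain ⟨k, hk⟩ := hVe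
    have h1 : V.card ≤ 10 := by
      rcases Nat.eq_zero_or_pos (cnt v0 (R.map (uu (p ^ a) ι))) with h | h
      · rw [h, mul_zero] at hsum1
        omega
      · nlinarith
    have h2 : 0 < V.card := Finset.card_pos.2 ⟨v0, hv0⟩
    have h3 : V.card = 2 ∨ V.card = 4 ∨ V.card = 6 ∨ V.card = 8 := by omega
    rcases h3 with h | h | h | h
    · exact h
    · exfalso; rw [h] at hsum1; omega
    · exfalso; rw [h] at hsum1; omega
    · exfalso; rw [h] at hsum1; omega
  -- no relations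
  intro S j hST hSc hSs
  have hTw : ∀ x ∈ T, Weil (p ^ a) x := fun x hx => by
    rcases hI2 x hx with h | ⟨y, hy, N, hN, h⟩
    · exact FN2_weil_of_ss hq h
    · exact FN2_weil_of_pow hN (hR.weil y hy) h
  have hSw : ∀ x ∈ S, Weil (p ^ a) x := fun x hx => hTw x (Multiset.mem_of_le hST hx)
  obtain ⟨J, hJS, hJnp, hJsum, hJev, hJcyc⟩ := hRNP p a ι ha hd S hSw
  refine hJcyc ?_
  have hS0 : (S.map (uu (p ^ a) ι)).sum = 0 := by
    rw [hd.sum S hSw, hSc]
    exact FN2_sim' hSs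
  rw [hS0] at hJsum
  have hJe : Even J.card := hJev.2 ⟨j, by rw [hSc]; ring⟩
  obtain ⟨S', z, hJ', hnz, hsum⟩ := FN2_split (J.map (uu (p ^ a) ι))
  rw [hJsum] at hsum
  have hS'le : S' ≤ J.map (uu (p ^ a) ι) := by rw [hJ']; exact Multiset.le_add_right _ _
  have hS'np : NoPair S' := FN2_noPair hS'le hJnp
  have hcardJ : J.card = S'.card + z := by
    have h1 := congrArg Multiset.card hJ'
    rwa [Multiset.card_map, Multiset.card_add, Multiset.card_replicate] at h1
  have hR' : ∀ v ∈ S', v ∈ V := fun v hv => by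
    rw [hVm]
    refine ⟨?_, hnz v hv⟩
    obtain ⟨x, hx, rfl⟩ := Multiset.mem_map.1 (Multiset.mem_of_le hS'le hv)
    have hxT : x ∈ T := Multiset.mem_of_le (hJS.trans hST) hx
    rcases hI2 x hxT with h | ⟨y, hy, h⟩
    · exact absurd ((hd.ss x (hTw x hxT)).1 h) (hnz _ hv)
    · rw [(hd.sim x y (hTw x hxT) (hR.weil y hy)).1 h]
      exact Multiset.mem_map_of_mem _ hy
  have hS'0 : S' = 0 := FN8_two V hV2 (fun v hv => ((hVm v).1 hv).2) hVn S' hR' hsum hS'np
  have h1 : J = 0 := by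
    rw [← Multiset.card_eq_zero]
    have hz : z ≤ 1 := by
      by_contra hz
      push Not at hz
      refine hJnp 0 0 ?_ (add_zero 0)
      rw [hJ']
      refine le_trans ?_ (Multiset.le_add_left _ _)
      have h1 : ({0, 0} : Multiset (UU ι)) = Multiset.replicate 2 0 := rfl
      rw [h1]
      exact (Multiset.replicate_le_replicate (0 : UU ι)).2 hz
    rw [hS'0, Multiset.card_zero, zero_add] at hcardJ
    obtain ⟨k, hk⟩ := hJe
    omega
  rw [h1]
  exact Cyc.zero

end Pool.T4
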