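import Pool.Agent.Work.MP_223b32_t4.Interface

/-! # Block HTC: the vectors of an abelian variety -/

namespace Pool.T4

theorem HTC_count {α β γ : Type*} {_ : DecidableEq β} {_ : DecidableEq γ} (f : α → β) (g : α → γ)
    (R : Multiset α) (x : α) (h : ∀ y ∈ R, (f x = f y ↔ g x = g y)) :
    (R.map f).count (f x) = (R.map g).count (g x) := by
  rw [Multiset.count_map, Multiset.count_map, ← Multiset.countP_eq_card_filter,
    ← Multiset.countP_eq_card_filter]
  exact Multiset.countP_congr rfl fun y hy => by rw [h y hy]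

section

variable {p : ℕ} [Fact p.Prime] {ι : Qb →+* PadicAlgCl p}

/-- the vector of a germ -/
noncomputable def HTC_F (q : ℕ) (ι : Qb →+* PadicAlgCl p) (c : Quotient simSetoid) : UU ι := by
  classical exact if h : ∃ x, Weil q x ∧ germ x = c then uu q ι h.choose else 0

theorem HTC_germ {x y : Qb} : germ x = germ y ↔ Sim x y := by
  unfold germ
  exact Quotient.eq (r := simSetoid)

theorem HTC_F_germ {q : ℕ} (D : Dict q ι) {x : Qb} (hx : Weil q x) :
    HTC_F q ι (germ x) = uu q ι x := by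
  have h : ∃ y, Weil q y ∧ germ y = germ x := ⟨x, hx, rfl⟩
  unfold HTC_F
  rw [dif_pos h]
  exact (D.sim _ _ h.choose_spec.1 hx).1 (HTC_germ.1 h.choose_spec.2)

theorem HTC_map {q : ℕ} (D : Dict q ι) (S : Multiset Qb) (hS : ∀ x ∈ S, Weil q x) :
    S.map (uu q ι) = (S.map germ).map (HTC_F q ι) := by
  rw [Multiset.map_map]
  apply Multiset.map_congr rfl
  intro x hx
  exact (HTC_F_germ D (hS x hx)).symm

theorem HTC_cnt {q : ℕ} (D : Dict q ι) (R : Multiset Qb) (hR : ∀ x ∈ R, Weil q x) {x : Qb}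
    (hx : Weil q x) : cnt (uu q ι x) (R.map (uu q ι)) = mult R x := by
  unfold cnt mult
  exact HTC_count (uu q ι) germ R x fun y hy => by rw [HTC_germ, D.sim x y hx (hR y hy)]

theorem HTC_orb {q : ℕ} (D : Dict q ι) {x : Qb} (hx : Weil q x) :
    (orb (dec ι) (uu q ι x)).ncard = (locOrbit ι x).ncard := by
  have h : orb (dec ι) (uu q ι x) = HTC_F q ι '' locOrbit ι x := by
    ext y
    constructor
    · rintro ⟨d, hd, rfl⟩
      refine ⟨germ (d x), ⟨d, hd, rfl⟩, ?_⟩
      rw [HTC_F_germ D (D.weil x hx d), D.smul x hx d]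
    · rintro ⟨_, ⟨d, hd, rfl⟩, rfl⟩
      refine ⟨d, hd, ?_⟩
      rw [HTC_F_germ D (D.weil x hx d), D.smul x hx d]
  rw [h]
  refine Set.InjOn.ncard_image ?_
  rintro _ ⟨d, _, rfl⟩ _ ⟨e, _, rfl⟩ h1
  rw [HTC_F_germ D (D.weil x hx d), HTC_F_germ D (D.weil x hx e)] at h1
  exact HTC_germ.2 ((D.sim _ _ (D.weil x hx d) (D.weil x hx e)).2 h1)

end

theorem p_HTC : Stmt_HTC := by
  intro p _ a ι ρ c hc ha D R hR
  refine ⟨?_, ?_, ?_⟩
  · intro g
    have h1 : tr g (R.map (uu (p ^ a) ι)) = (R.map g).map (uu (p ^ a) ι) := by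
      unfold tr
      rw [Multiset.map_map, Multiset.map_map]
      apply Multiset.map_congr rfl
      intro x hx
      exact (D.smul x (hR.weil x hx) g).symm
    rw [h1, HTC_map D (R.map g), HTC_map D R hR.weil, hR.stable g]
    intro x hx
    obtain ⟨y, hy, rfl⟩ := Multiset.mem_map.1 hx
    exact D.weil y (hR.weil y hy) g
  · intro v hv
    obtain ⟨x, hx, rfl⟩ := Multiset.mem_map.1 hv
    have h1 := D.le_one x (hR.weil x hx) 1
    rw [← D.mem x (hR.weil x hx)] at h1
    exact h1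
  · intro v hv
    obtain ⟨x, hx, rfl⟩ := Multiset.mem_map.1 hv
    obtain ⟨n, hn⟩ := hR.ht x hx
    refine ⟨n, ?_⟩
    have h1 := (D.nrm x (hR.weil x hx) 1 _ n).1 hn
    rw [← D.mem x (hR.weil x hx)] at h1
    rw [HTC_cnt D R hR.weil (hR.weil x hx)]
    have h2 : (orb (coreU ι ρ c hc).D (uu (p ^ a) ι x)).ncard = (locOrbit ι x).ncard :=
      HTC_orb D (hR.weil x hx)
    rw [h2]
    exact h1

end Pool.T4
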