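import Pool.Agent.Work.MP_223b32_t4.Defs

/-!
# The exception in dimension five
-/

namespace Pool.T4

/-- The exception in dimension five, `q = p ^ a`, `R` the Weil numbers of an abelian variety.  Up to
isogeny over the algebraic closure of the finite field the abelian variety is `B × B' × E`: the Weil
numbers of `B` are `x, q / x, y, q / y`, those of `B'` are `x y / s, q s / (x y), s x / y, s y / x`,
and `E` is a supersingular elliptic curve (`s ^ 2 = q`).  Equality is equality of germs, that is after
a finite extension of the finite field. -/
def Exc5 (q : ℕ) (R : Multiset Qb) : Prop :=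
  ∃ x y s : Qb, x ∈ R ∧ y ∈ R ∧ s ^ 2 = (q : Qb) ∧ R.map germ =
    ({x, q / x, y, q / y, x * y / s, q * s / (x * y), s * x / y, s * y / x, s, s} :
      Multiset Qb).map germ

end Pool.T4
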