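import Pool.Agent.Work.MP_223b32_t4.Interface
import Pool.Agent.Work.MP_223b32_t4.Defs5

/-!
# Interface of the blocks for dimension five (helper56)

`R` has at most `10` vectors, `J ≤ R` is a relation of four vectors without opposite vectors.  Either
`J + ng J` satisfies the conditions for an abelian variety of dimension four, or `R` is the
exceptional multiset `x, y, x + y, x - y, 0` and negatives (a simple almost ordinary abelian
surface, the ordinary one with the reflex field, and a supersingular elliptic curve).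
-/

namespace Pool.T4

open Pool.Agent.Work.MP_223b32_ag

/-- The exceptional multiset of vectors in dimension five. -/
def ExcV {U : Type} [AddCommGroup U] (R : Multiset U) : Prop :=
  ∃ x y : U, R = {x, -x, y, -y, x + y, -(x + y), x - y, -(x - y), 0, 0}

section

variable {G U : Type} [Group G] [AddCommGroup U] [Module ℚ U] [DistribMulAction G U]

/-- A relation `J` of four vectors in dimension five: `u`, `-u` are the two vectors of `R` which
are not used. -/
structure Miss (K : Core G U) (R J : Multiset U) (u : U) : Prop where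
  isR : IsR K R
  card : J.card = 4
  eq : R = J + ng J + {u, -u}
  sum : J.sum = 0
  noPair : NoPair J

end

/-- (XP5) No vector of a finite orbit is the middle of two other vectors of the orbit.

Proof. (1) Every nonempty finite `B` has `v ∈ B` with: `a, b ∈ B`, `a + b = v + v` imply
`a = v ∧ b = v`. Strong induction on `B.card`: if `B` has two different elements `s, t` there is `g`
with `K.w (g • (s - t)) ≠ 0` (`K.kron`); let `B'` be the elements of `B` where `f v = K.w (g • v)` is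
maximal (`Finset.exists_max_image`); `B'` is nonempty and not `B`; take `v ∈ B'` from the induction
hypothesis; `f a + f b = 2 f v` and `f a, f b ≤ f v` give `a, b ∈ B'`.
(2) `z = h • v` (orbit), `h⁻¹ • a + h⁻¹ • b = v + v`. -/
def Stmt_XP5 : Prop :=
  ∀ (G U : Type) [Group G] [AddCommGroup U] [Module ℚ U] [DistribMulAction G U] (_ : Core G U)
    (A : Finset U), (∀ g : G, ∀ v ∈ A, g • v ∈ A) → (∀ v ∈ A, ∀ v' ∈ A, ∃ g : G, g • v = v') →
    ∀ a ∈ A, ∀ b ∈ A, ∀ z ∈ A, a + b = z + z → a = z ∧ b = z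

/-- (SC5) If `g` multiplies a vector `v ≠ 0` of `R` by `t` then `t = ± 1`.

Proof. `g ^ n • v = t ^ n • v` (`map_rat_smul` for `g`) is in `R` for all `n` (`IsR.stable`). `R` is
finite, so `t ^ i • v = t ^ j • v` for some `i < j`; `v ≠ 0`: `t ^ i = t ^ j`; `t ≠ 0` (`g • v ≠ 0`);
`t ^ (j - i) = 1`, `|t| = 1`. -/
def Stmt_SC5 : Prop :=
  ∀ (G U : Type) [Group G] [AddCommGroup U] [Module ℚ U] [DistribMulAction G U] (K : Core G U)
    (R : Multiset U), IsR K R → ∀ v ∈ R, v ≠ 0 → ∀ (g : G) (t : ℚ), g • v = t • v →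
    t = 1 ∨ t = -1

/-- (DE5) the decomposition of `R`.

Proof. `ng R = R` (`K.c0`). `J + ng J ≤ R`: see `CAR.lean` (the same argument; `0` occurs at most once
in `J`, and `cnt 0 R` is even by `IsR.ht` at `v = 0`, `orb K.D 0 = {0}`, `K.w 0 = 0`). `R = J + ng J + Q`,
`Q.card ≤ 2`, `ng Q = Q`. `Q.card = 1`: `Q = {0}`, then `cnt 0 R` is odd. `Q.card = 2`: `Q = {a, b}`,
`{-a, -b} = {a, b}`: `b = -a` or `a = b = 0`. -/
def Stmt_DE5 : Prop :=
  ∀ (G U : Type) [Group G] [AddCommGroup U] [Module ℚ U] [DistribMulAction G U] (K : Core G U)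
    (R J : Multiset U), IsR K R → R.card ≤ 10 → J ≤ R → J.card = 4 → J.sum = 0 → NoPair J →
    Good K R J ∨ ∃ u : U, Miss K R J u

/-- (CA5) the case where `{u, -u}` is stable.

Proof. `R' = J + ng J`. `stable`: cancel `{u, -u}` in `tr g R = R`. `le_one`: clear. `ht` for `v ∈ R'`: if
`v ≠ u, -u` the multiplicity in `R'` is the one in `R`. Let `v = u` or `-u`, `v ∈ R'`. `u = 0`: `cnt 0 R' =
cnt 0 R - 2`, `orb = {0}`, `w = 0`. `u ≠ 0`: we may assume `v ∈ J` (otherwise `-v ∈ J`; `(HT)` for `v` and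
`-v` are equivalent as `c0` ... or: `cnt` is the same and `w (-v) + 1 = 2 - (w v + 1)`, `m - n` instead of
`n`, `orb D (-v) = -orb D v`). `w v ≠ 0`, otherwise `w (g v) = ± w v = 0` for all `g` and `v = 0` (`kron`).
So `d v = v` for `d ∈ D` (`d v = -v` gives `w v = -w v`), `orb D v = {v}`. `k = cnt v J ≥ 1`, `cnt v R =
k + 1` (as `-v ∉ J`), `k ≤ 4`: `(k+1)(w v + 1) = 2n`.
`k = 1`: `w v = n - 1 = ± 1`, so `1 * (w v + 1) ∈ {0, 2}`: done.
`k = 2`: `3 (w v + 1) = 2 n`, `w v ∈ {-1, -1/3, 1/3, 1}`; if `w v = ± 1` done. Otherwise `J = {v, v, s, t}`,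
`s + t = -2v`, `w s + w t = ∓ 2/3`. `s, t ∉ {v, -v}`, `s ≠ t` (else `s = -v`), `s ≠ -t`. If `s = 0` then
`t = -2v`, every `g` maps `t` to `± t`, `cnt t R = 1`, `orb D t = {t}`: `w t + 1 = 2n'`, but
`w t = ∓ 2/3`. The same for `t = 0`. If `s, t ≠ 0`: `cnt s R = cnt t R = 1` and the orbits under `D` of
`s`, `t` are in `{s, -s, t, -t}` (the elements of `R` which are not `v, -v`: `g v = ± v`). The number of
elements of an orbit is `1, 2, 4` or `3`; `3` or `4`: it contains two opposite vectors, so `w s = 0`,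
and `± t`, so `w t = 0`: no. `1` or `2`: `w s + 1`, `w t + 1` are integers (`ht`): no.
`k = 3`: `J = {v, v, v, s}`, `s = -3v`, `4 (w v + 1) = 2n`, `|w s| ≤ 1` gives `|w v| ≤ 1/3`, `w v ∈ {0, ± 1/2,
± 1}`: `w v = 0`: no. `k = 4`: `4 v = 0`: no. -/
def Stmt_CA5 : Prop :=
  ∀ (G U : Type) [Group G] [AddCommGroup U] [Module ℚ U] [DistribMulAction G U] (K : Core G U)
    (R J : Multiset U) (u : U), Miss K R J u → (∀ g : G, g • u = u ∨ g • u = -u) →
    IsR K (J + ng J)

/-- (TR5) translation of the situation by `g`.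

Proof. `ng (tr g J) = tr g (ng J)`, `(tr g J).sum = g • J.sum`, `tr g R = R`. -/
def Stmt_TR5 : Prop :=
  ∀ (G U : Type) [Group G] [AddCommGroup U] [Module ℚ U] [DistribMulAction G U] (K : Core G U)
    (R J : Multiset U) (u : U), Miss K R J u → ∀ g : G, Miss K R (tr g J) (g • u)

/-- (MO5) If `{u, -u}` is not stable, `u` occurs once in `R`.

Proof. Let `v = g • u`, `v ≠ u, -u`; `u ≠ 0`. `m = cnt u R = cnt v R` (`stable`). `cnt u J + cnt (-u) J =
m - 1`, `cnt v J + cnt (-v) J = m` (from `eq`; one of the two summands is `0` by `NoPair`). `2m - 1 ≤ 4`, so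
`m ≤ 2`. Suppose `m = 2`: `J = {b, a, a, z}`, `b = ± u`, `a = ± v`, `z ≠ ± u, ± v` (`cnt`), so
`R = {± b, ± a, ± a, ± z, ± b}`. `J' = tr g J` satisfies the same with `g • u = v` in the place of `u` (TR5):
`J'` contains `± v` once and `± u` twice, so `J' = {a', b', b', z'}`, `a' = ± a`, `b' = ± b`, and `z' = ± z`
(compare `J' + ng J' + {v, -v} = J + ng J + {u, -u}`). The sums: `b + 2a + z = 0`, `a' + 2b' + z' = 0`. With
`z' = ε z`, `a' = δ a`, `b' = η b`: `(δ - 2ε) a = (ε - 2η) b`, both coefficients are in `{±1, ±3}`, so `a = t b`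
with `t ∈ {± 1, ± 3, ± 1/3}`, `v = ± t u`; SC5 for `g`: `t = ± 1`, `v = ± u`: contradiction. -/
def Stmt_MO5 : Prop :=
  ∀ (G U : Type) [Group G] [AddCommGroup U] [Module ℚ U] [DistribMulAction G U] (K : Core G U)
    (R J : Multiset U) (u : U), Miss K R J u → ∀ g : G, g • u ≠ u → g • u ≠ -u →
    cnt u R = 1

/-- (PR5) the relation `J` and its translate `g J`.

Proof. `v = g • u`. By MO5 `cnt u R = 1 = cnt v R`, so `cnt (± u) J = 0` and exactly one `a ∈ {v, -v}` is in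
`J`, once. `J = {a} + T`, `T.card = 3`. `J' = tr g J` satisfies the same with `v` in the place of `u` (TR5):
`J' = {b'} + T'`, `b' = ± u`, and `T + ng T = R - {±a} - {±u} = T' + ng T'`. Hence
`T = {x, y, z}`, `T' = {α x, β y, γ z}` with signs `α, β, γ` (`T'` contains `x` or `-x`; remove; ...).
`J'.sum = 0`. Replacing `b'`, `α, β, γ` by their negatives and renaming `x, y, z` we may assume `α = β = 1`:
`b + x + y + γ z = 0`. If `γ = 1` then `b = a`, so `u = ± v`: contradiction. So `γ = -1`. -/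
def Stmt_PR5 : Prop :=
  ∀ (G U : Type) [Group G] [AddCommGroup U] [Module ℚ U] [DistribMulAction G U] (K : Core G U)
    (R J : Multiset U) (u : U), Miss K R J u → ∀ g : G, g • u ≠ u → g • u ≠ -u →
    ∃ a b x y z : U, (a = g • u ∨ a = -(g • u)) ∧ (b = u ∨ b = -u) ∧ J = {a, x, y, z} ∧
      a + x + y + z = 0 ∧ b + x + y = z

/-- (ON5) `x`, `y`, `z` are not in the orbit of `u`.

Proof. `O` = the orbit of `u` (a finite set, contained in `R`, `-O = O` by `c0`); `cnt v R = 1` for `v ∈ O`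
(MO5), so `cnt v J + cnt (-v) J = 1` for `v ∈ O`, `v ≠ ± u`, and `± u ∉ J`. `a ≠ ± b`. From `a + x + y + z = 0`
and `b + x + y = z`: `z + z = b - a`. `z ∉ O`: `b, -a, z ∈ O` and XP5 give `b = -a`. Suppose `x ∈ O` (`y` is
symmetric). `x ≠ ± u`, `x ≠ ± a`. PR5 for `x = h • u`: `J = {a2, x2, y2, z2}`, `a2 = x` (`-x ∉ J`), `b2 = ± u`,
`z2 + z2 = b2 - x`, and `z2 ∉ O` by the first argument, so `z2 = y` or `z2 = z`.
`z2 = z`: `b - a = b2 - x`. `b2 = b`: `a = x`: no. `b2 = -b`: `a - x = b + b`: XP5 gives `a = b`: no.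
`z2 = y`, so `y ∉ O`: PR5 for the translate `J' = tr g J` (TR5), which misses `v = g • u = ± a`, and for
`x = h' • v`: there are `z3 ∈ J'`, `z3 ∉ O`, and signs with `z3 + z3 = ± x ± a`. `z3 ∈ R`, so `z3 = ± z` or
`z3 = ± y` (`R = J + ng J + {u, -u}`). `± z`: `b - a = ε x + δ a`: `δ = -1`: `b = ε x`: no. `δ = 1`:
`b - ε x = a + a`, XP5: `b = a`: no. `± y`: `b2 - x = ε x + δ a`: `ε = -1`: `b2 = δ a`: no. `ε = 1`:
`b2 - δ a = x + x`, XP5: `b2 = x`: no. -/
def Stmt_ON5 : Prop :=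
  ∀ (G U : Type) [Group G] [AddCommGroup U] [Module ℚ U] [DistribMulAction G U] (K : Core G U)
    (R J : Multiset U) (u : U), Miss K R J u → ∀ g : G, g • u ≠ u → g • u ≠ -u →
    ∀ a b x y z : U, (a = g • u ∨ a = -(g • u)) → (b = u ∨ b = -u) → J = {a, x, y, z} →
      a + x + y + z = 0 → b + x + y = z → ∀ h : G, h • u ≠ x ∧ h • u ≠ y ∧ h • u ≠ z

/-- (FB5) the exception.

Proof. The orbit of `u` is `O = {a, -a, b, -b}` (`O ⊆ R = {± a, ± x, ± y, ± z, ± b}`; `-x, -y, -z ∉ O` too, by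
`c0`). `z + z = b - a`, `a + b + 2 (x + y) = 0`, `a ≠ ± b`, `a, b ≠ 0`. There is `g1` with `g1 • a = b`.
Every `h` maps `(a, b)` to `(± a, ± b)` or `(± b, ± a)`.
(I) Suppose no `h` changes exactly one sign, i.e. always `(h a, h b) ∈ {(a,b), (-a,-b), (b,a), (-b,-a)}`. Then
`h z = ± z` for all `h`; `z ≠ 0`; `w z ≠ 0` (`kron`), `d z = z` for `d ∈ D`, `orb D z = {z}`. `x ≠ ± z`: otherwise
`x = z` (`NoPair`, `z ≠ 0`), `y = -a - 2z = -b ∈ O`: no; the same for `y`. So `cnt z R = 1`, `w z + 1 = 2n`,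
`w z = ± 1`, and `w (h z) = ± 1` for all `h`, `2 w (h z) = w (h b) - w (h a)`, so `w (h b) = -w (h a)`,
`w (h (a + b)) = 0` for all `h`, `a + b = 0`: no.
(II) So there is `h` with `h z = ± c`, `c + c = a + b`, and `c ∈ R`. `c = ± a`, `± b`: `b = a` or `b = -3a`, `a = b` or
`a = -3b`: no by SC5 (`g1 a = b`). `c = ± z`: `a = 0` or `b = 0`: no. So `c = ± x` or `± y`, say `± x`; `x + y = -c`.
`x = -c`: `y = 0` and `R = {c, -c, z, -z, c + z, .., c - z, .., 0, 0}` with `c + z = b`, `c - z = a`: ExcV.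
`x = c`: `y = -2c`, so `h⁻¹ • y = ± 2z = ± (b - a) ∈ R = {± a, ± b, ± c, ± 2c, ± z}`: `b = 2a`, `a = 2b`, `b = 3a`,
`a = 3b`, `a = 0`, `b = 0` or `z = 0`: no by SC5. -/
def Stmt_FB5 : Prop :=
  ∀ (G U : Type) [Group G] [AddCommGroup U] [Module ℚ U] [DistribMulAction G U] (K : Core G U)
    (R J : Multiset U) (u : U), Miss K R J u → ∀ g : G, g • u ≠ u → g • u ≠ -u →
    ∀ a b x y z : U, (a = g • u ∨ a = -(g • u)) → (b = u ∨ b = -u) → J = {a, x, y, z} →
      a + x + y + z = 0 → b + x + y = z → (∀ h : G, h • u ≠ x ∧ h • u ≠ y ∧ h • u ≠ z) →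
      ExcV R

/-- (P55) the pure theorem.

Proof. DE5, CA5, PR5, ON5, FB5. -/
def Stmt_P55 : Prop :=
  ∀ (G U : Type) [Group G] [AddCommGroup U] [Module ℚ U] [DistribMulAction G U] (K : Core G U)
    (R J : Multiset U), IsR K R → R.card ≤ 10 → J ≤ R → J.card = 4 → J.sum = 0 → NoPair J →
    (J + ng J ≤ R ∧ Good K (J + ng J) J) ∨ ExcV R

/-! ## Arithmetic part -/

/-- (LF5) an abelian variety `R0` of dimension four with the vectors `J + ng J`.

Proof. `(R - J).map uu ≥ ng (J.map uu)`: there is `T ≤ R - J` with `T.map uu = ng (J.map uu)`; `R0 = J + T`.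
`weil`: clear. `stable`: `(R0.map g).map uu = tr g (R0.map uu) = R0.map uu` (`Dict.smul`, `Good.isR.stable`), and
two multisets of Weil numbers with the same vectors have the same germs (`Dict.sim`). `ht`: as in HTC (the
other direction): `mult R0 x = cnt (uu x) (R0.map uu)`, `(locOrbit ι x).ncard = (orb (dec ι) (uu x)).ncard`,
`Dict.nrm` with `g = 1`, `w (uu x) = ur x 1`. -/
def Stmt_LF5 : Prop :=
  ∀ (p : ℕ) [Fact p.Prime] (a : ℕ) (ι : Qb →+* PadicAlgCl p) (ρ : Qb →+* ℂ) (c : GQ)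
    (hc : IsConj c ρ), 0 < a → Dict (p ^ a) ι → ∀ R J : Multiset Qb,
    IsAV (p ^ a) ι R → J ≤ R →
    J.map (uu (p ^ a) ι) + ng (J.map (uu (p ^ a) ι)) ≤ R.map (uu (p ^ a) ι) →
    Good (coreU ι ρ c hc) (J.map (uu (p ^ a) ι) + ng (J.map (uu (p ^ a) ι)))
      (J.map (uu (p ^ a) ι)) →
    ∃ R0 : Multiset Qb, R0 ≤ R ∧ J ≤ R0 ∧ IsAV (p ^ a) ι R0 ∧ R0.card = 8

/-- (EX5) the exception for vectors and for Weil numbers.

Proof. `R.map uu = {v, -v, v', -v', ..}`: take `x, y ∈ R` with `uu x = v`, `uu y = v'`; `s ^ 2 = q` exists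
(algebraically closed). `q / x = c x`, `q / y = c y` (`Dict.conj`, complex conjugation `c`), `uu (c x) = -uu x`
(`Dict.smul`, `K.cc`). Let `e ∈ R` with `uu e = v + v'`: `uu (c x) + uu (c y) + uu e + uu s = 0` (`Dict.ss` for
`s`), so `Dict.sum` for `{c x, c y, e, s}`: `(c x * c y * e * s)^2 ~ q^4`, so `(e s q / (x y))^2 ~ q^2`, so
`(e s / (x y))^2 ~ 1`, and `e ~ x y / s` (`Sim` allows to take square roots: `z^2 ~ 1` gives `z ~ 1`). In the
same way for `v - v'`: `{c x, y, e', s}`: `e' ~ s x / y` (`s ^ 2 = q`), and the other two; the elements with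
vector `0` are `~ s`. Then compare the germs element by element: `R.map uu = S.map uu` for a multiset
`S ≤ R`.. : write `R = {x0, .., x9}` in the order of the vectors (`Multiset.map_eq_cons` ten times, or
`Quotient` lists: `R = ↑l`, `l.map uu ~ [..]`). -/
def Stmt_EX5 : Prop :=
  ∀ (p : ℕ) [Fact p.Prime] (a : ℕ) (ι : Qb →+* PadicAlgCl p) (ρ : Qb →+* ℂ) (c : GQ)
    (_ : IsConj c ρ), 0 < a → Dict (p ^ a) ι → ∀ R : Multiset Qb,
    IsAV (p ^ a) ι R → ExcV (R.map (uu (p ^ a) ι)) → Exc5 (p ^ a) R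

/-- (F55) the theorem in dimension five.

Proof. `S ≤ R`, RNP gives `J ≤ S` with `NoPair`, even card, the sum of its vectors is `0` (`Dict.sum` for
`S`). `J.map uu ≤ R.map uu`; as in CAR `J + ng J ≤ R` on vectors gives `2 * J.card ≤ 10`, so `J.card` is `0`, `2`
or `4`: `0`: `Cyc.zero` (RNP); `2`: sum zero contradicts `NoPair`; `4`: HTC and P55; in the first case LF5 and
FN1 for `R0` (`J ≤ R0`, `J.prod ~ q ^ 2` by `Dict.sum`); the second contradicts `¬ Exc5` by EX5. -/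
def Stmt_F55 : Prop :=
  ∀ (p : ℕ) [Fact p.Prime] (a : ℕ) (ι : Qb →+* PadicAlgCl p), 0 < a →
    ∀ R : Multiset Qb, IsAV (p ^ a) ι R → R.card ≤ 10 → ¬ Exc5 (p ^ a) R → TateProp (p ^ a) ι R

end Pool.T4
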