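import Pool.Agent.Work.MP_223b32_t4.Interface10
import Pool.Agent.Work.MP_223b32_t4.Interface5
import Pool.Agent.Work.MP_223b32_t4.FN9
import Pool.Agent.Work.MP_223b32_t4.EX4
import Pool.Agent.Work.MP_223b32_t4.HTC
import Pool.Agent.Work.MP_223b32_t4.DefsFin

/-! # The last step: supersingular factors -/

namespace Pool.T4

open Pool.Agent.Work.MP_223b32_ag

theorem FIN_symm {x y : Qb} (h : Sim x y) : Sim y x := simSetoid.iseqv.symm h

theorem FIN_ss {q : ℕ} {x y : Qb} (h : Sim x y) (hx : SS q x) : SS q y :=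
  FN8_ss (FIN_symm h) hx

/-- The part of `R` without supersingular elements. -/
theorem FIN_part (hRHO : Stmt_RHO) (hCCJ : Stmt_CCJ) (hDIC : Stmt_DIC)
    (hHTC : Stmt_HTC) (hSAV : Stmt_SAV) (hPR9 : Stmt_PR9)
    (p : ℕ) [Fact p.Prime] (a : ℕ) (ι : Qb →+* PadicAlgCl p) (ha : 0 < a)
    (R : Multiset Qb) (hR : IsAV (p ^ a) ι R) (hcard : R.card ≤ 10)
    (hs : ∃ x ∈ R, SS (p ^ a) x) :
    ∃ R1 ≤ R, IsAV (p ^ a) ι R1 ∧ R1.card ≤ 8 ∧ (∀ x ∈ R1, ¬ SS (p ^ a) x) ∧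
      ∀ T, PowOf (p ^ a) R T → PowOf (p ^ a) R1 T := by
  classical
  have hd := hDIC p a ι ha
  obtain ⟨ρ⟩ := hRHO
  obtain ⟨c, hc⟩ := hCCJ ρ
  have hRK : IsR (coreU ι ρ c hc) (R.map (uu (p ^ a) ι)) := hHTC p a ι ρ c hc ha hd R hR
  obtain ⟨V, hVdef⟩ : ∃ V : Finset (UU ι),
      V = (R.map (uu (p ^ a) ι)).toFinset.filter (fun v => v ≠ 0) := ⟨_, rfl⟩
  have hVm : ∀ v, v ∈ V ↔ v ∈ R.map (uu (p ^ a) ι) ∧ v ≠ 0 := by
    intro v
    rw [hVdef, Finset.mem_filter, Multiset.mem_toFinset]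
  have hVst : ∀ g : GQ, ∀ v ∈ V, g • v ∈ V := by
    intro g v hv
    rw [hVm] at hv ⊢
    refine ⟨?_, (smul_ne_zero_iff_ne g).2 hv.2⟩
    rw [← hRK.stable g]
    exact Multiset.mem_map_of_mem _ hv.1
  obtain ⟨R1, hR1R, hR1av, hR1m, hR1c⟩ := hSAV p a ι ha hd R hR V hVst
  have hR1e : Even R1.card := by
    have h1 := hPR9 GQ (UU ι) (coreU ι ρ c hc) (R1.map (uu (p ^ a) ι))
      ((hHTC p a ι ρ c hc ha hd R1 hR1av).stable _) (by
        intro v hv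
        obtain ⟨x, hx, rfl⟩ := Multiset.mem_map.1 hv
        exact ((hVm _).1 ((hR1m x).1 hx).2).2)
    rwa [Multiset.card_map] at h1
  have hns : ∀ x ∈ R1, ¬ SS (p ^ a) x := by
    intro x hx h
    exact ((hVm _).1 ((hR1m x).1 hx).2).2 ((hd.ss x (hR1av.weil x hx)).1 h)
  refine ⟨R1, hR1R, hR1av, ?_, hns, ?_⟩
  · have hlt : R1.card < R.card := by
      refine lt_of_le_of_ne (Multiset.card_le_card hR1R) fun h => ?_
      have h1 : R1 = R := Multiset.eq_of_le_of_card_le hR1R h.ge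
      obtain ⟨x, hx, hx0⟩ := hs
      exact hns x (h1 ▸ hx) hx0
    obtain ⟨k, hk⟩ := hR1e
    omega
  · intro T hI x hx
    rcases hI x hx with h | ⟨y, hy, h⟩
    · exact Or.inl h
    by_cases hys : SS (p ^ a) y
    · exact Or.inl (FN8_ss h hys)
    · refine Or.inr ⟨y, (hR1m y).2 ⟨hy, ?_⟩, h⟩
      rw [hVm]
      refine ⟨Multiset.mem_map_of_mem _ hy, fun h0 => hys ?_⟩
      exact (hd.ss y (hR.weil y hy)).2 h0

/-- Powers and supersingular factors. -/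
theorem FIN_pow (hRHO : Stmt_RHO) (hCCJ : Stmt_CCJ) (hDIC : Stmt_DIC)
    (hHTC : Stmt_HTC) (hSAV : Stmt_SAV) (hPR9 : Stmt_PR9) (hFN4 : Stmt_FN4)
    (p : ℕ) [Fact p.Prime] (a : ℕ) (ι : Qb →+* PadicAlgCl p) (ha : 0 < a)
    (R T : Multiset Qb) (hR : Five (p ^ a) ι R) (hT : PowOf (p ^ a) R T)
    (h : (¬ ∃ R1 ≤ R, Exc4 (p ^ a) R1) → TateProp (p ^ a) ι T) : TateProp (p ^ a) ι T := by
  obtain ⟨h1, h2, h3⟩ := hR
  by_cases hs : ∃ x ∈ R, SS (p ^ a) x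
  · obtain ⟨R1, g1, g2, g3, g4, g5⟩ :=
      FIN_part hRHO hCCJ hDIC hHTC hSAV hPR9 p a ι ha R h1 h2 hs
    exact hFN4 p a ι ha R1 T g2 g3 (fun he => h3 ⟨R1, g1, he, g4⟩) (g5 T hT)
  · refine h ?_
    rintro ⟨S, g1, g2⟩
    exact h3 ⟨S, g1, g2, fun x hx hx' => hs ⟨x, Multiset.mem_of_le g1 hx, hx'⟩⟩

theorem FIN_five (hRHO : Stmt_RHO) (hCCJ : Stmt_CCJ) (hDIC : Stmt_DIC)
    (hHTC : Stmt_HTC) (hSAV : Stmt_SAV) (hPR9 : Stmt_PR9) (hFN4 : Stmt_FN4) (hFN9 : Stmt_FN9)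
    (p : ℕ) [Fact p.Prime] (a : ℕ) (ι : Qb →+* PadicAlgCl p) (ha : 0 < a)
    (R T : Multiset Qb) (hR : Five (p ^ a) ι R) (hT : ∀ x ∈ T, ∃ y ∈ R, Sim x y) :
    TateProp (p ^ a) ι T :=
  FIN_pow hRHO hCCJ hDIC hHTC hSAV hPR9 hFN4 p a ι ha R T hR (fun x hx => Or.inr (hT x hx))
    fun h => hFN9 p a ι ha R T hR.1 hR.2.1 h hT

theorem FIN_factor (hRHO : Stmt_RHO) (hCCJ : Stmt_CCJ) (hDIC : Stmt_DIC)
    (hHTC : Stmt_HTC) (hSAV : Stmt_SAV) (hPR9 : Stmt_PR9) (hFN4 : Stmt_FN4)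
    (hFN10 : Stmt_FN10)
    (p : ℕ) [Fact p.Prime] (a : ℕ) (ι : Qb →+* PadicAlgCl p) (ha : 0 < a)
    (R T : Multiset Qb) (hR : Five (p ^ a) ι R) (hR' : R.card ≤ 8 ∨ ¬ Tri (p ^ a) R)
    (hT : PowOf (p ^ a) R T) :
    TateProp (p ^ a) ι T := by
  refine FIN_pow hRHO hCCJ hDIC hHTC hSAV hPR9 hFN4 p a ι ha R T hR hT fun h => ?_
  rcases hR' with h8 | h8
  · exact hFN4 p a ι ha R T hR.1 h8 (fun he => h ⟨R, le_rfl, he⟩) hT
  · exact hFN10 p a ι ha R T hR.1 hR.2.1 h h8 hT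

theorem FIN_self (hRHO : Stmt_RHO) (hCCJ : Stmt_CCJ) (hDIC : Stmt_DIC)
    (hHTC : Stmt_HTC) (hSAV : Stmt_SAV) (hPR9 : Stmt_PR9) (hFN4 : Stmt_FN4) (hF55 : Stmt_F55)
    (p : ℕ) [Fact p.Prime] (a : ℕ) (ι : Qb →+* PadicAlgCl p) (ha : 0 < a)
    (T : Multiset Qb) (h1 : IsAV (p ^ a) ι T) (h2 : T.card ≤ 10)
    (h3 : ¬ (HasExc (p ^ a) T ∧ ∃ x ∈ T, SS (p ^ a) x)) :
    TateProp (p ^ a) ι T := by
  by_cases hs : ∃ x ∈ T, SS (p ^ a) x
  · obtain ⟨R1, g1, g2, g3, g4, g5⟩ :=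
      FIN_part hRHO hCCJ hDIC hHTC hSAV hPR9 p a ι ha T h1 h2 hs
    exact hFN4 p a ι ha R1 T g2 g3 (fun he => h3 ⟨⟨R1, g1, he, g4⟩, hs⟩)
      (g5 T fun x hx => Or.inr ⟨x, hx, 1, one_pos, rfl⟩)
  · refine hF55 p a ι ha T h1 h2 ?_
    rintro ⟨x, y, s, hx, hy, hsq, hgerm⟩
    have h4 : germ s ∈ T.map germ := by
      rw [hgerm]
      simp [Multiset.insert_eq_cons]
    obtain ⟨z, hz, hz'⟩ := Multiset.mem_map.1 h4
    refine hs ⟨z, hz, FN8_ss (y := s) ?_ ?_⟩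
    · exact HTC_germ.1 hz'
    · exact ⟨1, one_pos, by rw [hsq]⟩

/-- Isotypic abelian varieties do not contain the exception. -/
theorem FIN_iso_exc (hRHO : Stmt_RHO) (hCCJ : Stmt_CCJ) (hDIC : Stmt_DIC)
    (hHTC : Stmt_HTC) (hXP5 : Stmt_XP5)
    (p : ℕ) [Fact p.Prime] (a : ℕ) (ι : Qb →+* PadicAlgCl p) (ha : 0 < a)
    (R : Multiset Qb) (hR : IsAV (p ^ a) ι R) (hI : Isotypic (p ^ a) R) :
    ¬ HasExc (p ^ a) R := by
  classical
  have hd := hDIC p a ι ha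
  have hq : 0 < p ^ a := pow_pos (Fact.out (p := p.Prime)).pos a
  rintro ⟨S, hSR, ⟨x, y, s, hx, hy, hsq, hgerm⟩, hns⟩
  obtain ⟨ρ⟩ := hRHO
  obtain ⟨c, hc⟩ := hCCJ ρ
  have hRK : IsR (coreU ι ρ c hc) (R.map (uu (p ^ a) ι)) := hHTC p a ι ρ c hc ha hd R hR
  have hxR : x ∈ R := Multiset.mem_of_le hSR hx
  have hyR : y ∈ R := Multiset.mem_of_le hSR hy
  have hx0 : x ≠ 0 := EX4_ne hq ρ (hR.weil x hxR)
  have hy0 : y ≠ 0 := EX4_ne hq ρ (hR.weil y hyR)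
  have hq0 : ((p ^ a : ℕ) : Qb) ≠ 0 := by exact_mod_cast hq.ne'
  have hs0 : s ≠ 0 := by
    rintro rfl
    exact hq0 (by rw [← hsq]; norm_num)
  have get : ∀ w : Qb, germ w ∈ S.map germ → ∃ z ∈ R, ¬ SS (p ^ a) z ∧ Sim z w := by
    intro w hw
    obtain ⟨z, hz, hz'⟩ := Multiset.mem_map.1 hw
    exact ⟨z, Multiset.mem_of_le hSR hz, hns z hz, HTC_germ.1 hz'⟩
  obtain ⟨z1, hz1, hs1, h1⟩ := get (x * y / s) (by
    rw [hgerm]
    simp [Multiset.insert_eq_cons])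
  obtain ⟨z2, hz2, hs2, h2⟩ := get (s * x / y) (by
    rw [hgerm]
    simp [Multiset.insert_eq_cons])
  obtain ⟨V, hVdef⟩ : ∃ V : Finset (UU ι),
      V = (R.map (uu (p ^ a) ι)).toFinset.filter (fun v => v ≠ 0) := ⟨_, rfl⟩
  have hVm : ∀ v, v ∈ V ↔ v ∈ R.map (uu (p ^ a) ι) ∧ v ≠ 0 := by
    intro v
    rw [hVdef, Finset.mem_filter, Multiset.mem_toFinset]
  have hVst : ∀ g : GQ, ∀ v ∈ V, g • v ∈ V := by
    intro g v hv
    rw [hVm] at hv ⊢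
    refine ⟨?_, (smul_ne_zero_iff_ne g).2 hv.2⟩
    rw [← hRK.stable g]
    exact Multiset.mem_map_of_mem _ hv.1
  have hmem : ∀ z ∈ R, ¬ SS (p ^ a) z → uu (p ^ a) ι z ∈ V := by
    intro z hz hzs
    rw [hVm]
    exact ⟨Multiset.mem_map_of_mem _ hz, fun h => hzs ((hd.ss z (hR.weil z hz)).2 h)⟩
  have htr : ∀ v ∈ V, ∀ v' ∈ V, ∃ g : GQ, g • v = v' := by
    intro v hv v' hv'
    rw [hVm] at hv hv'
    obtain ⟨⟨u, hu, rfl⟩, hv0⟩ := And.imp_left Multiset.mem_map.1 hv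
    obtain ⟨⟨u', hu', rfl⟩, hv0'⟩ := And.imp_left Multiset.mem_map.1 hv'
    rcases hI u hu u' hu' with h | h | ⟨g, h⟩
    · exact absurd ((hd.ss u (hR.weil u hu)).1 h) hv0
    · exact absurd ((hd.ss u' (hR.weil u' hu')).1 h) hv0'
    · refine ⟨g, ?_⟩
      rw [← hd.smul u (hR.weil u hu) g]
      exact (hd.sim _ _ (hd.weil u (hR.weil u hu) g) (hR.weil u' hu')).1 h
  have hcx : Weil (p ^ a) (c x) := hd.weil x (hR.weil x hxR) c
  have hcq : x * c x = ((p ^ a : ℕ) : Qb) := hd.conj x (hR.weil x hxR) ρ c hc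
  have hcu : uu (p ^ a) ι (c x) = - uu (p ^ a) ι x := by
    rw [hd.smul x (hR.weil x hxR) c]
    exact (coreU ι ρ c hc).cc _
  have hsum : uu (p ^ a) ι z1 + uu (p ^ a) ι z2 = uu (p ^ a) ι x + uu (p ^ a) ι x := by
    have h3 := (hd.sum {z1, z2, c x, c x} (by
      intro t ht
      simp only [Multiset.insert_eq_cons, Multiset.mem_cons, Multiset.mem_singleton] at ht
      rcases ht with rfl | rfl | rfl | rfl
      · exact hR.weil _ hz1
      · exact hR.weil _ hz2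
      · exact hcx
      · exact hcx)).2 (by
        have h4 : ({z1, z2, c x, c x} : Multiset Qb).prod = z1 * z2 * (c x) ^ 2 := by
          simp [Multiset.insert_eq_cons]
          ring
        have h5 : ({z1, z2, c x, c x} : Multiset Qb).card = 2 * 2 := rfl
        rw [h4, h5]
        refine FN2_sim' ?_
        obtain ⟨N, hN, e1⟩ := h1
        obtain ⟨M, hM, e2⟩ := h2
        refine ⟨N * M, Nat.mul_pos hN hM, ?_⟩
        have h6 : x * y / s * (s * x / y) * (c x) ^ 2 = ((p ^ a : ℕ) : Qb) ^ 2 := by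
          rw [← hcq]
          field_simp
        rw [← h6, mul_pow, mul_pow, pow_mul z1, e1, mul_comm N M, pow_mul z2, e2, ← pow_mul,
          ← pow_mul, mul_comm N M, ← mul_pow, ← mul_pow])
    have h6 : uu (p ^ a) ι z1 + (uu (p ^ a) ι z2 + (uu (p ^ a) ι (c x) + uu (p ^ a) ι (c x)))
        = 0 := by
      simpa [Multiset.insert_eq_cons] using h3
    rw [hcu] at h6
    have h7 : uu (p ^ a) ι z1 + uu (p ^ a) ι z2 - (uu (p ^ a) ι x + uu (p ^ a) ι x) = 0 := by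
      rw [← h6]
      abel
    exact sub_eq_zero.1 h7
  have h8 := (hXP5 GQ (UU ι) (coreU ι ρ c hc) V hVst htr _ (hmem z1 hz1 hs1) _
    (hmem z2 hz2 hs2) _ (hmem x hxR (hns x hx)) hsum).1
  have h9 : Sim z1 x := (hd.sim _ _ (hR.weil _ hz1) (hR.weil _ hxR)).2 h8
  obtain ⟨N, hN, e⟩ := FN9_sim_trans (FIN_symm h1) h9
  refine hns y hy (FN8_ss (y := s) ⟨N, hN, ?_⟩ ⟨1, one_pos, by rw [hsq]⟩)
  rw [div_pow, mul_pow, div_eq_iff (pow_ne_zero _ hs0)] at e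
  exact mul_left_cancel₀ (pow_ne_zero N hx0) e

/-- Isotypic abelian varieties are not `Tri`. -/
theorem FIN_iso_tri (hRHO : Stmt_RHO) (hCCJ : Stmt_CCJ) (hDIC : Stmt_DIC)
    (p : ℕ) [Fact p.Prime] (a : ℕ) (ι : Qb →+* PadicAlgCl p) (ha : 0 < a)
    (R : Multiset Qb) (hR : IsAV (p ^ a) ι R) (hI : Isotypic (p ^ a) R) :
    ¬ Tri (p ^ a) R := by
  classical
  have hd := hDIC p a ι ha
  rintro ⟨x, hx, x', hx', y, hy, hxs, hxs', hys, hg, ht⟩
  obtain ⟨ρ⟩ := hRHO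
  obtain ⟨c, hc⟩ := hCCJ ρ
  have hline : ∀ z ∈ R, ¬ SS (p ^ a) z →
      uu (p ^ a) ι z = uu (p ^ a) ι y ∨ uu (p ^ a) ι z = - uu (p ^ a) ι y := by
    intro z hz hzs
    obtain h | h | ⟨g, h⟩ := hI y hy z hz
    · exact absurd h hys
    · exact absurd h hzs
    have hw := hd.weil y (hR.weil y hy) g
    have h1 := (hd.sim _ _ hw (hR.weil z hz)).1 h
    rw [← h1]
    rcases hg g with h2 | h2
    · left
      exact (hd.sim _ _ hw (hR.weil y hy)).1 h2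
    · right
      have h3 := (hd.sum {y, g y} (by
        intro t ht
        simp only [Multiset.insert_eq_cons, Multiset.mem_cons, Multiset.mem_singleton] at ht
        rcases ht with rfl | rfl
        · exact hR.weil _ hy
        · exact hw)).2 (by
          have h4 : ({y, g y} : Multiset Qb).prod = y * g y := by
            simp [Multiset.insert_eq_cons]
          have h5 : ({y, g y} : Multiset Qb).card = 2 * 1 := rfl
          rw [h4, h5]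
          exact FN2_sim' (by simpa using h2))
      have h6 : uu (p ^ a) ι y + uu (p ^ a) ι (g y) = 0 := by
        simpa [Multiset.insert_eq_cons] using h3
      exact eq_neg_of_add_eq_zero_right h6
  have h3 := (hd.sum {x, x', y} (by
    intro t ht
    simp only [Multiset.insert_eq_cons, Multiset.mem_cons, Multiset.mem_singleton] at ht
    rcases ht with rfl | rfl | rfl
    · exact hR.weil _ hx
    · exact hR.weil _ hx'
    · exact hR.weil _ hy)).2 (by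
      have h4 : ({x, x', y} : Multiset Qb).prod = x * x' * y := by
        simp [Multiset.insert_eq_cons, mul_assoc]
      have h5 : ({x, x', y} : Multiset Qb).card = 3 := rfl
      rw [h4, h5]
      exact ht)
  have h6 : uu (p ^ a) ι x + (uu (p ^ a) ι x' + uu (p ^ a) ι y) = 0 := by
    simpa [Multiset.insert_eq_cons] using h3
  have hy0 : uu (p ^ a) ι y ≠ 0 := fun h => hys ((hd.ss y (hR.weil y hy)).2 h)
  have h7 : ∀ n : ℤ, n ≠ 0 → n • uu (p ^ a) ι y ≠ 0 := by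
    intro n hn h8
    have h9 : (n : ℚ) • uu (p ^ a) ι y = 0 := by
      exact (Int.cast_smul_eq_zsmul ℚ n (uu (p ^ a) ι y)).trans h8
    rcases smul_eq_zero.1 h9 with h | h
    · exact hn (by exact_mod_cast h)
    · exact hy0 h
  rcases hline x hx hxs with h | h <;> rcases hline x' hx' hxs' with h' | h' <;> rw [h, h'] at h6
  · exact h7 3 (by norm_num) (by rw [← h6]; abel)
  · exact h7 1 (by norm_num) (by rw [← h6]; abel)
  · exact h7 1 (by norm_num) (by rw [← h6]; abel)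
  · exact h7 (-1) (by norm_num) (by rw [← h6]; abel)

end Pool.T4
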