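import Pool.Agent.Work.MP_223b32_t4.Interface10
import Pool.Agent.Work.MP_223b32_t4.FN9

/-!
# Block FN10, typed by helper56
-/

namespace Pool.T4

open Pool.Agent.Work.MP_223b32_ag

theorem p_FN10 (hRHO : Stmt_RHO) (hCCJ : Stmt_CCJ) (hDIC : Stmt_DIC) (hRNP : Stmt_RNP)
    (hHTC : Stmt_HTC) (hSAV : Stmt_SAV) (hPR9 : Stmt_PR9) (hFN4 : Stmt_FN4) (hRD9 : Stmt_RD9)
    (hFN8 : Stmt_FN8) (hEQ9 : Stmt_EQ9) (hAL10 : Stmt_AL10) (hBE9 : Stmt_BE9)
    (hOD10 : Stmt_OD10) : Stmt_FN10 := by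
  classical
  intro p _ a ι ha R T hR hcard hex htri hI S j hST hSc hSs
  have hq : 0 < p ^ a := pow_pos (Fact.out (p := p.Prime)).pos a
  have hd := hDIC p a ι ha
  obtain ⟨ρ⟩ := hRHO
  obtain ⟨c, hc⟩ := hCCJ ρ
  have hRK : IsR (coreU ι ρ c hc) (R.map (uu (p ^ a) ι)) := hHTC p a ι ρ c hc ha hd R hR
  -- the part of `R` in a stable set of nonzero vectors
  have key : ∀ V : Finset (UU ι), (∀ g : GQ, ∀ v ∈ V, g • v ∈ V) → (∀ v ∈ V, v ≠ 0) →
      ∃ R1 : Multiset Qb, R1 ≤ R ∧ IsAV (p ^ a) ι R1 ∧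
        (∀ x, x ∈ R1 ↔ x ∈ R ∧ uu (p ^ a) ι x ∈ V) ∧ Even R1.card := by
    intro V hVst hV0
    obtain ⟨R1, hR1R, hR1av, hR1m, hR1c⟩ := hSAV p a ι ha hd R hR V hVst
    refine ⟨R1, hR1R, hR1av, hR1m, ?_⟩
    have h1 := hPR9 GQ (UU ι) (coreU ι ρ c hc) (R1.map (uu (p ^ a) ι))
      ((hHTC p a ι ρ c hc ha hd R1 hR1av).stable _) (by
        intro v hv
        obtain ⟨x, hx, rfl⟩ := Multiset.mem_map.1 hv
        exact hV0 _ ((hR1m x).1 hx).2)
    rwa [Multiset.card_map] at h1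
  have hTw : ∀ x ∈ T, Weil (p ^ a) x := fun x hx => by
    rcases hI x hx with h | ⟨y, hy, N, hN, h⟩
    · exact FN2_weil_of_ss hq h
    · exact FN2_weil_of_pow hN (hR.weil y hy) h
  by_cases hz : (0 : UU ι) ∈ R.map (uu (p ^ a) ι)
  · -- a supersingular factor
    obtain ⟨V, hVdef⟩ : ∃ V : Finset (UU ι),
        V = (R.map (uu (p ^ a) ι)).toFinset.filter (fun v => v ≠ 0) := ⟨_, rfl⟩
    have hVm : ∀ v, v ∈ V ↔ v ∈ R.map (uu (p ^ a) ι) ∧ v ≠ 0 := by
      intro v
      rw [hVdef, Finset.mem_filter, Multiset.mem_toFinset]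
    have hVst : ∀ g : GQ, ∀ v ∈ V, g • v ∈ V := by
      intro g v hv
      rw [hVm] at hv ⊢
      refine ⟨?_, (smul_ne_zero_iff_ne g).2 hv.2⟩
      rw [← hRK.stable g]
      exact Multiset.mem_map_of_mem _ hv.1
    obtain ⟨R1, hR1R, hR1av, hR1m, hR1e⟩ := key V hVst fun v hv => ((hVm v).1 hv).2
    have hlt : R1.card < R.card := by
      refine lt_of_le_of_ne (Multiset.card_le_card hR1R) fun h => ?_
      have h1 : R1 = R := Multiset.eq_of_le_of_card_le hR1R h.ge
      obtain ⟨x, hx, hx0⟩ := Multiset.mem_map.1 hz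
      have h2 := ((hVm _).1 ((hR1m x).1 (h1 ▸ hx)).2).2
      exact h2 hx0
    have h8 : R1.card ≤ 8 := by
      obtain ⟨k, hk⟩ := hR1e
      omega
    refine hFN4 p a ι ha R1 T hR1av h8 (fun h => hex ⟨R1, hR1R, h⟩) ?_ S j hST hSc hSs
    intro x hx
    rcases hI x hx with h | ⟨y, hy, h⟩
    · exact Or.inl h
    by_cases hys : SS (p ^ a) y
    · exact Or.inl (FN8_ss h hys)
    · refine Or.inr ⟨y, (hR1m y).2 ⟨hy, ?_⟩, h⟩
      rw [hVm]
      refine ⟨Multiset.mem_map_of_mem _ hy, fun h0 => hys ?_⟩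
      exact (hd.ss y (hR.weil y hy)).2 h0
  -- no supersingular factor
  have hnz : ∀ v ∈ R.map (uu (p ^ a) ι), v ≠ 0 := fun v hv h0 => hz (h0 ▸ hv)
  have hSw : ∀ x ∈ S, Weil (p ^ a) x := fun x hx => hTw x (Multiset.mem_of_le hST hx)
  obtain ⟨J, hJS, hJnp, hJsum, hJev, hJcyc⟩ := hRNP p a ι ha hd S hSw
  refine hJcyc ?_
  have hJw : ∀ x ∈ J, Weil (p ^ a) x := fun x hx => hSw x (Multiset.mem_of_le hJS hx)
  have hS0 : (S.map (uu (p ^ a) ι)).sum = 0 := by
    rw [hd.sum S hSw, hSc]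
    exact FN2_sim' hSs
  rw [hS0] at hJsum
  have hJe : Even J.card := hJev.2 ⟨j, by rw [hSc]; ring⟩
  have hJI : ∀ x ∈ J, SS (p ^ a) x ∨ ∃ y ∈ R, Sim x y :=
    fun x hx => hI x (Multiset.mem_of_le (hJS.trans hST) hx)
  have hJR : ∀ x ∈ J, uu (p ^ a) ι x ≠ 0 → uu (p ^ a) ι x ∈ R.map (uu (p ^ a) ι) := by
    intro x hx hx0
    rcases hJI x hx with h | ⟨y, hy, h⟩
    · exact absurd ((hd.ss x (hJw x hx)).1 h) hx0
    rw [(hd.sim x y (hJw x hx) (hR.weil y hy)).1 h]
    exact Multiset.mem_map_of_mem _ hy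
  obtain ⟨S', z, hJ', hnz', hsum⟩ := FN2_split (J.map (uu (p ^ a) ι))
  rw [hJsum] at hsum
  have hS'le : S' ≤ J.map (uu (p ^ a) ι) := by rw [hJ']; exact Multiset.le_add_right _ _
  have hS'np : NoPair S' := FN2_noPair hS'le hJnp
  have hcardJ : J.card = S'.card + z := by
    have h1 := congrArg Multiset.card hJ'
    rwa [Multiset.card_map, Multiset.card_add, Multiset.card_replicate] at h1
  have hz1 : z ≤ 1 := by
    by_contra hz
    push Not at hz
    refine hJnp 0 0 ?_ (add_zero 0)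
    rw [hJ']
    refine le_trans ?_ (Multiset.le_add_left _ _)
    have h1 : ({0, 0} : Multiset (UU ι)) = Multiset.replicate 2 0 := rfl
    rw [h1]
    exact (Multiset.replicate_le_replicate (0 : UU ι)).2 hz
  have hR' : ∀ v ∈ S', v ∈ R.map (uu (p ^ a) ι) := fun v hv => by
    obtain ⟨x, hx, rfl⟩ := Multiset.mem_map.1 (Multiset.mem_of_le hS'le hv)
    exact hJR x hx (hnz' _ hv)
  -- the Tate property of `J` is enough
  have fin : TateProp (p ^ a) ι J → Cyc (p ^ a) ι J := by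
    intro h
    obtain ⟨k, hk⟩ := hJe
    refine h J k le_rfl (by omega) ?_
    apply FN2_sim
    have h1 := (hd.sum J hJw).1 hJsum
    rwa [show J.card = 2 * k by omega] at h1
  -- (1) all orbits are used
  obtain ⟨V, hVdef⟩ : ∃ V : Finset (UU ι), V = (R.map (uu (p ^ a) ι)).toFinset.filter
      (fun v => ∃ u ∈ S', u ∈ gorb GQ v) := ⟨_, rfl⟩
  have hVm : ∀ v, v ∈ V ↔ v ∈ R.map (uu (p ^ a) ι) ∧ ∃ u ∈ S', u ∈ gorb GQ v := by
    intro v
    rw [hVdef, Finset.mem_filter, Multiset.mem_toFinset]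
  have hVst : ∀ g : GQ, ∀ v ∈ V, g • v ∈ V := by
    intro g v hv
    rw [hVm] at hv ⊢
    obtain ⟨hv1, u, hu, h, rfl⟩ := hv
    refine ⟨?_, _, hu, h * g⁻¹, ?_⟩
    · rw [← hRK.stable g]
      exact Multiset.mem_map_of_mem _ hv1
    · rw [mul_smul, inv_smul_smul]
  obtain ⟨R1, hR1R, hR1av, hR1m, hR1e⟩ := key V hVst fun v hv => hnz v ((hVm v).1 hv).1
  by_cases h8 : R1.card ≤ 8
  · refine fin (hFN4 p a ι ha R1 J hR1av h8 (fun h => hex ⟨R1, hR1R, h⟩) ?_)
    intro x hx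
    by_cases hx0 : uu (p ^ a) ι x = 0
    · exact Or.inl ((hd.ss x (hJw x hx)).2 hx0)
    rcases hJI x hx with h | ⟨y, hy, h⟩
    · exact Or.inl h
    refine Or.inr ⟨y, (hR1m y).2 ⟨hy, ?_⟩, h⟩
    rw [hVm]
    have hxS : uu (p ^ a) ι x ∈ S' := by
      have h1 : uu (p ^ a) ι x ∈ J.map (uu (p ^ a) ι) := Multiset.mem_map_of_mem _ hx
      rw [hJ', Multiset.mem_add] at h1
      rcases h1 with h1 | h1
      · exact h1
      · exact absurd (Multiset.eq_of_mem_replicate h1) hx0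
    refine ⟨Multiset.mem_map_of_mem _ hy, _, hxS, 1, ?_⟩
    rw [one_smul]
    exact (hd.sim x y (hJw x hx) (hR.weil y hy)).1 h
  have hR10 : R.card = 10 := by
    have h1 := Multiset.card_le_card hR1R
    obtain ⟨k, hk⟩ := hR1e
    omega
  have hR1eq : R1 = R := by
    refine Multiset.eq_of_le_of_card_le hR1R ?_
    obtain ⟨k, hk⟩ := hR1e
    omega
  have hall : ∀ v ∈ R.map (uu (p ^ a) ι), ∃ u ∈ S', u ∈ gorb GQ v := by
    intro v hv
    obtain ⟨x, hx, rfl⟩ := Multiset.mem_map.1 hv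
    rw [← hR1eq] at hx
    exact ((hVm _).1 ((hR1m x).1 hx).2).2
  -- (2) ordinary elliptic curves which occur twice
  by_cases hline : ∀ v ∈ R.map (uu (p ^ a) ι), Line GQ v →
      ((coreU ι ρ c hc).w v = 1 ∨ (coreU ι ρ c hc).w v = -1) → cnt v (R.map (uu (p ^ a) ι)) = 1
  swap
  · push Not at hline
    obtain ⟨v, hv, hvl, hvw, hvc⟩ := hline
    have h2 : 2 ≤ cnt v (R.map (uu (p ^ a) ι)) := by
      have h3 : cnt v (R.map (uu (p ^ a) ι)) ≠ 0 := FN3_mem.1 hv
      omega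
    obtain ⟨R2, hR2R, hR2av, hR2c, hR2s⟩ := hRD9 p a ι ρ c hc ha hd R hR v hvl hvw h2
    refine fin (hFN4 p a ι ha R2 J hR2av (by omega) (fun h => hex ⟨R2, hR2R, h⟩) ?_)
    intro x hx
    rcases hJI x hx with h | ⟨y, hy, h⟩
    · exact Or.inl h
    obtain ⟨y', hy', h'⟩ := hR2s y hy
    exact Or.inr ⟨y', hy', FN9_sim_trans h h'⟩
  -- (3) one orbit
  by_cases hone : ∃ x ∈ R.map (uu (p ^ a) ι), ∃ y ∈ R.map (uu (p ^ a) ι), y ∉ gorb GQ x
  swap
  · push Not at hone
    refine fin (hFN8 p a ι ha R J hR hcard ⟨?_, hJI⟩)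
    intro x hx y hy
    right; right
    obtain ⟨g, hg⟩ := hone _ (Multiset.mem_map_of_mem _ hx) _ (Multiset.mem_map_of_mem _ hy)
    refine ⟨g, ?_⟩
    rw [hd.sim _ _ (hd.weil x (hR.weil x hx) g) (hR.weil y hy), hd.smul x (hR.weil x hx) g, hg]
  -- (4) the classification
  rcases hEQ9 GQ (UU ι) (coreU ι ρ c hc) (R.map (uu (p ^ a) ι)) S' hRK
    (by rw [Multiset.card_map, hR10]) hnz hline hR' hall hsum hS'np hone with
    ⟨x, hx, hy, S1, S2, hS12, h1, h2, h10⟩ | ⟨y, V', m, P, hhex⟩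
  · refine hAL10 p a ι ρ c hc ha hd R J hR hcard hnz hex hJw hJe x hx hy S1 S2 z ?_ h1 ?_ h10 ?_
    · rw [hJ', hS12]
    · intro v hv
      refine ⟨hR' v ?_, h2 v hv⟩
      rw [hS12]
      exact Multiset.mem_add.2 (Or.inr hv)
    · rw [hS12, Multiset.sum_add, h10, zero_add] at hsum
      exact hsum
  · by_cases hz0 : z = 0
    · refine hBE9 p a ι ρ c hc ha hd R J hR hex ?_ hJe hJsum hJnp y V' m P hhex
      intro x hx
      refine ⟨hJw x hx, hR' _ ?_⟩
      have h1 : uu (p ^ a) ι x ∈ J.map (uu (p ^ a) ι) := Multiset.mem_map_of_mem _ hx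
      rw [hJ', hz0, Multiset.replicate_zero, add_zero] at h1
      exact h1
    · exfalso
      have hz1' : z = 1 := by omega
      have hodd : ¬ Even S'.card := by
        rintro ⟨k, hk⟩
        obtain ⟨l, hl⟩ := hJe
        omega
      obtain ⟨⟨u, hu, u', hu', huy⟩, hyS⟩ := hOD10 GQ (UU ι) (coreU ι ρ c hc)
        (R.map (uu (p ^ a) ι)) y V' m P hhex S' hR' hsum hS'np hodd
      have hny : -y ∈ R.map (uu (p ^ a) ι) := by
        rcases hyS with h | h
        · rw [← (coreU ι ρ c hc).cc y, ← hRK.stable (coreU ι ρ c hc).c0]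
          exact Multiset.mem_map_of_mem _ (hR' _ h)
        · exact hR' _ h
      obtain ⟨x, hx, hxu⟩ := Multiset.mem_map.1 (hhex.mul u hu).1
      obtain ⟨x', hx', hxu'⟩ := Multiset.mem_map.1 (hhex.mul u' hu').1
      obtain ⟨w, hw, hwy⟩ := Multiset.mem_map.1 hny
      refine htri ⟨x, hx, x', hx', w, hw, ?_, ?_, ?_, ?_, ?_⟩
      · intro h
        have h1 := (hd.ss x (hR.weil x hx)).1 h
        rw [hxu] at h1
        exact hhex.orbit.nz u hu h1
      · intro h
        have h1 := (hd.ss x' (hR.weil x' hx')).1 h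
        rw [hxu'] at h1
        exact hhex.orbit.nz u' hu' h1
      · intro h
        have h1 := (hd.ss w (hR.weil w hw)).1 h
        rw [hwy] at h1
        exact hhex.line.1 (neg_eq_zero.1 h1)
      · intro g
        have hgw : uu (p ^ a) ι (g w) = g • (-y) := by
          rw [hd.smul w (hR.weil w hw) g, hwy]
        rcases hhex.line.2 g with h | h
        · left
          rw [hd.sim _ _ (hd.weil w (hR.weil w hw) g) (hR.weil w hw), hgw, hwy, smul_neg, h]
        · right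
          have hw2 : ∀ t ∈ ({w, g w} : Multiset Qb), Weil (p ^ a) t := by
            intro t ht
            rw [Multiset.insert_eq_cons, Multiset.mem_cons, Multiset.mem_singleton] at ht
            rcases ht with rfl | rfl
            · exact hR.weil _ hw
            · exact hd.weil w (hR.weil w hw) g
          have h2 := (hd.sum _ hw2).1 (by
            rw [Multiset.insert_eq_cons, Multiset.map_cons, Multiset.map_singleton,
              Multiset.sum_cons, Multiset.sum_singleton, hgw, hwy, smul_neg, h]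
            simp)
          have h3 : Sim ((w * g w) ^ 2) (((p ^ a : ℕ) : Qb) ^ (2 * 1)) := by
            simpa using h2
          simpa using FN2_sim h3
      · have hw3 : ∀ t ∈ ({x, x', w} : Multiset Qb), Weil (p ^ a) t := by
          intro t ht
          rw [Multiset.insert_eq_cons, Multiset.mem_cons, Multiset.insert_eq_cons,
            Multiset.mem_cons, Multiset.mem_singleton] at ht
          rcases ht with rfl | rfl | rfl
          · exact hR.weil _ hx
          · exact hR.weil _ hx'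
          · exact hR.weil _ hw
        have h2 := (hd.sum _ hw3).1 (by
          rw [Multiset.insert_eq_cons, Multiset.map_cons, Multiset.insert_eq_cons,
            Multiset.map_cons, Multiset.map_singleton, Multiset.sum_cons, Multiset.sum_cons,
            Multiset.sum_singleton, hwy, hxu, hxu', ← huy]
          abel)
        have h3 : ({x, x', w} : Multiset Qb).prod = x * x' * w := by
          simp [Multiset.insert_eq_cons, mul_assoc]
        rw [h3] at h2
        exact h2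

end Pool.T4
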