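import Pool.Agent.Work.MP_223b32_t4.Interface9

/-! Block GW9: a line in a relation. -/

set_option autoImplicit false

namespace Pool.T4

open Pool.Agent.Work.MP_223b32_ag

theorem GW9_mem_smul {G U : Type} [Group G] [AddCommGroup U] [Module ℚ U] [DistribMulAction G U]
    {K : Core G U} {R : Multiset U} (hR : IsR K R) (g : G) {v : U} (hv : v ∈ R) : g • v ∈ R := by
  have h1 : (R.map fun v => g • v) = R := hR.stable g
  rw [← h1]
  exact Multiset.mem_map_of_mem _ hv

theorem GW9_neg_mem {G U : Type} [Group G] [AddCommGroup U] [Module ℚ U] [DistribMulAction G U]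
    {K : Core G U} {V : Finset U} {m : ℕ} (hV : IsOrb K V m) {v : U} (hv : v ∈ V) : -v ∈ V := by
  rw [← K.cc v]
  exact hV.stable K.c0 v hv

theorem GW9_self_neg {U : Type} [AddCommGroup U] [Module ℚ U] {v : U} (h : v = -v) : v = 0 := by
  have h3 : (2 : ℚ) • v = 0 := by
    rw [two_smul]
    nth_rewrite 1 [h]
    exact neg_add_cancel v
  exact (smul_eq_zero.mp h3).resolve_left two_ne_zero

theorem GW9_sum_zero {G U : Type} [Group G] [AddCommGroup U] [Module ℚ U] [DistribMulAction G U]
    {K : Core G U} {V : Finset U} {m : ℕ} (hV : IsOrb K V m) : V.sum id = 0 := by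
  have h1 : V.sum id = -V.sum id := by
    rw [← Finset.sum_neg_distrib]
    exact Finset.sum_bij (fun v _ => -v) (fun v hv => GW9_neg_mem hV hv)
      (fun a _ b _ h => neg_injective h) (fun b hb => ⟨-b, GW9_neg_mem hV hb, neg_neg b⟩)
      (fun a _ => by simp)
  exact GW9_self_neg h1

theorem GW9_pos {G U : Type} [Group G] [AddCommGroup U] [Module ℚ U] [DistribMulAction G U]
    {y : U} {V P : Finset U} (hP : Half G y V P) {g : G} (hg : g • y = y) :
    g • P.sum id = P.sum id := by
  have hg' : g⁻¹ • y = y := by
    rw [inv_smul_eq_iff, hg]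
  rw [Finset.smul_sum]
  exact Finset.sum_bij (fun v _ => g • v) (fun v hv => hP.pos g hg v hv)
    (fun a _ b _ h => MulAction.injective g h)
    (fun b hb => ⟨g⁻¹ • b, hP.pos g⁻¹ hg' b hb, smul_inv_smul g b⟩) (fun a _ => rfl)

theorem GW9_negs {G U : Type} [Group G] [AddCommGroup U] [Module ℚ U] [DistribMulAction G U]
    {y : U} {V P : Finset U} (hP : Half G y V P) {g : G} (hg : g • y = -y) :
    g • P.sum id = -P.sum id := by
  have hg' : g⁻¹ • y = -y := by
    rw [inv_smul_eq_iff, smul_neg, hg, neg_neg]
  rw [Finset.smul_sum, ← Finset.sum_neg_distrib]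
  refine Finset.sum_bij (fun v _ => -(g • v)) (fun v hv => hP.neg g hg v hv)
    (fun a _ b _ h => MulAction.injective g (neg_injective h))
    (fun b hb => ⟨-(g⁻¹ • b), hP.neg g⁻¹ hg' b hb, ?_⟩) (fun a _ => ?_)
  · rw [smul_neg, neg_neg, smul_inv_smul]
  · change g • a = -(-(g • a))
    rw [neg_neg]

theorem p_GW9 (h1 : Stmt_AV9) (h2 : Stmt_OF9) (h3 : Stmt_HS9) (h4 : Stmt_LL9) (h5 : Stmt_LNE)
    (h6 : Stmt_OF4) : Stmt_GW9 := by
  classical
  intro G U _ _ _ _ K R S hR hcard hnz _ hSR hS0 hNP y hyS hy hwy
  by_contra hcon
  have hy0 : y ≠ 0 := hy.1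
  have hyny : y ≠ -y := fun h => hy0 (GW9_self_neg h)
  have hyR := hSR y hyS
  obtain ⟨A, hA1, hA2⟩ := h1 G U (MulAction.stabilizer G y) R.toFinset (by
    intro h _ x hx
    rw [Multiset.mem_toFinset] at hx ⊢
    exact GW9_mem_smul hR h hx)
  have hAy : A y = y := hA1 y fun h hh => hh
  have hcl : ∀ v ∈ S, v ≠ y → v ≠ -y → A v = 0 := by
    intro v hvS hvy hvny
    have hvR := hSR v hvS
    have hyo : y ∉ gorb G v := by
      rintro ⟨g, hg⟩
      have hv : v = g⁻¹ • y := by rw [hg, inv_smul_smul]
      rcases hy.2 g⁻¹ with h | h
      · exact hvy (hv.trans h)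
      · exact hvny (hv.trans h)
    obtain ⟨W, hW, hWm, hWR, hWe, hvW⟩ := h2 G U K R hR hcard hnz v hvR ⟨y, hyR, hyo⟩
    have hyW : y ∉ W := fun h => hyo ((hWm y).1 h)
    have hnyW : -y ∉ W := fun h => hyW (by
      have h' := GW9_neg_mem hW h
      rwa [neg_neg] at h')
    have hWX : W ⊆ R.toFinset := fun u hu => Multiset.mem_toFinset.2 (hWR u hu).1
    rcases h3 G U K W (cnt v R) hW y hy with hT | ⟨P, hP⟩
    · have e1 := hA2 W hWX (fun u hu u' hu' => by
        obtain ⟨g, hg1, hg2⟩ := hT u hu u' hu'
        exact ⟨g, MulAction.mem_stabilizer_iff.2 hg1, hg2⟩)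
        (fun g _ u hu => hW.stable g u hu) v hvW
      rw [GW9_sum_zero hW] at e1
      exact (smul_eq_zero.1 e1).resolve_left
        (Nat.cast_ne_zero.2 (Finset.card_ne_zero.2 hW.ne))
    · by_contra hAv
      have hvP : v ∈ P ∨ -v ∈ P := by
        by_cases h : -v ∈ P
        · exact Or.inr h
        · exact Or.inl ((hP.half v hvW).2 h)
      have hPn : P.Nonempty := by
        rcases hvP with h | h
        · exact ⟨v, h⟩
        · exact ⟨-v, h⟩
      have hAP : ∀ u ∈ P, (P.card : ℚ) • A u = P.sum id :=
        hA2 P (hP.sub.trans hWX) (fun u hu u' hu' => by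
          obtain ⟨g, hg1, hg2⟩ := hP.tra u hu u' hu'
          exact ⟨g, MulAction.mem_stabilizer_iff.2 hg1, hg2⟩)
          (fun g hg u hu => hP.pos g (MulAction.mem_stabilizer_iff.1 hg) u hu)
      have hσ : P.sum id ≠ 0 := by
        intro h0
        have hz : ∀ u ∈ P, A u = 0 := fun u hu => by
          have e := hAP u hu
          rw [h0] at e
          exact (smul_eq_zero.1 e).resolve_left
            (Nat.cast_ne_zero.2 (Finset.card_ne_zero.2 hPn))
        rcases hvP with h | h
        · exact hAv (hz v h)
        · have e := hz _ h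
          rw [map_neg, neg_eq_zero] at e
          exact hAv e
      have hno : ¬ 6 ≤ cnt v R * W.card := fun h =>
        hcon ⟨W, P, cnt v R, hW, h, hWR, hyW, hP, hσ⟩
      have hWc : 0 < W.card := hW.ne.card_pos
      have hmp := hW.m_pos
      obtain ⟨k, hk⟩ := hWe
      rw [hk] at hno
      have hk' : k = 1 ∨ k = 2 := by
        have h7 : k < 3 := by
          by_contra hk3
          apply hno
          calc 6 ≤ 1 * (k + k) := by omega
            _ ≤ cnt v R * (k + k) := Nat.mul_le_mul_right _ hmp
        omega
      rcases hk' with rfl | rfl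
      · obtain ⟨u, hu⟩ := hPn
        have huW := hP.sub hu
        have hnu : -u ∉ P := (hP.half u huW).1 hu
        have hnuW := GW9_neg_mem hW huW
        have hune : u ≠ -u := fun h => hW.nz u huW (GW9_self_neg h)
        have hWeq : ({u, -u} : Finset U) = W := by
          apply Finset.eq_of_subset_of_card_le
          · intro x hx
            rw [Finset.mem_insert, Finset.mem_singleton] at hx
            rcases hx with rfl | rfl
            · exact huW
            · exact hnuW
          · rw [Finset.card_pair hune]
            omega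
        have hPu : ∀ x ∈ P, x = u := by
          intro x hx
          have hxW := hP.sub hx
          rw [← hWeq, Finset.mem_insert, Finset.mem_singleton] at hxW
          rcases hxW with h | h
          · exact h
          · rw [h] at hx
            exact absurd hx hnu
        have hg1 : ∀ g : G, g • y = y → g • u = u := fun g hg => hPu _ (hP.pos g hg u hu)
        have hg2 : ∀ g : G, g • y = -y → g • u = -u := fun g hg =>
          neg_eq_iff_eq_neg.1 (hPu _ (hP.neg g hg u hu))
        have hLu : Line G u := ⟨hW.nz u huW, fun g => (hy.2 g).imp (hg1 g) (hg2 g)⟩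
        obtain ⟨hwu, hDu⟩ := h5 G U K u hLu
        have horb : orb K.D u = {u} := by
          ext x
          constructor
          · rintro ⟨d, hd, rfl⟩
            exact hDu d hd
          · intro hx
            rw [Set.mem_singleton_iff] at hx
            exact ⟨1, K.D.one_mem, by rw [hx, one_smul]⟩
        obtain ⟨n, hn⟩ := hW.ht u huW
        rw [horb, Set.ncard_singleton, mul_one] at hn
        have hle := abs_le.1 (hW.le_one u huW)
        have hm : cnt v R = 1 ∨ cnt v R = 2 := by omega
        have hwu1 : K.w u = 1 ∨ K.w u = -1 := by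
          rcases hm with e | e
          · rw [e] at hn
            push_cast at hn
            have hn1 : n ≤ 1 := by
              have : (n : ℝ) ≤ 1 := by linarith [hle.2]
              exact_mod_cast this
            interval_cases n
            · right
              push_cast at hn
              linarith
            · left
              push_cast at hn
              linarith
          · rw [e] at hn
            push_cast at hn
            have hn2 : n ≤ 2 := by
              have : (n : ℝ) ≤ 2 := by linarith [hle.2]
              exact_mod_cast this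
            interval_cases n
            · right
              push_cast at hn
              linarith
            · exfalso
              apply hwu
              push_cast at hn
              linarith
            · left
              push_cast at hn
              linarith
        have hcase : K.w u = K.w y ∨ K.w u = -K.w y := by
          rcases hwu1 with e | e <;> rcases hwy with e' | e' <;> rw [e, e'] <;> simp
        rcases hcase with e | e
        · have h8 := h4 G U K y u hy hg1 hg2 1 (by rw [e]; push_cast; ring)
          rw [one_smul] at h8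
          rw [h8] at huW
          exact hyW huW
        · have h8 := h4 G U K y u hy hg1 hg2 (-1) (by rw [e]; push_cast; ring)
          rw [neg_smul, one_smul] at h8
          rw [h8] at huW
          exact hnyW huW
      · have hm1 : cnt v R = 1 := by omega
        rw [hm1] at hW
        exact h6 G U K W hW hk (P.sum id)
          ⟨hσ, fun g => (hy.2 g).imp (fun h => GW9_pos hP h) (fun h => GW9_negs hP h)⟩
          (Submodule.sum_mem _ fun x hx => Submodule.subset_span (hP.sub hx))
  have hsum : (S.map A).sum = 0 := by
    rw [← map_multiset_sum, hS0, map_zero]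
  have hns : ∀ v ∈ S, v ≠ -y := by
    intro v hv hvy
    refine hNP y (-y) ?_ (add_neg_cancel y)
    rw [hvy] at hv
    have hnd : ({y, -y} : Multiset U).Nodup := by
      rw [Multiset.insert_eq_cons, Multiset.nodup_cons, Multiset.mem_singleton]
      exact ⟨hyny, Multiset.nodup_singleton _⟩
    rw [Multiset.le_iff_subset hnd]
    intro x hx
    rw [Multiset.insert_eq_cons, Multiset.mem_cons, Multiset.mem_singleton] at hx
    rcases hx with rfl | rfl
    · exact hyS
    · exact hv
  rw [Finset.sum_multiset_map_count] at hsum
  rw [Finset.sum_eq_single_of_mem y (Multiset.mem_toFinset.2 hyS) (fun v hv hvy => by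
    rw [hcl v (Multiset.mem_toFinset.1 hv) hvy (hns v (Multiset.mem_toFinset.1 hv)), smul_zero]),
    hAy, ← Nat.cast_smul_eq_nsmul ℚ] at hsum
  rcases smul_eq_zero.1 hsum with h | h
  · rw [Nat.cast_eq_zero] at h
    exact (Multiset.count_pos.2 hyS).ne' h
  · exact hy0 h

end Pool.T4
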