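import Pool.Agent.Work.MP_223b32_t4.InterfaceV
import Pool.Agent.Work.MP_223b32_t4.EQW

/-! # Block HFV: an element of order five makes two relations proportional -/

namespace Pool.T4

theorem p_HFV : Stmt_HFV := by
  classical
  intro G U _ _ _ _ K R hK hcard x hx hox hg V hV f h' hf hh
  have hst : ∀ h : G, ∀ v ∈ R, h • v ∈ R := by
    intro h v hv
    have h2 : h • v ∈ tr h R := Multiset.mem_map_of_mem _ hv
    rw [hK.stable h] at h2
    exact h2
  have hsub : gorb G x ⊆ (R.toFinset : Set U) := by
    rintro u ⟨g, rfl⟩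
    rw [Finset.mem_coe, Multiset.mem_toFinset]
    exact hst g x hx
  have hle := Multiset.toFinset_card_le R
  have hge : 12 ≤ R.toFinset.card := by
    rw [← hox, ← Set.ncard_coe_finset]
    exact Set.ncard_le_ncard hsub (Finset.finite_toSet _)
  have hRc : R.card = 12 := by omega
  have hRf : R.toFinset.card = 12 := by omega
  have hnd : R.Nodup := by
    rw [← Multiset.toFinset_card_eq_card_iff_nodup]
    omega
  have heq : gorb G x = (R.toFinset : Set U) := by
    apply Set.eq_of_subset_of_ncard_le hsub _ (Finset.finite_toSet _)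
    rw [hox, Set.ncard_coe_finset, hRf]
  have horb : ∀ v ∈ R, ∃ g : G, v = g • x := by
    intro v hv
    have h : v ∈ gorb G x := by
      rw [heq, Finset.mem_coe, Multiset.mem_toFinset]
      exact hv
    exact h
  have hx0 : x ≠ 0 := by
    intro h0
    have h2 : gorb G x = {0} := by
      ext u
      rw [Set.mem_singleton_iff]
      constructor
      · rintro ⟨g, rfl⟩
        rw [h0, smul_zero]
      · intro h
        refine ⟨1, ?_⟩
        rw [one_smul, h, h0]
    rw [h2, Set.ncard_singleton] at hox
    norm_num at hox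
  have hR : EQW_R G R :=
    { st := hst
      neg := by
        intro v hv
        rw [← K.cc v]
        exact hst _ v hv
      card := hRc
      nz := by
        intro v hv
        obtain ⟨g, rfl⟩ := horb v hv
        exact (smul_ne_zero_iff_ne g).2 hx0
      nd := hnd }
  have htr : ∀ u ∈ R, ∀ v ∈ R, ∃ h : G, h • u = v := by
    intro u hu v hv
    obtain ⟨g, rfl⟩ := horb u hu
    obtain ⟨g', rfl⟩ := horb v hv
    exact ⟨g' * g⁻¹, by rw [mul_smul, inv_smul_smul]⟩
  obtain ⟨g, ⟨v, hv, h1⟩, h5⟩ := hg
  have habs := EQW_abs hR htr g v hv h5 h1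
  obtain rfl : V = R.toFinset := by
    ext u
    rw [Multiset.mem_toFinset]
    exact hV u
  have hout : ∀ u : U, u ∉ R → f u = 0 ∧ h' u = 0 := by
    intro u hu
    have hu' : u ∉ R.toFinset := fun h => hu (Multiset.mem_toFinset.1 h)
    exact ⟨hf.2.1 u hu', hh.2.1 u hu'⟩
  have hlin := habs _ (EQW_lin R.toFinset f h' hf hh (h' v) (f v))
  have hvan : ∀ u : U, h' v * f u = f v * h' u := by
    intro u
    by_cases hu : u ∈ R
    · have h2 := hlin u hu
      have h3 : h' v * f v - f v * h' v = 0 := by ring
      rw [h3, abs_zero, abs_eq_zero] at h2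
      exact sub_eq_zero.1 h2
    · rw [(hout u hu).1, (hout u hu).2, mul_zero, mul_zero]
  intro u w
  by_cases h0 : f v = 0
  · have hz : ∀ u : U, f u = 0 := by
      intro u
      by_cases hu : u ∈ R
      · have h2 := habs f hf u hu
        rw [h0, abs_zero, abs_eq_zero] at h2
        exact h2
      · exact (hout u hu).1
    rw [hz u, hz w, zero_mul, zero_mul]
  · apply mul_left_cancel₀ h0
    have e1 := hvan u
    have e2 := hvan w
    calc f v * (f u * h' w) = f u * (f v * h' w) := by ring
      _ = f u * (h' v * f w) := by rw [e2]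
      _ = f w * (h' v * f u) := by ring
      _ = f w * (f v * h' u) := by rw [e1]
      _ = f v * (f w * h' u) := by ring

end Pool.T4
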