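import Pool.Agent.Work.MP_223b32_t4.Interface9

/-! # Block HS9: the orbits of the stabilizer of a line -/

namespace Pool.T4

open Pool.Agent.Work.MP_223b32_ag

theorem p_HS9 : Stmt_HS9 := by
  classical
  intro G U _ _ _ _ K V m hV y hy
  obtain ⟨v0, hv0⟩ := hV.ne
  have hneg : ∀ v ∈ V, -v ∈ V := by
    intro v hv
    have h := hV.stable K.c0 v hv
    rwa [K.cc v] at h
  -- the set `P`
  set P : Finset U := V.filter fun v => ∃ h : G, h • y = y ∧ h • v0 = v with hP
  have memP : ∀ v, v ∈ P ↔ v ∈ V ∧ ∃ h : G, h • y = y ∧ h • v0 = v := by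
    intro v; rw [hP, Finset.mem_filter]
  have hPV : ∀ h : G, h • y = y → h • v0 ∈ P := fun h hh =>
    (memP _).2 ⟨hV.stable h v0 hv0, h, hh, rfl⟩
  have inv_fix : ∀ h : G, h • y = y → h⁻¹ • y = y := by
    intro h hh
    rw [inv_smul_eq_iff]; exact hh.symm
  have mul_fix : ∀ g h : G, g • y = y → h • y = y → (g * h) • y = y := by
    intro g h hg hh
    rw [mul_smul, hh, hg]
  have neg_c0 : ∀ g : G, g • y = -y → (g * K.c0) • y = y := by
    intro g hg
    rw [mul_smul, K.cc, smul_neg, hg, neg_neg]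
  have gc0 : ∀ (g : G) (v : U), (g * K.c0) • v = -(g • v) := by
    intro g v
    rw [mul_smul, K.cc, smul_neg]
  have stabP : ∀ g : G, g • y = y → ∀ v ∈ P, g • v ∈ P := by
    intro g hg v hv
    obtain ⟨_, h, hh, hh2⟩ := (memP v).1 hv
    rw [← hh2, ← mul_smul]
    exact hPV _ (mul_fix g h hg hh)
  -- for each vector of `V` one of `v`, `-v` is in `P`
  have cover : ∀ v ∈ V, v ∈ P ∨ -v ∈ P := by
    intro v hv
    obtain ⟨g, hg⟩ := hV.trans v0 hv0 v hv
    rcases hy.2 g with h | h
    · left; rw [← hg]; exact hPV g h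
    · right
      rw [← hg, ← gc0]
      exact hPV _ (neg_c0 g h)
  by_cases hn : -v0 ∈ P
  · left
    obtain ⟨_, h0, hh0, hh02⟩ := (memP _).1 hn
    have negP : ∀ v ∈ P, -v ∈ P := by
      intro v hv
      obtain ⟨_, h, hh, hh2⟩ := (memP v).1 hv
      have : -v = (h * h0) • v0 := by
        rw [mul_smul, hh02, smul_neg, hh2]
      rw [this]
      exact hPV _ (mul_fix h h0 hh hh0)
    have all : ∀ v ∈ V, v ∈ P := by
      intro v hv
      rcases cover v hv with h | h
      · exact h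
      · have := negP _ h
        rwa [neg_neg] at this
    intro u hu v hv
    obtain ⟨_, a, ha, ha2⟩ := (memP u).1 (all u hu)
    obtain ⟨_, b, hb, hb2⟩ := (memP v).1 (all v hv)
    refine ⟨b * a⁻¹, mul_fix b a⁻¹ hb (inv_fix a ha), ?_⟩
    rw [← ha2, ← hb2, mul_smul, inv_smul_smul]
  · right
    have notboth : ∀ v, v ∈ P → -v ∈ P → False := by
      intro v hv hv'
      obtain ⟨_, a, ha, ha2⟩ := (memP v).1 hv
      obtain ⟨_, b, hb, hb2⟩ := (memP (-v)).1 hv'
      apply hn
      have : -v0 = (a⁻¹ * b) • v0 := by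
        rw [mul_smul, hb2, smul_neg, ← ha2, inv_smul_smul]
      rw [this]
      exact hPV _ (mul_fix a⁻¹ b (inv_fix a ha) hb)
    refine ⟨P, ?_, ?_, stabP, ?_, ?_⟩
    · intro v hv; exact ((memP v).1 hv).1
    · intro v hv
      constructor
      · intro h h'; exact notboth v h h'
      · intro h
        rcases cover v hv with h1 | h1
        · exact h1
        · exact absurd h1 h
    · intro g hg v hv
      rw [← gc0]
      exact stabP _ (neg_c0 g hg) v hv
    · intro u hu v hv
      obtain ⟨_, a, ha, ha2⟩ := (memP u).1 hu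
      obtain ⟨_, b, hb, hb2⟩ := (memP v).1 hv
      refine ⟨b * a⁻¹, mul_fix b a⁻¹ hb (inv_fix a ha), ?_⟩
      rw [← ha2, ← hb2, mul_smul, inv_smul_smul]

end Pool.T4
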