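import Pool.Agent.Work.MP_223b32_t4.Interface9
import Pool.Agent.Work.MP_223b32_t4.DefsTri

/-!
# Interface of the blocks for powers times supersingular in dimension five (helper56)
-/

namespace Pool.T4

open Pool.Agent.Work.MP_223b32_ag

/-- (OD10) a relation with an odd number of vectors

Proof. DT9: `m * P.card = 4`, `m ∈ {1, 2, 4}`, `V.card = 2 * P.card`.
`y` or `-y` is in `S`: otherwise `S` is supported in `V` (`Hex.mem`), `S ≠ 0` (odd card), EQC: `S = t • J`,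
`2 * J.card = V.card`, `J.card = 3` or `4`; `V.card` is `8`, `4` or `2`, so `J.card = 4`, `S.card` even: no.
`m = 4`: `P = {a}`, `4 • a = 2 • y`, so `a + a = y`. `m = 2`: `P = {a, b}`, `2 • (a + b) = 2 • y`, so `a + b = y`.
`m = 1`: `P = {v1, v2, v3, v4}`, `v1 + v2 + v3 + v4 = 2 • y`. `c_i = cnt v_i S - cnt (-v_i) S`, `c = cnt y S - cnt (-y) S`
(integers): `∑ c_i • v_i + c • y = 0`, `S.card ≡ ∑ c_i + c` mod `2`.
(*) If integers `f_i`, not all `0`, satisfy `∑ f_i • v_i = 0`, then (EQC for the multiset of `|f_i|` copies of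
`± v_i`, `± ` the sign of `f_i`) all `|f_i|` are the same number `t > 0`: `f_i = t * e_i`, `e_i = ± 1`, `∑ e_i • v_i = 0`.
All `e_i` equal: `2 • y = ± 0`: no. Three equal, say `v1 + v2 + v3 = v4`: `2 • v4 = 2 • y`, `y = v4 ∈ V`: no (`Hex.ny`). So two
are `1` and two are `-1`: `∑ f_i = 0` and, say, `v1 + v2 = v3 + v4`, `2 • (v1 + v2) = 2 • y`, `v1 + v2 = y`.
`f_i = 2 * c_i + c` satisfies `∑ f_i • v_i = 2 • (-(c • y)) + c • (2 • y) = 0`. If `c` is odd the `f_i` are not `0` and (*)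
proves the assertion. If `c = 2 c'`: `f'_i = c_i + c'`, `∑ f'_i • v_i = 0`; if all `f'_i = 0` then `∑ c_i = -4 c'`; otherwise
(*) gives `∑ f'_i = 0`, again `∑ c_i = -4 c'`. So `S.card` is even: no. -/
def Stmt_OD10 : Prop :=
  ∀ (G U : Type) [Group G] [AddCommGroup U] [Module ℚ U] [DistribMulAction G U] (K : Core G U)
    (R : Multiset U) (y : U) (V : Finset U) (m : ℕ) (P : Finset U), Hex K R y V m P →
    ∀ S : Multiset U, (∀ v ∈ S, v ∈ R) → S.sum = 0 → NoPair S → ¬ Even S.card →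
    (∃ u ∈ V, ∃ u' ∈ V, u + u' = y) ∧ (y ∈ S ∨ -y ∈ S)

/-- (AL10) the first alternative, with supersingular elements

Proof. As AL9: `V` = the set of the vectors of `R` in `gorb GQ x`, `V'` = the set of the others, both stable. SAV: `R1`,
`R2`. Both have at most `9` elements, and an even number (PR9 for `R1.map uu`: `IsAV.stable`, `HTC`), so at most `8`.
`R1, R2 ≤ R`, so they are not `Exc4`. `J = A + B + Z` with `A.map uu = S1`, `B.map uu = S2`, `Z.map uu = replicate z 0`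
(`FN2_lift` twice or `Multiset.map_eq_add`); the elements of `Z` are supersingular (`Dict.ss`). Let `s^2 = q`
(`CYD_sqrt`), `e = A.card % 2`. FN4 for `R1`, `T = A + replicate e s` and for `R2`, `T = B + Z + replicate e s`, both of
even card with vector sum `0` (`Dict.sum`: `Sim T.prod (q^j)`): both are in `Cyc`. `join`, and if `e = 1` `cancel` of
`{s, s}`. -/
def Stmt_AL10 : Prop :=
  ∀ (p : ℕ) [Fact p.Prime] (a : ℕ) (ι : Qb →+* PadicAlgCl p) (ρ : Qb →+* ℂ) (c : GQ)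
    (_ : IsConj c ρ), 0 < a → Dict (p ^ a) ι → ∀ R J : Multiset Qb, IsAV (p ^ a) ι R →
    R.card ≤ 10 → (∀ v ∈ R.map (uu (p ^ a) ι), v ≠ 0) → (¬ ∃ R1 ≤ R, Exc4 (p ^ a) R1) →
    (∀ x ∈ J, Weil (p ^ a) x) → Even J.card →
    ∀ x ∈ R.map (uu (p ^ a) ι), (∃ y ∈ R.map (uu (p ^ a) ι), y ∉ gorb GQ x) →
    ∀ (S1 S2 : Multiset (UU ι)) (z : ℕ),
    J.map (uu (p ^ a) ι) = S1 + S2 + Multiset.replicate z 0 → (∀ v ∈ S1, v ∈ gorb GQ x) →
    (∀ v ∈ S2, v ∈ R.map (uu (p ^ a) ι) ∧ v ∉ gorb GQ x) → S1.sum = 0 → S2.sum = 0 →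
    Cyc (p ^ a) ι J

/-- (FN10) all powers, times supersingular, in dimension at most five

Proof. As FN9 (see `FN9.lean`), with `FN2_split` for `J.map uu = S' + replicate z 0`, `z ≤ 1`. In the first alternative of
EQ9 (for `S'`) AL10. In the second: if `z = 0` BE9; if `z = 1` then `S'.card` is odd and OD10 gives `Tri`. -/
def Stmt_FN10 : Prop :=
  ∀ (p : ℕ) [Fact p.Prime] (a : ℕ) (ι : Qb →+* PadicAlgCl p), 0 < a →
    ∀ R T : Multiset Qb, IsAV (p ^ a) ι R → R.card ≤ 10 → (¬ ∃ R1 ≤ R, Exc4 (p ^ a) R1) →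
      ¬ Tri (p ^ a) R → PowOf (p ^ a) R T → TateProp (p ^ a) ι T

end Pool.T4
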