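import Pool.Agent.Work.MP_223b32_t4.Interface8

/-!
# Interface of the blocks for all powers of all abelian varieties of dimension five (helper56)

`R` (ten nonzero vectors) consists of at least two orbits and there is a relation which uses all of them and
which is not a sum of relations with smaller support.  Then there are exactly two orbits: a line `{y, -y}` of
weight `± 1` and an orbit `V` with `m * V.card = 8`; `V` is the union of `P` and `-P` (`P` an orbit of the
stabilizer of `y`) and `m • (sum of P) = 2 • y`: the Weil classes of an abelian variety of dimension six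
`A × E × E`.  The relations which contain `y` an even number of times are sums of this one and of
relations in `V`.

In this file the equality `-V = V` for an orbit `V` is always clear: `K.c0 • v = -v`.
-/

namespace Pool.T4

open Pool.Agent.Work.MP_223b32_ag

/-- `V` is the union of `P` and `-P`; `P` is an orbit of the stabilizer of `y`. -/
structure Half (G : Type) {U : Type} [Group G] [AddCommGroup U] [DistribMulAction G U]
    (y : U) (V P : Finset U) : Prop where
  sub : P ⊆ V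
  half : ∀ v ∈ V, v ∈ P ↔ -v ∉ P
  pos : ∀ g : G, g • y = y → ∀ v ∈ P, g • v ∈ P
  neg : ∀ g : G, g • y = -y → ∀ v ∈ P, -(g • v) ∈ P
  tra : ∀ u ∈ P, ∀ v ∈ P, ∃ g : G, g • y = y ∧ g • u = v

/-- The vectors `R` of `A × E × ..`, with the relation `m • (sum of P) = 2 • y`. -/
structure Hex {G U : Type} [Group G] [AddCommGroup U] [Module ℚ U] [DistribMulAction G U]
    (K : Core G U) (R : Multiset U) (y : U) (V : Finset U) (m : ℕ) (P : Finset U) : Prop where
  line : Line G y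
  wy : K.w y = 1 ∨ K.w y = -1
  orbit : IsOrb K V m
  card : m * V.card = 8
  ny : y ∉ V
  half : Half G y V P
  sum : m • P.sum id = 2 • y
  mem : ∀ v ∈ R, v ∈ V ∨ v = y ∨ v = -y
  mul : ∀ v ∈ V, v ∈ R ∧ cnt v R = m

/-- (PR9) parity

Proof. `tr K.c0 M = ng M` (`K.cc`). Strong induction on the card: if `v ∈ M` then `-v ∈ M`, `v ≠ -v`
(`v ≠ 0`, `U` is a rational vector space), `M = {v, -v} + M'` and `M'` has the same properties. -/
def Stmt_PR9 : Prop :=
  ∀ (G U : Type) [Group G] [AddCommGroup U] [Module ℚ U] [DistribMulAction G U] (K : Core G U)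
    (M : Multiset U), tr K.c0 M = M → (∀ v ∈ M, v ≠ 0) → Even M.card

/-- (OF9) the orbit of a vector in `R`

Proof. As OFS (`OFS.lean`): `V` is the set of the elements of `R.toFinset` in `gorb G x`, all have the same
multiplicity `m = cnt x R` (`IsR.stable`). `m * V.card` is the number of elements of `R` in `gorb G x`, and one
element of `R` is not in it, so `m * V.card ≤ 9`; `V.card` is even (`v ↦ -v` has no fixed point on `V`), so
`m * V.card ≤ 8`. -/
def Stmt_OF9 : Prop :=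
  ∀ (G U : Type) [Group G] [AddCommGroup U] [Module ℚ U] [DistribMulAction G U] (K : Core G U)
    (R : Multiset U), IsR K R → R.card ≤ 10 → (∀ v ∈ R, v ≠ 0) → ∀ x ∈ R,
    (∃ y ∈ R, y ∉ gorb G x) →
    ∃ V : Finset U, IsOrb K V (cnt x R) ∧ (∀ v, v ∈ V ↔ v ∈ gorb G x) ∧
      (∀ v ∈ V, v ∈ R ∧ cnt v R = cnt x R) ∧ Even V.card ∧ x ∈ V

/-- (AV9) averaging over a subgroup

Proof. `H` acts on the finite set `X` (a subtype); let `Q` be the image of `H` in `Equiv.Perm X` (a finite group)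
and `s π ∈ H` an element with image `π`. `A u = (1 / card Q) • ∑ π ∈ Q, s π • u` (additive, so `ℚ`-linear:
`AddMonoidHom.toRatLinearMap`). First property: clear. Second: for `v, v' ∈ O` the number of `π ∈ Q` with
`π v = v'` is a number `k` which does not depend on `v'` (multiply by a `π0` with `π0 v = v'`; it exists), so
`card Q = k * O.card` and `∑ π v = k • O.sum id`. -/
def Stmt_AV9 : Prop :=
  ∀ (G U : Type) [Group G] [AddCommGroup U] [Module ℚ U] [DistribMulAction G U] (H : Subgroup G)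
    (X : Finset U), (∀ h ∈ H, ∀ x ∈ X, h • x ∈ X) →
    ∃ A : U →ₗ[ℚ] U, (∀ u : U, (∀ h ∈ H, h • u = u) → A u = u) ∧
      ∀ O : Finset U, O ⊆ X → (∀ u ∈ O, ∀ v ∈ O, ∃ h ∈ H, h • u = v) →
        (∀ h ∈ H, ∀ v ∈ O, h • v ∈ O) → ∀ v ∈ O, (O.card : ℚ) • A v = O.sum id

/-- (HS9) the orbits of the stabilizer of a line

Proof. Let `H` be the set of the `g` with `g • y = y`; `g • y = -y` otherwise, also `c0 • y = -y`, so `g * c0 ∈ H` for
`g ∉ H`. Take `v0 ∈ V` and let `P` be the set of the `h • v0`, `h ∈ H`. For `v = g • v0 ∈ V` either `g ∈ H`, `v ∈ P`, or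
`g * c0 ∈ H` and `-v = (g * c0) • v0 ∈ P`. If `-v0 ∈ P` then `-P ⊆ P` (`-(h • v0) = h • (-v0)`), so `P = V` and the
first alternative holds. Otherwise the second: if `v` and `-v` are in `P`, `v = h • v0`, `-v = h' • v0`, then
`-v0 = h⁻¹ • (-v) ∈ P`. `neg`: `g ∉ H`: `-(g • v) = (g * c0) • v`. -/
def Stmt_HS9 : Prop :=
  ∀ (G U : Type) [Group G] [AddCommGroup U] [Module ℚ U] [DistribMulAction G U] (K : Core G U)
    (V : Finset U) (m : ℕ), IsOrb K V m → ∀ y : U, Line G y →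
    (∀ u ∈ V, ∀ v ∈ V, ∃ g : G, g • y = y ∧ g • u = v) ∨ ∃ P : Finset U, Half G y V P

/-- (LL9) two vectors with the same character

Proof. `K.kron` for `z - e • y`: `g • (z - e • y) = ± (z - e • y)`, and `w (z - e • y) = w z - e * w y = 0`
(`K.w` is additive, so compatible with rational factors: `map_ratCast_smul` or `map_rat_smul`). -/
def Stmt_LL9 : Prop :=
  ∀ (G U : Type) [Group G] [AddCommGroup U] [Module ℚ U] [DistribMulAction G U] (K : Core G U)
    (y z : U), Line G y → (∀ g : G, g • y = y → g • z = z) → (∀ g : G, g • y = -y → g • z = -z) →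
    ∀ e : ℚ, K.w z = (e : ℝ) * K.w y → z = e • y

/-- (XM9) the sum of a half

Proof. `σ = P.sum id`; `g • σ = σ` if `g • y = y`, `g • σ = -σ` if `g • y = -y` (`Half.pos`, `Half.neg`: `v ↦ g • v` resp.
`v ↦ -(g • v)` is an injective map `P → P`, so a bijection). `V` is the disjoint union of `P` and `-P`, so
`2 * P.card = V.card`, `m * P.card = 4`. By LNE `D` fixes `y`, so `D` acts on `P`, and there is a natural number `N`
with `∑ v ∈ P, m * (w v + 1) = 2 * N`: for a `D`-orbit `O ⊆ P` of `v` the sum over `O` is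
`m * (orb D v).ncard * (w v + 1) = 2 * n` (`wD`, `IsOrb.ht`); strong induction on the card of a `D`-stable subset of `P`
(remove one orbit). So `m * w σ = 2 * N - 4`, and `|m * w σ| ≤ 4` (`le_one`): `m * w σ ∈ {-4, -2, 0, 2, 4}`.
`0`: `w (g • σ) = ± w σ = 0` for all `g`, so `σ = 0`: no. `± 4 = ± m * P.card`: all `w v = e` for `v ∈ P`, with the same
`e = ± 1`. Take `v ∈ P`. `w (g • v) = e` if `g • y = y` (`g • v ∈ P`), `w (g • v) = -e` if `g • y = -y`. With
`e' = e * w y = ± 1`: `w (g • (v - e' • y)) = 0` for all `g`, so `v = ± y` (`kron`), `y ∈ V` (`-V = V`): no.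
`± 2`: LL9 for `z = m • σ` and `e = ± 2` (`w (m • σ) = e * w y`). -/
def Stmt_XM9 : Prop :=
  ∀ (G U : Type) [Group G] [AddCommGroup U] [Module ℚ U] [DistribMulAction G U] (K : Core G U)
    (V P : Finset U) (m : ℕ) (y : U), IsOrb K V m → m * V.card = 8 → Line G y →
    (K.w y = 1 ∨ K.w y = -1) → y ∉ V → Half G y V P → P.sum id ≠ 0 →
    m • P.sum id = 2 • y ∨ m • P.sum id = -(2 • y)

/-- (RA9) an orbit of four elements and an orbit of six elements

Proof. Suppose `p = S1.sum ≠ 0`, `S2.sum = -p`.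
(h) There is `h : G` which is trivial on `V` and acts on `W` with two cycles of length three `C`, `-C` (and
`h^3 = 1` on `W`): `G` acts transitively on `W` (six elements), so `3` divides the order of the image of `G` in
`Equiv.Perm W`, and Cauchy gives `g : G` whose image has order three. `g` permutes the three pairs `{w, -w}`. If
`g w = w` for some `w ∈ W` then also `g (-w) = -w`, four elements remain, and `g` would be a three-cycle on them
with one fixed point `u`, but then `-u` is a fixed point as well: so `g = 1` on `W`, no. So `W` is the union of two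
cycles `C`, `C'`; `-C` is a cycle, and `-C ≠ C` (`v ↦ -v` has no fixed point on the set `C` of three elements), so
`C' = -C`. Let `h = g^4`: `h = g` on `W`. On `V = {a, -a, b, -b}`: `g^2 a = ± a` (`g a = ± a` or `± b`; in the second
case `g b = ± a` because `g` is injective and `g (± a) = ± b`), so `g^4 = 1` on `V`.
(s) `C = {c, h c, h^2 c}`, `σ = C.sum`. `(1 + h + h^2) u = σ` for `u ∈ C` and `= -σ` for `u ∈ -C`. Apply
`1 + h + h^2` to `S1.sum + S2.sum = 0`: `3 • p + n • σ = 0`, `n` an integer, so `n ≠ 0`, `σ ≠ 0`.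
(l) For `k : G` the element `k h k⁻¹` has the same properties with `k C`: `3 • p + n' • (k • σ) = 0`, so
`k • σ = ρ • σ` with `ρ = n / n'` rational. Some power `k^N`, `N > 0`, acts trivially on `W`, so `ρ^N = 1`, `ρ = ± 1`. So
`σ` is a `Line`, and `σ = -(3 / n) • p` is in the span of `V`: contradiction to OF4. -/
def Stmt_RA9 : Prop :=
  ∀ (G U : Type) [Group G] [AddCommGroup U] [Module ℚ U] [DistribMulAction G U] (K : Core G U)
    (V W : Finset U), IsOrb K V 1 → IsOrb K W 1 → V.card = 4 → W.card = 6 →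
    ∀ S1 S2 : Multiset U, (∀ v ∈ S1, v ∈ V) → (∀ v ∈ S2, v ∈ W) → S1.sum + S2.sum = 0 →
    S1.sum = 0

/-- (GW9) a line in a relation

Proof. Let `H` be the stabilizer of `y`, `X = R.toFinset`, `A` from AV9. `A y = y`, `A (-y) = -y`. Suppose there is no
`W` as in the assertion. Claim: `A v = 0` for all `v ∈ S`, `v ≠ ± y`. Then `0 = A S.sum = cnt y S • y - cnt (-y) S • y`,
`cnt (-y) S = 0` (`NoPair`, `y ∈ S`), `y ≠ 0`, `cnt y S > 0`: contradiction.
Proof of the claim. `gorb G v` does not contain `y` (`gorb G y = {y, -y}`), so OF9 gives the orbit `W` of `v`,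
`m = cnt v R`. HS9: in the first case `O = W`: `W.card • A v = W.sum = 0` (`-W = W`). In the second case
`A u = (1 / P.card) • P.sum` for `u ∈ P` (AV9 with `O = P`), and `v ∈ P` or `-v ∈ P`. Suppose `A v ≠ 0`, so `P.sum id ≠ 0`.
As `W` is not as in the assertion `m * W.card ≤ 5`; `W.card` is even and not `0`, so `(m, W.card)` is `(1, 4)`, `(1, 2)` or
`(2, 2)`. `P.sum id` is a `Line` (`Half.pos`, `Half.neg`) in the span of `W`, so `(1, 4)` contradicts OF4. If
`W.card = 2` then `P = {u}`, `u` is a `Line` with `g • y = y → g • u = u`, `g • y = -y → g • u = -u`; by LNE `w u ≠ 0` and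
`D` fixes `u`, so `IsOrb.ht` gives `m * (w u + 1) = 2 * n`; with `|w u| ≤ 1`, `m ≤ 2`: `w u = ± 1`. The hypothesis on lines
gives `m = 1`. LL9 with `e = ± 1` gives `u = ± y`: no. -/
def Stmt_GW9 : Prop :=
  ∀ (G U : Type) [Group G] [AddCommGroup U] [Module ℚ U] [DistribMulAction G U] (K : Core G U)
    (R S : Multiset U), IsR K R → R.card ≤ 10 → (∀ v ∈ R, v ≠ 0) →
    (∀ v ∈ R, Line G v → (K.w v = 1 ∨ K.w v = -1) → cnt v R = 1) →
    (∀ v ∈ S, v ∈ R) → S.sum = 0 → NoPair S → ∀ y ∈ S, Line G y → (K.w y = 1 ∨ K.w y = -1) →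
    ∃ (W P : Finset U) (m : ℕ), IsOrb K W m ∧ 6 ≤ m * W.card ∧ (∀ v ∈ W, v ∈ R ∧ cnt v R = m) ∧
      y ∉ W ∧ Half G y W P ∧ P.sum id ≠ 0

/-- (EQ9) the classification

Proof. For `x ∈ R` let `s x = cnt x R * V.card`, `V` the orbit of `x` (OF9; for every `x` there is a `y ∈ R` outside
`gorb G x`, by the last hypothesis): the number of elements of `R` in `gorb G x`. The numbers `s` are even and
positive, and the sum over different orbits is at most `10`. Take `x ∈ R` with `s x` minimal. There is another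
orbit, so `2 * s x ≤ 10`, `s x ∈ {2, 4}`.
(*) If `V.card = 2` and `m = cnt x R ≤ 2` then `V = {x, -x}`, `x` is a `Line`, by LNE and `IsOrb.ht` `m * (w x + 1) = 2 * n`,
`w x ≠ 0`, so `w x = ± 1` and `m = 1` (hypothesis on lines). In particular `s x = 4` means `V.card = 4`, `m = 1`.
Case I, `s x = 4`: let `y ∈ R` be outside `V`. `4 ≤ s y ≤ 6`; if `s y = 4` two elements of `R` remain, in an orbit with
`s ≤ 2`: no. So `s y = 6` and all elements of `R` are in `V` or in the orbit `W` of `y`. `W.card` is even: `2` or `6`.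
`S = S1 + S2`, `S1` the part in `V`. If `W.card = 2`, `W = {y, -y}`, `y` a `Line`, `S2.sum = k • y` with an integer
`k ≠ 0` (`S` meets the orbit of `y`, `NoPair`), so `y = -(1 / k) • S1.sum` is in the span of `V`: contradiction to
OF4. If `W.card = 6` (multiplicity `1`): RA9, `S1.sum = 0`: first alternative.
Case II, `s x = 2`: by (*) `V = {x, -x}`, `w x = ± 1`; `x` or `-x` is in `S`, call it `y`. GW9: `W, P, m`; `m * W.card` is `6`
or `8` (even). If it is `8` all elements of `R` are in `W` or `± y`, and XM9 gives `Hex K R y W m P` or (if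
`m • P.sum id = -(2 • y)`) `Hex K R (-y) W m P`. If it is `6` two elements of `R` remain: an orbit of a vector `z ∈ R`
with `s z = 2`, by (*) a `Line` with `w z = ± 1`; we may take `z ∈ S` (`z` or `-z`). GW9 for `z`: `W', P', m'` with
`m' * W'.card ≥ 6`, so `W'` is not `{y, -y}` or `{z, -z}`: `W' = W`. `P.card = 3` or `1` (`2 * P.card = W.card`, which is
`6` or `2`): odd. For `g : G`: `g • y = y ↔ g • z = z`: otherwise `g P = P`, `g P' = -P'` or `g P = -P`, `g P' = P'`, so `g`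
resp. `-g` maps `P ∩ P'` onto `P ∩ -P'`, and `P.card = 2 * (P ∩ P').card` (`P` is the disjoint union of `P ∩ P'` and
`P ∩ -P'`): no. LL9 (`e = ± 1`) gives `z = ± y`: no. -/
def Stmt_EQ9 : Prop :=
  ∀ (G U : Type) [Group G] [AddCommGroup U] [Module ℚ U] [DistribMulAction G U] (K : Core G U)
    (R S : Multiset U), IsR K R → R.card = 10 → (∀ v ∈ R, v ≠ 0) →
    (∀ v ∈ R, Line G v → (K.w v = 1 ∨ K.w v = -1) → cnt v R = 1) →
    (∀ v ∈ S, v ∈ R) → (∀ v ∈ R, ∃ u ∈ S, u ∈ gorb G v) → S.sum = 0 → NoPair S →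
    (∃ x ∈ R, ∃ y ∈ R, y ∉ gorb G x) →
    (∃ x ∈ R, (∃ y ∈ R, y ∉ gorb G x) ∧ ∃ S1 S2 : Multiset U, S = S1 + S2 ∧
      (∀ v ∈ S1, v ∈ gorb G x) ∧ (∀ v ∈ S2, v ∉ gorb G x) ∧ S1.sum = 0) ∨
    ∃ (y : U) (V : Finset U) (m : ℕ) (P : Finset U), Hex K R y V m P

/-- (PY9) parity of the coefficient of `y`

Proof. AV9 with the stabilizer `H` of `y`, `X = V ∪ {y, -y}`. `k = P.card`, `m * k = 4`. Apply `A` to `S.sum = 0`:
`c • y + (n / k) • σ = 0` with `σ = P.sum id`, `c = cnt y S - cnt (-y) S`, `n` the number of elements of `S` in `P`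
minus the number in `-P`. `(n / k) • σ = (n / (m * k)) • (m • σ) = (n / 4) • (2 • y)`. So `c + n / 2 = 0`, `n = -2 * c` is
even. `S.card = cnt y S + cnt (-y) S + (elements in P) + (elements in -P)` is congruent to `c + n` mod `2`, so `c` is
even; by `NoPair` one of `cnt y S`, `cnt (-y) S` is `0`. -/
def Stmt_PY9 : Prop :=
  ∀ (G U : Type) [Group G] [AddCommGroup U] [Module ℚ U] [DistribMulAction G U] (K : Core G U)
    (R : Multiset U) (y : U) (V : Finset U) (m : ℕ) (P : Finset U), Hex K R y V m P →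
    ∀ S : Multiset U, (∀ v ∈ S, v ∈ R) → S.sum = 0 → NoPair S → Even S.card →
    Even (cnt y S) ∧ Even (cnt (-y) S)

/-- (DT9) the decomposition group

Proof. `2 * P.card = V.card` (`V` is the disjoint union of `P` and `-P`), so `m * P.card = 4`. `D` fixes `y` (LNE), so
it acts on `P`. `m = 4`: `P = {a}` ✓. `m = 2`: `P = {a, b}`, `a ≠ b`. If `d • a = b` for some `d ∈ D` then `w a = w b`. For `g`
with `g • y = y`: `g • a, g • b ∈ {a, b}`, so `w (g • a) = w (g • b)`; for `g • y = -y`: `-(g • a), -(g • b) ∈ {a, b}`, the same.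
So `w (g • (a - b)) = 0` for all `g`, `a = b` (`kron`): no. So `d` fixes `a`, `b` and `-a`, `-b`. -/
def Stmt_DT9 : Prop :=
  ∀ (G U : Type) [Group G] [AddCommGroup U] [Module ℚ U] [DistribMulAction G U] (K : Core G U)
    (R : Multiset U) (y : U) (V : Finset U) (m : ℕ) (P : Finset U), Hex K R y V m P →
    m * P.card = 4 ∧ (m = 1 ∨ ((m = 2 ∨ m = 4) ∧ ∀ d ∈ K.D, ∀ v ∈ V, d • v = v))

/-- (RE9) totally real fields with one place over `p`

Proof. `m = 1`: `T = {0}`. `m = 2`, `m = 4`: the roots of `X^2 - p`, `X^4 - 4 p X^2 + p` (Eisenstein at `p`, also over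
the integers of `ℚ_p`). Copy `EIS.lean` (there `X^3 - 3 p X + p`). The complex roots are real: the squares of
the roots of the second polynomial are `2 p ± √(4 p^2 - p)`, positive real numbers. -/
def Stmt_RE9 : Prop :=
  ∀ (p : ℕ) [Fact p.Prime] (ι : Qb →+* PadicAlgCl p) (m : ℕ), m = 1 ∨ m = 2 ∨ m = 4 →
    ∃ T : Finset Qb, T.card = m ∧
    (∀ g : GQ, ∀ t ∈ T, g t ∈ T) ∧ (∀ t ∈ T, ∀ t' ∈ T, ∃ d ∈ dec ι, d t = t') ∧
    ∀ (ρ : Qb →+* ℂ) (c : GQ), IsConj c ρ → ∀ t ∈ T, c t = t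

/-- (MT9) the CM algebra

Proof. As `MKA.lean` (or `MK7.lean`), with `X = {v // v ∈ V} × {t // t ∈ T}`, `g • (v, t) = (g • v, g t)`,
`c (v, t) = (-v, t)`, `al (v, t)` a Weil number in `R` with vector `v` (`Hex.mul`), `ka (v, t) = r` if `v ∈ P`, `-r`
otherwise. `ka_smul`: `g r = r` iff `g • y = y`, and then `g` maps `P` to `P` and `-P` to `-P`; otherwise `g r = -r`
(`r^2 = -m0`) and `g • y = -y`, `g` exchanges `P` and `-P` (`Half`). `isOpen`: `L` generated by the numbers `al (v, t)`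
and `T`. `conj`: a complex conjugation acts as `-1` on `UU ι` and trivially on `T`. The local condition:
`(locOrb ι (v, t)).ncard = m * (orb (dec ι) v).ncard` (`m = 1`: `T` has one element; otherwise `dec ι` fixes `v` and is
transitive on `T`, `T.card = m`), then `IsOrb.ht`, `Dict.nrm` with `g = 1`. `half` is the set of the `(v, t)`, `v ∈ P`. -/
def Stmt_MT9 : Prop :=
  ∀ (p : ℕ) [Fact p.Prime] (a : ℕ) (ι : Qb →+* PadicAlgCl p) (ρ : Qb →+* ℂ) (c : GQ)
    (hc : IsConj c ρ), 0 < a → Dict (p ^ a) ι → ∀ R : Multiset Qb, IsAV (p ^ a) ι R →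
    ∀ (y : UU ι) (V : Finset (UU ι)) (m : ℕ) (P : Finset (UU ι)),
    Hex (coreU ι ρ c hc) (R.map (uu (p ^ a) ι)) y V m P →
    (m = 1 ∨ ∀ d ∈ dec ι, ∀ v ∈ V, d • v = v) →
    ∀ T : Finset Qb, T.card = m → (∀ g : GQ, ∀ t ∈ T, g t ∈ T) →
    (∀ t ∈ T, ∀ t' ∈ T, ∃ d ∈ dec ι, d t = t') →
    (∀ (ρ : Qb →+* ℂ) (c : GQ), IsConj c ρ → ∀ t ∈ T, c t = t) →
    ∀ (r : Qb) (m0 : ℚ), 0 < m0 → r ^ 2 = -(m0 : Qb) → (∀ g : GQ, g r = r ↔ g • y = y) →
    ∃ (X : Type) (_ : Fintype X) (_ : MulAction GQ X) (A : CMAlg (p ^ a) X r m0),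
      (∀ x, ∃ n : ℕ, ‖ι (A.al x)‖ ^ (locOrb ι x).ncard * ((p ^ a : ℕ) : ℝ) ^ n = 1) ∧
      (A.half.val.map A.al).map (uu (p ^ a) ι) = m • P.val

/-- (CY9) the sixfold

Proof. `g P = P` (as finsets) if `g • y = y`, `g P = -P` if `g • y = -y`, and `D` fixes `y` (LNE). So
`M = J.map uu` satisfies `tr g M = M` resp. `tr g M = ng M`, and `ng M ≠ M` (`-y ∈ M`, `y ∉ M` as `y ∉ V`, `y ≠ -y`). RQU: `r`, `m0`
with `g r = r ↔ tr g M = M ↔ g • y = y`; `dec ι` fixes `r`. DT9, RE9: `T`. MT9: `A`; BLD: `C` with `C.toCMAlg = A`. HLF: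
`Fintype.card X = 2 * 4` (`m * P.card = 4`). TSP: `2 * (Phi ∩ half).ncard = ∑ (ur (al x) 1 + 1) = m * w (P.sum) + 4`
`= 2 * w y + 4`, so `t = (Phi ∩ half).ncard = 2 + w y ∈ {3, 1}`: `HasCM q ι r m0 4 t false S0`. Let `x ∈ J` be a Weil number
with vector `-y`. RTX with `T = {0}`, `n = 0` if `w y = 1`, `n = 1` if `w y = -1` (`Dict.nrm`): `HasCM q ι r m0 1 n false {x}`, and
so `HasCM q ι r m0 1 n true {x}` (`X` has two elements `x0`, `c x0`, `c x0 ≠ x0`, so `g • x0 = x0` or `= c x0`). GLU twice: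
`HasCM q ι r m0 6 (t + n + n) true (S0 + {x} + {x})` and `t + 2 * n = 3`. `weil6`, `sim` (`Dict.sim`).
For the second form of `J` replace `y`, `P` by `-y`, `-P`: `Hex` holds for `-y`, `V`, `m`, `-P`. -/
def Stmt_CY9 : Prop :=
  ∀ (p : ℕ) [Fact p.Prime] (a : ℕ) (ι : Qb →+* PadicAlgCl p) (ρ : Qb →+* ℂ) (c : GQ)
    (hc : IsConj c ρ), 0 < a → Dict (p ^ a) ι → ∀ R : Multiset Qb, IsAV (p ^ a) ι R →
    ∀ (y : UU ι) (V : Finset (UU ι)) (m : ℕ) (P : Finset (UU ι)),
    Hex (coreU ι ρ c hc) (R.map (uu (p ^ a) ι)) y V m P →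
    ∀ J : Multiset Qb, (∀ x ∈ J, Weil (p ^ a) x) →
    (J.map (uu (p ^ a) ι) = m • P.val + {-y, -y} ∨ J.map (uu (p ^ a) ι) = ng (m • P.val) + {y, y}) →
    Cyc (p ^ a) ι J

/-- (EV9) `Cyc` depends only on the class modulo pairs

Proof. Induction on `A.card + B.card`. If `{x, y} ≤ B` with `uu x + uu y = 0` (`B = B' + {x, y}`) then `Sim (x * y) q`
(`Dict.sum`), `Cyc B'` by `cancel`, `B'` has the same differences (also for `v = 0`: `v = -v`, the difference is `0`)
and even card. If `{x, y} ≤ A` with `uu x + uu y = 0`: `Cyc A'` by induction, `Cyc A` by `join`, `pair`. Otherwise both have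
no pairs: for `v ≠ 0` one of `cnt v`, `cnt (-v)` is `0`, so `cnt v (A.map uu) = cnt v (B.map uu)` (the positive part of the
difference); `cnt 0 ≤ 1` in both, and the cards are both even, so `cnt 0` is the same too. So `A.map uu = B.map uu`,
`A.map germ = B.map germ` (`Dict.sim`), `sim`. -/
def Stmt_EV9 : Prop :=
  ∀ (p : ℕ) [Fact p.Prime] (a : ℕ) (ι : Qb →+* PadicAlgCl p), 0 < a → Dict (p ^ a) ι →
    ∀ A B : Multiset Qb, (∀ x ∈ A, Weil (p ^ a) x) → (∀ x ∈ B, Weil (p ^ a) x) →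
    Even A.card → Even B.card →
    (∀ v : UU ι, (cnt v (A.map (uu (p ^ a) ι)) : ℤ) - cnt (-v) (A.map (uu (p ^ a) ι)) =
      (cnt v (B.map (uu (p ^ a) ι)) : ℤ) - cnt (-v) (B.map (uu (p ^ a) ι))) →
    Cyc (p ^ a) ι B → Cyc (p ^ a) ι A

/-- (RD9) an ordinary elliptic curve which occurs twice

Proof. Take `x, x' ∈ R` with vectors `y`, `-y` (`x'` a complex conjugate: `IsAV.stable`), `R = R1 + {x, x'}`
(`{x, x'} ≤ R`, the vectors are different). `mult`: the vectors `± y` lose one, the others are the same, so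
`IsAV R1`: `stable` because `g` permutes `{y, -y}`; `ht`: for `z ∈ R1` with vector `± y`, `dec ι` fixes the germ (LNE),
`(locOrbit ι z).ncard = 1`, and `‖ι z‖ ^ M * q ^ n = 1` with `n = M` or `n = 0` as the weight is `± 1`
(`Dict.nrm` with `g = 1`). As `cnt y ≥ 2`, also `cnt (-y) ≥ 2`, there are still elements with vectors `± y` in `R1`. -/
def Stmt_RD9 : Prop :=
  ∀ (p : ℕ) [Fact p.Prime] (a : ℕ) (ι : Qb →+* PadicAlgCl p) (ρ : Qb →+* ℂ) (c : GQ)
    (hc : IsConj c ρ), 0 < a → Dict (p ^ a) ι → ∀ R : Multiset Qb, IsAV (p ^ a) ι R →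
    ∀ y : UU ι, Line GQ y → ((coreU ι ρ c hc).w y = 1 ∨ (coreU ι ρ c hc).w y = -1) →
    2 ≤ cnt y (R.map (uu (p ^ a) ι)) →
    ∃ R1 : Multiset Qb, R1 ≤ R ∧ IsAV (p ^ a) ι R1 ∧ R1.card + 2 = R.card ∧
      ∀ x ∈ R, ∃ y ∈ R1, Sim x y

/-- (AL9) the first alternative

Proof. `V` = the set of the vectors of `R` in `gorb GQ x`, `V'` = the set of the others, both stable. SAV: `R1`, `R2`. Both
have at most `9` elements, and an even number (PR9 for `R1.map uu`: `IsAV.stable`, `HTC`), so at most `8`. `R1, R2 ≤ R`,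
so they are not `Exc4`. `J = A + B` with `A.map uu = S1`, `B.map uu = S2` (`FN2_split` in `FN2.lean` or
`Multiset.map_eq_add`). Let `s^2 = q` (`CYD_sqrt`), `s` is supersingular. If `A.card` is even, so is `B.card`: FN4 with
`T = A` (`Dict.sum`: `Sim A.prod (q^j)`): `Cyc A`, in the same way `Cyc B`, `join`. If `A.card` is odd: FN4 with
`T = A + {s}` and `B + {s}`: `Cyc (A + {s})`, `Cyc (B + {s})`, `join`, `cancel` of `{s, s}`. -/
def Stmt_AL9 : Prop :=
  ∀ (p : ℕ) [Fact p.Prime] (a : ℕ) (ι : Qb →+* PadicAlgCl p) (ρ : Qb →+* ℂ) (c : GQ)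
    (_ : IsConj c ρ), 0 < a → Dict (p ^ a) ι → ∀ R J : Multiset Qb, IsAV (p ^ a) ι R →
    R.card ≤ 10 → (∀ v ∈ R.map (uu (p ^ a) ι), v ≠ 0) → (¬ ∃ R1 ≤ R, Exc4 (p ^ a) R1) →
    (∀ x ∈ J, Weil (p ^ a) x ∧ ∃ y ∈ R, Sim x y) → Even J.card →
    ∀ x ∈ R.map (uu (p ^ a) ι), (∃ y ∈ R.map (uu (p ^ a) ι), y ∉ gorb GQ x) →
    ∀ S1 S2 : Multiset (UU ι), J.map (uu (p ^ a) ι) = S1 + S2 → (∀ v ∈ S1, v ∈ gorb GQ x) →
    (∀ v ∈ S2, v ∉ gorb GQ x) → S1.sum = 0 → S2.sum = 0 → Cyc (p ^ a) ι J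

/-- (BE9) the second alternative

Proof. `M = J.map uu`. PY9: `cnt y M = 2 * z`, `cnt (-y) M = 2 * z'`. `M = M0 + 2 z {y} + 2 z' {-y}`, `M0` supported in `V`.
`N = M0 + z • (m • P) + z' • ng (m • P)` is supported in `V` and `N.sum = M0.sum + z • (2 • y) - z' • (2 • y) = M.sum = 0`
(`Hex.sum`), `N.card` is even (`M.card`, `2 z`, `2 z'` and `m * P.card = 4` are). SAV for `V`: `R1 ≤ R`,
`R1.card = m * V.card = 8`, not `Exc4`. Let `B0` be a multiset of Weil numbers (elements of `R1`) with `B0.map uu = N`: FN4 with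
`T = B0`: `Cyc B0`. If `z > 0` or `z' > 0` there are Weil numbers with the vectors `y`, `-y` (in `J` and a conjugate).
`B = B0 + z • B1 + z' • B2` with `B1.map uu = ng (m • P.val) + {y, y}`, `B2.map uu = m • P.val + {-y, -y}`: CY9, `join`:
`Cyc B`. `B` and `J` have the same differences `cnt v - cnt (-v)`, even cards: EV9. -/
def Stmt_BE9 : Prop :=
  ∀ (p : ℕ) [Fact p.Prime] (a : ℕ) (ι : Qb →+* PadicAlgCl p) (ρ : Qb →+* ℂ) (c : GQ)
    (hc : IsConj c ρ), 0 < a → Dict (p ^ a) ι → ∀ R J : Multiset Qb, IsAV (p ^ a) ι R →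
    (¬ ∃ R1 ≤ R, Exc4 (p ^ a) R1) →
    (∀ x ∈ J, Weil (p ^ a) x ∧ uu (p ^ a) ι x ∈ R.map (uu (p ^ a) ι)) → Even J.card →
    (J.map (uu (p ^ a) ι)).sum = 0 → NoPair (J.map (uu (p ^ a) ι)) →
    ∀ (y : UU ι) (V : Finset (UU ι)) (m : ℕ) (P : Finset (UU ι)),
    Hex (coreU ι ρ c hc) (R.map (uu (p ^ a) ι)) y V m P → Cyc (p ^ a) ι J

/-- (FN9) all powers of all abelian varieties of dimension at most five

Proof. `S ≤ T`, `S.card = 2 j`, `Sim S.prod (q^j)`. RHO, CCJ, DIC. RNP: `J ≤ S`, `M = J.map uu` is `NoPair` with sum `0`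
(`Dict.sum`), `J.card` is even; to show `Cyc J`.
(0) If `0` is a vector of `R`: SAV with the set of the nonzero vectors of `R`: `R1 ≤ R`, `R1.card ≤ 9`, even (PR9), so `≤ 8`, and
FN4 for `R1`, `T` (`PowOf`: `x ∈ T` is `Sim` to some `y ∈ R`, which is in `R1` (up to `Sim`) or supersingular). Done.
So all vectors of `R` are nonzero.
(1) SAV with the set of the vectors `v` of `R` such that some `u ∈ M` is in `gorb GQ v`: `R1 ≤ R`. `R1.card` is even (PR9). If
`R1.card ≤ 8`: FN4 for `R1` and `T = J`: `Cyc J`. Otherwise `R1.card = 10 = R.card`, `R1 = R`: every orbit is used.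
(2) If some `v ∈ R.map uu` is a `Line` with weight `± 1` and `cnt v ≥ 2`: RD9, FN4 for `R1` and `T = J`.
(3) If all vectors of `R` are in one orbit: FN8 (`Isot R J`).
(4) Otherwise EQ9 for `R.map uu`, `M`: AL9 or BE9. (`¬ Exc4 R1` for `R1 ≤ R` by hypothesis.) -/
def Stmt_FN9 : Prop :=
  ∀ (p : ℕ) [Fact p.Prime] (a : ℕ) (ι : Qb →+* PadicAlgCl p), 0 < a →
    ∀ R T : Multiset Qb, IsAV (p ^ a) ι R → R.card ≤ 10 → (¬ ∃ R1 ≤ R, Exc4 (p ^ a) R1) →
      (∀ x ∈ T, ∃ y ∈ R, Sim x y) → TateProp (p ^ a) ι T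

end Pool.T4
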