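import Pool.Agent.Work.MP_223b32_t4.InterfaceW
import Pool.Agent.Work.MP_223b32_t4.DefsV

/-!
# Interface of the blocks for simple abelian varieties of dimension six, angle rank five (helper9)
-/

namespace Pool.T4

open Pool.Agent.Work.MP_223b32_ag

/-- Any two relations between the vectors of `R` are proportional. -/
def OneRel {U : Type} [AddCommGroup U] (R : Multiset U) : Prop :=
  ∀ V : Finset U, (∀ v, v ∈ V ↔ v ∈ R) → ∀ f h : U → ℤ, IsRel V f → IsRel V h →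
    ∀ u v : U, f u * h v = f v * h u

/-- (EQV) an orbit of twelve vectors with at most one relation

Proof. `R` is nodup, has twelve elements (`R.toFinset` is the orbit), `0 ∉ R`, `-v = c0 • v ∈ R`. `f` the
relation of `S`, `f v = count v S - count (-v) S`, `f ≠ 0`. As in `B_EQC.lean` (`OneRel` for `f` and
`f (g • ·)` instead of RK1): `|f|` is a constant `t > 0` on `R`, `S = t • S.toFinset.val`,
`J = S.toFinset.val`. For `h : G` the relation `f (h⁻¹ • ·)` of `tr h J` is `± f`: `sgn`. -/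
def Stmt_EQV : Prop :=
  ∀ (G U : Type) [Group G] [AddCommGroup U] [Module ℚ U] [DistribMulAction G U] (K : Core G U)
    (R : Multiset U), IsR K R → R.card ≤ 12 → ∀ x ∈ R, (gorb G x).ncard = 12 → OneRel R →
    ∀ S : Multiset U, (∀ v ∈ S, v ∈ R) → S.sum = 0 → NoPair S → S ≠ 0 →
    ∃ (t : ℕ) (J : Multiset U), 0 < t ∧ S = t • J ∧ HexW K R J

/-- (HFV) an element of order five: see the block EQW. -/
def Stmt_HFV : Prop :=
  ∀ (G U : Type) [Group G] [AddCommGroup U] [Module ℚ U] [DistribMulAction G U] (K : Core G U)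
    (R : Multiset U), IsR K R → R.card ≤ 12 → ∀ x ∈ R, (gorb G x).ncard = 12 →
    (∃ g : G, (∃ v ∈ R, g • v ≠ v) ∧ ∀ v ∈ R, g ^ 5 • v = v) → OneRel R

/-- (LIV) five independent vectors

Proof. `V` has twelve elements, six pairs; take `y : Fin 6 → U` with `V = {± y i}`. A relation `f` gives
`∑ i, f (y i) • y i = 0` (`f` is odd, twice this sum is the given one). The linear map
`(Fin 6 → ℚ) → U`, `c ↦ ∑ c i • y i` has a range which contains the `v i`, so of dimension `≥ 5`, so its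
kernel has dimension `≤ 1` and `f ∘ y`, `h ∘ y` are proportional. -/
def Stmt_LIV : Prop :=
  ∀ (G U : Type) [Group G] [AddCommGroup U] [Module ℚ U] [DistribMulAction G U] (K : Core G U)
    (R : Multiset U), IsR K R → R.card ≤ 12 → ∀ x ∈ R, (gorb G x).ncard = 12 →
    ∀ v : Fin 5 → U, (∀ i, v i ∈ R) → LinearIndependent ℚ v → OneRel R

/-- (ARV) angle rank five

Proof. `c : Fin 5 → ℤ` with `∑ c i • uu (x i) = 0` (clear denominators: `LinearIndependent ℚ` iff over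
`ℤ`, `LinearIndependent.iff_fractionRing`). Let `S` be the multiset with `c i` times `x i` if `c i > 0`
and `-c i` times `σ (x i)` if `c i < 0`, `σ` a complex conjugation (`x * σ x = q`, `Dict.conj`,
`uu (σ x) = -uu x`). Its vector sum is `0`, so `S.prod ^ 2 ~ q ^ card` (`Dict.sum`), which is
`∏ (x i) ^ (2 * c i) ~ q ^ (∑ c i)` after dividing by a power of `q`. -/
def Stmt_ARV : Prop :=
  ∀ (p : ℕ) [Fact p.Prime] (a : ℕ) (ι : Qb →+* PadicAlgCl p) (ρ : Qb →+* ℂ) (c : GQ),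
    IsConj c ρ → 0 < a → Dict (p ^ a) ι → ∀ R : Multiset Qb, (∀ x ∈ R, Weil (p ^ a) x) →
    ∀ x : Fin 5 → Qb, (∀ i, x i ∈ R) →
    (∀ c : Fin 5 → ℤ, Sim (∏ i, x i ^ (2 * c i)) (((p ^ a : ℕ) : Qb) ^ (∑ i, c i)) → c = 0) →
    LinearIndependent ℚ fun i => uu (p ^ a) ι (x i)

/-- (PHV) moving a CM type, parity

Proof. As PH7. Good types, `T`, `d` as in PHW: `T (d • Psi) = 6 - T Psi`. There is no self conjugate
element, so every move is `A' = (A \ {x, c y}) ∪ {y, c x}`, and `T A' = T A + 2 ([y ∈ H] - [x ∈ H])`: `T` is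
odd for all types which occur. So from `T A ≤ 1` one arrives at `T A' ≤ 3`, so at `T A' = 3` or `≤ 1`. -/
def Stmt_PHV : Prop :=
  ∀ (G X : Type) [Group G] [Fintype X] [MulAction G X] (D : Subgroup G) (c : X → X)
    (H Phi : Set X), (∀ x, c (c x) = x) → (∀ d ∈ D, ∀ x, c (d • x) = d • c x) →
    (∀ x, x ∈ H ↔ c x ∉ H) → H.ncard = 6 → (∃ d ∈ D, ∀ x, x ∈ H ↔ d • x ∉ H) →
    (∀ x, x ∈ Phi ↔ c x ∉ Phi) → (∀ z, c z ∉ orb D z) → Odd (Phi ∩ H).ncard →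
    ∃ Psi : Set X, (∀ x, x ∈ Psi ↔ c x ∉ Psi) ∧
      (∀ x, (Psi ∩ orb D x).ncard = (Phi ∩ orb D x).ncard) ∧ (Psi ∩ H).ncard = 3

/-- (HEV) a stable half

Proof. Let `Q` be the set of the orbits of `D` and take an injective function `e : Q → ℕ`.
`E = {x | s x < s (c x) ∨ (s x = s (c x) ∧ e [x] < e [c x])}`; `[x] ≠ [c x]`. -/
def Stmt_HEV : Prop :=
  ∀ (G X : Type) [Group G] [Fintype X] [MulAction G X] (D : Subgroup G) (c : X → X) (s : X → ℝ),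
    (∀ x, c (c x) = x) → (∀ d ∈ D, ∀ x, c (d • x) = d • c x) → (∀ z, c z ∉ orb D z) →
    (∀ d ∈ D, ∀ x, s (d • x) = s x) →
    ∃ E : Set X, (∀ x, x ∈ E ↔ c x ∉ E) ∧ (∀ d ∈ D, ∀ x ∈ E, d • x ∈ E) ∧
      ∀ x ∈ E, s x ≤ s (c x)

/-- (TPV) the parity of the signature

Proof. `|Phi ∩ H| = |Phi ∩ E ∩ H| + |Phi ∩ Eᶜ ∩ H|`, and `c` maps `Phi ∩ Eᶜ ∩ H` bijectively to `E \ H \ Phi`, so
`|Phi ∩ Eᶜ ∩ H| = |E \ H| - |Phi ∩ E \ H|`, `|Phi ∩ E \ H| = |Phi ∩ E| - |Phi ∩ E ∩ H|`, and `|E \ H| = |E ∩ H| = 3`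
(`d` maps `E ∩ H` onto `E \ H`, `|E| = 6`). So `|Phi ∩ H| = 2 |Phi ∩ E ∩ H| + 3 - |Phi ∩ E|`. -/
def Stmt_TPV : Prop :=
  ∀ (G X : Type) [Group G] [Fintype X] [MulAction G X] (D : Subgroup G) (c : X → X)
    (H Phi E : Set X), (∀ x, c (c x) = x) → (∀ x, x ∈ H ↔ c x ∉ H) → H.ncard = 6 →
    (∃ d ∈ D, ∀ x, x ∈ H ↔ d • x ∉ H) → (∀ x, x ∈ Phi ↔ c x ∉ Phi) →
    (∀ x, x ∈ E ↔ c x ∉ E) → (∀ d ∈ D, ∀ x ∈ E, d • x ∈ E) →
    (Odd (Phi ∩ H).ncard ↔ Even (Phi ∩ E).ncard)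

/-- (SGV) the signature of an abelian variety of dimension six, nonsplit case without self
conjugate orbits

Proof. `s x := (ur (al x) 1 + 1) / 2` is the slope (`Dict.nrm` with `st`: `(locOrb x).ncard * s x =
(Phi ∩ locOrb x).ncard`; `s (d • x) = s x` for `d ∈ dec ι`, `s (c x) = 1 - s x`). HEV: `E`. Sum over the orbits
in `E`: `(Phi ∩ E).ncard = ∑ x ∈ E, s x`. `s x ≤ 1 / 2` on `E`, so it is `≤ 3`, and `3` only if `s x = 1 / 2` for
all `x`. `max ‖ι (al x)‖ (q ‖ι (al x)‖)⁻¹ = q ^ (-s x)` for `x ∈ E`, the same for `c x`. So the product over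
`X` is `q ^ (-2 * (Phi ∩ E).ncard)`, and the hypothesis says `(Phi ∩ E).ncard ≠ 1`. So it is `0` or `2`, TPV. -/
def Stmt_SGV : Prop :=
  ∀ (p : ℕ) [Fact p.Prime] (a : ℕ) (ι : Qb →+* PadicAlgCl p), 0 < a → Dict (p ^ a) ι →
    ∀ (X : Type) [Fintype X] [MulAction GQ X] (r : Qb) (m : ℚ) (C : CMSet (p ^ a) ι X r m),
    C.half.card = 6 → (∃ d ∈ dec ι, d r ≠ r) → (∀ z, C.c z ∉ locOrb ι z) →
    (∃ x, ur (p ^ a) ι (C.al x) 1 ≠ 0) →
    (∏ x, max ‖ι (C.al x)‖ (((p ^ a : ℕ) : ℝ) * ‖ι (C.al x)‖)⁻¹) * ((p ^ a : ℕ) : ℝ) ^ 2 ≠ 1 →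
    Odd (C.Phi ∩ C.half).ncard

/-- (MXV) the CM type with signature `(3, 3)`

Proof. See `MX7.lean`, `MXW.lean`. MKW, BLD: `C`, `half.card = 6`. If all `d ∈ dec ι` fix `r` (for instance
KSplit: if `g` fixes the germs in `R` then `tr g J = J`, so `g r = r`): TSP. Otherwise, if
`C.c z ∈ locOrb ι z` for some `z`: PHW. Otherwise there is no `SelfConj`, so `¬ MidOne`; the product over `R` is the
product over `X` (`x ↦ germ (al x)` is a bijection from `X` to the germs in `R`, `R.map germ` is nodup: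
`HexW`). Some `ur (al x) 1 ≠ 0` (`Dict`: otherwise all `uu (al x) = 0`: `(uu x).1 g = ur (g x) 1`). SGV,
PHV. -/
def Stmt_MXV : Prop :=
  ∀ (p : ℕ) [Fact p.Prime] (a : ℕ) (ι : Qb →+* PadicAlgCl p) (ρ : Qb →+* ℂ) (c : GQ)
    (hc : IsConj c ρ), 0 < a → Dict (p ^ a) ι → ∀ R J : Multiset Qb,
    IsAV (p ^ a) ι R → J ≤ R →
    HexW (coreU ι ρ c hc) (R.map (uu (p ^ a) ι)) (J.map (uu (p ^ a) ι)) →
    (KSplit ι R ∨ SelfConj (p ^ a) ι R ∨ ¬ MidOne (p ^ a) ι R) →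
    ∀ (r : Qb) (m : ℚ), 0 < m → r ^ 2 = -(m : Qb) →
    (∀ g : GQ, g r = r ↔ tr g (J.map (uu (p ^ a) ι)) = J.map (uu (p ^ a) ι)) →
    ∃ S : Multiset Qb, S.map germ = J.map germ ∧ HasCM (p ^ a) ι r m 6 3 false S

/-- (CYV) the sixfold: RQU, MXV, `CycW.weil6`, `CycW.sim`. -/
def Stmt_CYV : Prop :=
  ∀ (p : ℕ) [Fact p.Prime] (a : ℕ) (ι : Qb →+* PadicAlgCl p) (ρ : Qb →+* ℂ) (c : GQ)
    (hc : IsConj c ρ), 0 < a → Dict (p ^ a) ι → ∀ R J : Multiset Qb,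
    IsAV (p ^ a) ι R → J ≤ R →
    HexW (coreU ι ρ c hc) (R.map (uu (p ^ a) ι)) (J.map (uu (p ^ a) ι)) →
    (KSplit ι R ∨ SelfConj (p ^ a) ι R ∨ ¬ MidOne (p ^ a) ι R) → CycW (p ^ a) ι J

/-- (FNV) all powers (times supersingular) of simple abelian varieties of dimension six and angle
rank at least five: as FNW. -/
def Stmt_FNV : Prop :=
  ∀ (p : ℕ) [Fact p.Prime] (a : ℕ) (ι : Qb →+* PadicAlgCl p), 0 < a →
    ∀ R T : Multiset Qb, IsAV (p ^ a) ι R → SixOK (p ^ a) ι R → PowOf (p ^ a) R T →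
      TateW (p ^ a) ι T

end Pool.T4
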