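import Pool.Agent.Work.MP_223b32_t4.Interface9

/-! # Block LL9: two vectors with the same character (helper1) -/

set_option autoImplicit false

namespace Pool.T4

open Pool.Agent.Work.MP_223b32_ag

theorem p_LL9 : Stmt_LL9 := by
  intro G U _ _ _ _ K y z hL h1 h2 e hw
  have hsm : ∀ g : G, g • (e • y) = e • (g • y) := fun g =>
    map_rat_smul (DistribSMul.toAddMonoidHom U g) e y
  have hwe : K.w (e • y) = (e : ℝ) * K.w y := by
    rw [map_rat_smul K.w e y, Rat.smul_def]
  have h0 : K.w (z - e • y) = 0 := by
    rw [map_sub, hwe, hw, sub_self]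
  have h3 : z - e • y = 0 := by
    apply K.kron
    intro g
    rcases hL.2 g with h | h
    · rw [smul_sub, hsm, h, h1 g h]
      exact h0
    · rw [smul_sub, hsm, h, h2 g h, smul_neg, neg_sub_neg, ← neg_sub z (e • y), map_neg, h0,
        neg_zero]
  exact sub_eq_zero.mp h3

end Pool.T4
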