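import Pool.Agent.Work.MP_223b32_t4.Interface

/-! # Block CCJ: complex conjugation on the algebraic closure of `ℚ` -/

namespace Pool.T4

open Pool.Agent.Work.MP_223b32_ag

theorem CCJ_aux (A B : Algebra ℚ (AlgebraicClosure ℚ))
    (h : @Algebra.IsAlgebraic ℚ (AlgebraicClosure ℚ) _ _ A) :
    @Algebra.IsAlgebraic ℚ (AlgebraicClosure ℚ) _ _ B := by
  obtain rfl : A = B := Subsingleton.elim _ _
  exact h

/-- `Qb` is algebraic over `ℚ` (for the algebra structure of a division ring of characteristic `0`,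
which is the one used in `GQ`). -/
theorem CCJ_isAlgebraic : Algebra.IsAlgebraic ℚ Qb :=
  CCJ_aux (AlgebraicClosure.instAlgebra ℚ) _ (AlgebraicClosure.isAlgebraic ℚ)

theorem CCJ_isAlgClosure : IsAlgClosure ℚ Qb :=
  ⟨AlgebraicClosure.isAlgClosed ℚ, CCJ_isAlgebraic⟩

theorem CCJ_normal : Normal ℚ Qb :=
  have _ := CCJ_isAlgClosure
  IsAlgClosure.normal ℚ Qb

theorem p_CCJ : Stmt_CCJ := by
  intro ρ
  let _ : Algebra Qb ℂ := ρ.toAlgebra
  have _ : IsScalarTower ℚ Qb ℂ := IsScalarTower.of_algebraMap_eq fun x => by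
    rw [RingHom.algebraMap_toAlgebra, eq_ratCast, eq_ratCast, map_ratCast]
  have _ : Normal ℚ Qb := CCJ_normal
  refine ⟨(Complex.conjAe.restrictScalars ℚ).restrictNormal Qb, fun y => ?_⟩
  exact (Complex.conjAe.restrictScalars ℚ).restrictNormal_commutes Qb y

end Pool.T4
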