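import Pool.Agent.Work.MP_223b32_t4.SGN
import Pool.Agent.Work.MP_223b32_t4.CCJ

/-! # Block MKA: the CM algebra of a relation without multiplicities -/

namespace Pool.T4

open Pool.Agent.Work.MP_223b32_ag

section

variable {G U : Type} [Group G] [AddCommGroup U] [Module ℚ U] [DistribMulAction G U]

omit [Module ℚ U] in
theorem MKA_or {R J : Multiset U} (hR : R = J + ng J) {v : U} (hv : v ∈ R) : v ∈ J ∨ -v ∈ J := by
  rw [hR, Multiset.mem_add] at hv
  rcases hv with h | h
  · exact Or.inl h
  · obtain ⟨u, hu, hu2⟩ := Multiset.mem_map.1 h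
    right
    rw [← hu2, neg_neg]
    exact hu

theorem MKA_cnt {R J : Multiset U} (hR : R = J + ng J) (hn : J.Nodup) (hp : NoPair J) {v : U}
    (hv : v ∈ R) (h0 : v ≠ 0) : cnt v R = 1 := by
  classical
  have h1 : cnt v R = R.count v := rfl
  rw [h1, hR, Multiset.count_add, SGN_count_ng]
  by_cases h : v ∈ J
  · rw [Multiset.count_eq_one_of_mem hn h, Multiset.count_eq_zero_of_notMem (SGN_notMem hp h h0)]
  · rw [Multiset.count_eq_zero_of_notMem h,
      Multiset.count_eq_one_of_mem hn ((MKA_or hR hv).resolve_left h)]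

omit [Module ℚ U] in
theorem MKA_flip {J : Multiset U} {g : G} (hg : tr g J = ng J) {v : U} (hv : v ∈ J) :
    -(g • v) ∈ J := by
  have h : g • v ∈ tr g J := Multiset.mem_map_of_mem _ hv
  rw [hg] at h
  obtain ⟨u, hu, hu2⟩ := Multiset.mem_map.1 h
  rw [← hu2, neg_neg]
  exact hu

omit [Module ℚ U] in
theorem MKA_keep {J : Multiset U} {g : G} (hg : tr g J = J) {v : U} : g • v ∈ J ↔ v ∈ J := by
  constructor
  · intro h
    rw [← hg] at h
    obtain ⟨u, hu, hu2⟩ := Multiset.mem_map.1 h
    have h3 : u = v := MulAction.injective g hu2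
    rw [← h3]
    exact hu
  · intro h
    rw [← hg]
    exact Multiset.mem_map_of_mem _ h

theorem MKA_swap {R J : Multiset U} (hR : R = J + ng J) (hp : NoPair J) {g : G}
    (hg : tr g J = ng J) {v : U} (hv : v ∈ R) (h0 : v ≠ 0) : g • v ∈ J ↔ v ∉ J := by
  constructor
  · intro h h1
    exact SGN_notMem hp h ((smul_ne_zero_iff_ne g).2 h0) (MKA_flip hg h1)
  · intro h
    have h1 := MKA_flip hg ((MKA_or hR hv).resolve_left h)
    rw [smul_neg, neg_neg] at h1
    exact h1

end

section

variable {p : ℕ} [Fact p.Prime] {ι : Qb →+* PadicAlgCl p}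

theorem MKA_mem {R : Multiset (UU ι)} {g : GQ} (hs : tr g R = R) {v : UU ι} (hv : v ∈ R) :
    g • v ∈ R := by
  have h : g • v ∈ tr g R := Multiset.mem_map_of_mem _ hv
  rw [hs] at h
  exact h

/-- The action on the points of the CM algebra. -/
@[reducible] noncomputable def MKA_act (R : Multiset (UU ι)) (hs : ∀ g : GQ, tr g R = R) :
    MulAction GQ {v : UU ι // v ≠ 0 ∧ v ∈ R} where
  smul g x := ⟨g • x.1, (smul_ne_zero_iff_ne g).2 x.2.1, MKA_mem (hs g) x.2.2⟩
  one_smul x := Subtype.ext (one_smul GQ x.1)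
  mul_smul g h x := Subtype.ext (mul_smul g h x.1)

theorem MKA_conj {ρ : Qb →+* ℂ} {g : GQ} (hg : IsConj g ρ) (v : UU ι) : g • v = -v := by
  apply Subtype.ext
  funext h
  exact v.2.2 ρ g hg h

theorem MKA_finite (R : Multiset (UU ι)) : Finite {v : UU ι // v ≠ 0 ∧ v ∈ R} := by
  classical
  have h : ({v : UU ι | v ≠ 0 ∧ v ∈ R} : Set (UU ι)) ⊆ (R.toFinset : Set (UU ι)) := by
    intro v hv
    rw [Finset.mem_coe, Multiset.mem_toFinset]
    exact hv.2
  exact ((R.toFinset.finite_toSet).subset h).to_subtype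

end

theorem p_MKA (hSGN : Stmt_SGN) : Stmt_MKA := by
  classical
  intro p _ a ι ρ c hc ha hD R J hR hJR hG hnd r m hm hr hgr
  obtain ⟨UR, hUR⟩ : ∃ UR, UR = R.map (uu (p ^ a) ι) := ⟨_, rfl⟩
  obtain ⟨UJ, hUJ⟩ : ∃ UJ, UJ = J.map (uu (p ^ a) ι) := ⟨_, rfl⟩
  rw [← hUR, ← hUJ] at hG
  rw [← hUJ] at hnd hgr
  have hW : ∀ x ∈ R, Weil (p ^ a) x := hR.weil
  have hS := hSGN GQ (UU ι) (coreU ι ρ c hc) UR UJ hG
  have hst : ∀ g : GQ, tr g UR = UR := hG.isR.stable
  have hneg : ∀ v ∈ UR, -v ∈ UR := by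
    intro v hv
    rw [← MKA_conj hc v]
    exact MKA_mem (hst c) hv
  have hr0 : r ≠ 0 := by
    intro h
    rw [h] at hr
    have h1 : (m : Qb) = 0 := by
      rw [zero_pow (by norm_num)] at hr
      exact neg_eq_zero.1 hr.symm
    rw [Rat.cast_eq_zero] at h1
    exact hm.ne' h1
  have hrr : r ≠ -r := by
    intro h
    have h1 : r + r = 0 := by
      nth_rewrite 2 [h]
      exact add_neg_cancel r
    have h2 : (2 : Qb) * r = 0 := by
      rw [two_mul]
      exact h1
    exact hr0 ((mul_eq_zero.1 h2).resolve_left (by norm_num))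
  have hgneg : ∀ g : GQ, g r ≠ r → g r = -r := by
    intro g hg
    have h1 : (g r) ^ 2 = r ^ 2 := by
      rw [← map_pow, hr, map_neg, map_ratCast]
    exact (sq_eq_sq_iff_eq_or_eq_neg.1 h1).resolve_left hg
  have hal : ∀ x : {v : UU ι // v ≠ 0 ∧ v ∈ UR}, ∃ y ∈ R, uu (p ^ a) ι y = x.1 := by
    intro x
    have h : x.1 ∈ R.map (uu (p ^ a) ι) := Eq.mp (congrArg (fun S => x.1 ∈ S) hUR) x.2.2
    exact Multiset.mem_map.1 h
  choose al hal1 hal2 using hal
  have hfin := MKA_finite UR
  let act : MulAction GQ {v : UU ι // v ≠ 0 ∧ v ∈ UR} := MKA_act UR hst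
  let A : CMAlg (p ^ a) {v : UU ι // v ≠ 0 ∧ v ∈ UR} r m :=
    { c := fun x => ⟨-x.1, neg_ne_zero.2 x.2.1, hneg x.1 x.2.2⟩
      al := al
      ka := fun x => if x.1 ∈ UJ then r else -r
      isOpen := by
        refine ⟨IntermediateField.adjoin ℚ {x | x ∈ R}, ?_, ?_⟩
        · have hfin : Finite ({x | x ∈ R} : Set Qb) := by
            have h1 : ({x | x ∈ R} : Set Qb) = (R.toFinset : Set Qb) := by
              ext x
              simp
            rw [h1]
            exact (R.toFinset.finite_toSet).to_subtype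
          exact IntermediateField.finiteDimensional_adjoin
            (fun x _ => (AlgebraicClosure.isAlgebraic ℚ).isAlgebraic x |>.isIntegral)
        · intro g hg x
          apply Subtype.ext
          show g • x.1 = x.1
          have h1 : g (al x) = al x :=
            hg _ (IntermediateField.subset_adjoin ℚ _ (hal1 x))
          rw [← hal2 x, ← hD.smul _ (hW _ (hal1 x)) g, h1]
      conj := fun ρ' g hg x => Subtype.ext (MKA_conj hg x.1)
      c_ne := fun x h => SGN_neg_ne x.2.1 (congrArg Subtype.val h).symm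
      weil := fun x => hW _ (hal1 x)
      al_smul := by
        intro g x
        rw [hD.sim _ _ (hW _ (hal1 _)) (hD.weil _ (hW _ (hal1 x)) g), hal2,
          hD.smul _ (hW _ (hal1 x)) g, hal2]
        rfl
      m_pos := hm
      r_sq := hr
      ka_eq := by
        intro x
        by_cases h : x.1 ∈ UJ
        · left
          rw [if_pos h]
        · right
          rw [if_neg h]
      ka_smul := by
        intro g x
        show (if g • x.1 ∈ UJ then r else -r) = g (if x.1 ∈ UJ then r else -r)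
        rcases hS.1 g with h | h
        · have h1 : g r = r := (hgr g).2 h
          by_cases h2 : x.1 ∈ UJ
          · rw [if_pos h2, if_pos ((MKA_keep h).2 h2), h1]
          · rw [if_neg h2, if_neg (fun h3 => h2 ((MKA_keep h).1 h3)), map_neg, h1]
        · have h1 : g r = -r := by
            apply hgneg
            intro h2
            rw [hgr, h] at h2
            exact hS.2 h2
          by_cases h2 : x.1 ∈ UJ
          · rw [if_pos h2, if_neg (fun h3 => (MKA_swap hG.eq hG.noPair h x.2.2 x.2.1).1 h3 h2), h1]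
          · rw [if_neg h2, if_pos ((MKA_swap hG.eq hG.noPair h x.2.2 x.2.1).2 h2), map_neg, h1,
              neg_neg] }
  refine ⟨{v : UU ι // v ≠ 0 ∧ v ∈ UR}, Fintype.ofFinite _, act, A, ?_, ?_, ?_⟩
  · intro x
    show uu (p ^ a) ι (al x) ≠ 0
    rw [hal2 x]
    exact x.2.1
  · intro x
    obtain ⟨n, hn⟩ := hG.isR.ht x.1 x.2.2
    refine ⟨n, ?_⟩
    rw [MKA_cnt hG.eq hnd hG.noPair x.2.2 x.2.1, one_mul] at hn
    have h1 : (orb (dec ι) x.1).ncard =
        (locOrb ι x).ncard := by
      have h2 : orb (dec ι) x.1 = Subtype.val ''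
          (locOrb ι x) := by
        ext w
        constructor
        · rintro ⟨g, hg, rfl⟩
          exact ⟨_, ⟨g, hg, rfl⟩, rfl⟩
        · rintro ⟨y, ⟨g, hg, rfl⟩, rfl⟩
          exact ⟨g, hg, rfl⟩
      rw [h2, Set.ncard_image_of_injective _ Subtype.val_injective]
    have h3 := (hD.nrm (al x) (hW _ (hal1 x)) 1
      (locOrb ι x).ncard n).2 (by
        rw [← h1, ← hD.mem _ (hW _ (hal1 x)), hal2 x]
        exact hn)
    rw [AlgEquiv.one_apply] at h3
    exact h3
  · refine ⟨J.filter fun y => uu (p ^ a) ι y = 0, ?_, ?_, ?_⟩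
    · intro y hy
      rw [Multiset.mem_filter] at hy
      exact (hD.ss y (hW y (Multiset.mem_of_le hJR hy.1))).2 hy.2
    · have h1 : (J.filter fun y => uu (p ^ a) ι y = 0).card = UJ.count 0 := by
        rw [hUJ, Multiset.count_map]
        congr 1
        refine Multiset.filter_congr fun y _ => ?_
        exact eq_comm
      rw [h1]
      exact Multiset.nodup_iff_count_le_one.1 hnd 0
    · obtain ⟨Gf, hGf⟩ : ∃ Gf : UU ι → Quotient simSetoid, Gf = fun v =>
          if h : v ≠ 0 ∧ v ∈ UR then germ (al ⟨v, h⟩) else germ 0 := ⟨_, rfl⟩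
      have hG1 : ∀ y : {v : UU ι // v ≠ 0 ∧ v ∈ UR}, germ (al y) = Gf y.1 := by
        intro y
        rw [hGf]
        simp only
        rw [dif_pos y.2]
      have hG2 : ∀ x ∈ J, uu (p ^ a) ι x ≠ 0 → germ x = Gf (uu (p ^ a) ι x) := by
        intro x hx h0
        have hxR : x ∈ R := Multiset.mem_of_le hJR hx
        have h1 : uu (p ^ a) ι x ≠ 0 ∧ uu (p ^ a) ι x ∈ UR := by
          refine ⟨h0, ?_⟩
          rw [hUR]
          exact Multiset.mem_map_of_mem _ hxR
        rw [hGf]
        simp only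
        rw [dif_pos h1]
        apply Quotient.sound
        exact (hD.sim _ _ (hW _ hxR) (hW _ (hal1 _))).2 (hal2 ⟨_, h1⟩).symm
      have hka : ∀ y : {v : UU ι // v ≠ 0 ∧ v ∈ UR}, A.ka y = r ↔ y.1 ∈ UJ := by
        intro y
        show (if y.1 ∈ UJ then r else -r) = r ↔ y.1 ∈ UJ
        by_cases h : y.1 ∈ UJ
        · rw [if_pos h]
          exact ⟨fun _ => h, fun _ => rfl⟩
        · rw [if_neg h]
          exact ⟨fun h1 => absurd h1.symm hrr, fun h1 => absurd h1 h⟩
      have hhalf : ∀ (F : Fintype {v : UU ι // v ≠ 0 ∧ v ∈ UR})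
          (y : {v : UU ι // v ≠ 0 ∧ v ∈ UR}),
          y ∈ (@CMAlg.half (p ^ a) {v : UU ι // v ≠ 0 ∧ v ∈ UR} act r m F A) ↔
            y.1 ∈ UJ := by
        intro F y
        unfold CMAlg.half
        rw [Finset.mem_filter, hka]
        exact ⟨fun h => h.2, fun h => ⟨Finset.mem_univ y, h⟩⟩
      have key : ∀ (F : Fintype {v : UU ι // v ≠ 0 ∧ v ∈ UR}),
          (@CMAlg.half (p ^ a) {v : UU ι // v ≠ 0 ∧ v ∈ UR} act r m F A).val.map
            Subtype.val = UJ.filter fun v => v ≠ 0 := by
        intro F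
        rw [Multiset.Nodup.ext (Multiset.Nodup.map Subtype.val_injective (Finset.nodup _))
          (hnd.filter _)]
        intro v
        rw [Multiset.mem_map, Multiset.mem_filter]
        constructor
        · rintro ⟨y, hy, rfl⟩
          exact ⟨(hhalf F y).1 hy, y.2.1⟩
        · rintro ⟨hv, h0⟩
          have h1 : v ∈ UR := by
            rw [hG.eq, Multiset.mem_add]
            exact Or.inl hv
          exact ⟨⟨v, h0, h1⟩, (hhalf F _).2 hv, rfl⟩
      have hsplit : J = (J.filter fun y => uu (p ^ a) ι y ≠ 0) +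
          (J.filter fun y => uu (p ^ a) ι y = 0) := by
        have h := Multiset.filter_add_not (fun y => uu (p ^ a) ι y = 0) J
        rw [add_comm] at h
        exact h.symm
      have hL : ∀ (F : Fintype {v : UU ι // v ≠ 0 ∧ v ∈ UR}),
          ((@CMAlg.half (p ^ a) {v : UU ι // v ≠ 0 ∧ v ∈ UR} act r m F A).val.map
            A.al).map germ = (J.filter fun y => uu (p ^ a) ι y ≠ 0).map germ := by
        intro F
        have h1 : (J.filter fun y => uu (p ^ a) ι y ≠ 0).map germ =
            ((J.filter fun y => uu (p ^ a) ι y ≠ 0).map (uu (p ^ a) ι)).map Gf := by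
          rw [Multiset.map_map]
          refine Multiset.map_congr rfl fun x hx => ?_
          rw [Multiset.mem_filter] at hx
          exact hG2 x hx.1 hx.2
        have h2 : (J.filter fun y => uu (p ^ a) ι y ≠ 0).map (uu (p ^ a) ι) =
            UJ.filter fun v => v ≠ 0 := by
          rw [hUJ, Multiset.filter_map]
          rfl
        rw [h1, h2, ← key F, Multiset.map_map, Multiset.map_map]
        refine Multiset.map_congr rfl fun y _ => ?_
        exact hG1 y
      rw [Multiset.map_add, hL]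
      conv_rhs => rw [hsplit, Multiset.map_add]

end Pool.T4
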