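import Pool.Agent.Work.MP_223b32_t4.InterfaceW

/-! # Block MOW: `Cyc` implies `CycW` -/

namespace Pool.T4

theorem p_MOW : Stmt_MOW := by
  intro p _ q ι
  have h : ∀ S, Cyc q ι S → CycW q ι S := by
    intro S hS
    induction hS with
    | zero => exact CycW.zero
    | sim S T h _ ih => exact CycW.sim S T h ih
    | pair x y h h1 => exact CycW.pair x y h h1
    | join S T _ _ ih1 ih2 => exact CycW.join S T ih1 ih2
    | cancel S x y h h1 _ ih => exact CycW.cancel S x y h h1 ih
    | weil4 r m b S h => exact CycW.weil4 r m b S h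
    | weil6 r m S h => exact CycW.weil6 r m true S h
  exact ⟨h, fun R hR S j h1 h2 h3 => h S (hR S j h1 h2 h3)⟩

end Pool.T4
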