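import Pool.Agent.Work.MP_223b32_t4.Interface9
import Pool.Agent.Work.MP_223b32_t4.MKA

/-! # Block MT9: the CM algebra with a totally real factor -/

namespace Pool.T4

open Pool.Agent.Work.MP_223b32_ag

section

variable {p : ℕ} [Fact p.Prime] {ι : Qb →+* PadicAlgCl p}

/-- The action on the points of the CM algebra. -/
@[reducible] noncomputable def MT9_act (V : Finset (UU ι)) (T : Finset Qb)
    (hV : ∀ g : GQ, ∀ v ∈ V, g • v ∈ V) (hT : ∀ g : GQ, ∀ t ∈ T, g t ∈ T) :
    MulAction GQ ({v : UU ι // v ∈ V} × {t : Qb // t ∈ T}) where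
  smul g x := (⟨g • x.1.1, hV g x.1.1 x.1.2⟩, ⟨g x.2.1, hT g x.2.1 x.2.2⟩)
  one_smul x := Prod.ext (Subtype.ext (one_smul GQ x.1.1)) (Subtype.ext rfl)
  mul_smul g h x := Prod.ext (Subtype.ext (mul_smul g h x.1.1)) (Subtype.ext rfl)

end

section

variable {G U : Type} [Group G] [AddCommGroup U] [Module ℚ U] [DistribMulAction G U]

omit [Module ℚ U] in
theorem MT9_pos {y : U} {V P : Finset U} (h : Half G y V P)
    (hs : ∀ g : G, ∀ v ∈ V, g • v ∈ V) {g : G} (hg : g • y = y) {v : U} (hv : v ∈ V) :
    g • v ∈ P ↔ v ∈ P := by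
  constructor
  · intro h1
    by_contra h2
    have h3 : -v ∈ P := by
      by_contra h4
      exact h2 ((h.half v hv).2 h4)
    have h5 := h.pos g hg _ h3
    rw [smul_neg] at h5
    exact (h.half _ (hs g v hv)).1 h1 h5
  · intro h1
    exact h.pos g hg v h1

omit [Module ℚ U] in
theorem MT9_neg {y : U} {V P : Finset U} (h : Half G y V P)
    (hs : ∀ g : G, ∀ v ∈ V, g • v ∈ V) {g : G} (hg : g • y = -y) {v : U} (hv : v ∈ V) :
    g • v ∈ P ↔ v ∉ P := by
  constructor
  · intro h1 h2
    exact (h.half _ (hs g v hv)).1 h1 (h.neg g hg v h2)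
  · intro h1
    have h3 : -v ∈ P := by
      by_contra h4
      exact h1 ((h.half v hv).2 h4)
    have h5 := h.neg g hg _ h3
    rw [smul_neg, neg_neg] at h5
    exact h5

end

theorem p_MT9 : Stmt_MT9 := by
  classical
  intro p _ a ι ρ c hc ha hD R hR y V m P hH hm T hTm hTs hTt hTc r m0 hm0 hr hgr
  have hW : ∀ x ∈ R, Weil (p ^ a) x := hR.weil
  have hVs : ∀ g : GQ, ∀ v ∈ V, g • v ∈ V := hH.orbit.stable
  have hneg : ∀ v ∈ V, -v ∈ V := by
    intro v hv
    rw [← MKA_conj hc v]
    exact hVs c v hv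
  have hnz : ∀ v ∈ V, v ≠ 0 := hH.orbit.nz
  have hHf : Half GQ y V P := hH.half
  have hr0 : r ≠ 0 := by
    intro h
    rw [h] at hr
    have h1 : (m0 : Qb) = 0 := by
      rw [zero_pow (by norm_num)] at hr
      exact neg_eq_zero.1 hr.symm
    rw [Rat.cast_eq_zero] at h1
    exact hm0.ne' h1
  have hrr : r ≠ -r := by
    intro h
    have h1 : r + r = 0 := by
      nth_rewrite 2 [h]
      exact add_neg_cancel r
    have h2 : (2 : Qb) * r = 0 := by
      rw [two_mul]
      exact h1
    exact hr0 ((mul_eq_zero.1 h2).resolve_left (by norm_num))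
  have hgneg : ∀ g : GQ, g r ≠ r → g r = -r := by
    intro g hg
    have h1 : (g r) ^ 2 = r ^ 2 := by
      rw [← map_pow, hr, map_neg, map_ratCast]
    exact (sq_eq_sq_iff_eq_or_eq_neg.1 h1).resolve_left hg
  have hal : ∀ x : {v : UU ι // v ∈ V} × {t : Qb // t ∈ T}, ∃ y ∈ R,
      uu (p ^ a) ι y = x.1.1 := by
    intro x
    exact Multiset.mem_map.1 (hH.mul x.1.1 x.1.2).1
  choose al hal1 hal2 using hal
  let act : MulAction GQ ({v : UU ι // v ∈ V} × {t : Qb // t ∈ T}) := MT9_act V T hVs hTs
  let A : CMAlg (p ^ a) ({v : UU ι // v ∈ V} × {t : Qb // t ∈ T}) r m0 :=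
    { c := fun x => (⟨-x.1.1, hneg x.1.1 x.1.2⟩, x.2)
      al := al
      ka := fun x => if x.1.1 ∈ P then r else -r
      isOpen := by
        refine ⟨IntermediateField.adjoin ℚ ({x | x ∈ R} ∪ (T : Set Qb)), ?_, ?_⟩
        · have hfin : Finite (({x | x ∈ R} ∪ (T : Set Qb) : Set Qb)) := by
            have h1 : ({x | x ∈ R} : Set Qb) = (R.toFinset : Set Qb) := by
              ext x
              simp
            rw [h1]
            exact ((R.toFinset.finite_toSet).union T.finite_toSet).to_subtype
          exact IntermediateField.finiteDimensional_adjoin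
            (fun x _ => (AlgebraicClosure.isAlgebraic ℚ).isAlgebraic x |>.isIntegral)
        · intro g hg x
          have h1 : g (al x) = al x :=
            hg _ (IntermediateField.subset_adjoin ℚ _ (Or.inl (hal1 x)))
          have h2 : g x.2.1 = x.2.1 :=
            hg _ (IntermediateField.subset_adjoin ℚ _ (Or.inr x.2.2))
          refine Prod.ext (Subtype.ext ?_) (Subtype.ext h2)
          show g • x.1.1 = x.1.1
          rw [← hal2 x, ← hD.smul _ (hW _ (hal1 x)) g, h1]
      conj := fun ρ' g hg x => Prod.ext (Subtype.ext (MKA_conj hg x.1.1))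
        (Subtype.ext (hTc ρ' g hg x.2.1 x.2.2))
      c_ne := fun x h => SGN_neg_ne (hnz x.1.1 x.1.2)
        (congrArg Subtype.val (congrArg Prod.fst h)).symm
      weil := fun x => hW _ (hal1 x)
      al_smul := by
        intro g x
        rw [hD.sim _ _ (hW _ (hal1 _)) (hD.weil _ (hW _ (hal1 x)) g), hal2,
          hD.smul _ (hW _ (hal1 x)) g, hal2]
        rfl
      m_pos := hm0
      r_sq := hr
      ka_eq := by
        intro x
        by_cases h : x.1.1 ∈ P
        · left
          rw [if_pos h]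
        · right
          rw [if_neg h]
      ka_smul := by
        intro g x
        show (if g • x.1.1 ∈ P then r else -r) = g (if x.1.1 ∈ P then r else -r)
        rcases hH.line.2 g with h | h
        · have h1 : g r = r := (hgr g).2 h
          have h3 := MT9_pos hHf hVs h x.1.2
          by_cases h2 : x.1.1 ∈ P
          · rw [if_pos h2, if_pos (h3.2 h2), h1]
          · rw [if_neg h2, if_neg (fun h4 => h2 (h3.1 h4)), map_neg, h1]
        · have h1 : g r = -r := by
            apply hgneg
            intro h2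
            rw [hgr, h] at h2
            exact SGN_neg_ne hH.line.1 h2.symm
          have h3 := MT9_neg hHf hVs h x.1.2
          by_cases h2 : x.1.1 ∈ P
          · rw [if_pos h2, if_neg (fun h4 => h3.1 h4 h2), h1]
          · rw [if_neg h2, if_pos (h3.2 h2), map_neg, h1, neg_neg] }
  refine ⟨{v : UU ι // v ∈ V} × {t : Qb // t ∈ T}, inferInstance, act, A, ?_, ?_⟩
  · intro x
    obtain ⟨n, hn⟩ := hH.orbit.ht x.1.1 x.1.2
    refine ⟨n, ?_⟩
    have h1 : (locOrb ι x).ncard = m * (orb (dec ι) x.1.1).ncard := by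
      have h2 : (fun z : {v : UU ι // v ∈ V} × {t : Qb // t ∈ T} =>
          ((z.1.1, z.2.1) : UU ι × Qb)) '' (locOrb ι x) =
          (orb (dec ι) x.1.1) ×ˢ (T : Set Qb) := by
        ext ⟨w, t⟩
        rw [Set.mem_prod]
        constructor
        · rintro ⟨z, ⟨g, hg, rfl⟩, he⟩
          have he1 : g • x.1.1 = w := congrArg Prod.fst he
          have he2 : g x.2.1 = t := congrArg Prod.snd he
          exact ⟨⟨g, hg, he1.symm⟩, by
            show t ∈ (T : Set Qb)
            rw [← he2]
            exact hTs g _ x.2.2⟩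
        · rintro ⟨⟨g, hg, hgw⟩, ht⟩
          have ht' : t ∈ T := ht
          rcases hm with h | h
          · have hT1 : T.card = 1 := by rw [hTm, h]
            refine ⟨g • x, ⟨g, hg, rfl⟩, ?_⟩
            refine Prod.ext hgw.symm ?_
            exact Finset.card_le_one.1 (le_of_eq hT1) _ (hTs g _ x.2.2) _ ht'
          · obtain ⟨d, hd, hdt⟩ := hTt x.2.1 x.2.2 t ht'
            refine ⟨d • x, ⟨d, hd, rfl⟩, ?_⟩
            refine Prod.ext ?_ hdt
            show d • x.1.1 = w
            have hgw' : w = g • x.1.1 := hgw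
            rw [hgw', h d hd _ x.1.2, h g hg _ x.1.2]
      have hinj : Function.Injective (fun z : {v : UU ι // v ∈ V} × {t : Qb // t ∈ T} =>
          ((z.1.1, z.2.1) : UU ι × Qb)) := by
        intro z z' hz
        exact Prod.ext (Subtype.ext (congrArg Prod.fst hz)) (Subtype.ext (congrArg Prod.snd hz))
      rw [← Set.ncard_image_of_injective _ hinj, h2, Set.ncard_prod, Set.ncard_coe_finset, hTm,
        mul_comm]
    have h3 := (hD.nrm (al x) (hW _ (hal1 x)) 1
      (locOrb ι x).ncard n).2 (by
        rw [h1, ← hD.mem _ (hW _ (hal1 x)), hal2 x]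
        exact hn)
    rw [AlgEquiv.one_apply] at h3
    exact h3
  · have hka : ∀ z : {v : UU ι // v ∈ V} × {t : Qb // t ∈ T}, A.ka z = r ↔ z.1.1 ∈ P := by
      intro z
      show (if z.1.1 ∈ P then r else -r) = r ↔ z.1.1 ∈ P
      by_cases h : z.1.1 ∈ P
      · rw [if_pos h]
        exact ⟨fun _ => h, fun _ => rfl⟩
      · rw [if_neg h]
        exact ⟨fun h1 => absurd h1.symm hrr, fun h1 => absurd h1 h⟩
    have hhalf : ∀ (F : Fintype ({v : UU ι // v ∈ V} × {t : Qb // t ∈ T}))
        (z : {v : UU ι // v ∈ V} × {t : Qb // t ∈ T}),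
        z ∈ (@CMAlg.half (p ^ a) ({v : UU ι // v ∈ V} × {t : Qb // t ∈ T}) act r m0 F A) ↔
          z.1.1 ∈ P := by
      intro F z
      unfold CMAlg.half
      rw [Finset.mem_filter, hka]
      exact ⟨fun h => h.2, fun h => ⟨Finset.mem_univ z, h⟩⟩
    have key : ∀ (F : Fintype ({v : UU ι // v ∈ V} × {t : Qb // t ∈ T})),
        ((@CMAlg.half (p ^ a) ({v : UU ι // v ∈ V} × {t : Qb // t ∈ T}) act r m0 F A).val.map
          A.al).map (uu (p ^ a) ι) = m • P.val := by
      intro F
      rw [Multiset.map_map]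
      ext v
      rw [Multiset.count_map, Multiset.count_nsmul]
      have h1 : ((@CMAlg.half (p ^ a) ({v : UU ι // v ∈ V} × {t : Qb // t ∈ T}) act r m0 F
          A).val.filter fun z => v = ((uu (p ^ a) ι) ∘ A.al) z) =
          (@CMAlg.half (p ^ a) ({v : UU ι // v ∈ V} × {t : Qb // t ∈ T}) act r m0 F
          A).val.filter fun z => v = z.1.1 := by
        refine Multiset.filter_congr fun z _ => ?_
        show v = uu (p ^ a) ι (al z) ↔ v = z.1.1
        rw [hal2 z]
      rw [h1]
      by_cases hv : v ∈ P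
      · rw [Multiset.count_eq_one_of_mem P.nodup hv, mul_one]
        have h2 : ((@CMAlg.half (p ^ a) ({v : UU ι // v ∈ V} × {t : Qb // t ∈ T}) act r m0 F
            A).filter fun z => v = z.1.1) =
            T.attach.map ⟨fun t => ((⟨v, hHf.sub hv⟩, t) :
              {v : UU ι // v ∈ V} × {t : Qb // t ∈ T}), fun t t' h => congrArg Prod.snd h⟩ := by
          ext z
          rw [Finset.mem_filter, hhalf, Finset.mem_map]
          constructor
          · rintro ⟨_, h3⟩
            refine ⟨z.2, Finset.mem_attach _ _, ?_⟩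
            exact Prod.ext (Subtype.ext h3) rfl
          · rintro ⟨t, _, rfl⟩
            exact ⟨hv, rfl⟩
        have h3 := congrArg Finset.card h2
        rw [Finset.card_map, Finset.card_attach, hTm] at h3
        exact h3
      · rw [Multiset.count_eq_zero_of_notMem hv, mul_zero, Multiset.card_eq_zero,
          Multiset.filter_eq_nil]
        intro z hz h3
        have h4 : z.1.1 ∈ P := (hhalf F z).1 hz
        rw [← h3] at h4
        exact hv h4
    exact key _

end Pool.T4
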