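import Pool.Agent.Work.MP_223b32_t4.Interface10

/-!
Block OD10: a relation with an odd number of vectors.
-/

namespace Pool.T4

open Pool.Agent.Work.MP_223b32_ag

section OD10

variable {G U : Type} [Group G] [AddCommGroup U] [Module ℚ U] [DistribMulAction G U]

omit [Group G] [DistribMulAction G U] in
lemma OD10_tf (n : ℤ) (hn : n ≠ 0) (u v : U) (h : n • u = n • v) : u = v := by
  have h1 : (n : ℚ) • u = (n : ℚ) • v := by
    rw [Int.cast_smul_eq_zsmul, Int.cast_smul_eq_zsmul, h]
  have hn' : (n : ℚ) ≠ 0 := by exact_mod_cast hn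
  have h2 : (n : ℚ)⁻¹ • (n : ℚ) • u = (n : ℚ)⁻¹ • (n : ℚ) • v := by rw [h1]
  rwa [smul_smul, smul_smul, inv_mul_cancel₀ hn', one_smul, one_smul] at h2

omit [Group G] [DistribMulAction G U] in
lemma OD10_tf2 (u v : U) (h : 2 • u = 2 • v) : u = v := by
  apply OD10_tf 2 two_ne_zero
  have h1 : ∀ w : U, (2 : ℤ) • w = 2 • w := fun w => by
    rw [two_zsmul, two_nsmul]
  rw [h1, h1, h]

omit [Group G] [Module ℚ U] [DistribMulAction G U] in
lemma OD10_split {M : Type} [AddCommMonoid M] {V P : Finset U} (hsub : P ⊆ V)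
    (hneg : ∀ v ∈ V, -v ∈ V) (hhalf : ∀ v ∈ V, v ∈ P ↔ -v ∉ P) (g : U → M) :
    ∑ v ∈ V, g v = ∑ v ∈ P, (g v + g (-v)) := by
  classical
  have hV : V = P ∪ P.image (fun v => -v) := by
    ext v
    simp only [Finset.mem_union, Finset.mem_image]
    constructor
    · intro hv
      by_cases h : v ∈ P
      · exact Or.inl h
      · right
        refine ⟨-v, ?_, neg_neg v⟩
        by_contra h'
        exact h ((hhalf v hv).2 h')
    · rintro (h | ⟨u, hu, rfl⟩)
      · exact hsub h
      · exact hneg u (hsub hu)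
  have hd : Disjoint P (P.image (fun v => -v)) := by
    rw [Finset.disjoint_left]
    intro v hv hv'
    obtain ⟨u, hu, rfl⟩ := Finset.mem_image.1 hv'
    have h3 := (hhalf _ (hsub hv)).1 hv
    rw [neg_neg] at h3
    exact h3 hu
  rw [hV, Finset.sum_union hd, Finset.sum_image (fun a _ b _ h => neg_injective h),
    Finset.sum_add_distrib]

omit [Module ℚ U] in
lemma OD10_star (h2 : Stmt_EQC) [Module ℚ U] (K : Core G U) {V P : Finset U} {m : ℕ}
    (hO : IsOrb K V m) (hsub : P ⊆ V)
    (hneg : ∀ v ∈ V, -v ∈ V) (hhalf : ∀ v ∈ V, v ∈ P ↔ -v ∉ P) (f : U → ℤ)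
    (hf : ∑ v ∈ P, f v • v = 0) (hne : ∃ v ∈ P, f v ≠ 0) :
    ∃ t : ℤ, 0 < t ∧ (∀ u ∈ P, f u = t ∨ f u = -t) := by
  classical
  have hPn : ∀ u ∈ P, ∀ v ∈ P, -v ≠ u := by
    intro u hu v hv h
    have h3 := (hhalf u (hsub hu)).1 hu
    rw [← h, neg_neg] at h3
    exact h3 hv
  set F : Multiset U := ∑ v ∈ P,
    (Multiset.replicate (f v).toNat v + Multiset.replicate (-f v).toNat (-v)) with hF
  have hc1 : ∀ u ∈ P, F.count u = (f u).toNat := by
    intro u hu
    rw [hF, Multiset.count_sum', Finset.sum_eq_single u]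
    · rw [Multiset.count_add, Multiset.count_replicate_self, Multiset.count_replicate,
        if_neg (hPn u hu u hu), add_zero]
    · intro v hv hvu
      rw [Multiset.count_add, Multiset.count_replicate, Multiset.count_replicate,
        if_neg hvu, if_neg (hPn u hu v hv), add_zero]
    · intro h
      exact absurd hu h
  have hc2 : ∀ u ∈ P, F.count (-u) = (-f u).toNat := by
    intro u hu
    rw [hF, Multiset.count_sum', Finset.sum_eq_single u]
    · rw [Multiset.count_add, Multiset.count_replicate_self, Multiset.count_replicate,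
        if_neg (fun h => hPn u hu u hu h.symm), zero_add]
    · intro v hv hvu
      rw [Multiset.count_add, Multiset.count_replicate, Multiset.count_replicate,
        if_neg (fun h => hPn v hv u hu h.symm), if_neg (fun h => hvu (neg_injective h)),
        add_zero]
    · intro h
      exact absurd hu h
  have hFV : ∀ v ∈ F, v ∈ V := by
    intro v hv
    rw [hF, Multiset.mem_sum] at hv
    obtain ⟨u, hu, hvu⟩ := hv
    rw [Multiset.mem_add] at hvu
    rcases hvu with h | h
    · rw [Multiset.eq_of_mem_replicate h]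
      exact hsub hu
    · rw [Multiset.eq_of_mem_replicate h]
      exact hneg u (hsub hu)
  have hFs : F.sum = 0 := by
    have h3 : F.sum = ∑ v ∈ P,
        (Multiset.replicate (f v).toNat v + Multiset.replicate (-f v).toNat (-v)).sum := by
      rw [hF]
      exact map_sum (Multiset.sumAddMonoidHom : Multiset U →+ U) _ _
    rw [h3, ← hf]
    apply Finset.sum_congr rfl
    intro v _
    rw [Multiset.sum_add, Multiset.sum_replicate, Multiset.sum_replicate,
      ← natCast_zsmul v, ← natCast_zsmul (-v), zsmul_neg, ← sub_zsmul,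
      Int.toNat_sub_toNat_neg]
  have hkey : ∀ u ∈ P, ¬ (u ∈ F ∧ -u ∈ F) := by
    rintro u hu ⟨h3, h4⟩
    have h5 := Multiset.count_pos.2 h3
    have h6 := Multiset.count_pos.2 h4
    rw [hc1 u hu] at h5
    rw [hc2 u hu] at h6
    omega
  have hNP : NoPair F := by
    intro a b hab hs
    have ha : a ∈ F := Multiset.mem_of_le hab (by simp)
    have hb : b ∈ F := Multiset.mem_of_le hab (by simp)
    have hb' : b = -a := by
      rw [eq_neg_iff_add_eq_zero, add_comm]
      exact hs
    rw [hb'] at hb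
    by_cases haP : a ∈ P
    · exact hkey a haP ⟨ha, hb⟩
    · have h3 : -a ∈ P := by
        by_contra h'
        exact haP ((hhalf a (hFV a ha)).2 h')
      apply hkey (-a) h3
      rw [neg_neg]
      exact ⟨hb, ha⟩
  have hFne : F ≠ 0 := by
    intro h0
    obtain ⟨v, hv, hfv⟩ := hne
    have h3 := hc1 v hv
    have h4 := hc2 v hv
    rw [h0, Multiset.count_zero] at h3 h4
    omega
  obtain ⟨t, J, ht, hFJ, -, -, -, hJc, -, -⟩ := h2 G U K V m hO F hFV hFs hNP hFne
  refine ⟨t, by exact_mod_cast ht, ?_⟩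
  intro u hu
  rcases hJc u (hsub hu) with h | h
  · left
    have h3 := hc1 u hu
    rw [hFJ, Multiset.count_nsmul, Multiset.count_eq_one_of_mem J.nodup h, mul_one] at h3
    omega
  · right
    have h3 := hc2 u hu
    rw [hFJ, Multiset.count_nsmul, Multiset.count_eq_one_of_mem J.nodup h, mul_one] at h3
    omega

omit [Module ℚ U] in
lemma OD10_four (h2 : Stmt_EQC) [Module ℚ U] (K : Core G U) {V P : Finset U} {m : ℕ} {y : U}
    (hO : IsOrb K V m) (hsub : P ⊆ V)
    (hneg : ∀ v ∈ V, -v ∈ V) (hhalf : ∀ v ∈ V, v ∈ P ↔ -v ∉ P) (hP4 : P.card = 4)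
    (hs : P.sum id = 2 • y) (hy0 : y ≠ 0) (hyV : y ∉ V) (f : U → ℤ)
    (hf : ∑ v ∈ P, f v • v = 0) (hne : ∃ v ∈ P, f v ≠ 0) :
    ∑ v ∈ P, f v = 0 ∧ ∃ u ∈ V, ∃ u' ∈ V, u + u' = y := by
  classical
  obtain ⟨t, ht, htf⟩ := OD10_star h2 K hO hsub hneg hhalf f hf hne
  set A := P.filter (fun v => f v = t) with hA
  set B := P.filter (fun v => ¬ f v = t) with hB
  have hfB : ∀ v ∈ B, f v = -t := by
    intro v hv
    rw [hB, Finset.mem_filter] at hv
    rcases htf v hv.1 with h | h
    · exact absurd h hv.2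
    · exact h
  have hfA : ∀ v ∈ A, f v = t := by
    intro v hv
    rw [hA, Finset.mem_filter] at hv
    exact hv.2
  have hAP : A ⊆ P := Finset.filter_subset _ _
  have hBP : B ⊆ P := Finset.filter_subset _ _
  have h3 : A.sum id + B.sum id = 2 • y := by
    rw [← hs]
    exact Finset.sum_filter_add_sum_filter_not P _ _
  have h4 : t • A.sum id + -(t • B.sum id) = 0 := by
    rw [← hf, ← Finset.sum_filter_add_sum_filter_not P (fun v => f v = t) (fun v => f v • v)]
    congr 1
    · rw [Finset.smul_sum]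
      apply Finset.sum_congr rfl
      intro v hv
      rw [hfA v hv, id]
    · rw [Finset.smul_sum, ← Finset.sum_neg_distrib]
      apply Finset.sum_congr rfl
      intro v hv
      rw [hfB v hv, id, neg_smul]
  have h5 : A.sum id = B.sum id := by
    apply OD10_tf t ht.ne'
    rw [← sub_eq_zero, sub_eq_add_neg]
    exact h4
  have h6 : A.sum id = y := by
    apply OD10_tf2
    rw [← h3, ← h5, two_nsmul]
  have h7 : B.sum id = y := by rw [← h5, h6]
  have h8 : ∀ X : Finset U, X ⊆ P → X.sum id = y → 2 ≤ X.card := by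
    intro X hXP hX
    by_contra hlt
    have h9 : X.card = 0 ∨ X.card = 1 := by omega
    rcases h9 with h9 | h9
    · rw [Finset.card_eq_zero] at h9
      rw [h9, Finset.sum_empty] at hX
      exact hy0 hX.symm
    · obtain ⟨a, ha⟩ := Finset.card_eq_one.1 h9
      rw [ha, Finset.sum_singleton, id] at hX
      apply hyV
      rw [← hX]
      apply hsub
      apply hXP
      rw [ha]
      exact Finset.mem_singleton_self a
  have h9 : A.card + B.card = 4 := by
    rw [← hP4]
    exact Finset.card_filter_add_card_filter_not _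
  have hA2 : A.card = 2 := by
    have := h8 A hAP h6
    have := h8 B hBP h7
    omega
  have hB2 : B.card = 2 := by omega
  constructor
  · rw [← Finset.sum_filter_add_sum_filter_not P (fun v => f v = t) f]
    have h10 : ∑ v ∈ A, f v = 2 * t := by
      rw [Finset.sum_congr rfl hfA, Finset.sum_const, hA2]
      ring
    have h11 : ∑ v ∈ B, f v = -(2 * t) := by
      rw [Finset.sum_congr rfl hfB, Finset.sum_const, hB2]
      ring
    rw [← hA, ← hB, h10, h11]
    ring
  · obtain ⟨a, b, hab, hAab⟩ := Finset.card_eq_two.1 hA2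
    refine ⟨a, hsub (hAP ?_), b, hsub (hAP ?_), ?_⟩
    · rw [hAab]
      simp
    · rw [hAab]
      simp
    · rw [← h6, hAab, Finset.sum_pair hab]
      rfl

theorem p_OD10 (h1 : Stmt_DT9) (h2 : Stmt_EQC) : Stmt_OD10 := by
  intro G U _ _ _ _ K R y V m P hH S hSR hS0 hNP hodd
  classical
  have hneg : ∀ v ∈ V, -v ∈ V := fun v hv => by
    rw [← K.cc v]
    exact hH.orbit.stable K.c0 v hv
  obtain ⟨hmP, hm⟩ := h1 G U K R y V m P hH
  have hm0 : 0 < m := hH.orbit.m_pos
  have hVP : V.card = 2 * P.card := by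
    have h3 : m * V.card = m * (2 * P.card) := by
      rw [hH.card]
      calc 8 = 2 * 4 := rfl
        _ = 2 * (m * P.card) := by rw [hmP]
        _ = m * (2 * P.card) := by ring
    exact Nat.eq_of_mul_eq_mul_left hm0 h3
  have hsub := hH.half.sub
  have hhalf := hH.half.half
  have hy0 : y ≠ 0 := hH.line.1
  have hyV : y ∉ V := hH.ny
  have hnyV : -y ∉ V := fun h => hyV (by
    have h3 := hneg _ h
    rwa [neg_neg] at h3)
  have hyny : y ≠ -y := by
    intro h
    apply hy0
    apply OD10_tf2
    rw [two_nsmul, smul_zero]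
    nth_rewrite 2 [h]
    rw [add_neg_cancel]
  have hSV : ∀ v ∈ S, v ∈ V ∨ v = y ∨ v = -y := fun v hv => hH.mem v (hSR v hv)
  have hW : ∀ v ∈ S, v ∈ V ∪ {y, -y} := by
    intro v hv
    rw [Finset.mem_union, Finset.mem_insert, Finset.mem_singleton]
    exact hSV v hv
  have hdis : Disjoint V ({y, -y} : Finset U) := by
    rw [Finset.disjoint_right]
    intro v hv
    rw [Finset.mem_insert, Finset.mem_singleton] at hv
    rcases hv with rfl | rfl
    · exact hyV
    · exact hnyV
  have hWsum : ∀ {M : Type} [AddCommMonoid M] (g : U → M),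
      ∑ v ∈ V ∪ {y, -y}, g v = ∑ v ∈ P, (g v + g (-v)) + (g y + g (-y)) := by
    intro M _ g
    rw [Finset.sum_union hdis, Finset.sum_pair hyny, OD10_split hsub hneg hhalf]
  set d : U → ℤ := fun v => (S.count v : ℤ) - S.count (-v) with hd
  have hsum : ∑ v ∈ P, d v • v + d y • y = 0 := by
    have h3 : ∀ v : U, S.count v • v + S.count (-v) • (-v) = d v • v := by
      intro v
      rw [hd]
      simp only []
      rw [sub_zsmul, natCast_zsmul, natCast_zsmul, smul_neg]
    rw [← hS0, Finset.sum_multiset_count_of_subset S (V ∪ {y, -y}) (fun v hv =>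
      hW v (Multiset.mem_toFinset.1 hv)), hWsum, h3 y, Finset.sum_congr rfl (fun v _ => h3 v)]
  have hcard : ∃ k : ℤ, (S.card : ℤ) = ∑ v ∈ P, d v + d y + 2 * k := by
    refine ⟨∑ v ∈ P, (S.count (-v) : ℤ) + S.count (-y), ?_⟩
    have h3 : S.card = ∑ v ∈ V ∪ {y, -y}, S.count v := (Multiset.sum_count_eq_card hW).symm
    rw [h3, hWsum]
    push_cast
    simp only [hd]
    rw [Finset.sum_add_distrib, Finset.sum_sub_distrib]
    ring
  have hSne : S ≠ 0 := by
    rintro rfl
    exact hodd (by simp)
  have hyS : y ∈ S ∨ -y ∈ S := by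
    by_contra hcon
    push Not at hcon
    have hSV' : ∀ v ∈ S, v ∈ V := by
      intro v hv
      rcases hSV v hv with h | h | h
      · exact h
      · exact absurd (h ▸ hv) hcon.1
      · exact absurd (h ▸ hv) hcon.2
    obtain ⟨t, J, ht, hSJ, -, -, -, -, hJcard, h34⟩ := h2 G U K V m hH.orbit S hSV' hS0 hNP hSne
    have hJ4 : J.card = 4 := by
      rcases h34 with h | h
      · exfalso
        have h5 : P.card = 3 := by omega
        rw [h5] at hmP
        omega
      · exact h
    apply hodd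
    rw [hSJ, Multiset.card_nsmul, Finset.card_val, hJ4]
    exact ⟨2 * t, by ring⟩
  refine ⟨?_, hyS⟩
  have hs := hH.sum
  rcases hm with rfl | ⟨rfl | rfl, -⟩
  · -- `m = 1`
    have hP4 : P.card = 4 := by omega
    have hs1 : P.sum id = 2 • y := by rwa [one_smul] at hs
    obtain ⟨k, hk⟩ := hcard
    rcases Int.even_or_odd' (d y) with ⟨c, hc | hc⟩
    · -- even
      exfalso
      have hrel : ∑ v ∈ P, (d v + c) • v = 0 := by
        rw [Finset.sum_congr rfl (fun v _ => add_zsmul v (d v) c), Finset.sum_add_distrib,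
          ← Finset.smul_sum, ← hsum, hc]
        congr 1
        have h5 : ∑ v ∈ P, v = 2 • y := hs1
        rw [h5, mul_comm, mul_zsmul, two_zsmul, two_nsmul]
      have hev : ∑ v ∈ P, (d v + c) = 0 := by
        by_cases hne : ∃ v ∈ P, d v + c ≠ 0
        · exact (OD10_four h2 K hH.orbit hsub hneg hhalf hP4 hs1 hy0 hyV _ hrel hne).1
        · push Not at hne
          exact Finset.sum_eq_zero hne
      rw [Finset.sum_add_distrib, Finset.sum_const, hP4] at hev
      apply hodd
      have h6 : (4 : ℕ) • c = 4 * c := by simp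
      rw [h6] at hev
      have h7 : (S.card : ℤ) = 2 * (k - c) := by linarith
      have h8 : Even (S.card : ℤ) := ⟨k - c, by rw [h7]; ring⟩
      exact_mod_cast h8
    · -- odd
      have hrel : ∑ v ∈ P, (2 * d v + d y) • v = 0 := by
        rw [Finset.sum_congr rfl (fun v _ => add_zsmul v (2 * d v) (d y)),
          Finset.sum_add_distrib, ← Finset.smul_sum]
        have h5 : ∑ v ∈ P, v = 2 • y := hs1
        have h6 : ∑ v ∈ P, (2 * d v) • v = (2 : ℤ) • ∑ v ∈ P, d v • v := by
          rw [Finset.smul_sum]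
          exact Finset.sum_congr rfl (fun v _ => mul_zsmul _ _ _)
        have h7 : d y • (2 • y) = (2 : ℤ) • (d y • y) := by
          rw [two_zsmul, two_nsmul, smul_add]
        rw [h5, h6, h7, ← smul_add, hsum, smul_zero]
      have hPne : P.Nonempty := by
        rw [← Finset.card_pos]
        omega
      obtain ⟨v, hv⟩ := hPne
      exact (OD10_four h2 K hH.orbit hsub hneg hhalf hP4 hs1 hy0 hyV _ hrel
        ⟨v, hv, by omega⟩).2
  · -- `m = 2`
    have hP2 : P.card = 2 := by omega
    obtain ⟨a, b, hab, hPab⟩ := Finset.card_eq_two.1 hP2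
    refine ⟨a, hsub ?_, b, hsub ?_, ?_⟩
    · rw [hPab]
      simp
    · rw [hPab]
      simp
    · rw [hPab, Finset.sum_pair hab] at hs
      exact OD10_tf2 _ _ hs
  · -- `m = 4`
    have hP1 : P.card = 1 := by omega
    obtain ⟨a, hPa⟩ := Finset.card_eq_one.1 hP1
    have haV : a ∈ V := hsub (by
      rw [hPa]
      exact Finset.mem_singleton_self a)
    refine ⟨a, haV, a, haV, ?_⟩
    rw [hPa, Finset.sum_singleton, id] at hs
    apply OD10_tf2
    rw [← hs, ← two_nsmul, smul_smul]
    norm_num

end OD10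

end Pool.T4
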