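import Pool.Agent.Work.MP_223b32_t4.Interface7

set_option autoImplicit false

namespace Pool.T4

open Pool.Agent.Work.MP_223b32_ag

/-- replace `a` by `b` -/
def PH7_rep {X : Type} (A : Set X) (a b : X) : Set X := {z | (z ∈ A ∧ z ≠ a) ∨ z = b}

theorem PH7_rep_eq {X : Type} (A : Set X) (a b : X) : PH7_rep A a b = insert b (A \ {a}) := by
  ext z
  simp only [PH7_rep, Set.mem_setOf_eq, Set.mem_insert_iff, Set.mem_diff, Set.mem_singleton_iff]
  tauto

theorem PH7_orb_symm {G X : Type} [Group G] [MulAction G X] (D : Subgroup G) {x y : X}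
    (h : y ∈ orb D x) : x ∈ orb D y := by
  obtain ⟨d, hd, rfl⟩ := h
  exact ⟨d⁻¹, D.inv_mem hd, by rw [inv_smul_smul]⟩

theorem PH7_orb_trans {G X : Type} [Group G] [MulAction G X] (D : Subgroup G) {x y z : X}
    (h : y ∈ orb D x) (h' : z ∈ orb D y) : z ∈ orb D x := by
  obtain ⟨d, hd, rfl⟩ := h
  obtain ⟨e, he, rfl⟩ := h'
  exact ⟨e * d, D.mul_mem he hd, by rw [mul_smul]⟩

theorem PH7_rep_count {G X : Type} [Group G] [Fintype X] [MulAction G X] (D : Subgroup G)
    (A : Set X) (a b : X) (ha : a ∈ A) (hb : b ∉ A) (hab : b ∈ orb D a) (y : X) :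
    (PH7_rep A a b ∩ orb D y).ncard = (A ∩ orb D y).ncard := by
  by_cases h : a ∈ orb D y
  · have hb' : b ∈ orb D y := PH7_orb_trans D h hab
    have e : PH7_rep A a b ∩ orb D y = insert b ((A ∩ orb D y) \ {a}) := by
      ext z
      simp only [PH7_rep, Set.mem_inter_iff, Set.mem_setOf_eq, Set.mem_insert_iff, Set.mem_diff,
        Set.mem_singleton_iff]
      constructor
      · rintro ⟨h1 | h1, h2⟩
        · exact Or.inr ⟨⟨h1.1, h2⟩, h1.2⟩
        · exact Or.inl h1
      · rintro (h1 | ⟨⟨h1, h2⟩, h3⟩)
        · exact ⟨Or.inr h1, h1 ▸ hb'⟩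
        · exact ⟨Or.inl ⟨h1, h3⟩, h2⟩
    rw [e, Set.ncard_insert_of_notMem (by
      intro hc
      exact hb hc.1.1) (Set.toFinite _)]
    exact Set.ncard_diff_singleton_add_one ⟨ha, h⟩ (Set.toFinite _)
  · have hb' : b ∉ orb D y := fun hc => h (PH7_orb_trans D hc (PH7_orb_symm D hab))
    have e : PH7_rep A a b ∩ orb D y = A ∩ orb D y := by
      ext z
      simp only [PH7_rep, Set.mem_inter_iff, Set.mem_setOf_eq]
      constructor
      · rintro ⟨h1 | h1, h2⟩
        · exact ⟨h1.1, h2⟩
        · exact absurd (h1 ▸ h2) hb'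
      · rintro ⟨h1, h2⟩
        exact ⟨Or.inl ⟨h1, fun hc => h (hc ▸ h2)⟩, h2⟩
    rw [e]

theorem PH7_rep_T {X : Type} [Fintype X] (A H : Set X) (a b : X) :
    (PH7_rep A a b ∩ H).ncard ≤ (A ∩ H).ncard + 1 := by
  have h1 : PH7_rep A a b ∩ H ⊆ insert b (A ∩ H) := by
    rintro z ⟨hz | hz, hH⟩
    · exact Or.inr ⟨hz.1, hH⟩
    · exact Or.inl hz
  exact (Set.ncard_le_ncard h1 (Set.toFinite _)).trans (Set.ncard_insert_le _ _)

theorem PH7_rep_diff {X : Type} [Fintype X] (A B : Set X) (a b : X) (ha : a ∈ A) (haB : a ∉ B)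
    (hb : b ∈ B) : (PH7_rep A a b \ B).ncard < (A \ B).ncard := by
  apply Set.ncard_lt_ncard _ (Set.toFinite _)
  refine ⟨?_, ?_⟩
  · rintro z ⟨hz | hz, hB⟩
    · exact ⟨hz.1, hB⟩
    · exact absurd (hz ▸ hb) hB
  · intro hc
    have h1 := hc ⟨ha, haB⟩
    rcases h1.1 with h2 | h2
    · exact h2.2 rfl
    · exact haB (h2 ▸ hb)

theorem PH7_card {X : Type} [Fintype X] (c : X → X) (hc : ∀ x, c (c x) = x) (A : Set X)
    (hA : ∀ x, x ∈ A ↔ c x ∉ A) : 2 * A.ncard = Nat.card X := by
  have h1 : c '' A = Aᶜ := by
    ext z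
    constructor
    · rintro ⟨y, hy, rfl⟩
      exact (hA y).1 hy
    · intro hz
      refine ⟨c z, ?_, hc z⟩
      by_contra h2
      exact hz ((hA z).2 h2)
  have h2 : (c '' A).ncard = A.ncard := by
    apply Set.ncard_image_of_injective
    intro x y hxy
    rw [← hc x, ← hc y, hxy]
  have h3 := Set.ncard_add_ncard_compl A
  rw [← h1, h2] at h3
  omega

/-- the good sets -/
def PH7_Good {G X : Type} [Group G] [MulAction G X] (D : Subgroup G) (c : X → X) (Phi A : Set X) :
    Prop :=
  (∀ x, x ∈ A ↔ c x ∉ A) ∧ ∀ x, (A ∩ orb D x).ncard = (Phi ∩ orb D x).ncard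

theorem PH7_step {G X : Type} [Group G] [Fintype X] [MulAction G X] (D : Subgroup G) (c : X → X)
    (H Phi : Set X) (hc : ∀ x, c (c x) = x) (hcd : ∀ d ∈ D, ∀ x, c (d • x) = d • c x)
    (hno : ∀ Psi : Set X, PH7_Good D c Phi Psi → ¬ ((Psi ∩ H).ncard = 2 ∨ (Psi ∩ H).ncard = 3)) :
    ∀ (k : ℕ) (A B : Set X), PH7_Good D c Phi A → PH7_Good D c Phi B → (A ∩ H).ncard ≤ 1 →
      4 ≤ (B ∩ H).ncard → (A \ B).ncard = k → False := by
  intro k
  induction k using Nat.strong_induction_on with
  | _ k ih =>
    intro A B hA hB hTA hTB hk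
    have hAB : A.ncard = B.ncard := by
      have h1 := PH7_card c hc A hA.1
      have h2 := PH7_card c hc B hB.1
      omega
    have hx : ∃ x, x ∈ A ∧ x ∉ B := by
      by_contra hcon
      push Not at hcon
      have h1 : A ⊆ B := hcon
      have h2 : A = B := Set.eq_of_subset_of_ncard_le h1 hAB.ge (Set.toFinite _)
      rw [h2] at hTA
      omega
    obtain ⟨x, hxA, hxB⟩ := hx
    have hcxA : c x ∉ A := (hA.1 x).1 hxA
    have hcxB : c x ∈ B := by
      by_contra h
      exact hxB ((hB.1 x).2 h)
    have hinj : ∀ u v : X, c u = v ↔ u = c v := by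
      intro u v
      constructor
      · rintro rfl; exact (hc u).symm
      · rintro rfl; exact hc v
    by_cases hcase : c x ∈ orb D x
    · -- one exchange
      have hgood : PH7_Good D c Phi (PH7_rep A x (c x)) := by
        refine ⟨?_, ?_⟩
        · intro z
          by_cases hzx : z = x
          · subst hzx
            constructor
            · rintro (h | h)
              · exact absurd rfl h.2
              · exact absurd (h ▸ hxA) hcxA
            · intro h
              exact absurd (Or.inr rfl) h
          · by_cases hzc : z = c x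
            · subst hzc
              constructor
              · intro _
                rw [hc]
                rintro (h | h)
                · exact h.2 rfl
                · exact absurd (h ▸ hxA) hcxA
              · intro _
                exact Or.inr rfl
            · have h1 := hA.1 z
              have h2 : c z ≠ x := by
                rw [Ne, hinj]; exact hzc
              have h3 : c z ≠ c x := by
                intro h
                rw [hinj, hc] at h
                exact hzx h
              constructor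
              · rintro (h | h)
                · rintro (h' | h')
                  · exact (h1.1 h.1) h'.1
                  · exact h3 h'
                · exact absurd h hzc
              · intro h
                refine Or.inl ⟨h1.2 ?_, hzx⟩
                intro h'
                exact h (Or.inl ⟨h', h2⟩)
        · intro y
          rw [PH7_rep_count D A x (c x) hxA hcxA hcase y]
          exact hA.2 y
      have hT := PH7_rep_T A H x (c x)
      have hT' := hno _ hgood
      have hlt := PH7_rep_diff A B x (c x) hxA hxB hcxB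
      exact ih _ (hk ▸ hlt) (PH7_rep A x (c x)) B hgood hB (by omega) hTB rfl
    · -- two exchanges
      have hy : ∃ y, y ∈ B ∧ y ∈ orb D x ∧ y ∉ A := by
        by_contra hcon
        push Not at hcon
        have h1 : B ∩ orb D x ⊆ A ∩ orb D x := fun z hz => ⟨hcon z hz.1 hz.2, hz.2⟩
        have h2 : B ∩ orb D x = A ∩ orb D x := by
          apply Set.eq_of_subset_of_ncard_le h1 _ (Set.toFinite _)
          rw [hA.2 x, hB.2 x]
        have hself : x ∈ orb D x := ⟨1, D.one_mem, (one_smul G x).symm⟩
        have h3 : x ∈ B ∩ orb D x := by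
          rw [h2]; exact ⟨hxA, hself⟩
        exact hxB h3.1
      obtain ⟨y, hyB, hyx, hyA⟩ := hy
      have hcyA : c y ∈ A := by
        by_contra h
        exact hyA ((hA.1 y).2 h)
      have hcyB : c y ∉ B := (hB.1 y).1 hyB
      have hxy : x ≠ y := fun h => hyA (h ▸ hxA)
      have hcyx : c y ≠ x := by
        intro h
        rw [hinj] at h
        exact hcase (h ▸ hyx)
      have hcxy : c x ≠ y := by
        intro h
        exact hcase (h.symm ▸ hyx)
      have hcxcy : c x ≠ c y := by
        intro h
        rw [hinj, hc] at h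
        exact hxy h
      have horb : c x ∈ orb D (c y) := by
        obtain ⟨d, hd, hdy⟩ := hyx
        apply PH7_orb_symm
        exact ⟨d, hd, by rw [hdy]; exact hcd d hd x⟩
      -- first exchange
      have hcyA1 : c y ∈ PH7_rep A x y := Or.inl ⟨hcyA, hcyx⟩
      have hcxA1 : c x ∉ PH7_rep A x y := by
        rintro (h | h)
        · exact hcxA h.1
        · exact hcxy h
      have hgood : PH7_Good D c Phi (PH7_rep (PH7_rep A x y) (c y) (c x)) := by
        refine ⟨?_, ?_⟩
        · have hmem : ∀ z, z ∈ PH7_rep (PH7_rep A x y) (c y) (c x) ↔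
              ((((z ∈ A ∧ z ≠ x) ∨ z = y) ∧ z ≠ c y) ∨ z = c x) := fun z => Iff.rfl
          intro z
          rw [hmem z, hmem (c z)]
          have h1 := hA.1 z
          have e1 : c z = x ↔ z = c x := hinj z x
          have e2 : c z = y ↔ z = c y := hinj z y
          have e3 : c z = c y ↔ z = y := by rw [hinj, hc]
          have e4 : c z = c x ↔ z = x := by rw [hinj, hc]
          rw [Ne, Ne, Ne, Ne, e1, e2, e3, e4]
          by_cases z1 : z = x
          · have g1 : ¬ z = y := z1 ▸ hxy
            have g2 : ¬ z = c x := by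
              intro h
              rw [z1] at h
              exact hcxA (h ▸ hxA)
            tauto
          · by_cases z2 : z = y
            · have g1 : ¬ z = c y := by
                intro h
                rw [z2] at h
                exact hyA (h ▸ hcyA)
              have g2 : ¬ z = c x := by
                intro h
                rw [z2] at h
                exact hcxy h.symm
              tauto
            · by_cases z3 : z = c x
              · have g1 : ¬ z = c y := by
                  rw [z3]; exact hcxcy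
                tauto
              · by_cases z4 : z = c y
                · tauto
                · tauto
        · intro w
          rw [PH7_rep_count D _ (c y) (c x) hcyA1 hcxA1 horb w,
            PH7_rep_count D A x y hxA hyA hyx w]
          exact hA.2 w
      have hT1 := PH7_rep_T A H x y
      have hT2 := PH7_rep_T (PH7_rep A x y) H (c y) (c x)
      have hT' := hno _ hgood
      have hlt1 := PH7_rep_diff A B x y hxA hxB hyB
      have hlt2 := PH7_rep_diff (PH7_rep A x y) B (c y) (c x) hcyA1 hcyB hcxB
      exact ih _ (hk ▸ hlt2.trans hlt1) _ B hgood hB (by omega) hTB rfl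

theorem p_PH7 : Stmt_PH7 := by
  intro G X _ _ _ D c H Phi hc hcd hH hH5 hex hPhi
  by_contra hcon
  have hno : ∀ Psi : Set X, PH7_Good D c Phi Psi →
      ¬ ((Psi ∩ H).ncard = 2 ∨ (Psi ∩ H).ncard = 3) := by
    intro Psi hPsi h
    exact hcon ⟨Psi, hPsi.1, hPsi.2, h⟩
  obtain ⟨d, hd, hdH⟩ := hex
  have hPhiG : PH7_Good D c Phi Phi := ⟨hPhi, fun _ => rfl⟩
  have hinjd : Function.Injective (fun z : X => d • z) := MulAction.injective d
  have hmemd : ∀ (A : Set X) (z : X), z ∈ (fun z : X => d • z) '' A ↔ d⁻¹ • z ∈ A := by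
    intro A z
    constructor
    · rintro ⟨y, hy, rfl⟩
      show d⁻¹ • d • y ∈ A
      rw [inv_smul_smul]; exact hy
    · intro h
      exact ⟨d⁻¹ • z, h, smul_inv_smul d z⟩
  have hcd' : ∀ x, c (d⁻¹ • x) = d⁻¹ • c x := fun x => hcd d⁻¹ (D.inv_mem hd) x
  have hdG : PH7_Good D c Phi ((fun z : X => d • z) '' Phi) := by
    refine ⟨?_, ?_⟩
    · intro x
      rw [hmemd, hmemd, ← hcd']
      exact hPhi _
    · intro x
      have e : (fun z : X => d • z) '' Phi ∩ orb D x = (fun z : X => d • z) '' (Phi ∩ orb D x) := by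
        ext z
        rw [Set.mem_inter_iff, hmemd, hmemd, Set.mem_inter_iff]
        have h1 : z ∈ orb D x ↔ d⁻¹ • z ∈ orb D x := by
          constructor
          · intro h
            exact PH7_orb_trans D h ⟨d⁻¹, D.inv_mem hd, rfl⟩
          · intro h
            exact PH7_orb_trans D h ⟨d, hd, (smul_inv_smul d z).symm⟩
        rw [h1]
      rw [e]
      exact Set.ncard_image_of_injective _ hinjd
  have hcardPhi : Phi.ncard = 5 := by
    have h1 := PH7_card c hc Phi hPhi
    have h2 := PH7_card c hc H hH
    omega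
  have hsum : ((fun z : X => d • z) '' Phi ∩ H).ncard + (Phi ∩ H).ncard = 5 := by
    have e : (fun z : X => d • z) '' Phi ∩ H = (fun z : X => d • z) '' (Phi \ H) := by
      ext z
      rw [Set.mem_inter_iff, hmemd, hmemd, Set.mem_diff]
      have h1 := hdH (d⁻¹ • z)
      rw [smul_inv_smul] at h1
      tauto
    rw [e, Set.ncard_image_of_injective _ hinjd, ← hcardPhi]
    have := Set.ncard_inter_add_ncard_diff_eq_ncard Phi H (Set.toFinite _)
    omega
  have n1 := hno Phi hPhiG
  have n2 := hno _ hdG
  rcases Nat.lt_or_ge (Phi ∩ H).ncard 2 with h | h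
  · exact PH7_step D c H Phi hc hcd hno _ Phi _ hPhiG hdG (by omega) (by omega) rfl
  · exact PH7_step D c H Phi hc hcd hno _ _ Phi hdG hPhiG (by omega) (by omega) rfl

end Pool.T4
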