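import Pool.Agent.Work.MP_223b32_t4.InterfaceW
import Pool.Agent.Work.MP_223b32_t4.PH7

/-! Block PHW (helper58): moving a CM type. -/

set_option autoImplicit false

namespace Pool.T4

open Pool.Agent.Work.MP_223b32_ag

theorem PHW_inj {X : Type} (c : X → X) (hc : ∀ x, c (c x) = x) (u v : X) :
    c u = v ↔ u = c v := by
  constructor
  · rintro rfl; exact (hc u).symm
  · rintro rfl; exact hc v

/-- one exchange -/
theorem PHW_flip {G X : Type} [Group G] [Fintype X] [MulAction G X] (D : Subgroup G) (c : X → X)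
    (Phi A : Set X) (hc : ∀ x, c (c x) = x) (hA : PH7_Good D c Phi A) (x : X) (hxA : x ∈ A)
    (hcase : c x ∈ orb D x) : PH7_Good D c Phi (PH7_rep A x (c x)) := by
  have hinj := PHW_inj c hc
  have hcxA : c x ∉ A := (hA.1 x).1 hxA
  refine ⟨?_, ?_⟩
  · intro z
    by_cases hzx : z = x
    · subst hzx
      constructor
      · rintro (h | h)
        · exact absurd rfl h.2
        · exact absurd (h ▸ hxA) hcxA
      · intro h
        exact absurd (Or.inr rfl) h
    · by_cases hzc : z = c x
      · subst hzc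
        constructor
        · intro _
          rw [hc]
          rintro (h | h)
          · exact h.2 rfl
          · exact absurd (h ▸ hxA) hcxA
        · intro _
          exact Or.inr rfl
      · have h1 := hA.1 z
        have h2 : c z ≠ x := by
          rw [Ne, hinj]; exact hzc
        have h3 : c z ≠ c x := by
          intro h
          rw [hinj, hc] at h
          exact hzx h
        constructor
        · rintro (h | h)
          · rintro (h' | h')
            · exact (h1.1 h.1) h'.1
            · exact h3 h'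
          · exact absurd h hzc
        · intro h
          refine Or.inl ⟨h1.2 ?_, hzx⟩
          intro h'
          exact h (Or.inl ⟨h', h2⟩)
  · intro y
    rw [PH7_rep_count D A x (c x) hxA hcxA hcase y]
    exact hA.2 y

/-- two exchanges -/
theorem PHW_two {G X : Type} [Group G] [Fintype X] [MulAction G X] (D : Subgroup G) (c : X → X)
    (Phi A : Set X) (hc : ∀ x, c (c x) = x) (hcd : ∀ d ∈ D, ∀ x, c (d • x) = d • c x)
    (hA : PH7_Good D c Phi A) (x y : X) (hxA : x ∈ A) (hyA : y ∉ A) (hyx : y ∈ orb D x)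
    (hcase : c x ∉ orb D x) : c y ∈ PH7_rep A x y ∧
      PH7_Good D c Phi (PH7_rep (PH7_rep A x y) (c y) (c x)) := by
  have hinj := PHW_inj c hc
  have hcxA : c x ∉ A := (hA.1 x).1 hxA
  have hcyA : c y ∈ A := by
    by_contra h
    exact hyA ((hA.1 y).2 h)
  have hxy : x ≠ y := fun h => hyA (h ▸ hxA)
  have hcyx : c y ≠ x := by
    intro h
    rw [hinj] at h
    exact hcase (h ▸ hyx)
  have hcxy : c x ≠ y := by
    intro h
    exact hcase (h.symm ▸ hyx)
  have hcxcy : c x ≠ c y := by
    intro h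
    rw [hinj, hc] at h
    exact hxy h
  have horb : c x ∈ orb D (c y) := by
    obtain ⟨d, hd, hdy⟩ := hyx
    apply PH7_orb_symm
    exact ⟨d, hd, by rw [hdy]; exact hcd d hd x⟩
  have hcyA1 : c y ∈ PH7_rep A x y := Or.inl ⟨hcyA, hcyx⟩
  have hcxA1 : c x ∉ PH7_rep A x y := by
    rintro (h | h)
    · exact hcxA h.1
    · exact hcxy h
  refine ⟨hcyA1, ?_, ?_⟩
  · have hmem : ∀ z, z ∈ PH7_rep (PH7_rep A x y) (c y) (c x) ↔
        ((((z ∈ A ∧ z ≠ x) ∨ z = y) ∧ z ≠ c y) ∨ z = c x) := fun z => Iff.rfl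
    intro z
    rw [hmem z, hmem (c z)]
    have h1 := hA.1 z
    have e1 : c z = x ↔ z = c x := hinj z x
    have e2 : c z = y ↔ z = c y := hinj z y
    have e3 : c z = c y ↔ z = y := by rw [hinj, hc]
    have e4 : c z = c x ↔ z = x := by rw [hinj, hc]
    rw [Ne, Ne, Ne, Ne, e1, e2, e3, e4]
    by_cases z1 : z = x
    · have g1 : ¬ z = y := z1 ▸ hxy
      have g2 : ¬ z = c x := by
        intro h
        rw [z1] at h
        exact hcxA (h ▸ hxA)
      tauto
    · by_cases z2 : z = y
      · have g1 : ¬ z = c y := by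
          intro h
          rw [z2] at h
          exact hyA (h ▸ hcyA)
        have g2 : ¬ z = c x := by
          intro h
          rw [z2] at h
          exact hcxy h.symm
        tauto
      · by_cases z3 : z = c x
        · have g1 : ¬ z = c y := by
            rw [z3]; exact hcxcy
          tauto
        · by_cases z4 : z = c y
          · tauto
          · tauto
  · intro w
    rw [PH7_rep_count D _ (c y) (c x) hcyA1 hcxA1 horb w,
      PH7_rep_count D A x y hxA hyA hyx w]
    exact hA.2 w

/-- the exchange of an element outside `H` with an element of `H` -/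
theorem PHW_up {X : Type} [Fintype X] (A H : Set X) (a b : X) (hb : b ∉ A) (haH : a ∉ H)
    (hbH : b ∈ H) : (PH7_rep A a b ∩ H).ncard = (A ∩ H).ncard + 1 := by
  have e : PH7_rep A a b ∩ H = insert b (A ∩ H) := by
    ext z
    constructor
    · rintro ⟨h1 | h1, h2⟩
      · exact Or.inr ⟨h1.1, h2⟩
      · exact Or.inl h1
    · rintro (h1 | ⟨h1, h2⟩)
      · exact ⟨Or.inr h1, h1 ▸ hbH⟩
      · exact ⟨Or.inl ⟨h1, fun h => haH (h ▸ h2)⟩, h2⟩
  rw [e, Set.ncard_insert_of_notMem (fun h => hb h.1) (Set.toFinite _)]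

/-- the exchange of an element of `H` with an element outside `H` -/
theorem PHW_down {X : Type} [Fintype X] (A H : Set X) (a b : X) (ha : a ∈ A) (haH : a ∈ H)
    (hbH : b ∉ H) : (PH7_rep A a b ∩ H).ncard + 1 = (A ∩ H).ncard := by
  have e : PH7_rep A a b ∩ H = (A ∩ H) \ {a} := by
    ext z
    constructor
    · rintro ⟨h1 | h1, h2⟩
      · exact ⟨⟨h1.1, h2⟩, h1.2⟩
      · exact absurd (h1 ▸ h2) hbH
    · rintro ⟨⟨h1, h2⟩, h3⟩
      exact ⟨Or.inl ⟨h1, h3⟩, h2⟩
  rw [e]
  exact Set.ncard_sdiff_singleton_add_one ⟨ha, haH⟩ (Set.toFinite _)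

theorem PHW_step {G X : Type} [Group G] [Fintype X] [MulAction G X] (D : Subgroup G) (c : X → X)
    (H Phi : Set X) (hc : ∀ x, c (c x) = x) (hcd : ∀ d ∈ D, ∀ x, c (d • x) = d • c x)
    (hH : ∀ x, x ∈ H ↔ c x ∉ H) (hself : ∃ z, c z ∈ orb D z)
    (hno : ∀ Psi : Set X, PH7_Good D c Phi Psi → (Psi ∩ H).ncard ≠ 3) :
    ∀ (k : ℕ) (A B : Set X), PH7_Good D c Phi A → PH7_Good D c Phi B → (A ∩ H).ncard ≤ 2 →
      4 ≤ (B ∩ H).ncard → (A \ B).ncard = k → False := by
  intro k
  induction k using Nat.strong_induction_on with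
  | _ k ih =>
    intro A B hA hB hTA hTB hk
    have hAB : A.ncard = B.ncard := by
      have h1 := PH7_card c hc A hA.1
      have h2 := PH7_card c hc B hB.1
      omega
    have hx : ∃ x, x ∈ A ∧ x ∉ B := by
      by_contra hcon
      push Not at hcon
      have h1 : A ⊆ B := hcon
      have h2 : A = B := Set.eq_of_subset_of_ncard_le h1 hAB.ge (Set.toFinite _)
      rw [h2] at hTA
      omega
    have hcB : ∀ x, x ∉ B → c x ∈ B := by
      intro x hxB
      by_contra h
      exact hxB ((hB.1 x).2 h)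
    by_cases hcase : ∃ x, x ∈ A ∧ x ∉ B ∧ c x ∈ orb D x
    · obtain ⟨x, hxA, hxB, hcx⟩ := hcase
      have hgood := PHW_flip D c Phi A hc hA x hxA hcx
      have hT := PH7_rep_T A H x (c x)
      have hT' := hno _ hgood
      have hlt := PH7_rep_diff A B x (c x) hxA hxB (hcB x hxB)
      exact ih _ (hk ▸ hlt) (PH7_rep A x (c x)) B hgood hB (by omega) hTB rfl
    · push Not at hcase
      obtain ⟨x, hxA, hxB⟩ := hx
      have hcx := hcase x hxA hxB
      have hy : ∃ y, y ∈ B ∧ y ∈ orb D x ∧ y ∉ A := by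
        by_contra hcon
        push Not at hcon
        have h1 : B ∩ orb D x ⊆ A ∩ orb D x := fun z hz => ⟨hcon z hz.1 hz.2, hz.2⟩
        have h2 : B ∩ orb D x = A ∩ orb D x := by
          apply Set.eq_of_subset_of_ncard_le h1 _ (Set.toFinite _)
          rw [hA.2 x, hB.2 x]
        have hxx : x ∈ orb D x := ⟨1, D.one_mem, (one_smul G x).symm⟩
        have h3 : x ∈ B ∩ orb D x := by
          rw [h2]; exact ⟨hxA, hxx⟩
        exact hxB h3.1
      obtain ⟨y, hyB, hyx, hyA⟩ := hy
      have hcyB : c y ∉ B := (hB.1 y).1 hyB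
      have hcyA : c y ∈ A := by
        by_contra h
        exact hyA ((hA.1 y).2 h)
      obtain ⟨hcyA1, hgood⟩ := PHW_two D c Phi A hc hcd hA x y hxA hyA hyx hcx
      have hT1 := PH7_rep_T A H x y
      have hT2 := PH7_rep_T (PH7_rep A x y) H (c y) (c x)
      have hT' := hno _ hgood
      have hlt1 := PH7_rep_diff A B x y hxA hxB hyB
      have hlt2 := PH7_rep_diff (PH7_rep A x y) B (c y) (c x) hcyA1 hcyB (hcB x hxB)
      rcases Nat.lt_or_ge (PH7_rep (PH7_rep A x y) (c y) (c x) ∩ H).ncard 3 with h3 | h3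
      · exact ih _ (hk ▸ hlt2.trans hlt1) _ B hgood hB (by omega) hTB rfl
      · have hA2 : (A ∩ H).ncard = 2 := by omega
        have hA4 : (PH7_rep (PH7_rep A x y) (c y) (c x) ∩ H).ncard = 4 := by omega
        -- a self conjugate element of `A`
        have hz : ∃ z, z ∈ A ∧ c z ∈ orb D z := by
          obtain ⟨z, hz⟩ := hself
          by_cases hzA : z ∈ A
          · exact ⟨z, hzA, hz⟩
          · refine ⟨c z, ?_, ?_⟩
            · by_contra h
              exact hzA ((hA.1 z).2 h)
            · rw [hc]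
              exact PH7_orb_symm D hz
        obtain ⟨z, hzA, hz⟩ := hz
        have hzx : z ≠ x := by
          rintro rfl
          exact hcx hz
        have hzy : z ≠ c y := by
          intro h
          exact hcase (c y) hcyA hcyB (h ▸ hz)
        have hczA : c z ∉ A := (hA.1 z).1 hzA
        by_cases hzH : z ∈ H
        · have hczH : c z ∉ H := (hH z).1 hzH
          have hzA' : z ∈ PH7_rep (PH7_rep A x y) (c y) (c x) := Or.inl ⟨Or.inl ⟨hzA, hzx⟩, hzy⟩
          have h5 := PHW_down _ H z (c z) hzA' hzH hczH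
          exact hno _ (PHW_flip D c Phi _ hc hgood z hzA' hz) (by omega)
        · have hczH : c z ∈ H := by
            by_contra h
            exact hzH ((hH z).2 h)
          have h5 := PHW_up A H z (c z) hczA hzH hczH
          exact hno _ (PHW_flip D c Phi _ hc hA z hzA hz) (by omega)

theorem p_PHW : Stmt_PHW := by
  intro G X _ _ _ D c H Phi hc hcd hH hH6 hex hPhi hself
  by_contra hcon
  have hno : ∀ Psi : Set X, PH7_Good D c Phi Psi → (Psi ∩ H).ncard ≠ 3 := by
    intro Psi hPsi h
    exact hcon ⟨Psi, hPsi.1, hPsi.2, h⟩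
  obtain ⟨d, hd, hdH⟩ := hex
  have hPhiG : PH7_Good D c Phi Phi := ⟨hPhi, fun _ => rfl⟩
  have hinjd : Function.Injective (fun z : X => d • z) := MulAction.injective d
  have hmemd : ∀ (A : Set X) (z : X), z ∈ (fun z : X => d • z) '' A ↔ d⁻¹ • z ∈ A := by
    intro A z
    constructor
    · rintro ⟨y, hy, rfl⟩
      show d⁻¹ • d • y ∈ A
      rw [inv_smul_smul]; exact hy
    · intro h
      exact ⟨d⁻¹ • z, h, smul_inv_smul d z⟩
  have hcd' : ∀ x, c (d⁻¹ • x) = d⁻¹ • c x := fun x => hcd d⁻¹ (D.inv_mem hd) x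
  have hdG : PH7_Good D c Phi ((fun z : X => d • z) '' Phi) := by
    refine ⟨?_, ?_⟩
    · intro x
      rw [hmemd, hmemd, ← hcd']
      exact hPhi _
    · intro x
      have e : (fun z : X => d • z) '' Phi ∩ orb D x = (fun z : X => d • z) '' (Phi ∩ orb D x) := by
        ext z
        rw [Set.mem_inter_iff, hmemd, hmemd, Set.mem_inter_iff]
        have h1 : z ∈ orb D x ↔ d⁻¹ • z ∈ orb D x := by
          constructor
          · intro h
            exact PH7_orb_trans D h ⟨d⁻¹, D.inv_mem hd, rfl⟩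
          · intro h
            exact PH7_orb_trans D h ⟨d, hd, (smul_inv_smul d z).symm⟩
        rw [h1]
      rw [e]
      exact Set.ncard_image_of_injective _ hinjd
  have hcardPhi : Phi.ncard = 6 := by
    have h1 := PH7_card c hc Phi hPhi
    have h2 := PH7_card c hc H hH
    omega
  have hsum : ((fun z : X => d • z) '' Phi ∩ H).ncard + (Phi ∩ H).ncard = 6 := by
    have e : (fun z : X => d • z) '' Phi ∩ H = (fun z : X => d • z) '' (Phi \ H) := by
      ext z
      rw [Set.mem_inter_iff, hmemd, hmemd, Set.mem_sdiff]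
      have h1 := hdH (d⁻¹ • z)
      rw [smul_inv_smul] at h1
      tauto
    rw [e, Set.ncard_image_of_injective _ hinjd, ← hcardPhi]
    have := Set.ncard_inter_add_ncard_sdiff_eq_ncard Phi H (Set.toFinite _)
    omega
  have n1 := hno Phi hPhiG
  have n2 := hno _ hdG
  rcases Nat.lt_or_ge (Phi ∩ H).ncard 3 with h | h
  · exact PHW_step D c H Phi hc hcd hH hself hno _ Phi _ hPhiG hdG (by omega) (by omega) rfl
  · exact PHW_step D c H Phi hc hcd hH hself hno _ _ Phi hdG hPhiG (by omega) (by omega) rfl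

end Pool.T4
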