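import Pool.Agent.Work.MP_223b32_t4.InterfaceV
import Pool.Agent.Work.MP_223b32_t4.PHW

/-! Block PHV (helper25): moving a CM type, parity. -/

set_option autoImplicit false

namespace Pool.T4

open Pool.Agent.Work.MP_223b32_ag

open Classical in
/-- the number of elements in `H` after an exchange -/
theorem PHV_cnt {X : Type} [Fintype X] (A H : Set X) (a b : X) (ha : a ∈ A) (hb : b ∉ A) :
    (PH7_rep A a b ∩ H).ncard + (if a ∈ H then 1 else 0) =
      (A ∩ H).ncard + (if b ∈ H then 1 else 0) := by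
  have hab : a ≠ b := fun h => hb (h ▸ ha)
  by_cases haH : a ∈ H
  · by_cases hbH : b ∈ H
    · rw [if_pos haH, if_pos hbH]
      have e : PH7_rep A a b ∩ H = insert b ((A ∩ H) \ {a}) := by
        ext z
        constructor
        · rintro ⟨h1 | h1, h2⟩
          · exact Or.inr ⟨⟨h1.1, h2⟩, h1.2⟩
          · exact Or.inl h1
        · rintro (h1 | ⟨⟨h1, h2⟩, h3⟩)
          · exact ⟨Or.inr h1, h1 ▸ hbH⟩
          · exact ⟨Or.inl ⟨h1, h3⟩, h2⟩
      have h5 := Set.ncard_sdiff_singleton_add_one (s := A ∩ H) (a := a) ⟨ha, haH⟩ (Set.toFinite _)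
      rw [e, Set.ncard_insert_of_notMem (fun h => hb h.1.1) (Set.toFinite _), h5]
    · rw [if_pos haH, if_neg hbH, add_zero]
      exact PHW_down A H a b ha haH hbH
  · by_cases hbH : b ∈ H
    · rw [if_neg haH, if_pos hbH, add_zero]
      exact PHW_up A H a b hb haH hbH
    · rw [if_neg haH, if_neg hbH]
      have e : PH7_rep A a b ∩ H = A ∩ H := by
        ext z
        constructor
        · rintro ⟨h1 | h1, h2⟩
          · exact ⟨h1.1, h2⟩
          · exact absurd (h1 ▸ h2) hbH
        · rintro ⟨h1, h2⟩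
          exact ⟨Or.inl ⟨h1, fun h => haH (h ▸ h2)⟩, h2⟩
      rw [e]

theorem PHV_step {G X : Type} [Group G] [Fintype X] [MulAction G X] (D : Subgroup G) (c : X → X)
    (H Phi : Set X) (hc : ∀ x, c (c x) = x) (hcd : ∀ d ∈ D, ∀ x, c (d • x) = d • c x)
    (hH : ∀ x, x ∈ H ↔ c x ∉ H) (hself : ∀ z, c z ∉ orb D z)
    (hno : ∀ Psi : Set X, PH7_Good D c Phi Psi → (Psi ∩ H).ncard ≠ 3) :
    ∀ (k : ℕ) (A B : Set X), PH7_Good D c Phi A → PH7_Good D c Phi B → (A ∩ H).ncard ≤ 2 →
      Odd (A ∩ H).ncard → 4 ≤ (B ∩ H).ncard → (A \ B).ncard = k → False := by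
  classical
  intro k
  induction k using Nat.strong_induction_on with
  | _ k ih =>
    intro A B hA hB hTA hodd hTB hk
    have hAB : A.ncard = B.ncard := by
      have h1 := PH7_card c hc A hA.1
      have h2 := PH7_card c hc B hB.1
      omega
    have hx : ∃ x, x ∈ A ∧ x ∉ B := by
      by_contra hcon
      push Not at hcon
      have h1 : A ⊆ B := hcon
      have h2 : A = B := Set.eq_of_subset_of_ncard_le h1 hAB.ge (Set.toFinite _)
      rw [h2] at hTA
      omega
    have hcB : ∀ x, x ∉ B → c x ∈ B := by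
      intro x hxB
      by_contra h
      exact hxB ((hB.1 x).2 h)
    obtain ⟨x, hxA, hxB⟩ := hx
    have hcx := hself x
    have hy : ∃ y, y ∈ B ∧ y ∈ orb D x ∧ y ∉ A := by
      by_contra hcon
      push Not at hcon
      have h1 : B ∩ orb D x ⊆ A ∩ orb D x := fun z hz => ⟨hcon z hz.1 hz.2, hz.2⟩
      have h2 : B ∩ orb D x = A ∩ orb D x := by
        apply Set.eq_of_subset_of_ncard_le h1 _ (Set.toFinite _)
        rw [hA.2 x, hB.2 x]
      have hxx : x ∈ orb D x := ⟨1, D.one_mem, (one_smul G x).symm⟩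
      have h3 : x ∈ B ∩ orb D x := by
        rw [h2]; exact ⟨hxA, hxx⟩
      exact hxB h3.1
    obtain ⟨y, hyB, hyx, hyA⟩ := hy
    have hcyB : c y ∉ B := (hB.1 y).1 hyB
    obtain ⟨hcyA1, hgood⟩ := PHW_two D c Phi A hc hcd hA x y hxA hyA hyx hcx
    have hcxA1 : c x ∉ PH7_rep A x y := by
      rintro (h | h)
      · exact (hA.1 x).1 hxA h.1
      · exact hcx (h.symm ▸ hyx)
    have hT1 := PHV_cnt A H x y hxA hyA
    have hT2 := PHV_cnt (PH7_rep A x y) H (c y) (c x) hcyA1 hcxA1
    have hT' := hno _ hgood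
    have hlt1 := PH7_rep_diff A B x y hxA hxB hyB
    have hlt2 := PH7_rep_diff (PH7_rep A x y) B (c y) (c x) hcyA1 hcyB (hcB x hxB)
    have hxH := hH x
    have hyH := hH y
    obtain ⟨m, hm⟩ := hodd
    have key : (PH7_rep (PH7_rep A x y) (c y) (c x) ∩ H).ncard ≤ 2 ∧
        Odd (PH7_rep (PH7_rep A x y) (c y) (c x) ∩ H).ncard := by
      by_cases h1 : x ∈ H
      · have h1' := hxH.1 h1
        by_cases h2 : y ∈ H
        · have h2' := hyH.1 h2
          rw [if_pos h1, if_pos h2] at hT1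
          rw [if_neg h1', if_neg h2'] at hT2
          exact ⟨by omega, m, by omega⟩
        · have h2' : c y ∈ H := by
            by_contra h; exact h2 (hyH.2 h)
          rw [if_pos h1, if_neg h2] at hT1
          rw [if_neg h1', if_pos h2'] at hT2
          exact ⟨by omega, m - 1, by omega⟩
      · have h1' : c x ∈ H := by
          by_contra h; exact h1 (hxH.2 h)
        by_cases h2 : y ∈ H
        · have h2' := hyH.1 h2
          rw [if_neg h1, if_pos h2] at hT1
          rw [if_pos h1', if_neg h2'] at hT2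
          exact ⟨by omega, m + 1, by omega⟩
        · have h2' : c y ∈ H := by
            by_contra h; exact h2 (hyH.2 h)
          rw [if_neg h1, if_neg h2] at hT1
          rw [if_pos h1', if_pos h2'] at hT2
          exact ⟨by omega, m, by omega⟩
    exact ih _ (hk ▸ hlt2.trans hlt1) _ B hgood hB key.1 key.2 hTB rfl

theorem p_PHV : Stmt_PHV := by
  intro G X _ _ _ D c H Phi hc hcd hH hH6 hex hPhi hself hodd
  by_contra hcon
  have hno : ∀ Psi : Set X, PH7_Good D c Phi Psi → (Psi ∩ H).ncard ≠ 3 := by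
    intro Psi hPsi h
    exact hcon ⟨Psi, hPsi.1, hPsi.2, h⟩
  obtain ⟨d, hd, hdH⟩ := hex
  have hPhiG : PH7_Good D c Phi Phi := ⟨hPhi, fun _ => rfl⟩
  have hinjd : Function.Injective (fun z : X => d • z) := MulAction.injective d
  have hmemd : ∀ (A : Set X) (z : X), z ∈ (fun z : X => d • z) '' A ↔ d⁻¹ • z ∈ A := by
    intro A z
    constructor
    · rintro ⟨y, hy, rfl⟩
      show d⁻¹ • d • y ∈ A
      rw [inv_smul_smul]; exact hy
    · intro h
      exact ⟨d⁻¹ • z, h, smul_inv_smul d z⟩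
  have hcd' : ∀ x, c (d⁻¹ • x) = d⁻¹ • c x := fun x => hcd d⁻¹ (D.inv_mem hd) x
  have hdG : PH7_Good D c Phi ((fun z : X => d • z) '' Phi) := by
    refine ⟨?_, ?_⟩
    · intro x
      rw [hmemd, hmemd, ← hcd']
      exact hPhi _
    · intro x
      have e : (fun z : X => d • z) '' Phi ∩ orb D x = (fun z : X => d • z) '' (Phi ∩ orb D x) := by
        ext z
        rw [Set.mem_inter_iff, hmemd, hmemd, Set.mem_inter_iff]
        have h1 : z ∈ orb D x ↔ d⁻¹ • z ∈ orb D x := by
          constructor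
          · intro h
            exact PH7_orb_trans D h ⟨d⁻¹, D.inv_mem hd, rfl⟩
          · intro h
            exact PH7_orb_trans D h ⟨d, hd, (smul_inv_smul d z).symm⟩
        rw [h1]
      rw [e]
      exact Set.ncard_image_of_injective _ hinjd
  have hcardPhi : Phi.ncard = 6 := by
    have h1 := PH7_card c hc Phi hPhi
    have h2 := PH7_card c hc H hH
    omega
  have hsum : ((fun z : X => d • z) '' Phi ∩ H).ncard + (Phi ∩ H).ncard = 6 := by
    have e : (fun z : X => d • z) '' Phi ∩ H = (fun z : X => d • z) '' (Phi \ H) := by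
      ext z
      rw [Set.mem_inter_iff, hmemd, hmemd, Set.mem_sdiff]
      have h1 := hdH (d⁻¹ • z)
      rw [smul_inv_smul] at h1
      tauto
    rw [e, Set.ncard_image_of_injective _ hinjd, ← hcardPhi]
    have := Set.ncard_inter_add_ncard_sdiff_eq_ncard Phi H (Set.toFinite _)
    omega
  have n1 := hno Phi hPhiG
  have n2 := hno _ hdG
  rcases Nat.lt_or_ge (Phi ∩ H).ncard 3 with h | h
  · exact PHV_step D c H Phi hc hcd hH hself hno _ Phi _ hPhiG hdG (by omega) hodd (by omega) rfl
  · refine PHV_step D c H Phi hc hcd hH hself hno _ _ Phi hdG hPhiG (by omega) ?_ (by omega) rfl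
    obtain ⟨m, hm⟩ := hodd
    exact ⟨2 - m, by omega⟩

end Pool.T4
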