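import Pool.Agent.Work.MP_223b32_t4.Interface9

/-! # Block PR9: parity -/

namespace Pool.T4

open Pool.Agent.Work.MP_223b32_ag

theorem PR9_ne {U : Type} [AddCommGroup U] [Module ℚ U] {v : U} (hv : v ≠ 0) : -v ≠ v := by
  intro h
  apply hv
  have h1 : (2 : ℚ) • v = 0 := by
    rw [two_smul]
    nth_rewrite 1 [← h]
    simp
  rcases smul_eq_zero.1 h1 with h2 | h2
  · norm_num at h2
  · exact h2

theorem PR9_aux {U : Type} [AddCommGroup U] [Module ℚ U] (n : ℕ) :
    ∀ M : Multiset U, M.card = n → (M.map fun v => -v) = M → (∀ v ∈ M, v ≠ 0) → Even n := by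
  induction n using Nat.strong_induction_on with
  | _ n ih =>
    intro M hn hM h0
    rcases Multiset.empty_or_exists_mem M with h | ⟨v, hv⟩
    · subst h
      simp at hn
      subst hn
      exact Even.zero
    · obtain ⟨M1, rfl⟩ := Multiset.exists_cons_of_mem hv
      have hv0 : -v ≠ v := PR9_ne (h0 v hv)
      have h1 : -v ∈ v ::ₘ M1 := by
        rw [← hM]
        exact Multiset.mem_map_of_mem _ hv
      have h2 : -v ∈ M1 := by
        rcases Multiset.mem_cons.1 h1 with h | h
        · exact absurd h hv0
        · exact h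
      obtain ⟨M2, rfl⟩ := Multiset.exists_cons_of_mem h2
      have h3 : (M2.map fun v => -v) = M2 := by
        rw [Multiset.map_cons, Multiset.map_cons, neg_neg, Multiset.cons_swap] at hM
        exact (Multiset.cons_inj_right _).1 ((Multiset.cons_inj_right _).1 hM)
      have h4 : n = M2.card + 2 := by
        rw [← hn, Multiset.card_cons, Multiset.card_cons]
      have h5 : Even M2.card := by
        refine ih M2.card (by omega) M2 rfl h3 ?_
        intro w hw
        exact h0 w (Multiset.mem_cons_of_mem (Multiset.mem_cons_of_mem hw))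
      rw [h4]
      exact h5.add even_two

theorem p_PR9 : Stmt_PR9 := by
  intro G U _ _ _ _ K M hM h0
  refine PR9_aux M.card M rfl ?_ h0
  have h1 : tr K.c0 M = M.map fun v => -v := by
    unfold tr
    exact Multiset.map_congr rfl fun v _ => K.cc v
  rw [← h1]
  exact hM

end Pool.T4
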