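import Pool.Agent.Work.MP_223b32_t4.Defs2

/-! # Definitions for products of powers -/

namespace Pool.T4

/-- The Tate property for all multisets whose germs are in `R` or supersingular: for all powers of
the abelian variety with the Weil numbers `R`, times supersingular abelian varieties. -/
def PowTate {p : ℕ} [Fact p.Prime] (q : ℕ) (ι : Qb →+* PadicAlgCl p) (R : Multiset Qb) : Prop :=
  ∀ T : Multiset Qb, PowOf q R T → TateProp q ι T

/-- Some automorphism `g` acts as complex conjugation on the germs in `R1` (`x * g x ~ q`) and
trivially on the germs in `R2`.  This is so if the Galois closures of `ℚ(x ^ N : x ∈ R1)` and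
`ℚ(y ^ N : y ∈ R2)`, `N` sufficiently divisible, are linearly disjoint over `ℚ`. -/
def Apart (q : ℕ) (R1 R2 : Multiset Qb) : Prop :=
  ∃ g : GQ, (∀ x ∈ R1, Sim (x * g x) (q : Qb)) ∧ ∀ y ∈ R2, Sim (g y) y

end Pool.T4
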