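import Pool.Agent.Work.MP_223b32_t4.InterfaceW
import Pool.Agent.Work.MP_223b32_t4.PRD

/-! # Block PRW: products of powers of abelian varieties -/

set_option autoImplicit false

namespace Pool.T4

open Pool.Agent.Work.MP_223b32_ag

section

variable {p : ℕ} [Fact p.Prime] {ι : Qb →+* PadicAlgCl p}

/-- The Tate property for all powers. -/
def PRW_Pow (q : ℕ) (ι : Qb →+* PadicAlgCl p) (R : Multiset Qb) : Prop :=
  ∀ T : Multiset Qb, PowOf q R T → TateW q ι T

theorem PRW_zero {q : ℕ} (hq : 0 < q) : ∀ (n : ℕ) (S : Multiset Qb), S.card = 2 * n →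
    (∀ x ∈ S, SS q x) → CycW q ι S := by
  intro n
  induction n with
  | zero =>
    intro S hS _
    have h : S = 0 := Multiset.card_eq_zero.1 (by simpa using hS)
    rw [h]
    exact CycW.zero
  | succ n ih =>
    intro S hS hss
    have h00 : S ≠ 0 := by
      rintro rfl
      simp at hS
    obtain ⟨a, ha0⟩ := Multiset.exists_mem_of_ne_zero h00
    obtain ⟨S1, h1'⟩ := Multiset.exists_cons_of_mem ha0
    have h1 := h1'.symm
    have h1c : S1.card = 2 * n + 1 := by
      rw [h1', Multiset.card_cons] at hS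
      omega
    have h01 : S1 ≠ 0 := by
      rintro rfl
      simp at h1c
    obtain ⟨b, hb0⟩ := Multiset.exists_mem_of_ne_zero h01
    obtain ⟨S2, h2'⟩ := Multiset.exists_cons_of_mem hb0
    have h2 := h2'.symm
    have h2c : S2.card = 2 * n := by
      rw [h2', Multiset.card_cons] at h1c
      omega
    have ha : SS q a := hss a (by rw [← h1]; exact Multiset.mem_cons_self a S1)
    have hb : SS q b := hss b (by
      rw [← h1, ← h2]
      exact Multiset.mem_cons_of_mem (Multiset.mem_cons_self b S2))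
    have h3 : S = S2 + {a, b} := by
      have e : ({a, b} : Multiset Qb) = a ::ₘ b ::ₘ 0 := rfl
      rw [← h1, ← h2, e, Multiset.add_cons, Multiset.add_cons, add_zero]
    rw [h3]
    refine CycW.join _ _ (ih S2 h2c fun x hx => hss x ?_)
      (CycW.pair a b (FN2_weil_of_ss hq ha) (PRD_ss_pair ha hb))
    rw [h3]
    exact Multiset.mem_add.2 (Or.inl hx)

theorem PRW_tate {q : ℕ} (hd : Dict q ι) {T : Multiset Qb} (hW : ∀ x ∈ T, Weil q x)
    (hT : TateW q ι T) {j : ℕ} (hc : T.card = 2 * j) (h0 : (T.map (uu q ι)).sum = 0) :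
    CycW q ι T := by
  refine hT T j le_rfl hc ?_
  have h := (hd.sum T hW).1 h0
  rw [hc] at h
  exact FN2_sim h

theorem PRW_two {q : ℕ} (hq : 0 < q) (hd : Dict q ι) {R1 R2 : Multiset Qb}
    (hW1 : ∀ x ∈ R1, Weil q x) (hW2 : ∀ x ∈ R2, Weil q x) (hA : Apart q R1 R2)
    (h1 : PRW_Pow q ι R1) (h2 : PRW_Pow q ι R2) : PRW_Pow q ι (R1 + R2) := by
  classical
  intro T hT S j hST hSc hSs
  obtain ⟨g, hg1, hg2⟩ := hA
  obtain ⟨s, hs, hsw⟩ := CYD_sqrt q hq
  have hss : Sim (s * s) (q : Qb) := by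
    rw [← sq, hs]
    exact ⟨1, one_pos, rfl⟩
  have hsS : SS q s := by
    unfold SS
    rw [hs]
    exact ⟨1, one_pos, rfl⟩
  have hus : uu q ι s = 0 := (hd.ss s hsw).1 hsS
  -- the action of `g`
  have hv1 : ∀ x ∈ R1, g • uu q ι x = -uu q ι x := by
    intro x hx
    have hx1 := hW1 x hx
    have hx2 := hd.weil x hx1 g
    have h3 : ((({x, g x} : Multiset Qb)).map (uu q ι)).sum = 0 := by
      rw [hd.sum _ (by
        intro z hz
        simp only [Multiset.insert_eq_cons, Multiset.mem_cons, Multiset.mem_singleton] at hz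
        rcases hz with rfl | rfl
        · exact hx1
        · exact hx2)]
      have h4 : Sim (x * g x) ((q : Qb) ^ 1) := by
        rw [pow_one]
        exact hg1 x hx
      have h5 := FN2_sim' h4
      simpa using h5
    rw [← hd.smul x hx1 g]
    have h4 : uu q ι x + uu q ι (g x) = 0 := by simpa using h3
    exact (neg_eq_of_add_eq_zero_right h4).symm
  have hv2 : ∀ x ∈ R2, g • uu q ι x = uu q ι x := by
    intro x hx
    rw [← hd.smul x (hW2 x hx) g]
    exact (hd.sim _ _ (hd.weil x (hW2 x hx) g) (hW2 x hx)).1 (hg2 x hx)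
  have hTw : ∀ x ∈ T, Weil q x := fun x hx => by
    rcases hT x hx with h | ⟨y, hy, N, hN, h⟩
    · exact FN2_weil_of_ss hq h
    · refine FN2_weil_of_pow hN ?_ h
      rcases Multiset.mem_add.1 hy with hy | hy
      · exact hW1 y hy
      · exact hW2 y hy
  have hSw : ∀ x ∈ S, Weil q x := fun x hx => hTw x (Multiset.mem_of_le hST hx)
  obtain ⟨S1, hS1⟩ : ∃ S1, S1 = S.filter fun x => ∃ y ∈ R1, Sim x y := ⟨_, rfl⟩
  obtain ⟨S2, hS2⟩ : ∃ S2, S2 = S.filter fun x => ¬ ∃ y ∈ R1, Sim x y := ⟨_, rfl⟩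
  have hS : S1 + S2 = S := by
    rw [hS1, hS2]
    exact Multiset.filter_add_not _ S
  have hS1w : ∀ x ∈ S1, Weil q x := fun x hx => hSw x (by
    rw [← hS]
    exact Multiset.mem_add.2 (Or.inl hx))
  have hS2w : ∀ x ∈ S2, Weil q x := fun x hx => hSw x (by
    rw [← hS]
    exact Multiset.mem_add.2 (Or.inr hx))
  have hP1 : ∀ x ∈ S1, ∃ y ∈ R1, Sim x y := by
    intro x hx
    rw [hS1] at hx
    exact (Multiset.mem_filter.1 hx).2
  have hP2 : ∀ x ∈ S2, SS q x ∨ ∃ y ∈ R2, Sim x y := by
    intro x hx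
    rw [hS2] at hx
    have h3 := Multiset.mem_filter.1 hx
    rcases hT x (Multiset.mem_of_le hST h3.1) with h | ⟨y, hy, h⟩
    · exact Or.inl h
    · rcases Multiset.mem_add.1 hy with hy | hy
      · exact absurd ⟨y, hy, h⟩ h3.2
      · exact Or.inr ⟨y, hy, h⟩
  have hsum : (S1.map (uu q ι)).sum + (S2.map (uu q ι)).sum = 0 := by
    rw [← Multiset.sum_add, ← Multiset.map_add, hS, hd.sum S hSw, hSc]
    exact FN2_sim' hSs
  have hg1' : g • (S1.map (uu q ι)).sum = -(S1.map (uu q ι)).sum := by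
    rw [Multiset.smul_sum, Multiset.map_map, ← Multiset.sum_map_neg', Multiset.map_map]
    refine congrArg Multiset.sum (Multiset.map_congr rfl fun x hx => ?_)
    obtain ⟨y, hy, h⟩ := hP1 x hx
    have h3 : uu q ι x = uu q ι y := (hd.sim _ _ (hS1w x hx) (hW1 y hy)).1 h
    show g • uu q ι x = -uu q ι x
    rw [h3]
    exact hv1 y hy
  have hg2' : g • (S2.map (uu q ι)).sum = (S2.map (uu q ι)).sum := by
    rw [Multiset.smul_sum, Multiset.map_map]
    refine congrArg Multiset.sum (Multiset.map_congr rfl fun x hx => ?_)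
    show g • uu q ι x = uu q ι x
    rcases hP2 x hx with h | ⟨y, hy, h⟩
    · rw [(hd.ss x (hS2w x hx)).1 h, smul_zero]
    · rw [(hd.sim _ _ (hS2w x hx) (hW2 y hy)).1 h]
      exact hv2 y hy
  have h10 : (S1.map (uu q ι)).sum = 0 := by
    have h3 := congrArg (fun v => g • v) hsum
    simp only [smul_add, smul_zero, hg1', hg2'] at h3
    have h4 : (S2.map (uu q ι)).sum = (S1.map (uu q ι)).sum := by
      rw [neg_add_eq_zero] at h3
      exact h3.symm
    rw [h4] at hsum
    have h5 : (2 : ℚ) • (S1.map (uu q ι)).sum = 0 := by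
      rw [two_smul]
      exact hsum
    exact (smul_eq_zero.1 h5).resolve_left (by norm_num)
  have h20 : (S2.map (uu q ι)).sum = 0 := by
    rw [h10, zero_add] at hsum
    exact hsum
  have hPow1 : ∀ k : ℕ, PowOf q R1 (S1 + Multiset.replicate k s) := by
    intro k x hx
    rcases Multiset.mem_add.1 hx with h | h
    · exact Or.inr (hP1 x h)
    · rw [Multiset.eq_of_mem_replicate h]
      exact Or.inl hsS
  have hPow2 : ∀ k : ℕ, PowOf q R2 (S2 + Multiset.replicate k s) := by
    intro k x hx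
    rcases Multiset.mem_add.1 hx with h | h
    · exact hP2 x h
    · rw [Multiset.eq_of_mem_replicate h]
      exact Or.inl hsS
  have hww : ∀ (A : Multiset Qb) (k : ℕ), (∀ x ∈ A, Weil q x) →
      ∀ x ∈ A + Multiset.replicate k s, Weil q x := by
    intro A k hA x hx
    rcases Multiset.mem_add.1 hx with h | h
    · exact hA x h
    · rw [Multiset.eq_of_mem_replicate h]
      exact hsw
  have hss0 : ∀ (A : Multiset Qb) (k : ℕ), (A.map (uu q ι)).sum = 0 →
      ((A + Multiset.replicate k s).map (uu q ι)).sum = 0 := by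
    intro A k hA
    rw [Multiset.map_add, Multiset.sum_add, hA, Multiset.map_replicate, hus,
      Multiset.sum_replicate, smul_zero, add_zero]
  have hcc : S1.card + S2.card = 2 * j := by
    rw [← Multiset.card_add, hS, hSc]
  rcases Nat.even_or_odd' S1.card with ⟨k, hk | hk⟩
  · have e1 := PRW_tate hd (hww S1 0 hS1w) (h1 _ (hPow1 0)) (j := k) (by simp [hk])
      (hss0 S1 0 h10)
    have e2 := PRW_tate hd (hww S2 0 hS2w) (h2 _ (hPow2 0)) (j := j - k) (by
      simp only [Multiset.replicate_zero, add_zero]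
      omega) (hss0 S2 0 h20)
    rw [Multiset.replicate_zero, add_zero] at e1 e2
    rw [← hS]
    exact CycW.join _ _ e1 e2
  · have e1 := PRW_tate hd (hww S1 1 hS1w) (h1 _ (hPow1 1)) (j := k + 1) (by
      rw [Multiset.card_add, Multiset.card_replicate, hk]
      omega) (hss0 S1 1 h10)
    have e2 := PRW_tate hd (hww S2 1 hS2w) (h2 _ (hPow2 1)) (j := j - k) (by
      rw [Multiset.card_add, Multiset.card_replicate]
      omega) (hss0 S2 1 h20)
    have e3 := CycW.join _ _ e1 e2
    rw [← hS]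
    refine CycW.cancel (S1 + S2) s s hsw hss ?_
    have e4 : S1 + S2 + {s, s} = S1 + Multiset.replicate 1 s + (S2 + Multiset.replicate 1 s) := by
      have e5 : ({s, s} : Multiset Qb) = Multiset.replicate 1 s + Multiset.replicate 1 s := rfl
      rw [e5]
      abel
    rw [e4]
    exact e3

theorem PRW_family {q : ℕ} (hq : 0 < q) (hd : Dict q ι) {I : Type} (R : I → Multiset Qb)
    (hW : ∀ i, ∀ x ∈ R i, Weil q x)
    (hA : ∀ i, ∃ g : GQ, (∀ x ∈ R i, Sim (x * g x) (q : Qb)) ∧
      ∀ j, j ≠ i → ∀ y ∈ R j, Sim (g y) y)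
    (hT : ∀ i, PRW_Pow q ι (R i)) (s : Finset I) : PRW_Pow q ι (∑ i ∈ s, R i) := by
  classical
  induction s using Finset.induction_on with
  | empty =>
    intro T hT S j hST hSc _
    refine PRW_zero hq j S hSc fun x hx => ?_
    rcases hT x (Multiset.mem_of_le hST hx) with h | ⟨y, hy, _⟩
    · exact h
    · rw [Finset.sum_empty] at hy
      exact absurd hy (Multiset.notMem_zero y)
  | insert i s hi ih =>
    rw [Finset.sum_insert hi]
    refine PRW_two hq hd (hW i) ?_ ?_ (hT i) ih
    · intro x hx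
      obtain ⟨j, _, hj⟩ := Multiset.mem_sum.1 hx
      exact hW j x hj
    · obtain ⟨g, hg1, hg2⟩ := hA i
      refine ⟨g, hg1, fun y hy => ?_⟩
      obtain ⟨j, hj, hjy⟩ := Multiset.mem_sum.1 hy
      refine hg2 j ?_ y hjy
      rintro rfl
      exact hi hj

end

theorem p_PRW (hDIC : Stmt_DIC) : Stmt_PRW := by
  intro p _ a ι ha n R hR hT hI
  have hq : 0 < p ^ a := pow_pos (Fact.out (p := p.Prime)).pos a
  obtain ⟨g, hg1, hg2⟩ := hI
  exact PRW_family hq (hDIC p a ι ha) R (fun i => (hR i).weil)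
    (fun i => ⟨g i, hg1 i, fun j hj => hg2 i j hj.symm⟩) hT Finset.univ

end Pool.T4
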