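import Pool.Agent.Work.MP_223b32_t4.Interface9

/-!
# Block PY9: parity of the coefficient of `y` (typed by helper56)
-/

namespace Pool.T4

theorem PY9_self {U : Type} [AddCommGroup U] [Module ℚ U] {v : U} (hv : v = -v) : v = 0 := by
  have h1 : (2 : ℚ) • v = 0 := by
    rw [two_smul]
    nth_rewrite 2 [hv]
    exact add_neg_cancel v
  exact (smul_eq_zero.1 h1).resolve_left (by norm_num)

theorem PY9_half {U : Type} [AddCommGroup U] [Module ℚ U] (V P : Finset U)
    (hn : ∀ v ∈ V, -v ∈ V) (sub : P ⊆ V) (half : ∀ v ∈ V, v ∈ P ↔ -v ∉ P) :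
    2 * P.card = V.card := by
  classical
  have h1 : V = P ∪ P.image (fun v => -v) := by
    ext v
    rw [Finset.mem_union, Finset.mem_image]
    constructor
    · intro hv
      by_cases h : v ∈ P
      · exact Or.inl h
      · right
        refine ⟨-v, ?_, neg_neg v⟩
        by_contra h2
        exact h ((half v hv).2 h2)
    · rintro (h | ⟨u, hu, rfl⟩)
      · exact sub h
      · exact hn u (sub hu)
  have h2 : Disjoint P (P.image (fun v => -v)) := by
    rw [Finset.disjoint_left]
    intro v hv hv'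
    obtain ⟨u, hu, huv⟩ := Finset.mem_image.1 hv'
    refine (half v (sub hv)).1 hv ?_
    rw [← huv, neg_neg]
    exact hu
  rw [h1, Finset.card_union_of_disjoint h2, Finset.card_image_of_injective _ neg_injective]
  ring

theorem PY9_lin {U : Type} [AddCommGroup U] [Module ℚ U] (A : U →ₗ[ℚ] U) (y : U) (τ : U → ℤ)
    (S : Multiset U) (h : ∀ v ∈ S, (2 : ℚ) • A v = ((τ v : ℤ) : ℚ) • y) :
    (2 : ℚ) • A S.sum = (((S.map τ).sum : ℤ) : ℚ) • y := by
  induction S using Multiset.induction_on with
  | empty => simp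
  | cons v S ih =>
    rw [Multiset.sum_cons, map_add, smul_add, h v (Multiset.mem_cons_self _ _),
      ih (fun u hu => h u (Multiset.mem_cons_of_mem hu)), Multiset.map_cons, Multiset.sum_cons,
      Int.cast_add, add_smul]

theorem PY9_par {U : Type} [AddCommGroup U] [DecidableEq U] (y : U) (hyn : y ≠ -y) (τ : U → ℤ)
    (h1 : ∀ v, (((τ v : ℤ) : ZMod 2)) = 1 + (if v = y then 1 else 0) + (if v = -y then 1 else 0))
    (S : Multiset U) :
    ((((S.map τ).sum : ℤ)) : ZMod 2) = (S.card : ZMod 2) + (S.count y : ZMod 2) +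
      (S.count (-y) : ZMod 2) := by
  induction S using Multiset.induction_on with
  | empty => simp
  | cons v S ih =>
    rw [Multiset.map_cons, Multiset.sum_cons, Int.cast_add, ih, h1, Multiset.card_cons,
      Multiset.count_cons, Multiset.count_cons]
    have e1 : (y = v) ↔ (v = y) := eq_comm
    have e2 : (-y = v) ↔ (v = -y) := eq_comm
    simp only [e1, e2]
    push_cast
    ring

theorem p_PY9 (hAV9 : Stmt_AV9) : Stmt_PY9 := by
  classical
  intro G U _ _ _ _ K R y V m P hx S hSR hsum hnp heven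
  have hn : ∀ v ∈ V, -v ∈ V := fun v hv => by
    rw [← K.cc v]; exact hx.orbit.stable _ v hv
  have hk : 2 * P.card = V.card := PY9_half V P hn hx.half.sub hx.half.half
  have hmk : m * P.card = 4 := by
    have h1 := hx.card
    rw [← hk] at h1
    nlinarith
  obtain ⟨A, hA1, hA2⟩ := hAV9 G U (MulAction.stabilizer G y) (V ∪ {y, -y}) (by
    intro h hh x hxX
    rw [MulAction.mem_stabilizer_iff] at hh
    rw [Finset.mem_union, Finset.mem_insert, Finset.mem_singleton] at hxX ⊢
    rcases hxX with h1 | rfl | rfl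
    · exact Or.inl (hx.orbit.stable h x h1)
    · right; left; exact hh
    · right; right; rw [smul_neg, hh])
  have hAy : A y = y := hA1 y fun h hh => MulAction.mem_stabilizer_iff.1 hh
  have hAP : ∀ v ∈ P, (P.card : ℚ) • A v = P.sum id := by
    refine hA2 P (fun v hv => Finset.mem_union.2 (Or.inl (hx.half.sub hv))) ?_ ?_
    · intro u hu v hv
      obtain ⟨g, h1, h2⟩ := hx.half.tra u hu v hv
      exact ⟨g, MulAction.mem_stabilizer_iff.2 h1, h2⟩
    · intro h hh v hv
      exact hx.half.pos h (MulAction.mem_stabilizer_iff.1 hh) v hv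
  have hm4 : ∀ v ∈ P, (2 : ℚ) • A v = y := by
    intro v hv
    have h1 : (4 : ℚ) • A v = (2 : ℚ) • y := by
      have h2 : ((m * P.card : ℕ) : ℚ) • A v = (2 : ℚ) • y := by
        rw [Nat.cast_mul, mul_smul, hAP v hv, Nat.cast_smul_eq_nsmul, hx.sum]
        rw [← Nat.cast_smul_eq_nsmul ℚ 2 y]
        norm_num
      rwa [hmk] at h2
    have h3 : (2 : ℚ) • ((2 : ℚ) • A v) = (2 : ℚ) • y := by
      rw [smul_smul, ← h1]; norm_num
    have h4 : (2 : ℚ) • ((2 : ℚ) • A v - y) = 0 := by rw [smul_sub, h3, sub_self]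
    exact sub_eq_zero.1 ((smul_eq_zero.1 h4).resolve_left (by norm_num))
  have hy0 : y ≠ 0 := hx.line.1
  have hyn : y ≠ -y := fun h => hy0 (PY9_self h)
  have hny' : -y ∉ V := fun h => hx.ny (by have := hn _ h; rwa [neg_neg] at this)
  -- the integral weights
  obtain ⟨τ, hτ⟩ : ∃ τ : U → ℤ, τ = fun v => if v = y then 2 else if v = -y then -2 else
      if v ∈ P then 1 else -1 := ⟨_, rfl⟩
  have hτy : ∀ v ∈ S, (2 : ℚ) • A v = ((τ v : ℤ) : ℚ) • y := by
    intro v hv
    rw [hτ]
    dsimp only
    by_cases h1 : v = y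
    · rw [if_pos h1, h1, hAy]; norm_num
    rw [if_neg h1]
    by_cases h2 : v = -y
    · rw [if_pos h2, h2, map_neg, hAy]; simp
    rw [if_neg h2]
    by_cases h3 : v ∈ P
    · rw [if_pos h3, hm4 v h3]; simp
    · rw [if_neg h3]
      rcases hx.mem v (hSR v hv) with h4 | h4 | h4
      · have h5 : -v ∈ P := by
          by_contra h6
          exact h3 ((hx.half.half v h4).2 h6)
        have h6 := hm4 (-v) h5
        rw [map_neg, smul_neg] at h6
        rw [← h6]; simp
      · exact absurd h4 h1
      · exact absurd h4 h2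
  have hsumτ : (S.map τ).sum = 0 := by
    have h1 : (((S.map τ).sum : ℤ) : ℚ) • y = 0 := by
      rw [← PY9_lin A y τ S hτy, hsum, map_zero, smul_zero]
    rcases smul_eq_zero.1 h1 with h2 | h2
    · exact_mod_cast h2
    · exact absurd h2 hy0
  have hpar := PY9_par y hyn τ (by
    intro v
    rw [hτ]
    dsimp only
    by_cases h1 : v = y
    · have h2 : ¬ v = -y := fun h => hyn (h1.symm.trans h)
      rw [if_pos h1, if_pos h1, if_neg h2]
      decide
    rw [if_neg h1, if_neg h1]
    by_cases h2 : v = -y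
    · rw [if_pos h2, if_pos h2]
      decide
    rw [if_neg h2, if_neg h2]
    by_cases h3 : v ∈ P
    · rw [if_pos h3]; decide
    · rw [if_neg h3]; decide) S
  rw [hsumτ, (ZMod.natCast_eq_zero_iff_even).2 heven] at hpar
  have hev : Even (S.count y + S.count (-y)) := by
    rw [← ZMod.natCast_eq_zero_iff_even, Nat.cast_add]
    rw [Int.cast_zero, zero_add] at hpar
    exact hpar.symm
  have hone : S.count y = 0 ∨ S.count (-y) = 0 := by
    by_contra hcon
    push Not at hcon
    obtain ⟨h1, h2⟩ := hcon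
    refine hnp y (-y) ?_ (add_neg_cancel y)
    have hnd : ({y, -y} : Multiset U).Nodup := by
      rw [Multiset.insert_eq_cons, Multiset.nodup_cons]
      exact ⟨by rw [Multiset.mem_singleton]; exact hyn, Multiset.nodup_singleton _⟩
    rw [Multiset.le_iff_subset hnd]
    intro w hw
    rw [Multiset.insert_eq_cons, Multiset.mem_cons, Multiset.mem_singleton] at hw
    rcases hw with rfl | rfl
    · exact Multiset.count_ne_zero.1 h1
    · exact Multiset.count_ne_zero.1 h2
  unfold cnt
  rcases hone with h1 | h1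
  · rw [h1, zero_add] at hev
    refine ⟨?_, hev⟩
    rw [h1]
    exact Even.zero
  · rw [h1, add_zero] at hev
    refine ⟨hev, ?_⟩
    rw [h1]
    exact Even.zero

end Pool.T4
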