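import Pool.Agent.Work.MP_223b32_t4.Interface2

/-! # Block OF4: an orbit of four elements and a line -/

namespace Pool.T4

section

variable {G U : Type} [Group G] [AddCommGroup U] [Module ℚ U] [DistribMulAction G U]

theorem OF4_smul (g : G) (c : ℚ) (x : U) : g • (c • x) = c • (g • x) :=
  map_rat_smul (DistribSMul.toAddMonoidHom U g) c x

theorem OF4_half {x y : U} (h : (2 : ℚ) • x = (2 : ℚ) • y) : x = y := by
  have h1 : ((2 : ℚ)⁻¹) • ((2 : ℚ) • x) = ((2 : ℚ)⁻¹) • ((2 : ℚ) • y) := by rw [h]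
  rwa [smul_smul, smul_smul, inv_mul_cancel₀ (by norm_num), one_smul, one_smul] at h1

theorem OF4_ne_neg {x : U} (hx : x ≠ 0) : x ≠ -x := by
  intro h
  apply hx
  apply OF4_half
  rw [smul_zero, two_smul]
  nth_rewrite 1 [h]
  exact neg_add_cancel x

/-- the four elements -/
theorem OF4_four (K : Core G U) (V : Finset U) (hV : IsOrb K V 1) (h4 : V.card = 4) :
    ∃ x1 x2 : U, x1 ∈ V ∧ x2 ∈ V ∧ ∀ v ∈ V, v = x1 ∨ v = -x1 ∨ v = x2 ∨ v = -x2 := by
  classical
  have hneg : ∀ v ∈ V, -v ∈ V := by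
    intro v hv
    have := hV.stable K.c0 v hv
    rwa [K.cc v] at this
  obtain ⟨x1, h1⟩ := hV.ne
  have hc : ({x1, -x1} : Finset U).card ≤ 2 := Finset.card_le_two
  obtain ⟨x2, h2, h2'⟩ : ∃ x2 ∈ V, x2 ∉ ({x1, -x1} : Finset U) := by
    apply Finset.exists_mem_notMem_of_card_lt_card
    omega
  simp only [Finset.mem_insert, Finset.mem_singleton, not_or] at h2'
  obtain ⟨ha, hb⟩ := h2'
  refine ⟨x1, x2, h1, h2, ?_⟩
  have hsub : ({x1, -x1, x2, -x2} : Finset U) ⊆ V := by
    intro v hv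
    simp only [Finset.mem_insert, Finset.mem_singleton] at hv
    rcases hv with rfl | rfl | rfl | rfl
    · exact h1
    · exact hneg _ h1
    · exact h2
    · exact hneg _ h2
  have hcard : ({x1, -x1, x2, -x2} : Finset U).card = 4 := by
    have e1 : x1 ≠ -x1 := OF4_ne_neg (hV.nz x1 h1)
    have e2 : x2 ≠ -x2 := OF4_ne_neg (hV.nz x2 h2)
    have e3 : x1 ≠ x2 := fun h => ha h.symm
    have e4 : x1 ≠ -x2 := fun h => hb (by rw [h, neg_neg])
    have e5 : -x1 ≠ x2 := fun h => hb h.symm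
    have e6 : -x1 ≠ -x2 := fun h => e3 (neg_injective h)
    rw [Finset.card_insert_of_notMem, Finset.card_insert_of_notMem,
      Finset.card_insert_of_notMem, Finset.card_singleton]
    · simpa using e2
    · simp [e5, e6]
    · simp only [Finset.mem_insert, Finset.mem_singleton, not_or]
      exact ⟨e1, e3, e4⟩
  have heq : ({x1, -x1, x2, -x2} : Finset U) = V :=
    Finset.eq_of_subset_of_card_le hsub (by omega)
  intro v hv
  rw [← heq] at hv
  simpa using hv

/-- coordinates -/
theorem OF4_co {V : Finset U} {x1 x2 : U}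
    (h : ∀ v ∈ V, v = x1 ∨ v = -x1 ∨ v = x2 ∨ v = -x2) (v : U) (hv : v ∈ V) :
    ∃ p q : ℚ, v = p • x1 + q • x2 ∧ ((p = 1 ∧ q = 0) ∨ (p = -1 ∧ q = 0) ∨ (p = 0 ∧ q = 1) ∨
      (p = 0 ∧ q = -1)) := by
  rcases h v hv with h | h | h | h
  · exact ⟨1, 0, by rw [h]; simp, by simp⟩
  · exact ⟨-1, 0, by rw [h]; simp, by simp⟩
  · exact ⟨0, 1, by rw [h]; simp, by simp⟩
  · exact ⟨0, -1, by rw [h]; simp, by simp⟩

theorem OF4_uniq {x1 x2 : U} (hind : ∀ s t : ℚ, s • x1 + t • x2 = 0 → s = 0 ∧ t = 0)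
    {p q p' q' : ℚ} (h : p • x1 + q • x2 = p' • x1 + q' • x2) : p = p' ∧ q = q' := by
  have h1 : (p - p') • x1 + (q - q') • x2 = 0 := by
    rw [sub_smul, sub_smul]
    have : p • x1 - p' • x1 + (q • x2 - q' • x2) = (p • x1 + q • x2) - (p' • x1 + q' • x2) := by
      abel
    rw [this, h, sub_self]
  obtain ⟨a, b⟩ := hind _ _ h1
  exact ⟨sub_eq_zero.1 a, sub_eq_zero.1 b⟩

/-- the final contradiction -/
theorem OF4_end (h1 : Stmt_LNE) (K : Core G U) (V : Finset U) (hV : IsOrb K V 1) (x1 x2 : U)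
    (hx1 : x1 ∈ V) (hx2 : x2 ∈ V) (h : ∀ v ∈ V, v = x1 ∨ v = -x1 ∨ v = x2 ∨ v = -x2)
    (hind : ∀ s t : ℚ, s • x1 + t • x2 = 0 → s = 0 ∧ t = 0)
    (hl : ∀ g : G, g • (x1 + x2) = x1 + x2 ∨ g • (x1 + x2) = -(x1 + x2)) : False := by
  have hne : x1 + x2 ≠ 0 := by
    intro h0
    have := (hind 1 1 (by simpa using h0)).1
    norm_num at this
  have hne' : x1 - x2 ≠ 0 := by
    intro h0
    have := (hind 1 (-1) (by simpa [sub_eq_add_neg] using h0)).1
    norm_num at this
  have hL : Line G (x1 + x2) := ⟨hne, hl⟩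
  have hL' : Line G (x1 - x2) := by
    refine ⟨hne', fun g => ?_⟩
    obtain ⟨p1, q1, e1, c1⟩ := OF4_co h _ (hV.stable g x1 hx1)
    obtain ⟨p2, q2, e2, c2⟩ := OF4_co h _ (hV.stable g x2 hx2)
    have hs : g • (x1 + x2) = (p1 + p2) • x1 + (q1 + q2) • x2 := by
      rw [smul_add, e1, e2, add_smul, add_smul]
      abel
    have hd : g • (x1 - x2) = (p1 - p2) • x1 + (q1 - q2) • x2 := by
      rw [smul_sub, e1, e2, sub_smul, sub_smul]
      abel
    have key : (p1 + p2 = 1 ∧ q1 + q2 = 1) ∨ (p1 + p2 = -1 ∧ q1 + q2 = -1) := by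
      rcases hl g with hg | hg
      · left
        apply OF4_uniq hind
        rw [← hs, hg, one_smul, one_smul]
      · right
        apply OF4_uniq hind
        rw [← hs, hg, neg_smul, neg_smul, one_smul, one_smul]
        abel
    have key2 : (p1 - p2 = 1 ∧ q1 - q2 = -1) ∨ (p1 - p2 = -1 ∧ q1 - q2 = 1) := by
      rcases c1 with ⟨a, b⟩ | ⟨a, b⟩ | ⟨a, b⟩ | ⟨a, b⟩ <;>
      rcases c2 with ⟨c, d⟩ | ⟨c, d⟩ | ⟨c, d⟩ | ⟨c, d⟩ <;>
      rcases key with ⟨e, f⟩ | ⟨e, f⟩ <;>
      first
        | (left; constructor <;> linarith)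
        | (right; constructor <;> linarith)
    rcases key2 with ⟨a, b⟩ | ⟨a, b⟩
    · left
      rw [hd, a, b, neg_smul, one_smul, one_smul, sub_eq_add_neg]
    · right
      rw [hd, a, b, neg_smul, one_smul, one_smul]
      abel
  obtain ⟨w1, d1⟩ := h1 G U K _ hL
  obtain ⟨w2, d2⟩ := h1 G U K _ hL'
  have hfix1 : ∀ d ∈ K.D, d • x1 = x1 := by
    intro d hd
    have a := d1 d hd
    have b := d2 d hd
    rw [smul_add] at a
    rw [smul_sub] at b
    apply OF4_half
    rw [two_smul, two_smul]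
    calc d • x1 + d • x1 = (d • x1 + d • x2) + (d • x1 - d • x2) := by abel
      _ = (x1 + x2) + (x1 - x2) := by rw [a, b]
      _ = x1 + x1 := by abel
  have hfix2 : ∀ d ∈ K.D, d • x2 = x2 := by
    intro d hd
    have a := d1 d hd
    rw [smul_add, hfix1 d hd] at a
    exact add_left_cancel a
  have hw : ∀ x ∈ V, (∀ d ∈ K.D, d • x = x) → K.w x = 1 ∨ K.w x = -1 := by
    intro x hx hf
    have horb : orb K.D x = {x} := by
      ext z
      constructor
      · rintro ⟨d, hd, rfl⟩
        exact hf d hd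
      · intro hz
        exact ⟨1, K.D.one_mem, by rw [one_smul]; exact hz⟩
    obtain ⟨n, hn⟩ := hV.ht x hx
    rw [horb, Set.ncard_singleton] at hn
    push_cast at hn
    have hle := abs_le.1 (hV.le_one x hx)
    have hn2 : (n : ℝ) ≤ 1 := by linarith [hle.2]
    have hn3 : n ≤ 1 := by exact_mod_cast hn2
    interval_cases n
    · right
      push_cast at hn
      linarith
    · left
      push_cast at hn
      linarith
  have a := hw x1 hx1 hfix1
  have b := hw x2 hx2 hfix2
  rw [map_add] at w1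
  rw [map_sub] at w2
  rcases a with a | a <;> rcases b with b | b <;> rw [a, b] at w1 w2 <;>
    first
      | (apply w1; norm_num; done)
      | (apply w2; norm_num; done)

end

theorem p_OF4 (h1 : Stmt_LNE) (h2 : Stmt_LIN) : Stmt_OF4 := by
  intro G U _ _ _ _ K V hV h4 y hy hmem
  obtain ⟨x1, x2, hx1, hx2, h⟩ := OF4_four K V hV h4
  have hind : ∀ s t : ℚ, s • x1 + t • x2 = 0 → s = 0 ∧ t = 0 := by
    intro s t hst
    have aux : ∀ (u v : U) (s t : ℚ), (∀ w ∈ V, w = u ∨ w = -u ∨ w = v ∨ w = -v) →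
        s • u + t • v = 0 → s = 0 := by
      intro u v s t hw he
      by_contra hs
      have hu : u = (-(t / s)) • v := by
        have h3 : s • u = -(t • v) := eq_neg_of_add_eq_zero_left he
        have h4 : s⁻¹ • (s • u) = s⁻¹ • (-(t • v)) := by rw [h3]
        rw [smul_smul, inv_mul_cancel₀ hs, one_smul] at h4
        rw [h4, smul_neg, smul_smul, neg_smul]
        congr 2
        ring
      have h5 := h2 G U K V 1 hV ⟨v, fun w hwV => by
        rcases hw w hwV with h | h | h | h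
        · exact ⟨-(t / s), by rw [h]; exact hu⟩
        · exact ⟨t / s, by rw [h, hu, neg_smul, neg_neg]⟩
        · exact ⟨1, by rw [h, one_smul]⟩
        · exact ⟨-1, by rw [h, neg_smul, one_smul]⟩⟩
      omega
    refine ⟨aux x1 x2 s t h hst, aux x2 x1 t s ?_ (by rw [add_comm]; exact hst)⟩
    intro w hw
    rcases h w hw with h | h | h | h
    · exact Or.inr (Or.inr (Or.inl h))
    · exact Or.inr (Or.inr (Or.inr h))
    · exact Or.inl h
    · exact Or.inr (Or.inl h)
  -- coordinates of y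
  obtain ⟨a, b, hab⟩ : ∃ a b : ℚ, y = a • x1 + b • x2 := by
    have hle : Submodule.span ℚ (V : Set U) ≤ Submodule.span ℚ {x1, x2} := by
      rw [Submodule.span_le]
      intro v hv
      obtain ⟨p, q, e, _⟩ := OF4_co h v hv
      exact Submodule.mem_span_pair.2 ⟨p, q, e.symm⟩
    obtain ⟨a, b, e⟩ := Submodule.mem_span_pair.1 (hle hmem)
    exact ⟨a, b, e.symm⟩
  have hgy : ∀ g : G, g • y = a • (g • x1) + b • (g • x2) := by
    intro g
    rw [hab, smul_add, OF4_smul, OF4_smul]
  have habs : a = b ∨ a = -b := by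
    obtain ⟨g, hg⟩ := hV.trans x1 hx1 x2 hx2
    obtain ⟨p, q, e, c⟩ := OF4_co h _ (hV.stable g x2 hx2)
    have h5 : g • y = (b * p) • x1 + (a + b * q) • x2 := by
      rw [hgy, hg, e, smul_add, smul_smul, smul_smul, add_smul]
      abel
    have hq : q = 0 := by
      rcases c with c | c | c | c
      · exact c.2
      · exact c.2
      · exfalso
        rw [c.1, c.2, zero_smul, one_smul, zero_add, ← hg] at e
        have e' := smul_left_cancel g e
        have := (hind 1 (-1) (by rw [← hg, e']; simp)).1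
        norm_num at this
      · exfalso
        rw [c.1, c.2, zero_smul, neg_smul, one_smul, zero_add, ← hg, ← smul_neg] at e
        have e' := smul_left_cancel g e
        have := (hind 1 1 (by rw [← hg, e']; simp)).1
        norm_num at this
    rw [hq, mul_zero, add_zero] at h5
    rcases hy.2 g with hg2 | hg2
    · rw [h5, hab] at hg2
      exact Or.inl (OF4_uniq hind hg2).2
    · rw [h5, hab, neg_add, ← neg_smul, ← neg_smul] at hg2
      exact Or.inr (OF4_uniq hind hg2).2
  have hb0 : b ≠ 0 := by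
    intro hb
    have ha : a = 0 := by rcases habs with h | h <;> rw [h, hb] <;> simp
    exact hy.1 (by rw [hab, ha, hb]; simp)
  have hcancel : ∀ z : U, y = b • z → ∀ g : G, g • z = z ∨ g • z = -z := by
    intro z hz g
    have hinv : ∀ u v : U, b • u = b • v → u = v := by
      intro u v huv
      have h6 : b⁻¹ • (b • u) = b⁻¹ • (b • v) := by rw [huv]
      rwa [smul_smul, smul_smul, inv_mul_cancel₀ hb0, one_smul, one_smul] at h6
    rcases hy.2 g with hg | hg
    · left
      apply hinv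
      rw [← OF4_smul, ← hz]
      exact hg
    · right
      apply hinv
      rw [← OF4_smul, ← hz, smul_neg, ← hz]
      exact hg
  rcases habs with hh | hh
  · refine OF4_end h1 K V hV x1 x2 hx1 hx2 h hind (hcancel _ ?_)
    rw [hab, hh, smul_add]
  · have hnx : -x1 ∈ V := by
      have := hV.stable K.c0 x1 hx1
      rwa [K.cc x1] at this
    refine OF4_end h1 K V hV (-x1) x2 hnx hx2 ?_ ?_ (hcancel _ ?_)
    · intro v hv
      rcases h v hv with h | h | h | h
      · exact Or.inr (Or.inl (by rw [neg_neg]; exact h))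
      · exact Or.inl h
      · exact Or.inr (Or.inr (Or.inl h))
      · exact Or.inr (Or.inr (Or.inr h))
    · intro s t hst
      have := hind (-s) t (by rw [neg_smul, ← smul_neg]; exact hst)
      exact ⟨neg_eq_zero.1 this.1, this.2⟩
    · rw [hab, hh, smul_add, smul_neg, neg_smul]

end Pool.T4
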