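import Pool.Agent.Work.MP_223b32_t4.Interface9
import Pool.Agent.Work.MP_223b32_t4.B_OF4

/-! # Block RA9: an orbit of four elements and an orbit of six elements -/

namespace Pool.T4

section

variable {G U : Type} [Group G] [AddCommGroup U] [Module ℚ U] [DistribMulAction G U]

/-- an element of order three on `W` -/
theorem RA9_cauchy (W : Finset U) (h6 : W.card = 6) (hst : ∀ g : G, ∀ v ∈ W, g • v ∈ W)
    (htr : ∀ u ∈ W, ∀ v ∈ W, ∃ g : G, g • u = v) :
    ∃ g : G, (∀ v ∈ W, g • g • g • v = v) ∧ ∃ c ∈ W, g • c ≠ c := by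
  classical
  let act : MulAction G {u : U // u ∈ W} :=
    { smul := fun g v => ⟨g • v.1, hst g v.1 v.2⟩
      one_smul := fun v => Subtype.ext (one_smul G v.1)
      mul_smul := fun a b v => Subtype.ext (mul_smul a b v.1) }
  let φ : G →* Equiv.Perm {u : U // u ∈ W} := MulAction.toPermHom G {u : U // u ∈ W}
  have hφ : ∀ (g : G) (v : {u : U // u ∈ W}), ((φ g) v).1 = g • v.1 := fun _ _ => rfl
  haveI htrans : MulAction.IsPretransitive φ.range {u : U // u ∈ W} := ⟨fun a b => by
    obtain ⟨g, hg⟩ := htr a.1 a.2 b.1 b.2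
    exact ⟨⟨φ g, g, rfl⟩, Subtype.ext hg⟩⟩
  have hcard : Nat.card {u : U // u ∈ W} = 6 := by
    rw [Nat.card_eq_fintype_card, Fintype.card_coe, h6]
  obtain ⟨w0, hw0⟩ : W.Nonempty := Finset.card_pos.1 (by omega)
  have hdvd : 6 ∣ Nat.card φ.range := by
    rw [← hcard, ← MulAction.index_stabilizer_of_transitive φ.range (⟨w0, hw0⟩ : {u : U // u ∈ W})]
    exact Subgroup.index_dvd_card _
  haveI : Fact (Nat.Prime 3) := ⟨Nat.prime_three⟩
  obtain ⟨⟨q, g, hgq⟩, hq⟩ := exists_prime_orderOf_dvd_card' (G := φ.range) 3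
    (dvd_trans (by norm_num) hdvd)
  have hq1 : (φ g) ^ 3 = 1 := by
    have h := pow_orderOf_eq_one (⟨q, g, hgq⟩ : φ.range)
    rw [hq] at h
    have h' := congrArg Subtype.val h
    rw [hgq]
    exact h'
  have hq2 : φ g ≠ 1 := by
    intro h
    have h' : (⟨q, g, hgq⟩ : φ.range) = 1 := by
      apply Subtype.ext
      change q = 1
      rw [← hgq, h]
    rw [h', orderOf_one] at hq
    omega
  refine ⟨g, fun v hv => ?_, ?_⟩
  · have h := congrArg (fun e : Equiv.Perm {u : U // u ∈ W} => (e ⟨v, hv⟩).1) hq1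
    exact h
  · by_contra hcon
    push Not at hcon
    apply hq2
    ext v
    exact hcon v.1 v.2

/-- the six elements -/
theorem RA9_six (W : Finset U) (h6 : W.card = 6) (hst : ∀ g : G, ∀ v ∈ W, g • v ∈ W)
    (hneg : ∀ v ∈ W, -v ∈ W) (hnz : ∀ v ∈ W, v ≠ 0) (g : G)
    (hg : ∀ v ∈ W, g • g • g • v = v) (c : U) (hc : c ∈ W) (hgc : g • c ≠ c) :
    ∀ u ∈ W, u = c ∨ u = g • c ∨ u = g • g • c ∨ u = -c ∨ u = -(g • c) ∨ u = -(g • g • c) := by
  classical
  have hs : ∀ v ∈ W, v ≠ -v := fun v hv => OF4_ne_neg (hnz v hv)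
  have hg3 := hg c hc
  have n1 : g • g • c ≠ c := by
    intro h
    rw [h] at hg3
    exact hgc hg3
  have n2 : g • g • c ≠ g • c := fun h => hgc (smul_left_cancel g h)
  have n3 : g • c ≠ -c := by
    intro h
    apply n1
    rw [h, smul_neg, h, neg_neg]
  have n4 : g • g • c ≠ -(g • c) := by
    intro h
    rw [← smul_neg] at h
    exact n3 (smul_left_cancel g h)
  have n5 : g • g • c ≠ -c := by
    intro h
    have h2 : g • g • g • c = g • (-c) := by rw [h]
    rw [hg3, smul_neg] at h2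
    exact n3 ((neg_eq_iff_eq_neg.2 h2).symm)
  have m1 : g • c ∈ W := hst g c hc
  have m2 : g • g • c ∈ W := hst g _ m1
  have s1 := hs c hc
  have s2 := hs _ m1
  have s3 := hs _ m2
  have hsub : ({c, g • c, g • g • c, -c, -(g • c), -(g • g • c)} : Finset U) ⊆ W := by
    intro v hv
    simp only [Finset.mem_insert, Finset.mem_singleton] at hv
    rcases hv with rfl | rfl | rfl | rfl | rfl | rfl
    · exact hc
    · exact m1
    · exact m2
    · exact hneg _ hc
    · exact hneg _ m1
    · exact hneg _ m2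
  have hcard : ({c, g • c, g • g • c, -c, -(g • c), -(g • g • c)} : Finset U).card = 6 := by
    rw [Finset.card_insert_of_notMem, Finset.card_insert_of_notMem, Finset.card_insert_of_notMem,
      Finset.card_insert_of_notMem, Finset.card_insert_of_notMem, Finset.card_singleton]
    · simp only [Finset.mem_singleton]
      exact fun h => n2 (neg_injective h).symm
    · simp only [Finset.mem_insert, Finset.mem_singleton, not_or]
      exact ⟨fun h => hgc (neg_injective h).symm, fun h => n1 (neg_injective h).symm⟩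
    · simp only [Finset.mem_insert, Finset.mem_singleton, not_or]
      exact ⟨n5, n4, s3⟩
    · simp only [Finset.mem_insert, Finset.mem_singleton, not_or]
      exact ⟨n2.symm, n3, s2, fun h => n4 ((neg_eq_iff_eq_neg.2 h).symm)⟩
    · simp only [Finset.mem_insert, Finset.mem_singleton, not_or]
      exact ⟨hgc.symm, n1.symm, s1, fun h => n3 ((neg_eq_iff_eq_neg.2 h).symm),
        fun h => n5 ((neg_eq_iff_eq_neg.2 h).symm)⟩
  have heq : ({c, g • c, g • g • c, -c, -(g • c), -(g • g • c)} : Finset U) = W :=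
    Finset.eq_of_subset_of_card_le hsub (by omega)
  intro v hv
  rw [← heq] at hv
  simpa using hv

/-- the sum over the three cycle -/
theorem RA9_sum (W : Finset U) (h6 : W.card = 6) (hst : ∀ g : G, ∀ v ∈ W, g • v ∈ W)
    (hneg : ∀ v ∈ W, -v ∈ W) (hnz : ∀ v ∈ W, v ≠ 0) (g : G)
    (hg : ∀ v ∈ W, g • g • g • v = v) (c : U) (hc : c ∈ W) (hgc : g • c ≠ c) :
    ∀ u ∈ W, u + g • u + g • g • u = c + g • c + g • g • c ∨
      u + g • u + g • g • u = -(c + g • c + g • g • c) := by
  have hg3 := hg c hc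
  intro u hu
  rcases RA9_six W h6 hst hneg hnz g hg c hc hgc u hu with h | h | h | h | h | h
  · left
    rw [h]
  · left
    rw [h, hg3]
    abel
  · left
    rw [h, hg3]
    abel
  · right
    rw [h]
    simp only [smul_neg]
    abel
  · right
    rw [h]
    simp only [smul_neg, hg3]
    abel
  · right
    rw [h]
    simp only [smul_neg, hg3]
    abel

/-- the square of `g` on one element of `V` -/
theorem RA9_sq (V : Finset U) (hst : ∀ g : G, ∀ v ∈ V, g • v ∈ V) (x1 x2 : U) (h1 : x1 ∈ V)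
    (h2 : x2 ∈ V) (h : ∀ v ∈ V, v = x1 ∨ v = -x1 ∨ v = x2 ∨ v = -x2) (g : G) :
    g • g • x1 = x1 ∨ g • g • x1 = -x1 := by
  have key : ∀ y : U, g • x1 = y ∨ g • x1 = -y → g • y = x1 ∨ g • y = -x1 →
      g • g • x1 = x1 ∨ g • g • x1 = -x1 := by
    intro y ha hb
    rcases ha with ha | ha <;> rcases hb with hb | hb <;> rw [ha] <;>
      simp only [smul_neg, hb, neg_neg, true_or, or_true]
  rcases h _ (hst g x1 h1) with a | a | a | a
  · exact key x1 (Or.inl a) (Or.inl a)
  · exact key x1 (Or.inr a) (Or.inr a)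
  · rcases h _ (hst g x2 h2) with b | b | b | b
    · exact key x2 (Or.inl a) (Or.inl b)
    · exact key x2 (Or.inl a) (Or.inr b)
    · have e : x1 = x2 := smul_left_cancel g (by rw [a, b])
      rw [← e] at a
      exact key x1 (Or.inl a) (Or.inl a)
    · have e : x1 = -x2 := smul_left_cancel g (by rw [a, smul_neg, b, neg_neg])
      have a' : g • x1 = -x1 := by rw [a, e, neg_neg]
      exact key x1 (Or.inr a') (Or.inr a')
  · rcases h _ (hst g x2 h2) with b | b | b | b
    · exact key x2 (Or.inr a) (Or.inl b)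
    · exact key x2 (Or.inr a) (Or.inr b)
    · have e : x1 = -x2 := smul_left_cancel g (by rw [a, smul_neg, b])
      have a' : g • x1 = x1 := by rw [a, e]
      exact key x1 (Or.inl a') (Or.inl a')
    · have e : x1 = x2 := smul_left_cancel g (by rw [a, b])
      rw [← e] at a
      exact key x1 (Or.inr a) (Or.inr a)

/-- `g ^ 4` is trivial on `V` -/
theorem RA9_four (K : Core G U) (V : Finset U) (hV : IsOrb K V 1) (h4 : V.card = 4) (g : G) :
    ∀ v ∈ V, g • g • g • g • v = v := by
  obtain ⟨x1, x2, h1, h2, h⟩ := OF4_four K V hV h4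
  have h' : ∀ v ∈ V, v = x2 ∨ v = -x2 ∨ v = x1 ∨ v = -x1 := by
    intro v hv
    rcases h v hv with a | a | a | a
    · exact Or.inr (Or.inr (Or.inl a))
    · exact Or.inr (Or.inr (Or.inr a))
    · exact Or.inl a
    · exact Or.inr (Or.inl a)
  have e : ∀ x : U, (g • g • x = x ∨ g • g • x = -x) → g • g • g • g • x = x := by
    intro x hx
    rcases hx with hx | hx
    · rw [hx, hx]
    · rw [hx, smul_neg, smul_neg, hx, neg_neg]
  have e1 := e x1 (RA9_sq V hV.stable x1 x2 h1 h2 h g)
  have e2 := e x2 (RA9_sq V hV.stable x2 x1 h2 h1 h' g)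
  intro v hv
  rcases h v hv with a | a | a | a
  · rw [a, e1]
  · rw [a]
    simp only [smul_neg]
    rw [e1]
  · rw [a, e2]
  · rw [a]
    simp only [smul_neg]
    rw [e2]

/-- the element `h` -/
theorem RA9_h (K : Core G U) (V W : Finset U) (hV : IsOrb K V 1) (hW : IsOrb K W 1)
    (h4 : V.card = 4) (h6 : W.card = 6) :
    ∃ (h : G) (σ : U), (∀ v ∈ V, h • v = v) ∧
      ∀ u ∈ W, u + h • u + h • h • u = σ ∨ u + h • u + h • h • u = -σ := by
  obtain ⟨g, hg, c, hc, hgc⟩ := RA9_cauchy W h6 hW.stable hW.trans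
  have hneg : ∀ v ∈ W, -v ∈ W := by
    intro v hv
    have := hW.stable K.c0 v hv
    rwa [K.cc v] at this
  have hs := RA9_sum W h6 hW.stable hneg hW.nz g hg c hc hgc
  have hh : ∀ u : U, (g * (g * (g * g))) • u = g • g • g • g • u := by
    intro u
    simp only [mul_smul]
  have hu : ∀ u ∈ W, (g * (g * (g * g))) • u = g • u := by
    intro u hu
    rw [hh, hg _ (hW.stable g u hu)]
  refine ⟨g * (g * (g * g)), c + g • c + g • g • c, fun v hv => ?_, fun u huW => ?_⟩
  · rw [hh]
    exact RA9_four K V hV h4 g v hv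
  · rw [hu u huW, hu _ (hW.stable g u huW)]
    exact hs u huW

/-- sum of the operator over a multiset -/
theorem RA9_mul (W : Finset U) (T : U → U) (T0 : T 0 = 0) (Ta : ∀ a b, T (a + b) = T a + T b)
    (σ : U) (h : ∀ u ∈ W, T u = σ ∨ T u = -σ) (S : Multiset U) (hS : ∀ v ∈ S, v ∈ W) :
    ∃ n : ℤ, T S.sum = n • σ := by
  induction S using Multiset.induction_on with
  | empty => exact ⟨0, by rw [Multiset.sum_zero, T0, zero_smul]⟩
  | cons a S ih =>
    obtain ⟨n, hn⟩ := ih fun v hv => hS v (Multiset.mem_cons_of_mem hv)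
    rcases h a (hS a (Multiset.mem_cons_self a S)) with h1 | h1
    · exact ⟨1 + n, by rw [Multiset.sum_cons, Ta, h1, hn, add_smul, one_smul]⟩
    · exact ⟨-1 + n, by rw [Multiset.sum_cons, Ta, h1, hn, add_smul, neg_smul, one_smul]⟩

theorem RA9_fix (V : Finset U) (T : U → U) (T0 : T 0 = 0) (Ta : ∀ a b, T (a + b) = T a + T b)
    (h : ∀ u ∈ V, T u = (3 : ℤ) • u) (S : Multiset U) (hS : ∀ v ∈ S, v ∈ V) :
    T S.sum = (3 : ℤ) • S.sum := by
  induction S using Multiset.induction_on with
  | empty => rw [Multiset.sum_zero, T0, smul_zero]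
  | cons a S ih =>
    rw [Multiset.sum_cons, Ta, ih fun v hv => hS v (Multiset.mem_cons_of_mem hv),
      h a (hS a (Multiset.mem_cons_self a S)), smul_add]

end

theorem p_RA9 (h1 : Stmt_OF4) : Stmt_RA9 := by
  intro G U _ _ _ _ K V W hV hW h4 h6 S1 S2 hS1 hS2 hsum
  by_contra hp
  obtain ⟨h, σ, hhV, hhW⟩ := RA9_h K V W hV hW h4 h6
  -- the relation for every conjugate
  have rel : ∀ k : G, ∃ n : ℤ, (3 : ℤ) • S1.sum + n • (k • σ) = 0 := by
    intro k
    let T : U → U := fun u => u + (k * h * k⁻¹) • u + (k * h * k⁻¹) • (k * h * k⁻¹) • u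
    have hk : ∀ u : U, (k * h * k⁻¹) • u = k • h • k⁻¹ • u := by
      intro u
      rw [mul_smul, mul_smul]
    have T0 : T 0 = 0 := by simp [T]
    have Ta : ∀ a b, T (a + b) = T a + T b := by
      intro a b
      simp only [T, smul_add]
      abel
    have hTV : ∀ u ∈ V, T u = (3 : ℤ) • u := by
      intro u hu
      have e : (k * h * k⁻¹) • u = u := by
        rw [hk, hhV _ (hV.stable k⁻¹ u hu), smul_inv_smul]
      simp only [T, e]
      rw [show (3 : ℤ) = 1 + 1 + 1 by norm_num, add_smul, add_smul, one_smul]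
    have hTW : ∀ u ∈ W, T u = k • σ ∨ T u = -(k • σ) := by
      intro u hu
      have hu' := hW.stable k⁻¹ u hu
      have e : T u = k • (k⁻¹ • u + h • k⁻¹ • u + h • h • k⁻¹ • u) := by
        simp only [T, hk, smul_add, smul_inv_smul, inv_smul_smul]
      rw [e]
      rcases hhW _ hu' with e2 | e2
      · left
        rw [e2]
      · right
        rw [e2, smul_neg]
    obtain ⟨n, hn⟩ := RA9_mul W T T0 Ta (k • σ) hTW S2 hS2
    refine ⟨n, ?_⟩
    rw [← RA9_fix V T T0 Ta hTV S1 hS1, ← hn, ← Ta, hsum, T0]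
  have rq : ∀ k : G, ∃ n : ℚ, (3 : ℚ) • S1.sum + n • (k • σ) = 0 := by
    intro k
    obtain ⟨n, hn⟩ := rel k
    refine ⟨n, ?_⟩
    rw [Int.cast_smul_eq_zsmul, ← hn]
    congr 1
    rw [show (3 : ℚ) = ((3 : ℤ) : ℚ) by norm_num, Int.cast_smul_eq_zsmul]
  have hp3 : (3 : ℚ) • S1.sum ≠ 0 := smul_ne_zero (by norm_num) hp
  obtain ⟨n, hn⟩ := rq 1
  rw [one_smul] at hn
  have hn0 : n ≠ 0 := by
    intro h0
    rw [h0, zero_smul, add_zero] at hn
    exact hp3 hn
  have hσ0 : σ ≠ 0 := by
    intro h0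
    rw [h0, smul_zero, add_zero] at hn
    exact hp3 hn
  have hσ : σ = (-(3 / n)) • S1.sum := by
    have e : n • σ = -((3 : ℚ) • S1.sum) := eq_neg_of_add_eq_zero_right hn
    have e2 : n⁻¹ • (n • σ) = n⁻¹ • (-((3 : ℚ) • S1.sum)) := by rw [e]
    rw [smul_smul, inv_mul_cancel₀ hn0, one_smul] at e2
    rw [e2, smul_neg, smul_smul, neg_smul]
    congr 2
    ring
  have hmem : σ ∈ Submodule.span ℚ (V : Set U) := by
    rw [hσ]
    apply Submodule.smul_mem
    exact multiset_sum_mem _ fun v hv => Submodule.subset_span (hS1 v hv)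
  -- `k • σ` is a multiple of `σ`
  have hrho : ∀ k : G, ∃ r : ℚ, k • σ = r • σ := by
    intro k
    obtain ⟨m, hm⟩ := rq k
    have hm0 : m ≠ 0 := by
      intro h0
      rw [h0, zero_smul, add_zero] at hm
      exact hp3 hm
    have e : m • (k • σ) = n • σ := by
      have := hm.trans hn.symm
      exact add_left_cancel this
    refine ⟨m⁻¹ * n, ?_⟩
    rw [mul_smul, ← e, smul_smul, inv_mul_cancel₀ hm0, one_smul]
  have hline : Line G σ := by
    refine ⟨hσ0, fun k => ?_⟩
    obtain ⟨r, hr⟩ := hrho k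
    have hpow : ∀ N : ℕ, (k ^ N) • σ = (r ^ N) • σ := by
      intro N
      induction N with
      | zero => rw [pow_zero, pow_zero, one_smul, one_smul]
      | succ N ih =>
        rw [pow_succ, mul_smul, hr, OF4_smul, ih, smul_smul, pow_succ, mul_comm]
    -- some power of `k` fixes `V`
    obtain ⟨N, hN, hfix⟩ : ∃ N : ℕ, 0 < N ∧ ∀ v ∈ V, (k ^ N) • v = v :=
      ⟨4, by norm_num, fun v hv => by
        have := RA9_four K V hV h4 k v hv
        rw [pow_succ, pow_succ, pow_succ, pow_one, mul_smul, mul_smul, mul_smul]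
        exact this⟩
    have hfixp : (k ^ N) • S1.sum = S1.sum := by
      have : ∀ S : Multiset U, (∀ v ∈ S, v ∈ V) → (k ^ N) • S.sum = S.sum := by
        intro S
        induction S using Multiset.induction_on with
        | empty => intro _; rw [Multiset.sum_zero, smul_zero]
        | cons a S ih =>
          intro hS
          rw [Multiset.sum_cons, smul_add, ih fun v hv => hS v (Multiset.mem_cons_of_mem hv),
            hfix a (hS a (Multiset.mem_cons_self a S))]
      exact this S1 hS1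
    have hfixσ : (k ^ N) • σ = σ := by
      rw [hσ, OF4_smul, hfixp]
    have hr1 : r ^ N = 1 := by
      have e : (r ^ N - 1) • σ = 0 := by
        rw [sub_smul, one_smul, ← hpow N, hfixσ, sub_self]
      rcases smul_eq_zero.1 e with e | e
      · exact sub_eq_zero.1 e
      · exact absurd e hσ0
    rcases (pow_eq_one_iff_of_ne_zero hN.ne').1 hr1 with h2 | ⟨h2, _⟩
    · left
      rw [hr, h2, one_smul]
    · right
      rw [hr, h2, neg_smul, one_smul]
  exact h1 G U K V hV h4 σ hline hmem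

end Pool.T4
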