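import Pool.Agent.Work.MP_223b32_t4.Interface9

/-! Block RD9 (helper58): an ordinary elliptic curve which occurs twice. -/

namespace Pool.T4

open Pool.Agent.Work.MP_223b32_ag

theorem RD9_cnt_pos {U : Type} (v : U) (J : Multiset U) (h : 0 < cnt v J) : v ∈ J := by
  classical
  unfold cnt at h
  exact Multiset.count_pos.1 h

theorem RD9_cnt_self {U : Type} (v : U) (J : Multiset U) : cnt v (v ::ₘ J) = cnt v J + 1 := by
  classical
  unfold cnt
  rw [Multiset.count_cons_self]

theorem RD9_cnt_ne {U : Type} (v w : U) (J : Multiset U) (h : v ≠ w) :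
    cnt v (w ::ₘ J) = cnt v J := by
  classical
  unfold cnt
  rw [Multiset.count_cons_of_ne h]

theorem RD9_mult (x x' z : Qb) (R : Multiset Qb) (h : germ z ≠ germ x) (h' : germ z ≠ germ x') :
    mult (x ::ₘ x' ::ₘ R) z = mult R z := by
  classical
  unfold mult
  rw [Multiset.map_cons, Multiset.map_cons, Multiset.count_cons_of_ne h,
    Multiset.count_cons_of_ne h']

theorem p_RD9 (hLNE : Stmt_LNE) : Stmt_RD9 := by
  intro p hp a ι ρ c hc ha hD R hR y hy hw hcnt
  have hy0 : y ≠ 0 := hy.1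
  have hyn : y ≠ -y := by
    intro h
    have h2 : (2 : ℚ) • y = 0 := by
      have h3 : y + y = 0 := by
        nth_rewrite 2 [h]
        exact add_neg_cancel y
      rw [two_smul, h3]
    rcases smul_eq_zero.1 h2 with h3 | h3
    · norm_num at h3
    · exact hy0 h3
  have hLN := (hLNE GQ (UU ι) (coreU ι ρ c hc) y hy).2
  have hcc : ∀ v : UU ι, c • v = -v := (coreU ι ρ c hc).cc
  have hgerm : ∀ u v : Qb, Weil (p ^ a) u → Weil (p ^ a) v →
      (germ u = germ v ↔ uu (p ^ a) ι u = uu (p ^ a) ι v) := by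
    intro u v hu hv
    rw [← hD.sim u v hu hv]
    exact ⟨fun h => Quotient.exact h, fun h => Quotient.sound h⟩
  -- the two Weil numbers
  have hmem : y ∈ R.map (uu (p ^ a) ι) := RD9_cnt_pos y _ (by omega)
  obtain ⟨x, hxR, hxy⟩ := Multiset.mem_map.1 hmem
  have hxW := hR.weil x hxR
  have hst : ∀ R0 : Multiset Qb, ((R0.map c).map germ = R0.map germ) →
      (∀ z ∈ R0, Weil (p ^ a) z) → ∀ z ∈ R0, ∃ z' ∈ R0, uu (p ^ a) ι z' = -uu (p ^ a) ι z := by
    intro R0 h0 h1 z hz
    have h2 : germ (c z) ∈ (R0.map c).map germ :=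
      Multiset.mem_map_of_mem _ (Multiset.mem_map_of_mem _ hz)
    rw [h0] at h2
    obtain ⟨z', hz', hzz⟩ := Multiset.mem_map.1 h2
    refine ⟨z', hz', ?_⟩
    have h3 := (hgerm z' (c z) (h1 z' hz') (hD.weil z (h1 z hz) c)).1 hzz
    rw [h3, hD.smul z (h1 z hz) c, hcc]
  obtain ⟨x', hxR', hxy'⟩ := hst R (hR.stable c) hR.weil x hxR
  rw [hxy] at hxy'
  have hxW' := hR.weil x' hxR'
  have hxx : x' ≠ x := by
    intro h
    rw [h, hxy] at hxy'
    exact hyn hxy'
  obtain ⟨R', hR'⟩ := Multiset.exists_cons_of_mem hxR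
  rw [hR'] at hxR'
  have hx1 : x' ∈ R' := by
    rcases Multiset.mem_cons.1 hxR' with h | h
    · exact absurd h hxx
    · exact h
  obtain ⟨R1, hR1⟩ := Multiset.exists_cons_of_mem hx1
  rw [hR1] at hR'
  have hle : R1 ≤ R := by
    rw [hR']
    exact (Multiset.le_cons_self R1 x').trans (Multiset.le_cons_self _ x)
  have hW1 : ∀ z ∈ R1, Weil (p ^ a) z := fun z hz => hR.weil z (Multiset.mem_of_le hle hz)
  -- stability
  have hstab : ∀ g : GQ, (R1.map g).map germ = R1.map germ := by
    intro g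
    have h0 := hR.stable g
    rw [hR'] at h0
    simp only [Multiset.map_cons] at h0
    have hgx := hD.smul x hxW g
    have hgx' := hD.smul x' hxW' g
    rw [hxy] at hgx
    rw [hxy', smul_neg] at hgx'
    rcases hy.2 g with h | h
    · have e1 : germ (g x) = germ x := (hgerm _ _ (hD.weil x hxW g) hxW).2 (by
        rw [hgx, h, hxy])
      have e2 : germ (g x') = germ x' := (hgerm _ _ (hD.weil x' hxW' g) hxW').2 (by
        rw [hgx', h, hxy'])
      rw [e1, e2] at h0
      exact (Multiset.cons_inj_right _).1 ((Multiset.cons_inj_right _).1 h0)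
    · have e1 : germ (g x) = germ x' := (hgerm _ _ (hD.weil x hxW g) hxW').2 (by
        rw [hgx, h, hxy'])
      have e2 : germ (g x') = germ x := (hgerm _ _ (hD.weil x' hxW' g) hxW).2 (by
        rw [hgx', h, neg_neg, hxy])
      rw [e1, e2, Multiset.cons_swap] at h0
      exact (Multiset.cons_inj_right _).1 ((Multiset.cons_inj_right _).1 h0)
  -- the local condition for the vectors `± y`
  have hloc : ∀ z, Weil (p ^ a) z → (uu (p ^ a) ι z = y ∨ uu (p ^ a) ι z = -y) →
      (locOrbit ι z).ncard = 1 := by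
    intro z hz hzy
    have h0 : locOrbit ι z = {germ z} := by
      ext t
      constructor
      · rintro ⟨d, hd, rfl⟩
        have h1 : d • uu (p ^ a) ι z = uu (p ^ a) ι z := by
          rcases hzy with h | h
          · rw [h]; exact hLN d hd
          · rw [h, smul_neg, hLN d hd]
        rw [Set.mem_singleton_iff]
        exact (hgerm _ _ (hD.weil z hz d) hz).2 (by rw [hD.smul z hz d, h1])
      · intro ht
        rw [Set.mem_singleton_iff] at ht
        exact ⟨1, (dec ι).one_mem, by rw [ht]; rfl⟩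
    rw [h0, Set.ncard_singleton]
  have hht : ∀ z, Weil (p ^ a) z → (uu (p ^ a) ι z = y ∨ uu (p ^ a) ι z = -y) → ∀ M : ℕ,
      ∃ n : ℕ, ‖ι z‖ ^ M * ((p ^ a : ℕ) : ℝ) ^ n = 1 := by
    intro z hz hzy M
    have hw' : y.1 1 = 1 ∨ y.1 1 = -1 := hw
    have hval : ur (p ^ a) ι z 1 = 1 ∨ ur (p ^ a) ι z 1 = -1 := by
      rw [← hD.mem z hz]
      rcases hzy with h | h
      · rw [h]; exact hw'
      · rw [h]
        have h1 : (-y : UU ι).1 1 = -(y.1 1) := rfl
        rw [h1]
        rcases hw' with h2 | h2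
        · right; rw [h2]
        · left; rw [h2, neg_neg]
    rcases hval with h | h
    · exact ⟨M, (hD.nrm z hz 1 M M).2 (by rw [h]; ring)⟩
    · exact ⟨0, (hD.nrm z hz 1 M 0).2 (by rw [h]; simp)⟩
  refine ⟨R1, hle, ⟨hW1, hstab, ?_⟩, ?_, ?_⟩
  · intro z hz
    have hzW := hW1 z hz
    by_cases hzy : uu (p ^ a) ι z = y ∨ uu (p ^ a) ι z = -y
    · rw [hloc z hzW hzy]
      exact hht z hzW hzy _
    · have h1 : germ z ≠ germ x := fun h =>
        hzy (Or.inl (((hgerm z x hzW hxW).1 h).trans hxy))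
      have h2 : germ z ≠ germ x' := fun h =>
        hzy (Or.inr (((hgerm z x' hzW hxW').1 h).trans hxy'))
      have h3 := hR.ht z (Multiset.mem_of_le hle hz)
      rw [hR', RD9_mult x x' z R1 h1 h2] at h3
      exact h3
  · rw [hR', Multiset.card_cons, Multiset.card_cons]
  · -- representatives of `y` and `-y` in `R1`
    have hc1 : 0 < cnt y (R1.map (uu (p ^ a) ι)) := by
      rw [hR', Multiset.map_cons, Multiset.map_cons, hxy, hxy', RD9_cnt_self,
        RD9_cnt_ne y (-y) _ hyn] at hcnt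
      omega
    obtain ⟨z, hz, hzy⟩ := Multiset.mem_map.1 (RD9_cnt_pos y _ hc1)
    obtain ⟨z', hz', hzy'⟩ := hst R1 (hstab c) hW1 z hz
    rw [hzy] at hzy'
    intro t ht
    have htW := hR.weil t ht
    rw [hR', Multiset.mem_cons, Multiset.mem_cons] at ht
    rcases ht with h | h | h
    · subst h
      exact ⟨z, hz, (hD.sim _ _ htW (hW1 z hz)).2 (by rw [hxy, hzy])⟩
    · subst h
      exact ⟨z', hz', (hD.sim _ _ htW (hW1 z' hz')).2 (by rw [hxy', hzy'])⟩
    · exact ⟨t, h, (hD.sim _ _ htW htW).2 rfl⟩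

end Pool.T4
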