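import Pool.Agent.Work.MP_223b32_t4.Interface9

/-!
# RE9: totally real fields of degree `1`, `2`, `4` with one place over `p`
-/

namespace Pool.T4

open Polynomial

/-- An Eisenstein polynomial is irreducible over the fraction field. -/
theorem RE9_irred {R K : Type*} [CommRing R] [IsDomain R] [IsIntegrallyClosed R] [Field K]
    [Algebra R K] [IsFractionRing R K] (p : R) (hp : Prime p) (f : R[X]) (hmon : f.Monic)
    (hdeg : 0 < f.natDegree) (hc : ∀ n < f.natDegree, p ∣ f.coeff n) (h0 : f.coeff 0 = p ∨ f.coeff 0 = -p) :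
    Irreducible (f.map (algebraMap R K)) := by
  have hprime : (Ideal.span {p} : Ideal R).IsPrime :=
    (Ideal.span_singleton_prime hp.ne_zero).2 hp
  have hE : f.IsEisensteinAt (Ideal.span {p}) := by
    constructor
    · rw [hmon.leadingCoeff]
      exact fun h => hprime.ne_top ((Ideal.eq_top_iff_one _).2 h)
    · intro n hn
      rw [Ideal.mem_span_singleton]
      exact hc n hn
    · rw [Ideal.span_singleton_pow, Ideal.mem_span_singleton]
      have h1 : p ^ 2 ∣ f.coeff 0 → p ^ 2 ∣ p := by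
        intro h
        rcases h0 with h0 | h0
        · rwa [h0] at h
        · rw [h0] at h
          exact (dvd_neg).1 h
      intro h
      obtain ⟨c, hc⟩ := h1 h
      apply hp.not_isUnit
      refine IsUnit.of_mul_eq_one c ?_
      apply mul_left_cancel₀ hp.ne_zero
      calc p * (p * c) = p ^ 2 * c := by ring
        _ = p * 1 := by rw [← hc, mul_one]
  have hirr : Irreducible f := hE.irreducible hprime hmon.isPrimitive hdeg
  exact (Polynomial.Monic.irreducible_iff_irreducible_map_fraction_map (K := K) hmon).1 hirr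

theorem RE9_hom {A B : Type*} [CommRing A] [CommRing B] (g : A →+* B) (f : ℤ[X]) (x : A)
    (h : eval₂ (Int.castRingHom A) x f = 0) : eval₂ (Int.castRingHom B) (g x) f = 0 := by
  have h1 := congrArg g h
  rw [hom_eval₂, map_zero] at h1
  have h2 : g.comp (Int.castRingHom A) = Int.castRingHom B := RingHom.ext_int _ _
  rwa [h2] at h1

theorem RE9_gen (hR : Stmt_RST) (p : ℕ) [hpf : Fact p.Prime] (ι : Qb →+* PadicAlgCl p) (f : ℤ[X])
    (hmon : f.Monic) (hdeg : 0 < f.natDegree) (hc : ∀ n < f.natDegree, (p : ℤ) ∣ f.coeff n)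
    (h0 : f.coeff 0 = p ∨ f.coeff 0 = -p)
    (hreal : ∀ z : ℂ, eval₂ (Int.castRingHom ℂ) z f = 0 → starRingEnd ℂ z = z) :
    ∃ T : Finset Qb, T.card = f.natDegree ∧
    (∀ g : GQ, ∀ t ∈ T, g t ∈ T) ∧ (∀ t ∈ T, ∀ t' ∈ T, ∃ d ∈ dec ι, d t = t') ∧
    ∀ (ρ : Qb →+* ℂ) (c : GQ), IsConj c ρ → ∀ t ∈ T, c t = t := by
  classical
  have hp : p.Prime := hpf.out
  have hpZ : Prime ((p : ℤ)) := Nat.prime_iff_prime_int.1 hp
  set fQ : ℚ[X] := f.map (algebraMap ℤ ℚ) with hfQ
  have hirr : Irreducible fQ := RE9_irred (K := ℚ) (p : ℤ) hpZ f hmon hdeg hc h0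
  have hmonQ : fQ.Monic := hmon.map _
  have hdegQ : fQ.natDegree = f.natDegree := hmon.natDegree_map _
  -- the local polynomial
  set fZ : ℤ_[p][X] := f.map (Int.castRingHom ℤ_[p]) with hfZ
  have hmonZ : fZ.Monic := hmon.map _
  have hdegZ : fZ.natDegree = f.natDegree := hmon.natDegree_map _
  set fL : ℚ_[p][X] := fZ.map (algebraMap ℤ_[p] ℚ_[p]) with hfL
  have hirrL : Irreducible fL := by
    refine RE9_irred (K := ℚ_[p]) (p : ℤ_[p]) PadicInt.prime_p fZ hmonZ (by rw [hdegZ]; exact hdeg) ?_ ?_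
    · intro n hn
      rw [hdegZ] at hn
      rw [hfZ, coeff_map]
      have h := (Int.castRingHom ℤ_[p]).map_dvd (hc n hn)
      simpa using h
    · rw [hfZ, coeff_map]
      rcases h0 with h0 | h0
      · left
        rw [h0]
        simp
      · right
        rw [h0]
        simp
  have hmonL : fL.Monic := hmonZ.map _
  have hmem : ∀ x : Qb, x ∈ fQ.rootSet Qb ↔ eval₂ (Int.castRingHom Qb) x f = 0 := by
    intro x
    rw [mem_rootSet]
    have h1 : (aeval x) fQ = eval₂ (Int.castRingHom Qb) x f := by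
      rw [hfQ, aeval_def, eval₂_map]
      have h2 : (algebraMap ℚ Qb).comp (algebraMap ℤ ℚ) = Int.castRingHom Qb := RingHom.ext_int _ _
      rw [h2]
    rw [h1]
    exact ⟨fun h => h.2, fun h => ⟨hmonQ.ne_zero, h⟩⟩
  refine ⟨(fQ.rootSet Qb).toFinset, ?_, ?_, ?_, ?_⟩
  · rw [Set.toFinset_card]
    rw [card_rootSet_eq_natDegree hirr.separable (IsAlgClosed.splits _), hdegQ]
  · intro g t ht
    rw [Set.mem_toFinset, hmem] at ht ⊢
    exact RE9_hom (g : Qb →+* Qb) f t ht
  · intro t ht t' ht'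
    rw [Set.mem_toFinset, hmem] at ht ht'
    have hroot : ∀ y : PadicAlgCl p, eval₂ (Int.castRingHom (PadicAlgCl p)) y f = 0 → minpoly ℚ_[p] y = fL := by
      intro y hy
      refine (minpoly.eq_of_irreducible_of_monic hirrL ?_ hmonL).symm
      rw [hfL, hfZ, aeval_def, eval₂_map, eval₂_map]
      have h2 : ((algebraMap ℚ_[p] (PadicAlgCl p)).comp (algebraMap ℤ_[p] ℚ_[p])).comp (Int.castRingHom ℤ_[p]) =
        Int.castRingHom (PadicAlgCl p) := RingHom.ext_int _ _
      rw [h2]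
      exact hy
    have h1 := RE9_hom ι f t ht
    have h2 := RE9_hom ι f t' ht'
    have h3 : IsConjRoot ℚ_[p] (ι t') (ι t) := by
      rw [isConjRoot_def, hroot _ h1, hroot _ h2]
    obtain ⟨σ, hσ⟩ := (isConjRoot_iff_exists_algEquiv).1 h3
    obtain ⟨g, hg, hgσ⟩ := hR p ι σ
    refine ⟨g, hg, ι.injective ?_⟩
    rw [hgσ, hσ]
  · intro ρ c hc t ht
    rw [Set.mem_toFinset, hmem] at ht
    apply ρ.injective
    rw [hc]
    apply hreal
    exact RE9_hom ρ f t ht

theorem RE9_sq (z : ℂ) (r : ℝ) (hr : 0 ≤ r) (h : z ^ 2 = r) : starRingEnd ℂ z = z := by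
  have h1 : ((Real.sqrt r : ℝ) : ℂ) ^ 2 = (r : ℂ) := by
    have h := Real.sq_sqrt hr
    exact_mod_cast h
  rcases sq_eq_sq_iff_eq_or_eq_neg.1 (h.trans h1.symm) with h2 | h2
  · rw [h2]
    exact Complex.conj_ofReal _
  · rw [h2, map_neg, Complex.conj_ofReal]

theorem RE9_two {R : Type*} [CommRing R] [Nontrivial R] (b : R) :
    (C b : R[X]).degree < (2 : ℕ) :=
  lt_of_le_of_lt degree_C_le (by norm_num)

theorem RE9_four {R : Type*} [CommRing R] [Nontrivial R] (a b : R) :
    (C a * X ^ 2 + C b : R[X]).degree < (4 : ℕ) := by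
  refine lt_of_le_of_lt (degree_add_le _ _) (max_lt ?_ ?_)
  · exact lt_of_le_of_lt (degree_C_mul_X_pow_le 2 a) (by norm_num)
  · exact lt_of_le_of_lt degree_C_le (by norm_num)

theorem p_RE9 (hR : Stmt_RST) : Stmt_RE9 := by
  intro p hpf ι m hm
  have hp : p.Prime := hpf.out
  rcases hm with rfl | rfl | rfl
  · refine ⟨{0}, Finset.card_singleton _, ?_, ?_, ?_⟩
    · intro g t ht
      rw [Finset.mem_singleton] at ht ⊢
      rw [ht, map_zero]
    · intro t ht t' ht'
      rw [Finset.mem_singleton] at ht ht'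
      exact ⟨1, (dec ι).one_mem, by rw [ht, ht', map_zero]⟩
    · intro ρ c _ t ht
      rw [Finset.mem_singleton] at ht
      rw [ht, map_zero]
  · have hmon : (X ^ 2 + C (-(p : ℤ)) : ℤ[X]).Monic := monic_X_pow_add (RE9_two _)
    have hdeg : (X ^ 2 + C (-(p : ℤ)) : ℤ[X]).natDegree = 2 := by compute_degree!
    have h := RE9_gen hR p ι (X ^ 2 + C (-(p : ℤ))) hmon (by rw [hdeg]; norm_num) ?_ ?_ ?_
    · rwa [hdeg] at h
    · intro n hn
      rw [hdeg] at hn
      interval_cases n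
      · simp
      · simp [coeff_C]
    · right
      simp
    · intro z hz
      apply RE9_sq z p (by positivity)
      simp only [eval₂_add, eval₂_pow, eval₂_X, eval₂_C] at hz
      push_cast at hz ⊢
      simp only [Int.coe_castRingHom] at hz
      push_cast at hz
      linear_combination hz
  · have hmon : (X ^ 4 + (C (-(4 * (p : ℤ))) * X ^ 2 + C (p : ℤ)) : ℤ[X]).Monic := monic_X_pow_add (RE9_four _ _)
    have hdeg : (X ^ 4 + (C (-(4 * (p : ℤ))) * X ^ 2 + C (p : ℤ)) : ℤ[X]).natDegree = 4 := by compute_degree!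
    have h := RE9_gen hR p ι (X ^ 4 + (C (-(4 * (p : ℤ))) * X ^ 2 + C (p : ℤ))) hmon (by rw [hdeg]; norm_num) ?_ ?_ ?_
    · rwa [hdeg] at h
    · intro n hn
      rw [hdeg] at hn
      have h4 : ∀ k : ℕ, (X ^ 4 + (C (-(4 * (p : ℤ))) * X ^ 2 + C (p : ℤ)) : ℤ[X]).coeff k =
          (if k = 4 then 1 else 0) + (-(4 * (p : ℤ)) * (if k = 2 then 1 else 0) + if k = 0 then (p : ℤ) else 0) := by
        intro k
        rw [coeff_add, coeff_add, coeff_X_pow, coeff_C_mul, coeff_X_pow, coeff_C]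
      rw [h4]
      interval_cases n <;> simp
    · left
      simp
    · intro z hz
      have hP : (2 : ℝ) ≤ (p : ℝ) := by exact_mod_cast hp.two_le
      simp only [eval₂_add, eval₂_mul, eval₂_pow, eval₂_X, eval₂_C, Int.coe_castRingHom] at hz
      push_cast at hz
      have hs0 : (0 : ℝ) ≤ 4 * (p : ℝ) ^ 2 - p := by nlinarith
      have hs : Real.sqrt (4 * (p : ℝ) ^ 2 - p) ^ 2 = 4 * (p : ℝ) ^ 2 - p := Real.sq_sqrt hs0
      have hs1 : Real.sqrt (4 * (p : ℝ) ^ 2 - p) ≤ 2 * p := by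
        rw [Real.sqrt_le_iff]
        constructor
        · positivity
        · nlinarith
      have hs2 : 0 ≤ Real.sqrt (4 * (p : ℝ) ^ 2 - p) := Real.sqrt_nonneg _
      generalize Real.sqrt (4 * (p : ℝ) ^ 2 - p) = s at *
      have hsC : (s : ℂ) ^ 2 = 4 * (p : ℂ) ^ 2 - p := by exact_mod_cast hs
      have h1 : (z ^ 2 - ((2 * p + s : ℝ) : ℂ)) * (z ^ 2 - ((2 * p - s : ℝ) : ℂ)) = 0 := by
        push_cast
        linear_combination hz - hsC
      rcases mul_eq_zero.1 h1 with h | h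
      · exact RE9_sq z _ (by linarith) (sub_eq_zero.1 h)
      · exact RE9_sq z _ (by linarith) (sub_eq_zero.1 h)

end Pool.T4
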