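import Pool.Agent.Work.MP_223b32_t4.InterfaceW
import Pool.Agent.Work.MP_223b32_t4.RNP

/-!
# RNW: removal of pairs
-/

namespace Pool.T4

theorem p_RNW : Stmt_RNW := by
  intro p _ a ι ha hD S
  induction' hn : S.card using Nat.strong_induction_on with n ih generalizing S
  intro hS
  by_cases hNP : NoPair (S.map (uu (p ^ a) ι))
  · exact ⟨S, le_rfl, hNP, rfl, by rw [hn], fun h => h⟩
  · unfold NoPair at hNP
    push Not at hNP
    obtain ⟨u, v, huv, h0⟩ := hNP
    obtain ⟨x, y, S', hSS, hx, hy⟩ := RNP_pre (uu (p ^ a) ι) S u v huv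
    have hxS : x ∈ S := by rw [hSS]; simp
    have hyS : y ∈ S := by rw [hSS]; simp
    have hS' : ∀ z ∈ S', Weil (p ^ a) z := fun z hz => hS z (by rw [hSS]; simp [hz])
    have hcard : S.card = S'.card + 2 := by rw [hSS]; simp
    obtain ⟨J, hJ, hJN, hJs, hJc, hJC⟩ := ih S'.card (by omega) S' rfl hS'
    have hsum : ((({x, y} : Multiset Qb)).map (uu (p ^ a) ι)).sum = 0 := by
      simp [hx, hy, h0]
    have hpair : Sim (x * y) ((p ^ a : ℕ) : Qb) := by
      have hW : ∀ z ∈ ({x, y} : Multiset Qb), Weil (p ^ a) z := by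
        intro z hz
        simp only [Multiset.insert_eq_cons, Multiset.mem_cons, Multiset.mem_singleton] at hz
        rcases hz with rfl | rfl
        · exact hS _ hxS
        · exact hS _ hyS
      obtain ⟨N, hN, e⟩ := (hD.sum _ hW).1 hsum
      refine ⟨2 * N, by omega, ?_⟩
      have e2 : ((x * y) ^ 2) ^ N = (((p ^ a : ℕ) : Qb) ^ 2) ^ N := by
        simpa using e
      rw [pow_mul, pow_mul, e2]
    refine ⟨J, hJ.trans (by rw [hSS]; exact Multiset.le_add_right _ _), hJN, ?_, ?_, ?_⟩
    · rw [hJs, hSS, Multiset.map_add, Multiset.sum_add, hsum, add_zero]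
    · rw [hJc, ← hn, hcard, Nat.even_add]
      simp
    · intro hC
      rw [hSS]
      exact CycW.join _ _ (hJC hC) (CycW.pair x y (hS x hxS) hpair)

end Pool.T4
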