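import Pool.Agent.Work.MP_223b32_t4.InterfaceV

/-!
# Block SGV (the signature in the nonsplit case without self conjugate orbits), typed by helper76
-/

namespace Pool.T4

open Pool.Agent.Work.MP_223b32_ag

theorem SGV_symm {p : ℕ} [Fact p.Prime] (ι : Qb →+* PadicAlgCl p) {X : Type} [MulAction GQ X]
    {x y : X} (h : y ∈ locOrb ι x) : x ∈ locOrb ι y := by
  obtain ⟨g, hg, rfl⟩ := h
  exact ⟨g⁻¹, (dec ι).inv_mem hg, by rw [inv_smul_smul]⟩

theorem SGV_trans {p : ℕ} [Fact p.Prime] (ι : Qb →+* PadicAlgCl p) {X : Type} [MulAction GQ X]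
    {x y z : X} (h : y ∈ locOrb ι x) (h' : z ∈ locOrb ι y) : z ∈ locOrb ι x := by
  obtain ⟨g, hg, rfl⟩ := h
  obtain ⟨k, hk, rfl⟩ := h'
  exact ⟨k * g, (dec ι).mul_mem hk hg, by rw [mul_smul]⟩

theorem SGV_eq {p : ℕ} [Fact p.Prime] (ι : Qb →+* PadicAlgCl p) {X : Type} [MulAction GQ X]
    {x y : X} (h : y ∈ locOrb ι x) : locOrb ι y = locOrb ι x := by
  ext z
  exact ⟨fun hz => SGV_trans ι h hz, fun hz => SGV_trans ι (SGV_symm ι h) hz⟩

theorem SGV_self {p : ℕ} [Fact p.Prime] (ι : Qb →+* PadicAlgCl p) {X : Type} [MulAction GQ X]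
    (x : X) : x ∈ locOrb ι x := ⟨1, (dec ι).one_mem, by rw [one_smul]⟩

theorem SGV_card {X : Type} [Fintype X] (S : Set X) [DecidablePred (· ∈ S)] :
    (S.ncard : ℝ) = ∑ y : X, if y ∈ S then (1 : ℝ) else 0 := by
  rw [Finset.sum_boole]
  congr 1
  rw [← Set.ncard_coe_finset]
  congr 1
  ext y
  simp

theorem p_SGV (hHEV : Stmt_HEV) (hTPV : Stmt_TPV) (hHLF : Stmt_HLF) : Stmt_SGV := by
  intro p _ a ι ha hD X _ _ r m C hhalf hr hself hne hprod
  classical
  obtain ⟨hhx, hcc, hkac, hcs, hrr⟩ := hHLF (p ^ a) X r m C.toCMAlg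
  have hQ : (1 : ℝ) < ((p ^ a : ℕ) : ℝ) := by
    exact_mod_cast Nat.one_lt_pow ha.ne' (Fact.out : p.Prime).one_lt
  set Q : ℝ := ((p ^ a : ℕ) : ℝ) with hQdef
  have hQ0 : (0 : ℝ) < Q := by linarith
  -- slopes
  set s : X → ℝ := fun x => ((C.Phi ∩ locOrb ι x).ncard : ℝ) / ((locOrb ι x).ncard : ℝ) with hs
  have hnpos : ∀ x : X, 0 < (locOrb ι x).ncard := by
    intro x
    rw [Set.ncard_pos (Set.toFinite _)]
    exact ⟨x, SGV_self ι x⟩
  have hpos : ∀ x : X, (0 : ℝ) < ((locOrb ι x).ncard : ℝ) := fun x => by exact_mod_cast hnpos x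
  have hnorm : ∀ x : X, ‖ι (C.al x)‖ = Q ^ (-s x) := by
    intro x
    have h1 := C.st x
    have h2 : (Q ^ (-s x)) ^ (locOrb ι x).ncard = ‖ι (C.al x)‖ ^ (locOrb ι x).ncard := by
      have h3 : ‖ι (C.al x)‖ ^ (locOrb ι x).ncard =
          (Q ^ (C.Phi ∩ locOrb ι x).ncard)⁻¹ := eq_inv_of_mul_eq_one_left h1
      rw [h3, ← Real.rpow_natCast, ← Real.rpow_mul hQ0.le, ← Real.rpow_natCast, ← Real.rpow_neg hQ0.le]
      congr 1
      have h4 : s x * ((locOrb ι x).ncard : ℝ) = ((C.Phi ∩ locOrb ι x).ncard : ℝ) := by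
        simp only [hs]
        exact div_mul_cancel₀ _ (hpos x).ne'
      linarith
    exact (pow_left_inj₀ (norm_nonneg _) (Real.rpow_nonneg hQ0.le _) (hnpos x).ne').1 h2.symm
  have hur : ∀ x : X, ur (p ^ a) ι (C.al x) 1 = 2 * s x - 1 := by
    intro x
    unfold ur
    rw [AlgEquiv.one_apply, hnorm x, ← hQdef, Real.logb_rpow hQ0 hQ.ne']
    ring
  have hsd : ∀ d ∈ dec ι, ∀ x, s (d • x) = s x := by
    intro d hd x
    simp only [hs]
    rw [SGV_eq ι (x := x) (y := d • x) ⟨d, hd, rfl⟩]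
  have hsc : ∀ x, s (C.c x) = 1 - s x := by
    intro x
    have h1 : locOrb ι (C.c x) = C.c '' locOrb ι x := by
      ext y
      constructor
      · rintro ⟨g, hg, rfl⟩
        exact ⟨g • x, ⟨g, hg, rfl⟩, hcs g x⟩
      · rintro ⟨z, ⟨g, hg, rfl⟩, rfl⟩
        exact ⟨g, hg, hcs g x⟩
    have hinj : Function.Injective C.c := fun u v huv => by
      rw [← hcc u, huv, hcc v]
    have h2 : (locOrb ι (C.c x)).ncard = (locOrb ι x).ncard := by
      rw [h1, Set.ncard_image_of_injective _ hinj]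
    have h3 : C.Phi ∩ locOrb ι (C.c x) = C.c '' (locOrb ι x \ C.Phi) := by
      rw [h1]
      ext y
      constructor
      · rintro ⟨hy, z, hz, rfl⟩
        refine ⟨z, ⟨hz, ?_⟩, rfl⟩
        intro hzP
        exact ((C.type z).1 hzP) hy
      · rintro ⟨z, ⟨hz, hzP⟩, rfl⟩
        refine ⟨?_, z, hz, rfl⟩
        by_contra hc
        exact hzP ((C.type z).2 hc)
    have h4 : (C.Phi ∩ locOrb ι (C.c x)).ncard + (C.Phi ∩ locOrb ι x).ncard =
        (locOrb ι x).ncard := by
      rw [h3, Set.ncard_image_of_injective _ hinj, Set.inter_comm C.Phi]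
      rw [add_comm]
      exact Set.ncard_inter_add_ncard_sdiff_eq_ncard _ _ (Set.toFinite _)
    have h5 : ((C.Phi ∩ locOrb ι (C.c x)).ncard : ℝ) + ((C.Phi ∩ locOrb ι x).ncard : ℝ) =
        ((locOrb ι x).ncard : ℝ) := by exact_mod_cast h4
    have h6 := hpos x
    simp only [hs]
    rw [h2]
    field_simp
    linarith
  obtain ⟨E, hEc, hEd, hEs⟩ := hHEV GQ X (dec ι) C.c s hcc
    (fun d _ x => hcs d x) hself hsd
  have hEd' : ∀ x y, y ∈ locOrb ι x → x ∈ E → y ∈ E := by
    rintro x y ⟨d, hd, rfl⟩ hx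
    exact hEd d hd x hx
  have hhalfle : ∀ x ∈ E, s x ≤ 1 / 2 := by
    intro x hx
    have h1 := hEs x hx
    rw [hsc x] at h1
    linarith
  -- reindexing by c
  have hre : ∀ f : X → ℝ, ∑ x : X, f (C.c x) = ∑ x : X, f x := fun f =>
    Equiv.sum_comp (Function.Involutive.toPerm C.c hcc) f
  have hEcard : ∑ x : X, (if x ∈ E then (1 : ℝ) else 0) = 6 := by
    have h1 : ∑ x : X, (if C.c x ∈ E then (1 : ℝ) else 0) = ∑ x : X, (if x ∈ E then (1 : ℝ) else 0) :=
      hre fun x => if x ∈ E then (1 : ℝ) else 0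
    have h2 : ∑ x : X, ((if x ∈ E then (1 : ℝ) else 0) + (if C.c x ∈ E then (1 : ℝ) else 0)) =
        ∑ _x : X, (1 : ℝ) := by
      refine Finset.sum_congr rfl fun x _ => ?_
      by_cases hx : x ∈ E
      · rw [if_pos hx, if_neg ((hEc x).1 hx), add_zero]
      · have h3 : C.c x ∈ E := by
          by_contra h4
          exact hx ((hEc x).2 h4)
        rw [if_neg hx, if_pos h3, zero_add]
    rw [Finset.sum_add_distrib, h1] at h2
    have h3 : ∑ _x : X, (1 : ℝ) = 12 := by
      rw [Finset.sum_const, Finset.card_univ, nsmul_eq_mul, mul_one, ← hhx, hhalf]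
      norm_num
    linarith
  -- the sum of the slopes over E
  have hsum : ((C.Phi ∩ E).ncard : ℝ) = ∑ x : X, (if x ∈ E then s x else 0) := by
    have h1 : ∀ x : X, (if x ∈ E then s x else 0) =
        ∑ y : X, if (x ∈ E ∧ y ∈ C.Phi ∩ locOrb ι x) then 1 / ((locOrb ι x).ncard : ℝ) else 0 := by
      intro x
      by_cases hx : x ∈ E
      · rw [if_pos hx]
        simp only [hs]
        rw [SGV_card (C.Phi ∩ locOrb ι x), Finset.sum_div]
        refine Finset.sum_congr rfl fun y _ => ?_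
        by_cases hy : y ∈ C.Phi ∩ locOrb ι x
        · rw [if_pos hy, if_pos ⟨hx, hy⟩]
        · rw [if_neg hy, if_neg (fun h => hy h.2), zero_div]
      · rw [if_neg hx]
        symm
        refine Finset.sum_eq_zero fun y _ => ?_
        rw [if_neg (fun h => hx h.1)]
    rw [Finset.sum_congr rfl fun x _ => h1 x, Finset.sum_comm, SGV_card (C.Phi ∩ E)]
    refine Finset.sum_congr rfl fun y _ => ?_
    by_cases hy : y ∈ C.Phi ∩ E
    · rw [if_pos hy]
      have h2 : ∀ x : X, (if (x ∈ E ∧ y ∈ C.Phi ∩ locOrb ι x) then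
          1 / ((locOrb ι x).ncard : ℝ) else 0) =
          (if x ∈ locOrb ι y then (1 : ℝ) else 0) / ((locOrb ι y).ncard : ℝ) := by
        intro x
        by_cases hxy : x ∈ locOrb ι y
        · rw [if_pos hxy, if_pos ⟨hEd' y x hxy hy.2, hy.1, SGV_symm ι hxy⟩, SGV_eq ι hxy]
        · rw [if_neg hxy, if_neg (fun h => hxy (SGV_symm ι h.2.2)), zero_div]
      rw [Finset.sum_congr rfl fun x _ => h2 x, ← Finset.sum_div, ← SGV_card (locOrb ι y)]
      exact (div_self (hpos y).ne').symm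
    · rw [if_neg hy]
      symm
      refine Finset.sum_eq_zero fun x _ => ?_
      rw [if_neg]
      rintro ⟨h3, h4, h5⟩
      exact hy ⟨h4, hEd' x y h5 h3⟩
  -- at most three
  have hle : ((C.Phi ∩ E).ncard : ℝ) ≤ 3 := by
    rw [hsum]
    calc ∑ x : X, (if x ∈ E then s x else 0) ≤ ∑ x : X, (if x ∈ E then (1 : ℝ) else 0) * (1 / 2) := by
          refine Finset.sum_le_sum fun x _ => ?_
          by_cases hx : x ∈ E
          · rw [if_pos hx, if_pos hx, one_mul]
            exact hhalfle x hx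
          · rw [if_neg hx, if_neg hx, zero_mul]
      _ = 3 := by
          rw [← Finset.sum_mul, hEcard]
          norm_num
  have hne3 : (C.Phi ∩ E).ncard ≠ 3 := by
    intro h3
    have h3' : ((C.Phi ∩ E).ncard : ℝ) = 3 := by
      rw [h3]
      norm_num
    have h4 : ∑ x : X, ((if x ∈ E then (1 : ℝ) else 0) * (1 / 2) - (if x ∈ E then s x else 0)) = 0 := by
      rw [Finset.sum_sub_distrib, ← Finset.sum_mul, hEcard, ← hsum, h3']
      norm_num
    have h5 := (Finset.sum_eq_zero_iff_of_nonneg (fun x _ => by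
      by_cases hx : x ∈ E
      · rw [if_pos hx, if_pos hx, one_mul]
        linarith [hhalfle x hx]
      · rw [if_neg hx, if_neg hx, zero_mul, sub_zero])).1 h4
    have h6 : ∀ x ∈ E, s x = 1 / 2 := by
      intro x hx
      have h7 := h5 x (Finset.mem_univ x)
      rw [if_pos hx, if_pos hx, one_mul] at h7
      linarith
    obtain ⟨x, hx⟩ := hne
    apply hx
    rw [hur x]
    by_cases hxE : x ∈ E
    · rw [h6 x hxE]
      norm_num
    · have h7 : C.c x ∈ E := by
        by_contra h8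
        exact hxE ((hEc x).2 h8)
      have h8 := h6 _ h7
      rw [hsc x] at h8
      linarith
  -- the product
  have hw : ∀ x : X, max ‖ι (C.al x)‖ (Q * ‖ι (C.al x)‖)⁻¹ =
      Q ^ (-((if x ∈ E then s x else 0) + (if C.c x ∈ E then s (C.c x) else 0))) := by
    intro x
    have h1 : (Q * Q ^ (-s x))⁻¹ = Q ^ (s x - 1) := by
      have h2 : Q * Q ^ (-s x) = Q ^ (1 - s x) := by
        rw [sub_eq_add_neg, Real.rpow_add hQ0, Real.rpow_one]
      rw [h2, ← Real.rpow_neg hQ0.le]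
      congr 1
      ring
    rw [hnorm x, h1]
    by_cases hx : x ∈ E
    · have h3 := hhalfle x hx
      rw [if_pos hx, if_neg ((hEc x).1 hx), add_zero]
      apply max_eq_left
      exact Real.rpow_le_rpow_of_exponent_le hQ.le (by linarith)
    · have h2 : C.c x ∈ E := by
        by_contra h4
        exact hx ((hEc x).2 h4)
      have h3 := hhalfle _ h2
      have h4 := hsc x
      rw [if_neg hx, if_pos h2, zero_add]
      have h5 : s x - 1 = -s (C.c x) := by
        rw [h4]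
        ring
      rw [h5]
      apply max_eq_right
      exact Real.rpow_le_rpow_of_exponent_le hQ.le (by linarith)
  have hprod2 : (∏ x, max ‖ι (C.al x)‖ (Q * ‖ι (C.al x)‖)⁻¹) =
      Q ^ (-(2 * ((C.Phi ∩ E).ncard : ℝ))) := by
    rw [Finset.prod_congr rfl fun x _ => hw x, ← Real.rpow_sum_of_pos hQ0]
    congr 1
    rw [Finset.sum_neg_distrib, Finset.sum_add_distrib,
      hre (fun x => if x ∈ E then s x else 0), ← hsum]
    ring
  have hne1 : (C.Phi ∩ E).ncard ≠ 1 := by
    intro h1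
    apply hprod
    rw [hprod2, h1, ← Real.rpow_natCast Q 2, ← Real.rpow_add hQ0]
    norm_num
  have hle' : (C.Phi ∩ E).ncard ≤ 3 := by exact_mod_cast hle
  have heven : Even (C.Phi ∩ E).ncard := by
    have h1 : (C.Phi ∩ E).ncard = 0 ∨ (C.Phi ∩ E).ncard = 2 := by omega
    rcases h1 with h1 | h1
    · rw [h1]
      exact ⟨0, rfl⟩
    · rw [h1]
      exact ⟨1, rfl⟩
  -- the half
  have hr0 : r ≠ 0 := by
    intro h0
    have h1 := C.r_sq
    rw [h0] at h1
    have h2 : (m : Qb) = 0 := by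
      have : (0 : Qb) ^ 2 = 0 := by norm_num
      rw [this] at h1
      exact neg_eq_zero.1 h1.symm
    have h3 : m = 0 := by exact_mod_cast h2
    have h4 := C.m_pos
    rw [h3] at h4
    exact lt_irrefl _ h4
  have hrn : -r ≠ r := by
    intro h1
    have h2 : (2 : Qb) * r = 0 := by linear_combination -h1
    rcases mul_eq_zero.1 h2 with h3 | h3
    · exact two_ne_zero h3
    · exact hr0 h3
  have hmem : ∀ x : X, x ∈ (C.half : Set X) ↔ C.ka x = r := by
    intro x
    unfold CMAlg.half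
    simp
  have hHc : ∀ x, x ∈ (C.half : Set X) ↔ C.c x ∉ (C.half : Set X) := by
    intro x
    rw [hmem, hmem, hkac x]
    rcases C.ka_eq x with h1 | h1
    · rw [h1]
      exact ⟨fun _ => hrn, fun _ => rfl⟩
    · rw [h1, neg_neg]
      exact ⟨fun h => absurd h hrn, fun h => absurd rfl h⟩
  have hHd : ∃ d ∈ dec ι, ∀ x, x ∈ (C.half : Set X) ↔ d • x ∉ (C.half : Set X) := by
    obtain ⟨d, hd, hdr⟩ := hr
    refine ⟨d, hd, fun x => ?_⟩
    have h1 : d r = -r := (hrr d).resolve_left hdr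
    rw [hmem, hmem, C.ka_smul]
    rcases C.ka_eq x with h2 | h2
    · rw [h2, h1]
      exact ⟨fun _ => hrn, fun _ => rfl⟩
    · rw [h2, map_neg, h1, neg_neg]
      exact ⟨fun h => absurd h hrn, fun h => absurd rfl h⟩
  have hHcard : (C.half : Set X).ncard = 6 := by
    rw [Set.ncard_coe_finset]
    exact hhalf
  exact (hTPV GQ X (dec ι) C.c (C.half : Set X) C.Phi E hcc hHc hHcard hHd C.type hEc hEd).2 heven

end Pool.T4
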