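import Pool.Agent.Work.MP_223b32_t4.Interface
import Pool.Agent.Work.MP_223b32_ag.Pole

namespace Pool.T4

open Pool.Agent.Work.MP_223b32_ag Module

theorem SPN_roots {V : Type} [AddCommGroup V] [Module ℂ V] [Module.Finite ℂ V]
    {F : Module.End ℂ V} {n : ℕ} (b : Basis (Fin n) ℂ V) (lam : Fin n → ℂ)
    (hb : ∀ i, F (b i) = lam i • b i) :
    F.charpoly.roots = Finset.univ.val.map lam := by
  classical
  have h1 : LinearMap.toMatrix b b F = Matrix.diagonal lam := by
    ext i j
    rw [LinearMap.toMatrix_apply, hb, map_smul, Basis.repr_self, Finsupp.smul_apply,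
      Finsupp.single_apply, smul_eq_mul, Matrix.diagonal_apply]
    by_cases hij : j = i
    · subst hij; simp
    · rw [if_neg hij, if_neg (Ne.symm hij), mul_zero]
  have h2 : F.charpoly = (Finset.univ.val.map fun i => Polynomial.X - Polynomial.C (lam i)).prod := by
    rw [← LinearMap.charpoly_toMatrix F b, h1, Matrix.charpoly_diagonal]
    rfl
  have h3 : (Finset.univ.val.map fun i => Polynomial.X - Polynomial.C (lam i)) =
      (Finset.univ.val.map lam).map fun z => Polynomial.X - Polynomial.C z := by
    rw [Multiset.map_map]; rfl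
  rw [h2, h3, Polynomial.roots_multiset_prod_X_sub_C]

theorem p_SPN : Stmt_SPN := by
  intro p _ a ι ha T hT ρ V _ _ _ F hF hch N j hN
  classical
  have hq : 1 < p ^ a := Nat.one_lt_pow ha.ne' (Fact.out (p := p.Prime)).one_lt
  obtain ⟨b, lam, hb⟩ := exists_eigenbasis hF
  have hb' : ∀ i, F (b i) = lam i • b i := fun i => End.mem_eigenspace_iff.1 (hb i).1
  have hG : ∀ i, (F ^ N) (b i) = lam i ^ N • b i := fun i => (hb i).pow_apply N
  have hinj : Function.Injective ρ := ρ.injective
  have hroots : T.map ρ = Finset.univ.val.map lam := by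
    rw [← SPN_roots b lam hb', hch]
    have h3 : (T.map fun x => Polynomial.X - Polynomial.C (ρ x)) =
        (T.map ρ).map fun z => Polynomial.X - Polynomial.C z := by
      rw [Multiset.map_map]; rfl
    rw [h3, Polynomial.roots_multiset_prod_X_sub_C]
  have hex : ∀ i, ∃ x : Qb, ρ x = lam i := fun i => by
    have h1 : lam i ∈ T.map ρ := by
      rw [hroots]
      exact Multiset.mem_map_of_mem _ (Finset.mem_univ i)
    obtain ⟨x, _, hx⟩ := Multiset.mem_map.1 h1
    exact ⟨x, hx⟩
  choose x hx using hex
  have hTx : Finset.univ.val.map x = T := by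
    apply Multiset.map_injective hinj
    rw [hroots, Multiset.map_map]
    exact Multiset.map_congr rfl fun i _ => hx i
  refine ⟨?_, ?_⟩
  · rw [tateClasses_eq_span (μ := fun i => lam i ^ N) hG, Submodule.span_le]
    rintro _ ⟨⟨s, hs⟩, rfl⟩
    refine Submodule.subset_span ?_
    set e := Set.powersetCard.ofFinEmbEquiv.symm s with he
    refine ⟨fun i => b (e i), fun i => x (e i), fun i => ?_, ?_, rfl⟩
    · rw [hb', hx]
    · have hle : (Finset.univ.val.map fun i => x (e i)) ≤ T := by
        have h1 : (Finset.univ.val.map fun i => x (e i)) =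
            ((Finset.univ : Finset (Fin (2 * j))).map e.toEmbedding).val.map x := by
          rw [Finset.map_val, Multiset.map_map]; rfl
        rw [h1, ← hTx]
        exact Multiset.map_le_map (Finset.val_le_iff.2 (Finset.subset_univ _))
      refine hT _ j hle (by simp) ⟨N, hN, ?_⟩
      apply hinj
      have h2 : eig (fun i => lam i ^ N) s = ρ ((Finset.univ.val.map fun i => x (e i)).prod) ^ N := by
        have h3 : eig (fun i => lam i ^ N) s = ((List.ofFn e).map fun i => lam i ^ N).prod := rfl
        rw [h3, List.map_ofFn, List.prod_ofFn, map_multiset_prod, Multiset.map_map]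
        show ∏ i, (lam (e i)) ^ N = (∏ i, ρ (x (e i))) ^ N
        rw [← Finset.prod_pow]
        exact Finset.prod_congr rfl fun i _ => by rw [hx]
      rw [map_pow, ← h2, hs, map_pow, map_pow, map_natCast, ← pow_mul, ← pow_mul, mul_comm]
  · have h2 := hasPoleOrder (μ := fun i => lam i ^ N) hG (Q := ((p ^ a : ℕ) : ℝ) ^ N)
      (one_lt_pow₀ (by exact_mod_cast hq) hN.ne') j
    rw [Complex.ofReal_pow, Complex.ofReal_natCast] at h2
    exact h2

end Pool.T4
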