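import Pool.Agent.Work.MP_223b32_t4.InterfaceW
import Pool.Agent.Work.MP_223b32_t4.SPN
import Pool.Agent.Work.MP_223b32_ag.Pole

namespace Pool.T4

open Pool.Agent.Work.MP_223b32_ag Module

theorem p_SPW : Stmt_SPW := by
  intro p _ a ι ha T hT ρ V _ _ _ F hF hch N j hN
  classical
  have hq : 1 < p ^ a := Nat.one_lt_pow ha.ne' (Fact.out (p := p.Prime)).one_lt
  obtain ⟨b, lam, hb⟩ := exists_eigenbasis hF
  have hb' : ∀ i, F (b i) = lam i • b i := fun i => End.mem_eigenspace_iff.1 (hb i).1
  have hG : ∀ i, (F ^ N) (b i) = lam i ^ N • b i := fun i => (hb i).pow_apply N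
  have hinj : Function.Injective ρ := ρ.injective
  have hroots : T.map ρ = Finset.univ.val.map lam := by
    rw [← SPN_roots b lam hb', hch]
    have h3 : (T.map fun x => Polynomial.X - Polynomial.C (ρ x)) =
        (T.map ρ).map fun z => Polynomial.X - Polynomial.C z := by
      rw [Multiset.map_map]; rfl
    rw [h3, Polynomial.roots_multiset_prod_X_sub_C]
  have hex : ∀ i, ∃ x : Qb, ρ x = lam i := fun i => by
    have h1 : lam i ∈ T.map ρ := by
      rw [hroots]
      exact Multiset.mem_map_of_mem _ (Finset.mem_univ i)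
    obtain ⟨x, _, hx⟩ := Multiset.mem_map.1 h1
    exact ⟨x, hx⟩
  choose x hx using hex
  have hTx : Finset.univ.val.map x = T := by
    apply Multiset.map_injective hinj
    rw [hroots, Multiset.map_map]
    exact Multiset.map_congr rfl fun i _ => hx i
  refine ⟨?_, ?_⟩
  · rw [tateClasses_eq_span (μ := fun i => lam i ^ N) hG, Submodule.span_le]
    rintro _ ⟨⟨s, hs⟩, rfl⟩
    refine Submodule.subset_span ?_
    set e := Set.powersetCard.ofFinEmbEquiv.symm s with he
    refine ⟨fun i => b (e i), fun i => x (e i), fun i => ?_, ?_, rfl⟩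
    · rw [hb', hx]
    · have hle : (Finset.univ.val.map fun i => x (e i)) ≤ T := by
        have h1 : (Finset.univ.val.map fun i => x (e i)) =
            ((Finset.univ : Finset (Fin (2 * j))).map e.toEmbedding).val.map x := by
          rw [Finset.map_val, Multiset.map_map]; rfl
        rw [h1, ← hTx]
        exact Multiset.map_le_map (Finset.val_le_iff.2 (Finset.subset_univ _))
      refine hT _ j hle (by simp) ⟨N, hN, ?_⟩
      apply hinj
      have h2 : eig (fun i => lam i ^ N) s = ρ ((Finset.univ.val.map fun i => x (e i)).prod) ^ N := by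
        have h3 : eig (fun i => lam i ^ N) s = ((List.ofFn e).map fun i => lam i ^ N).prod := rfl
        rw [h3, List.map_ofFn, List.prod_ofFn, map_multiset_prod, Multiset.map_map]
        show ∏ i, (lam (e i)) ^ N = (∏ i, ρ (x (e i))) ^ N
        rw [← Finset.prod_pow]
        exact Finset.prod_congr rfl fun i _ => by rw [hx]
      rw [map_pow, ← h2, hs, map_pow, map_pow, map_natCast, ← pow_mul, ← pow_mul, mul_comm]
  · have h2 := hasPoleOrder (μ := fun i => lam i ^ N) hG (Q := ((p ^ a : ℕ) : ℝ) ^ N)
      (one_lt_pow₀ (by exact_mod_cast hq) hN.ne') j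
    rw [Complex.ofReal_pow, Complex.ofReal_natCast] at h2
    exact h2

end Pool.T4
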