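import Pool.Agent.Work.MP_223b32_t4.InterfaceV

/-! Block TPV: the parity of the signature. -/

set_option autoImplicit false

namespace Pool.T4

open Pool.Agent.Work.MP_223b32_ag

theorem p_TPV : Stmt_TPV := by
  intro G X _ _ _ D c H Phi E hc hH hH6 hd hPhi hE hDE
  obtain ⟨d, hdD, hd⟩ := hd
  have cinj : Function.Injective c := fun x y h => by rw [← hc x, h, hc y]
  have dinj : Function.Injective (fun x : X => d • x) := MulAction.injective d
  have hcH : ∀ x, x ∉ H ↔ c x ∈ H := fun x => by rw [hH x, not_not]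
  have hcE : ∀ x, x ∉ E ↔ c x ∈ E := fun x => by rw [hE x, not_not]
  have hdH : ∀ x, x ∉ H ↔ d • x ∈ H := fun x => by rw [hd x, not_not]
  -- cardinalities of the halves
  have key : ∀ S : Set X, (∀ x, x ∈ S ↔ c x ∉ S) → 2 * S.ncard = Nat.card X := by
    intro S hS
    have h1 : S.ncard ≤ Sᶜ.ncard := by
      apply Set.ncard_le_ncard_of_injOn c
      · intro x hx
        exact (hS x).mp hx
      · exact cinj.injOn
    have h2 : Sᶜ.ncard ≤ S.ncard := by
      apply Set.ncard_le_ncard_of_injOn c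
      · intro x hx
        by_contra h
        exact hx ((hS x).mpr h)
      · exact cinj.injOn
    have h3 := Set.ncard_add_ncard_compl S
    omega
  have hE6 : E.ncard = 6 := by
    have h1 := key E hE
    have h2 := key H hH
    omega
  have h1 : (E ∩ H).ncard ≤ (E \ H).ncard := by
    apply Set.ncard_le_ncard_of_injOn (fun x => d • x)
    · rintro x ⟨hxE, hxH⟩
      exact ⟨hDE d hdD x hxE, (hd x).mp hxH⟩
    · exact dinj.injOn
  have h2 : (E \ H).ncard ≤ (E ∩ H).ncard := by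
    apply Set.ncard_le_ncard_of_injOn (fun x => d • x)
    · rintro x ⟨hxE, hxH⟩
      exact ⟨hDE d hdD x hxE, (hdH x).mp hxH⟩
    · exact dinj.injOn
  have h3 := Set.ncard_inter_add_ncard_diff_eq_ncard E H
  have h4 := Set.ncard_inter_add_ncard_diff_eq_ncard (Phi ∩ H) E
  have h5 := Set.ncard_inter_add_ncard_diff_eq_ncard (Phi ∩ E) H
  have h6 := Set.ncard_inter_add_ncard_diff_eq_ncard (E \ H) Phi
  have h7 : ((Phi ∩ H) \ E).ncard ≤ ((E \ H) \ Phi).ncard := by
    apply Set.ncard_le_ncard_of_injOn c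
    · rintro x ⟨⟨hxP, hxH⟩, hxE⟩
      exact ⟨⟨(hcE x).mp hxE, (hH x).mp hxH⟩, (hPhi x).mp hxP⟩
    · exact cinj.injOn
  have h8 : ((E \ H) \ Phi).ncard ≤ ((Phi ∩ H) \ E).ncard := by
    apply Set.ncard_le_ncard_of_injOn c
    · rintro x ⟨⟨hxE, hxH⟩, hxP⟩
      refine ⟨⟨?_, (hcH x).mp hxH⟩, (hE x).mp hxE⟩
      by_contra h
      exact hxP ((hPhi x).mpr h)
    · exact cinj.injOn
  have e1 : (Phi ∩ H) ∩ E = (Phi ∩ E) ∩ H := Set.inter_right_comm Phi H E
  have e2 : (E \ H) ∩ Phi = (Phi ∩ E) \ H := by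
    ext x
    constructor
    · rintro ⟨⟨a, b⟩, c⟩
      exact ⟨⟨c, a⟩, b⟩
    · rintro ⟨⟨a, b⟩, c⟩
      exact ⟨⟨b, c⟩, a⟩
  rw [e1] at h4
  rw [e2] at h6
  rw [Nat.odd_iff, Nat.even_iff]
  omega

end Pool.T4
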