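import Pool.Agent.Work.MP_223b32_t4.Interface5

/-! # Block XP5 (helper71) -/

set_option autoImplicit false

namespace Pool.T4

theorem XP5_ext {G U : Type} [Group G] [AddCommGroup U] [Module ℚ U] [DistribMulAction G U]
    (K : Core G U) : ∀ (n : ℕ) (B : Finset U), B.card = n → B.Nonempty →
    ∃ v ∈ B, ∀ a ∈ B, ∀ b ∈ B, a + b = v + v → a = v ∧ b = v := by
  classical
  intro n
  induction n using Nat.strong_induction_on with
  | _ n ih =>
    intro B hn hB
    by_cases h : ∃ s ∈ B, ∃ t ∈ B, s ≠ t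
    · obtain ⟨s, hs, t, ht, hst⟩ := h
      have hg : ∃ g : G, K.w (g • (s - t)) ≠ 0 := by
        by_contra hcon
        push Not at hcon
        exact hst (sub_eq_zero.1 (K.kron _ hcon))
      obtain ⟨g, hg⟩ := hg
      obtain ⟨m, hm, hmax⟩ := Finset.exists_max_image B (fun v => K.w (g • v)) hB
      set B' : Finset U := B.filter (fun v => K.w (g • v) = K.w (g • m)) with hB'
      have hmB' : m ∈ B' := Finset.mem_filter.2 ⟨hm, rfl⟩
      have hlt : B'.card < n := by
        rw [← hn]
        apply Finset.card_lt_card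
        refine ⟨Finset.filter_subset _ _, ?_⟩
        intro hsub
        have h1 := (Finset.mem_filter.1 (hsub hs)).2
        have h2 := (Finset.mem_filter.1 (hsub ht)).2
        apply hg
        rw [smul_sub, map_sub, h1, h2, sub_self]
      obtain ⟨v, hv, hprop⟩ := ih B'.card hlt B' rfl ⟨m, hmB'⟩
      have hvB : v ∈ B := (Finset.mem_filter.1 hv).1
      have hvm : K.w (g • v) = K.w (g • m) := (Finset.mem_filter.1 hv).2
      refine ⟨v, hvB, ?_⟩
      intro a ha b hb hab
      have h3 : K.w (g • a) + K.w (g • b) = K.w (g • v) + K.w (g • v) := by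
        rw [← map_add, ← map_add, ← smul_add, ← smul_add, hab]
      have h4 : K.w (g • a) ≤ K.w (g • m) := hmax a ha
      have h5 : K.w (g • b) ≤ K.w (g • m) := hmax b hb
      rw [hvm] at h3
      have h6 : K.w (g • a) = K.w (g • m) := by linarith
      have h7 : K.w (g • b) = K.w (g • m) := by linarith
      exact hprop a (Finset.mem_filter.2 ⟨ha, h6⟩) b (Finset.mem_filter.2 ⟨hb, h7⟩) hab
    · push Not at h
      obtain ⟨v, hv⟩ := hB
      refine ⟨v, hv, ?_⟩
      intro a ha b hb _
      exact ⟨h a ha v hv, h b hb v hv⟩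

theorem p_XP5 : Stmt_XP5 := by
  intro G U _ _ _ _ K A hst htr a ha b hb z hz hab
  obtain ⟨v, hv, hprop⟩ := XP5_ext K A.card A rfl ⟨a, ha⟩
  obtain ⟨h, hh⟩ := htr v hv z hz
  have h1 : h⁻¹ • a + h⁻¹ • b = v + v := by
    rw [← smul_add, hab, smul_add, ← hh, inv_smul_smul]
  obtain ⟨h2, h3⟩ := hprop _ (hst h⁻¹ a ha) _ (hst h⁻¹ b hb) h1
  constructor
  · rw [← hh, ← h2, smul_inv_smul]
  · rw [← hh, ← h3, smul_inv_smul]

end Pool.T4
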