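import Pool.Agent.Work.MP_223b32_t4.AssemblyAll
import Pool.Agent.Work.MP_223b32_t4.Interface9
import Pool.Agent.Work.MP_223b32_t4.Interface10
import Pool.Agent.Work.MP_223b32_t4.AL9
import Pool.Agent.Work.MP_223b32_t4.AL10
import Pool.Agent.Work.MP_223b32_t4.BE9
import Pool.Agent.Work.MP_223b32_t4.EQ9
import Pool.Agent.Work.MP_223b32_t4.FN9
import Pool.Agent.Work.MP_223b32_t4.FN10
import Pool.Agent.Work.MP_223b32_t4.CY9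
import Pool.Agent.Work.MP_223b32_t4.GW9
import Pool.Agent.Work.MP_223b32_t4.HS9
import Pool.Agent.Work.MP_223b32_t4.AV9
import Pool.Agent.Work.MP_223b32_t4.DT9
import Pool.Agent.Work.MP_223b32_t4.LL9
import Pool.Agent.Work.MP_223b32_t4.MT9
import Pool.Agent.Work.MP_223b32_t4.OF9
import Pool.Agent.Work.MP_223b32_t4.PR9
import Pool.Agent.Work.MP_223b32_t4.RA9
import Pool.Agent.Work.MP_223b32_t4.RD9
import Pool.Agent.Work.MP_223b32_t4.XM9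
import Pool.Agent.Work.MP_223b32_t4.MKW
import Pool.Agent.Work.MP_223b32_t4.RNW
import Pool.Agent.Work.MP_223b32_t4.CSW
import Pool.Agent.Work.MP_223b32_t4.MOW
import Pool.Agent.Work.MP_223b32_t4.PRW
import Pool.Agent.Work.MP_223b32_t4.SPW
import Pool.Agent.Work.MP_223b32_t4.InterfaceV
import Pool.Agent.Work.MP_223b32_t4.CYV
import Pool.Agent.Work.MP_223b32_t4.FNV
import Pool.Agent.Work.MP_223b32_t4.PHV
import Pool.Agent.Work.MP_223b32_t4.HEV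
import Pool.Agent.Work.MP_223b32_t4.HFV
import Pool.Agent.Work.MP_223b32_t4.TPV
import Pool.Agent.Work.MP_223b32_t4.PHW
import Pool.Agent.Work.MP_223b32_t4.DefsFin
import Pool.Agent.Work.MP_223b32_t4.FIN
import Pool.Agent.Work.MP_223b32_t4.XP5
import Pool.Agent.Work.MP_223b32_t4.EV9
import Pool.Agent.Work.MP_223b32_t4.OD10
import Pool.Agent.Work.MP_223b32_t4.LIV
import Pool.Agent.Work.MP_223b32_t4.ARV
import Pool.Agent.Work.MP_223b32_t4.MXV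
import Pool.Agent.Work.MP_223b32_t4.SGV
import Pool.Agent.Work.MP_223b32_t4.RE9
import Pool.Agent.Work.MP_223b32_t4.PY9
import Pool.Agent.Work.MP_223b32_t4.EQV

/-! # Assembly of the final theorem -/

namespace Pool.T4

open Pool.Agent.Work.MP_223b32_ag

/-- All blocks. -/
theorem blocks11 :
    Stmt_FN4 ∧ Stmt_FN8 ∧ Stmt_F55 ∧ Stmt_FN9 ∧ Stmt_FN10 ∧ Stmt_FNV ∧ Stmt_PRW := by
  have hCCJ := p_CCJ
  have hRHO := p_RHO
  have hLIN := p_LIN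
  have hHLF := p_HLF hCCJ hRHO
  have hTNS := p_TNS hHLF
  have hTSP := p_TSP
  have hBLD := p_BLD p_PHI hHLF hCCJ hRHO
  have hMKX := p_MKX (p_MKA p_SGN) hBLD hHLF hTSP hTNS
  have hCYD := p_CYD hMKX p_GLU p_PMN
  have hRTX := p_RTX hCCJ hRHO
  have hCYM := p_CYM (p_EIS p_RST) hRTX p_GLU
  have hDIC := p_DIC (p_UME hCCJ hRHO) (p_SUM p_KRO hRHO) hCCJ hRHO
  have hRQU := p_RQU (p_QUD hCCJ hRHO)
  have h1 := p_FN1 p_CAR p_SGN p_MUL hCYD hCYM hRQU p_RNP p_HTC hDIC hCCJ hRHO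
  have hRK1 := p_RK1 (p_FR3 hLIN) p_PLA (p_ORB hLIN) p_SQU
  have hEQC := p_EQC hRK1
  have hLNT := p_LNT p_LNE
  have hLN2 := p_LN2 hLNT p_IND
  have hOF4 := p_OF4 p_LNE hLIN
  have hOX4 := p_OX4 hLNT p_IND hOF4
  have hOX6 := p_OX6 (p_OF6 hRK1) p_LNE
  have hEQG := p_EQG p_OFS hEQC hLN2 hOX4 hOX6 p_LNE
  have hEQ6 := p_EQ6 hEQG (p_TW4 p_OFS hOF4)
  have h2 := p_FN2 h1 (p_VOR p_HTC) hEQC p_THR p_RNP p_CYS hDIC hCCJ hRHO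
  have h4 := p_FN4 h1 hEQ6 p_SAV p_THR p_RNP p_CYS p_HTC hDIC hCCJ hRHO p_EX4
  have h5 := p_F55 h1 hDIC p_HTC p_RNP hCCJ hRHO (Pool.T5.p_P55 p_CA5) p_LF5 p_EX5
  have hCY7 := p_CY7 (p_MX7 p_MK7 hBLD hHLF hTSP p_PH7) p_PMN p_GLU hRQU
  have h7 := p_FN7 p_EQ7 hCY7 p_RNP p_CYS p_HTC hDIC hCCJ hRHO
  have h8 := p_FN8 h7 h2 p_SAV p_RNP p_HTC hDIC hCCJ hRHO
  have hDT9 := p_DT9 p_LNE
  have hRD9 := p_RD9 p_LNE
  have hCY9 := p_CY9 p_LNE hDT9 (p_RE9 p_RST) p_MT9 hBLD hHLF hTSP hRTX p_GLU hRQU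
  have hGW9 := p_GW9 p_AV9 p_OF9 p_HS9 p_LL9 p_LNE hOF4
  have hEQ9 := p_EQ9 p_OF9 p_LNE hOF4 (p_RA9 hOF4) hGW9 (p_XM9 p_LNE p_LL9) p_LL9
  have hBE9 := p_BE9 (p_PY9 p_AV9) hDT9 p_SAV h4 hCY9 p_EV9
  have h9 := p_FN9 hRHO hCCJ hDIC p_RNP p_HTC p_SAV p_PR9 h4 hRD9 h8 hEQ9
    (p_AL9 p_SAV p_PR9 p_HTC h4) hBE9
  have h10 := p_FN10 hRHO hCCJ hDIC p_RNP p_HTC p_SAV p_PR9 h4 hRD9 h8 hEQ9
    (p_AL10 p_SAV p_PR9 p_HTC h4) hBE9 (p_OD10 hDT9 hEQC)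
  have hMXV := p_MXV p_MKW hBLD hHLF hTSP p_PHW (p_SGV p_HEV p_TPV hHLF) p_PHV
  have hCYV := p_CYV hMXV hRQU
  have hV := p_FNV p_EQV p_HFV p_LIV p_ARV hCYV p_RNW p_CSW p_HTC hDIC hCCJ hRHO
  exact ⟨h4, h8, h5, h9, h10, hV, p_PRW hDIC⟩

/-- Isotypic abelian varieties of dimension at most five (for instance the simple ones) are
`Factor2`. -/
theorem factor2_of_isotypic (p : ℕ) [Fact p.Prime] (a : ℕ) (ι : Qb →+* PadicAlgCl p) (ha : 0 < a)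
    (R : Multiset Qb) (hR : IsAV (p ^ a) ι R) (hc : R.card ≤ 10) (hI : Isotypic (p ^ a) R) :
    Factor2 (p ^ a) ι R := by
  have hCCJ := p_CCJ
  have hRHO := p_RHO
  have hDIC := p_DIC (p_UME hCCJ hRHO) (p_SUM p_KRO hRHO) hCCJ hRHO
  exact Or.inl ⟨⟨hR, hc, FIN_iso_exc hRHO hCCJ hDIC p_HTC p_XP5 p a ι ha R hR hI⟩,
    Or.inr (FIN_iso_tri hRHO hCCJ hDIC p a ι ha R hR hI)⟩

/-- The final theorem. -/
theorem main11 (p : ℕ) [Fact p.Prime] (a : ℕ) (ι : Qb →+* PadicAlgCl p) (ha : 0 < a)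
    (T : Multiset Qb) (hT : Covered (p ^ a) ι T) :
    TateW (p ^ a) ι T ∧
      ∀ (ρ : Qb →+* ℂ) (V : Type) [AddCommGroup V] [Module ℂ V] [Module.Finite ℂ V]
      (F : Module.End ℂ V), F.IsSemisimple →
      F.charpoly = (T.map fun x => Polynomial.X - Polynomial.C (ρ x)).prod →
      ∀ N j : ℕ, 0 < N →
        tateClasses (F ^ N) (((p ^ a : ℕ) : ℂ) ^ N) j ≤ algClassesW (p ^ a) ι ρ F j ∧
        HasPoleOrder (Lfun (F ^ N) (((p ^ a : ℕ) : ℝ) ^ N) j) j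
          (Module.finrank ℂ (tateClasses (F ^ N) (((p ^ a : ℕ) : ℂ) ^ N) j)) := by
  obtain ⟨h4, -, h5, h9, h10, hV, hPR⟩ := blocks11
  have hCCJ := p_CCJ
  have hRHO := p_RHO
  have hDIC := p_DIC (p_UME hCCJ hRHO) (p_SUM p_KRO hRHO) hCCJ hRHO
  have hM := (p_MOW p (p ^ a) ι).2
  have hF : ∀ R, Factor2 (p ^ a) ι R →
      IsAV (p ^ a) ι R ∧ ∀ T, PowOf (p ^ a) R T → TateW (p ^ a) ι T := by
    intro R hR
    rcases hR with ⟨h1, h⟩ | ⟨h1, h2⟩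
    · exact ⟨h1.1, fun T hT => hM T
        (FIN_factor hRHO hCCJ hDIC p_HTC p_SAV p_PR9 h4 h10 p a ι ha R T h1 h hT)⟩
    · exact ⟨h1, fun T hT => hV p a ι ha R T h1 h2 hT⟩
  have h : TateW (p ^ a) ι T := by
    rcases hT with ⟨g1, g2, g3⟩ | ⟨R, g1, g4⟩ | ⟨n, R, g1, g2, g3⟩
    · exact hM T (FIN_self hRHO hCCJ hDIC p_HTC p_SAV p_PR9 h4 h5 p a ι ha T g1 g2 g3)
    · exact hM T (FIN_five hRHO hCCJ hDIC p_HTC p_SAV p_PR9 h4 h9 p a ι ha R T g1 g4)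
    · rcases g2 with rfl | g2
      · refine (hF (R 0) (g1 0)).2 T ?_
        have h2 : ∑ i, R i = R 0 := by simp
        rwa [h2] at g3
      · exact hPR p a ι ha n R (fun i => (hF _ (g1 i)).1) (fun i => (hF _ (g1 i)).2) g2 T g3
  exact ⟨h, fun ρ V _ _ _ F hF hch N j hN => p_SPW p a ι ha T h ρ V F hF hch N j hN⟩

end Pool.T4
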