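import Pool.Agent.Work.MP_223b32_t4.DefsU

/-!
# Abelian varieties of dimension six of angle rank five with an exceptional class
-/

namespace Pool.T4

open Pool.Agent.Work.MP_223b32_ag

variable {p : ℕ} [Fact p.Prime]

/-- The Weil numbers of an abelian variety (not necessarily simple) of dimension six with twelve
different germs and of angle rank five, with an exceptional class of degree six: `J` has no opposite
elements and `∏ J = q ^ 3` up to a root of unity; and one of the conditions of `SixOK` holds. -/
def SixJ (q : ℕ) (ι : Qb →+* PadicAlgCl p) (R : Multiset Qb) : Prop :=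
  R.card = 12 ∧ (R.map germ).Nodup ∧ SubRank q R ∧
    (∃ J ≤ R, J.card = 6 ∧ Sim J.prod ((q : Qb) ^ 3) ∧ ∀ x ∈ J, ∀ y ∈ J, ¬ Sim (x * y) q) ∧
    (KSplit ι R ∨ SelfConj q ι R ∨ ¬ MidOne q ι R)

end Pool.T4
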