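import Pool.Agent.Work.MP_223b32_t4.DefsFin
import Pool.Agent.Work.MP_223b32_t4.DefsJ

/-! # The abelian varieties of the theorem, version 3 -/

namespace Pool.T4

variable {p : ℕ} [Fact p.Prime]

/-- The abelian varieties whose powers, times supersingular abelian varieties, are considered:
`Factor2` (dimension at most five, not containing `Exc4`, and not `Tri` in dimension five; simple of
dimension six as in `SixOK`), those of maximal angle rank, those of dimension six as in `SixJ`. -/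
def Factor3 (q : ℕ) (ι : Qb →+* PadicAlgCl p) (R : Multiset Qb) : Prop :=
  Factor2 q ι R ∨ (IsAV q ι R ∧ (FullRank q R ∨ SixJ q ι R))

/-- The theorem is about this multiset `T`. -/
def Covered3 (q : ℕ) (ι : Qb →+* PadicAlgCl p) (T : Multiset Qb) : Prop :=
  (IsAV q ι T ∧ T.card ≤ 10 ∧ ¬ (HasExc q T ∧ ∃ x ∈ T, SS q x)) ∨
  (∃ R, Five q ι R ∧ ∀ x ∈ T, ∃ y ∈ R, Sim x y) ∨
  (∃ (n : ℕ) (R : Fin n → Multiset Qb), (∀ i, Factor3 q ι (R i)) ∧ AInd q R ∧
    PowOf q (∑ i, R i) T) ∨
  (IsAV q ι T ∧ Seven q ι T)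

end Pool.T4
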