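import Pool.Agent.Work.MP_223b32_t4.Interface2

/-! # Block EQG: a Tate relation is a multiple of one of degree three or four -/

namespace Pool.T4

section

variable {G U : Type} [Group G] [AddCommGroup U] [Module ℚ U] [DistribMulAction G U]

theorem EQG_cnt [DecidableEq U] (v : U) (J : Multiset U) : cnt v J = J.count v := by
  unfold cnt
  congr

theorem EQG_two {v : U} (h : v = -v) : v = 0 := by
  have h1 : v + v = 0 := by
    nth_rewrite 2 [h]
    exact add_neg_cancel v
  have h2 : (2 : ℚ) • v = 0 := by
    rw [two_smul]; exact h1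
  rcases smul_eq_zero.1 h2 with h3 | h3
  · norm_num at h3
  · exact h3

theorem EQG_mono {S J : Multiset U} (h : J ≤ S) (hS : NoPair S) : NoPair J :=
  fun a b hab => hS a b (hab.trans h)

theorem EQG_line (K : Core G U) {y : U} (hy : y ≠ 0) {V : Finset U}
    (hV : ∀ v, v ∈ V ↔ v ∈ gorb G y) (hc : V.card = 2) : Line G y := by
  classical
  refine ⟨hy, fun g => ?_⟩
  have h1 : y ∈ V := (hV y).2 ⟨1, (one_smul G y).symm⟩
  have h2 : -y ∈ V := (hV (-y)).2 ⟨K.c0, (K.cc y).symm⟩
  have h3 : y ≠ -y := fun h => hy (EQG_two h)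
  have h4 : ({y, -y} : Finset U) = V := by
    apply Finset.eq_of_subset_of_card_le
    · intro a ha
      rw [Finset.mem_insert, Finset.mem_singleton] at ha
      rcases ha with rfl | rfl
      · exact h1
      · exact h2
    · rw [hc, Finset.card_pair h3]
  have h5 : g • y ∈ V := (hV _).2 ⟨g, rfl⟩
  rw [← h4, Finset.mem_insert, Finset.mem_singleton] at h5
  exact h5

theorem EQG_le [DecidableEq U] {R : Multiset U} {V W : Finset U} {m m' : ℕ}
    (hV : ∀ v ∈ V, R.count v = m) (hW : ∀ v ∈ W, R.count v = m') (hd : ∀ v ∈ V, v ∉ W) :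
    m • V.val + m' • W.val ≤ R := by
  rw [Multiset.le_iff_count]
  intro a
  rw [Multiset.count_add, Multiset.count_nsmul, Multiset.count_nsmul]
  by_cases h1 : a ∈ V
  · have h2 : a ∉ W := hd a h1
    rw [Multiset.count_eq_one_of_mem V.nodup h1,
      Multiset.count_eq_zero_of_notMem (fun h => h2 h), hV a h1]
    simp
  · rw [Multiset.count_eq_zero_of_notMem (fun h => h1 h)]
    by_cases h2 : a ∈ W
    · rw [Multiset.count_eq_one_of_mem W.nodup h2, hW a h2]
      simp
    · rw [Multiset.count_eq_zero_of_notMem (fun h => h2 h)]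
      simp

theorem EQG_disj {x y : U} {V W : Finset U} (hV : ∀ v, v ∈ V ↔ v ∈ gorb G x)
    (hW : ∀ v, v ∈ W ↔ v ∈ gorb G y) (hy : y ∉ V) : ∀ v ∈ V, v ∉ W := by
  intro v hv hw
  apply hy
  obtain ⟨g, rfl⟩ := (hV v).1 hv
  obtain ⟨h, hh⟩ := (hW _).1 hw
  refine (hV y).2 ⟨h⁻¹ * g, ?_⟩
  rw [mul_smul, hh, inv_smul_smul]

end

theorem p_EQG (hOFS : Stmt_OFS) (hEQC : Stmt_EQC) (hLN2 : Stmt_LN2) (hOX4 : Stmt_OX4)
    (hOX6 : Stmt_OX6) (hLNE : Stmt_LNE) : Stmt_EQG := by
  classical
  intro G U _ _ _ _ K R hR hcard h4 S hS hsum hnp hne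
  have hfs := fun x (hx : x ∈ S) => hOFS G U K R hR hcard x (hS x hx).1 (hS x hx).2
  -- basic data of an orbit
  have hdat : ∀ x ∈ S, ∃ V : Finset U, IsOrb K V (cnt x R) ∧ (∀ v, v ∈ V ↔ v ∈ gorb G x) ∧
      (∀ v ∈ V, v ∈ R ∧ R.count v = R.count x) ∧ (gorb G x).ncard = V.card ∧
      (V.card = 2 ∨ V.card = 4 ∨ V.card = 6 ∨ V.card = 8) ∧ R.count x * V.card ≤ 8 ∧
      0 < R.count x := by
    intro x hx
    obtain ⟨V, h1, h2, h3, h5, h6⟩ := hfs x hx
    refine ⟨V, h1, h2, fun v hv => ⟨(h3 v hv).1, ?_⟩, h6, ?_, ?_, ?_⟩
    · rw [← EQG_cnt, ← EQG_cnt]; exact (h3 v hv).2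
    · have h7 := h1.card
      have h8 := h1.m_pos
      have h9 : 0 < V.card := Finset.card_pos.2 h1.ne
      have h10 : V.card ≤ 8 := le_trans (Nat.le_mul_of_pos_left _ h8) h7
      obtain ⟨k, hk⟩ := h5
      omega
    · rw [← EQG_cnt]; exact h1.card
    · rw [← EQG_cnt]; exact h1.m_pos
  obtain ⟨x0, hx0⟩ := Multiset.exists_mem_of_ne_zero hne
  obtain ⟨x, hx, hmax⟩ := S.toFinset.exists_max_image (fun y => (gorb G y).ncard)
    ⟨x0, Multiset.mem_toFinset.2 hx0⟩
  rw [Multiset.mem_toFinset] at hx
  obtain ⟨V, hVo, hVm, hVc, hVn, hV4, hV8, hVp⟩ := hdat x hx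
  have hVR : R.count x • V.val ≤ R := by
    have := EQG_le (R := R) (V := V) (W := ∅) (m' := 0) (fun v hv => (hVc v hv).2)
      (fun v hv => absurd hv (Finset.notMem_empty v)) (fun v _ => Finset.notMem_empty v)
    simpa using this
  have hVR1 : V.val ≤ R := by
    refine le_trans ?_ hVR
    calc V.val = 1 • V.val := (one_smul ℕ _).symm
      _ ≤ R.count x • V.val := nsmul_le_nsmul_left (Multiset.zero_le _) hVp
  -- the conclusion from `EQC`
  have hfin : ∀ (t : ℕ) (J : Multiset U), 0 < t → S = t • J → J ≤ S := by
    intro t J ht hSJ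
    rw [hSJ]
    calc J = 1 • J := (one_smul ℕ _).symm
      _ ≤ t • J := nsmul_le_nsmul_left (Multiset.zero_le _) ht
  -- an element outside `V`
  have hout : ∀ y ∈ S, y ∉ V → 4 ≤ V.card → R.count x = 1 ∧ R.count y + 0 ≤ 2 ∧
      (V.card = 6 → Line G y ∧ R.count y = 1 ∧ V.val + {y} ≤ R) := by
    intro y hy hyV h44
    obtain ⟨W, hWo, hWm, hWc, hWn, hW4, hW8, hWp⟩ := hdat y hy
    have h1 := EQG_le (fun v hv => (hVc v hv).2) (fun v hv => (hWc v hv).2)
      (EQG_disj hVm hWm hyV)
    have h2 := Multiset.card_le_card h1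
    rw [Multiset.card_add, Multiset.card_nsmul, Multiset.card_nsmul] at h2
    have h3 : V.val.card = V.card := rfl
    have h3' : W.val.card = W.card := rfl
    rw [h3, h3'] at h2
    have h5 : R.count x * V.card + R.count y * W.card ≤ 8 := le_trans (by simpa using h2) hcard
    have h6 : 2 ≤ W.card := by omega
    have h7 : R.count y * 2 ≤ R.count y * W.card := Nat.mul_le_mul_left _ h6
    have h8 : R.count x * 4 ≤ R.count x * V.card := Nat.mul_le_mul_left _ h44
    refine ⟨by omega, by omega, fun hV6 => ?_⟩
    have h9 : R.count x = 1 := by omega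
    rw [hV6, h9] at h5
    have h10 : R.count y = 1 := by omega
    rw [h10] at h5
    have h11 : W.card = 2 := by omega
    refine ⟨EQG_line K (hS y hy).2 hWm h11, h10, ?_⟩
    refine le_trans ?_ h1
    rw [h9, h10, one_smul, one_smul]
    refine add_le_add le_rfl ?_
    rw [Multiset.singleton_le]
    exact (hWm y).2 ⟨1, (one_smul G y).symm⟩
  have hcnt1 : V.card = 8 ∨ V.card = 6 → R.count x = 1 := by
    intro h
    rcases h with h | h <;> rw [h] at hV8 <;> omega
  rcases hV4 with h2 | h4' | h6 | h8
  · -- all orbits have two elements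
    have hline : ∀ v ∈ S, v ∈ R ∧ Line G v := by
      intro v hv
      refine ⟨(hS v hv).1, ?_⟩
      obtain ⟨W, hWo, hWm, hWc, hWn, hW4, hW8, hWp⟩ := hdat v hv
      have h5 := hmax v (Multiset.mem_toFinset.2 hv)
      rw [hWn, hVn] at h5
      exact EQG_line K (hS v hv).2 hWm (by omega)
    obtain ⟨t, v, v', ht, hSt, h3, hc, hc'⟩ := hLN2 G U K R hR hcard S hline hsum hnp hne
    have hJS := hfin t _ ht hSt
    have hvS : v ∈ S := Multiset.mem_of_le hJS (by simp)
    have hvv : v ≠ v' := by
      intro h
      apply (hS v hvS).2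
      rw [← h] at h3
      have h5 : (4 : ℚ) • v = 0 := by
        have h6 : (4 : ℕ) • v = 0 := by
          rw [show (4 : ℕ) = 3 + 1 from rfl, add_smul, one_smul]
          exact h3
        rw [← h6, ← Nat.cast_smul_eq_nsmul ℚ]
        norm_num
      rcases smul_eq_zero.1 h5 with h6 | h6
      · norm_num at h6
      · exact h6
    refine ⟨t, _, ht, hSt, ?_, EQG_mono hJS hnp, Or.inl ⟨by simp, ?_⟩⟩
    · rw [← h3]
      simp only [Multiset.insert_eq_cons, Multiset.sum_cons, Multiset.sum_singleton]
      rw [show (3 : ℕ) = 1 + 1 + 1 from rfl, add_smul, add_smul, one_smul]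
      abel
    · rw [Multiset.le_iff_count]
      intro a
      rw [EQG_cnt] at hc hc'
      simp only [Multiset.insert_eq_cons, Multiset.count_cons, Multiset.count_singleton]
      by_cases ha : a = v
      · subst ha
        simp [hvv, hc]
      · by_cases ha' : a = v'
        · subst ha'
          simp [ha, hc']
        · simp [ha, ha']
  · -- the largest orbit has four elements
    exfalso
    by_cases hall : ∀ v ∈ S, v ∈ V
    · obtain ⟨t, J, _, _, _, _, _, _, hJ1, hJ2⟩ := hEQC G U K V _ hVo S hall hsum hnp hne
      omega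
    · push Not at hall
      obtain ⟨y, hy, hyV⟩ := hall
      have h1 := (hout y hy hyV (by omega)).1
      rw [EQG_cnt, h1] at hVo
      have hlin : ∀ v ∈ S, v ∉ V → Line G v := by
        intro v hv hvV
        obtain ⟨W, hWo, hWm, hWc, hWn, hW4, hW8, hWp⟩ := hdat v hv
        have h5 := hmax v (Multiset.mem_toFinset.2 hv)
        rw [hWn, hVn] at h5
        have h6 : W.card = 2 ∨ W.card = 4 := by omega
        rcases h6 with h6 | h6
        · exact EQG_line K (hS v hv).2 hWm h6
        · exfalso
          apply hvV
          rw [hVm]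
          exact h4 x (hS x hx).1 v (hS v hv).1 (hS x hx).2 (hS v hv).2 (by rw [hVn, h4'])
            (by rw [hWn, h6])
      have h7 := hOX4 G U K R hR hcard V hVo h4' (fun v hv => (hVc v hv).1)
        (S.filter (fun v => v ∈ V)) (S.filter (fun v => v ∉ V))
        (fun v hv => (Multiset.mem_filter.1 hv).2)
        (fun v hv => ⟨(hS v (Multiset.mem_filter.1 hv).1).1,
          hlin v (Multiset.mem_filter.1 hv).1 (Multiset.mem_filter.1 hv).2⟩)
        (EQG_mono (Multiset.filter_le _ _) hnp)
        (fun h => by
          have : y ∈ S.filter (fun v => v ∉ V) := Multiset.mem_filter.2 ⟨hy, hyV⟩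
          rw [h] at this
          exact absurd this (Multiset.notMem_zero y))
      rw [Multiset.filter_add_not] at h7
      exact h7 hsum
  · -- the largest orbit has six elements
    have hx1 := hcnt1 (Or.inr h6)
    by_cases hall : ∀ v ∈ S, v ∈ V
    · obtain ⟨t, J, ht, hSt, hJs, hJn, hJV, hJo, hJ1, hJ2⟩ :=
        hEQC G U K V _ hVo S hall hsum hnp hne
      refine ⟨t, J.val, ht, hSt, ?_, hJn, Or.inr ⟨?_, J.nodup, ?_, ?_⟩⟩
      · rw [← hJs, Finset.sum, Multiset.map_id]
      · have : J.card = 3 := by omega
        exact this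
      · intro v hv
        rw [EQG_cnt, (hVc v (hJV hv)).2, hx1]
      · intro g v hv
        exact hJo _ (hVo.stable g v (hJV hv))
    · push Not at hall
      obtain ⟨y, hy, hyV⟩ := hall
      obtain ⟨hyL, hy1, hyR⟩ := (hout y hy hyV (by omega)).2.2 h6
      have hyR1 : y ∈ R := (hS y hy).1
      have hy0 : y ≠ 0 := (hS y hy).2
      obtain ⟨hw0, hDy⟩ := hLNE G U K y hyL
      have hw1 : K.w y = 1 ∨ K.w y = -1 := by
        obtain ⟨n, hn⟩ := hR.ht y hyR1
        have ho : orb K.D y = {y} := by
          ext u
          constructor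
          · rintro ⟨d, hd, rfl⟩
            exact hDy d hd
          · rintro rfl
            exact ⟨1, K.D.one_mem, (one_smul G _).symm⟩
        rw [ho, EQG_cnt, hy1, Set.ncard_singleton] at hn
        have hle := abs_le.1 (hR.le_one y hyR1)
        have hn' : K.w y = 2 * n - 1 := by
          push_cast at hn
          linarith
        have h5 : n ≤ 1 := by
          have : (n : ℝ) ≤ 1 := by linarith [hle.2]
          exact_mod_cast this
        interval_cases n
        · right; rw [hn']; norm_num
        · left; rw [hn']; norm_num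
      have hother : ∀ v ∈ S, v ∉ V → v = y := by
        intro v hv hvV
        obtain ⟨hvL, hv1, hvR⟩ := (hout v hv hvV (by omega)).2.2 h6
        by_contra hvy
        by_cases hvy' : v = -y
        · subst hvy'
          refine hnp y (-y) ?_ (add_neg_cancel y)
          rw [Multiset.le_iff_count]
          intro a
          simp only [Multiset.insert_eq_cons, Multiset.count_cons, Multiset.count_singleton]
          by_cases ha : a = y
          · subst ha
            have : a ≠ -a := fun h => hy0 (EQG_two h)
            simp only [this, if_false, if_true, zero_add]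
            exact Multiset.one_le_count_iff_mem.2 hy
          · by_cases ha' : a = -y
            · subst ha'
              simp only [ha, if_false, if_true, add_zero]
              exact Multiset.one_le_count_iff_mem.2 hv
            · simp [ha, ha']
        · obtain ⟨W, hWo, hWm, hWc, hWn, hW4, hW8, hWp⟩ := hdat y hy
          have hnd := EQG_disj hVm hWm hyV
          -- `v` is neither in `V` nor in `W`
          have hvW : v ∉ W := by
            intro h
            obtain ⟨g, hg⟩ := (hWm v).1 h
            rcases hyL.2 g with h5 | h5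
            · exact hvy (hg.trans h5)
            · exact hvy' (hg.trans h5)
          have h9 := EQG_le (R := R) (V := V ∪ W) (W := {v}) (m := 1) (m' := 1)
            (fun u hu => by
              rcases Finset.mem_union.1 hu with hu | hu
              · rw [(hVc u hu).2, hx1]
              · rw [(hWc u hu).2, hy1])
            (fun u hu => by rw [Finset.mem_singleton.1 hu, hv1])
            (fun u hu hu' => by
              rw [Finset.mem_singleton.1 hu'] at hu
              rcases Finset.mem_union.1 hu with hu | hu
              · exact hvV hu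
              · exact hvW hu)
          have h10 := Multiset.card_le_card h9
          rw [Multiset.card_add, Multiset.card_nsmul, Multiset.card_nsmul] at h10
          have h11 : (V ∪ W).val.card = V.card + W.card :=
            Finset.card_union_of_disjoint (Finset.disjoint_left.2 hnd)
          rw [h11] at h10
          simp only [Finset.singleton_val, Multiset.card_singleton, one_mul, smul_eq_mul] at h10
          omega
      have hsplit : S.filter (fun v => v ∈ V) + S.count y • ({y} : Multiset U) = S := by
        conv_rhs => rw [← Multiset.filter_add_not (fun v => v ∈ V) S]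
        congr 1
        ext a
        rw [Multiset.count_nsmul, Multiset.count_singleton, Multiset.count_filter]
        by_cases ha : a = y
        · subst ha
          simp [hyV]
        · rw [if_neg ha, mul_zero]
          by_cases haV : a ∈ V
          · simp [haV]
          · rw [if_pos haV]
            symm
            rw [Multiset.count_eq_zero]
            intro haS
            exact ha (hother a haS haV)
      have hk : 0 < S.count y := Multiset.count_pos.2 hy
      rw [EQG_cnt, hx1] at hVo
      obtain ⟨J, hJ, hJc, hJV, hJn, hJs⟩ := hOX6 G U K V hVo h6 y hyL hw1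
        (S.filter (fun v => v ∈ V)) (S.count y) (fun v hv => (Multiset.mem_filter.1 hv).2)
        (EQG_mono (Multiset.filter_le _ _) hnp) hk (by
          have h5 := congrArg Multiset.sum hsplit
          rw [Multiset.sum_add, Multiset.sum_nsmul, Multiset.sum_singleton, hsum] at h5
          exact h5)
      have hSt : S = S.count y • (J.val + {y}) := by
        rw [smul_add, ← hJ]
        exact hsplit.symm
      refine ⟨S.count y, J.val + {y}, hk, hSt, ?_, EQG_mono (hfin _ _ hk hSt) hnp,
        Or.inl ⟨?_, ?_⟩⟩
      · rw [Multiset.sum_add, Multiset.sum_singleton, ← hJs, Finset.sum, Multiset.map_id]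
      · rw [Multiset.card_add, Multiset.card_singleton]
        show J.card + 1 = 4
        rw [hJc]
      · refine le_trans (add_le_add ?_ le_rfl) hyR
        exact Finset.val_le_iff.2 hJV
  · -- one orbit with eight elements
    have hRV : V.val = R := by
      apply Multiset.eq_of_le_of_card_le hVR1
      show R.card ≤ V.card
      omega
    have hall : ∀ v ∈ S, v ∈ V := by
      intro v hv
      have := (hS v hv).1
      rw [← hRV] at this
      exact this
    obtain ⟨t, J, ht, hSt, hJs, hJn, hJV, hJo, hJ1, hJ2⟩ :=
      hEQC G U K V _ hVo S hall hsum hnp hne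
    refine ⟨t, J.val, ht, hSt, ?_, hJn, Or.inl ⟨?_, ?_⟩⟩
    · rw [← hJs, Finset.sum, Multiset.map_id]
    · have : J.card = 4 := by omega
      exact this
    · rw [← hRV]
      exact Finset.val_le_iff.2 hJV

end Pool.T4
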