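import Pool.Agent.Work.MP_223b32_t4.InterfaceU
import Pool.Agent.Work.MP_223b32_t4.EQW
import Pool.Agent.Work.MP_223b32_t4.EQG

/-! # Block EQU: a relation in different vectors, at most one relation (helper20) -/

set_option autoImplicit false

namespace Pool.T4

section

variable {G U : Type} [Group G] [AddCommGroup U] [Module ℚ U] [DistribMulAction G U]

omit [Module ℚ U] in
theorem EQU_mem_tr {S : Multiset U} {g : G} {v : U} : v ∈ tr g S ↔ g⁻¹ • v ∈ S := by
  rw [tr, Multiset.mem_map]
  constructor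
  · rintro ⟨u, hu, rfl⟩
    rw [inv_smul_smul]
    exact hu
  · intro h
    exact ⟨_, h, smul_inv_smul g v⟩

theorem EQU_zero (K : Core G U) {R : Multiset U} (hR : IsR K R) (hnd : R.Nodup) : (0 : U) ∉ R := by
  intro h0
  obtain ⟨n, hn⟩ := hR.ht 0 h0
  classical
  have h1 : cnt (0 : U) R = 1 := by
    rw [EQG_cnt]
    exact Multiset.count_eq_one_of_mem hnd h0
  have h2 : orb K.D (0 : U) = {0} := by
    ext y
    constructor
    · rintro ⟨d, _, rfl⟩
      rw [smul_zero]
      rfl
    · intro hy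
      rw [Set.mem_singleton_iff] at hy
      exact ⟨1, K.D.one_mem, by rw [hy, smul_zero]⟩
  rw [h1, h2, Set.ncard_singleton, map_zero] at hn
  have h3 : (1 : ℝ) = 2 * (n : ℝ) := by
    simpa using hn
  have h4 : (1 : ℕ) = 2 * n := by exact_mod_cast h3
  omega

end

theorem p_EQU : Stmt_EQU := by
  classical
  intro G U _ _ _ _ K R hR hRnd hone S hSR hS0 hNP hSne
  have hSnd : S.Nodup := Multiset.nodup_of_le hSR hRnd
  have h0R : (0 : U) ∉ R := EQU_zero K hR hRnd
  have hSR' : ∀ v ∈ S, v ∈ R := fun v hv => Multiset.mem_of_le hSR hv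
  have hnz : ∀ v ∈ S, v ≠ 0 := fun v hv h => h0R (h ▸ hSR' v hv)
  have hst : ∀ g : G, ∀ v ∈ R, g • v ∈ R := by
    intro g v hv
    rw [← hR.stable g]
    exact EQU_mem_tr.2 (by rw [inv_smul_smul]; exact hv)
  have hneg : ∀ v ∈ R, -v ∈ R := by
    intro v hv
    rw [← K.cc v]
    exact hst _ v hv
  have hnot : ∀ v ∈ S, -v ∉ S := fun v hv => SGN_notMem hNP hv (hnz v hv)
  -- the relation of S
  obtain ⟨f, hf⟩ : ∃ f : U → ℤ, f = fun v => (S.count v : ℤ) - (S.count (-v) : ℤ) := ⟨_, rfl⟩
  have hfrel : IsRel R.toFinset f := by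
    rw [hf]
    exact EQW_relS R.toFinset (fun v hv => Multiset.mem_toFinset.2 (hneg v (Multiset.mem_toFinset.1 hv))) S
      (fun v hv => Multiset.mem_toFinset.2 (hSR' v hv)) hS0
  have hf1 : ∀ v, f v = 1 ↔ v ∈ S := by
    intro v
    have hv : f v = (S.count v : ℤ) - (S.count (-v) : ℤ) := by rw [hf]
    constructor
    · intro h
      by_contra hcon
      rw [Multiset.count_eq_zero.2 hcon] at hv
      omega
    · intro h
      rw [hv, Multiset.count_eq_one_of_mem hSnd h, Multiset.count_eq_zero.2 (hnot v h)]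
      norm_num
  have hfn : ∀ v, f (-v) = -f v := hfrel.1
  obtain ⟨v0, hv0⟩ := Multiset.exists_mem_of_ne_zero hSne
  have hsgn : ∀ g : G, tr g S = S ∨ tr g S = ng S := by
    intro g
    have hg := EQW_shift R.toFinset (fun h v hv => Multiset.mem_toFinset.2
      (hst h v (Multiset.mem_toFinset.1 hv))) f hfrel g⁻¹
    have hp := hone R.toFinset (fun v => Multiset.mem_toFinset) f (fun v => f (g⁻¹ • v)) hfrel hg
    have hfv0 := (hf1 v0).2 hv0
    have h1 := hp v0 (g • v0)
    simp only [inv_smul_smul] at h1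
    rw [hfv0, one_mul] at h1
    -- f (g v0) * f (g⁻¹ v0) = 1
    have h2 : ∀ v, f (g⁻¹ • v) = f v * f (g⁻¹ • v0) := by
      intro v
      have := hp v0 v
      rw [hfv0, one_mul] at this
      exact this
    have htrnd : (tr g S).Nodup := by
      unfold tr
      exact hSnd.map (MulAction.injective g)
    have hngnd : (ng S).Nodup := by
      unfold ng
      exact hSnd.map neg_injective
    rcases Int.isUnit_iff.1 (IsUnit.of_mul_eq_one_right (f (g • v0)) h1.symm) with h3 | h3
    · left
      rw [Multiset.Nodup.ext htrnd hSnd]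
      intro v
      rw [EQU_mem_tr, ← hf1, ← hf1, h2 v, h3, mul_one]
    · right
      rw [Multiset.Nodup.ext htrnd hngnd]
      intro v
      rw [EQU_mem_tr, EQ7_memng, ← hf1, ← hf1, h2 v, h3, hfn v]
      constructor <;> intro h <;> linarith
  refine ⟨hSnd, hnz, hsgn, ?_, ?_⟩
  · intro h
    have h1 : v0 ∈ ng S := by rw [h]; exact hv0
    exact hnot v0 hv0 (EQ7_memng.1 h1)
  · have hnd : (S + ng S).Nodup := by
      rw [Multiset.nodup_add]
      refine ⟨hSnd, ?_, ?_⟩
      · unfold ng
        exact hSnd.map neg_injective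
      · rw [Multiset.disjoint_left]
        intro u hu hu2
        exact hnot u hu (EQ7_memng.1 hu2)
    rw [Multiset.le_iff_subset hnd]
    intro u hu
    rcases Multiset.mem_add.1 hu with h | h
    · exact hSR' u h
    · have h1 := hneg _ (hSR' _ (EQ7_memng.1 h))
      rwa [neg_neg] at h1

end Pool.T4
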