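import Pool.Agent.Work.MP_223b32_t4.InterfaceU
import Pool.Agent.Work.MP_223b32_t4.HTC

/-! # Block SXU: the abelian variety of a relation (typed by helper13) -/

namespace Pool.T4

open Pool.Agent.Work.MP_223b32_ag

theorem SXU_self {U : Type} [AddCommGroup U] [Module ℚ U] {v : U} (hv : v = -v) : v = 0 := by
  have h1 : (2 : ℚ) • v = 0 := by
    rw [two_smul]
    nth_rewrite 2 [hv]
    exact add_neg_cancel v
  exact (smul_eq_zero.1 h1).resolve_left (by norm_num)

theorem SXU_pair {U : Type} [AddCommGroup U] [Module ℚ U] {M : Multiset U} (hM : NoPair M)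
    (h0 : ∀ v ∈ M, v ≠ 0) {v : U} (h1 : v ∈ M) (h2 : -v ∈ M) : False := by
  classical
  have hne : v ≠ -v := fun h => h0 v h1 (SXU_self h)
  refine hM v (-v) ?_ (add_neg_cancel v)
  obtain ⟨M', rfl⟩ := Multiset.exists_cons_of_mem h1
  rw [Multiset.insert_eq_cons]
  refine Multiset.cons_le_cons v ?_
  rw [Multiset.singleton_le]
  rcases Multiset.mem_cons.1 h2 with h | h
  · exact absurd h.symm hne
  · exact h

theorem p_SXU (hSAV : Stmt_SAV) : Stmt_SXU := by
  classical
  intro p _ a ι ρ c hc ha hd R J hR hgerm hJR hst hnp h0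
  have hRnd : (R.map (uu (p ^ a) ι)).Nodup := by
    refine Multiset.Nodup.map_on (fun x hx y hy h => ?_) (Multiset.Nodup.of_map germ hgerm)
    refine Multiset.inj_on_of_nodup_map hgerm x hx y hy ?_
    exact Quotient.sound ((hd.sim x y (hR.weil x hx) (hR.weil y hy)).2 h)
  have hRn : R.Nodup := Multiset.Nodup.of_map germ hgerm
  obtain ⟨M, hM⟩ : ∃ M, M = J.map (uu (p ^ a) ι) := ⟨_, rfl⟩
  rw [← hM] at hst hnp h0
  have hMR : M ≤ R.map (uu (p ^ a) ι) := hM ▸ Multiset.map_le_map hJR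
  have hMn : M.Nodup := Multiset.nodup_of_le hMR hRnd
  have hngm : ∀ v, v ∈ ng M ↔ -v ∈ M := by
    intro v
    unfold ng
    rw [Multiset.mem_map]
    constructor
    · rintro ⟨u, hu, rfl⟩
      rwa [neg_neg]
    · intro h
      exact ⟨-v, h, neg_neg v⟩
  have hngn : (ng M).Nodup := by
    unfold ng
    exact Multiset.Nodup.map neg_injective hMn
  have hsn : (M + ng M).Nodup := by
    rw [Multiset.nodup_add]
    refine ⟨hMn, hngn, ?_⟩
    rw [Multiset.disjoint_left]
    intro v h1 h2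
    exact SXU_pair hnp h0 h1 ((hngm v).1 h2)
  obtain ⟨V, hV⟩ : ∃ V : Finset (UU ι), V = (M + ng M).toFinset := ⟨_, rfl⟩
  have hVm : ∀ v, v ∈ V ↔ v ∈ M ∨ -v ∈ M := by
    intro v
    rw [hV, Multiset.mem_toFinset, Multiset.mem_add, hngm]
  have htr : ∀ g : GQ, ∀ v ∈ M, g • v ∈ M ∨ -(g • v) ∈ M := by
    intro g v hv
    have h1 : g • v ∈ tr g M := Multiset.mem_map_of_mem _ hv
    rcases hst g with h | h
    · left
      rwa [h] at h1
    · right
      rw [h] at h1
      exact (hngm _).1 h1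
  have hVst : ∀ g : GQ, ∀ v ∈ V, g • v ∈ V := by
    intro g v hv
    rw [hVm] at hv ⊢
    rcases hv with hv | hv
    · exact htr g v hv
    · have h1 := htr g _ hv
      rw [smul_neg, neg_neg] at h1
      exact h1.symm
  obtain ⟨R1, hR1R, hR1av, hR1m, -⟩ := hSAV p a ι ha hd R hR V hVst
  have hR1n : (R1.map (uu (p ^ a) ι)).Nodup :=
    Multiset.nodup_of_le (Multiset.map_le_map hR1R) hRnd
  refine ⟨R1, hR1R, ?_, hR1av, ?_⟩
  · rw [Multiset.le_iff_subset (Multiset.nodup_of_le hJR hRn)]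
    intro x hx
    refine (hR1m x).2 ⟨Multiset.mem_of_le hJR hx, (hVm _).2 (Or.inl ?_)⟩
    rw [hM]
    exact Multiset.mem_map_of_mem _ hx
  · rw [← hM]
    refine (Multiset.Nodup.ext hR1n hsn).2 fun v => ?_
    rw [Multiset.mem_add, hngm]
    constructor
    · intro hv
      obtain ⟨x, hx, rfl⟩ := Multiset.mem_map.1 hv
      exact (hVm _).1 ((hR1m x).1 hx).2
    · intro hv
      rcases hv with hv | hv
      · obtain ⟨x, hx, rfl⟩ := Multiset.mem_map.1 (Multiset.mem_of_le hMR hv)
        exact Multiset.mem_map_of_mem _ ((hR1m x).2 ⟨hx, (hVm _).2 (Or.inl hv)⟩)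
      · obtain ⟨x, hx, hxv⟩ := Multiset.mem_map.1 (Multiset.mem_of_le hMR hv)
        have h1 : germ (c x) ∈ R.map germ := by
          rw [← hR.stable c]
          exact Multiset.mem_map_of_mem _ (Multiset.mem_map_of_mem _ hx)
        obtain ⟨y, hy, hyc⟩ := Multiset.mem_map.1 h1
        have h2 : uu (p ^ a) ι y = v := by
          rw [(hd.sim y (c x) (hR.weil y hy) (hd.weil x (hR.weil x hx) c)).1
            (HTC_germ.1 hyc), hd.smul x (hR.weil x hx) c, hxv]
          rw [smul_neg]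
          have h3 := (coreU ι ρ c hc).cc v
          change c • v = -v at h3
          rw [h3, neg_neg]
        rw [← h2]
        refine Multiset.mem_map_of_mem _ ((hR1m y).2 ⟨hy, ?_⟩)
        rw [h2, hVm]
        exact Or.inr hv

end Pool.T4
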