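import Pool.Agent.Work.MP_223b32_t4.InterfaceU
import Pool.Agent.Work.MP_223b32_t4.FN2
import Pool.Agent.Work.MP_223b32_t4.SXU

/-! # Block FNU: abelian varieties of dimension at most seven (typed by helper13) -/

namespace Pool.T4

open Pool.Agent.Work.MP_223b32_ag

theorem p_FNU (hRHO : Stmt_RHO) (hCCJ : Stmt_CCJ) (hDIC : Stmt_DIC) (hHTC : Stmt_HTC)
    (hRNW : Stmt_RNW) (hARU : Stmt_ARU) (hLIU : Stmt_LIU) (hEQU : Stmt_EQU) (hSXU : Stmt_SXU)
    (hFN1 : Stmt_FN1) (hMOW : Stmt_MOW) (hCYV : Stmt_CYV) : Stmt_FNU := by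
  classical
  intro p _ a ι ha R hR hsev S j hSR hSc hSs
  obtain ⟨hcard, hgerm, ⟨m, x, hm, hx, hxi⟩, hlast⟩ := hsev
  have hd := hDIC p a ι ha
  obtain ⟨ρ⟩ := hRHO
  obtain ⟨c, hc⟩ := hCCJ ρ
  have hSw : ∀ x ∈ S, Weil (p ^ a) x := fun x hx => hR.weil x (Multiset.mem_of_le hSR hx)
  obtain ⟨J, hJS, hJnp, hJsum, hJev, hJcyc⟩ := hRNW p a ι ha hd S hSw
  refine hJcyc ?_
  have hJR : J ≤ R := hJS.trans hSR
  have hJw : ∀ x ∈ J, Weil (p ^ a) x := fun x hx => hSw x (Multiset.mem_of_le hJS hx)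
  have hS0 : (S.map (uu (p ^ a) ι)).sum = 0 := by
    rw [hd.sum S hSw, hSc]
    exact FN2_sim' hSs
  rw [hS0] at hJsum
  have hJe : Even J.card := hJev.2 ⟨j, by rw [hSc]; ring⟩
  by_cases hJ0 : J = 0
  · rw [hJ0]
    exact CycW.zero
  have hRK : IsR (coreU ι ρ c hc) (R.map (uu (p ^ a) ι)) := hHTC p a ι ρ c hc ha hd R hR
  have hRnd : (R.map (uu (p ^ a) ι)).Nodup := by
    refine Multiset.Nodup.map_on (fun x hx y hy h => ?_) (Multiset.Nodup.of_map germ hgerm)
    refine Multiset.inj_on_of_nodup_map hgerm x hx y hy ?_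
    exact Quotient.sound ((hd.sim x y (hR.weil x hx) (hR.weil y hy)).2 h)
  have hone : OneRel (R.map (uu (p ^ a) ι)) := by
    refine hLIU GQ (UU ι) (coreU ι ρ c hc) (R.map (uu (p ^ a) ι)) hRK m
      (fun i => uu (p ^ a) ι (x i)) (by rw [Multiset.card_map]; exact hm)
      (fun i => Multiset.mem_map_of_mem _ (hx i))
      (hARU p a ι ρ c hc ha hd R (fun x hx => hR.weil x hx) m x hx hxi)
  obtain ⟨hJn, hJz, hJg, hJne, hJle⟩ :=
    hEQU GQ (UU ι) (coreU ι ρ c hc) (R.map (uu (p ^ a) ι)) hRK hRnd hone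
      (J.map (uu (p ^ a) ι)) (Multiset.map_le_map hJR) hJsum hJnp
      (by rwa [ne_eq, Multiset.map_eq_zero])
  have hng : ∀ M : Multiset (UU ι), (ng M).card = M.card := fun M => by
    unfold ng
    exact Multiset.card_map _ _
  have hcc := Multiset.card_le_card hJle
  rw [Multiset.card_add, hng, Multiset.card_map, Multiset.card_map] at hcc
  obtain ⟨R1, hR1R, hJR1, hR1, hR1m⟩ := hSXU p a ι ρ c hc ha hd R J hR hgerm hJR hJg hJnp hJz
  have hR1c : R1.card = 2 * J.card := by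
    have h1 := congrArg Multiset.card hR1m
    rw [Multiset.card_map, Multiset.card_add, hng, Multiset.card_map] at h1
    omega
  have hsim : ∀ k, J.card = 2 * k → Sim J.prod (((p ^ a : ℕ) : Qb) ^ k) := by
    intro k hk
    apply FN2_sim
    have h1 := (hd.sum J hJw).1 hJsum
    rwa [hk] at h1
  obtain ⟨k, hk⟩ := hJe
  have hJpos : 0 < J.card := Multiset.card_pos.2 hJ0
  have hk3 : k = 1 ∨ k = 2 ∨ k = 3 := by omega
  rcases hk3 with h | h | h
  · exfalso
    have h2 : (J.map (uu (p ^ a) ι)).card = 2 := by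
      rw [Multiset.card_map]
      omega
    obtain ⟨u, v, huv⟩ := Multiset.card_eq_two.1 h2
    refine hJnp u v (le_of_eq huv.symm) ?_
    rw [huv] at hJsum
    have h3 : ({u, v} : Multiset (UU ι)).sum = u + v := by
      have h4 : ({u, v} : Multiset (UU ι)) = u ::ₘ {v} := rfl
      rw [h4, Multiset.sum_cons, Multiset.sum_singleton]
    rw [h3] at hJsum
    exact hJsum
  · have h4 : J.card = 2 * 2 := by omega
    exact (hMOW p (p ^ a) ι).2 R1 (hFN1 p a ι ha R1 hR1 (by omega)) J 2 hJR1 h4 (hsim 2 h4)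
  · have h6 : J.card = 2 * 3 := by omega
    have hpair : ∀ x ∈ J, ∀ y ∈ J, ¬ Sim (x * y) ((p ^ a : ℕ) : Qb) := by
      intro x hx y hy h
      have h1 : uu (p ^ a) ι x + uu (p ^ a) ι y = 0 := by
        have h2 := (hd.sum {x, y} (by
          intro t ht
          simp only [Multiset.insert_eq_cons, Multiset.mem_cons, Multiset.mem_singleton] at ht
          rcases ht with rfl | rfl
          · exact hJw _ hx
          · exact hJw _ hy)).2 (by
            have h4 : ({x, y} : Multiset Qb).prod = x * y := by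
              simp [Multiset.insert_eq_cons]
            have h5 : ({x, y} : Multiset Qb).card = 2 * 1 := rfl
            rw [h4, h5]
            exact FN2_sim' (by simpa using h))
        simpa [Multiset.insert_eq_cons] using h2
      refine SXU_pair hJnp hJz (v := uu (p ^ a) ι x) (Multiset.mem_map_of_mem _ hx) ?_
      rw [← eq_neg_of_add_eq_zero_right h1]
      exact Multiset.mem_map_of_mem _ hy
    have hcond := hlast R1 J hJR1 hR1R hR1 (by omega) (by omega) (hsim 3 h6) hpair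
    refine hCYV p a ι ρ c hc ha hd R1 J hR1 hJR1 ?_ hcond
    exact ⟨hHTC p a ι ρ c hc ha hd R1 hR1, by rw [Multiset.card_map]; omega, hR1m, hJsum, hJnp,
      hJn, hJz, hJg, hJne⟩

end Pool.T4
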