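import Pool.Agent.Work.MP_223b32_t4.InterfaceU
import Pool.Agent.Work.MP_223b32_t4.PRW

/-! # Block IAU (helper58): independent abelian varieties have additive angle ranks -/

set_option autoImplicit false

namespace Pool.T4

open Pool.Agent.Work.MP_223b32_ag

theorem p_IAU : Stmt_IAU := by
  classical
  intro p _ a ι ha hd n R hW hI S hS hSim i
  obtain ⟨g, hg1, hg2⟩ := hI
  obtain ⟨q, hq⟩ : ∃ q, q = p ^ a := ⟨_, rfl⟩
  rw [← hq] at hd hW hg1 hSim ⊢
  have hSw : ∀ i, ∀ x ∈ S i, Weil q x := fun i x hx => hW i x (hS i x hx)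
  obtain ⟨u, hu⟩ : ∃ u : Fin n → UU ι, u = fun i => ((S i).map (uu q ι)).sum := ⟨_, rfl⟩
  -- the action of `g i`
  have hv1 : ∀ i, ∀ x ∈ R i, g i • uu q ι x = -uu q ι x := by
    intro i x hx
    have hx1 := hW i x hx
    have hx2 := hd.weil x hx1 (g i)
    have h3 : ((({x, g i x} : Multiset Qb)).map (uu q ι)).sum = 0 := by
      rw [hd.sum _ (by
        intro z hz
        simp only [Multiset.insert_eq_cons, Multiset.mem_cons, Multiset.mem_singleton] at hz
        rcases hz with rfl | rfl
        · exact hx1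
        · exact hx2)]
      have h4 : Sim (x * g i x) ((q : Qb) ^ 1) := by
        rw [pow_one]
        exact hg1 i x hx
      have h5 := FN2_sim' h4
      simpa using h5
    rw [← hd.smul x hx1 (g i)]
    have h4 : uu q ι x + uu q ι (g i x) = 0 := by simpa using h3
    exact (neg_eq_of_add_eq_zero_right h4).symm
  have hv2 : ∀ i j, i ≠ j → ∀ x ∈ R j, g i • uu q ι x = uu q ι x := by
    intro i j hij x hx
    rw [← hd.smul x (hW j x hx) (g i)]
    exact (hd.sim _ _ (hd.weil x (hW j x hx) (g i)) (hW j x hx)).1 (hg2 i j hij x hx)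
  have hu1 : ∀ i, g i • u i = -u i := by
    intro i
    rw [hu]
    show g i • ((S i).map (uu q ι)).sum = -((S i).map (uu q ι)).sum
    rw [Multiset.smul_sum, Multiset.map_map, ← Multiset.sum_map_neg', Multiset.map_map]
    refine congrArg Multiset.sum (Multiset.map_congr rfl fun x hx => ?_)
    exact hv1 i x (hS i x hx)
  have hu2 : ∀ i j, i ≠ j → g i • u j = u j := by
    intro i j hij
    rw [hu]
    show g i • ((S j).map (uu q ι)).sum = ((S j).map (uu q ι)).sum
    rw [Multiset.smul_sum, Multiset.map_map]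
    refine congrArg Multiset.sum (Multiset.map_congr rfl fun x hx => ?_)
    exact hv2 i j hij x (hS j x hx)
  have hsum : ∑ j, u j = 0 := by
    have h1 : ∀ x ∈ ∑ i, S i, Weil q x := by
      intro x hx
      obtain ⟨j, _, hj⟩ := Multiset.mem_sum.1 hx
      exact hSw j x hj
    have h2 := (hd.sum _ h1).2 hSim
    have h3 := map_sum ((Multiset.sumAddMonoidHom (M := UU ι)).comp
      (Multiset.mapAddMonoidHom (uu q ι))) S Finset.univ
    have h4 : (Multiset.map (uu q ι) (∑ i, S i)).sum = ∑ j, ((S j).map (uu q ι)).sum := h3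
    rw [hu]
    show ∑ j, ((S j).map (uu q ι)).sum = 0
    rw [← h4]
    exact h2
  have h0 : u i = 0 := by
    have h1 : u i + ∑ j ∈ Finset.univ.erase i, u j = 0 := by
      rw [Finset.add_sum_erase _ _ (Finset.mem_univ i)]
      exact hsum
    have h2 := congrArg (fun v => g i • v) h1
    have h3 : g i • ∑ j ∈ Finset.univ.erase i, u j = ∑ j ∈ Finset.univ.erase i, u j := by
      rw [Finset.smul_sum]
      refine Finset.sum_congr rfl fun j hj => ?_
      exact hu2 i j (Finset.ne_of_mem_erase hj).symm
    simp only [smul_add, smul_zero, h3, hu1 i] at h2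
    have h4 : ∑ j ∈ Finset.univ.erase i, u j = u i := by
      rw [neg_add_eq_zero] at h2
      exact h2.symm
    rw [h4] at h1
    have h5 : (2 : ℚ) • u i = 0 := by
      rw [two_smul]
      exact h1
    exact (smul_eq_zero.1 h5).resolve_left (by norm_num)
  refine (hd.sum (S i) (hSw i)).1 ?_
  rw [hu] at h0
  exact h0

end Pool.T4
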