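import Pool.Agent.Work.MP_223b32_t4.InterfaceU
import Pool.Agent.Work.MP_223b32_t4.DefsJ

/-!
# Interface: abelian varieties of dimension six with an exceptional class of degree six (helper9)
-/

namespace Pool.T4

open Pool.Agent.Work.MP_223b32_ag

/-- (EQJ) all relations are multiples of `J`. -/
def Stmt_EQJ : Prop :=
  ∀ (G U : Type) [Group G] [AddCommGroup U] [Module ℚ U] [DistribMulAction G U] (K : Core G U)
    (R : Multiset U), IsR K R → R.Nodup → R.card = 12 → OneRel R →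
    ∀ J : Multiset U, J ≤ R → J.card = 6 → J.sum = 0 → NoPair J →
    ∀ S : Multiset U, (∀ v ∈ S, v ∈ R) → S.sum = 0 → NoPair S → S ≠ 0 →
    ∃ (t : ℕ) (J' : Multiset U), 0 < t ∧ S = t • J' ∧ HexW K R J'

/-- (FNJ) all powers, times supersingular abelian varieties. -/
def Stmt_FNJ : Prop :=
  ∀ (p : ℕ) [Fact p.Prime] (a : ℕ) (ι : Qb →+* PadicAlgCl p), 0 < a →
    ∀ R T : Multiset Qb, IsAV (p ^ a) ι R → SixJ (p ^ a) ι R → PowOf (p ^ a) R T →
      TateW (p ^ a) ι T

end Pool.T4
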