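import Pool.Agent.Work.MP_223b32_t4.DefsV

/-!
# Abelian varieties of large angle rank, additivity of the angle rank
-/

namespace Pool.T4

open Pool.Agent.Work.MP_223b32_ag

variable {p : ℕ} [Fact p.Prime]

/-- The angle rank of the product of the abelian varieties with Weil numbers `R i` is the sum of the
angle ranks: if a product of elements of all the `R i` is a power of `q ^ (1 / 2)` up to a root of
unity, so is the product of the elements of each `R i`. -/
def AInd (q : ℕ) {n : ℕ} (R : Fin n → Multiset Qb) : Prop :=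
  ∀ S : Fin n → Multiset Qb, (∀ i, ∀ x ∈ S i, x ∈ R i) →
    Sim ((∑ i, S i).prod ^ 2) ((q : Qb) ^ (∑ i, S i).card) →
      ∀ i, Sim ((S i).prod ^ 2) ((q : Qb) ^ (S i).card)

/-- The angle rank is maximal: some `x i` in `R` have no multiplicative relation modulo powers of
`q` and roots of unity, and every element of `R` is supersingular or, up to roots of unity, one of
the `x i` or its complex conjugate. -/
def FullRank (q : ℕ) (R : Multiset Qb) : Prop :=
  ∃ (m : ℕ) (x : Fin m → Qb), (∀ i, x i ∈ R) ∧
    (∀ y ∈ R, SS q y ∨ ∃ i, Sim (x i) y ∨ Sim (x i * y) q) ∧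
    ∀ c : Fin m → ℤ, Sim (∏ i, x i ^ (2 * c i)) ((q : Qb) ^ (∑ i, c i)) → c = 0

/-- The angle rank is at least the dimension minus one: `m` elements of `R` have no multiplicative
relation modulo powers of `q` and roots of unity, `card R ≤ 2 m + 2`. -/
def SubRank (q : ℕ) (R : Multiset Qb) : Prop :=
  ∃ (m : ℕ) (x : Fin m → Qb), R.card ≤ 2 * m + 2 ∧ (∀ i, x i ∈ R) ∧
    ∀ c : Fin m → ℤ, Sim (∏ i, x i ^ (2 * c i)) ((q : Qb) ^ (∑ i, c i)) → c = 0

/-- The Weil numbers of an abelian variety of dimension at most seven, with different germs, whose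
angle rank is at least the dimension minus one; if there is an exceptional class (of `J`) on an
abelian variety of dimension six which is a factor (`R1`), then it satisfies one of the conditions
of `SixOK`. -/
def Seven (q : ℕ) (ι : Qb →+* PadicAlgCl p) (R : Multiset Qb) : Prop :=
  R.card ≤ 14 ∧ (R.map germ).Nodup ∧ SubRank q R ∧
    ∀ R1 J : Multiset Qb, J ≤ R1 → R1 ≤ R → IsAV q ι R1 → R1.card = 12 → J.card = 6 →
      Sim J.prod ((q : Qb) ^ 3) → (∀ x ∈ J, ∀ y ∈ J, ¬ Sim (x * y) q) →
      KSplit ι R1 ∨ SelfConj q ι R1 ∨ ¬ MidOne q ι R1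

end Pool.T4
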