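import Pool.Agent.Work.MP_223b32_t4.InterfaceV
import Pool.Agent.Work.MP_223b32_t4.DefsU

/-!
# Interface of the blocks for large angle rank and for additive angle ranks (helper9)
-/

namespace Pool.T4

open Pool.Agent.Work.MP_223b32_ag

/-- (LIU) `m` independent vectors

Proof. As `LIV.lean`: a half `P` of the nonzero vectors has `2 * P.card ≤ R.card ≤ 2 m + 2`. -/
def Stmt_LIU : Prop :=
  ∀ (G U : Type) [Group G] [AddCommGroup U] [Module ℚ U] [DistribMulAction G U] (K : Core G U)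
    (R : Multiset U), IsR K R → ∀ (m : ℕ) (v : Fin m → U), R.card ≤ 2 * m + 2 →
    (∀ i, v i ∈ R) → LinearIndependent ℚ v → OneRel R

/-- (ARU) independent Weil numbers: as `ARV.lean` with `Fin m` instead of `Fin 5`. -/
def Stmt_ARU : Prop :=
  ∀ (p : ℕ) [Fact p.Prime] (a : ℕ) (ι : Qb →+* PadicAlgCl p) (ρ : Qb →+* ℂ) (c : GQ),
    IsConj c ρ → 0 < a → Dict (p ^ a) ι → ∀ R : Multiset Qb, (∀ x ∈ R, Weil (p ^ a) x) →
    ∀ (m : ℕ) (x : Fin m → Qb), (∀ i, x i ∈ R) →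
    (∀ c : Fin m → ℤ, Sim (∏ i, x i ^ (2 * c i)) (((p ^ a : ℕ) : Qb) ^ (∑ i, c i)) → c = 0) →
    LinearIndependent ℚ fun i => uu (p ^ a) ι (x i)

/-- (EQU) a relation in different vectors, at most one relation

Proof. `S ≤ R` is nodup, `f v = count v S - count (-v) S` is in `{0, 1, -1}` and `f v = 1` iff `v ∈ S`
(NoPair; `0 ∉ R`: `IsR.ht` for `v = 0` says that `cnt 0 R` is even, and `R` is nodup).
`f` and `f (g⁻¹ • ·)` are relations on `R.toFinset`, so proportional (`OneRel`), `f ≠ 0`, so the factor is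
`1` or `-1`: `tr g S = S` or `tr g S = ng S`. `ng S ≠ S`: NoPair. -/
def Stmt_EQU : Prop :=
  ∀ (G U : Type) [Group G] [AddCommGroup U] [Module ℚ U] [DistribMulAction G U] (K : Core G U)
    (R : Multiset U), IsR K R → R.Nodup → OneRel R →
    ∀ S : Multiset U, S ≤ R → S.sum = 0 → NoPair S → S ≠ 0 →
    S.Nodup ∧ (∀ v ∈ S, v ≠ 0) ∧ (∀ g : G, tr g S = S ∨ tr g S = ng S) ∧ ng S ≠ S ∧
      S + ng S ≤ R

/-- (SXU) the abelian variety of a relation

Proof. SAV for `V = (J.map uu + ng (J.map uu)).toFinset`, which is stable. `R.map uu` is nodup (`Dict.sim`,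
germs), so `R1.map uu` is nodup and has exactly the elements of `V` (`v = uu x`, `x ∈ J ≤ R`, or
`v = - uu x = uu y` with `y ∈ R` as `R.map uu` is stable under `c`: `Dict.smul`, `cc` of `coreU`); also
`J.map uu + ng (J.map uu)` is nodup (NoPair and nonzero). -/
def Stmt_SXU : Prop :=
  ∀ (p : ℕ) [Fact p.Prime] (a : ℕ) (ι : Qb →+* PadicAlgCl p) (ρ : Qb →+* ℂ) (c : GQ)
    (_ : IsConj c ρ), 0 < a → Dict (p ^ a) ι → ∀ R J : Multiset Qb,
    IsAV (p ^ a) ι R → (R.map germ).Nodup → J ≤ R →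
    (∀ g : GQ, tr g (J.map (uu (p ^ a) ι)) = J.map (uu (p ^ a) ι) ∨
      tr g (J.map (uu (p ^ a) ι)) = ng (J.map (uu (p ^ a) ι))) →
    NoPair (J.map (uu (p ^ a) ι)) → (∀ v ∈ J.map (uu (p ^ a) ι), v ≠ 0) →
    ∃ R1 : Multiset Qb, R1 ≤ R ∧ J ≤ R1 ∧ IsAV (p ^ a) ι R1 ∧
      R1.map (uu (p ^ a) ι) = J.map (uu (p ^ a) ι) + ng (J.map (uu (p ^ a) ι))

/-- (FNU) abelian varieties of dimension at most seven

Proof. See `FNV.lean` and `F55.lean`. `S ≤ R`, RNW gives `J ≤ S`, `NoPair`, sum zero, `J.card` even. `J ≠ 0`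
(else `CycW.zero`). SubRank, ARU, LIU: `OneRel (R.map uu)`. EQU: `2 * J.card ≤ R.card ≤ 14`, so `J.card` is
`2`, `4` or `6`; `2` contradicts NoPair. SXU: `R1`, `R1.card = 2 * J.card`. If `J.card = 4`: FN1 for `R1`
(`J ≤ R1`, `Sim J.prod (q ^ 2)` by `Dict.sum`), MOW. If `J.card = 6`: `HexW` holds for `R1.map uu`, `J.map uu`
(`isR`: HTC for `R1`), the last property of `Seven`, CYV. -/
def Stmt_FNU : Prop :=
  ∀ (p : ℕ) [Fact p.Prime] (a : ℕ) (ι : Qb →+* PadicAlgCl p), 0 < a →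
    ∀ R : Multiset Qb, IsAV (p ^ a) ι R → Seven (p ^ a) ι R → TateW (p ^ a) ι R

/-- (NET) maximal angle rank

Proof. `S ≤ T`, RNW gives `J`; `FN2_split` as in `FNV.lean`: `J.map uu = S' + replicate z 0`. Every
`v ∈ S'` is `uu (x i)` or `-uu (x i)` (`Dict.sim`, `Dict.sum` for the pair). The sum of `S'` is
`∑ i, (count (uu (x i)) S' - count (-uu (x i)) S') • uu (x i) = 0`, ARU: the counts are equal, and one
of them is `0` by NoPair. So `S' = 0`, and `J = 0` as in `FNV.lean`. -/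
def Stmt_NET : Prop :=
  ∀ (p : ℕ) [Fact p.Prime] (a : ℕ) (ι : Qb →+* PadicAlgCl p), 0 < a →
    ∀ R T : Multiset Qb, IsAV (p ^ a) ι R → FullRank (p ^ a) R → PowOf (p ^ a) R T →
      TateW (p ^ a) ι T

/-- (PRU) products of powers, additive angle ranks: as PRW. -/
def Stmt_PRU : Prop :=
  ∀ (p : ℕ) [Fact p.Prime] (a : ℕ) (ι : Qb →+* PadicAlgCl p), 0 < a →
    ∀ (n : ℕ) (R : Fin n → Multiset Qb), (∀ i, IsAV (p ^ a) ι (R i)) →
      (∀ i, ∀ T, PowOf (p ^ a) (R i) T → TateW (p ^ a) ι T) → AInd (p ^ a) R →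
      ∀ T, PowOf (p ^ a) (∑ i, R i) T → TateW (p ^ a) ι T

/-- (IAU) independent abelian varieties have additive angle ranks

Proof. Let `u i` be the sum of `uu` over `S i`. `g i • u i = -u i`, `g i • u j = u j` for `j ≠ i` (see
`PRW.lean`, `PRW_two`), and `∑ j, u j = 0`. Apply `g i`: `∑ j, u j - 2 • u i = 0`. -/
def Stmt_IAU : Prop :=
  ∀ (p : ℕ) [Fact p.Prime] (a : ℕ) (ι : Qb →+* PadicAlgCl p), 0 < a → Dict (p ^ a) ι →
    ∀ (n : ℕ) (R : Fin n → Multiset Qb), (∀ i, ∀ x ∈ R i, Weil (p ^ a) x) →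
      Indep (p ^ a) R → AInd (p ^ a) R

end Pool.T4
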