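import Pool.Agent.Work.MP_223b32_t4.InterfaceU
import Pool.Agent.Work.MP_223b32_t4.LIV

/-! Block LIU: `m` independent vectors (after the block LIV of helper58). -/

set_option autoImplicit false

namespace Pool.T4

open Pool.Agent.Work.MP_223b32_ag

theorem p_LIU : Stmt_LIU := by
  intro G U _ _ _ _ K R hR m v hcard hv hli V hV f h hf hh
  classical
  have hnegR : ∀ u ∈ R, -u ∈ R := by
    intro u hu
    have h1 := hR.stable K.c0
    rw [← K.cc u, ← h1]
    exact Multiset.mem_map_of_mem _ hu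
  have hneg : ∀ u ∈ V, -u ∈ V := fun u hu => (hV _).2 (hnegR u ((hV u).1 hu))
  have hVc : V.card ≤ 2 * m + 2 := by
    have h1 : V = R.toFinset := by
      ext u
      rw [hV, Multiset.mem_toFinset]
    rw [h1]
    exact (Multiset.toFinset_card_le R).trans hcard
  obtain ⟨P, hPc, hcov, hsum⟩ := LIV_half V hneg
  -- relations on the half
  have hrel : ∀ f : U → ℤ, IsRel V f → ∑ p : ↥P, (f p : ℚ) • (p : U) = 0 := by
    intro f hf
    have h1 := hsum (fun v => f v • v) (smul_zero _)
    rw [hf.2.2] at h1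
    have h2 : ∑ v ∈ P, f (-v) • (-v) = ∑ v ∈ P, f v • v := by
      apply Finset.sum_congr rfl
      intro v _
      rw [hf.1, neg_smul_neg]
    rw [h2] at h1
    have h3 : (2 : ℚ) • ∑ v ∈ P, f v • v = 0 := by
      rw [two_smul, ← h1]
    have h4 : ∑ v ∈ P, f v • v = 0 := by
      rcases smul_eq_zero.1 h3 with h5 | h5
      · norm_num at h5
      · exact h5
    rw [Finset.sum_coe_sort P (fun v : U => (f v : ℚ) • v), ← h4]
    apply Finset.sum_congr rfl
    intro v _
    exact Int.cast_smul_eq_zsmul ℚ (f v) v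
  -- the linear map
  obtain ⟨L, hL⟩ : ∃ L : (↥P → ℚ) →ₗ[ℚ] U,
      L = Fintype.linearCombination ℚ (fun p : ↥P => (p : U)) := ⟨_, rfl⟩
  have hLa : ∀ c : ↥P → ℚ, L c = ∑ p, c p • (p : U) := by
    intro c
    rw [hL, Fintype.linearCombination_apply]
  have hspan : Submodule.span ℚ (Set.range v) ≤ LinearMap.range L := by
    rw [Submodule.span_le]
    rintro _ ⟨i, rfl⟩
    have hr : ∀ p ∈ P, p ∈ LinearMap.range L := by
      intro p hp
      rw [hL, Fintype.range_linearCombination]
      exact Submodule.subset_span ⟨⟨p, hp⟩, rfl⟩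
    rcases hcov (v i) ((hV _).2 (hv i)) (hli.ne_zero i) with h1 | h1
    · exact hr _ h1
    · have h2 := Submodule.neg_mem _ (hr _ h1)
      rw [neg_neg] at h2
      exact h2
  have h5 : m ≤ Module.finrank ℚ (LinearMap.range L) := by
    have h1 := finrank_span_eq_card hli
    have h2 := Submodule.finrank_mono hspan
    rw [Fintype.card_fin] at h1
    omega
  have h6 := LinearMap.finrank_range_add_finrank_ker L
  have h7 : Module.finrank ℚ (↥P → ℚ) = P.card := by
    rw [Module.finrank_fintype_fun_eq_card, Fintype.card_coe]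
  have hker : Module.finrank ℚ (LinearMap.ker L) ≤ 1 := by omega
  obtain ⟨w, hw⟩ := finrank_le_one_iff.1 hker
  have hprop : ∀ f : U → ℤ, IsRel V f → ∃ c : ℚ, ∀ p : ↥P, (f p : ℚ) = c * w.1 p := by
    intro f hf
    have h1 : (fun p : ↥P => (f p : ℚ)) ∈ LinearMap.ker L := by
      rw [LinearMap.mem_ker, hLa]
      exact hrel f hf
    obtain ⟨c, hc⟩ := hw ⟨_, h1⟩
    refine ⟨c, fun p => ?_⟩
    have h2 := congrFun (congrArg Subtype.val hc) p
    simp only [Submodule.coe_smul, Pi.smul_apply, smul_eq_mul] at h2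
    exact h2.symm
  obtain ⟨a, ha⟩ := hprop f hf
  obtain ⟨b, hb⟩ := hprop h hh
  have hPP : ∀ p ∈ P, ∀ q ∈ P, f p * h q = f q * h p := by
    intro p hp q hq
    have e : (f p : ℚ) * h q = f q * h p := by
      have h1 := ha ⟨p, hp⟩
      have h2 := ha ⟨q, hq⟩
      have h3 := hb ⟨p, hp⟩
      have h4 := hb ⟨q, hq⟩
      simp only at h1 h2 h3 h4
      rw [h1, h2, h3, h4]
      ring
    exact_mod_cast e
  have key : ∀ u, (f u = 0 ∧ h u = 0) ∨
      ∃ p ∈ P, (f u = f p ∧ h u = h p) ∨ (f u = -f p ∧ h u = -h p) := by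
    intro u
    by_cases hu : u ∈ V
    · by_cases h0 : u = 0
      · left
        have e1 := hf.1 u
        have e2 := hh.1 u
        rw [h0, neg_zero] at e1 e2
        rw [h0]
        constructor
        · omega
        · omega
      · right
        rcases hcov u hu h0 with h1 | h1
        · exact ⟨u, h1, Or.inl ⟨rfl, rfl⟩⟩
        · exact ⟨-u, h1, Or.inr ⟨by rw [hf.1, neg_neg], by rw [hh.1, neg_neg]⟩⟩
    · left
      exact ⟨hf.2.1 u hu, hh.2.1 u hu⟩
  intro u u'
  rcases key u with ⟨h1, h2⟩ | ⟨p, hp, ⟨h1, h2⟩ | ⟨h1, h2⟩⟩ <;>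
    rcases key u' with ⟨h3, h4⟩ | ⟨q, hq, ⟨h3, h4⟩ | ⟨h3, h4⟩⟩ <;>
    rw [h1, h2, h3, h4]
  · ring
  · ring
  · ring
  · exact hPP p hp q hq
  · have := hPP p hp q hq
    linear_combination -this
  · ring
  · have := hPP p hp q hq
    linear_combination -this
  · have := hPP p hp q hq
    linear_combination this

end Pool.T4
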