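import Pool.Agent.Work.MP_223b32_t4.InterfaceU
import Pool.Agent.Work.MP_223b32_t4.FN2
import Pool.Agent.Work.MP_223b32_t4.FN3
import Pool.Agent.Work.MP_223b32_t4.SGN

/-! # Block NET (helper58): maximal angle rank -/

set_option autoImplicit false

namespace Pool.T4

open Pool.Agent.Work.MP_223b32_ag

/-- signed independent vectors without opposite pairs have a sum different from zero -/
theorem NET_lin {U : Type} [AddCommGroup U] [Module ℚ U] {m : ℕ} (w : Fin m → U)
    (hw : LinearIndependent ℚ w) (S : Multiset U) (hS : ∀ v ∈ S, ∃ i, v = w i ∨ v = -w i)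
    (hnp : ∀ v ∈ S, -v ∉ S) (h0 : S.sum = 0) : S = 0 := by
  by_contra hne
  obtain ⟨v0, hv0⟩ := Multiset.exists_mem_of_ne_zero hne
  obtain ⟨ψ, hψ⟩ := LinearMap.exists_leftInverse_of_injective (Finsupp.linearCombination ℚ w)
    (LinearMap.ker_eq_bot.2 hw)
  have hψw : ∀ j, ψ (w j) = Finsupp.single j 1 := by
    intro j
    have h1 := LinearMap.congr_fun hψ (Finsupp.single j 1)
    rw [LinearMap.comp_apply, Finsupp.linearCombination_single, one_smul, LinearMap.id_apply] at h1
    exact h1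
  obtain ⟨i0, hi0⟩ := hS v0 hv0
  -- the sign of `v0`
  obtain ⟨e, he, hev⟩ : ∃ e : ℚ, (e = 1 ∧ v0 = w i0 ∨ e = -1 ∧ v0 = -w i0) ∧
      e * ψ v0 i0 = 1 := by
    rcases hi0 with h | h
    · refine ⟨1, Or.inl ⟨rfl, h⟩, ?_⟩
      rw [h, hψw]
      simp
    · refine ⟨-1, Or.inr ⟨rfl, h⟩, ?_⟩
      rw [h, map_neg, hψw]
      simp
  obtain ⟨φ, hφ⟩ : ∃ φ : U →+ ℚ, ∀ v, φ v = e * ψ v i0 :=
    ⟨{ toFun := fun v => e * ψ v i0
       map_zero' := by simp
       map_add' := fun x y => by
        rw [map_add, Finsupp.add_apply, mul_add] }, fun v => rfl⟩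
  have hnn : ∀ v ∈ S, 0 ≤ φ v := by
    intro v hv
    obtain ⟨j, hj⟩ := hS v hv
    by_cases hji : j = i0
    · rw [hji] at hj
      have hvv : v = v0 ∨ v = -v0 := by
        rcases hj with h | h <;> rcases he with ⟨_, h'⟩ | ⟨_, h'⟩
        · exact Or.inl (h.trans h'.symm)
        · exact Or.inr (by rw [h, h', neg_neg])
        · exact Or.inr (by rw [h, h'])
        · exact Or.inl (h.trans h'.symm)
      rcases hvv with h | h
      · rw [h, hφ, hev]
        exact zero_le_one
      · exfalso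
        rw [h] at hv
        exact hnp v0 hv0 hv
    · have h1 : φ (w j) = 0 := by
        rw [hφ, hψw, Finsupp.single_apply, if_neg hji, mul_zero]
      rcases hj with h | h
      · rw [h, h1]
      · rw [h, map_neg, h1, neg_zero]
  obtain ⟨S1, hS1⟩ := Multiset.exists_cons_of_mem hv0
  have h1 : φ S.sum = φ v0 + (S1.map φ).sum := by
    rw [hS1, Multiset.sum_cons, map_add, map_multiset_sum]
  rw [h0, map_zero, hφ, hev] at h1
  have h2 : 0 ≤ (S1.map φ).sum := by
    apply Multiset.sum_nonneg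
    intro y hy
    obtain ⟨v, hv, rfl⟩ := Multiset.mem_map.1 hy
    exact hnn v (by rw [hS1]; exact Multiset.mem_cons_of_mem hv)
  linarith

theorem p_NET (hRHO : Stmt_RHO) (hCCJ : Stmt_CCJ) (hDIC : Stmt_DIC) (hRNW : Stmt_RNW)
    (hARU : Stmt_ARU) : Stmt_NET := by
  classical
  intro p _ a ι ha R T hR hF hI S j hST hSc hSs
  have hq : 0 < p ^ a := pow_pos (Fact.out (p := p.Prime)).pos a
  have hd := hDIC p a ι ha
  obtain ⟨ρ⟩ := hRHO
  obtain ⟨c, hc⟩ := hCCJ ρ
  obtain ⟨m, x, hxR, hcov, hind⟩ := hF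
  have hTw : ∀ x ∈ T, Weil (p ^ a) x := fun x hx => by
    rcases hI x hx with h | ⟨y, hy, N, hN, h⟩
    · exact FN2_weil_of_ss hq h
    · exact FN2_weil_of_pow hN (hR.weil y hy) h
  have hSw : ∀ x ∈ S, Weil (p ^ a) x := fun x hx => hTw x (Multiset.mem_of_le hST hx)
  obtain ⟨J, hJS, hJnp, hJsum, hJev, hJcyc⟩ := hRNW p a ι ha hd S hSw
  refine hJcyc ?_
  have hS0 : (S.map (uu (p ^ a) ι)).sum = 0 := by
    rw [hd.sum S hSw, hSc]
    exact FN2_sim' hSs
  rw [hS0] at hJsum
  have hJe : Even J.card := hJev.2 ⟨j, by rw [hSc]; ring⟩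
  obtain ⟨S', z, hJ', hnz, hsum⟩ := FN2_split (J.map (uu (p ^ a) ι))
  rw [hJsum] at hsum
  have hS'le : S' ≤ J.map (uu (p ^ a) ι) := by rw [hJ']; exact Multiset.le_add_right _ _
  have hS'np : NoPair S' := FN2_noPair hS'le hJnp
  have hcardJ : J.card = S'.card + z := by
    have h1 := congrArg Multiset.card hJ'
    rwa [Multiset.card_map, Multiset.card_add, Multiset.card_replicate] at h1
  have hli := hARU p a ι ρ c hc ha hd R (fun x hx => hR.weil x hx) m x hxR hind
  have hR' : ∀ v ∈ S', ∃ i, v = uu (p ^ a) ι (x i) ∨ v = -uu (p ^ a) ι (x i) := fun v hv => by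
    obtain ⟨y, hy, rfl⟩ := Multiset.mem_map.1 (Multiset.mem_of_le hS'le hv)
    have hyT : y ∈ T := Multiset.mem_of_le (hJS.trans hST) hy
    rcases hI y hyT with h | ⟨y', hy', h⟩
    · exact absurd ((hd.ss y (hTw y hyT)).1 h) (hnz _ hv)
    · have hyy : uu (p ^ a) ι y = uu (p ^ a) ι y' := (hd.sim y y' (hTw y hyT) (hR.weil y' hy')).1 h
      rcases hcov y' hy' with h1 | ⟨i, h1 | h1⟩
      · exact absurd (hyy.trans ((hd.ss y' (hR.weil y' hy')).1 h1)) (hnz _ hv)
      · refine ⟨i, Or.inl ?_⟩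
        rw [hyy]
        exact ((hd.sim _ _ (hR.weil _ (hxR i)) (hR.weil y' hy')).1 h1).symm
      · refine ⟨i, Or.inr ?_⟩
        rw [hyy]
        have h3 : ((({x i, y'} : Multiset Qb)).map (uu (p ^ a) ι)).sum = 0 := by
          rw [hd.sum _ (by
            intro z hz
            simp only [Multiset.insert_eq_cons, Multiset.mem_cons, Multiset.mem_singleton] at hz
            rcases hz with rfl | rfl
            · exact hR.weil _ (hxR i)
            · exact hR.weil _ hy')]
          have h4 : Sim (x i * y') (((p ^ a : ℕ) : Qb) ^ 1) := by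
            rw [pow_one]
            exact h1
          have h5 := FN2_sim' h4
          simpa using h5
        have h4 : uu (p ^ a) ι (x i) + uu (p ^ a) ι y' = 0 := by simpa using h3
        exact (neg_eq_of_add_eq_zero_right h4).symm
  have hS'0 : S' = 0 := NET_lin _ hli S' hR' (fun v hv => SGN_notMem hS'np hv (hnz v hv)) hsum
  have h1 : J = 0 := by
    rw [← Multiset.card_eq_zero]
    have hz : z ≤ 1 := by
      by_contra hz
      push Not at hz
      refine hJnp 0 0 ?_ (add_zero 0)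
      rw [hJ']
      refine le_trans ?_ (Multiset.le_add_left _ _)
      have h1 : ({0, 0} : Multiset (UU ι)) = Multiset.replicate 2 0 := rfl
      rw [h1]
      exact (Multiset.replicate_le_replicate (0 : UU ι)).2 hz
    rw [hS'0, Multiset.card_zero, zero_add] at hcardJ
    obtain ⟨k, hk⟩ := hJe
    omega
  rw [h1]
  exact CycW.zero

end Pool.T4
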