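import Pool.Agent.Work.MP_223b32_t4.InterfaceU
import Pool.Agent.Work.MP_223b32_t4.PRW

/-! # Block PRU: products of powers, additive angle ranks -/

set_option autoImplicit false

namespace Pool.T4

open Pool.Agent.Work.MP_223b32_ag

section

variable {p : ℕ} [Fact p.Prime] {ι : Qb →+* PadicAlgCl p}

theorem PRU_lift {q : ℕ} (hd : Dict q ι) {R : Multiset Qb} (hW : ∀ x ∈ R, Weil q x)
    (S : Multiset Qb) : (∀ x ∈ S, Weil q x) → (∀ x ∈ S, SS q x ∨ ∃ y ∈ R, Sim x y) →
    ∃ A : Multiset Qb, (∀ y ∈ A, y ∈ R) ∧ (A.map (uu q ι)).sum = (S.map (uu q ι)).sum := by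
  induction S using Multiset.induction_on with
  | empty =>
    intro _ _
    exact ⟨0, fun y hy => absurd hy (Multiset.notMem_zero y), rfl⟩
  | cons x S ih =>
    intro hS h
    obtain ⟨A, hA, hs⟩ := ih (fun y hy => hS y (Multiset.mem_cons_of_mem hy))
      (fun y hy => h y (Multiset.mem_cons_of_mem hy))
    have hx := hS x (Multiset.mem_cons_self x S)
    rcases h x (Multiset.mem_cons_self x S) with h1 | ⟨y, hy, h1⟩
    · refine ⟨A, hA, ?_⟩
      rw [Multiset.map_cons, Multiset.sum_cons, (hd.ss x hx).1 h1, zero_add, hs]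
    · refine ⟨y ::ₘ A, ?_, ?_⟩
      · intro z hz
        rcases Multiset.mem_cons.1 hz with h2 | h2
        · rw [h2]; exact hy
        · exact hA z h2
      · rw [Multiset.map_cons, Multiset.sum_cons, Multiset.map_cons, Multiset.sum_cons,
          (hd.sim x y hx (hW y hy)).1 h1, hs]

theorem PRU_dec {n : ℕ} (R : Fin n → Multiset Qb) (s : Finset (Fin n)) (B : Multiset Qb) :
    (∀ x ∈ B, ∃ j ∈ s, x ∈ R j) → ∃ C : Fin n → Multiset Qb, (∀ j, ∀ x ∈ C j, x ∈ R j) ∧
      (∀ j, j ∉ s → C j = 0) ∧ ∑ j, C j = B := by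
  classical
  induction B using Multiset.induction_on with
  | empty =>
    intro _
    exact ⟨fun _ => 0, fun j x hx => absurd hx (Multiset.notMem_zero x), fun _ _ => rfl,
      Finset.sum_const_zero⟩
  | cons a B ih =>
    intro h
    obtain ⟨C, h1, h2, h3⟩ := ih fun x hx => h x (Multiset.mem_cons_of_mem hx)
    obtain ⟨j, hj, haj⟩ := h a (Multiset.mem_cons_self a B)
    refine ⟨fun i => C i + if i = j then {a} else 0, ?_, ?_, ?_⟩
    · intro i x hx
      rcases Multiset.mem_add.1 hx with hx | hx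
      · exact h1 i x hx
      · by_cases hij : i = j
        · rw [if_pos hij, Multiset.mem_singleton] at hx
          rw [hx, hij]
          exact haj
        · rw [if_neg hij] at hx
          exact absurd hx (Multiset.notMem_zero x)
    · intro i hi
      have hij : i ≠ j := by
        rintro rfl
        exact hi hj
      show C i + (if i = j then {a} else 0) = 0
      rw [if_neg hij, h2 i hi, add_zero]
    · rw [Finset.sum_add_distrib, h3, Finset.sum_ite_eq', if_pos (Finset.mem_univ j), add_comm,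
        Multiset.singleton_add]

theorem PRU_two {q : ℕ} (hq : 0 < q) (hd : Dict q ι) {R1 R2 : Multiset Qb}
    (hW1 : ∀ x ∈ R1, Weil q x) (hW2 : ∀ x ∈ R2, Weil q x)
    (hA : ∀ A B : Multiset Qb, (∀ x ∈ A, x ∈ R1) → (∀ x ∈ B, x ∈ R2) →
      (A.map (uu q ι)).sum + (B.map (uu q ι)).sum = 0 → (A.map (uu q ι)).sum = 0)
    (h1 : PRW_Pow q ι R1) (h2 : PRW_Pow q ι R2) : PRW_Pow q ι (R1 + R2) := by
  classical
  intro T hT S j hST hSc hSs
  obtain ⟨s, hs, hsw⟩ := CYD_sqrt q hq
  have hss : Sim (s * s) (q : Qb) := by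
    rw [← sq, hs]
    exact ⟨1, one_pos, rfl⟩
  have hsS : SS q s := by
    unfold SS
    rw [hs]
    exact ⟨1, one_pos, rfl⟩
  have hus : uu q ι s = 0 := (hd.ss s hsw).1 hsS
  have hTw : ∀ x ∈ T, Weil q x := fun x hx => by
    rcases hT x hx with h | ⟨y, hy, N, hN, h⟩
    · exact FN2_weil_of_ss hq h
    · refine FN2_weil_of_pow hN ?_ h
      rcases Multiset.mem_add.1 hy with hy | hy
      · exact hW1 y hy
      · exact hW2 y hy
  have hSw : ∀ x ∈ S, Weil q x := fun x hx => hTw x (Multiset.mem_of_le hST hx)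
  obtain ⟨S1, hS1⟩ : ∃ S1, S1 = S.filter fun x => ∃ y ∈ R1, Sim x y := ⟨_, rfl⟩
  obtain ⟨S2, hS2⟩ : ∃ S2, S2 = S.filter fun x => ¬ ∃ y ∈ R1, Sim x y := ⟨_, rfl⟩
  have hS : S1 + S2 = S := by
    rw [hS1, hS2]
    exact Multiset.filter_add_not _ S
  have hS1w : ∀ x ∈ S1, Weil q x := fun x hx => hSw x (by
    rw [← hS]
    exact Multiset.mem_add.2 (Or.inl hx))
  have hS2w : ∀ x ∈ S2, Weil q x := fun x hx => hSw x (by
    rw [← hS]
    exact Multiset.mem_add.2 (Or.inr hx))
  have hP1 : ∀ x ∈ S1, ∃ y ∈ R1, Sim x y := by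
    intro x hx
    rw [hS1] at hx
    exact (Multiset.mem_filter.1 hx).2
  have hP2 : ∀ x ∈ S2, SS q x ∨ ∃ y ∈ R2, Sim x y := by
    intro x hx
    rw [hS2] at hx
    have h3 := Multiset.mem_filter.1 hx
    rcases hT x (Multiset.mem_of_le hST h3.1) with h | ⟨y, hy, h⟩
    · exact Or.inl h
    · rcases Multiset.mem_add.1 hy with hy | hy
      · exact absurd ⟨y, hy, h⟩ h3.2
      · exact Or.inr ⟨y, hy, h⟩
  have hsum : (S1.map (uu q ι)).sum + (S2.map (uu q ι)).sum = 0 := by
    rw [← Multiset.sum_add, ← Multiset.map_add, hS, hd.sum S hSw, hSc]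
    exact FN2_sim' hSs
  have h10 : (S1.map (uu q ι)).sum = 0 := by
    obtain ⟨A, hA1, hA2⟩ := PRU_lift hd hW1 S1 hS1w fun x hx => Or.inr (hP1 x hx)
    obtain ⟨B, hB1, hB2⟩ := PRU_lift hd hW2 S2 hS2w hP2
    rw [← hA2]
    exact hA A B hA1 hB1 (by rw [hA2, hB2]; exact hsum)
  have h20 : (S2.map (uu q ι)).sum = 0 := by
    rw [h10, zero_add] at hsum
    exact hsum
  have hPow1 : ∀ k : ℕ, PowOf q R1 (S1 + Multiset.replicate k s) := by
    intro k x hx
    rcases Multiset.mem_add.1 hx with h | h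
    · exact Or.inr (hP1 x h)
    · rw [Multiset.eq_of_mem_replicate h]
      exact Or.inl hsS
  have hPow2 : ∀ k : ℕ, PowOf q R2 (S2 + Multiset.replicate k s) := by
    intro k x hx
    rcases Multiset.mem_add.1 hx with h | h
    · exact hP2 x h
    · rw [Multiset.eq_of_mem_replicate h]
      exact Or.inl hsS
  have hww : ∀ (A : Multiset Qb) (k : ℕ), (∀ x ∈ A, Weil q x) →
      ∀ x ∈ A + Multiset.replicate k s, Weil q x := by
    intro A k hA x hx
    rcases Multiset.mem_add.1 hx with h | h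
    · exact hA x h
    · rw [Multiset.eq_of_mem_replicate h]
      exact hsw
  have hss0 : ∀ (A : Multiset Qb) (k : ℕ), (A.map (uu q ι)).sum = 0 →
      ((A + Multiset.replicate k s).map (uu q ι)).sum = 0 := by
    intro A k hA
    rw [Multiset.map_add, Multiset.sum_add, hA, Multiset.map_replicate, hus,
      Multiset.sum_replicate, smul_zero, add_zero]
  have hcc : S1.card + S2.card = 2 * j := by
    rw [← Multiset.card_add, hS, hSc]
  rcases Nat.even_or_odd' S1.card with ⟨k, hk | hk⟩
  · have e1 := PRW_tate hd (hww S1 0 hS1w) (h1 _ (hPow1 0)) (j := k) (by simp [hk])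
      (hss0 S1 0 h10)
    have e2 := PRW_tate hd (hww S2 0 hS2w) (h2 _ (hPow2 0)) (j := j - k) (by
      simp only [Multiset.replicate_zero, add_zero]
      omega) (hss0 S2 0 h20)
    rw [Multiset.replicate_zero, add_zero] at e1 e2
    rw [← hS]
    exact CycW.join _ _ e1 e2
  · have e1 := PRW_tate hd (hww S1 1 hS1w) (h1 _ (hPow1 1)) (j := k + 1) (by
      rw [Multiset.card_add, Multiset.card_replicate, hk]
      omega) (hss0 S1 1 h10)
    have e2 := PRW_tate hd (hww S2 1 hS2w) (h2 _ (hPow2 1)) (j := j - k) (by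
      rw [Multiset.card_add, Multiset.card_replicate]
      omega) (hss0 S2 1 h20)
    have e3 := CycW.join _ _ e1 e2
    rw [← hS]
    refine CycW.cancel (S1 + S2) s s hsw hss ?_
    have e4 : S1 + S2 + {s, s} = S1 + Multiset.replicate 1 s + (S2 + Multiset.replicate 1 s) := by
      have e5 : ({s, s} : Multiset Qb) = Multiset.replicate 1 s + Multiset.replicate 1 s := rfl
      rw [e5]
      abel
    rw [e4]
    exact e3

theorem PRU_family {q : ℕ} (hq : 0 < q) (hd : Dict q ι) {n : ℕ} (R : Fin n → Multiset Qb)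
    (hW : ∀ i, ∀ x ∈ R i, Weil q x) (hA : AInd q R)
    (hT : ∀ i, PRW_Pow q ι (R i)) (s : Finset (Fin n)) : PRW_Pow q ι (∑ i ∈ s, R i) := by
  classical
  induction s using Finset.induction_on with
  | empty =>
    intro T hT S j hST hSc _
    refine PRW_zero hq j S hSc fun x hx => ?_
    rcases hT x (Multiset.mem_of_le hST hx) with h | ⟨y, hy, _⟩
    · exact h
    · rw [Finset.sum_empty] at hy
      exact absurd hy (Multiset.notMem_zero y)
  | insert i s hi ih =>
    rw [Finset.sum_insert hi]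
    refine PRU_two hq hd (hW i) ?_ ?_ (hT i) ih
    · intro x hx
      obtain ⟨j, _, hj⟩ := Multiset.mem_sum.1 hx
      exact hW j x hj
    · intro A B hAi hB hAB
      obtain ⟨C, hC1, hC2, hC3⟩ := PRU_dec R s B fun x hx => by
        obtain ⟨j, hj, hx⟩ := Multiset.mem_sum.1 (hB x hx)
        exact ⟨j, hj, hx⟩
      obtain ⟨S, hS⟩ : ∃ S : Fin n → Multiset Qb, S = fun j => C j + if j = i then A else 0 :=
        ⟨_, rfl⟩
      have hSR : ∀ j, ∀ x ∈ S j, x ∈ R j := by
        intro j x hx
        rw [hS] at hx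
        rcases Multiset.mem_add.1 hx with h | h
        · exact hC1 j x h
        · by_cases hji : j = i
          · rw [if_pos hji] at h
            rw [hji]
            exact hAi x h
          · rw [if_neg hji] at h
            exact absurd h (Multiset.notMem_zero x)
      have hsumS : ∑ j, S j = B + A := by
        rw [hS]
        show ∑ j, (C j + if j = i then A else 0) = B + A
        rw [Finset.sum_add_distrib, hC3, Finset.sum_ite_eq', if_pos (Finset.mem_univ i)]
      have hSi : S i = A := by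
        rw [hS]
        show C i + (if i = i then A else 0) = A
        rw [if_pos rfl, hC2 i hi, zero_add]
      have hWS : ∀ x ∈ ∑ j, S j, Weil q x := by
        intro x hx
        obtain ⟨j, _, hj⟩ := Multiset.mem_sum.1 hx
        exact hW j x (hSR j x hj)
      have h1 : Sim ((∑ j, S j).prod ^ 2) ((q : Qb) ^ (∑ j, S j).card) := by
        refine (hd.sum _ hWS).1 ?_
        rw [hsumS, Multiset.map_add, Multiset.sum_add, add_comm]
        exact hAB
      have h2 := hA S hSR h1 i
      rw [hSi] at h2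
      exact (hd.sum A fun x hx => hW i x (hAi x hx)).2 h2

end

theorem p_PRU (hDIC : Stmt_DIC) : Stmt_PRU := by
  intro p _ a ι ha n R hR hT hI
  have hq : 0 < p ^ a := pow_pos (Fact.out (p := p.Prime)).pos a
  exact PRU_family hq (hDIC p a ι ha) R (fun i => (hR i).weil) hI hT Finset.univ

end Pool.T4
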