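import Pool.Agent.Work.MP_223b32_t4.Assembly11
import Pool.Agent.Work.MP_223b32_t4.DefsFin3
import Pool.Agent.Work.MP_223b32_t4.InterfaceU
import Pool.Agent.Work.MP_223b32_t4.InterfaceJ
import Pool.Agent.Work.MP_223b32_t4.ARU
import Pool.Agent.Work.MP_223b32_t4.LIU
import Pool.Agent.Work.MP_223b32_t4.NET
import Pool.Agent.Work.MP_223b32_t4.IAU
import Pool.Agent.Work.MP_223b32_t4.EQU
import Pool.Agent.Work.MP_223b32_t4.PRU
import Pool.Agent.Work.MP_223b32_t4.EQJ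
import Pool.Agent.Work.MP_223b32_t4.FNJ
import Pool.Agent.Work.MP_223b32_t4.SXU
import Pool.Agent.Work.MP_223b32_t4.FNU

/-! # Assembly of the final theorem, version 3 -/

namespace Pool.T4

open Pool.Agent.Work.MP_223b32_ag

/-- Independent abelian varieties have additive angle ranks. -/
theorem aind_of_indep (p : ℕ) [Fact p.Prime] (a : ℕ) (ι : Qb →+* PadicAlgCl p) (ha : 0 < a)
    (n : ℕ) (R : Fin n → Multiset Qb) (hR : ∀ i, ∀ x ∈ R i, Weil (p ^ a) x)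
    (hI : Indep (p ^ a) R) : AInd (p ^ a) R := by
  have hCCJ := p_CCJ
  have hRHO := p_RHO
  have hDIC := p_DIC (p_UME hCCJ hRHO) (p_SUM p_KRO hRHO) hCCJ hRHO
  exact p_IAU p a ι ha (hDIC p a ι ha) n R hR hI

theorem blocks12 : Stmt_FN1 ∧ Stmt_CYV := by
  have hCCJ := p_CCJ
  have hRHO := p_RHO
  have hHLF := p_HLF hCCJ hRHO
  have hTNS := p_TNS hHLF
  have hTSP := p_TSP
  have hBLD := p_BLD p_PHI hHLF hCCJ hRHO
  have hMKX := p_MKX (p_MKA p_SGN) hBLD hHLF hTSP hTNS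
  have hCYD := p_CYD hMKX p_GLU p_PMN
  have hRTX := p_RTX hCCJ hRHO
  have hCYM := p_CYM (p_EIS p_RST) hRTX p_GLU
  have hDIC := p_DIC (p_UME hCCJ hRHO) (p_SUM p_KRO hRHO) hCCJ hRHO
  have hRQU := p_RQU (p_QUD hCCJ hRHO)
  have h1 := p_FN1 p_CAR p_SGN p_MUL hCYD hCYM hRQU p_RNP p_HTC hDIC hCCJ hRHO
  have hMXV := p_MXV p_MKW hBLD hHLF hTSP p_PHW (p_SGV p_HEV p_TPV hHLF) p_PHV
  exact ⟨h1, p_CYV hMXV hRQU⟩

/-- The final theorem, version 3. -/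
theorem main12 (p : ℕ) [Fact p.Prime] (a : ℕ) (ι : Qb →+* PadicAlgCl p) (ha : 0 < a)
    (T : Multiset Qb) (hT : Covered3 (p ^ a) ι T) :
    TateW (p ^ a) ι T ∧
      ∀ (ρ : Qb →+* ℂ) (V : Type) [AddCommGroup V] [Module ℂ V] [Module.Finite ℂ V]
      (F : Module.End ℂ V), F.IsSemisimple →
      F.charpoly = (T.map fun x => Polynomial.X - Polynomial.C (ρ x)).prod →
      ∀ N j : ℕ, 0 < N →
        tateClasses (F ^ N) (((p ^ a : ℕ) : ℂ) ^ N) j ≤ algClassesW (p ^ a) ι ρ F j ∧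
        HasPoleOrder (Lfun (F ^ N) (((p ^ a : ℕ) : ℝ) ^ N) j) j
          (Module.finrank ℂ (tateClasses (F ^ N) (((p ^ a : ℕ) : ℂ) ^ N) j)) := by
  obtain ⟨hF1, hCYV⟩ := blocks12
  have hCCJ := p_CCJ
  have hRHO := p_RHO
  have hDIC := p_DIC (p_UME hCCJ hRHO) (p_SUM p_KRO hRHO) hCCJ hRHO
  have hARU := p_ARU
  have hLIU := p_LIU
  have hEQU := p_EQU
  have hF : ∀ R, Factor3 (p ^ a) ι R →
      IsAV (p ^ a) ι R ∧ ∀ T, PowOf (p ^ a) R T → TateW (p ^ a) ι T := by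
    intro R hR
    rcases hR with h | ⟨h1, h | h⟩
    · have h1 : IsAV (p ^ a) ι R := by
        rcases h with ⟨⟨g, -⟩, -⟩ | ⟨g, -⟩
        · exact g
        · exact g
      refine ⟨h1, fun T hT => ?_⟩
      refine (main11 p a ι ha T (Or.inr (Or.inr ⟨1, fun _ => R, fun _ => h, Or.inl rfl, ?_⟩))).1
      have h2 : ∑ _i : Fin 1, R = R := by simp
      rwa [h2]
    · exact ⟨h1, fun T hT => p_NET hRHO hCCJ hDIC p_RNW hARU p a ι ha R T h1 h hT⟩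
    · exact ⟨h1, fun T hT => p_FNJ (p_EQJ hEQU) hLIU hARU hCYV p_RNW p_CSW p_HTC hDIC hCCJ hRHO
        p a ι ha R T h1 h hT⟩
  have h : TateW (p ^ a) ι T := by
    rcases hT with g | g | ⟨n, R, g1, g2, g3⟩ | ⟨g1, g2⟩
    · exact (main11 p a ι ha T (Or.inl g)).1
    · exact (main11 p a ι ha T (Or.inr (Or.inl g))).1
    · exact p_PRU hDIC p a ι ha n R (fun i => (hF _ (g1 i)).1) (fun i => (hF _ (g1 i)).2) g2 T g3
    · exact p_FNU hRHO hCCJ hDIC p_HTC p_RNW hARU hLIU hEQU (p_SXU p_SAV) hF1 p_MOW hCYV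
        p a ι ha T g1 g2
  exact ⟨h, fun ρ V _ _ _ F hF hch N j hN => p_SPW p a ι ha T h ρ V F hF hch N j hN⟩

end Pool.T4
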