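import Pool.Agent.Work.MP_223b32_t4.Interface

/-! # Block BLD: the CM type -/

namespace Pool.T4

theorem BLD_norm_p {p : ℕ} [Fact p.Prime] : ‖((p : ℕ) : PadicAlgCl p)‖ = (p : ℝ)⁻¹ := by
  have h1 := PadicAlgCl.norm_extends p ((p : ℕ) : ℚ_[p])
  rw [Padic.norm_p] at h1
  rw [← h1]
  congr 1

theorem BLD_norm_q {p : ℕ} [Fact p.Prime] (a : ℕ) (ι : Qb →+* PadicAlgCl p) :
    ‖ι (((p ^ a : ℕ) : Qb))‖ = ((p ^ a : ℕ) : ℝ)⁻¹ := by
  rw [map_natCast, Nat.cast_pow, norm_pow, BLD_norm_p, Nat.cast_pow, inv_pow]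

theorem BLD_sim_norm {p : ℕ} [Fact p.Prime] (ι : Qb →+* PadicAlgCl p) {x y : Qb} (h : Sim x y) :
    ‖ι x‖ = ‖ι y‖ := by
  obtain ⟨N, hN, e⟩ := h
  have h1 : ‖ι x‖ ^ N = ‖ι y‖ ^ N := by
    rw [← norm_pow, ← norm_pow, ← map_pow, ← map_pow, e]
  exact (pow_left_inj₀ (norm_nonneg _) (norm_nonneg _) hN.ne').1 h1

theorem BLD_orb_smul {p : ℕ} [Fact p.Prime] (ι : Qb →+* PadicAlgCl p) {X : Type}
    [MulAction GQ X] {d : GQ} (hd : d ∈ dec ι) (x : X) : locOrb ι (d • x) = locOrb ι x := by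
  ext y
  constructor
  · rintro ⟨g, hg, rfl⟩
    exact ⟨g * d, mul_mem hg hd, (mul_smul g d x).symm⟩
  · rintro ⟨g, hg, rfl⟩
    exact ⟨g * d⁻¹, mul_mem hg (inv_mem hd), by rw [mul_smul, inv_smul_smul]⟩

theorem BLD_orb_c {p : ℕ} [Fact p.Prime] (ι : Qb →+* PadicAlgCl p) {X : Type}
    [MulAction GQ X] (c : X → X) (hcc : ∀ x, c (c x) = x)
    (hcg : ∀ (g : GQ) (x : X), c (g • x) = g • c x) (x : X) :
    (locOrb ι (c x)).ncard = (locOrb ι x).ncard := by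
  have hinj : Function.Injective c := fun u v h => by rw [← hcc u, h, hcc]
  have h1 : locOrb ι (c x) = c '' locOrb ι x := by
    ext y
    constructor
    · rintro ⟨g, hg, rfl⟩
      exact ⟨g • x, ⟨g, hg, rfl⟩, hcg g x⟩
    · rintro ⟨z, ⟨g, hg, rfl⟩, rfl⟩
      exact ⟨g, hg, hcg g x⟩
  rw [h1, Set.ncard_image_of_injective _ hinj]

theorem p_BLD (hPHI : Stmt_PHI) (hHLF : Stmt_HLF) (hCCJ : Stmt_CCJ) (hRHO : Stmt_RHO) :
    Stmt_BLD := by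
  intro p _ a ι ha hD X _ _ r m A hn
  have hp1 : (1 : ℝ) < p := by exact_mod_cast (Fact.out : p.Prime).one_lt
  obtain ⟨Q, hQ⟩ : ∃ Q : ℝ, Q = ((p ^ a : ℕ) : ℝ) := ⟨_, rfl⟩
  have hQ1 : (1 : ℝ) < Q := by
    rw [hQ, Nat.cast_pow]; exact one_lt_pow₀ hp1 ha.ne'
  have hQ0 : (0 : ℝ) < Q := lt_trans one_pos hQ1
  have hinjQ : ∀ n n' : ℕ, Q ^ n = Q ^ n' → n = n' := fun n n' h =>
    pow_right_injective₀ hQ0 hQ1.ne' h
  choose n hn using hn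
  rw [← hQ] at hn
  obtain ⟨-, hcc, -, hcg, -⟩ := hHLF (p ^ a) X r m A
  obtain ⟨ρ⟩ := hRHO
  obtain ⟨g, hg⟩ := hCCJ ρ
  have hqn : ‖ι (((p ^ a : ℕ) : Qb))‖ = Q⁻¹ := by rw [BLD_norm_q, hQ]
  -- the product of the norms
  have hprod : ∀ x, ‖ι (A.al x)‖ * ‖ι (A.al (A.c x))‖ = Q⁻¹ := by
    intro x
    have h1 : A.al x * g (A.al x) = ((p ^ a : ℕ) : Qb) := hD.conj _ (A.weil x) ρ g hg
    have h2 : ‖ι (A.al (A.c x))‖ = ‖ι (g (A.al x))‖ := by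
      rw [← A.conj ρ g hg x]
      exact BLD_sim_norm ι (A.al_smul g x)
    rw [h2, ← norm_mul, ← map_mul, h1, hqn]
  have hne : ∀ x, ‖ι (A.al x)‖ ≠ 0 := by
    intro x h0
    have h1 := hprod x
    rw [h0, zero_mul] at h1
    exact (inv_pos.2 hQ0).ne h1
  obtain ⟨Phi, h1, h2⟩ := hPHI GQ X (dec ι) A.c n hcc A.c_ne (fun d _ x => hcg d x)
    (by
      intro d hd x
      have e1 := hn (d • x)
      have e2 := hn x
      rw [BLD_orb_smul ι hd] at e1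
      have e3 : ‖ι (A.al (d • x))‖ = ‖ι (A.al x)‖ := by
        rw [BLD_sim_norm ι (A.al_smul d x)]
        exact hd (A.al x)
      rw [e3] at e1
      exact hinjQ _ _ (mul_left_cancel₀ (pow_ne_zero _ (hne x)) (e1.trans e2.symm)))
    (by
      intro x
      have e1 := hn x
      have e2 := hn (A.c x)
      rw [BLD_orb_c ι A.c hcc hcg] at e2
      show n x + n (A.c x) = (locOrb ι x).ncard
      apply hinjQ
      have e3 : (‖ι (A.al x)‖ * ‖ι (A.al (A.c x))‖) ^ (locOrb ι x).ncard *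
          Q ^ (n x + n (A.c x)) = 1 := by
        calc _ = (‖ι (A.al x)‖ ^ (locOrb ι x).ncard * Q ^ n x) *
            (‖ι (A.al (A.c x))‖ ^ (locOrb ι x).ncard * Q ^ n (A.c x)) := by ring
          _ = 1 := by rw [e1, e2, one_mul]
      rw [hprod, inv_pow] at e3
      have hQM : Q ^ (locOrb ι x).ncard ≠ 0 := pow_ne_zero _ hQ0.ne'
      field_simp at e3
      exact e3)
  refine ⟨{ toCMAlg := A, Phi := Phi, type := h1, st := ?_ }, rfl⟩
  intro x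
  have e := h2 x
  have e' : (Phi ∩ locOrb ι x).ncard = n x := e
  rw [e', ← hQ]
  exact hn x

end Pool.T4
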