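import Pool.Agent.Work.MP_223b32_t4.DE5

/-! # Block CA5 -/

set_option autoImplicit false

namespace Pool.T4

theorem CA5_key {G U : Type} [Group G] [AddCommGroup U] [Module ℚ U] [DistribMulAction G U]
    (K : Core G U) (R : Multiset U) (hR : IsR K R) (s t : U) (hs : s ∈ R) (hc : cnt s R = 1)
    (ho : ∀ d ∈ K.D, d • s = s ∨ d • s = -s ∨ d • s = t ∨ d • s = -t) :
    ∃ m : ℤ, K.w s = m := by
  by_cases h0 : K.w s = 0
  · exact ⟨0, by rw [h0]; simp⟩
  have hns : ∀ d ∈ K.D, d • s ≠ -s := by
    intro d hd h1
    have h2 := K.wD d hd s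
    rw [h1, map_neg] at h2
    exact h0 (by linarith)
  have hz : ∃ z : U, ∀ d ∈ K.D, d • s = s ∨ d • s = z := by
    by_cases h1 : ∃ d ∈ K.D, d • s = t
    · obtain ⟨d, hd, h1⟩ := h1
      refine ⟨t, fun e he => ?_⟩
      rcases ho e he with h | h | h | h
      · exact Or.inl h
      · exact absurd h (hns e he)
      · exact Or.inr h
      · exfalso
        have h2 := K.wD d hd s
        have h3 := K.wD e he s
        rw [h1] at h2
        rw [h, map_neg] at h3
        exact h0 (by linarith)
    · refine ⟨-t, fun e he => ?_⟩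
      rcases ho e he with h | h | h | h
      · exact Or.inl h
      · exact absurd h (hns e he)
      · exact absurd ⟨e, he, h⟩ h1
      · exact Or.inr h
  obtain ⟨z, hz⟩ := hz
  have hsub : orb K.D s ⊆ {s, z} := by
    rintro y ⟨d, hd, rfl⟩
    rcases hz d hd with h | h
    · rw [h]; exact Set.mem_insert _ _
    · rw [h]; exact Set.mem_insert_of_mem _ rfl
  have hfin : (orb K.D s).Finite := (Set.toFinite _).subset hsub
  have h1 : (orb K.D s).ncard ≤ 2 :=
    (Set.ncard_le_ncard hsub (Set.toFinite _)).trans
      ((Set.ncard_insert_le _ _).trans (by rw [Set.ncard_singleton]))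
  have h2 : 0 < (orb K.D s).ncard :=
    (Set.ncard_pos hfin).2 ⟨s, 1, K.D.one_mem, (one_smul _ _).symm⟩
  obtain ⟨n, hn⟩ := hR.ht s hs
  rw [hc, one_mul] at hn
  have h3 : (orb K.D s).ncard = 1 ∨ (orb K.D s).ncard = 2 := by omega
  rcases h3 with h3 | h3 <;> rw [h3] at hn
  · exact ⟨2 * n - 1, by push_cast at hn ⊢; linarith⟩
  · exact ⟨n - 1, by push_cast at hn ⊢; linarith⟩

theorem CA5_two {U : Type} [AddCommGroup U] [Module ℚ U] (a : U) (h : a + a = 0) : a = 0 := by
  rw [← two_smul ℚ a] at h
  rcases smul_eq_zero.1 h with h5 | h5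
  · norm_num at h5
  · exact h5

/-- the case `k = 2`: `J = {v, v, s, t}` -/
theorem CA5_k2 {G U : Type} [Group G] [AddCommGroup U] [Module ℚ U] [DistribMulAction G U]
    (K : Core G U) (R J : Multiset U) (v s t : U) (hR : IsR K R)
    (hJ : J = {v, v, s, t}) (hRJ : R = J + ng J + {v, -v}) (hsum : J.sum = 0) (hn : NoPair J)
    (hv : ∀ g : G, g • v = v ∨ g • v = -v) (hv0 : v ≠ 0) (hsv : s ≠ v) (htv : t ≠ v) :
    ∃ m : ℤ, K.w s + K.w t = m := by
  classical
  have hsv' : s ≠ -v := by
    intro h
    have h1 := CAR_pair J hn v hv0 (by rw [hJ]; simp)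
    exact h1 (by rw [hJ, ← h]; simp)
  have htv' : t ≠ -v := by
    intro h
    have h1 := CAR_pair J hn v hv0 (by rw [hJ]; simp)
    exact h1 (by rw [hJ, ← h]; simp)
  have hst : s ≠ t := by
    intro h
    apply hsv'
    rw [hJ, h] at hsum
    have h1 : (t + v) + (t + v) = 0 := by
      rw [← hsum]
      simp only [Multiset.insert_eq_cons, Multiset.sum_cons, Multiset.sum_singleton]
      abel
    have h2 := CA5_two _ h1
    rw [h]
    exact eq_neg_of_add_eq_zero_left h2
  have hmem : ∀ x ∈ R, x ≠ v → x ≠ -v → x = s ∨ x = -s ∨ x = t ∨ x = -t := by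
    intro x hx h1 h2
    rw [hRJ, hJ] at hx
    simp only [ng, Multiset.insert_eq_cons, Multiset.map_cons, Multiset.map_singleton,
      Multiset.mem_add, Multiset.mem_cons, Multiset.mem_singleton] at hx
    tauto
  have hmov : ∀ (g : G) (x : U), x ∈ R → x ≠ v → x ≠ -v →
      (g • x = s ∨ g • x = -s ∨ g • x = t ∨ g • x = -t) := by
    intro g x hx h1 h2
    have h3 : g • x ∈ R := by
      rw [← hR.stable g]
      exact Multiset.mem_map_of_mem _ hx
    have h4 : ∀ y : U, g • x = y → x = g⁻¹ • y := by
      intro y hy
      rw [← hy, inv_smul_smul]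
    refine hmem _ h3 ?_ ?_
    · intro h5
      rcases hv g⁻¹ with h6 | h6
      · exact h1 (by rw [h4 _ h5, h6])
      · exact h2 (by rw [h4 _ h5, h6])
    · intro h5
      rcases hv g⁻¹ with h6 | h6
      · exact h2 (by rw [h4 _ h5, smul_neg, h6])
      · exact h1 (by rw [h4 _ h5, smul_neg, h6, neg_neg])
  have hsR : s ∈ R := by rw [hRJ, hJ]; simp
  have htR : t ∈ R := by rw [hRJ, hJ]; simp
  have hws : ∃ m : ℤ, K.w s = m := by
    by_cases h0 : s = 0
    · exact ⟨0, by rw [h0, map_zero]; simp⟩
    refine CA5_key K R hR s t hsR ?_ (fun d hd => hmov d s hsR hsv hsv')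
    have h1 : s ≠ -s := fun h => h0 (DE5_self s h.symm)
    have h2 : s ≠ -t := by
      intro h
      refine hn s t (by rw [hJ]; exact (Multiset.le_cons_self _ _).trans (Multiset.le_cons_self _ _)) ?_
      rw [h]; exact neg_add_cancel t
    have h3 : cnt s R = R.count s := rfl
    rw [h3, hRJ, hJ]
    simp only [ng, Multiset.insert_eq_cons, Multiset.map_cons, Multiset.map_singleton,
      Multiset.count_add, Multiset.count_cons, Multiset.count_singleton, if_neg hsv, if_neg hsv',
      if_neg hst, if_neg h1, if_neg h2, if_true]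
  have hwt : ∃ m : ℤ, K.w t = m := by
    by_cases h0 : t = 0
    · exact ⟨0, by rw [h0, map_zero]; simp⟩
    refine CA5_key K R hR t s htR ?_ (fun d hd => ?_)
    · have h1 : t ≠ -t := fun h => h0 (DE5_self t h.symm)
      have h2 : t ≠ -s := by
        intro h
        refine hn s t (by rw [hJ]; exact (Multiset.le_cons_self _ _).trans (Multiset.le_cons_self _ _)) ?_
        rw [h]; exact add_neg_cancel s
      have h3 : cnt t R = R.count t := rfl
      rw [h3, hRJ, hJ]
      simp only [ng, Multiset.insert_eq_cons, Multiset.map_cons, Multiset.map_singleton,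
        Multiset.count_add, Multiset.count_cons, Multiset.count_singleton, if_neg htv, if_neg htv',
        if_neg hst.symm, if_neg h1, if_neg h2, if_true]
    · rcases hmov d t htR htv htv' with h | h | h | h
      · exact Or.inr (Or.inr (Or.inl h))
      · exact Or.inr (Or.inr (Or.inr h))
      · exact Or.inl h
      · exact Or.inr (Or.inl h)
  obtain ⟨a, ha⟩ := hws
  obtain ⟨b, hb⟩ := hwt
  exact ⟨a + b, by rw [ha, hb]; push_cast; ring⟩

/-- the main case: `v ∈ J` and `{u, -u} = {v, -v}` -/
theorem CA5_main {G U : Type} [Group G] [AddCommGroup U] [Module ℚ U] [DistribMulAction G U]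
    (K : Core G U) (R J : Multiset U) (v : U) (hR : IsR K R) (hJ4 : J.card = 4)
    (hRJ : R = J + ng J + {v, -v}) (hsum : J.sum = 0) (hn : NoPair J)
    (hv : ∀ g : G, g • v = v ∨ g • v = -v) (hv0 : v ≠ 0) (hvJ : v ∈ J) :
    orb K.D v = {v} ∧ ∃ n : ℕ, ((cnt v (J + ng J) : ℕ) : ℝ) * (K.w v + 1) = 2 * n := by
  classical
  have hvR : v ∈ R := by rw [hRJ]; simp
  have hwv : K.w v ≠ 0 := by
    intro h
    apply hv0
    apply K.kron
    intro g
    rcases hv g with h1 | h1
    · rw [h1, h]
    · rw [h1, map_neg, h, neg_zero]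
  have horb : orb K.D v = {v} := by
    ext y
    constructor
    · rintro ⟨d, hd, rfl⟩
      rcases hv d with h1 | h1
      · rw [h1]; rfl
      · exfalso
        have h2 := K.wD d hd v
        rw [h1, map_neg] at h2
        exact hwv (by linarith)
    · intro hy
      rw [Set.mem_singleton_iff] at hy
      exact ⟨1, K.D.one_mem, by rw [hy, one_smul]⟩
  refine ⟨horb, ?_⟩
  have hne : v ≠ -v := fun h => hv0 (DE5_self v h.symm)
  have hnv : J.count (-v) = 0 := Multiset.count_eq_zero.2 (CAR_pair J hn v hv0 hvJ)
  have hle := hR.le_one v hvR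
  rw [abs_le] at hle
  obtain ⟨n, hn'⟩ := hR.ht v hvR
  have e1 : cnt v R = J.count v + 1 := by
    have h3 : cnt v R = R.count v := rfl
    rw [h3, hRJ, Multiset.count_add, Multiset.count_add, CAR_count_ng, hnv, add_zero]
    simp only [Multiset.insert_eq_cons, Multiset.count_cons, Multiset.count_singleton, if_neg hne,
      if_true, zero_add]
  have e2 : cnt v (J + ng J) = J.count v := by
    have h3 : cnt v (J + ng J) = (J + ng J).count v := rfl
    rw [h3, Multiset.count_add, CAR_count_ng, hnv, add_zero]
  rw [horb, Set.ncard_singleton, mul_one, e1] at hn'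
  rw [e2]
  have hk1 : 1 ≤ J.count v := Multiset.count_pos.2 hvJ
  have hk4 : J.count v ≤ 4 := by
    rw [← hJ4]; exact Multiset.count_le_card v J
  obtain ⟨L, hL⟩ := Multiset.le_iff_exists_add.1
    (Multiset.le_count_iff_replicate_le.1 (le_refl (J.count v)))
  have hLc : L.card + J.count v = 4 := by
    have h1 := congrArg Multiset.card hL
    rw [Multiset.card_add, Multiset.card_replicate, hJ4] at h1
    omega
  have hLv : v ∉ L := by
    rw [← Multiset.count_eq_zero]
    have h1 := congrArg (Multiset.count v) hL
    rw [Multiset.count_add, Multiset.count_replicate_self] at h1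
    omega
  have hk : J.count v = 1 ∨ J.count v = 2 ∨ J.count v = 3 ∨ J.count v = 4 := by omega
  rcases hk with hk | hk | hk | hk
  · -- k = 1
    rw [hk] at hn' ⊢
    push_cast at hn' ⊢
    have h1 : (n : ℝ) ≤ 2 := by linarith
    have h2 : n ≤ 2 := by exact_mod_cast h1
    interval_cases n
    · exact ⟨0, by push_cast at hn' ⊢; linarith⟩
    · exact absurd (by push_cast at hn'; linarith) hwv
    · exact ⟨1, by push_cast at hn' ⊢; linarith⟩
  · -- k = 2
    rw [hk] at hn' hL hLc ⊢
    push_cast at hn' ⊢
    have h1 : (n : ℝ) ≤ 3 := by linarith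
    have h2 : n ≤ 3 := by exact_mod_cast h1
    obtain ⟨s, t, hst⟩ := Multiset.card_eq_two.1 (show L.card = 2 by omega)
    have hJ : J = {v, v, s, t} := by
      rw [hL, hst]; rfl
    have hsv : s ≠ v := by
      intro h; apply hLv; rw [hst, h]; simp
    have htv : t ≠ v := by
      intro h; apply hLv; rw [hst, h]; simp
    obtain ⟨m, hm⟩ := CA5_k2 K R J v s t hR hJ hRJ hsum hn hv hv0 hsv htv
    have hws : K.w v + K.w v + (K.w s + K.w t) = 0 := by
      rw [← map_add, ← map_add, ← map_add, ← map_zero K.w]
      congr 1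
      rw [← hsum, hJ]
      simp only [Multiset.insert_eq_cons, Multiset.sum_cons, Multiset.sum_singleton]
      abel
    interval_cases n
    · exact ⟨0, by push_cast at hn' ⊢; linarith⟩
    · exfalso
      have h3 : (3 : ℝ) * m = 2 := by push_cast at hn'; linarith
      have h4 : (3 : ℤ) * m = 2 := by exact_mod_cast h3
      omega
    · exfalso
      have h3 : (3 : ℝ) * m = -2 := by push_cast at hn'; linarith
      have h4 : (3 : ℤ) * m = -2 := by exact_mod_cast h3
      omega
    · exact ⟨2, by push_cast at hn' ⊢; linarith⟩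
  · -- k = 3
    exfalso
    rw [hk] at hn' hL hLc
    push_cast at hn'
    obtain ⟨s, hs⟩ := Multiset.card_eq_one.1 (show L.card = 1 by omega)
    have hJ : J = {v, v, v, s} := by
      rw [hL, hs]; rfl
    have hsR : s ∈ R := by rw [hRJ, hJ]; simp
    have hles := hR.le_one s hsR
    rw [abs_le] at hles
    have hws : K.w v + K.w v + K.w v + K.w s = 0 := by
      rw [← map_add, ← map_add, ← map_add, ← map_zero K.w]
      congr 1
      rw [← hsum, hJ]
      simp only [Multiset.insert_eq_cons, Multiset.sum_cons, Multiset.sum_singleton]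
      abel
    have h1 : (n : ℝ) < 3 := by linarith
    have h2 : n < 3 := by exact_mod_cast h1
    have h3 : (1 : ℝ) < n := by linarith
    have h4 : 1 < n := by exact_mod_cast h3
    have h5 : n = 2 := by omega
    rw [h5] at hn'
    push_cast at hn'
    exact hwv (by linarith)
  · -- k = 4
    exfalso
    rw [hk] at hL hLc
    have h1 : L = 0 := by
      rw [← Multiset.card_eq_zero]; omega
    rw [h1, add_zero] at hL
    rw [hL, Multiset.sum_replicate] at hsum
    have h2 : (v + v) + (v + v) = 0 := by
      rw [← hsum]; abel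
    exact hv0 (CA5_two _ (CA5_two _ h2))

theorem p_CA5 : Stmt_CA5 := by
  classical
  intro G U _ _ _ _ K R J u h hu
  have hnn : ng (J + ng J) = J + ng J := by
    rw [DE5_ng_add, DE5_ng_ng, add_comm]
  refine ⟨?_, ?_, ?_⟩
  · intro g
    have h1 := h.isR.stable g
    rw [h.eq] at h1
    have h2 : tr g (J + ng J + {u, -u}) = tr g (J + ng J) + tr g {u, -u} := Multiset.map_add _ _ _
    have h3 : tr g ({u, -u} : Multiset U) = {u, -u} := by
      have h4 : tr g ({u, -u} : Multiset U) = {g • u, g • (-u)} := rfl
      rw [h4, smul_neg]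
      rcases hu g with h5 | h5
      · rw [h5]
      · rw [h5, neg_neg, Multiset.pair_comm]
    rw [h2, h3] at h1
    exact add_right_cancel h1
  · intro v hv
    exact h.isR.le_one v (by rw [h.eq]; exact Multiset.mem_add.2 (Or.inl hv))
  · intro v hv
    have hvR : v ∈ R := by rw [h.eq]; exact Multiset.mem_add.2 (Or.inl hv)
    by_cases hvu : v = u ∨ v = -u
    · by_cases hu0 : u = 0
      · have hv0 : v = 0 := by
          rcases hvu with h1 | h1
          · rw [h1, hu0]
          · rw [h1, hu0, neg_zero]
        subst hv0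
        obtain ⟨n, hn⟩ := h.isR.ht 0 hvR
        have h1 : orb K.D (0 : U) = {0} := by
          ext y
          constructor
          · rintro ⟨d, _, rfl⟩
            exact smul_zero d
          · intro hy
            rw [Set.mem_singleton_iff] at hy
            exact ⟨1, K.D.one_mem, by rw [hy, smul_zero]⟩
        have e1 : cnt (0 : U) R = cnt (0 : U) (J + ng J) + 2 := by
          have h3 : cnt (0 : U) R = R.count 0 := rfl
          have h4 : cnt (0 : U) (J + ng J) = (J + ng J).count 0 := rfl
          rw [h3, h4, h.eq, Multiset.count_add, hu0, neg_zero]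
          congr 1
          simp only [Multiset.insert_eq_cons, Multiset.count_cons, Multiset.count_singleton,
            if_true]
        rw [h1, Set.ncard_singleton, mul_one, map_zero, zero_add, mul_one, e1] at hn
        have h5 : cnt (0 : U) (J + ng J) + 2 = 2 * n := by exact_mod_cast hn
        refine ⟨n - 1, ?_⟩
        rw [h1, Set.ncard_singleton, mul_one, map_zero, zero_add, mul_one]
        have h6 : cnt (0 : U) (J + ng J) = 2 * (n - 1) := by omega
        rw [h6]
        push_cast
        ring
      · have hpair : ∀ x : U, (x = u ∨ x = -u) → ({u, -u} : Multiset U) = {x, -x} := by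
          intro x hx
          rcases hx with hx | hx
          · rw [hx]
          · rw [hx, neg_neg, Multiset.pair_comm]
        have hx0 : ∀ x : U, (x = u ∨ x = -u) → x ≠ 0 := by
          intro x hx h1
          rcases hx with hx | hx
          · exact hu0 (by rw [← hx, h1])
          · exact hu0 (by rw [← neg_eq_zero, ← hx, h1])
        have hxg : ∀ x : U, (x = u ∨ x = -u) → ∀ g : G, g • x = x ∨ g • x = -x := by
          intro x hx g
          rcases hx with hx | hx
          · rw [hx]; exact hu g
          · rw [hx, smul_neg]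
            rcases hu g with h1 | h1
            · left; rw [h1]
            · right; rw [h1]
        by_cases hvJ : v ∈ J
        · obtain ⟨h1, n, hn⟩ := CA5_main K R J v h.isR h.card (by rw [h.eq, hpair v hvu]) h.sum
            h.noPair (hxg v hvu) (hx0 v hvu) hvJ
          exact ⟨n, by rw [h1, Set.ncard_singleton, mul_one]; exact hn⟩
        · have hvJ' : -v ∈ J := by
            rcases Multiset.mem_add.1 hv with h1 | h1
            · exact absurd h1 hvJ
            · obtain ⟨x, hx, hx'⟩ := Multiset.mem_map.1 h1
              rw [← hx', neg_neg]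
              exact hx
          have hvu' : -v = u ∨ -v = -u := by
            rcases hvu with h1 | h1
            · right; rw [h1]
            · left; rw [h1, neg_neg]
          obtain ⟨h1, n, hn⟩ := CA5_main K R J (-v) h.isR h.card (by rw [h.eq, hpair (-v) hvu'])
            h.sum h.noPair (hxg (-v) hvu') (hx0 (-v) hvu') hvJ'
          have h2 : orb K.D v = {v} := by
            ext y
            constructor
            · rintro ⟨d, hd, rfl⟩
              have h3 : d • (-v) ∈ orb K.D (-v) := ⟨d, hd, rfl⟩
              rw [h1, Set.mem_singleton_iff, smul_neg, neg_inj] at h3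
              exact h3
            · intro hy
              rw [Set.mem_singleton_iff] at hy
              exact ⟨1, K.D.one_mem, by rw [hy, one_smul]⟩
          have h3 : cnt (-v) (J + ng J) = cnt v (J + ng J) := by
            have h4 : cnt (-v) (J + ng J) = (J + ng J).count (-v) := rfl
            have h5 : cnt v (J + ng J) = (J + ng J).count v := rfl
            rw [h4, h5, ← CAR_count_ng, hnn]
          rw [h3, map_neg] at hn
          have h6 := h.isR.le_one v hvR
          rw [abs_le] at h6
          have h7 : (0 : ℝ) ≤ (cnt v (J + ng J) : ℕ) := Nat.cast_nonneg _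
          have h8 : (n : ℝ) ≤ (cnt v (J + ng J) : ℕ) := by
            have h9 : ((cnt v (J + ng J) : ℕ) : ℝ) * (-K.w v + 1) ≤
                ((cnt v (J + ng J) : ℕ) : ℝ) * 2 :=
              mul_le_mul_of_nonneg_left (by linarith) h7
            linarith
          have h10 : n ≤ cnt v (J + ng J) := by exact_mod_cast h8
          refine ⟨cnt v (J + ng J) - n, ?_⟩
          rw [h2, Set.ncard_singleton, mul_one, Nat.cast_sub h10]
          linarith
    · rw [not_or] at hvu
      obtain ⟨n, hn⟩ := h.isR.ht v hvR
      have e1 : cnt v R = cnt v (J + ng J) := by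
        have h3 : cnt v R = R.count v := rfl
        have h4 : cnt v (J + ng J) = (J + ng J).count v := rfl
        rw [h3, h4, h.eq, Multiset.count_add (s := J + ng J)]
        simp only [Multiset.insert_eq_cons, Multiset.count_cons, Multiset.count_singleton,
          if_neg hvu.1, if_neg hvu.2, add_zero]
      exact ⟨n, by rw [← e1]; exact hn⟩

end Pool.T4
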