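import Pool.Agent.Work.MP_223b32_t4.Interface

/-! # Block EQC: a Tate relation supported in one orbit -/

namespace Pool.T4

section

variable {G U : Type} [Group G] [AddCommGroup U] [Module ℚ U] [DistribMulAction G U]

theorem EQC_neg_mem (K : Core G U) (V : Finset U) (m : ℕ) (hV : IsOrb K V m) {v : U}
    (hv : v ∈ V) : -v ∈ V := by
  have := hV.stable K.c0 v hv
  rwa [K.cc v] at this

theorem EQC_shift (K : Core G U) (V : Finset U) (m : ℕ) (hV : IsOrb K V m) (f : U → ℤ)
    (hf : IsRel V f) (g : G) : IsRel V (fun v => f (g • v)) := by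
  refine ⟨fun v => ?_, fun v hv => ?_, ?_⟩
  · show f (g • -v) = -f (g • v)
    rw [smul_neg]; exact hf.1 _
  · apply hf.2.1
    intro h
    apply hv
    have := hV.stable g⁻¹ _ h
    rwa [inv_smul_smul] at this
  · have h1 : ∑ v ∈ V, f (g • v) • v = g⁻¹ • ∑ u ∈ V, f u • u := by
      rw [Finset.smul_sum]
      refine Finset.sum_nbij' (fun v => g • v) (fun u => g⁻¹ • u) ?_ ?_ ?_ ?_ ?_
      · intro v hv; exact hV.stable g v hv
      · intro v hv; exact hV.stable g⁻¹ v hv
      · intro v _; exact inv_smul_smul g v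
      · intro v _; exact smul_inv_smul g v
      · intro v _
        have h2 := map_zsmul (DistribSMul.toAddMonoidHom U g⁻¹) (f (g • v)) (g • v)
        rw [DistribSMul.toAddMonoidHom_apply, DistribSMul.toAddMonoidHom_apply,
          inv_smul_smul] at h2
        exact h2.symm
    show ∑ v ∈ V, f (g • v) • v = 0
    rw [h1, hf.2.2, smul_zero]

theorem EQC_rel [DecidableEq U] (K : Core G U) (V : Finset U) (m : ℕ) (hV : IsOrb K V m)
    (S : Multiset U) (hS : ∀ v ∈ S, v ∈ V) (h0 : S.sum = 0) :
    IsRel V (fun v => (S.count v : ℤ) - (S.count (-v) : ℤ)) := by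
  have hz : ∀ v ∉ V, S.count v = 0 := fun v hv =>
    Multiset.count_eq_zero.2 fun h => hv (hS v h)
  have h1 : ∑ v ∈ V, (S.count v : ℤ) • v = 0 := by
    rw [← h0, Finset.sum_multiset_count]
    simp only [natCast_zsmul]
    symm
    apply Finset.sum_subset
    · intro v hv; exact hS v (Multiset.mem_toFinset.1 hv)
    · intro v _ hv
      rw [Multiset.count_eq_zero.2 (fun h => hv (Multiset.mem_toFinset.2 h)), zero_smul]
  have h2 : ∑ v ∈ V, (S.count (-v) : ℤ) • v = -∑ v ∈ V, (S.count v : ℤ) • v := by
    rw [← Finset.sum_neg_distrib]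
    refine Finset.sum_nbij' (fun v => -v) (fun u => -u) ?_ ?_ ?_ ?_ ?_
    · intro v hv; exact EQC_neg_mem K V m hV hv
    · intro v hv; exact EQC_neg_mem K V m hV hv
    · intro v _; exact neg_neg v
    · intro v _; exact neg_neg v
    · intro v _
      rw [smul_neg, neg_neg]
  refine ⟨fun v => ?_, fun v hv => ?_, ?_⟩
  · show (S.count (-v) : ℤ) - (S.count (- -v) : ℤ) = -((S.count v : ℤ) - (S.count (-v) : ℤ))
    rw [neg_neg]; ring
  · show (S.count v : ℤ) - (S.count (-v) : ℤ) = 0
    rw [hz v hv, hz (-v) (fun h => hv (by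
      have := EQC_neg_mem K V m hV h
      rwa [neg_neg] at this))]
    simp
  · show ∑ v ∈ V, ((S.count v : ℤ) - (S.count (-v) : ℤ)) • v = 0
    simp only [sub_smul]
    rw [Finset.sum_sub_distrib, h2, h1]
    simp

end

theorem p_EQC (hRK : Stmt_RK1) : Stmt_EQC := by
  classical
  intro G U _ _ _ _ K V m hV S hS h0 hnp hne
  set f : U → ℤ := fun v => (S.count v : ℤ) - (S.count (-v) : ℤ) with hfdef
  have hf : IsRel V f := EQC_rel K V m hV S hS h0
  have key : ∀ (g : G) (u v : U), f u * f (g • v) = f v * f (g • u) := fun g =>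
    hRK G U K V m hV f (fun v => f (g • v)) hf (EQC_shift K V m hV f hf g)
  -- no opposite pairs
  have hpair : ∀ v ∈ S, -v ∉ S := by
    intro v hv hv'
    have hv0 := hV.nz v (hS v hv)
    have hne' : v ≠ -v := by
      intro h
      apply hv0
      have h2 : (2 : ℚ) • v = 0 := by
        rw [two_smul]
        have h3 : v + v = v + -v := by rw [← h]
        rw [h3, add_neg_cancel]
      exact (smul_eq_zero.1 h2).resolve_left (by norm_num)
    refine hnp v (-v) ?_ (add_neg_cancel v)
    have hnd : ({v, -v} : Multiset U).Nodup := by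
      simp [hne']
    rw [Multiset.le_iff_subset hnd]
    intro x hx
    simp only [Multiset.insert_eq_cons, Multiset.mem_cons, Multiset.mem_singleton] at hx
    rcases hx with rfl | rfl
    · exact hv
    · exact hv'
  obtain ⟨v0, hv0, hmax⟩ := Finset.exists_max_image V (fun v => |f v|) hV.ne
  obtain ⟨s0, hs0⟩ := Multiset.exists_mem_of_ne_zero hne
  have hfs : ∀ v ∈ S, f v = S.count v := by
    intro v hv
    show (S.count v : ℤ) - (S.count (-v) : ℤ) = S.count v
    rw [Multiset.count_eq_zero.2 (hpair v hv)]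
    simp
  have hpos : 0 < |f v0| := by
    have h1 := hmax s0 (hS s0 hs0)
    have h2 : 0 < f s0 := by
      rw [hfs s0 hs0]
      exact_mod_cast Multiset.count_pos.2 hs0
    exact lt_of_lt_of_le (abs_pos.2 h2.ne') h1
  have hall : ∀ v ∈ V, |f v| = |f v0| := by
    intro v hv
    obtain ⟨g, hg⟩ := hV.trans v hv v0 hv0
    have h1 := key g v0 v
    rw [hg] at h1
    have h2 : |f v0| * |f v0| = |f v| * |f (g • v0)| := by
      rw [← abs_mul, ← abs_mul, h1]
    have h3 : |f (g • v0)| ≤ |f v0| := hmax _ (hV.stable g v0 hv0)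
    have h4 : |f v0| * |f v0| ≤ |f v| * |f v0| := by
      rw [h2]; exact mul_le_mul_of_nonneg_left h3 (abs_nonneg _)
    exact le_antisymm (hmax v hv) (le_of_mul_le_mul_right h4 hpos)
  obtain ⟨t, ht⟩ : ∃ t : ℕ, (t : ℤ) = |f v0| := ⟨(f v0).natAbs, Int.natCast_natAbs _⟩
  have htpos : 0 < t := by
    have : (0 : ℤ) < t := by rw [ht]; exact hpos
    exact_mod_cast this
  have hcount : ∀ v ∈ S, S.count v = t := by
    intro v hv
    have h1 := hall v (hS v hv)
    rw [hfs v hv, ← ht, abs_of_nonneg (by positivity)] at h1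
    exact_mod_cast h1
  have hSJ : S = t • S.toFinset.val := by
    ext v
    rw [Multiset.count_nsmul]
    by_cases hv : v ∈ S
    · rw [hcount v hv, Multiset.count_eq_one_of_mem S.toFinset.nodup
        (by simpa using hv), mul_one]
    · rw [Multiset.count_eq_zero.2 hv, Multiset.count_eq_zero.2 (by simpa using hv), mul_zero]
  have hJV : S.toFinset ⊆ V := fun v hv => hS v (Multiset.mem_toFinset.1 hv)
  have hJsum : S.toFinset.sum id = 0 := by
    have h1 : (t : ℕ) • S.toFinset.val.sum = 0 := by
      rw [← Multiset.sum_nsmul, ← hSJ, h0]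
    have h2 : ((t : ℚ)) • S.toFinset.val.sum = 0 := by
      rw [Nat.cast_smul_eq_nsmul, h1]
    have h3 : S.toFinset.val.sum = 0 :=
      (smul_eq_zero.1 h2).resolve_left (by exact_mod_cast htpos.ne')
    rw [Finset.sum, Multiset.map_id]
    exact h3
  have hJnp : NoPair S.toFinset.val := by
    intro a b hab
    refine hnp a b (hab.trans ?_)
    rw [Multiset.toFinset_val]
    exact Multiset.dedup_le S
  have hcov : ∀ v ∈ V, v ∈ S.toFinset ∨ -v ∈ S.toFinset := by
    intro v hv
    by_contra hcon
    have h1 : v ∉ S := fun h => hcon (Or.inl (Multiset.mem_toFinset.2 h))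
    have h2 : -v ∉ S := fun h => hcon (Or.inr (Multiset.mem_toFinset.2 h))
    have h3 := hall v hv
    have h4 : f v = 0 := by
      show (S.count v : ℤ) - (S.count (-v) : ℤ) = 0
      rw [Multiset.count_eq_zero.2 h1, Multiset.count_eq_zero.2 h2]
      simp
    rw [h4, abs_zero] at h3
    exact hpos.ne h3
  have hinj : Function.Injective (fun v : U => -v) := neg_injective
  have hVJ : V = S.toFinset ∪ S.toFinset.image (fun v => -v) := by
    ext v
    rw [Finset.mem_union, Finset.mem_image]
    constructor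
    · intro hv
      rcases hcov v hv with h | h
      · exact Or.inl h
      · exact Or.inr ⟨-v, h, neg_neg v⟩
    · rintro (h | ⟨u, hu, rfl⟩)
      · exact hJV h
      · exact EQC_neg_mem K V m hV (hJV hu)
  have hdisj : Disjoint S.toFinset (S.toFinset.image (fun v => -v)) := by
    rw [Finset.disjoint_left]
    intro v hv hv'
    obtain ⟨u, hu, rfl⟩ := Finset.mem_image.1 hv'
    exact hpair u (Multiset.mem_toFinset.1 hu) (Multiset.mem_toFinset.1 hv)
  have hcard : 2 * S.toFinset.card = V.card := by
    have h1 : V.card = S.toFinset.card + (S.toFinset.image (fun v => -v)).card := by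
      rw [← Finset.card_union_of_disjoint hdisj, ← hVJ]
    rw [h1, Finset.card_image_of_injective _ hinj]
    ring
  have h8 : V.card ≤ 8 := by
    have a := hV.card
    have b := hV.m_pos
    nlinarith
  refine ⟨t, S.toFinset, htpos, hSJ, hJsum, hJnp, hJV, hcov, hcard, ?_⟩
  have hc0 : S.toFinset.card ≠ 0 := by
    rw [Ne, Finset.card_eq_zero]
    intro h
    have := Multiset.mem_toFinset.2 hs0
    rw [h] at this
    exact absurd this (Finset.notMem_empty _)
  have hc1 : S.toFinset.card ≠ 1 := by
    intro h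
    obtain ⟨a, ha⟩ := Finset.card_eq_one.1 h
    have h2 : a = 0 := by
      rw [ha] at hJsum
      simpa using hJsum
    exact hV.nz a (hJV (by rw [ha]; exact Finset.mem_singleton_self a)) h2
  have hc2 : S.toFinset.card ≠ 2 := by
    intro h
    obtain ⟨a, b, hab, he⟩ := Finset.card_eq_two.1 h
    have h2 : a + b = 0 := by
      rw [he, Finset.sum_pair hab] at hJsum
      exact hJsum
    refine hJnp a b ?_ h2
    rw [he]
    have h3 : ({a, b} : Finset U).val = {a, b} := by
      rw [Finset.insert_val_of_notMem (by simpa using hab)]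
      rfl
    rw [h3]
  omega

end Pool.T4
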