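import Pool.Agent.Work.MP_223b32_t4.Interface

/-! Block MKX of the table t4_blocks (helper55) -/

set_option autoImplicit false

namespace Pool.T4

open Pool.Agent.Work.MP_223b32_ag

theorem MKX_germ {x y : Qb} : germ x = germ y ↔ Sim x y := by
  unfold germ
  exact Quotient.eq

theorem MKX_weil {q : ℕ} {x y : Qb} (hx : Weil q x) (h : Sim y x) : Weil q y := by
  obtain ⟨N, hN, he⟩ := h
  constructor
  · apply IsIntegral.of_pow hN
    rw [he]
    exact hx.1.pow N
  · intro ρ
    have h1 : (‖ρ y‖ ^ 2) ^ N = ((q : ℝ)) ^ N := by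
      calc (‖ρ y‖ ^ 2) ^ N = ‖ρ (y ^ N)‖ ^ 2 := by
            rw [map_pow, norm_pow]; ring
        _ = ‖ρ (x ^ N)‖ ^ 2 := by rw [he]
        _ = (‖ρ x‖ ^ 2) ^ N := by rw [map_pow, norm_pow]; ring
        _ = (q : ℝ) ^ N := by rw [hx.2 ρ]
    exact (pow_left_inj₀ (by positivity) (Nat.cast_nonneg q) hN.ne').mp h1

theorem MKX_map {p : ℕ} [Fact p.Prime] {ι : Qb →+* PadicAlgCl p} {q : ℕ} (hD : Dict q ι)
    (J T : Multiset Qb) (hJ : ∀ x ∈ J, Weil q x) (hT : ∀ x ∈ T, Weil q x)
    (h : T.map germ = J.map germ) : T.map (uu q ι) = J.map (uu q ι) := by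
  rw [← Multiset.rel_eq, Multiset.rel_map] at h ⊢
  refine h.mono ?_
  intro a ha b hb hab
  exact (hD.sim a b (hT a ha) (hJ b hb)).mp (MKX_germ.mp hab)

theorem p_MKX (hMKA : Stmt_MKA) (hBLD : Stmt_BLD) (hHLF : Stmt_HLF) (hTSP : Stmt_TSP)
    (hTNS : Stmt_TNS) : Stmt_MKX := by
  intro p _ a ι ρ c hc ha hD R J hR hJR hG hnd r m hm hr hst
  obtain ⟨X, _, _, A, hA0, hAn, z, hz1, hz2, hz3⟩ :=
    hMKA p a ι ρ c hc ha hD R J hR hJR hG hnd r m hm hr hst
  obtain ⟨C, rfl⟩ := hBLD p a ι ha hD X r m A hAn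
  obtain ⟨hh1, hh2, hh3, hh4, hh5⟩ := hHLF (p ^ a) X r m C.toCMAlg
  have hJW : ∀ x ∈ J, Weil (p ^ a) x := fun x hx => hR.weil x (Multiset.mem_of_le hJR hx)
  have hcard : C.half.card + z.card = 4 := by
    have h1 := congrArg Multiset.card hz3
    rw [Multiset.card_map, Multiset.card_map, Multiset.card_add, Multiset.card_map] at h1
    have h2 := hG.card
    rw [Multiset.card_map] at h2
    have h3 : C.half.val.card = C.half.card := rfl
    omega
  have hTW : ∀ x ∈ C.half.val.map C.al + z, Weil (p ^ a) x := by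
    intro x hx
    have h1 : germ x ∈ J.map germ := by
      rw [← hz3]
      exact Multiset.mem_map_of_mem _ hx
    obtain ⟨y, hy, hyx⟩ := Multiset.mem_map.mp h1
    exact MKX_weil (hJW y hy) (MKX_germ.mp hyx.symm)
  have hmap := MKX_map hD J (C.half.val.map C.al + z) hJW hTW hz3
  have hzu : z.map (uu (p ^ a) ι) = z.map (fun _ => (0 : UU ι)) := by
    apply Multiset.map_congr rfl
    intro y hy
    exact (hD.ss y (hTW y (Multiset.mem_add.mpr (Or.inr hy)))).mp (hz1 y hy)
  have hsum : (∑ x ∈ C.half, uu (p ^ a) ι (C.al x)) = 0 := by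
    have h1 := hG.sum
    rw [← hmap, Multiset.map_add, Multiset.sum_add, hzu, Multiset.map_map] at h1
    have h2 : (z.map (fun _ => (0 : UU ι))).sum = 0 := by
      simp
    rw [h2, add_zero] at h1
    exact h1
  have hsum1 : (∑ x ∈ C.half, ur (p ^ a) ι (C.al x) 1) = 0 := by
    have h1 := congrArg (fun v : UU ι => v.1 1) hsum
    have h2 : (∑ x ∈ C.half, uu (p ^ a) ι (C.al x)).1 1
        = ∑ x ∈ C.half, ur (p ^ a) ι (C.al x) 1 := by
      rw [Submodule.coe_sum, Finset.sum_apply]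
      apply Finset.sum_congr rfl
      intro x _
      rw [hD.mem _ (C.weil x)]
    rw [← h2]
    exact h1
  refine ⟨C.half.val.map C.al, z, C.half.card, (C.Phi ∩ C.half).ncard, hz1, hz3,
    ⟨X, _, _, C, hh1.symm, rfl, rfl, by intro h; exact absurd h (by decide)⟩, ?_⟩
  have htn : (C.Phi ∩ C.half).ncard ≤ C.half.card := by
    have h1 : (C.Phi ∩ (C.half : Set X)).ncard ≤ (C.half : Set X).ncard :=
      Set.ncard_le_ncard Set.inter_subset_right (Finset.finite_toSet _)
    rwa [Set.ncard_coe_finset] at h1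
  by_cases hd : ∀ d ∈ dec ι, d r = r
  · left
    have h1 := hTSP p a ι ha hD X r m C hd
    rw [Finset.sum_add_distrib, hsum1, Finset.sum_const, nsmul_eq_mul, mul_one, zero_add] at h1
    have h2 : 2 * (C.Phi ∩ C.half).ncard = C.half.card := by exact_mod_cast h1
    have h3 : z.card = 0 := by omega
    exact ⟨by omega, Multiset.card_eq_zero.mp h3, by omega⟩
  · right
    push Not at hd
    have hX : 0 < C.half.card := by omega
    obtain ⟨x0, hx0⟩ := Finset.card_pos.mp hX
    have h1 : ¬ ((C.Phi ∩ C.half).ncard = 0 ∨ (C.Phi ∩ C.half).ncard = C.half.card) := by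
      intro h
      exact hA0 x0 (hTNS p a ι ha hD X r m C hd h x0)
    push Not at h1
    refine ⟨hd, by omega, by omega, ?_⟩
    rcases Nat.eq_zero_or_pos z.card with h2 | h2
    · left
      exact ⟨by omega, Multiset.card_eq_zero.mp h2⟩
    · right
      exact ⟨by omega, by omega⟩

end Pool.T4
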