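import Pool.Agent.Work.MP_223b32_t4.Interface

/-! # Block QUD: the quadratic field of an open subgroup of index two -/

namespace Pool.T4

open Pool.Agent.Work.MP_223b32_ag

theorem QUD_galois : IsGalois ℚ Qb := by
  have h1 : Algebra.IsAlgebraic ℚ Qb := AlgebraicClosure.isAlgebraic ℚ
  have h2 : IsAlgClosed Qb := AlgebraicClosure.isAlgClosed ℚ
  have h3 : IsAlgClosure ℚ Qb := ⟨h2, h1⟩
  exact IsAlgClosure.isGalois ℚ Qb

theorem p_QUD (h1 : Stmt_CCJ) (h2 : Stmt_RHO) : Stmt_QUD := by
  intro H hL hidx hc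
  have hgal : IsGalois ℚ Qb := QUD_galois
  obtain ⟨L, hL, hLH⟩ := hL
  obtain ⟨ρ⟩ := h2
  obtain ⟨c, hcρ⟩ := h1 ρ
  have hcH : c ∉ H := hc ρ c hcρ
  have hopen : IsOpen (H : Set GQ) := by
    refine Subgroup.isOpen_mono (H₁ := L.fixingSubgroup) (fun g hg => hLH g ?_)
      L.fixingSubgroup_isOpen
    intro y hy
    exact (IntermediateField.mem_fixingSubgroup_iff L g).1 hg y hy
  have hclosed : IsClosed (H : Set GQ) := H.isClosed_of_isOpen hopen
  have hfix : (IntermediateField.fixedField H).fixingSubgroup = H :=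
    InfiniteGalois.fixingSubgroup_fixedField ⟨H, hclosed⟩
  obtain ⟨x, hx, hcx⟩ : ∃ x ∈ IntermediateField.fixedField H, c x ≠ x := by
    by_contra hcon
    apply hcH
    rw [← hfix, IntermediateField.mem_fixingSubgroup_iff]
    intro x hx
    by_contra h
    exact hcon ⟨x, hx, h⟩
  have hxH : ∀ h ∈ H, h x = x := fun h hh => hx ⟨h, hh⟩
  have hcc : c * c ∈ H := hidx c c hcH hcH
  have hout : ∀ g : GQ, g ∉ H → g x = c x := by
    intro g hg
    have hc' : c⁻¹ ∉ H := fun h => hcH (by
      have := H.inv_mem h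
      rwa [inv_inv] at this)
    have h3 := hxH _ (hidx c⁻¹ g hc' hg)
    rw [AlgEquiv.mul_apply] at h3
    have h4 : c (c⁻¹ (g x)) = c x := by rw [h3]
    rw [← AlgEquiv.mul_apply, mul_inv_cancel, AlgEquiv.one_apply] at h4
    exact h4
  have hin2 : ∀ h ∈ H, h (c x) = c x := by
    intro h hh
    have h3 : h * c ∉ H := fun h5 => hcH ((Subgroup.mul_mem_cancel_left H hh).1 h5)
    have h4 := hout (h * c) h3
    rwa [AlgEquiv.mul_apply] at h4
  have hout2 : ∀ g : GQ, g ∉ H → g (c x) = x := by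
    intro g hg
    rw [← AlgEquiv.mul_apply]
    exact hxH _ (hidx g c hg hcH)
  set r : Qb := x - c x with hr
  have hr0 : r ≠ 0 := by
    intro h
    exact hcx (sub_eq_zero.1 h).symm
  have hrin : ∀ h ∈ H, h r = r := by
    intro h hh
    rw [hr, map_sub, hxH h hh, hin2 h hh]
  have hrout : ∀ g : GQ, g ∉ H → g r = -r := by
    intro g hg
    rw [hr, map_sub, hout g hg, hout2 g hg, neg_sub]
  have hsq : ∀ g : GQ, g (r ^ 2) = r ^ 2 := by
    intro g
    rw [map_pow]
    by_cases hg : g ∈ H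
    · rw [hrin g hg]
    · rw [hrout g hg, neg_sq]
  obtain ⟨y, hy⟩ := (InfiniteGalois.mem_range_algebraMap_iff_fixed (k := ℚ) (r ^ 2)).2 hsq
  have hy' : r ^ 2 = (y : Qb) := by
    rw [← hy]
    exact eq_ratCast (algebraMap ℚ Qb) y
  have hneg : y < 0 := by
    have h3 : ρ (c r) = starRingEnd ℂ (ρ r) := hcρ r
    rw [hrout c hcH, map_neg] at h3
    have h4 : (ρ r) ^ 2 = (y : ℂ) := by
      rw [← map_pow, hy', map_ratCast]
    have hρ0 : ρ r ≠ 0 := (map_ne_zero ρ).2 hr0
    have hre : (ρ r).re = 0 := by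
      have h5 := congrArg Complex.re h3
      rw [Complex.neg_re, Complex.conj_re] at h5
      linarith
    have h6 := congrArg Complex.re h4
    rw [pow_two, Complex.mul_re, hre, Complex.ratCast_re] at h6
    have him : (ρ r).im ≠ 0 := by
      intro h
      exact hρ0 (Complex.ext hre h)
    have h7 : (0 : ℝ) < (ρ r).im * (ρ r).im := mul_self_pos.2 him
    have h8 : (y : ℝ) < 0 := by linarith
    exact_mod_cast h8
  refine ⟨r, -y, by linarith, ?_, ?_⟩
  · rw [hy']
    push_cast
    ring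
  · intro g
    constructor
    · intro h
      by_contra hg
      rw [hrout g hg] at h
      apply hr0
      have h9 : (2 : Qb) * r = 0 := by
        have : r + r = -r + r := by rw [h]
        rw [two_mul, this, neg_add_cancel]
      exact (mul_eq_zero.1 h9).resolve_left two_ne_zero
    · exact hrin g

end Pool.T4
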