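import Pool.Agent.Work.MP_223b32_t4.Interface

/-! Block RQU of the table t4_blocks (helper55) -/

set_option autoImplicit false

namespace Pool.T4

open Pool.Agent.Work.MP_223b32_ag

theorem RQU_tr_mul {p : ℕ} [Fact p.Prime] {ι : Qb →+* PadicAlgCl p} (g h : GQ)
    (J : Multiset (UU ι)) : tr (g * h) J = tr g (tr h J) := by
  simp [tr, mul_smul]

theorem RQU_tr_ng {p : ℕ} [Fact p.Prime] {ι : Qb →+* PadicAlgCl p} (g : GQ)
    (J : Multiset (UU ι)) : tr g (ng J) = ng (tr g J) := by
  simp [tr, ng]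

theorem RQU_ng_ng {p : ℕ} [Fact p.Prime] {ι : Qb →+* PadicAlgCl p}
    (J : Multiset (UU ι)) : ng (ng J) = J := by
  simp [ng]

theorem RQU_tr_one {p : ℕ} [Fact p.Prime] {ι : Qb →+* PadicAlgCl p}
    (J : Multiset (UU ι)) : tr (1 : GQ) J = J := by
  simp [tr]

/-- The stabilizer of a multiset. -/
def RQU_H {p : ℕ} [Fact p.Prime] {ι : Qb →+* PadicAlgCl p} (J : Multiset (UU ι)) :
    Subgroup GQ where
  carrier := {g | tr g J = J}
  mul_mem' := by
    intro g h hg hh
    show tr (g * h) J = J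
    rw [RQU_tr_mul, hh, hg]
  one_mem' := RQU_tr_one J
  inv_mem' := by
    intro g hg
    show tr g⁻¹ J = J
    have h1 : tr g J = J := hg
    calc tr g⁻¹ J = tr g⁻¹ (tr g J) := by rw [h1]
      _ = tr (g⁻¹ * g) J := (RQU_tr_mul _ _ _).symm
      _ = J := by rw [inv_mul_cancel, RQU_tr_one]

theorem RQU_mem {p : ℕ} [Fact p.Prime] {ι : Qb →+* PadicAlgCl p} (J : Multiset (UU ι)) (g : GQ) :
    g ∈ RQU_H J ↔ tr g J = J := Iff.rfl

theorem p_RQU (hQ : Stmt_QUD) : Stmt_RQU := by
  intro p _ a ι ha hD J hJ hs hn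
  set J' : Multiset (UU ι) := J.map (uu (p ^ a) ι) with hJ'
  have key := hQ (RQU_H J') ?_ ?_ ?_
  · obtain ⟨r, m, hm, hr, h⟩ := key
    exact ⟨r, m, hm, hr, fun g => (h g).trans (RQU_mem J' g)⟩
  · refine ⟨IntermediateField.adjoin ℚ {x | x ∈ J}, ?_, ?_⟩
    · have hfin : Finite ({x | x ∈ J} : Set Qb) := by
        classical
        have h1 : ({x | x ∈ J} : Set Qb) = (J.toFinset : Set Qb) := by
          ext x
          simp
        rw [h1]
        exact (J.toFinset.finite_toSet).to_subtype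
      exact IntermediateField.finiteDimensional_adjoin
        (fun x _ => (AlgebraicClosure.isAlgebraic ℚ).isAlgebraic x |>.isIntegral)
    · intro g hg
      rw [RQU_mem, hJ']
      unfold tr
      rw [Multiset.map_map]
      apply Multiset.map_congr rfl
      intro x hx
      have h1 : g x = x := hg x (IntermediateField.subset_adjoin ℚ _ hx)
      show g • uu (p ^ a) ι x = uu (p ^ a) ι x
      rw [← hD.smul x (hJ x hx) g, h1]
  · intro g h hg hh
    rw [RQU_mem] at hg hh ⊢
    have h1 := (hs g).resolve_left hg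
    have h2 := (hs h).resolve_left hh
    rw [RQU_tr_mul, h2, RQU_tr_ng, h1, RQU_ng_ng]
  · intro ρ c hc hcH
    rw [RQU_mem] at hcH
    apply hn
    have h1 : tr c J' = ng J' := by
      unfold tr ng
      apply Multiset.map_congr rfl
      intro v _
      apply Subtype.ext
      funext h
      exact v.2.2 ρ c hc h
    rw [← h1]
    exact hcH

end Pool.T4
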