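import Pool.Agent.Work.MP_223b32_t4.Interface

namespace Pool.T4

theorem CAR_count_ng {U : Type} [AddCommGroup U] [DecidableEq U] (J : Multiset U) (v : U) :
    (ng J).count v = J.count (-v) := by
  have h := Multiset.count_map_eq_count' (fun v : U => -v) J neg_injective (-v)
  rw [neg_neg] at h
  exact h

theorem CAR_ng_card {U : Type} [AddCommGroup U] (J : Multiset U) : (ng J).card = J.card :=
  Multiset.card_map _ _

theorem CAR_ng {G U : Type} [Group G] [AddCommGroup U] [Module ℚ U] [DistribMulAction G U]
    (K : Core G U) (R : Multiset U) (h : IsR K R) : ng R = R := by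
  have h1 := h.stable K.c0
  have h2 : tr K.c0 R = ng R := Multiset.map_congr rfl (fun v _ => K.cc v)
  rw [← h2, h1]

theorem CAR_pair {U : Type} [AddCommGroup U] [Module ℚ U] (J : Multiset U) (hJ : NoPair J) (v : U)
    (hv : v ≠ 0) (h1 : v ∈ J) : -v ∉ J := by
  intro h2
  have hne : v ≠ -v := by
    intro h3
    apply hv
    have h4 : (2 : ℚ) • v = 0 := by
      rw [two_smul]
      nth_rewrite 2 [h3]
      exact add_neg_cancel v
    rcases smul_eq_zero.1 h4 with h5 | h5
    · norm_num at h5
    · exact h5
  refine hJ v (-v) ?_ (add_neg_cancel v)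
  have h3 : ({v, -v} : Multiset U) = v ::ₘ {-v} := rfl
  rw [h3]
  have hnd : (v ::ₘ ({-v} : Multiset U)).Nodup := by
    rw [Multiset.nodup_cons]
    refine ⟨?_, Multiset.nodup_singleton _⟩
    rw [Multiset.mem_singleton]
    exact hne
  rw [Multiset.le_iff_subset hnd]
  intro x hx
  rcases Multiset.mem_cons.1 hx with h | h
  · rw [h]
    exact h1
  · rw [Multiset.mem_singleton.1 h]
    exact h2

theorem CAR_zero {G U : Type} [Group G] [AddCommGroup U] [Module ℚ U] [DistribMulAction G U]
    [DecidableEq U] (K : Core G U) (R : Multiset U) (h : IsR K R) (h0 : (0 : U) ∈ R)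
    (hc : cnt (0 : U) R = R.count 0) : 2 ≤ R.count 0 := by
  obtain ⟨n, hn⟩ := h.ht 0 h0
  have h1 : orb K.D (0 : U) = {0} := by
    ext y
    constructor
    · rintro ⟨d, _, rfl⟩
      exact smul_zero d
    · intro hy
      rw [Set.mem_singleton_iff] at hy
      exact ⟨1, K.D.one_mem, by rw [hy, smul_zero]⟩
  rw [h1, Set.ncard_singleton, map_zero, zero_add, mul_one, mul_one, hc] at hn
  have h2 : R.count 0 = 2 * n := by exact_mod_cast hn
  have h3 : 0 < R.count 0 := Multiset.count_pos.2 h0
  omega

theorem p_CAR : Stmt_CAR := by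
  classical
  intro G U _ _ _ _ K R J hR hcard hJR hsum heven hJ
  have hng := CAR_ng K R hR
  have hle : J + ng J ≤ R := by
    rw [Multiset.le_iff_count]
    intro v
    rw [Multiset.count_add, CAR_count_ng]
    have e1 : J.count v ≤ R.count v := Multiset.le_iff_count.1 hJR v
    have e2 : J.count (-v) ≤ R.count (-v) := Multiset.le_iff_count.1 hJR (-v)
    have e3 : R.count (-v) = R.count v := by
      rw [← CAR_count_ng, hng]
    by_cases hv : v = 0
    · subst hv
      rw [neg_zero]
      have h1 : J.count (0 : U) ≤ 1 := by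
        by_contra h2
        refine hJ 0 0 ?_ (add_zero 0)
        have h3 : ({0, 0} : Multiset U) = Multiset.replicate 2 0 := rfl
        rw [h3, ← Multiset.le_count_iff_replicate_le]
        omega
      rcases Nat.eq_zero_or_pos (J.count (0 : U)) with h2 | h2
      · omega
      · have h3 : (0 : U) ∈ R := Multiset.mem_of_le hJR (Multiset.count_pos.1 h2)
        have h4 := CAR_zero K R hR h3 rfl
        omega
    · by_cases h1 : v ∈ J
      · have h2 : J.count (-v) = 0 := Multiset.count_eq_zero.2 (CAR_pair J hJ v hv h1)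
        omega
      · have h2 : J.count v = 0 := Multiset.count_eq_zero.2 h1
        omega
  have hc := Multiset.card_le_card hle
  rw [Multiset.card_add, CAR_ng_card] at hc
  obtain ⟨k, hk⟩ := heven
  have hk2 : k = 0 ∨ k = 1 ∨ k = 2 := by omega
  rcases hk2 with h | h | h
  · left
    rw [← Multiset.card_eq_zero]
    omega
  · exfalso
    have h2 : J.card = 2 := by omega
    obtain ⟨a, b, hab⟩ := Multiset.card_eq_two.1 h2
    refine hJ a b (le_of_eq hab.symm) ?_
    rw [hab] at hsum
    have h3 : ({a, b} : Multiset U).sum = a + b := by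
      have h4 : ({a, b} : Multiset U) = a ::ₘ {b} := rfl
      rw [h4, Multiset.sum_cons, Multiset.sum_singleton]
    rw [h3] at hsum
    exact hsum
  · right
    have h2 : J.card = 4 := by omega
    have heq : J + ng J = R := Multiset.eq_of_le_of_card_le hle (by
      rw [Multiset.card_add, CAR_ng_card]
      omega)
    exact ⟨hR, h2, heq.symm, hsum, hJ⟩

end Pool.T4
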