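import Pool.Agent.Work.MP_223b32_t4.Interface7

/-! Block CY7 (helper36). -/

namespace Pool.T4

theorem p_CY7 (hX : Stmt_MX7) (hP : Stmt_PMN) (hG : Stmt_GLU) (hQ : Stmt_RQU) : Stmt_CY7 := by
  intro p _ a ι ρ c hc ha hd R J hR hJ hpent s hs
  obtain ⟨r, m, hm, hr, hg⟩ := hQ p a ι ha hd J
    (fun x hx => hR.weil x (Multiset.mem_of_le hJ hx)) hpent.sgn hpent.ne
  obtain ⟨S, t, hSJ, hns, hcm, ht⟩ := hX p a ι ρ c hc ha hd R J hR hJ hpent r m hm hr hg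
  have key : ∀ e : ℕ, e = 0 ∨ e = 1 → t + e = 3 → Cyc (p ^ a) ι (J + {s}) := by
    intro e he hte
    have h1 := hP p a ι ha hd r m hm hr hns s hs e he
    have h2 := hG (p ^ a) p ι r m _ _ _ _ _ _ _ _ hcm h1
    rw [hte] at h2
    have h3 : Cyc (p ^ a) ι (S + {s}) := Cyc.weil6 r m _ h2
    refine Cyc.sim (S + {s}) _ ?_ h3
    rw [Multiset.map_add, Multiset.map_add, hSJ]
  rcases ht with rfl | rfl
  · exact key 1 (Or.inr rfl) rfl
  · exact key 0 (Or.inl rfl) rfl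

end Pool.T4
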