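import Pool.Agent.Work.MP_223b32_t4.Interface

namespace Pool.T4

theorem CYM_germ {p : ℕ} [Fact p.Prime] {q : ℕ} {ι : Qb →+* PadicAlgCl p} (hd : Dict q ι)
    {J S : Multiset Qb} (hJ : ∀ x ∈ J, Weil q x) (hS : ∀ x ∈ S, Weil q x)
    (h : J.map (uu q ι) = S.map (uu q ι)) : J.map germ = S.map germ := by
  have h1 : Multiset.Rel Eq (J.map (uu q ι)) (S.map (uu q ι)) := Multiset.rel_eq.2 h
  rw [Multiset.rel_map] at h1
  refine Multiset.rel_eq.1 ?_
  rw [Multiset.rel_map]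
  refine h1.mono fun x hx y hy hxy => ?_
  exact Quotient.sound ((hd.sim x y (hJ x hx) (hS y hy)).2 hxy)

theorem p_CYM (hE : Stmt_EIS) (hR : Stmt_RTX) (hG : Stmt_GLU) : Stmt_CYM := by
  intro p _ a ι ρ c hc ha hd J hJ v v' hJv r m hm hr hfix hdr hw
  have hx : ∃ x ∈ J, uu (p ^ a) ι x = v := by
    have h1 : v ∈ J.map (uu (p ^ a) ι) := by
      rw [hJv]; simp
    obtain ⟨x, hx, h2⟩ := Multiset.mem_map.1 h1
    exact ⟨x, hx, h2⟩
  have hx' : ∃ x ∈ J, uu (p ^ a) ι x = v' := by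
    have h1 : v' ∈ J.map (uu (p ^ a) ι) := by
      rw [hJv]; simp
    obtain ⟨x, hx, h2⟩ := Multiset.mem_map.1 h1
    exact ⟨x, hx, h2⟩
  obtain ⟨x, hxJ, hxv⟩ := hx
  obtain ⟨x', hxJ', hxv'⟩ := hx'
  have hWx := hJ x hxJ
  have hWx' := hJ x' hxJ'
  have hwx : (coreU ι ρ c hc).w v = ur (p ^ a) ι x 1 := by
    rw [← hxv, ← hd.mem x hWx]; rfl
  have hwx' : (coreU ι ρ c hc).w v' = ur (p ^ a) ι x' 1 := by
    rw [← hxv', ← hd.mem x' hWx']; rfl
  rw [hwx, hwx'] at hw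
  have hsim : ∀ g : GQ, g r = r → Sim (g x) x := fun g hg => by
    rw [hd.sim _ _ (hd.weil x hWx g) hWx, hd.smul x hWx g, hxv]
    exact (hfix g hg).1
  have hsim' : ∀ g : GQ, g r = r → Sim (g x') x' := fun g hg => by
    rw [hd.sim _ _ (hd.weil x' hWx' g) hWx', hd.smul x' hWx' g, hxv']
    exact (hfix g hg).2
  obtain ⟨T, hT3, hTs, hTt, hTc⟩ := hE p ι
  have key : ∀ n n' : ℕ, (3 : ℝ) * (ur (p ^ a) ι x 1 + 1) = 2 * n →
      (1 : ℝ) * (ur (p ^ a) ι x' 1 + 1) = 2 * n' → n + n' = 2 → Cyc (p ^ a) ι J := by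
    intro n n' hn hn' hnn
    have h1 := hR p a ι ha hd r m hm hr hdr T (by
        rw [← Finset.card_pos]; omega) hTs hTt hTc x n hWx hsim (by
      have h2 := (hd.nrm x hWx 1 T.card n).2 (by rw [hT3]; exact_mod_cast hn)
      simpa using h2)
    have h2 := hR p a ι ha hd r m hm hr hdr {0} (Finset.singleton_nonempty 0) (by
        intro g t ht
        rw [Finset.mem_singleton] at ht
        rw [ht, map_zero]; exact Finset.mem_singleton_self 0) (by
        intro t ht t' ht'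
        rw [Finset.mem_singleton] at ht ht'
        exact ⟨1, (dec ι).one_mem, by rw [ht, ht']; rfl⟩) (by
        intro ρ' c' _ t ht
        rw [Finset.mem_singleton] at ht
        rw [ht, map_zero]) x' n' hWx' hsim' (by
      have h3 := (hd.nrm x' hWx' 1 1 n').2 (by exact_mod_cast hn')
      simpa using h3)
    have h3 := hG (p ^ a) p ι r m _ _ _ _ _ _ _ _ h1 h2
    rw [hT3, Finset.card_singleton, hnn] at h3
    have h4 := Cyc.weil4 r m _ _ h3
    refine Cyc.sim _ J (CYM_germ hd ?_ hJ ?_) h4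
    · intro y hy
      rcases Multiset.mem_add.1 hy with hy | hy
      · rw [Multiset.eq_of_mem_replicate hy]; exact hWx
      · rw [Multiset.eq_of_mem_replicate hy]; exact hWx'
    · rw [Multiset.map_add, Multiset.map_replicate, Multiset.map_replicate, hxv, hxv', hJv]
      rfl
  rcases hw with ⟨h1, h2⟩ | ⟨h1, h2⟩
  · exact key 2 0 (by rw [h1]; norm_num) (by rw [h2]; norm_num) rfl
  · exact key 1 1 (by rw [h1]; norm_num) (by rw [h2]; norm_num) rfl

end Pool.T4
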