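import Pool.Agent.Work.MP_223b32_t4.Interface

/-! # Block DIC: the dictionary between Weil numbers and vectors -/

namespace Pool.T4

theorem DIC_conj {q : ℕ} {x : Qb} (hx : Weil q x) {ρ : Qb →+* ℂ} {c : GQ} (hc : IsConj c ρ) :
    x * c x = (q : Qb) := by
  apply ρ.injective
  rw [map_mul, hc x, map_natCast, Complex.mul_conj, Complex.normSq_eq_norm_sq, hx.2 ρ]
  simp

theorem DIC_weil {q : ℕ} {x : Qb} (hx : Weil q x) (g : GQ) : Weil q (g x) := by
  refine ⟨?_, fun ρ => ?_⟩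
  · exact hx.1.map (g.toAlgHom.restrictScalars ℤ)
  · exact hx.2 (ρ.comp (g : Qb →+* Qb))

theorem DIC_ne {q : ℕ} (hq : 0 < q) {x : Qb} (hx : Weil q x) (ρ : Qb →+* ℂ) : x ≠ 0 := by
  rintro rfl
  have h := hx.2 ρ
  rw [map_zero, norm_zero] at h
  have h2 : (0 : ℝ) < q := by exact_mod_cast hq
  norm_num at h
  rw [← h] at h2
  simp at h2

section

variable {p : ℕ} [Fact p.Prime] {ι : Qb →+* PadicAlgCl p}

theorem DIC_mem {q : ℕ} {x : Qb} (h : ur q ι x ∈ UU ι) : (uu q ι x).1 = ur q ι x := by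
  unfold uu
  rw [dif_pos h]

/-- evaluation at `g` -/
def DIC_ev (ι : Qb →+* PadicAlgCl p) (g : GQ) : UU ι →+ ℝ where
  toFun f := f.1 g
  map_zero' := rfl
  map_add' _ _ := rfl

theorem DIC_sum {q : ℕ} (S : Multiset Qb) (h : ∀ x ∈ S, ur q ι x ∈ UU ι) (g : GQ) :
    ((S.map (uu q ι)).sum).1 g = (S.map fun x => ur q ι x g).sum := by
  have h1 : DIC_ev ι g ((S.map (uu q ι)).sum) = ((S.map (uu q ι)).map (DIC_ev ι g)).sum :=
    map_multiset_sum _ _
  have h2 : (S.map (uu q ι)).map (DIC_ev ι g) = S.map fun x => ur q ι x g := by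
    rw [Multiset.map_map]
    apply Multiset.map_congr rfl
    intro x hx
    show (uu q ι x).1 g = ur q ι x g
    rw [DIC_mem (h x hx)]
  rw [h2] at h1
  exact h1

theorem DIC_sum_zero {q : ℕ} (S : Multiset Qb) (h : ∀ x ∈ S, ur q ι x ∈ UU ι) :
    (S.map (uu q ι)).sum = 0 ↔ ∀ g : GQ, (S.map fun x => ur q ι x g).sum = 0 := by
  constructor
  · intro h1 g
    rw [← DIC_sum S h g, h1]
    rfl
  · intro h1
    apply Subtype.ext
    funext g
    rw [DIC_sum S h g, h1 g]
    rfl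

end

theorem p_DIC (h1 : Stmt_UME) (h2 : Stmt_SUM) (h3 : Stmt_CCJ) (h4 : Stmt_RHO) : Stmt_DIC := by
  intro p _ a ι ha
  obtain ⟨ρ0⟩ := h4
  obtain ⟨c0, hc0⟩ := h3 ρ0
  have hq : 0 < p ^ a := pow_pos (Fact.out : p.Prime).pos a
  have hmem : ∀ x, Weil (p ^ a) x → ur (p ^ a) ι x ∈ UU ι := fun x hx => (h1 p a ι ha x hx).1
  have hmem' : ∀ x, Weil (p ^ a) x → (uu (p ^ a) ι x).1 = ur (p ^ a) ι x := fun x hx =>
    DIC_mem (hmem x hx)
  have hsmul : ∀ x, Weil (p ^ a) x → ∀ g : GQ, uu (p ^ a) ι (g x) = g • uu (p ^ a) ι x := by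
    intro x hx g
    apply Subtype.ext
    funext h
    rw [smul_val, hmem' _ (DIC_weil hx g), hmem' _ hx]
    rfl
  have hsum : ∀ S : Multiset Qb, (∀ x ∈ S, Weil (p ^ a) x) →
      ((S.map (uu (p ^ a) ι)).sum = 0 ↔ Sim (S.prod ^ 2) (((p ^ a : ℕ) : Qb) ^ S.card)) := by
    intro S hS
    rw [DIC_sum_zero S (fun x hx => hmem x (hS x hx))]
    exact h2 p a ι ha S hS
  refine ⟨hmem', fun x hx g => DIC_weil hx g, hsmul, ?_, hsum, ?_, ?_, ?_, ?_⟩
  · intro x y hx hy
    constructor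
    · rintro ⟨N, hN, e⟩
      apply Subtype.ext
      funext g
      rw [hmem' x hx, hmem' y hy]
      have h5 : ‖ι (g x)‖ ^ N = ‖ι (g y)‖ ^ N := by
        rw [← norm_pow, ← norm_pow, ← map_pow, ← map_pow, ← map_pow, ← map_pow, e]
      have h6 : ‖ι (g x)‖ = ‖ι (g y)‖ :=
        (pow_left_inj₀ (norm_nonneg _) (norm_nonneg _) hN.ne').1 h5
      show -2 * Real.logb _ ‖ι (g x)‖ - 1 = -2 * Real.logb _ ‖ι (g y)‖ - 1
      rw [h6]
    · intro h
      have hcy := DIC_weil hy c0
      have h5 : uu (p ^ a) ι (c0 y) = - uu (p ^ a) ι y := by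
        rw [hsmul y hy c0]
        exact (coreU ι ρ0 c0 hc0).cc _
      have h6 := (hsum {x, c0 y} (by
        intro z hz
        simp only [Multiset.insert_eq_cons, Multiset.mem_cons, Multiset.mem_singleton] at hz
        rcases hz with rfl | rfl
        · exact hx
        · exact hcy)).1 (by
        simp only [Multiset.insert_eq_cons, Multiset.map_cons, Multiset.map_singleton,
          Multiset.sum_cons, Multiset.sum_singleton]
        rw [h5, h, add_neg_cancel])
      obtain ⟨N, hN, e⟩ := h6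
      refine ⟨2 * N, by omega, ?_⟩
      have h7 : ({x, c0 y} : Multiset Qb).prod = x * c0 y := by
        simp only [Multiset.insert_eq_cons, Multiset.prod_cons, Multiset.prod_singleton]
      have h8 : Multiset.card ({x, c0 y} : Multiset Qb) = 2 := by
        simp only [Multiset.insert_eq_cons, Multiset.card_cons, Multiset.card_singleton]
      rw [h7, h8, ← DIC_conj hy hc0, ← pow_mul, ← pow_mul, mul_pow, mul_pow] at e
      exact mul_right_cancel₀ (pow_ne_zero _ (DIC_ne hq hcy ρ0)) e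
  · intro x hx g
    exact (h1 p a ι ha x hx).2.1 g
  · intro x hx g M n
    exact (h1 p a ι ha x hx).2.2 g M n
  · intro x hx ρ c hc
    exact DIC_conj hx hc
  · intro x hx
    have h5 := hsum {x} (by
      intro z hz
      rw [Multiset.mem_singleton] at hz
      rw [hz]; exact hx)
    rw [Multiset.map_singleton, Multiset.sum_singleton, Multiset.prod_singleton,
      Multiset.card_singleton, pow_one] at h5
    exact h5.symm

end Pool.T4
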