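import Pool.Agent.Work.MP_223b32_t4.DefsPow
import Pool.Agent.Work.MP_223b32_t4.Defs6
import Pool.Agent.Work.MP_223b32_t4.DefsInd

/-! # The factors of the products -/

namespace Pool.T4

/-- The abelian varieties whose powers are considered: dimension at most four and not the exception,
or dimension at most five and isotypic up to supersingular factors (for instance simple over the
algebraic closure of the finite field). -/
def Factor {p : ℕ} [Fact p.Prime] (q : ℕ) (ι : Qb →+* PadicAlgCl p) (R : Multiset Qb) : Prop :=
  IsAV q ι R ∧ ((R.card ≤ 8 ∧ ¬ Exc4 q R) ∨ (R.card ≤ 10 ∧ Isotypic q R))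

end Pool.T4
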