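import Pool.Agent.Work.MP_223b32_t4.Interface

/-!
# EIS: the totally real cubic field of `X ^ 3 - 3 p X + p`, totally ramified at `p`
-/

namespace Pool.T4

open Polynomial

theorem EIS_deg {R : Type*} [CommRing R] [Nontrivial R] (a b : R) :
    (C a * X + C b : R[X]).degree < (3 : ℕ) :=
  lt_of_le_of_lt degree_linear_le (by norm_num)

theorem EIS_nat {R : Type*} [CommRing R] [Nontrivial R] (a b : R) :
    (X ^ 3 + (C a * X + C b) : R[X]).natDegree = 3 := by
  compute_degree!

/-- The Eisenstein polynomial is irreducible over the fraction field. -/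
theorem EIS_irred {R K : Type*} [CommRing R] [IsDomain R] [IsIntegrallyClosed R] [Field K]
    [Algebra R K] [IsFractionRing R K] (p : R) (hp : Prime p) :
    Irreducible (X ^ 3 + (C (-3 * algebraMap R K p) * X + C (algebraMap R K p)) : K[X]) := by
  set f : R[X] := X ^ 3 + (C (-3 * p) * X + C p) with hf
  have hmon : f.Monic := monic_X_pow_add (EIS_deg _ _)
  have hdeg : f.natDegree = 3 := EIS_nat _ _
  have hprime : (Ideal.span {p} : Ideal R).IsPrime :=
    (Ideal.span_singleton_prime hp.ne_zero).2 hp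
  have hE : f.IsEisensteinAt (Ideal.span {p}) := by
    constructor
    · rw [hmon.leadingCoeff]
      exact fun h => hprime.ne_top ((Ideal.eq_top_iff_one _).2 h)
    · intro n hn
      rw [hdeg] at hn
      rw [Ideal.mem_span_singleton]
      interval_cases n
      · simp [hf]
      · simp [hf, coeff_C]
      · simp [hf]
    · rw [Ideal.span_singleton_pow, Ideal.mem_span_singleton]
      have h0 : f.coeff 0 = p := by simp [hf]
      rw [h0]
      rintro ⟨c, hc⟩
      apply hp.not_isUnit
      refine IsUnit.of_mul_eq_one c ?_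
      apply mul_left_cancel₀ hp.ne_zero
      calc p * (p * c) = p ^ 2 * c := by ring
        _ = p * 1 := by rw [← hc, mul_one]
  have hirr : Irreducible f := hE.irreducible hprime hmon.isPrimitive (by rw [hdeg]; norm_num)
  have h2 := (Polynomial.Monic.irreducible_iff_irreducible_map_fraction_map (K := K) hmon).1 hirr
  have h3 : f.map (algebraMap R K) =
      X ^ 3 + (C (-3 * algebraMap R K p) * X + C (algebraMap R K p)) := by
    rw [hf]
    rw [Polynomial.map_add, Polynomial.map_add, Polynomial.map_pow, Polynomial.map_mul, map_X,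
      map_C, map_C]
    rw [(algebraMap R K).map_mul, (algebraMap R K).map_neg, map_ofNat]
  rwa [h3] at h2

/-- All complex roots are real. -/
theorem EIS_real (p : ℕ) (hp : 2 ≤ p) (z : ℂ) (hz : z ^ 3 - 3 * p * z + p = 0) :
    starRingEnd ℂ z = z := by
  have hP : (2 : ℝ) ≤ (p : ℝ) := by exact_mod_cast hp
  set F : ℝ → ℝ := fun x => x ^ 3 - 3 * p * x + p with hF
  have hcont : Continuous F := by
    rw [hF]; fun_prop
  have h1 : F 0 > 0 := by simp only [hF]; nlinarith
  have h2 : F 1 < 0 := by simp only [hF]; nlinarith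
  have h3 : F (-(2 * p)) < 0 := by simp only [hF]; nlinarith [sq_nonneg ((p : ℝ) - 2)]
  have h4 : F (2 * p) > 0 := by simp only [hF]; nlinarith [sq_nonneg ((p : ℝ) - 2)]
  obtain ⟨a, ⟨ha1, ha2⟩, ha⟩ : ∃ a ∈ Set.Ioo (-(2 * (p : ℝ))) 0, F a = 0 :=
    intermediate_value_Ioo (by linarith) hcont.continuousOn ⟨h3, h1⟩
  obtain ⟨b, ⟨hb1, hb2⟩, hb⟩ : ∃ b ∈ Set.Ioo (0 : ℝ) 1, F b = 0 :=
    intermediate_value_Ioo' (by linarith) hcont.continuousOn ⟨h2, h1⟩
  obtain ⟨c, ⟨hc1, hc2⟩, hc⟩ : ∃ c ∈ Set.Ioo (1 : ℝ) (2 * p), F c = 0 :=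
    intermediate_value_Ioo (by linarith) hcont.continuousOn ⟨h2, h4⟩
  simp only [hF] at ha hb hc
  have hab : a ^ 2 + a * b + b ^ 2 = 3 * p := by
    have h : (a - b) * (a ^ 2 + a * b + b ^ 2 - 3 * p) = 0 := by linear_combination ha - hb
    rcases mul_eq_zero.1 h with h | h
    · exfalso; linarith
    · linarith
  have hac : a ^ 2 + a * c + c ^ 2 = 3 * p := by
    have h : (a - c) * (a ^ 2 + a * c + c ^ 2 - 3 * p) = 0 := by linear_combination ha - hc
    rcases mul_eq_zero.1 h with h | h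
    · exfalso; linarith
    · linarith
  have hs : a + b + c = 0 := by
    have h : (b - c) * (a + b + c) = 0 := by linear_combination hab - hac
    rcases mul_eq_zero.1 h with h | h
    · exfalso; linarith
    · exact h
  have hsC : (a : ℂ) + b + c = 0 := by exact_mod_cast hs
  have habC : (a : ℂ) ^ 2 + a * b + b ^ 2 = 3 * p := by exact_mod_cast hab
  have haC : (a : ℂ) ^ 3 - 3 * p * a + p = 0 := by exact_mod_cast ha
  have hprod : (z - a) * ((z - b) * (z - c)) = 0 := by
    have hcc : (c : ℂ) = -a - b := by linear_combination hsC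
    rw [hcc]
    linear_combination hz - haC - (z - a) * habC
  rcases mul_eq_zero.1 hprod with h | h
  · rw [sub_eq_zero.1 h]; exact Complex.conj_ofReal a
  · rcases mul_eq_zero.1 h with h | h
    · rw [sub_eq_zero.1 h]; exact Complex.conj_ofReal b
    · rw [sub_eq_zero.1 h]; exact Complex.conj_ofReal c

theorem p_EIS (hR : Stmt_RST) : Stmt_EIS := by
  classical
  intro p hpf ι
  have hp : p.Prime := hpf.out
  have hpZ : Prime ((p : ℤ)) := Nat.prime_iff_prime_int.1 hp
  set fQ : ℚ[X] := X ^ 3 + (C (-3 * algebraMap ℤ ℚ p) * X + C (algebraMap ℤ ℚ p)) with hfQ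
  have hirr : Irreducible fQ := EIS_irred (K := ℚ) (p : ℤ) hpZ
  have hmonQ : fQ.Monic := monic_X_pow_add (EIS_deg _ _)
  have hdegQ : fQ.natDegree = 3 := EIS_nat _ _
  -- the local polynomial
  set fL : ℚ_[p][X] := X ^ 3 + (C (-3 * algebraMap ℤ_[p] ℚ_[p] p) * X +
    C (algebraMap ℤ_[p] ℚ_[p] p)) with hfL
  have hirrL : Irreducible fL := EIS_irred (K := ℚ_[p]) (p : ℤ_[p]) PadicInt.prime_p
  have hmonL : fL.Monic := monic_X_pow_add (EIS_deg _ _)
  have hmem : ∀ x : Qb, x ∈ fQ.rootSet Qb ↔ x ^ 3 - 3 * p * x + p = 0 := by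
    intro x
    rw [mem_rootSet, hfQ]
    have h1 : (aeval x) (X ^ 3 + (C (-3 * algebraMap ℤ ℚ p) * X + C (algebraMap ℤ ℚ p)) : ℚ[X]) =
        x ^ 3 - 3 * p * x + p := by
      simp only [map_add, map_mul, map_pow, aeval_X, aeval_C, map_neg, map_ofNat]
      simp
      ring
    rw [h1]
    exact ⟨fun h => h.2, fun h => ⟨hmonQ.ne_zero, h⟩⟩
  refine ⟨(fQ.rootSet Qb).toFinset, ?_, ?_, ?_, ?_⟩
  · rw [Set.toFinset_card]
    rw [card_rootSet_eq_natDegree hirr.separable (IsAlgClosed.splits _), hdegQ]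
  · intro g t ht
    rw [Set.mem_toFinset, hmem] at ht ⊢
    have h := congrArg g ht
    simpa [map_ofNat] using h
  · intro t ht t' ht'
    rw [Set.mem_toFinset, hmem] at ht ht'
    have hroot : ∀ y : PadicAlgCl p, y ^ 3 - 3 * p * y + p = 0 → minpoly ℚ_[p] y = fL := by
      intro y hy
      refine (minpoly.eq_of_irreducible_of_monic hirrL ?_ hmonL).symm
      rw [hfL]
      simp only [map_add, map_mul, map_pow, aeval_X, aeval_C, map_neg, map_ofNat]
      rw [← hy]
      simp
      ring
    have h1 : (ι t) ^ 3 - 3 * p * (ι t) + p = 0 := by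
      have h := congrArg ι ht
      simpa [map_ofNat] using h
    have h2 : (ι t') ^ 3 - 3 * p * (ι t') + p = 0 := by
      have h := congrArg ι ht'
      simpa [map_ofNat] using h
    have h3 : IsConjRoot ℚ_[p] (ι t') (ι t) := by
      rw [isConjRoot_def, hroot _ h1, hroot _ h2]
    obtain ⟨σ, hσ⟩ := (isConjRoot_iff_exists_algEquiv).1 h3
    obtain ⟨g, hg, hgσ⟩ := hR p ι σ
    refine ⟨g, hg, ι.injective ?_⟩
    rw [hgσ, hσ]
  · intro ρ c hc t ht
    rw [Set.mem_toFinset, hmem] at ht
    apply ρ.injective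
    rw [hc]
    apply EIS_real p hp.two_le
    have h := congrArg ρ ht
    simpa [map_ofNat] using h

end Pool.T4
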