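import Pool.Agent.Work.MP_223b32_t4.Interface6

/-! # Block EQ6 -/

namespace Pool.T4

theorem p_EQ6 (h1 : Stmt_EQG) (h2 : Stmt_TW4) : Stmt_EQ6 := by
  intro G U _ _ _ _ K R hR hc hE S hS hs hn h0
  by_cases h : ∀ x ∈ R, ∀ y ∈ R, x ≠ 0 → y ≠ 0 → (gorb G x).ncard = 4 → (gorb G y).ncard = 4 →
      y ∈ gorb G x
  · exact h1 G U K R hR hc h S hS hs hn h0
  · exfalso
    push Not at h
    obtain ⟨x, hx, y, hy, hx0, hy0, hx4, hy4, hxy⟩ := h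
    exact hE (h2 G U K R hR hc x hx y hy hx0 hy0 hx4 hy4 hxy S hS hs hn h0)

end Pool.T4
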