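import Pool.Agent.Work.MP_223b32_t4.Interface5

/-! Block EX5. -/

namespace Pool.T4

open Pool.Agent.Work.MP_223b32_ag

theorem EX5_dec {α β : Type} (f : α → β) {s : Multiset α} {b : β} {t : Multiset β}
    (h : s.map f = b ::ₘ t) : ∃ (a : α) (s' : Multiset α), s = a ::ₘ s' ∧ f a = b ∧ s'.map f = t := by
  classical
  obtain ⟨a, ha, hfa, ht⟩ := (Multiset.map_eq_cons f s t b).2 h
  exact ⟨a, s.erase a, (Multiset.cons_erase ha).symm, hfa, ht⟩

theorem EX5_ne {q : ℕ} (hq : 0 < q) {x : Qb} (ρ : Qb →+* ℂ) (hx : Weil q x) : x ≠ 0 := by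
  rintro rfl
  have h := hx.2 ρ
  rw [map_zero, norm_zero] at h
  have h1 : (0 : ℝ) < q := by exact_mod_cast hq
  norm_num at h
  linarith

theorem EX5_germ {x y : Qb} (h : Sim x y) : germ x = germ y := Quotient.sound h

theorem EX5_key {p : ℕ} [Fact p.Prime] {ι : Qb →+* PadicAlgCl p} {q : ℕ} (hq : 0 < q)
    (hD : Dict q ι) (ρ : Qb →+* ℂ) {a1 a2 e s T : Qb} (h1 : Weil q a1) (h2 : Weil q a2)
    (he : Weil q e) (hs : Weil q s) (hsum : uu q ι a1 + uu q ι a2 + uu q ι e + uu q ι s = 0)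
    (hT : T * (a1 * a2 * s) = (q : Qb) ^ 2) : germ e = germ T := by
  have hS : ∀ x ∈ ({a1, a2, e, s} : Multiset Qb), Weil q x := by
    intro x hx
    simp only [Multiset.insert_eq_cons, Multiset.mem_cons, Multiset.mem_singleton] at hx
    rcases hx with rfl | rfl | rfl | rfl
    · exact h1
    · exact h2
    · exact he
    · exact hs
  have h := (hD.sum _ hS).1 (by
    simp only [Multiset.insert_eq_cons, Multiset.map_cons, Multiset.map_singleton,
      Multiset.sum_cons, Multiset.sum_singleton]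
    rw [← hsum]
    abel)
  obtain ⟨N, hN, hpow⟩ := h
  have hc : ({a1, a2, e, s} : Multiset Qb).card = 4 := rfl
  have hp : ({a1, a2, e, s} : Multiset Qb).prod = e * (a1 * a2 * s) := by
    simp only [Multiset.insert_eq_cons, Multiset.prod_cons, Multiset.prod_singleton]
    ring
  rw [hc, hp] at hpow
  have hw : a1 * a2 * s ≠ 0 :=
    mul_ne_zero (mul_ne_zero (EX5_ne hq ρ h1) (EX5_ne hq ρ h2)) (EX5_ne hq ρ hs)
  refine EX5_germ ⟨2 * N, by omega, ?_⟩
  have h3 : (e * (a1 * a2 * s)) ^ (2 * N) = (T * (a1 * a2 * s)) ^ (2 * N) := by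
    rw [pow_mul, hpow, hT, ← pow_mul, ← pow_mul]
    congr 1
    ring
  rw [mul_pow, mul_pow T] at h3
  exact mul_right_cancel₀ (pow_ne_zero _ hw) h3

theorem p_EX5 : Stmt_EX5 := by
  intro p _ a ι ρ c hc _ hD R hR hExc
  have hq : 0 < p ^ a := pow_pos (Fact.out : p.Prime).pos a
  generalize p ^ a = q at hq hD hR hExc ⊢
  obtain ⟨v, v', hv⟩ := hExc
  simp only [Multiset.insert_eq_cons] at hv
  obtain ⟨r1, R1, e1, f1, hv⟩ := EX5_dec _ hv
  obtain ⟨r2, R2, e2, f2, hv⟩ := EX5_dec _ hv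
  obtain ⟨r3, R3, e3, f3, hv⟩ := EX5_dec _ hv
  obtain ⟨r4, R4, e4, f4, hv⟩ := EX5_dec _ hv
  obtain ⟨r5, R5, e5, f5, hv⟩ := EX5_dec _ hv
  obtain ⟨r6, R6, e6, f6, hv⟩ := EX5_dec _ hv
  obtain ⟨r7, R7, e7, f7, hv⟩ := EX5_dec _ hv
  obtain ⟨r8, R8, e8, f8, hv⟩ := EX5_dec _ hv
  obtain ⟨r9, R9, e9, f9, hv⟩ := EX5_dec _ hv
  rw [← Multiset.cons_zero] at hv
  obtain ⟨r10, R10, e10, f10, hv⟩ := EX5_dec _ hv
  rw [Multiset.map_eq_zero] at hv
  subst hv
  subst e10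
  subst e9
  subst e8
  subst e7
  subst e6
  subst e5
  subst e4
  subst e3
  subst e2
  have hW : ∀ x ∈ R, Weil q x := hR.weil
  have w1 : Weil q r1 := hW _ (by rw [e1]; simp)
  have w2 : Weil q r2 := hW _ (by rw [e1]; simp)
  have w3 : Weil q r3 := hW _ (by rw [e1]; simp)
  have w4 : Weil q r4 := hW _ (by rw [e1]; simp)
  have w5 : Weil q r5 := hW _ (by rw [e1]; simp)
  have w6 : Weil q r6 := hW _ (by rw [e1]; simp)
  have w7 : Weil q r7 := hW _ (by rw [e1]; simp)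
  have w8 : Weil q r8 := hW _ (by rw [e1]; simp)
  have w9 : Weil q r9 := hW _ (by rw [e1]; simp)
  have w10 : Weil q r10 := hW _ (by rw [e1]; simp)
  have n1 : r1 ≠ 0 := EX5_ne hq ρ w1
  have n3 : r3 ≠ 0 := EX5_ne hq ρ w3
  obtain ⟨s, hs⟩ := IsAlgClosed.exists_pow_nat_eq (q : Qb) (n := 2) (by norm_num)
  have ws : Weil q s := by
    refine ⟨?_, fun ρ' => ?_⟩
    · refine IsIntegral.of_pow (n := 2) (by norm_num) ?_
      rw [hs]
      exact (map_natCast (algebraMap ℤ Qb) q) ▸ (isIntegral_algebraMap : IsIntegral ℤ (algebraMap ℤ Qb (q : ℤ)))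
    · have h : ρ' s ^ 2 = (q : ℂ) := by
        rw [← map_pow, hs, map_natCast]
      rw [← norm_pow, h, Complex.norm_natCast]
  have ns : s ≠ 0 := EX5_ne hq ρ ws
  have us : uu q ι s = 0 := (hD.ss s ws).1 ⟨1, one_pos, by rw [hs]⟩
  have hcx : ∀ x, Weil q x → uu q ι (c x) = -uu q ι x := fun x hx => by
    rw [hD.smul x hx c]
    exact (coreU ι ρ c hc).cc _
  have c1 : r1 * c r1 = (q : Qb) := hD.conj _ w1 ρ c hc
  have c3 : r3 * c r3 = (q : Qb) := hD.conj _ w3 ρ c hc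
  have wc1 : Weil q (c r1) := hD.weil _ w1 c
  have wc3 : Weil q (c r3) := hD.weil _ w3 c
  have d1 : c r1 = (q : Qb) / r1 := by
    rw [eq_div_iff n1, mul_comm]
    exact c1
  have d3 : c r3 = (q : Qb) / r3 := by
    rw [eq_div_iff n3, mul_comm]
    exact c3
  have g2 : germ r2 = germ ((q : Qb) / r1) := by
    rw [← d1]
    refine EX5_germ ((hD.sim _ _ w2 wc1).2 ?_)
    rw [hcx _ w1, f2, f1]
  have g4 : germ r4 = germ ((q : Qb) / r3) := by
    rw [← d3]
    refine EX5_germ ((hD.sim _ _ w4 wc3).2 ?_)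
    rw [hcx _ w3, f4, f3]
  have g5 : germ r5 = germ (r1 * r3 / s) := by
    refine EX5_key hq hD ρ wc1 wc3 w5 ws ?_ ?_
    · rw [hcx _ w1, hcx _ w3, f1, f3, f5, us]
      abel
    · rw [d1, d3]
      field_simp
  have g6 : germ r6 = germ ((q : Qb) * s / (r1 * r3)) := by
    refine EX5_key hq hD ρ w1 w3 w6 ws ?_ ?_
    · rw [f1, f3, f6, us]
      abel
    · have : (q : Qb) ^ 2 = q * s ^ 2 := by rw [hs]; ring
      rw [this]
      field_simp
  have g7 : germ r7 = germ (s * r1 / r3) := by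
    refine EX5_key hq hD ρ wc1 w3 w7 ws ?_ ?_
    · rw [hcx _ w1, f1, f3, f7, us]
      abel
    · rw [d1]
      have : (q : Qb) ^ 2 = q * s ^ 2 := by rw [hs]; ring
      rw [this]
      field_simp
  have g8 : germ r8 = germ (s * r3 / r1) := by
    refine EX5_key hq hD ρ w1 wc3 w8 ws ?_ ?_
    · rw [hcx _ w3, f1, f3, f8, us]
      abel
    · rw [d3]
      have : (q : Qb) ^ 2 = q * s ^ 2 := by rw [hs]; ring
      rw [this]
      field_simp
  have g9 : germ r9 = germ s := EX5_germ ((hD.sim _ _ w9 ws).2 (by rw [f9, us]))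
  have g10 : germ r10 = germ s := EX5_germ ((hD.sim _ _ w10 ws).2 (by rw [f10, us]))
  refine ⟨r1, r3, s, by rw [e1]; simp, by rw [e1]; simp, hs, ?_⟩
  rw [e1]
  simp only [Multiset.insert_eq_cons, Multiset.map_cons, Multiset.map_singleton,
    Multiset.cons_zero]
  rw [g2, g4, g5, g6, g7, g8, g9, g10]

end Pool.T4
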