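import Pool.Agent.Work.MP_223b32_t4.Interface5
import Pool.Agent.Work.MP_223b32_t4.CAR

/-! # Block DE5 -/

set_option autoImplicit false

namespace Pool.T4

theorem DE5_even {G U : Type} [Group G] [AddCommGroup U] [Module ℚ U] [DistribMulAction G U]
    [DecidableEq U] (K : Core G U) (R : Multiset U) (h : IsR K R)
    (hc : cnt (0 : U) R = R.count 0) : ∃ n, R.count 0 = 2 * n := by
  by_cases h0 : (0 : U) ∈ R
  · obtain ⟨n, hn⟩ := h.ht 0 h0
    have h1 : orb K.D (0 : U) = {0} := by
      ext y
      constructor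
      · rintro ⟨d, _, rfl⟩
        exact smul_zero d
      · intro hy
        rw [Set.mem_singleton_iff] at hy
        exact ⟨1, K.D.one_mem, by rw [hy, smul_zero]⟩
    rw [h1, Set.ncard_singleton, map_zero, zero_add, mul_one, mul_one, hc] at hn
    exact ⟨n, by exact_mod_cast hn⟩
  · exact ⟨0, by rw [Multiset.count_eq_zero.2 h0]⟩

theorem DE5_le {G U : Type} [Group G] [AddCommGroup U] [Module ℚ U] [DistribMulAction G U]
    (K : Core G U) (R J : Multiset U) (hR : IsR K R) (hJR : J ≤ R) (hJ : NoPair J) :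
    J + ng J ≤ R := by
  classical
  have hng := CAR_ng K R hR
  rw [Multiset.le_iff_count]
  intro v
  rw [Multiset.count_add, CAR_count_ng]
  have e1 : J.count v ≤ R.count v := Multiset.le_iff_count.1 hJR v
  have e2 : J.count (-v) ≤ R.count (-v) := Multiset.le_iff_count.1 hJR (-v)
  have e3 : R.count (-v) = R.count v := by
    rw [← CAR_count_ng, hng]
  by_cases hv : v = 0
  · subst hv
    rw [neg_zero]
    have h1 : J.count (0 : U) ≤ 1 := by
      by_contra h2
      refine hJ 0 0 ?_ (add_zero 0)
      have h3 : ({0, 0} : Multiset U) = Multiset.replicate 2 0 := rfl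
      rw [h3, ← Multiset.le_count_iff_replicate_le]
      omega
    rcases Nat.eq_zero_or_pos (J.count (0 : U)) with h2 | h2
    · omega
    · have h3 : (0 : U) ∈ R := Multiset.mem_of_le hJR (Multiset.count_pos.1 h2)
      have h4 := CAR_zero K R hR h3 rfl
      omega
  · by_cases h1 : v ∈ J
    · have h2 : J.count (-v) = 0 := Multiset.count_eq_zero.2 (CAR_pair J hJ v hv h1)
      omega
    · have h2 : J.count v = 0 := Multiset.count_eq_zero.2 h1
      omega

theorem DE5_ng_ng {U : Type} [AddCommGroup U] (J : Multiset U) : ng (ng J) = J := by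
  unfold ng
  rw [Multiset.map_map]
  have h : ((fun v : U => -v) ∘ fun v : U => -v) = id := by
    funext v
    exact neg_neg v
  rw [h, Multiset.map_id]

theorem DE5_ng_add {U : Type} [AddCommGroup U] (J L : Multiset U) : ng (J + L) = ng J + ng L :=
  Multiset.map_add _ _ _

theorem DE5_self {U : Type} [AddCommGroup U] [Module ℚ U] (a : U) (h : -a = a) : a = 0 := by
  have h4 : (2 : ℚ) • a = 0 := by
    rw [two_smul]
    nth_rewrite 2 [← h]
    exact add_neg_cancel a
  rcases smul_eq_zero.1 h4 with h5 | h5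
  · norm_num at h5
  · exact h5

theorem p_DE5 : Stmt_DE5 := by
  classical
  intro G U _ _ _ _ K R J hR hcard hJR hJ4 hsum hJ
  have hng := CAR_ng K R hR
  obtain ⟨Q, hQ⟩ := Multiset.le_iff_exists_add.1 (DE5_le K R J hR hJR hJ)
  have hc : R.card = 8 + Q.card := by
    rw [hQ, Multiset.card_add, Multiset.card_add, CAR_ng_card, hJ4]
  have hQng : ng Q = Q := by
    rw [hQ, DE5_ng_add, DE5_ng_add, DE5_ng_ng, add_comm (ng J) J] at hng
    exact add_left_cancel hng
  have hQ2 : Q.card = 0 ∨ Q.card = 1 ∨ Q.card = 2 := by omega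
  rcases hQ2 with h | h | h
  · left
    rw [Multiset.card_eq_zero] at h
    rw [h, add_zero] at hQ
    exact ⟨hR, hJ4, hQ, hsum, hJ⟩
  · exfalso
    obtain ⟨a, ha⟩ := Multiset.card_eq_one.1 h
    rw [ha] at hQng
    have h1 : ng ({a} : Multiset U) = {-a} := rfl
    rw [h1, Multiset.singleton_inj] at hQng
    have ha0 := DE5_self a hQng
    obtain ⟨n, hn⟩ := DE5_even K R hR rfl
    rw [hQ, Multiset.count_add, Multiset.count_add, CAR_count_ng, neg_zero, ha, ha0,
      Multiset.count_singleton_self] at hn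
    omega
  · right
    obtain ⟨a, b, hab⟩ := Multiset.card_eq_two.1 h
    have h1 : ng ({a, b} : Multiset U) = {-a, -b} := rfl
    rw [hab, h1] at hQng
    have h2 : -a ∈ ({a, b} : Multiset U) := by
      rw [← hQng]
      exact Multiset.mem_cons_self _ _
    rcases Multiset.mem_cons.1 h2 with h3 | h3
    · have ha0 := DE5_self a h3
      rw [h3] at hQng
      have h4 : ({-b} : Multiset U) = {b} := (Multiset.cons_inj_right a).1 hQng
      have hb0 := DE5_self b (Multiset.singleton_inj.1 h4)
      refine ⟨0, hR, hJ4, ?_, hsum, hJ⟩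
      rw [hQ, hab, ha0, hb0, neg_zero]
    · have h4 := Multiset.mem_singleton.1 h3
      refine ⟨a, hR, hJ4, ?_, hsum, hJ⟩
      rw [hQ, hab, h4]

end Pool.T4
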