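import Pool.Agent.Work.MP_223b32_t4.Interface5
import Pool.Agent.Work.MP_223b32_t4.DE5

/-! # Block F55 -/

set_option autoImplicit false

namespace Pool.T4

open Pool.Agent.Work.MP_223b32_ag

theorem p_F55 (hFN1 : Stmt_FN1) (hDIC : Stmt_DIC) (hHTC : Stmt_HTC) (hRNP : Stmt_RNP)
    (hCCJ : Stmt_CCJ) (hRHO : Stmt_RHO) (hP55 : Stmt_P55) (hLF5 : Stmt_LF5) (hEX5 : Stmt_EX5) :
    Stmt_F55 := by
  intro p _ a ι ha R hAV hcard hexc S j hSR hSc hSim
  have hD := hDIC p a ι ha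
  obtain ⟨ρ⟩ := hRHO
  obtain ⟨c, hc⟩ := hCCJ ρ
  have hWS : ∀ x ∈ S, Weil (p ^ a) x := fun x hx => hAV.weil x (Multiset.mem_of_le hSR hx)
  obtain ⟨J, hJS, hJN, hJs, hJe, hJC⟩ := hRNP p a ι ha hD S hWS
  have hS0 : (S.map (uu (p ^ a) ι)).sum = 0 := by
    rw [hD.sum S hWS]
    obtain ⟨N, hN, e⟩ := hSim
    refine ⟨N, hN, ?_⟩
    rw [hSc, ← pow_mul, mul_comm 2 N, pow_mul, e, ← pow_mul, ← pow_mul, ← pow_mul]
    congr 1
    ring
  rw [hS0] at hJs
  apply hJC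
  have hJR : J ≤ R := hJS.trans hSR
  have hWJ : ∀ x ∈ J, Weil (p ^ a) x := fun x hx => hWS x (Multiset.mem_of_le hJS hx)
  have hIsR := hHTC p a ι ρ c hc ha hD R hAV
  have hmap : J.map (uu (p ^ a) ι) ≤ R.map (uu (p ^ a) ι) := Multiset.map_le_map hJR
  have hle := DE5_le (coreU ι ρ c hc) (R.map (uu (p ^ a) ι)) (J.map (uu (p ^ a) ι)) hIsR hmap hJN
  have hcc := Multiset.card_le_card hle
  rw [Multiset.card_add, CAR_ng_card, Multiset.card_map, Multiset.card_map] at hcc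
  have heven : Even J.card := hJe.2 ⟨j, by rw [hSc, two_mul]⟩
  obtain ⟨k, hk⟩ := heven
  have hk2 : k = 0 ∨ k = 1 ∨ k = 2 := by omega
  rcases hk2 with h | h | h
  · have h0 : J = 0 := by
      rw [← Multiset.card_eq_zero]
      omega
    rw [h0]
    exact Cyc.zero
  · exfalso
    have h2 : (J.map (uu (p ^ a) ι)).card = 2 := by
      rw [Multiset.card_map]
      omega
    obtain ⟨u, v, huv⟩ := Multiset.card_eq_two.1 h2
    refine hJN u v (le_of_eq huv.symm) ?_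
    rw [huv] at hJs
    have h3 : ({u, v} : Multiset (UU ι)).sum = u + v := by
      have h4 : ({u, v} : Multiset (UU ι)) = u ::ₘ {v} := rfl
      rw [h4, Multiset.sum_cons, Multiset.sum_singleton]
    rw [h3] at hJs
    exact hJs
  · have hJ4 : J.card = 4 := by omega
    rcases hP55 GQ (UU ι) (coreU ι ρ c hc) (R.map (uu (p ^ a) ι)) (J.map (uu (p ^ a) ι)) hIsR
      (by rwa [Multiset.card_map]) hmap (by rwa [Multiset.card_map]) hJs hJN with ⟨h1, h2⟩ | h1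
    · obtain ⟨R0, _, hJR0, hAV0, hc0⟩ := hLF5 p a ι ρ c hc ha hD R J hAV hJR h1 h2
      refine hFN1 p a ι ha R0 hAV0 (by omega) J 2 hJR0 (by omega) ?_
      obtain ⟨N, hN, e⟩ := (hD.sum J hWJ).1 hJs
      refine ⟨2 * N, by omega, ?_⟩
      rw [pow_mul, e, hJ4, ← pow_mul, ← pow_mul]
      congr 1
      ring
    · exact absurd (hEX5 p a ι ρ c hc ha hD R hAV h1) hexc

end Pool.T4
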