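import Pool.Agent.Work.MP_223b32_t4.Interface

namespace Pool.T4

open Pool.Agent.Work.MP_223b32_ag

theorem p_FN1 (hCAR : Stmt_CAR) (hSGN : Stmt_SGN) (hMUL : Stmt_MUL) (hCYD : Stmt_CYD)
    (hCYM : Stmt_CYM) (hRQU : Stmt_RQU) (hRNP : Stmt_RNP) (hHTC : Stmt_HTC) (hDIC : Stmt_DIC)
    (hCCJ : Stmt_CCJ) (hRHO : Stmt_RHO) : Stmt_FN1 := by
  intro p _ a ι ha R hR hR8 S j hSR hSj hSim
  obtain ⟨ρ⟩ := hRHO
  obtain ⟨c, hc⟩ := hCCJ ρ
  have D : Dict (p ^ a) ι := hDIC p a ι ha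
  have hIR : IsR (coreU ι ρ c hc) (R.map (uu (p ^ a) ι)) := hHTC p a ι ρ c hc ha D R hR
  have hSW : ∀ x ∈ S, Weil (p ^ a) x := fun x hx => hR.weil x (Multiset.mem_of_le hSR hx)
  have hS0 : (S.map (uu (p ^ a) ι)).sum = 0 := by
    rw [D.sum S hSW, hSj]
    obtain ⟨N, hN, e⟩ := hSim
    refine ⟨N, hN, ?_⟩
    rw [← pow_mul, mul_comm 2 N, pow_mul, e, ← pow_mul, ← pow_mul, ← pow_mul]
    congr 1
    ring
  obtain ⟨J, hJS, hNP, hsum, hev, hcyc⟩ := hRNP p a ι ha D S hSW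
  refine hcyc ?_
  have hJR : J ≤ R := hJS.trans hSR
  have hJW : ∀ x ∈ J, Weil (p ^ a) x := fun x hx => hR.weil x (Multiset.mem_of_le hJR hx)
  have hJe : Even (J.map (uu (p ^ a) ι)).card := by
    rw [Multiset.card_map, hev, hSj]
    exact even_two_mul j
  rcases hCAR GQ (UU ι) (coreU ι ρ c hc) (R.map (uu (p ^ a) ι)) (J.map (uu (p ^ a) ι)) hIR
    (by rw [Multiset.card_map]; exact hR8) (Multiset.map_le_map hJR) (by rw [hsum, hS0]) hJe hNP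
    with h | hG
  · rw [Multiset.map_eq_zero] at h
    rw [h]
    exact Cyc.zero
  · obtain ⟨h1, h2⟩ := hSGN GQ (UU ι) (coreU ι ρ c hc) _ _ hG
    obtain ⟨r, m, hm, hr, hgr⟩ := hRQU p a ι ha D J hJW h1 h2
    rcases hMUL GQ (UU ι) (coreU ι ρ c hc) _ _ hG h1 h2 with h | ⟨v, v', hv, hf, hd, hw⟩
    · exact hCYD p a ι ρ c hc ha D R J hR hJR hG h r m hm hr hgr
    · exact hCYM p a ι ρ c hc ha D J hJW v v' hv r m hm hr
        (fun g hg => hf g ((hgr g).1 hg)) (fun d hdd => (hgr d).2 (hd d hdd)) hw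

end Pool.T4
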