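import Pool.Agent.Work.MP_223b32_t4.Interface

/-! # Block FR3: two relations between at most six vectors are proportional (helper12) -/

namespace Pool.T4

open Pool.Agent.Work.MP_223b32_ag

theorem FR3_ne {U : Type} [AddCommGroup U] [Module ℚ U] {x : U} (hx : x ≠ 0) : x ≠ -x := by
  intro h
  have h1 : (2 : ℚ) • x = 0 := by
    rw [two_smul]
    nth_rewrite 2 [h]
    exact add_neg_cancel x
  rcases smul_eq_zero.mp h1 with h2 | h2
  · norm_num at h2
  · exact hx h2

theorem FR3_half {U : Type} [AddCommGroup U] [Module ℚ U] {x : U} (hx : x + x = 0) : x = 0 := by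
  have h1 : (2 : ℚ) • x = 0 := by
    rw [two_smul]
    exact hx
  rcases smul_eq_zero.mp h1 with h2 | h2
  · norm_num at h2
  · exact h2

/-- The sum over an opposite pair. -/
theorem FR3_pair {U : Type} [AddCommGroup U] {f : U → ℤ} (hf : ∀ v, f (-v) = -f v) (x : U) :
    f (-x) • (-x) = f x • x := by
  rw [hf x, neg_smul_neg]

/-- `d • u = e • w` with `d ≠ 0` gives a rational multiple. -/
theorem FR3_rat {U : Type} [AddCommGroup U] [Module ℚ U] {u w : U} {d e : ℤ} (hd : d ≠ 0)
    (h : d • u = e • w) : ∃ t : ℚ, u = t • w := by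
  refine ⟨(d : ℚ)⁻¹ * e, ?_⟩
  have hd' : (d : ℚ) ≠ 0 := by exact_mod_cast hd
  have h1 : (d : ℚ) • u = (e : ℚ) • w := by
    rw [Int.cast_smul_eq_zsmul, Int.cast_smul_eq_zsmul, h]
  rw [mul_smul, ← h1, smul_smul, inv_mul_cancel₀ hd', one_smul]

/-- Elimination. -/
theorem FR3_elim {U : Type} [AddCommGroup U] {u v w : U} {a b c a' b' c' : ℤ}
    (h1 : a • u + b • v + c • w = 0) (h2 : a' • u + b' • v + c' • w = 0) :
    (a * b' - b * a') • u = (b * c' - c * b') • w := by
  have h3 : b' • (a • u + b • v + c • w) - b • (a' • u + b' • v + c' • w) = 0 := by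
    rw [h1, h2, smul_zero, smul_zero, sub_zero]
  have h4 : (a * b' - b * a') • u - (b * c' - c * b') • w = 0 := by
    rw [← h3]
    simp only [smul_add, smul_smul, sub_smul]
    rw [mul_comm b' a, mul_comm b' b, mul_comm b' c]
    abel
  exact sub_eq_zero.mp h4

theorem FR3_main {G U : Type} [Group G] [AddCommGroup U] [Module ℚ U] [DistribMulAction G U]
    (K : Core G U) (V : Finset U) (m : ℕ) (hV : IsOrb K V m) (hc : V.card ≤ 6) (f h : U → ℤ)
    (hf : IsRel V f) (hh : IsRel V h) (u v : U) (hne : f u * h v ≠ f v * h u) :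
    ∃ w : U, (∀ x ∈ V, ∃ t : ℚ, x = t • w) ∧ V.card ≠ 2 := by
  classical
  have neg : ∀ x ∈ V, -x ∈ V := by
    intro x hx
    have := hV.stable K.c0 x hx
    rwa [K.cc] at this
  have hu : u ∈ V := by
    by_contra hu
    apply hne
    rw [hf.2.1 u hu, hh.2.1 u hu]
    ring
  have hv : v ∈ V := by
    by_contra hv
    apply hne
    rw [hf.2.1 v hv, hh.2.1 v hv]
    ring
  have huv : u ≠ v := by
    intro e
    apply hne
    rw [e]
  have huv' : u ≠ -v := by
    intro e
    apply hne
    rw [e, hf.1 v, hh.1 v]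
    ring
  have hu0 := hV.nz u hu
  have hv0 := hV.nz v hv
  have hu1 := FR3_ne hu0
  have hv1 := FR3_ne hv0
  have hvu' : -u ≠ v := fun e => huv' (by rw [← e, neg_neg])
  have hnn : -u ≠ -v := fun e => huv (neg_injective e)
  have h4 : ({u, -u, v, -v} : Finset U).card = 4 := by
    rw [Finset.card_insert_of_notMem, Finset.card_insert_of_notMem, Finset.card_insert_of_notMem,
      Finset.card_singleton]
    · simpa using hv1
    · simp only [Finset.mem_insert, Finset.mem_singleton, not_or]
      exact ⟨hvu', hnn⟩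
    · simp only [Finset.mem_insert, Finset.mem_singleton, not_or]
      exact ⟨hu1, huv, huv'⟩
  have hsub : ({u, -u, v, -v} : Finset U) ⊆ V := by
    intro x hx
    simp only [Finset.mem_insert, Finset.mem_singleton] at hx
    rcases hx with rfl | rfl | rfl | rfl
    · exact hu
    · exact neg _ hu
    · exact hv
    · exact neg _ hv
  have hVc : V.card ≠ 2 := by
    intro e
    have := Finset.card_le_card hsub
    omega
  have hWc : (V \ {u, -u, v, -v}).card ≤ 2 := by
    rw [Finset.card_sdiff_of_subset hsub, h4]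
    omega
  have hs4 : ∀ g : U → ℤ, (∀ v, g (-v) = -g v) →
      ∑ x ∈ ({u, -u, v, -v} : Finset U), g x • x = (g u • u + g v • v) + (g u • u + g v • v) := by
    intro g hg
    rw [Finset.sum_insert, Finset.sum_insert, Finset.sum_insert, Finset.sum_singleton,
      FR3_pair hg, FR3_pair hg]
    · abel
    · simpa using hv1
    · simp only [Finset.mem_insert, Finset.mem_singleton, not_or]
      exact ⟨hvu', hnn⟩
    · simp only [Finset.mem_insert, Finset.mem_singleton, not_or]
      exact ⟨hu1, huv, huv'⟩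
  -- the third pair
  obtain ⟨w, hw, hw'⟩ : ∃ w : U, (∀ x ∈ V \ {u, -u, v, -v}, x = w ∨ x = -w) ∧
      ∀ g : U → ℤ, (∀ v, g (-v) = -g v) →
        ∑ x ∈ V \ {u, -u, v, -v}, g x • x = g w • w + g w • w := by
    by_cases hW : V \ {u, -u, v, -v} = ∅
    · refine ⟨0, ?_, ?_⟩
      · intro x hx
        rw [hW] at hx
        simp at hx
      · intro g _
        rw [hW]
        simp
    · obtain ⟨w, hw⟩ := Finset.nonempty_of_ne_empty hW
      have hwV : w ∈ V := (Finset.mem_sdiff.mp hw).1
      have hwn : w ∉ ({u, -u, v, -v} : Finset U) := (Finset.mem_sdiff.mp hw).2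
      have hw1 := FR3_ne (hV.nz w hwV)
      have hwm : -w ∈ V \ {u, -u, v, -v} := by
        rw [Finset.mem_sdiff]
        refine ⟨neg w hwV, ?_⟩
        intro hx
        apply hwn
        simp only [Finset.mem_insert, Finset.mem_singleton] at hx ⊢
        rcases hx with e | e | e | e
        · exact Or.inr (Or.inl (by rw [← e, neg_neg]))
        · exact Or.inl (neg_injective e)
        · exact Or.inr (Or.inr (Or.inr (by rw [← e, neg_neg])))
        · exact Or.inr (Or.inr (Or.inl (neg_injective e)))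
      have h2 : ({w, -w} : Finset U).card = 2 := Finset.card_pair hw1
      have hWe : ({w, -w} : Finset U) = V \ {u, -u, v, -v} := by
        apply Finset.eq_of_subset_of_card_le
        · intro x hx
          simp only [Finset.mem_insert, Finset.mem_singleton] at hx
          rcases hx with rfl | rfl
          · exact hw
          · exact hwm
        · rw [h2]
          exact hWc
      refine ⟨w, ?_, ?_⟩
      · intro x hx
        rw [← hWe] at hx
        simpa using hx
      · intro g hg
        rw [← hWe, Finset.sum_pair hw1, FR3_pair hg]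
  have hrel : ∀ g : U → ℤ, IsRel V g → g u • u + g v • v + g w • w = 0 := by
    intro g hg
    apply FR3_half
    have e := hg.2.2
    rw [← Finset.sum_sdiff hsub, hw' g hg.1, hs4 g hg.1] at e
    rw [← e]
    abel
  have e1 := hrel f hf
  have e2 := hrel h hh
  have d1 : f u * h v - f v * h u ≠ 0 := sub_ne_zero.mpr hne
  have r1 : ∃ t : ℚ, u = t • w := FR3_rat d1 (FR3_elim e1 e2)
  have r2 : ∃ t : ℚ, v = t • w := by
    have e1' : f v • v + f u • u + f w • w = 0 := by rw [← e1]; abel
    have e2' : h v • v + h u • u + h w • w = 0 := by rw [← e2]; abel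
    have d2 : f v * h u - f u * h v ≠ 0 := sub_ne_zero.mpr (Ne.symm hne)
    exact FR3_rat d2 (FR3_elim e1' e2')
  have rn : ∀ x : U, (∃ t : ℚ, x = t • w) → ∃ t : ℚ, -x = t • w := by
    rintro x ⟨t, rfl⟩
    exact ⟨-t, by rw [neg_smul]⟩
  refine ⟨w, ?_, hVc⟩
  intro x hx
  by_cases hx4 : x ∈ ({u, -u, v, -v} : Finset U)
  · simp only [Finset.mem_insert, Finset.mem_singleton] at hx4
    rcases hx4 with rfl | rfl | rfl | rfl
    · exact r1
    · exact rn _ r1
    · exact r2
    · exact rn _ r2
  · rcases hw x (Finset.mem_sdiff.mpr ⟨hx, hx4⟩) with rfl | rfl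
    · exact ⟨1, (one_smul _ _).symm⟩
    · exact rn _ ⟨1, (one_smul _ _).symm⟩

theorem p_FR3 (hLIN : Stmt_LIN) : Stmt_FR3 := by
  intro G U _ _ _ _ K V m hV hc f h hf hh u v
  by_contra hne
  obtain ⟨w, hw, hc2⟩ := FR3_main K V m hV hc f h hf hh u v hne
  exact hc2 (hLIN G U K V m hV ⟨w, hw⟩)

end Pool.T4
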