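import Pool.Agent.Work.MP_223b32_t4.Interface

set_option autoImplicit false

namespace Pool.T4

open Pool.Agent.Work.MP_223b32_ag

section

variable {q p : ℕ} [Fact p.Prime] {ι : Qb →+* PadicAlgCl p} {r : Qb} {m : ℚ}
variable {X X' : Type} [MulAction GQ X] [MulAction GQ X']

/-- product of the algebras -/
noncomputable def GLU_alg (C : CMAlg q X r m) (C' : CMAlg q X' r m) : CMAlg q (X ⊕ X') r m where
  c := Sum.map C.c C'.c
  al := Sum.elim C.al C'.al
  ka := Sum.elim C.ka C'.ka
  isOpen := by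
    obtain ⟨L, hL, h⟩ := C.isOpen
    obtain ⟨L', hL', h'⟩ := C'.isOpen
    have := hL
    have := hL'
    refine ⟨L ⊔ L', inferInstance, ?_⟩
    rintro g hg (x | x)
    · show Sum.inl (g • x) = Sum.inl x
      rw [h g (fun y hy => hg y (le_sup_left (a := L) (b := L') hy)) x]
    · show Sum.inr (g • x) = Sum.inr x
      rw [h' g (fun y hy => hg y (le_sup_right (a := L) (b := L') hy)) x]
  conj := by
    rintro ρ g hg (x | x)
    · show Sum.inl (g • x) = Sum.inl (C.c x)
      rw [C.conj ρ g hg x]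
    · show Sum.inr (g • x) = Sum.inr (C'.c x)
      rw [C'.conj ρ g hg x]
  c_ne := by
    rintro (x | x) h
    · exact C.c_ne x (Sum.inl_injective h)
    · exact C'.c_ne x (Sum.inr_injective h)
  weil := by
    rintro (x | x)
    · exact C.weil x
    · exact C'.weil x
  al_smul := by
    rintro g (x | x)
    · exact C.al_smul g x
    · exact C'.al_smul g x
  m_pos := C.m_pos
  r_sq := C.r_sq
  ka_eq := by
    rintro (x | x)
    · exact C.ka_eq x
    · exact C'.ka_eq x
  ka_smul := by
    rintro g (x | x)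
    · exact C.ka_smul g x
    · exact C'.ka_smul g x

lemma GLU_inl (x : X) : locOrb ι (Sum.inl x : X ⊕ X') = Sum.inl '' locOrb ι x := by
  ext y
  constructor
  · rintro ⟨g, hg, rfl⟩
    exact ⟨g • x, ⟨g, hg, rfl⟩, rfl⟩
  · rintro ⟨z, ⟨g, hg, rfl⟩, rfl⟩
    exact ⟨g, hg, rfl⟩

lemma GLU_inr (x : X') : locOrb ι (Sum.inr x : X ⊕ X') = Sum.inr '' locOrb ι x := by
  ext y
  constructor
  · rintro ⟨g, hg, rfl⟩
    exact ⟨g • x, ⟨g, hg, rfl⟩, rfl⟩
  · rintro ⟨z, ⟨g, hg, rfl⟩, rfl⟩
    exact ⟨g, hg, rfl⟩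

/-- the CM type of the product -/
noncomputable def GLU_set (C : CMSet q ι X r m) (C' : CMSet q ι X' r m) :
    CMSet q ι (X ⊕ X') r m where
  toCMAlg := GLU_alg C.toCMAlg C'.toCMAlg
  Phi := Sum.inl '' C.Phi ∪ Sum.inr '' C'.Phi
  type := by
    rintro (x | x)
    · show Sum.inl x ∈ _ ↔ Sum.inl (C.c x) ∉ _
      simp [C.type x]
    · show Sum.inr x ∈ _ ↔ Sum.inr (C'.c x) ∉ _
      simp [C'.type x]
  st := by
    rintro (x | x)
    · have h : ((Sum.inl '' C.Phi ∪ Sum.inr '' C'.Phi) ∩ locOrb ι (Sum.inl x : X ⊕ X')) =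
          Sum.inl '' (C.Phi ∩ locOrb ι x) := by
        rw [GLU_inl]
        ext y
        rcases y with y | y <;> simp
      rw [h, GLU_inl, Set.ncard_image_of_injective _ Sum.inl_injective,
        Set.ncard_image_of_injective _ Sum.inl_injective]
      exact C.st x
    · have h : ((Sum.inl '' C.Phi ∪ Sum.inr '' C'.Phi) ∩ locOrb ι (Sum.inr x : X ⊕ X')) =
          Sum.inr '' (C'.Phi ∩ locOrb ι x) := by
        rw [GLU_inr]
        ext y
        rcases y with y | y <;> simp
      rw [h, GLU_inr, Set.ncard_image_of_injective _ Sum.inr_injective,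
        Set.ncard_image_of_injective _ Sum.inr_injective]
      exact C'.st x

lemma GLU_half [Fintype X] [Fintype X'] (C : CMAlg q X r m) (C' : CMAlg q X' r m) :
    (GLU_alg C C').half = C.half.disjSum C'.half := by
  ext y
  rcases y with y | y
  · simp only [CMAlg.half, Finset.mem_filter, Finset.mem_univ, true_and, Finset.inl_mem_disjSum]
    rfl
  · simp only [CMAlg.half, Finset.mem_filter, Finset.mem_univ, true_and, Finset.inr_mem_disjSum]
    rfl

end

/-- GLU. -/
theorem p_GLU : Stmt_GLU := by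
  intro q p _ ι r m n t n' t' b b' S S' h h'
  obtain ⟨X, hX, aX, C, h1, h2, h3, h4⟩ := h
  obtain ⟨X', hX', aX', C', h1', h2', h3', h4'⟩ := h'
  refine ⟨X ⊕ X', inferInstance, inferInstance, GLU_set C C', ?_, ?_, ?_, ?_⟩
  · rw [Fintype.card_sum, h1, h1']; ring
  · have e : ((GLU_set C C').Phi ∩ ((GLU_set C C').half : Set (X ⊕ X'))) =
        Sum.inl '' (C.Phi ∩ (C.half : Set X)) ∪ Sum.inr '' (C'.Phi ∩ (C'.half : Set X')) := by
      have e2 : (GLU_set C C').half = C.half.disjSum C'.half := GLU_half C.toCMAlg C'.toCMAlg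
      rw [e2]
      ext y
      rcases y with y | y <;> simp [GLU_set]
    rw [e, Set.ncard_union_eq, Set.ncard_image_of_injective _ Sum.inl_injective,
      Set.ncard_image_of_injective _ Sum.inr_injective, h2, h2']
    · rw [Set.disjoint_left]
      rintro y ⟨z, -, rfl⟩ ⟨w, -, hw⟩
      exact absurd hw (by simp)
  · have e2 : (GLU_set C C').half = C.half.disjSum C'.half := GLU_half C.toCMAlg C'.toCMAlg
    rw [e2, Finset.val_disjSum, Multiset.disjSum, Multiset.map_add, Multiset.map_map,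
      Multiset.map_map, ← h3, ← h3']
    rfl
  · intro hb
    rcases Bool.or_eq_true_iff.mp hb with hb | hb
    · obtain ⟨y, hy⟩ := h4 hb
      refine ⟨Sum.inl y, fun g => ?_⟩
      rcases hy g with hy | hy
      · left; show Sum.inl (g • y) = _; rw [hy]
      · right; show Sum.inl (g • y) = Sum.inl (C.c y); rw [hy]
    · obtain ⟨y, hy⟩ := h4' hb
      refine ⟨Sum.inr y, fun g => ?_⟩
      rcases hy g with hy | hy
      · left; show Sum.inr (g • y) = _; rw [hy]
      · right; show Sum.inr (g • y) = Sum.inr (C'.c y); rw [hy]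

end Pool.T4
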