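import Pool.Agent.Work.MP_223b32_t4.Interface

/-! Block HLF -/

namespace Pool.T4

open Pool.Agent.Work.MP_223b32_ag

theorem HLF_conj_sq {ρ : Qb →+* ℂ} {g : GQ} (h : IsConj g ρ) (y : Qb) : g (g y) = y := by
  apply ρ.injective
  rw [h, h, starRingEnd_self_apply]

theorem HLF_conj_r {ρ : Qb →+* ℂ} {g : GQ} (h : IsConj g ρ) {r : Qb} {m : ℚ} (hm : 0 < m)
    (hr : r ^ 2 = -(m : Qb)) : g r = -r := by
  have h1 : (g r) ^ 2 = r ^ 2 := by
    rw [← map_pow, hr, map_neg, map_ratCast]
  rcases sq_eq_sq_iff_eq_or_eq_neg.mp h1 with h2 | h2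
  · exfalso
    have h3 : starRingEnd ℂ (ρ r) = ρ r := by rw [← h r, h2]
    obtain ⟨x, hx⟩ := Complex.conj_eq_iff_real.mp h3
    have h4 : (ρ r) ^ 2 = -(m : ℂ) := by rw [← map_pow, hr, map_neg, map_ratCast]
    rw [hx] at h4
    have h5 : x ^ 2 = -(m : ℝ) := by exact_mod_cast h4
    have h6 : (0 : ℝ) < m := by exact_mod_cast hm
    nlinarith [sq_nonneg x]
  · exact h2

theorem p_HLF (h1 : Stmt_CCJ) (h2 : Stmt_RHO) : Stmt_HLF := by
  intro q X _ _ r m A
  obtain ⟨ρ⟩ := h2
  obtain ⟨c, hc⟩ := h1 ρ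
  have hcc : ∀ x, A.c (A.c x) = x := by
    intro x
    rw [← A.conj ρ c hc, ← A.conj ρ c hc, smul_smul]
    have h3 : c * c = 1 := by
      ext y
      rw [AlgEquiv.mul_apply, HLF_conj_sq hc, AlgEquiv.one_apply]
    rw [h3, one_smul]
  have hr0 : r ≠ 0 := by
    intro h
    have h3 := A.r_sq
    rw [h] at h3
    have h4 : (m : Qb) = 0 := by
      have h5 : (0 : Qb) ^ 2 = 0 := by norm_num
      rw [h5] at h3
      exact neg_eq_zero.mp h3.symm
    have h6 : m = 0 := by exact_mod_cast h4
    exact absurd h6 A.m_pos.ne'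
  have hrr : -r ≠ r := by
    intro h
    exact hr0 (self_eq_neg.mp h.symm)
  have hka : ∀ x, A.ka (A.c x) = -A.ka x := by
    intro x
    rw [← A.conj ρ c hc, A.ka_smul]
    rcases A.ka_eq x with h | h
    · rw [h, HLF_conj_r hc A.m_pos A.r_sq]
    · rw [h, map_neg, HLF_conj_r hc A.m_pos A.r_sq]
  refine ⟨?_, hcc, hka, ?_, ?_⟩
  · classical
    have h3 : A.half = Finset.univ.filter fun x => A.ka x = r := by
      unfold CMAlg.half
      congr
    have h4 : (Finset.univ.filter fun x => A.ka x = r).card =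
        (Finset.univ.filter fun x => ¬ A.ka x = r).card := by
      apply Finset.card_bij (fun x _ => A.c x)
      · intro x hx
        rw [Finset.mem_filter] at hx ⊢
        refine ⟨Finset.mem_univ _, ?_⟩
        rw [hka, hx.2]
        exact hrr
      · intro x _ y _ hxy
        rw [← hcc x, ← hcc y, hxy]
      · intro y hy
        rw [Finset.mem_filter] at hy
        refine ⟨A.c y, ?_, hcc y⟩
        rw [Finset.mem_filter]
        refine ⟨Finset.mem_univ _, ?_⟩
        rw [hka]
        rcases A.ka_eq y with h | h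
        · exact absurd h hy.2
        · rw [h, neg_neg]
    have h5 := Finset.card_filter_add_card_filter_not (s := (Finset.univ : Finset X))
      (fun x => A.ka x = r)
    rw [← h4, Finset.card_univ] at h5
    rw [h3, two_mul]
    exact h5
  · intro g x
    have h3 := A.conj _ _ (hc.trans (g := g)) x
    rw [← A.conj ρ c hc, ← h3, smul_smul, smul_smul]
    congr 1
    group
  · intro g
    have h3 : (g r) ^ 2 = r ^ 2 := by
      rw [← map_pow, A.r_sq, map_neg, map_ratCast]
    exact sq_eq_sq_iff_eq_or_eq_neg.mp h3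

end Pool.T4
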