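import Pool.Agent.Work.MP_223b32_t4.Interface2

/-!
# Block IND (lines with different characters are independent modulo a stable subspace)
-/

namespace Pool.T4

open Pool.Agent.Work.MP_223b32_ag

theorem IND_smul {G U : Type} [Group G] [AddCommGroup U] [Module ℚ U] [DistribMulAction G U]
    (g : G) (c : ℚ) (v : U) : g • (c • v) = c • (g • v) :=
  map_rat_smul (DistribSMul.toAddMonoidHom U g) c v

theorem IND_main {G U : Type} [Group G] [AddCommGroup U] [Module ℚ U] [DistribMulAction G U]
    (W : Submodule ℚ U) (hW : ∀ g : G, ∀ v ∈ W, g • v ∈ W) (Y : Finset U) :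
    ∀ c : U → ℚ, (∀ y ∈ Y, Line G y) →
    (∀ y ∈ Y, ∀ y' ∈ Y, y ≠ y' → ∃ g : G, ¬ (g • y = y ↔ g • y' = y')) →
    ∑ y ∈ Y, c y • y ∈ W → ∀ y ∈ Y, c y • y ∈ W := by
  classical
  induction Y using Finset.induction_on with
  | empty => intro c _ _ _ y hy; simp at hy
  | insert a s ha ih =>
    intro c hl hd hsum
    have hs : ∀ y ∈ s, c y • y ∈ W := by
      intro y hy
      have hay : a ≠ y := fun h => ha (h ▸ hy)
      obtain ⟨g, hg⟩ := hd a (Finset.mem_insert_self a s) y (Finset.mem_insert_of_mem hy) hay
      obtain ⟨σ, hσ⟩ : ∃ σ : U → ℚ, ∀ z, σ z = if g • z = z then 1 else -1 := ⟨_, fun _ => rfl⟩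
      have hgz : ∀ z ∈ insert a s, g • z = σ z • z := by
        intro z hz
        rw [hσ]
        rcases (hl z hz).2 g with h | h
        · rw [if_pos h, one_smul, h]
        · by_cases h' : g • z = z
          · rw [if_pos h', one_smul, h']
          · rw [if_neg h', h, neg_smul, one_smul]
      have hv := W.sub_mem hsum (W.smul_mem (σ a) (hW g _ hsum))
      have hcomp : ∑ z ∈ insert a s, c z • z - σ a • (g • ∑ z ∈ insert a s, c z • z) =
          ∑ z ∈ s, ((1 - σ a * σ z) * c z) • z := by
        rw [Finset.smul_sum, Finset.smul_sum, ← Finset.sum_sub_distrib]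
        have h1 : ∀ z ∈ insert a s, c z • z - σ a • (g • (c z • z)) =
            ((1 - σ a * σ z) * c z) • z := by
          intro z hz
          rw [IND_smul, hgz z hz, smul_smul, smul_smul, ← sub_smul]
          congr 1
          ring
        rw [Finset.sum_congr rfl h1, Finset.sum_insert ha]
        have h2 : (1 - σ a * σ a) * c a = 0 := by
          have : σ a * σ a = 1 := by
            rw [hσ]
            split_ifs <;> norm_num
          rw [this]
          ring
        rw [h2, zero_smul, zero_add]
      rw [hcomp] at hv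
      have hy2 := ih (fun z => (1 - σ a * σ z) * c z)
        (fun z hz => hl z (Finset.mem_insert_of_mem hz))
        (fun z hz z' hz' h => hd z (Finset.mem_insert_of_mem hz) z' (Finset.mem_insert_of_mem hz') h)
        hv y hy
      have h3 : σ a * σ y = -1 := by
        rw [hσ, hσ]
        by_cases h4 : g • a = a
        · have h5 : ¬ g • y = y := fun h => hg ⟨fun _ => h, fun _ => h4⟩
          rw [if_pos h4, if_neg h5]
          norm_num
        · have h5 : g • y = y := by
            by_contra h
            exact hg ⟨fun h6 => absurd h6 h4, fun h6 => absurd h6 h⟩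
          rw [if_neg h4, if_pos h5]
          norm_num
      simp only [h3] at hy2
      have h6 := W.smul_mem (1 / 2 : ℚ) hy2
      rw [smul_smul] at h6
      have h7 : (1 / 2 : ℚ) * ((1 - -1) * c y) = c y := by ring
      rwa [h7] at h6
    intro y hy
    rcases Finset.mem_insert.mp hy with h | h
    · subst h
      rw [Finset.sum_insert ha] at hsum
      have h8 : ∑ z ∈ s, c z • z ∈ W := W.sum_mem hs
      have h9 := W.sub_mem hsum h8
      rwa [add_sub_cancel_right] at h9
    · exact hs y h

theorem p_IND : Stmt_IND := by
  intro G U _ _ _ _ W hW Y c hl hd hsum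
  exact IND_main W hW Y c hl hd hsum

end Pool.T4
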