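import Pool.Agent.Work.MP_223b32_t4.DefsPow

/-! # Definitions for powers -/

namespace Pool.T4

/-- The orbit of the germ of `x` under the Galois group; the number of its elements is the degree
of `ℚ(x ^ N)`, `N` sufficiently divisible. -/
def galOrbit (x : Qb) : Set (Quotient simSetoid) := {c | ∃ g : GQ, c = germ (g x)}

/-- `x` and `y` are Frobenius eigenvalues of two absolutely simple abelian surfaces which are not
isogenous over the algebraic closure of the finite field (for `card R ≤ 10`). -/
def TwoSurfaces (R : Multiset Qb) (x y : Qb) : Prop :=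
  x ∈ R ∧ y ∈ R ∧ (galOrbit x).ncard = 4 ∧ (galOrbit y).ncard = 4 ∧ germ y ∉ galOrbit x

end Pool.T4
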