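import Pool.Agent.Work.MP_223b32_t4.Interface
import Pool.Agent.Work.MP_223b32_t4.Defs2

/-! # Interface of the blocks for powers of abelian varieties which are not isotypic -/

namespace Pool.T4

open Pool.Agent.Work.MP_223b32_ag

/-- The orbit of `v`. -/
def gorb (G : Type) {U : Type} [Group G] [MulAction G U] (v : U) : Set U := {u | ∃ g : G, u = g • v}

/-- `y` spans a line which is stable under `G`, by signs. -/
def Line (G : Type) {U : Type} [Group G] [AddCommGroup U] [MulAction G U] (y : U) : Prop :=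
  y ≠ 0 ∧ ∀ g : G, g • y = y ∨ g • y = -y

/-- (OFS) the orbit of a vector in `R` -/
def Stmt_OFS : Prop :=
  ∀ (G U : Type) [Group G] [AddCommGroup U] [Module ℚ U] [DistribMulAction G U] (K : Core G U)
    (R : Multiset U), IsR K R → R.card ≤ 8 → ∀ x ∈ R, x ≠ 0 →
    ∃ V : Finset U, IsOrb K V (cnt x R) ∧ (∀ v, v ∈ V ↔ v ∈ gorb G x) ∧
      (∀ v ∈ V, v ∈ R ∧ cnt v R = cnt x R) ∧ Even V.card ∧ (gorb G x).ncard = V.card

/-- (LNE) lines -/
def Stmt_LNE : Prop :=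
  ∀ (G U : Type) [Group G] [AddCommGroup U] [Module ℚ U] [DistribMulAction G U] (K : Core G U)
    (y : U), Line G y → K.w y ≠ 0 ∧ ∀ d ∈ K.D, d • y = y

/-- (LNT) two lines with the same character -/
def Stmt_LNT : Prop :=
  ∀ (G U : Type) [Group G] [AddCommGroup U] [Module ℚ U] [DistribMulAction G U] (K : Core G U)
    (R : Multiset U), IsR K R → R.card ≤ 8 → ∀ y ∈ R, ∀ y' ∈ R, Line G y → Line G y' →
    (∀ g : G, g • y = y ↔ g • y' = y') → y ≠ y' → y ≠ -y' →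
    (cnt y R = 3 ∧ cnt y' R = 1 ∧ (3 • y = y' ∨ 3 • y = -y')) ∨
      (cnt y R = 1 ∧ cnt y' R = 3 ∧ (3 • y' = y ∨ 3 • y' = -y))

/-- (IND) lines with different characters are independent modulo a stable subspace -/
def Stmt_IND : Prop :=
  ∀ (G U : Type) [Group G] [AddCommGroup U] [Module ℚ U] [DistribMulAction G U]
    (W : Submodule ℚ U), (∀ g : G, ∀ v ∈ W, g • v ∈ W) → ∀ (Y : Finset U) (c : U → ℚ),
    (∀ y ∈ Y, Line G y) →
    (∀ y ∈ Y, ∀ y' ∈ Y, y ≠ y' → ∃ g : G, ¬ (g • y = y ↔ g • y' = y')) →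
    ∑ y ∈ Y, c y • y ∈ W → ∀ y ∈ Y, c y • y ∈ W

/-- (LN2) a relation between lines -/
def Stmt_LN2 : Prop :=
  ∀ (G U : Type) [Group G] [AddCommGroup U] [Module ℚ U] [DistribMulAction G U] (K : Core G U)
    (R : Multiset U), IsR K R → R.card ≤ 8 → ∀ S : Multiset U, (∀ v ∈ S, v ∈ R ∧ Line G v) →
    S.sum = 0 → NoPair S → S ≠ 0 →
    ∃ (t : ℕ) (v v' : U), 0 < t ∧ S = t • ({v, v, v, v'} : Multiset U) ∧ 3 • v + v' = 0 ∧
      cnt v R = 3 ∧ cnt v' R = 1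

/-- (OF4) an orbit of four elements and a line -/
def Stmt_OF4 : Prop :=
  ∀ (G U : Type) [Group G] [AddCommGroup U] [Module ℚ U] [DistribMulAction G U] (K : Core G U)
    (V : Finset U), IsOrb K V 1 → V.card = 4 → ∀ y : U, Line G y →
    y ∉ Submodule.span ℚ (V : Set U)

/-- (OX4) an orbit of four elements and lines -/
def Stmt_OX4 : Prop :=
  ∀ (G U : Type) [Group G] [AddCommGroup U] [Module ℚ U] [DistribMulAction G U] (K : Core G U)
    (R : Multiset U), IsR K R → R.card ≤ 8 → ∀ V : Finset U, IsOrb K V 1 → V.card = 4 →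
    (∀ v ∈ V, v ∈ R) → ∀ S1 S2 : Multiset U, (∀ v ∈ S1, v ∈ V) → (∀ v ∈ S2, v ∈ R ∧ Line G v) →
    NoPair S2 → S2 ≠ 0 → (S1 + S2).sum ≠ 0

/-- (OF6) an orbit of six elements with a relation, and a line -/
def Stmt_OF6 : Prop :=
  ∀ (G U : Type) [Group G] [AddCommGroup U] [Module ℚ U] [DistribMulAction G U] (K : Core G U)
    (V : Finset U) (m : ℕ), IsOrb K V m → V.card = 6 → ∀ f : U → ℤ, IsRel V f → f ≠ 0 →
    ∀ y : U, Line G y → y ∉ Submodule.span ℚ (V : Set U)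

/-- (OX6) an orbit of six elements and a line -/
def Stmt_OX6 : Prop :=
  ∀ (G U : Type) [Group G] [AddCommGroup U] [Module ℚ U] [DistribMulAction G U] (K : Core G U)
    (V : Finset U), IsOrb K V 1 → V.card = 6 → ∀ y : U, Line G y → (K.w y = 1 ∨ K.w y = -1) →
    ∀ (S : Multiset U) (k : ℕ), (∀ v ∈ S, v ∈ V) → NoPair S → 0 < k → S.sum + k • y = 0 →
    ∃ J : Finset U, S = k • J.val ∧ J.card = 3 ∧ J ⊆ V ∧ NoPair J.val ∧ J.sum id + y = 0

/-- (EQG) a Tate relation is a multiple of one of degree three or four -/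
def Stmt_EQG : Prop :=
  ∀ (G U : Type) [Group G] [AddCommGroup U] [Module ℚ U] [DistribMulAction G U] (K : Core G U)
    (R : Multiset U), IsR K R → R.card ≤ 8 →
    (∀ x ∈ R, ∀ y ∈ R, x ≠ 0 → y ≠ 0 → (gorb G x).ncard = 4 → (gorb G y).ncard = 4 →
      y ∈ gorb G x) →
    ∀ S : Multiset U, (∀ v ∈ S, v ∈ R ∧ v ≠ 0) → S.sum = 0 → NoPair S → S ≠ 0 →
    ∃ (t : ℕ) (J : Multiset U), 0 < t ∧ S = t • J ∧ J.sum = 0 ∧ NoPair J ∧
      ((J.card = 4 ∧ J ≤ R) ∨ (J.card = 3 ∧ J.Nodup ∧ (∀ v ∈ J, cnt v R = 1) ∧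
        ∀ g : G, ∀ v ∈ J, g • v ∈ J ∨ -(g • v) ∈ J))

/-- (SAV) the part of an abelian variety which belongs to a stable set of vectors -/
def Stmt_SAV : Prop :=
  ∀ (p : ℕ) [Fact p.Prime] (a : ℕ) (ι : Qb →+* PadicAlgCl p), 0 < a → Dict (p ^ a) ι →
    ∀ R : Multiset Qb, IsAV (p ^ a) ι R → ∀ V : Finset (UU ι), (∀ g : GQ, ∀ v ∈ V, g • v ∈ V) →
    ∃ R1 : Multiset Qb, R1 ≤ R ∧ IsAV (p ^ a) ι R1 ∧
      (∀ x, x ∈ R1 ↔ x ∈ R ∧ uu (p ^ a) ι x ∈ V) ∧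
      ∀ v ∈ V, cnt v (R1.map (uu (p ^ a) ι)) = cnt v (R.map (uu (p ^ a) ι))

/-- (FN3) the theorem for powers -/
def Stmt_FN3 : Prop :=
  ∀ (p : ℕ) [Fact p.Prime] (a : ℕ) (ι : Qb →+* PadicAlgCl p), 0 < a →
    ∀ R T : Multiset Qb, IsAV (p ^ a) ι R → R.card ≤ 8 → (¬ ∃ x y, TwoSurfaces R x y) →
      PowOf (p ^ a) R T → TateProp (p ^ a) ι T

end Pool.T4
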