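import Pool.Agent.Work.MP_223b32_t4.Interface5
import Pool.Agent.Work.MP_223b32_t4.HTC

/-! # Block LF5: an abelian variety of dimension four -/

namespace Pool.T4

theorem LF5_lift {α β : Type*} (f : α → β) (s : Multiset β) :
    ∀ Q : Multiset α, s ≤ Q.map f → ∃ T : Multiset α, T ≤ Q ∧ T.map f = s := by
  induction s using Multiset.induction_on with
  | empty =>
    intro Q _
    exact ⟨0, Multiset.zero_le Q, Multiset.map_zero f⟩
  | cons b s ih =>
    intro Q hQ
    have h1 : b ∈ Q.map f := Multiset.mem_of_le hQ (Multiset.mem_cons_self b s)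
    obtain ⟨x, hx, rfl⟩ := Multiset.mem_map.1 h1
    obtain ⟨Q', rfl⟩ := Multiset.exists_cons_of_mem hx
    rw [Multiset.map_cons] at hQ
    have h2 : s ≤ Q'.map f := (Multiset.cons_le_cons_iff (f x)).1 hQ
    obtain ⟨T, hT, hTs⟩ := ih Q' h2
    exact ⟨x ::ₘ T, (Multiset.cons_le_cons_iff x).2 hT, by rw [Multiset.map_cons, hTs]⟩

section

variable {p : ℕ} [Fact p.Prime] {ι : Qb →+* PadicAlgCl p}

/-- the germ of a vector -/
noncomputable def LF5_F (q : ℕ) (ι : Qb →+* PadicAlgCl p) (v : UU ι) : Quotient simSetoid := by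
  classical exact if h : ∃ x, Weil q x ∧ uu q ι x = v then germ h.choose else germ 0

theorem LF5_F_uu {q : ℕ} (D : Dict q ι) {x : Qb} (hx : Weil q x) :
    LF5_F q ι (uu q ι x) = germ x := by
  have h : ∃ y, Weil q y ∧ uu q ι y = uu q ι x := ⟨x, hx, rfl⟩
  unfold LF5_F
  rw [dif_pos h]
  exact HTC_germ.2 ((D.sim _ _ h.choose_spec.1 hx).2 h.choose_spec.2)

theorem LF5_map {q : ℕ} (D : Dict q ι) (S : Multiset Qb) (hS : ∀ x ∈ S, Weil q x) :
    S.map germ = (S.map (uu q ι)).map (LF5_F q ι) := by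
  rw [Multiset.map_map]
  apply Multiset.map_congr rfl
  intro x hx
  exact (LF5_F_uu D (hS x hx)).symm

end

theorem p_LF5 : Stmt_LF5 := by
  classical
  intro p _ a ι ρ c hc ha D R J hR hJ hle hgood
  obtain ⟨Q, rfl⟩ := Multiset.le_iff_exists_add.1 hJ
  rw [Multiset.map_add] at hle
  have h1 : ng (J.map (uu (p ^ a) ι)) ≤ Q.map (uu (p ^ a) ι) := le_of_add_le_add_left hle
  obtain ⟨T, hT, hTe⟩ := LF5_lift (uu (p ^ a) ι) _ Q h1
  obtain ⟨R0, hR0⟩ : ∃ R0 : Multiset Qb, R0 = J + T := ⟨_, rfl⟩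
  have hmap : R0.map (uu (p ^ a) ι) = J.map (uu (p ^ a) ι) + ng (J.map (uu (p ^ a) ι)) := by
    rw [hR0, Multiset.map_add, hTe]
  have hle0 : R0 ≤ J + Q := by
    rw [hR0]
    exact add_le_add_right hT J
  have hw : ∀ x ∈ R0, Weil (p ^ a) x := fun x hx => hR.weil x (Multiset.mem_of_le hle0 hx)
  have hisR : IsR (coreU ι ρ c hc) (R0.map (uu (p ^ a) ι)) := by
    rw [hmap]
    exact hgood.isR
  refine ⟨R0, hle0, ?_, ⟨hw, ?_, ?_⟩, ?_⟩
  · rw [hR0]
    exact Multiset.le_add_right J T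
  · intro g
    have h2 : ∀ x ∈ R0.map g, Weil (p ^ a) x := by
      intro x hx
      obtain ⟨y, hy, rfl⟩ := Multiset.mem_map.1 hx
      exact D.weil y (hw y hy) g
    have h3 : (R0.map g).map (uu (p ^ a) ι) = tr g (R0.map (uu (p ^ a) ι)) := by
      unfold tr
      rw [Multiset.map_map, Multiset.map_map]
      apply Multiset.map_congr rfl
      intro x hx
      exact D.smul x (hw x hx) g
    rw [LF5_map D _ h2, LF5_map D _ hw, h3, hisR.stable g]
  · intro x hx
    obtain ⟨n, hn⟩ := hisR.ht (uu (p ^ a) ι x) (Multiset.mem_map_of_mem _ hx)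
    refine ⟨n, ?_⟩
    refine (D.nrm x (hw x hx) 1 _ n).2 ?_
    have h2 : (orb (coreU ι ρ c hc).D (uu (p ^ a) ι x)).ncard = (locOrbit ι x).ncard :=
      HTC_orb D (hw x hx)
    have h3 : (coreU ι ρ c hc).w (uu (p ^ a) ι x) = ur (p ^ a) ι x 1 := by
      rw [← D.mem x (hw x hx)]
      rfl
    rw [HTC_cnt D R0 hw (hw x hx), h2, h3] at hn
    exact hn
  · have h2 : R0.card = (R0.map (uu (p ^ a) ι)).card := (Multiset.card_map _ _).symm
    have h3 := hgood.card
    have h4 : (ng (J.map (uu (p ^ a) ι))).card = (J.map (uu (p ^ a) ι)).card := by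
      unfold ng
      exact Multiset.card_map _ _
    rw [h2, hmap, Multiset.card_add, h4, h3]

end Pool.T4
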