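import Pool.Agent.Work.MP_223b32_t4.Interface

/-! # Block LIN (helper71) -/

set_option autoImplicit false

namespace Pool.T4

theorem LIN_smul {G U : Type} [Group G] [AddCommGroup U] [Module ℚ U] [DistribMulAction G U]
    (g : G) (t : ℚ) (v : U) : g • (t • v) = t • (g • v) := by
  have h := map_rat_smul (DistribSMul.toAddMonoidHom U g) t v
  exact h

theorem LIN_pow {G U : Type} [Group G] [AddCommGroup U] [Module ℚ U] [DistribMulAction G U]
    (g : G) (t : ℚ) (v : U) (h : g • v = t • v) : ∀ k : ℕ, g ^ k • v = t ^ k • v := by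
  intro k
  induction k with
  | zero => simp
  | succ k ih =>
    rw [pow_succ', mul_smul, ih, LIN_smul, h, smul_smul, pow_succ]

theorem p_LIN : Stmt_LIN := by
  classical
  intro G U _ _ _ _ K V m hV hu
  obtain ⟨u, hu⟩ := hu
  obtain ⟨v0, hv0⟩ := hV.ne
  have hnz := hV.nz v0 hv0
  have key : ∀ v ∈ V, v = v0 ∨ v = -v0 := by
    intro v hv
    obtain ⟨a, ha⟩ := hu v hv
    obtain ⟨b, hb⟩ := hu v0 hv0
    have hb0 : b ≠ 0 := by
      intro h
      rw [h, zero_smul] at hb
      exact hnz hb
    obtain ⟨t, ht⟩ : ∃ t : ℚ, v = t • v0 := by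
      refine ⟨a / b, ?_⟩
      rw [hb, smul_smul, div_mul_cancel₀ a hb0]
      exact ha
    obtain ⟨g, hg⟩ := hV.trans v0 hv0 v hv
    rw [ht] at hg
    have hpow := LIN_pow g t v0 hg
    have hmem : ∀ k : ℕ, t ^ k • v0 ∈ V := by
      intro k
      rw [← hpow k]
      exact hV.stable _ _ hv0
    have hni : ¬ Function.Injective (fun k : ℕ => (⟨t ^ k • v0, hmem k⟩ : V)) :=
      not_injective_infinite_finite _
    have ht0 : t ≠ 0 := by
      intro h
      rw [h, zero_smul] at ht
      exact hV.nz v hv ht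
    have hex : ∃ k l : ℕ, k < l ∧ t ^ k • v0 = t ^ l • v0 := by
      rw [Function.not_injective_iff] at hni
      obtain ⟨k, l, h1, h2⟩ := hni
      have h3 : t ^ k • v0 = t ^ l • v0 := congrArg Subtype.val h1
      rcases lt_or_gt_of_ne h2 with h | h
      · exact ⟨k, l, h, h3⟩
      · exact ⟨l, k, h, h3.symm⟩
    obtain ⟨k, l, hkl, he⟩ := hex
    have h4 : t ^ k = t ^ l := by
      by_contra hne
      have h5 : (t ^ k - t ^ l) • v0 = 0 := by rw [sub_smul, he, sub_self]
      rcases smul_eq_zero.1 h5 with h6 | h6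
      · exact hne (sub_eq_zero.1 h6)
      · exact hnz h6
    have h7 : t ^ (l - k) = 1 := by
      have h8 : t ^ k * t ^ (l - k) = t ^ k * 1 := by
        rw [← pow_add, Nat.add_sub_cancel' hkl.le, mul_one, h4]
      exact mul_left_cancel₀ (pow_ne_zero k ht0) h8
    have h9 : |t| = 1 := by
      have h10 : |t| ^ (l - k) = 1 := by rw [← abs_pow, h7, abs_one]
      exact (pow_eq_one_iff_of_nonneg (abs_nonneg t) (by omega)).1 h10
    rcases (abs_eq (zero_le_one)).1 h9 with h | h
    · left
      rw [ht, h, one_smul]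
    · right
      rw [ht, h, neg_smul, one_smul]
  have hneg : -v0 ∈ V := by
    rw [← K.cc v0]
    exact hV.stable _ _ hv0
  have hne : v0 ≠ -v0 := by
    intro h
    have h1 : (2 : ℚ) • v0 = 0 := by
      rw [two_smul]
      nth_rewrite 2 [h]
      exact add_neg_cancel v0
    rcases smul_eq_zero.1 h1 with h2 | h2
    · norm_num at h2
    · exact hnz h2
  have hVe : V = {v0, -v0} := by
    ext v
    rw [Finset.mem_insert, Finset.mem_singleton]
    constructor
    · exact key v
    · rintro (h | h)
      · rw [h]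
        exact hv0
      · rw [h]
        exact hneg
  rw [hVe, Finset.card_pair hne]

end Pool.T4
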