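import Pool.Agent.Work.MP_223b32_t4.Interface2

namespace Pool.T4

theorem p_LNE : Stmt_LNE := by
  intro G U _ _ _ _ K y hy
  have hw : K.w y ≠ 0 := by
    intro h0
    apply hy.1
    apply K.kron
    intro g
    rcases hy.2 g with h | h
    · rw [h, h0]
    · rw [h, map_neg, h0, neg_zero]
  refine ⟨hw, fun d hd => ?_⟩
  rcases hy.2 d with h | h
  · exact h
  · exfalso
    have h1 := K.wD d hd y
    rw [h, map_neg] at h1
    apply hw
    linarith

end Pool.T4
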