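import Pool.Agent.Work.MP_223b32_t4.Interface2

/-! # Block LNT: two lines with the same character (helper12) -/

set_option autoImplicit false

namespace Pool.T4

open Pool.Agent.Work.MP_223b32_ag

section

variable {G U : Type} [Group G] [AddCommGroup U] [Module ℚ U] [DistribMulAction G U]

theorem LNT_ne {x : U} (hx : x ≠ 0) : x ≠ -x := by
  intro h
  have h1 : (2 : ℚ) • x = 0 := by
    rw [two_smul]
    nth_rewrite 2 [h]
    exact add_neg_cancel x
  rcases smul_eq_zero.mp h1 with h2 | h2
  · norm_num at h2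
  · exact hx h2

theorem LNT_neg (K : Core G U) (R : Multiset U) (hR : IsR K R) (y : U) :
    cnt (-y) R = cnt y R := by
  classical
  unfold cnt
  have h1 : R.map (fun v => -v) = R := by
    have h2 := hR.stable K.c0
    unfold tr at h2
    calc R.map (fun v => -v) = R.map (fun v => K.c0 • v) :=
          Multiset.map_congr rfl (fun v _ => (K.cc v).symm)
      _ = R := h2
  have h3 := Multiset.count_map_eq_count' (fun v : U => -v) R neg_injective y
  rw [h1] at h3
  convert h3

theorem LNT_sum (K : Core G U) (R : Multiset U) (hR : IsR K R) (hc : R.card ≤ 8) (y y' : U)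
    (hy : y ∈ R) (hy' : y' ∈ R) (h0 : y ≠ 0) (h0' : y' ≠ 0) (h1 : y ≠ y') (h2 : y ≠ -y') :
    1 ≤ cnt y R ∧ 1 ≤ cnt y' R ∧ cnt y R + cnt y' R ≤ 4 := by
  classical
  have e : ∀ v : U, cnt v R = R.count v := by
    intro v
    unfold cnt
    congr
  have p1 : 1 ≤ cnt y R := by
    rw [e]
    exact Multiset.one_le_count_iff_mem.mpr hy
  have p2 : 1 ≤ cnt y' R := by
    rw [e]
    exact Multiset.one_le_count_iff_mem.mpr hy'
  refine ⟨p1, p2, ?_⟩
  have n1 := LNT_neg K R hR y
  have n2 := LNT_neg K R hR y'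
  have m1 : -y ∈ R := by
    rw [← Multiset.one_le_count_iff_mem, ← e, n1]
    exact p1
  have m2 : -y' ∈ R := by
    rw [← Multiset.one_le_count_iff_mem, ← e, n2]
    exact p2
  have d1 := LNT_ne h0
  have d2 := LNT_ne h0'
  have d3 : -y ≠ y' := fun h => h2 (by rw [← h, neg_neg])
  have d4 : -y ≠ -y' := fun h => h1 (neg_injective h)
  have hsub : ({y, -y, y', -y'} : Finset U) ⊆ R.toFinset := by
    intro x hx
    simp only [Finset.mem_insert, Finset.mem_singleton] at hx
    rw [Multiset.mem_toFinset]
    rcases hx with rfl | rfl | rfl | rfl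
    · exact hy
    · exact m1
    · exact hy'
    · exact m2
  have hs := Finset.sum_le_sum_of_subset (f := fun a => R.count a) hsub
  rw [Multiset.toFinset_sum_count_eq, Finset.sum_insert, Finset.sum_insert, Finset.sum_insert,
    Finset.sum_singleton] at hs
  · rw [← e, ← e, ← e, ← e, n1, n2] at hs
    omega
  · simpa using d2
  · simp only [Finset.mem_insert, Finset.mem_singleton, not_or]
    exact ⟨d3, d4⟩
  · simp only [Finset.mem_insert, Finset.mem_singleton, not_or]
    exact ⟨d1, h1, h2⟩

/-- The values of `w` on a line. -/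
theorem LNT_val (hLNE : Stmt_LNE) (K : Core G U) (R : Multiset U) (hR : IsR K R) (y : U)
    (hy : y ∈ R) (hL : Line G y) (hm : cnt y R ≤ 3) (hm1 : 1 ≤ cnt y R) :
    K.w y = 1 ∨ K.w y = -1 ∨ (cnt y R = 3 ∧ (K.w y = 1 / 3 ∨ K.w y = -(1 / 3))) := by
  obtain ⟨hw, hD⟩ := hLNE G U K y hL
  have horb : orb K.D y = {y} := by
    ext z
    constructor
    · rintro ⟨d, hd, rfl⟩
      exact hD d hd
    · intro hz
      rw [Set.mem_singleton_iff] at hz
      exact ⟨1, K.D.one_mem, by rw [hz, one_smul]⟩
  obtain ⟨n, hn⟩ := hR.ht y hy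
  rw [horb, Set.ncard_singleton, mul_one] at hn
  have h1 := abs_le.mp (hR.le_one y hy)
  obtain ⟨m, hmm⟩ : ∃ m : ℕ, m = cnt y R := ⟨_, rfl⟩
  rw [← hmm] at hn hm hm1 ⊢
  have hn3 : n ≤ m := by
    have h2 : (2 : ℝ) * n ≤ m * 2 := by
      rw [← hn]
      exact mul_le_mul_of_nonneg_left (by linarith) (Nat.cast_nonneg m)
    have h3 : (n : ℝ) ≤ m := by linarith
    exact_mod_cast h3
  interval_cases m
  · interval_cases n
    · right; left
      push_cast at hn
      linarith
    · left
      push_cast at hn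
      linarith
  · interval_cases n
    · right; left
      push_cast at hn
      linarith
    · exfalso
      apply hw
      push_cast at hn
      linarith
    · left
      push_cast at hn
      linarith
  · interval_cases n
    · right; left
      push_cast at hn
      linarith
    · right; right
      refine ⟨rfl, Or.inr ?_⟩
      push_cast at hn
      linarith
    · right; right
      refine ⟨rfl, Or.inl ?_⟩
      push_cast at hn
      linarith
    · left
      push_cast at hn
      linarith

/-- Two vectors with the same character and proportional weights. -/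
theorem LNT_eq (K : Core G U) (y y' : U) (hL : Line G y) (hL' : Line G y')
    (hch : ∀ g : G, g • y = y ↔ g • y' = y') (a b : ℤ) (hw : (a : ℝ) * K.w y = b * K.w y') :
    a • y = b • y' := by
  have h1 : a • y - b • y' = 0 := by
    apply K.kron
    intro g
    have e : g • (a • y - b • y') = a • (g • y) - b • (g • y') := by
      rw [smul_sub, smul_comm g a y, smul_comm g b y']
    rw [e, map_sub, map_zsmul, map_zsmul, zsmul_eq_mul, zsmul_eq_mul]
    rcases hL.2 g with h | h
    · rw [h, (hch g).mp h, hw, sub_self]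
    · have h2 : g • y' = -y' := by
        rcases hL'.2 g with h3 | h3
        · exfalso
          rw [(hch g).mpr h3] at h
          exact LNT_ne hL.1 h
        · exact h3
      rw [h, h2, map_neg, map_neg, mul_neg, mul_neg, hw, sub_self]
  exact sub_eq_zero.mp h1

theorem LNT_half (hLNE : Stmt_LNE) (K : Core G U) (R : Multiset U) (hR : IsR K R) (y y' : U)
    (hy : y ∈ R) (hy' : y' ∈ R) (hL : Line G y) (hL' : Line G y')
    (hch : ∀ g : G, g • y = y ↔ g • y' = y') (h1 : y ≠ y') (h2 : y ≠ -y')
    (c1 : 1 ≤ cnt y R) (c2 : 1 ≤ cnt y' R) (c3 : cnt y R + cnt y' R ≤ 4)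
    (hle : cnt y' R ≤ cnt y R) :
    cnt y R = 3 ∧ cnt y' R = 1 ∧ (3 • y = y' ∨ 3 • y = -y') := by
  have v1 := LNT_val hLNE K R hR y hy hL (by omega) c1
  have v2 := LNT_val hLNE K R hR y' hy' hL' (by omega) c2
  have key : ∀ e : ℤ, (e = 1 ∨ e = -1) → K.w y ≠ e * K.w y' := by
    intro e he hw
    have h3 := LNT_eq K y y' hL hL' hch 1 e (by rw [hw]; push_cast; ring)
    rw [one_smul] at h3
    rcases he with rfl | rfl
    · exact h1 (by rw [h3, one_smul])
    · exact h2 (by rw [h3, neg_smul, one_smul])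
  have k1 := key 1 (Or.inl rfl)
  have k2 := key (-1) (Or.inr rfl)
  push_cast at k1 k2
  have w' : K.w y' = 1 ∨ K.w y' = -1 := by
    rcases v2 with h | h | ⟨h, _⟩
    · exact Or.inl h
    · exact Or.inr h
    · omega
  have w : cnt y R = 3 ∧ (K.w y = 1 / 3 ∨ K.w y = -(1 / 3)) := by
    rcases v1 with h | h | h
    · exfalso
      rcases w' with h' | h'
      · exact k1 (by rw [h, h']; norm_num)
      · exact k2 (by rw [h, h']; norm_num)
    · exfalso
      rcases w' with h' | h'
      · exact k2 (by rw [h, h']; norm_num)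
      · exact k1 (by rw [h, h']; norm_num)
    · exact h
  have s3 : ∀ z : U, (3 : ℤ) • z = 3 • z := by
    intro z
    norm_cast
  refine ⟨w.1, by omega, ?_⟩
  have hp : K.w y = 1 / 3 * K.w y' ∨ K.w y = -(1 / 3) * K.w y' := by
    rcases w.2 with h | h <;> rcases w' with h' | h' <;> rw [h, h'] <;> norm_num
  rcases hp with h | h
  · left
    have h3 := LNT_eq K y y' hL hL' hch 3 1 (by rw [h]; push_cast; ring)
    rw [s3, one_smul] at h3
    exact h3
  · right
    have h3 := LNT_eq K y y' hL hL' hch 3 (-1) (by rw [h]; push_cast; ring)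
    rw [s3, neg_smul, one_smul] at h3
    exact h3

end

theorem p_LNT (hLNE : Stmt_LNE) : Stmt_LNT := by
  intro G U _ _ _ _ K R hR hc y hy y' hy' hL hL' hch h1 h2
  obtain ⟨c1, c2, c3⟩ := LNT_sum K R hR hc y y' hy hy' hL.1 hL'.1 h1 h2
  rcases le_total (cnt y' R) (cnt y R) with hle | hle
  · left
    exact LNT_half hLNE K R hR y y' hy hy' hL hL' hch h1 h2 c1 c2 c3 hle
  · right
    have h1' : y' ≠ y := fun h => h1 h.symm
    have h2' : y' ≠ -y := fun h => h2 (by rw [h, neg_neg])
    obtain ⟨a, b, c⟩ := LNT_half hLNE K R hR y' y hy' hy hL' hL (fun g => (hch g).symm) h1' h2'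
      c2 c1 (by omega) hle
    exact ⟨b, a, c⟩

end Pool.T4
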