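import Pool.Agent.Work.MP_223b32_t4.Interface7
import Pool.Agent.Work.MP_223b32_t4.MKA

/-! # Block MK7: the CM algebra of an orbit of ten vectors with a relation -/

namespace Pool.T4

open Pool.Agent.Work.MP_223b32_ag

theorem p_MK7 : Stmt_MK7 := by
  classical
  intro p _ a ι ρ c hc ha hD R J hR hJR hG r m hm hr hgr
  obtain ⟨UR, hUR⟩ : ∃ UR, UR = R.map (uu (p ^ a) ι) := ⟨_, rfl⟩
  obtain ⟨UJ, hUJ⟩ : ∃ UJ, UJ = J.map (uu (p ^ a) ι) := ⟨_, rfl⟩
  rw [← hUR, ← hUJ] at hG
  rw [← hUJ] at hgr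
  have hnd : UJ.Nodup := hG.nodup
  have hW : ∀ x ∈ R, Weil (p ^ a) x := hR.weil
  have hst : ∀ g : GQ, tr g UR = UR := hG.isR.stable
  have hneg : ∀ v ∈ UR, -v ∈ UR := by
    intro v hv
    rw [← MKA_conj hc v]
    exact MKA_mem (hst c) hv
  have hnz : ∀ v ∈ UR, v ≠ 0 := by
    intro v hv h0
    rcases MKA_or hG.eq hv with h | h
    · exact hG.nz _ h h0
    · exact hG.nz _ h (by rw [h0, neg_zero])
  have hr0 : r ≠ 0 := by
    intro h
    rw [h] at hr
    have h1 : (m : Qb) = 0 := by
      rw [zero_pow (by norm_num)] at hr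
      exact neg_eq_zero.1 hr.symm
    rw [Rat.cast_eq_zero] at h1
    exact hm.ne' h1
  have hrr : r ≠ -r := by
    intro h
    have h1 : r + r = 0 := by
      nth_rewrite 2 [h]
      exact add_neg_cancel r
    have h2 : (2 : Qb) * r = 0 := by
      rw [two_mul]
      exact h1
    exact hr0 ((mul_eq_zero.1 h2).resolve_left (by norm_num))
  have hgneg : ∀ g : GQ, g r ≠ r → g r = -r := by
    intro g hg
    have h1 : (g r) ^ 2 = r ^ 2 := by
      rw [← map_pow, hr, map_neg, map_ratCast]
    exact (sq_eq_sq_iff_eq_or_eq_neg.1 h1).resolve_left hg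
  have hal : ∀ x : {v : UU ι // v ≠ 0 ∧ v ∈ UR}, ∃ y ∈ R, uu (p ^ a) ι y = x.1 := by
    intro x
    have h : x.1 ∈ R.map (uu (p ^ a) ι) := Eq.mp (congrArg (fun S => x.1 ∈ S) hUR) x.2.2
    exact Multiset.mem_map.1 h
  choose al hal1 hal2 using hal
  have hfin := MKA_finite UR
  let act : MulAction GQ {v : UU ι // v ≠ 0 ∧ v ∈ UR} := MKA_act UR hst
  let A : CMAlg (p ^ a) {v : UU ι // v ≠ 0 ∧ v ∈ UR} r m :=
    { c := fun x => ⟨-x.1, neg_ne_zero.2 x.2.1, hneg x.1 x.2.2⟩
      al := al
      ka := fun x => if x.1 ∈ UJ then r else -r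
      isOpen := by
        refine ⟨IntermediateField.adjoin ℚ {x | x ∈ R}, ?_, ?_⟩
        · have hfin : Finite ({x | x ∈ R} : Set Qb) := by
            have h1 : ({x | x ∈ R} : Set Qb) = (R.toFinset : Set Qb) := by
              ext x
              simp
            rw [h1]
            exact (R.toFinset.finite_toSet).to_subtype
          exact IntermediateField.finiteDimensional_adjoin
            (fun x _ => (AlgebraicClosure.isAlgebraic ℚ).isAlgebraic x |>.isIntegral)
        · intro g hg x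
          apply Subtype.ext
          show g • x.1 = x.1
          have h1 : g (al x) = al x :=
            hg _ (IntermediateField.subset_adjoin ℚ _ (hal1 x))
          rw [← hal2 x, ← hD.smul _ (hW _ (hal1 x)) g, h1]
      conj := fun ρ' g hg x => Subtype.ext (MKA_conj hg x.1)
      c_ne := fun x h => SGN_neg_ne x.2.1 (congrArg Subtype.val h).symm
      weil := fun x => hW _ (hal1 x)
      al_smul := by
        intro g x
        rw [hD.sim _ _ (hW _ (hal1 _)) (hD.weil _ (hW _ (hal1 x)) g), hal2,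
          hD.smul _ (hW _ (hal1 x)) g, hal2]
        rfl
      m_pos := hm
      r_sq := hr
      ka_eq := by
        intro x
        by_cases h : x.1 ∈ UJ
        · left
          rw [if_pos h]
        · right
          rw [if_neg h]
      ka_smul := by
        intro g x
        show (if g • x.1 ∈ UJ then r else -r) = g (if x.1 ∈ UJ then r else -r)
        rcases hG.sgn g with h | h
        · have h1 : g r = r := (hgr g).2 h
          by_cases h2 : x.1 ∈ UJ
          · rw [if_pos h2, if_pos ((MKA_keep h).2 h2), h1]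
          · rw [if_neg h2, if_neg (fun h3 => h2 ((MKA_keep h).1 h3)), map_neg, h1]
        · have h1 : g r = -r := by
            apply hgneg
            intro h2
            rw [hgr, h] at h2
            exact hG.ne h2
          by_cases h2 : x.1 ∈ UJ
          · rw [if_pos h2, if_neg (fun h3 => (MKA_swap hG.eq hG.noPair h x.2.2 x.2.1).1 h3 h2), h1]
          · rw [if_neg h2, if_pos ((MKA_swap hG.eq hG.noPair h x.2.2 x.2.1).2 h2), map_neg, h1,
              neg_neg] }
  refine ⟨{v : UU ι // v ≠ 0 ∧ v ∈ UR}, Fintype.ofFinite _, act, A, ?_, ?_⟩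
  · intro x
    obtain ⟨n, hn⟩ := hG.isR.ht x.1 x.2.2
    refine ⟨n, ?_⟩
    rw [MKA_cnt hG.eq hnd hG.noPair x.2.2 x.2.1, one_mul] at hn
    have h1 : (orb (dec ι) x.1).ncard =
        (locOrb ι x).ncard := by
      have h2 : orb (dec ι) x.1 = Subtype.val ''
          (locOrb ι x) := by
        ext w
        constructor
        · rintro ⟨g, hg, rfl⟩
          exact ⟨_, ⟨g, hg, rfl⟩, rfl⟩
        · rintro ⟨y, ⟨g, hg, rfl⟩, rfl⟩
          exact ⟨g, hg, rfl⟩
      rw [h2, Set.ncard_image_of_injective _ Subtype.val_injective]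
    have h3 := (hD.nrm (al x) (hW _ (hal1 x)) 1
      (locOrb ι x).ncard n).2 (by
        rw [← h1, ← hD.mem _ (hW _ (hal1 x)), hal2 x]
        exact hn)
    rw [AlgEquiv.one_apply] at h3
    exact h3
  · obtain ⟨Gf, hGf⟩ : ∃ Gf : UU ι → Quotient simSetoid, Gf = fun v =>
        if h : v ≠ 0 ∧ v ∈ UR then germ (al ⟨v, h⟩) else germ 0 := ⟨_, rfl⟩
    have hG1 : ∀ y : {v : UU ι // v ≠ 0 ∧ v ∈ UR}, germ (al y) = Gf y.1 := by
      intro y
      rw [hGf]
      simp only
      rw [dif_pos y.2]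
    have hG2 : ∀ x ∈ J, germ x = Gf (uu (p ^ a) ι x) := by
      intro x hx
      have hxR : x ∈ R := Multiset.mem_of_le hJR hx
      have h2 : uu (p ^ a) ι x ∈ UR := by
        rw [hUR]
        exact Multiset.mem_map_of_mem _ hxR
      have h1 : uu (p ^ a) ι x ≠ 0 ∧ uu (p ^ a) ι x ∈ UR := ⟨hnz _ h2, h2⟩
      rw [hGf]
      simp only
      rw [dif_pos h1]
      apply Quotient.sound
      exact (hD.sim _ _ (hW _ hxR) (hW _ (hal1 _))).2 (hal2 ⟨_, h1⟩).symm
    have hka : ∀ y : {v : UU ι // v ≠ 0 ∧ v ∈ UR}, A.ka y = r ↔ y.1 ∈ UJ := by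
      intro y
      show (if y.1 ∈ UJ then r else -r) = r ↔ y.1 ∈ UJ
      by_cases h : y.1 ∈ UJ
      · rw [if_pos h]
        exact ⟨fun _ => h, fun _ => rfl⟩
      · rw [if_neg h]
        exact ⟨fun h1 => absurd h1.symm hrr, fun h1 => absurd h1 h⟩
    have hhalf : ∀ (F : Fintype {v : UU ι // v ≠ 0 ∧ v ∈ UR})
        (y : {v : UU ι // v ≠ 0 ∧ v ∈ UR}),
        y ∈ (@CMAlg.half (p ^ a) {v : UU ι // v ≠ 0 ∧ v ∈ UR} act r m F A) ↔
          y.1 ∈ UJ := by
      intro F y
      unfold CMAlg.half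
      rw [Finset.mem_filter, hka]
      exact ⟨fun h => h.2, fun h => ⟨Finset.mem_univ y, h⟩⟩
    have key : ∀ (F : Fintype {v : UU ι // v ≠ 0 ∧ v ∈ UR}),
        (@CMAlg.half (p ^ a) {v : UU ι // v ≠ 0 ∧ v ∈ UR} act r m F A).val.map
          Subtype.val = UJ := by
      intro F
      rw [Multiset.Nodup.ext (Multiset.Nodup.map Subtype.val_injective (Finset.nodup _)) hnd]
      intro v
      rw [Multiset.mem_map]
      constructor
      · rintro ⟨y, hy, rfl⟩
        exact (hhalf F y).1 hy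
      · intro hv
        have h1 : v ∈ UR := by
          rw [hG.eq, Multiset.mem_add]
          exact Or.inl hv
        exact ⟨⟨v, hnz v h1, h1⟩, (hhalf F _).2 hv, rfl⟩
    have hL : ∀ (F : Fintype {v : UU ι // v ≠ 0 ∧ v ∈ UR}),
        ((@CMAlg.half (p ^ a) {v : UU ι // v ≠ 0 ∧ v ∈ UR} act r m F A).val.map
          A.al).map germ = J.map germ := by
      intro F
      have h1 : J.map germ = (J.map (uu (p ^ a) ι)).map Gf := by
        rw [Multiset.map_map]
        refine Multiset.map_congr rfl fun x hx => ?_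
        exact hG2 x hx
      rw [h1, ← hUJ, ← key F, Multiset.map_map, Multiset.map_map]
      refine Multiset.map_congr rfl fun y _ => ?_
      exact hG1 y
    exact hL _

end Pool.T4
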