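import Pool.Agent.Work.MP_223b32_t4.Interface

/-! Block MUL. -/

namespace Pool.T4

open Pool.Agent.Work.MP_223b32_ag

theorem MUL_zero {U : Type} [AddCommGroup U] [Module ℚ U] {v : U} (h : v + v = 0) : v = 0 := by
  have h1 : v = (1 / 2 : ℚ) • (v + v) := by
    rw [← two_smul ℚ v, smul_smul]
    norm_num
  rw [h1, h, smul_zero]

theorem MUL_pair {U : Type} {J : Multiset U} {a b : U} (ha : a ∈ J) (hb : b ∈ J) (hab : a ≠ b) :
    ({a, b} : Multiset U) ≤ J := by
  have hnd : ({a, b} : Multiset U).Nodup := by
    rw [Multiset.insert_eq_cons, Multiset.nodup_cons]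
    exact ⟨by simpa using hab, Multiset.nodup_singleton b⟩
  rw [Multiset.le_iff_subset hnd]
  intro x hx
  rw [Multiset.insert_eq_cons, Multiset.mem_cons, Multiset.mem_singleton] at hx
  rcases hx with rfl | rfl
  · exact ha
  · exact hb

theorem MUL_notMem {U : Type} [AddCommGroup U] [Module ℚ U] {J : Multiset U} (hJ : NoPair J)
    {v : U} (hv : v ∈ J) (h0 : v ≠ 0) : -v ∉ J := by
  intro h
  have hne : v ≠ -v := by
    intro h1
    apply h0
    apply MUL_zero
    nth_rewrite 2 [h1]
    exact add_neg_cancel v
  exact hJ v (-v) (MUL_pair hv h hne) (add_neg_cancel v)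

theorem MUL_count_ng {U : Type} [AddCommGroup U] [DecidableEq U] (J : Multiset U) (v : U) :
    (ng J).count v = J.count (-v) := by
  have h := Multiset.count_map_eq_count' (fun v : U => -v) J neg_injective (-v)
  rw [neg_neg] at h
  exact h

/-- The consequences for the unique element of maximal multiplicity. -/
theorem MUL_key {G U : Type} [Group G] [AddCommGroup U] [Module ℚ U] [DistribMulAction G U]
    [DecidableEq U] (K : Core G U) (R J : Multiset U) (hG : Good K R J)
    (hsgn : ∀ g : G, tr g J = J ∨ tr g J = ng J) (v : U) (hv : v ∈ J) (hv0 : v ≠ 0)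
    (hu : ∀ x, J.count x = J.count v → x = v) :
    (∀ g : G, tr g J = J → g • v = v) ∧ (∀ g : G, tr g J = ng J → g • v = -v) ∧
      (∀ d ∈ K.D, tr d J = J) ∧ K.w v ≠ 0 ∧
      ∃ n : ℕ, ((J.count v : ℕ) : ℝ) * (K.w v + 1) = 2 * n := by
  have hcount : ∀ g : G, (tr g J).count (g • v) = J.count v := fun g =>
    Multiset.count_map_eq_count' (fun v : U => g • v) J (MulAction.injective g) v
  have h1 : ∀ g : G, tr g J = J → g • v = v := by
    intro g hg
    apply hu
    have h := hcount g
    rw [hg] at h
    exact h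
  have h2 : ∀ g : G, tr g J = ng J → g • v = -v := by
    intro g hg
    have h := hcount g
    rw [hg, MUL_count_ng] at h
    have h3 := hu _ h
    rw [← h3, neg_neg]
    rw [h3]
  have hw : K.w v ≠ 0 := by
    intro h
    apply hv0
    apply K.kron
    intro g
    rcases hsgn g with hg | hg
    · rw [h1 g hg, h]
    · rw [h2 g hg, map_neg, h, neg_zero]
  have hD : ∀ d ∈ K.D, tr d J = J := by
    intro d hd
    rcases hsgn d with hg | hg
    · exact hg
    · exfalso
      apply hw
      have h3 := K.wD d hd v
      rw [h2 d hg, map_neg] at h3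
      linarith
  refine ⟨h1, h2, hD, hw, ?_⟩
  have horb : orb K.D v = {v} := by
    ext y
    constructor
    · rintro ⟨d, hd, rfl⟩
      exact h1 d (hD d hd)
    · intro hy
      rw [Set.mem_singleton_iff] at hy
      exact ⟨1, K.D.one_mem, by rw [hy, one_smul]⟩
  have hvR : v ∈ R := by
    rw [hG.eq]
    exact Multiset.mem_add.2 (Or.inl hv)
  obtain ⟨n, hn⟩ := hG.isR.ht v hvR
  refine ⟨n, ?_⟩
  have hc : cnt v R = J.count v := by
    have h3 : cnt v R = R.count v := by
      unfold cnt
      congr
    rw [h3, hG.eq, Multiset.count_add, MUL_count_ng,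
      Multiset.count_eq_zero_of_notMem (MUL_notMem hG.noPair hv hv0), add_zero]
  rw [horb, Set.ncard_singleton, mul_one, hc] at hn
  exact hn

/-- Multiplicity three. -/
theorem MUL_three {G U : Type} [Group G] [AddCommGroup U] [Module ℚ U] [DistribMulAction G U]
    (K : Core G U) (R J : Multiset U) (hG : Good K R J)
    (hsgn : ∀ g : G, tr g J = J ∨ tr g J = ng J) (v b : U) (hv0 : v ≠ 0) (hb : b ≠ v)
    (hJ : J = {v, v, v, b}) :
    (∀ g : G, tr g J = J → g • v = v ∧ g • b = b) ∧
      (∀ d ∈ K.D, tr d J = J) ∧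
      ((K.w v = 1 / 3 ∧ K.w b = -1) ∨ (K.w v = -(1 / 3) ∧ K.w b = 1)) := by
  classical
  have hvJ : v ∈ J := by rw [hJ]; simp
  have hbJ : b ∈ J := by rw [hJ]; simp
  have hcv : J.count v = 3 := by
    rw [hJ]
    simp [Multiset.insert_eq_cons, Multiset.count_cons, Multiset.count_singleton, hb.symm]
  have hu : ∀ x, J.count x = J.count v → x = v := by
    intro x hx
    by_contra hne
    rw [hcv, hJ] at hx
    by_cases hxb : x = b
    · subst hxb
      simp [Multiset.insert_eq_cons, Multiset.count_cons, Multiset.count_singleton, hne] at hx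
    · simp [Multiset.insert_eq_cons, Multiset.count_cons, Multiset.count_singleton, hne, hxb] at hx
  obtain ⟨h1, h2, hD, hw, n, hn⟩ := MUL_key K R J hG hsgn v hvJ hv0 hu
  have hsum : b = -(v + v + v) := by
    have h3 := hG.sum
    rw [hJ] at h3
    have h4 : v + (v + (v + b)) = 0 := by simpa [Multiset.insert_eq_cons] using h3
    have h5 : b = (v + (v + (v + b))) - (v + v + v) := by abel
    rw [h5, h4, zero_sub]
  have hwb : K.w b = -(3 * K.w v) := by
    rw [hsum, map_neg, map_add, map_add]
    ring
  have hbR : b ∈ R := by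
    rw [hG.eq]
    exact Multiset.mem_add.2 (Or.inl hbJ)
  have hle := abs_le.1 (hG.isR.le_one b hbR)
  rw [hcv] at hn
  push_cast at hn
  refine ⟨fun g hg => ⟨h1 g hg, ?_⟩, hD, ?_⟩
  · rw [hsum, smul_neg, smul_add, smul_add, h1 g hg]
  · have hn1 : (n : ℝ) ≤ 2 := by
      rw [hwb] at hle
      linarith [hle.1]
    have hn2 : (1 : ℝ) ≤ n := by
      rw [hwb] at hle
      linarith [hle.2]
    have hn1' : n ≤ 2 := by exact_mod_cast hn1
    have hn2' : 1 ≤ n := by exact_mod_cast hn2
    have hn3 : n = 1 ∨ n = 2 := by omega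
    rcases hn3 with h3 | h3
    · right
      rw [h3] at hn
      push_cast at hn
      have h4 : K.w v = -(1 / 3) := by linarith
      refine ⟨h4, ?_⟩
      rw [hwb, h4]
      norm_num
    · left
      rw [h3] at hn
      push_cast at hn
      have h4 : K.w v = 1 / 3 := by linarith
      refine ⟨h4, ?_⟩
      rw [hwb, h4]
      norm_num

/-- Multiplicity two is impossible. -/
theorem MUL_two {G U : Type} [Group G] [AddCommGroup U] [Module ℚ U] [DistribMulAction G U]
    (K : Core G U) (R J : Multiset U) (hG : Good K R J)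
    (hsgn : ∀ g : G, tr g J = J ∨ tr g J = ng J) (v a b : U) (hv0 : v ≠ 0) (ha : a ≠ v)
    (hb : b ≠ v) (hJ : J = {v, v, a, b}) : False := by
  classical
  have hvJ : v ∈ J := by rw [hJ]; simp
  have haJ : a ∈ J := by rw [hJ]; simp
  have hbJ : b ∈ J := by rw [hJ]; simp
  have hsum : v + (v + (a + b)) = 0 := by
    have h3 := hG.sum
    rw [hJ] at h3
    simpa [Multiset.insert_eq_cons] using h3
  have hva : v + a ≠ 0 := hG.noPair v a (MUL_pair hvJ haJ ha.symm)
  have hab : a ≠ b := by
    intro h
    apply hva
    apply MUL_zero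
    rw [← h] at hsum
    rw [← hsum]
    abel
  have hcv : J.count v = 2 := by
    rw [hJ]
    simp [Multiset.insert_eq_cons, Multiset.count_cons, Multiset.count_singleton, ha.symm, hb.symm]
  have hu : ∀ x, J.count x = J.count v → x = v := by
    intro x hx
    by_contra hne
    rw [hcv, hJ] at hx
    by_cases hxa : x = a
    · subst hxa
      simp [Multiset.insert_eq_cons, Multiset.count_cons, Multiset.count_singleton, hne, hab] at hx
    · by_cases hxb : x = b
      · subst hxb
        simp [Multiset.insert_eq_cons, Multiset.count_cons, Multiset.count_singleton, hne, hxa] at hx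
      · simp [Multiset.insert_eq_cons, Multiset.count_cons, Multiset.count_singleton, hne, hxa,
          hxb] at hx
  obtain ⟨h1, h2, hD, hw, n, hn⟩ := MUL_key K R J hG hsgn v hvJ hv0 hu
  have hR : ∀ x ∈ J, |K.w x| ≤ 1 := by
    intro x hx
    apply hG.isR.le_one
    rw [hG.eq]
    exact Multiset.mem_add.2 (Or.inl hx)
  have hlv := abs_le.1 (hR v hvJ)
  have hla := abs_le.1 (hR a haJ)
  have hlb := abs_le.1 (hR b hbJ)
  rw [hcv] at hn
  push_cast at hn
  have hws : K.w v + (K.w v + (K.w a + K.w b)) = 0 := by
    have h3 := congrArg K.w hsum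
    rw [map_add, map_add, map_add, map_zero] at h3
    exact h3
  have hnv : K.w v = n - 1 := by linarith
  have hn1 : (n : ℝ) ≤ 2 := by linarith [hlv.2]
  have hn1' : n ≤ 2 := by exact_mod_cast hn1
  have hn0 : n ≠ 1 := by
    intro h
    apply hw
    rw [hnv, h]
    norm_num
  have hwab : K.w a = -K.w v ∧ K.w b = -K.w v := by
    have hn3 : n = 0 ∨ n = 2 := by omega
    rcases hn3 with h3 | h3
    · have h4 : K.w v = -1 := by
        rw [hnv, h3]
        norm_num
      rw [h4] at hws ⊢
      constructor
      · linarith [hla.2, hlb.2]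
      · linarith [hla.2, hlb.2]
    · have h4 : K.w v = 1 := by
        rw [hnv, h3]
        norm_num
      rw [h4] at hws ⊢
      constructor
      · linarith [hla.1, hlb.1]
      · linarith [hla.1, hlb.1]
  have hmem : ∀ x ∈ J, x ≠ v → K.w x = -K.w v := by
    intro x hx hne
    rw [hJ] at hx
    simp only [Multiset.insert_eq_cons, Multiset.mem_cons, Multiset.mem_singleton] at hx
    rcases hx with h | h | h | h
    · exact absurd h hne
    · exact absurd h hne
    · rw [h]; exact hwab.1
    · rw [h]; exact hwab.2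
  apply hva
  apply K.kron
  intro g
  rw [smul_add, map_add]
  have hgne : g • a ≠ g • v := fun h => ha (MulAction.injective g h)
  have hga : g • a ∈ tr g J := Multiset.mem_map_of_mem _ haJ
  rcases hsgn g with hg | hg
  · rw [h1 g hg] at hgne ⊢
    rw [hg] at hga
    rw [hmem _ hga hgne]
    ring
  · rw [h2 g hg] at hgne ⊢
    rw [hg] at hga
    obtain ⟨y, hy, hy2⟩ := Multiset.mem_map.1 hga
    have hyv : y ≠ v := by
      intro h
      apply hgne
      rw [← hy2, h]
    have h3 := hmem y hy hyv
    rw [← hy2, map_neg, map_neg, h3]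
    ring

theorem p_MUL : Stmt_MUL := by
  classical
  intro G U _ _ _ _ K R J hG hsgn _
  by_cases hnd : J.Nodup
  · exact Or.inl hnd
  · right
    have h1 : ∃ v, ({v, v} : Multiset U) ≤ J := by
      by_contra hcon
      apply hnd
      rw [Multiset.nodup_iff_le]
      intro v hle
      exact hcon ⟨v, hle⟩
    obtain ⟨v, hle⟩ := h1
    have hv0 : v ≠ 0 := by
      intro h
      rw [h] at hle
      exact hG.noPair 0 0 hle (add_zero 0)
    obtain ⟨J2, hJ2⟩ := Multiset.le_iff_exists_add.1 hle
    have hcard : J2.card = 2 := by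
      have h2 := hG.card
      rw [hJ2, Multiset.card_add] at h2
      have h3 : ({v, v} : Multiset U).card = 2 := rfl
      omega
    obtain ⟨a, b, hab⟩ := Multiset.card_eq_two.1 hcard
    have hJ : J = {v, v, a, b} := by
      rw [hJ2, hab]
      rfl
    by_cases ha : a = v
    · by_cases hb : b = v
      · exfalso
        apply hv0
        have h3 := hG.sum
        rw [hJ, ha, hb] at h3
        have h4 : v + (v + (v + v)) = 0 := by simpa [Multiset.insert_eq_cons] using h3
        apply MUL_zero
        apply MUL_zero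
        rw [← h4]
        abel
      · refine ⟨v, b, by rw [hJ, ha], ?_⟩
        exact MUL_three K R J hG hsgn v b hv0 hb (by rw [hJ, ha])
    · by_cases hb : b = v
      · have hJ3 : J = {v, v, v, a} := by
          rw [hJ, hb]
          simp only [Multiset.insert_eq_cons]
          rw [← Multiset.cons_zero a, ← Multiset.cons_zero v, Multiset.cons_swap a v]
        refine ⟨v, a, hJ3, ?_⟩
        exact MUL_three K R J hG hsgn v a hv0 ha hJ3
      · exact (MUL_two K R J hG hsgn v a b hv0 ha hb hJ).elim

end Pool.T4
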