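import Pool.Agent.Work.MP_223b32_t4.Interface7

/-! Block MX7 of the table t5_blocks (helper45) -/

set_option autoImplicit false

namespace Pool.T4

open Pool.Agent.Work.MP_223b32_ag

theorem MX7_germ {x y : Qb} : germ x = germ y ↔ Sim x y := by
  unfold germ
  exact Quotient.eq

theorem MX7_weil {q : ℕ} {x y : Qb} (hx : Weil q x) (h : Sim y x) : Weil q y := by
  obtain ⟨N, hN, he⟩ := h
  constructor
  · apply IsIntegral.of_pow hN
    rw [he]
    exact hx.1.pow N
  · intro ρ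
    have h1 : (‖ρ y‖ ^ 2) ^ N = ((q : ℝ)) ^ N := by
      calc (‖ρ y‖ ^ 2) ^ N = ‖ρ (y ^ N)‖ ^ 2 := by
            rw [map_pow, norm_pow]; ring
        _ = ‖ρ (x ^ N)‖ ^ 2 := by rw [he]
        _ = (‖ρ x‖ ^ 2) ^ N := by rw [map_pow, norm_pow]; ring
        _ = (q : ℝ) ^ N := by rw [hx.2 ρ]
    exact (pow_left_inj₀ (by positivity) (Nat.cast_nonneg q) hN.ne').mp h1

theorem MX7_map {p : ℕ} [Fact p.Prime] {ι : Qb →+* PadicAlgCl p} {q : ℕ} (hD : Dict q ι)
    (J T : Multiset Qb) (hJ : ∀ x ∈ J, Weil q x) (hT : ∀ x ∈ T, Weil q x)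
    (h : T.map germ = J.map germ) : T.map (uu q ι) = J.map (uu q ι) := by
  rw [← Multiset.rel_eq, Multiset.rel_map] at h ⊢
  refine h.mono ?_
  intro a ha b hb hab
  exact (hD.sim a b (hT a ha) (hJ b hb)).mp (MX7_germ.mp hab)

theorem p_MX7 (hMK7 : Stmt_MK7) (hBLD : Stmt_BLD) (hHLF : Stmt_HLF) (hTSP : Stmt_TSP)
    (hPH7 : Stmt_PH7) : Stmt_MX7 := by
  intro p _ a ι ρ c hc ha hD R J hR hJR hG r m hm hr hst
  obtain ⟨X, _, _, A, hAn, hz3⟩ := hMK7 p a ι ρ c hc ha hD R J hR hJR hG r m hm hr hst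
  obtain ⟨C, rfl⟩ := hBLD p a ι ha hD X r m A hAn
  obtain ⟨hh1, hh2, hh3, hh4, hh5⟩ := hHLF (p ^ a) X r m C.toCMAlg
  have hJW : ∀ x ∈ J, Weil (p ^ a) x := fun x hx => hR.weil x (Multiset.mem_of_le hJR hx)
  have hcard : C.half.card = 5 := by
    have h1 := congrArg Multiset.card hz3
    rw [Multiset.card_map, Multiset.card_map, Multiset.card_map] at h1
    have h2 := hG.card
    rw [Multiset.card_map] at h2
    have h3 : C.half.val.card = C.half.card := rfl
    omega
  have hTW : ∀ x ∈ C.half.val.map C.al, Weil (p ^ a) x := by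
    intro x hx
    have h1 : germ x ∈ J.map germ := by
      rw [← hz3]
      exact Multiset.mem_map_of_mem _ hx
    obtain ⟨y, hy, hyx⟩ := Multiset.mem_map.mp h1
    exact MX7_weil (hJW y hy) (MX7_germ.mp hyx.symm)
  have hmap := MX7_map hD J (C.half.val.map C.al) hJW hTW hz3
  have hsum : (∑ x ∈ C.half, uu (p ^ a) ι (C.al x)) = 0 := by
    have h1 := hG.sum
    rw [← hmap, Multiset.map_map] at h1
    exact h1
  have hsum1 : (∑ x ∈ C.half, ur (p ^ a) ι (C.al x) 1) = 0 := by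
    have h1 := congrArg (fun v : UU ι => v.1 1) hsum
    have h2 : (∑ x ∈ C.half, uu (p ^ a) ι (C.al x)).1 1
        = ∑ x ∈ C.half, ur (p ^ a) ι (C.al x) 1 := by
      rw [Submodule.coe_sum, Finset.sum_apply]
      apply Finset.sum_congr rfl
      intro x _
      rw [hD.mem _ (C.weil x)]
    rw [← h2]
    exact h1
  have hd : ∃ d ∈ dec ι, d r ≠ r := by
    by_contra hcon
    push Not at hcon
    have h1 := hTSP p a ι ha hD X r m C hcon
    rw [Finset.sum_add_distrib, hsum1, Finset.sum_const, nsmul_eq_mul, mul_one, zero_add] at h1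
    have h2 : 2 * (C.Phi ∩ C.half).ncard = C.half.card := by exact_mod_cast h1
    omega
  -- `r ≠ -r`
  have hr0 : r ≠ 0 := by
    intro h
    rw [h, zero_pow two_ne_zero] at hr
    have h1 : (m : Qb) = 0 := by
      have h2 := congrArg (fun z => -z) hr
      simpa using h2.symm
    have h2 : m = 0 := by exact_mod_cast h1
    rw [h2] at hm
    exact lt_irrefl _ hm
  have hrr : -r ≠ r := by
    intro h
    exact hr0 (self_eq_neg.1 h.symm)
  have hH : ∀ x, x ∈ (C.half : Set X) ↔ C.ka x = r := by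
    intro x
    rw [Finset.mem_coe]
    unfold CMAlg.half
    simp
  have hHc : ∀ x, x ∈ (C.half : Set X) ↔ C.c x ∉ (C.half : Set X) := by
    intro x
    rw [hH, hH, hh3 x]
    constructor
    · intro h1 h2
      rw [h1] at h2
      exact hrr h2
    · intro h1
      rcases C.ka_eq x with h2 | h2
      · exact h2
      · exfalso
        rw [h2, neg_neg] at h1
        exact h1 rfl
  have hH5 : (C.half : Set X).ncard = 5 := by
    rw [Set.ncard_coe_finset, hcard]
  have hdH : ∃ d ∈ dec ι, ∀ x, x ∈ (C.half : Set X) ↔ d • x ∉ (C.half : Set X) := by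
    obtain ⟨d, hd1, hd2⟩ := hd
    have hd3 : d r = -r := (hh5 d).resolve_left hd2
    refine ⟨d, hd1, fun x => ?_⟩
    rw [hH, hH, C.ka_smul d x]
    constructor
    · intro h1 h2
      rw [h1, hd3] at h2
      exact hrr h2
    · intro h1
      rcases C.ka_eq x with h2 | h2
      · exact h2
      · exfalso
        rw [h2, map_neg, hd3, neg_neg] at h1
        exact h1 rfl
  obtain ⟨Psi, hP1, hP2, hP3⟩ := hPH7 GQ X (dec ι) C.c (C.half : Set X) C.Phi hh2
    (fun d _ x => hh4 d x) hHc hH5 hdH C.type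
  have hst' : ∀ x, ‖ι (C.al x)‖ ^ (locOrb ι x).ncard *
      ((p ^ a : ℕ) : ℝ) ^ (Psi ∩ locOrb ι x).ncard = 1 := by
    intro x
    have h1 : (Psi ∩ locOrb ι x).ncard = (C.Phi ∩ locOrb ι x).ncard := hP2 x
    rw [h1]
    exact C.st x
  refine ⟨C.half.val.map C.al, (Psi ∩ C.half).ncard, hz3, hd,
    ⟨X, _, _, { toCMAlg := C.toCMAlg, Phi := Psi, type := hP1, st := hst' }, ?_, rfl, rfl, ?_⟩,
    hP3⟩
  · rw [← hh1, hcard]
  · intro h
    exact absurd h (by decide)

end Pool.T4
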