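import Pool.Agent.Work.MP_223b32_t4.Interface2

/-! # Block OF6: an orbit of six elements with a relation, and a line (helper44) -/

set_option autoImplicit false

namespace Pool.T4

theorem OF6_qsmul {G U : Type} [Group G] [AddCommGroup U] [Module ℚ U] [DistribMulAction G U]
    (g : G) (q : ℚ) (v : U) : g • (q • v) = q • (g • v) :=
  map_rat_smul (DistribMulAction.toAddMonoidHom U g) q v

theorem OF6_zsmul {G U : Type} [Group G] [AddCommGroup U] [DistribMulAction G U]
    (g : G) (q : ℤ) (v : U) : g • (q • v) = q • (g • v) :=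
  map_zsmul (DistribMulAction.toAddMonoidHom U g) q v

theorem OF6_rel {G U : Type} [Group G] [AddCommGroup U] [Module ℚ U] [DistribMulAction G U]
    (K : Core G U) (V : Finset U) (m : ℕ) (hV : IsOrb K V m) (f : U → ℤ) (hf : IsRel V f) (g : G) :
    IsRel V (fun v => f (g • v)) := by
  obtain ⟨h1, h2, h3⟩ := hf
  refine ⟨fun v => ?_, fun v hv => ?_, ?_⟩
  · show f (g • -v) = -f (g • v)
    rw [smul_neg, h1]
  · apply h2
    intro hgv
    apply hv
    have := hV.stable g⁻¹ _ hgv
    rwa [inv_smul_smul] at this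
  · have e : ∑ v ∈ V, f (g • v) • (g • v) = ∑ v ∈ V, f v • v := by
      refine Finset.sum_bij (fun v _ => g • v) (fun v hv => hV.stable g v hv) ?_ ?_ ?_
      · intro a _ b _ hab
        exact (smul_left_cancel_iff g).1 hab
      · intro b hb
        exact ⟨g⁻¹ • b, hV.stable g⁻¹ b hb, smul_inv_smul g b⟩
      · intro a _
        rfl
    have e2 : g • ∑ v ∈ V, f (g • v) • v = 0 := by
      rw [Finset.smul_sum, ← h3, ← e]
      refine Finset.sum_congr rfl fun v _ => ?_
      exact OF6_zsmul g _ v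
    have e3 : g⁻¹ • (g • ∑ v ∈ V, f (g • v) • v) = g⁻¹ • (0 : U) := by rw [e2]
    rwa [inv_smul_smul, smul_zero] at e3

/-- an element which permutes the three elements cyclically -/
theorem OF6_cycle {G U : Type} [Group G] [AddCommGroup U] [DistribMulAction G U]
    (x1 x2 x3 : U) (h12 : x1 ≠ x2) (h13 : x1 ≠ x3) (h23 : x2 ≠ x3)
    (P : G → Prop) (hP : ∀ g, P g → ∀ x, x = x1 ∨ x = x2 ∨ x = x3 → g • x = x1 ∨ g • x = x2 ∨ g • x = x3)
    (g1 g2 : G) (p1 : P g1) (p2 : P g2) (e1 : g1 • x1 = x2) (e2 : g2 • x1 = x3) :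
    ∃ h : G, (h • x1 = x2 ∧ h • x2 = x3 ∧ h • x3 = x1) ∨ (h • x1 = x3 ∧ h • x3 = x2 ∧ h • x2 = x1) := by
  have inj : ∀ (g : G) (a b : U), g • a = g • b → a = b := fun g a b h => (smul_left_cancel_iff g).1 h
  have a2 := hP g1 p1 x2 (Or.inr (Or.inl rfl))
  have a3 := hP g1 p1 x3 (Or.inr (Or.inr rfl))
  have b2 := hP g2 p2 x2 (Or.inr (Or.inl rfl))
  have b3 := hP g2 p2 x3 (Or.inr (Or.inr rfl))
  rcases a2 with a2 | a2 | a2
  · -- g1 swaps x1, x2
    have a3' : g1 • x3 = x3 := by
      rcases a3 with a3 | a3 | a3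
      · exact absurd (inj g1 _ _ (a2.trans a3.symm)) h23
      · exact absurd (inj g1 _ _ (e1.trans a3.symm)) h13
      · exact a3
    rcases b3 with b3 | b3 | b3
    · have b2' : g2 • x2 = x2 := by
        rcases b2 with b2 | b2 | b2
        · exact absurd (inj g2 _ _ (b2.trans b3.symm)) h23
        · exact b2
        · exact absurd (inj g2 _ _ (e2.trans b2.symm)) h12
      refine ⟨g1 * g2, Or.inr ⟨?_, ?_, ?_⟩⟩
      · rw [mul_smul, e2, a3']
      · rw [mul_smul, b3, e1]
      · rw [mul_smul, b2', a2]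
    · have b2' : g2 • x2 = x1 := by
        rcases b2 with b2 | b2 | b2
        · exact b2
        · exact absurd (inj g2 _ _ (b2.trans b3.symm)) h23
        · exact absurd (inj g2 _ _ (e2.trans b2.symm)) h12
      exact ⟨g2, Or.inr ⟨e2, b3, b2'⟩⟩
    · exact absurd (inj g2 _ _ (e2.trans b3.symm)) h13
  · exact absurd (inj g1 _ _ (e1.trans a2.symm)) h12
  · have a3' : g1 • x3 = x1 := by
      rcases a3 with a3 | a3 | a3
      · exact a3
      · exact absurd (inj g1 _ _ (e1.trans a3.symm)) h13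
      · exact absurd (inj g1 _ _ (a2.trans a3.symm)) h23
    exact ⟨g1, Or.inl ⟨e1, a2, a3'⟩⟩

theorem OF6_ne_neg {U : Type} [AddCommGroup U] [Module ℚ U] (v : U) (h : v = -v) : v = 0 := by
  have h2 : (2 : ℚ) • v = 0 := by
    rw [two_smul]
    nth_rewrite 2 [h]
    exact add_neg_cancel v
  exact (smul_eq_zero.1 h2).resolve_left (by norm_num)

theorem p_OF6 (h1 : Stmt_RK1) : Stmt_OF6 := by
  classical
  intro G U _ _ _ _ K V m hV hc f hf hf0 y hy hyV
  obtain ⟨hy0, hyL⟩ := hy
  obtain ⟨fo, fz, fs⟩ := hf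
  have hneg : ∀ v ∈ V, -v ∈ V := by
    intro v hv
    have := hV.stable K.c0 v hv
    rwa [K.cc v] at this
  -- proportionality
  have hprop : ∀ (g : G) (u v : U), f u * f (g • v) = f v * f (g • u) := fun g u v =>
    h1 G U K V m hV f (fun v => f (g • v)) ⟨fo, fz, fs⟩ (OF6_rel K V m hV f ⟨fo, fz, fs⟩ g) u v
  -- a maximum
  obtain ⟨u0, hu0, hmax⟩ := Finset.exists_max_image V (fun v => |f v|) hV.ne
  have hu0ne : f u0 ≠ 0 := by
    intro h0
    apply hf0
    funext v
    by_cases hv : v ∈ V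
    · have := hmax v hv
      rw [h0, abs_zero] at this
      simpa using this
    · simpa using fz v hv
  have hu0pos : 0 < |f u0| := abs_pos.2 hu0ne
  have habs : ∀ v ∈ V, |f v| = |f u0| := by
    intro v hv
    obtain ⟨g, hg⟩ := hV.trans v hv u0 hu0
    have h := hprop g u0 v
    rw [hg] at h
    have h2 : |f u0| * |f u0| = |f v| * |f (g • u0)| := by rw [← abs_mul, ← abs_mul, h]
    have h3 := hmax (g • u0) (hV.stable g u0 hu0)
    have h4 := hmax v hv
    have h5 : |f u0| * |f u0| ≤ |f v| * |f u0| := by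
      rw [h2]; exact mul_le_mul_of_nonneg_left h3 (abs_nonneg _)
    exact le_antisymm h4 (le_of_mul_le_mul_right h5 hu0pos)
  have hvne : ∀ v ∈ V, f v ≠ 0 := by
    intro v hv h0
    have := habs v hv
    rw [h0, abs_zero] at this
    omega
  -- signs
  have hsign : ∀ g : G, (∀ v, f (g • v) = f v) ∨ (∀ v, f (g • v) = -f v) := by
    intro g
    have h := habs (g • u0) (hV.stable g u0 hu0)
    rcases abs_eq_abs.1 h with h | h
    · left
      intro v
      have h2 := hprop g u0 v
      rw [h, mul_comm (f v)] at h2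
      exact mul_left_cancel₀ hu0ne h2
    · right
      intro v
      have h2 := hprop g u0 v
      rw [h] at h2
      have h3 : f u0 * f (g • v) = f u0 * (-f v) := by rw [h2]; ring
      exact mul_left_cancel₀ hu0ne h3
  -- the positive part
  obtain ⟨J, hJ⟩ : ∃ J : Finset U, J = V.filter (fun v => 0 < f v) := ⟨_, rfl⟩
  have memJ : ∀ v, v ∈ J ↔ v ∈ V ∧ 0 < f v := by intro v; rw [hJ, Finset.mem_filter]
  have hN : V.filter (fun v => ¬ 0 < f v) = J.image (fun v => -v) := by
    ext v
    rw [Finset.mem_filter, Finset.mem_image]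
    constructor
    · rintro ⟨hv, hn⟩
      refine ⟨-v, ?_, neg_neg v⟩
      rw [memJ]
      refine ⟨hneg v hv, ?_⟩
      rw [fo]
      have := hvne v hv
      omega
    · rintro ⟨u, hu, rfl⟩
      rw [memJ] at hu
      refine ⟨hneg u hu.1, ?_⟩
      rw [fo]
      omega
  have hJ3 : J.card = 3 := by
    have e1 : (V.filter (fun v => 0 < f v)).card + (V.filter (fun v => ¬ 0 < f v)).card = V.card :=
      Finset.card_filter_add_card_filter_not (s := V) (fun v => 0 < f v)
    rw [hN, ← hJ, Finset.card_image_of_injective _ neg_injective, hc] at e1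
    omega
  have hval : ∀ v ∈ J, f v = |f u0| := by
    intro v hv
    rw [memJ] at hv
    rw [← habs v hv.1, abs_of_pos hv.2]
  have hsum : ∑ v ∈ J, v = 0 := by
    have e1 : ∑ v ∈ V.filter (fun v => 0 < f v), f v • v + ∑ v ∈ V.filter (fun v => ¬ 0 < f v), f v • v = ∑ v ∈ V, f v • v :=
      Finset.sum_filter_add_sum_filter_not V (fun v => 0 < f v) (fun v => f v • v)
    rw [hN, ← hJ, fs, Finset.sum_image (fun a _ b _ h => neg_injective h)] at e1
    have e2 : ∑ v ∈ J, f (-v) • (-v) = ∑ v ∈ J, f v • v := by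
      refine Finset.sum_congr rfl fun v _ => ?_
      rw [fo, neg_smul, smul_neg, neg_neg]
    have e3 : ∑ v ∈ J, f v • v = |f u0| • ∑ v ∈ J, v := by
      rw [Finset.smul_sum]
      exact Finset.sum_congr rfl fun v hv => by rw [hval v hv]
    rw [e2, e3, ← two_smul ℤ, smul_smul] at e1
    have e4 : (((2 * |f u0| : ℤ)) : ℚ) • ∑ v ∈ J, v = 0 := by
      rw [Int.cast_smul_eq_zsmul]
      exact e1
    rcases smul_eq_zero.1 e4 with h | h
    · exfalso
      have : (2 * |f u0| : ℤ) = 0 := by exact_mod_cast h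
      omega
    · exact h
  obtain ⟨x1, x2, x3, h12, h13, h23, hJe⟩ := Finset.card_eq_three.1 hJ3
  have hmem : ∀ x, x ∈ J ↔ x = x1 ∨ x = x2 ∨ x = x3 := by
    intro x; rw [hJe]; simp
  have hx1 : x1 ∈ J := (hmem x1).2 (Or.inl rfl)
  have hx2 : x2 ∈ J := (hmem x2).2 (Or.inr (Or.inl rfl))
  have hx3 : x3 ∈ J := (hmem x3).2 (Or.inr (Or.inr rfl))
  have hs3 : x1 + (x2 + x3) = 0 := by
    rw [hJe, Finset.sum_insert (by simp [h12, h13]), Finset.sum_insert (by simp [h23]),
      Finset.sum_singleton] at hsum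
    exact hsum
  obtain ⟨g1, hg1⟩ := hV.trans x1 ((memJ x1).1 hx1).1 x2 ((memJ x2).1 hx2).1
  obtain ⟨g2, hg2⟩ := hV.trans x1 ((memJ x1).1 hx1).1 x3 ((memJ x3).1 hx3).1
  have hplus : ∀ g : G, g • x1 ∈ J → ∀ v, f (g • v) = f v := by
    intro g hg
    rcases hsign g with h | h
    · exact h
    · exfalso
      have h2 := h x1
      have h3 := ((memJ _).1 hg).2
      have h4 := ((memJ _).1 hx1).2
      omega
  obtain ⟨h, hh⟩ := OF6_cycle x1 x2 x3 h12 h13 h23 (fun g : G => ∀ v, f (g • v) = f v)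
    (by
      intro g hg x hx
      rw [← hmem] at hx ⊢
      rw [memJ] at hx ⊢
      exact ⟨hV.stable g x hx.1, by rw [hg]; exact hx.2⟩)
    g1 g2 (hplus g1 (by rw [hg1]; exact hx2)) (hplus g2 (by rw [hg2]; exact hx3)) hg1 hg2
  have hJz : ∀ v ∈ J, v + h • v + h • (h • v) = 0 := by
    intro v hv
    rw [hmem] at hv
    rcases hh with ⟨q1, q2, q3⟩ | ⟨q1, q2, q3⟩
    · rcases hv with rfl | rfl | rfl
      · rw [q1, q2, ← hs3]; abel
      · rw [q2, q3, ← hs3]; abel
      · rw [q3, q1, ← hs3]; abel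
    · rcases hv with rfl | rfl | rfl
      · rw [q1, q2, ← hs3]; abel
      · rw [q3, q1, ← hs3]; abel
      · rw [q2, q3, ← hs3]; abel
  have hVz : ∀ v ∈ V, v + h • v + h • (h • v) = 0 := by
    intro v hv
    by_cases hp : 0 < f v
    · exact hJz v ((memJ v).2 ⟨hv, hp⟩)
    · have hm : -v ∈ J := by
        rw [memJ]
        refine ⟨hneg v hv, ?_⟩
        rw [fo]
        have := hvne v hv
        omega
      have := hJz (-v) hm
      rw [smul_neg, smul_neg] at this
      have h2 : -(v + h • v + h • (h • v)) = 0 := by rw [← this]; abel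
      exact neg_eq_zero.1 h2
  have hspan : ∀ z ∈ Submodule.span ℚ (V : Set U), z + h • z + h • (h • z) = 0 := by
    intro z hz
    induction hz using Submodule.span_induction with
    | mem x hx => exact hVz x hx
    | zero => simp
    | add a b _ _ ha hb =>
      rw [smul_add, smul_add]
      have : a + b + (h • a + h • b) + (h • (h • a) + h • (h • b)) = (a + h • a + h • (h • a)) + (b + h • b + h • (h • b)) := by abel
      rw [this, ha, hb, add_zero]
    | smul q a _ ha =>
      rw [OF6_qsmul, OF6_qsmul, ← smul_add, ← smul_add, ha, smul_zero]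
  have hfin := hspan y hyV
  rcases hyL h with e | e
  · rw [e, e] at hfin
    have h3 : (3 : ℚ) • y = 0 := by
      rw [← hfin, show (3 : ℚ) = 1 + 1 + 1 by norm_num, add_smul, add_smul, one_smul]
    exact hy0 ((smul_eq_zero.1 h3).resolve_left (by norm_num))
  · rw [e, smul_neg, e, neg_neg] at hfin
    apply hy0
    rw [← hfin]; abel

end Pool.T4
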