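import Pool.Agent.Work.MP_223b32_t4.Interface2

/-! Block OFS: the orbit of a vector of an abelian variety. -/

set_option autoImplicit false

namespace Pool.T4

open Pool.Agent.Work.MP_223b32_ag

theorem OFS_cnt_smul {G U : Type} [Group G] [AddCommGroup U] [Module ℚ U] [DistribMulAction G U]
    {K : Core G U} {R : Multiset U} (hR : IsR K R) (g : G) (v : U) :
    cnt (g • v) R = cnt v R := by
  classical
  have h1 := hR.stable g
  have h2 : (R.map fun v => g • v).count (g • v) = R.count v :=
    Multiset.count_map_eq_count' (fun v : U => g • v) R (MulAction.injective g) v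
  have h3 : (R.map fun v => g • v) = R := h1
  rw [h3] at h2
  unfold cnt
  convert h2

theorem OFS_mem_smul {G U : Type} [Group G] [AddCommGroup U] [Module ℚ U] [DistribMulAction G U]
    {K : Core G U} {R : Multiset U} (hR : IsR K R) (g : G) {v : U} (hv : v ∈ R) : g • v ∈ R := by
  have h1 : (R.map fun v => g • v) = R := hR.stable g
  rw [← h1]
  exact Multiset.mem_map_of_mem _ hv

theorem p_OFS : Stmt_OFS := by
  classical
  intro G U _ _ _ _ K R hR hcard x hx hx0
  obtain ⟨V, hVdef⟩ : ∃ V : Finset U, V = R.toFinset.filter (fun v => v ∈ gorb G x) := ⟨_, rfl⟩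
  have hmem : ∀ v, v ∈ V ↔ v ∈ gorb G x := by
    intro v
    rw [hVdef, Finset.mem_filter, Multiset.mem_toFinset]
    constructor
    · exact fun h => h.2
    · rintro ⟨g, rfl⟩
      exact ⟨OFS_mem_smul hR g hx, g, rfl⟩
  have hR2 : ∀ v ∈ V, v ∈ R ∧ cnt v R = cnt x R := by
    intro v hv
    obtain ⟨g, rfl⟩ := (hmem v).mp hv
    exact ⟨OFS_mem_smul hR g hx, OFS_cnt_smul hR g x⟩
  have hstab : ∀ g : G, ∀ v ∈ V, g • v ∈ V := by
    intro g v hv
    obtain ⟨h, rfl⟩ := (hmem v).mp hv
    exact (hmem _).mpr ⟨g * h, (mul_smul g h x).symm⟩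
  have hnz : ∀ v ∈ V, v ≠ 0 := by
    intro v hv h0
    obtain ⟨g, rfl⟩ := (hmem v).mp hv
    exact hx0 ((smul_eq_zero_iff_eq g).mp h0)
  have hpos : 0 < cnt x R := by
    unfold cnt
    exact Multiset.count_pos.mpr hx
  have hcnt : ∀ v : U, cnt v R = R.count v := by
    intro v
    unfold cnt
    congr
  have hsum : cnt x R * V.card ≤ 8 := by
    have h1 : ∑ v ∈ V, R.count v ≤ ∑ v ∈ R.toFinset, R.count v := by
      refine Finset.sum_le_sum_of_subset ?_
      rw [hVdef]
      exact Finset.filter_subset _ _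
    rw [Multiset.toFinset_sum_count_eq] at h1
    have h2 : ∑ v ∈ V, R.count v = V.card * cnt x R := by
      rw [Finset.sum_congr rfl (fun v hv => by rw [← hcnt v, (hR2 v hv).2]), Finset.sum_const,
        smul_eq_mul]
    rw [h2] at h1
    rw [mul_comm]
    exact h1.trans hcard
  have heven : Even V.card := by
    have h1 : ∑ v ∈ V, (1 : ZMod 2) = 0 := by
      refine Finset.sum_involution (fun v _ => -v) ?_ ?_ ?_ ?_
      · intro v _
        decide
      · intro v hv _ h2
        apply hnz v hv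
        have h3 : (2 : ℚ) • v = 0 := by
          rw [two_smul]
          nth_rewrite 1 [← h2]
          exact neg_add_cancel v
        exact (smul_eq_zero.mp h3).resolve_left two_ne_zero
      · intro v hv
        rw [← K.cc v]
        exact hstab K.c0 v hv
      · intro v _
        exact neg_neg v
    rw [Finset.sum_const, nsmul_eq_mul, mul_one] at h1
    exact (ZMod.natCast_eq_zero_iff_even).mp h1
  refine ⟨V, ⟨⟨x, (hmem x).mpr ⟨1, (one_smul G x).symm⟩⟩, hnz, hstab, ?_, hpos, hsum, ?_, ?_⟩,
    hmem, hR2, heven, ?_⟩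
  · intro u hu v hv
    obtain ⟨g, rfl⟩ := (hmem u).mp hu
    obtain ⟨h, rfl⟩ := (hmem v).mp hv
    exact ⟨h * g⁻¹, by rw [mul_smul, inv_smul_smul]⟩
  · intro v hv
    exact hR.le_one v (hR2 v hv).1
  · intro v hv
    obtain ⟨k, hk⟩ := hR.ht v (hR2 v hv).1
    rw [(hR2 v hv).2] at hk
    exact ⟨k, hk⟩
  · have h1 : gorb G x = (V : Set U) := by
      ext v
      rw [Finset.mem_coe]
      exact (hmem v).symm
    rw [h1, Set.ncard_coe_finset]

end Pool.T4
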