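import Pool.Agent.Work.MP_223b32_t4.Interface

namespace Pool.T4

theorem ORB_smul {G U : Type} [Group G] [AddCommGroup U] [Module ℚ U] [DistribMulAction G U]
    (g : G) (t : ℚ) (v : U) : g • (t • v) = t • (g • v) :=
  map_rat_smul (DistribSMul.toAddMonoidHom U g) t v

theorem ORB_w {G U : Type} [Group G] [AddCommGroup U] [Module ℚ U] [DistribMulAction G U]
    (K : Core G U) (t : ℚ) (v : U) : K.w (t • v) = (t : ℝ) * K.w v := by
  rw [map_rat_smul K.w t v, Rat.smul_def]

theorem ORB_coord {U : Type} [AddCommGroup U] [Module ℚ U] {a b x y : U} {s0 t0 s1 t1 : ℚ}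
    (hx : x = s0 • a + t0 • b) (hy : y = s1 • a + t1 • b) (hx0 : x ≠ 0)
    (hind : ∀ t : ℚ, y ≠ t • x) (s t : ℚ) : ∃ p q : ℚ, s • a + t • b = p • x + q • y := by
  have hD : s0 * t1 - s1 * t0 ≠ 0 := by
    intro h
    by_cases h0 : s0 = 0
    · by_cases h1 : t0 = 0
      · exact hx0 (by rw [hx, h0, h1, zero_smul, zero_smul, add_zero])
      · refine hind (t1 / t0) ?_
        have e1 : t1 / t0 * s0 = s1 := by
          rw [div_mul_eq_mul_div, div_eq_iff h1]
          linarith
        have e2 : t1 / t0 * t0 = t1 := div_mul_cancel₀ _ h1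
        rw [hx, smul_add, smul_smul, smul_smul, e1, e2]
        exact hy
    · refine hind (s1 / s0) ?_
      have e1 : s1 / s0 * s0 = s1 := div_mul_cancel₀ _ h0
      have e2 : s1 / s0 * t0 = t1 := by
        rw [div_mul_eq_mul_div, div_eq_iff h0]
        linarith
      rw [hx, smul_add, smul_smul, smul_smul, e1, e2]
      exact hy
  refine ⟨(s * t1 - t * s1) / (s0 * t1 - s1 * t0), (t * s0 - s * t0) / (s0 * t1 - s1 * t0), ?_⟩
  have e1 : (s * t1 - t * s1) / (s0 * t1 - s1 * t0) * s0 +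
      (t * s0 - s * t0) / (s0 * t1 - s1 * t0) * s1 = s := by
    rw [div_mul_eq_mul_div, div_mul_eq_mul_div, ← add_div, div_eq_iff hD]
    ring
  have e2 : (s * t1 - t * s1) / (s0 * t1 - s1 * t0) * t0 +
      (t * s0 - s * t0) / (s0 * t1 - s1 * t0) * t1 = t := by
    rw [div_mul_eq_mul_div, div_mul_eq_mul_div, ← add_div, div_eq_iff hD]
    ring
  calc s • a + t • b = ((s * t1 - t * s1) / (s0 * t1 - s1 * t0) * s0 +
        (t * s0 - s * t0) / (s0 * t1 - s1 * t0) * s1) • a +
        ((s * t1 - t * s1) / (s0 * t1 - s1 * t0) * t0 +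
        (t * s0 - s * t0) / (s0 * t1 - s1 * t0) * t1) • b := by rw [e1, e2]
    _ = _ := by
        rw [hx, hy, smul_add, smul_add, smul_smul, smul_smul, smul_smul, smul_smul, add_smul,
          add_smul]
        abel

/-- an element of the group has finite order on a finite stable set -/
theorem ORB_fin {G U : Type} [Group G] [AddCommGroup U] [DistribMulAction G U]
    (V : Finset U) (hV : ∀ g : G, ∀ v ∈ V, g • v ∈ V) (d : G) :
    ∃ N : ℕ, 0 < N ∧ ∀ v ∈ V, d ^ N • v = v := by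
  let φ : ℕ → (V → V) := fun i v => ⟨d ^ i • v.1, hV _ _ v.2⟩
  obtain ⟨i, j, hij, h⟩ := Finite.exists_ne_map_eq_of_infinite φ
  have key : ∀ i j : ℕ, i < j → φ i = φ j → ∃ N : ℕ, 0 < N ∧ ∀ v ∈ V, d ^ N • v = v := by
    intro i j hij h
    refine ⟨j - i, by omega, fun v hv => ?_⟩
    have h1 : d ^ i • v = d ^ j • v := congrArg Subtype.val (congrFun h ⟨v, hv⟩)
    have h2 : d ^ j = d ^ i * d ^ (j - i) := by
      rw [← pow_add]
      congr 1
      omega
    rw [h2, mul_smul] at h1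
    exact (smul_left_cancel _ h1).symm
  rcases lt_or_gt_of_ne hij with h1 | h1
  · exact key i j h1 h
  · exact key j i h1 h.symm

theorem ORB_e1 {G U : Type} [Group G] [AddCommGroup U] [Module ℚ U] [DistribMulAction G U]
    {d : G} {k0 v : U} {t : ℚ} (hk : k0 ≠ 0) (hd : d • k0 = k0) (hv : d • v = v + t • k0)
    {N : ℕ} (hN : 0 < N) (hNv : d ^ N • v = v) : d • v = v := by
  have h1 : ∀ n : ℕ, d ^ n • v = v + ((n : ℚ) * t) • k0 := by
    intro n
    induction n with
    | zero => simp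
    | succ n ih =>
      rw [pow_succ', mul_smul, ih, smul_add, hv, ORB_smul, hd, add_assoc, ← add_smul]
      congr 2
      push_cast
      ring
  have h2 := h1 N
  rw [hNv] at h2
  have h3 : ((N : ℚ) * t) • k0 = 0 := by
    have h4 : v + ((N : ℚ) * t) • k0 = v + 0 := by rw [add_zero]; exact h2.symm
    exact add_left_cancel h4
  have h5 : (N : ℚ) * t = 0 := (smul_eq_zero.1 h3).resolve_right hk
  have h6 : (N : ℚ) ≠ 0 := by exact_mod_cast hN.ne'
  have h7 : t = 0 := (mul_eq_zero.1 h5).resolve_left h6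
  rw [hv, h7, zero_smul, add_zero]

theorem ORB_e {G U : Type} [Group G] [AddCommGroup U] [Module ℚ U] [DistribMulAction G U]
    {d : G} {k0 : U} {e : ℚ} (hk : k0 ≠ 0) (hd : d • k0 = e • k0)
    {N : ℕ} (hN : 0 < N) (hNk : d ^ N • k0 = k0) : e = 1 ∨ e = -1 := by
  have h1 : ∀ n : ℕ, d ^ n • k0 = (e ^ n) • k0 := by
    intro n
    induction n with
    | zero => simp
    | succ n ih => rw [pow_succ', mul_smul, ih, ORB_smul, hd, smul_smul, pow_succ]
  have h2 := h1 N
  rw [hNk] at h2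
  have h3 : (e ^ N - 1) • k0 = 0 := by
    rw [sub_smul, one_smul, ← h2, sub_self]
  have h4 : e ^ N - 1 = 0 := (smul_eq_zero.1 h3).resolve_right hk
  have h5 : e ^ N = 1 := by linarith
  rcases (pow_eq_one_iff_of_ne_zero hN.ne').1 h5 with h6 | h6
  · exact Or.inl h6
  · exact Or.inr h6.1


theorem p_ORB (hLIN : Stmt_LIN) : Stmt_ORB := by
  classical
  intro G U _ _ _ _ K V m hO hV8 hpl
  have hm : m = 1 := by
    have h1 := hO.card
    have h2 := hO.m_pos
    rw [hV8] at h1
    omega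
  -- orbits
  have horb : ∀ v ∈ V, (orb K.D v).Finite ∧ 0 < (orb K.D v).ncard := by
    intro v hv
    have h1 : orb K.D v ⊆ (V : Set U) := by
      rintro y ⟨d, -, rfl⟩
      exact hO.stable d v hv
    have h2 : (orb K.D v).Finite := V.finite_toSet.subset h1
    refine ⟨h2, (Set.ncard_pos h2).2 ⟨v, 1, K.D.one_mem, (one_smul G v).symm⟩⟩
  -- rational values
  have hrat : ∀ v ∈ V, ∃ r : ℚ, K.w v = r := by
    intro v hv
    obtain ⟨n, hn⟩ := hO.ht v hv
    have h1 := (horb v hv).2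
    rw [hm, one_mul] at hn
    have h2 : ((orb K.D v).ncard : ℝ) ≠ 0 := by exact_mod_cast h1.ne'
    refine ⟨2 * n / (orb K.D v).ncard - 1, ?_⟩
    push_cast
    rw [← hn]
    field_simp
    ring
  -- two independent vectors
  obtain ⟨x, hx⟩ := hO.ne
  have hx0 : x ≠ 0 := hO.nz x hx
  have hy : ∃ y ∈ V, ∀ t : ℚ, y ≠ t • x := by
    by_contra hcon
    push Not at hcon
    have h1 := hLIN G U K V m hO ⟨x, hcon⟩
    omega
  obtain ⟨y, hy, hind⟩ := hy
  obtain ⟨a, b, hab⟩ := hpl
  obtain ⟨s0, t0, hxe⟩ := hab x hx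
  obtain ⟨s1, t1, hye⟩ := hab y hy
  have hco : ∀ v ∈ V, ∃ p q : ℚ, v = p • x + q • y := by
    intro v hv
    obtain ⟨s, t, hst⟩ := hab v hv
    obtain ⟨p, q, hpq⟩ := ORB_coord hxe hye hx0 hind s t
    exact ⟨p, q, hst.trans hpq⟩
  obtain ⟨r, hr⟩ := hrat x hx
  obtain ⟨s, hs⟩ := hrat y hy
  by_cases hrs : r = 0 ∧ s = 0
  · intro v hv
    obtain ⟨p, q, hpq⟩ := hco v hv
    left
    rw [hpq, map_add, ORB_w, ORB_w, hr, hs, hrs.1, hrs.2]
    simp
  obtain ⟨k0, hk0⟩ : ∃ k0 : U, k0 = s • x - r • y := ⟨_, rfl⟩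
  have hk : k0 ≠ 0 := by
    intro h
    rw [hk0, sub_eq_zero] at h
    by_cases h1 : r = 0
    · rw [h1, zero_smul] at h
      exact hrs ⟨h1, (smul_eq_zero.1 h).resolve_right hx0⟩
    · refine hind (s / r) ?_
      have h2 : (s / r) • x = (1 / r) • (s • x) := by
        rw [smul_smul]
        congr 1
        ring
      rw [h2, h, smul_smul, one_div_mul_cancel h1, one_smul]
  have hker : ∀ p q : ℚ, K.w (p • x + q • y) = 0 → ∃ t : ℚ, p • x + q • y = t • k0 := by
    intro p q h
    rw [map_add, ORB_w, ORB_w, hr, hs] at h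
    have h' : p * r + q * s = 0 := by exact_mod_cast h
    by_cases h1 : s = 0
    · have h2 : r ≠ 0 := fun h2 => hrs ⟨h2, h1⟩
      have h3 : p = 0 := by
        rw [h1, mul_zero, add_zero] at h'
        exact (mul_eq_zero.1 h').resolve_right h2
      refine ⟨-(q / r), ?_⟩
      rw [hk0, h1, h3, zero_smul, zero_add, zero_sub, smul_neg, neg_smul, neg_neg,
        smul_smul, div_mul_cancel₀ _ h2]
    · refine ⟨p / s, ?_⟩
      rw [hk0, smul_sub, smul_smul, smul_smul, div_mul_cancel₀ _ h1]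
      have h2 : p / s * r = -q := by
        rw [div_mul_eq_mul_div, div_eq_iff h1]
        linarith
      rw [h2, neg_smul, sub_neg_eq_add]
  -- the action of `D`
  have hdv : ∀ d ∈ K.D, ∀ v ∈ V, ∃ t : ℚ, d • v = v + t • k0 := by
    intro d hd v hv
    obtain ⟨p, q, hpq⟩ := hco v hv
    obtain ⟨p', q', hpq'⟩ := hco (d • v) (hO.stable d v hv)
    have h1 : (p' - p) • x + (q' - q) • y = d • v - v := by
      rw [hpq', hpq, sub_smul, sub_smul]
      abel
    have h2 : K.w ((p' - p) • x + (q' - q) • y) = 0 := by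
      rw [h1, map_sub, K.wD d hd, sub_self]
    obtain ⟨t, ht⟩ := hker _ _ h2
    refine ⟨t, ?_⟩
    rw [← ht, h1]
    abel
  have hdk : ∀ d ∈ K.D, ∃ e : ℚ, d • k0 = e • k0 := by
    intro d hd
    obtain ⟨t, ht⟩ := hdv d hd x hx
    obtain ⟨t', ht'⟩ := hdv d hd y hy
    refine ⟨1 + s * t - r * t', ?_⟩
    nth_rewrite 1 [hk0]
    rw [smul_sub, ORB_smul, ORB_smul, ht, ht', smul_add, smul_add, smul_smul, smul_smul,
      sub_smul, add_smul, one_smul]
    nth_rewrite 3 [hk0]
    abel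
  have hde : ∀ d ∈ K.D, d • k0 = k0 ∨ d • k0 = -k0 := by
    intro d hd
    obtain ⟨e, he⟩ := hdk d hd
    obtain ⟨N, hN, hNv⟩ := ORB_fin V hO.stable d
    have h1 : d ^ N • k0 = k0 := by
      rw [hk0, smul_sub, ORB_smul, ORB_smul, hNv x hx, hNv y hy]
    rcases ORB_e hk he hN h1 with h2 | h2
    · left
      rw [he, h2, one_smul]
    · right
      rw [he, h2, neg_smul, one_smul]
  have hfix : ∀ d ∈ K.D, d • k0 = k0 → ∀ v ∈ V, d • v = v := by
    intro d hd hdk v hv
    obtain ⟨t, ht⟩ := hdv d hd v hv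
    obtain ⟨N, hN, hNv⟩ := ORB_fin V hO.stable d
    exact ORB_e1 hk hdk ht hN (hNv v hv)
  have hneg : ∀ d ∈ K.D, ∀ d' ∈ K.D, d • k0 = -k0 → d' • k0 = -k0 → ∀ v ∈ V, d • v = d' • v := by
    intro d hd d' hd' h1 h2 v hv
    have h3 : d'⁻¹ • k0 = -k0 := by
      have h4 : d'⁻¹ • (d' • k0) = d'⁻¹ • (-k0) := by rw [h2]
      rw [inv_smul_smul, smul_neg] at h4
      rw [h4, neg_neg]
      exact h4 ▸ rfl
    have h4 : (d'⁻¹ * d) • k0 = k0 := by
      rw [mul_smul, h1, smul_neg, h3, neg_neg]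
    have h5 := hfix (d'⁻¹ * d) (K.D.mul_mem (K.D.inv_mem hd') hd) h4 v hv
    rw [mul_smul, inv_smul_eq_iff] at h5
    exact h5
  -- the orbits have at most two elements
  intro v hv
  have hcard : (orb K.D v).ncard ≤ 2 := by
    by_cases h : ∃ d0 ∈ K.D, d0 • k0 = -k0
    · obtain ⟨d0, hd0, h0⟩ := h
      have h1 : orb K.D v ⊆ {v, d0 • v} := by
        rintro z ⟨d, hd, rfl⟩
        rcases hde d hd with h2 | h2
        · exact Or.inl (hfix d hd h2 v hv)
        · exact Or.inr (hneg d hd d0 hd0 h2 h0 v hv)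
      exact (Set.ncard_le_ncard h1 (Set.toFinite _)).trans (by
        refine (Set.ncard_insert_le _ _).trans ?_
        rw [Set.ncard_singleton])
    · have h1 : orb K.D v ⊆ {v} := by
        rintro z ⟨d, hd, rfl⟩
        rcases hde d hd with h2 | h2
        · exact hfix d hd h2 v hv
        · exact absurd ⟨d, hd, h2⟩ h
      exact (Set.ncard_le_ncard h1 (Set.toFinite _)).trans (by rw [Set.ncard_singleton]; norm_num)
  have hpos := (horb v hv).2
  obtain ⟨n, hn⟩ := hO.ht v hv
  have habs := abs_le.1 (hO.le_one v hv)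
  rw [hm, one_mul] at hn
  have hc : (orb K.D v).ncard = 1 ∨ (orb K.D v).ncard = 2 := by omega
  rcases hc with hc | hc
  · rw [hc, Nat.cast_one, one_mul] at hn
    have h1 : n ≤ 1 := by
      have h2 : (2 : ℝ) * n ≤ 2 := by linarith [habs.2]
      have h3 : (n : ℝ) ≤ 1 := by linarith
      exact_mod_cast h3
    interval_cases n
    · right; right
      have h2 : K.w v + 1 = 0 := by simpa using hn
      linarith
    · right; left
      have h2 : K.w v + 1 = 2 := by simpa using hn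
      linarith
  · rw [hc] at hn
    have hn' : K.w v + 1 = n := by
      have h2 : (2 : ℝ) * (K.w v + 1) = 2 * n := by exact_mod_cast hn
      linarith
    have h1 : n ≤ 2 := by
      have h3 : (n : ℝ) ≤ 2 := by linarith [habs.2]
      exact_mod_cast h3
    interval_cases n
    · right; right
      have h2 : K.w v + 1 = 0 := by simpa using hn'
      linarith
    · left
      have h2 : K.w v + 1 = 1 := by simpa using hn'
      linarith
    · right; left
      have h2 : K.w v + 1 = 2 := by simpa using hn'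
      linarith

end Pool.T4
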