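import Pool.Agent.Work.MP_223b32_t4.Interface2

/-! # Block OX4: an orbit of four elements and lines -/

set_option autoImplicit false

namespace Pool.T4

open Pool.Agent.Work.MP_223b32_ag

/-- Elements of an orbit with four elements are not lines. -/
theorem OX4_notLine {G U : Type} [Group G] [AddCommGroup U] [Module ℚ U] [DistribMulAction G U]
    {K : Core G U} {V : Finset U} (hV : IsOrb K V 1) (h4 : V.card = 4) {y : U}
    (hy : Line G y) (hyV : y ∈ V) : False := by
  classical
  have hsub : V ⊆ {y, -y} := by
    intro u hu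
    obtain ⟨g, hg⟩ := hV.trans y hyV u hu
    rcases hy.2 g with h | h
    · rw [h] at hg; simp [hg]
    · rw [h] at hg; simp [← hg]
  have h1 := Finset.card_le_card hsub
  have h2 : ({y, -y} : Finset U).card ≤ 2 := Finset.card_le_two
  omega

theorem OX4_negcount {G U : Type} [Group G] [AddCommGroup U] [Module ℚ U] [DistribMulAction G U]
    {K : Core G U} {R : Multiset U} (hR : IsR K R) (y : U) : cnt (-y) R = cnt y R := by
  classical
  have h1 : R.map (fun v => -v) = R := by
    have := hR.stable K.c0
    unfold tr at this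
    have h2 : (fun v : U => K.c0 • v) = fun v => -v := by
      funext v; exact K.cc v
    rwa [h2] at this
  unfold cnt
  have h3 : Multiset.count ((fun v : U => -v) y) (R.map (fun v => -v)) = Multiset.count y R :=
    Multiset.count_map_eq_count' _ _ neg_injective y
  rw [h1] at h3
  exact h3

theorem OX4_big {G U : Type} [Group G] [AddCommGroup U] [Module ℚ U] [DistribMulAction G U]
    {K : Core G U} {R : Multiset U} (hR : IsR K R) (hc : R.card ≤ 8) {V : Finset U}
    (hV : IsOrb K V 1) (h4 : V.card = 4) (hVR : ∀ v ∈ V, v ∈ R) {y : U} (hy : Line G y)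
    (h3 : cnt y R = 3) : False := by
  classical
  have hn : cnt (-y) R = 3 := by rw [OX4_negcount hR, h3]
  have c1 : Multiset.count y R = 3 := h3
  have c2 : Multiset.count (-y) R = 3 := hn
  have hy1 : y ∈ R := Multiset.count_pos.1 (by omega)
  have hy2 : -y ∈ R := Multiset.count_pos.1 (by omega)
  have hnl : Line G (-y) := by
    refine ⟨neg_ne_zero.2 hy.1, fun g => ?_⟩
    rcases hy.2 g with h | h
    · left; rw [smul_neg, h]
    · right; rw [smul_neg, h]
  have hyV : y ∉ V := fun h => OX4_notLine hV h4 hy h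
  have hnV : -y ∉ V := fun h => OX4_notLine hV h4 hnl h
  have hne : y ≠ -y := by
    intro h
    apply hy.1
    have : (2 : ℚ) • y = 0 := by
      rw [two_smul]
      nth_rewrite 2 [h]
      exact add_neg_cancel y
    rcases smul_eq_zero.1 this with h' | h'
    · norm_num at h'
    · exact h'
  have hsub : insert y (insert (-y) V) ⊆ R.toFinset := by
    intro u hu
    rw [Finset.mem_insert, Finset.mem_insert] at hu
    rw [Multiset.mem_toFinset]
    rcases hu with rfl | rfl | hu
    · exact hy1
    · exact hy2
    · exact hVR u hu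
  have hle : ∑ u ∈ insert y (insert (-y) V), R.count u ≤ ∑ u ∈ R.toFinset, R.count u :=
    Finset.sum_le_sum_of_subset hsub
  rw [Multiset.toFinset_sum_count_eq] at hle
  rw [Finset.sum_insert (by
      rw [Finset.mem_insert]; push Not; exact ⟨hne, hyV⟩), Finset.sum_insert hnV, c1, c2] at hle
  have hV4 : 4 ≤ ∑ u ∈ V, R.count u := by
    have : ∑ u ∈ V, 1 ≤ ∑ u ∈ V, R.count u := by
      apply Finset.sum_le_sum
      intro u hu
      exact Multiset.one_le_count_iff_mem.2 (hVR u hu)
    rw [Finset.sum_const, smul_eq_mul, mul_one, h4] at this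
    exact this
  omega

theorem OX4_span {G U : Type} [Group G] [AddCommGroup U] [Module ℚ U] [DistribMulAction G U]
    {K : Core G U} {V : Finset U} (hV : IsOrb K V 1) (g : G) (v : U)
    (hv : v ∈ Submodule.span ℚ (V : Set U)) : g • v ∈ Submodule.span ℚ (V : Set U) := by
  induction hv using Submodule.span_induction with
  | mem x hx => exact Submodule.subset_span (hV.stable g x hx)
  | zero => rw [smul_zero]; exact Submodule.zero_mem _
  | add x y _ _ hx hy => rw [smul_add]; exact Submodule.add_mem _ hx hy
  | smul q x _ hx =>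
    have h : g • (q • x) = q • (g • x) := by
      have := map_rat_smul (DistribSMul.toAddMonoidHom U g) q x
      simpa using this
    rw [h]
    exact Submodule.smul_mem _ _ hx

theorem p_OX4 (hLNT : Stmt_LNT) (hIND : Stmt_IND) (hOF4 : Stmt_OF4) : Stmt_OX4 := by
  intro G U _ _ _ _ K R hR hc V hV h4 hVR S1 S2 h1 h2 hNP h0 hsum
  classical
  have hS1 : S1.sum ∈ Submodule.span ℚ (V : Set U) :=
    multiset_sum_mem S1 fun x hx => Submodule.subset_span (h1 x hx)
  have hS2 : S2.sum ∈ Submodule.span ℚ (V : Set U) := by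
    rw [Multiset.sum_add] at hsum
    rw [eq_neg_of_add_eq_zero_right hsum]
    exact Submodule.neg_mem _ hS1
  by_cases hex : ∃ y ∈ S2.toFinset, ∃ y' ∈ S2.toFinset, y ≠ y' ∧
      ∀ g : G, (g • y = y ↔ g • y' = y')
  · obtain ⟨y, hy, y', hy', hne, hch⟩ := hex
    rw [Multiset.mem_toFinset] at hy hy'
    have hle : ({y, y'} : Multiset U) ≤ S2 := by
      rw [Multiset.le_iff_subset (by simpa using hne)]
      intro u hu
      simp only [Multiset.insert_eq_cons, Multiset.mem_cons, Multiset.mem_singleton] at hu
      rcases hu with rfl | rfl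
      · exact hy
      · exact hy'
    have hnn : y ≠ -y' := by
      intro h
      exact hNP y y' hle (by rw [h]; exact neg_add_cancel y')
    rcases hLNT G U K R hR hc y (h2 y hy).1 y' (h2 y' hy').1 (h2 y hy).2 (h2 y' hy').2 hch hne hnn
      with h | h
    · exact OX4_big hR hc hV h4 hVR (h2 y hy).2 h.1
    · exact OX4_big hR hc hV h4 hVR (h2 y' hy').2 h.2.1
  · push Not at hex
    have hs : ∑ y ∈ S2.toFinset, ((S2.count y : ℕ) : ℚ) • y ∈ Submodule.span ℚ (V : Set U) := by
      have e : S2.sum = ∑ y ∈ S2.toFinset, ((S2.count y : ℕ) : ℚ) • y := by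
        rw [Finset.sum_multiset_count]
        refine Finset.sum_congr rfl fun y _ => ?_
        rw [Nat.cast_smul_eq_nsmul]
      rw [← e]; exact hS2
    have hI := hIND G U (Submodule.span ℚ (V : Set U)) (fun g v hv => OX4_span hV g v hv)
      S2.toFinset (fun y => ((S2.count y : ℕ) : ℚ))
      (fun y hy => (h2 y (Multiset.mem_toFinset.1 hy)).2)
      (fun y hy y' hy' hne => by
        obtain ⟨g, hg⟩ := hex y hy y' hy' hne
        exact ⟨g, by tauto⟩) hs
    obtain ⟨y, hy⟩ := Multiset.exists_mem_of_ne_zero h0
    have hyW := hI y (Multiset.mem_toFinset.2 hy)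
    have hcp : ((S2.count y : ℕ) : ℚ) ≠ 0 := by
      have := Multiset.count_pos.2 hy
      exact_mod_cast this.ne'
    have hyW' : y ∈ Submodule.span ℚ (V : Set U) := by
      have := Submodule.smul_mem _ (((S2.count y : ℕ) : ℚ)⁻¹) hyW
      rwa [smul_smul, inv_mul_cancel₀ hcp, one_smul] at this
    exact hOF4 G U K V hV h4 y (h2 y hy).2 hyW'

end Pool.T4
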