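import Pool.Agent.Work.MP_223b32_t4.Interface2

/-! # Block OX6: an orbit of six elements and a line -/

namespace Pool.T4

section

variable {G U : Type} [Group G] [AddCommGroup U] [Module ℚ U] [DistribMulAction G U]

theorem OX6_half (K : Core G U) {V : Finset U} (h : IsOrb K V 1) :
    ∀ (n : ℕ) (A : Finset U), A.card = n → A ⊆ V → (∀ d ∈ K.D, ∀ v ∈ A, d • v ∈ A) →
      ∃ N : ℕ, ∑ v ∈ A, (K.w v + 1) = 2 * N := by
  classical
  intro n
  induction n using Nat.strong_induction_on with
  | _ n ih =>
    intro A hA hAV hD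
    rcases A.eq_empty_or_nonempty with rfl | ⟨v, hv⟩
    · exact ⟨0, by simp⟩
    · obtain ⟨O, hO⟩ : ∃ O : Finset U, ∀ u, u ∈ O ↔ u ∈ orb K.D v :=
        ⟨A.filter (fun u => u ∈ orb K.D v), fun u => by
          rw [Finset.mem_filter]
          exact ⟨fun h => h.2, fun h => ⟨by obtain ⟨d, hd, rfl⟩ := h; exact hD d hd v hv, h⟩⟩⟩
      have hOA : O ⊆ A := fun u hu => by
        obtain ⟨d, hd, rfl⟩ := (hO u).1 hu
        exact hD d hd v hv
      have hvO : v ∈ O := (hO v).2 ⟨1, one_mem _, (one_smul _ _).symm⟩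
      have hcard : (orb K.D v).ncard = O.card := by
        rw [← Set.ncard_coe_finset]
        congr 1
        ext u
        exact (hO u).symm
      obtain ⟨n1, hn1⟩ := h.ht v (hAV hv)
      obtain ⟨N2, hN2⟩ := ih (A \ O).card (by
          rw [← hA]
          exact Finset.card_lt_card (Finset.sdiff_ssubset hOA ⟨v, hvO⟩)) (A \ O) rfl
        (Finset.sdiff_subset.trans hAV) (by
          intro d hd u hu
          rw [Finset.mem_sdiff] at hu ⊢
          refine ⟨hD d hd u hu.1, fun h1 => hu.2 ?_⟩
          obtain ⟨e, he, h2⟩ := (hO _).1 h1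
          exact (hO _).2 ⟨d⁻¹ * e, mul_mem (inv_mem hd) he, by
            rw [mul_smul, ← h2, inv_smul_smul]⟩)
      refine ⟨n1 + N2, ?_⟩
      rw [← Finset.sum_sdiff hOA, hN2]
      have h3 : ∑ u ∈ O, (K.w u + 1) = 2 * n1 := by
        rw [← hn1, hcard, one_mul, ← nsmul_eq_mul, ← Finset.sum_const]
        apply Finset.sum_congr rfl
        intro u hu
        obtain ⟨d, hd, rfl⟩ := (hO u).1 hu
        rw [K.wD d hd]
      rw [h3]
      push_cast
      ring

end

theorem p_OX6 (hOF6 : Stmt_OF6) (hLNE : Stmt_LNE) : Stmt_OX6 := by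
  classical
  intro G U _ _ _ _ K V hV hV6 y hy hwy S k hSV hNP hk hsum
  obtain ⟨hwy0, hDy⟩ := hLNE G U K y hy
  have hk0 : (k : ℚ) ≠ 0 := by exact_mod_cast hk.ne'
  have htf : ∀ u : U, k • u = 0 → u = 0 := by
    intro u hu
    rw [← Nat.cast_smul_eq_nsmul ℚ] at hu
    exact (smul_eq_zero.1 hu).resolve_left hk0
  have hS1 : S.sum = -(k • y) := eq_neg_of_add_eq_zero_left hsum
  -- `y` is in the span
  have hSspan : S.sum ∈ Submodule.span ℚ (V : Set U) :=
    multiset_sum_mem _ fun v hv => Submodule.subset_span (hSV v hv)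
  have hyS : y ∈ Submodule.span ℚ (V : Set U) := by
    have h1 : (k : ℚ) • y = -S.sum := by
      rw [Nat.cast_smul_eq_nsmul, hS1, neg_neg]
    have h2 : y = (k : ℚ)⁻¹ • (-S.sum) := by rw [← h1, inv_smul_smul₀ hk0]
    rw [h2]
    exact Submodule.smul_mem _ _ (Submodule.neg_mem _ hSspan)
  have hrel : ∀ f : U → ℤ, IsRel V f → f = 0 := by
    intro f hf
    by_contra h
    exact hOF6 G U K V 1 hV hV6 f hf h y hy hyS
  have hneg : ∀ v ∈ V, -v ∈ V := fun v hv => by
    rw [← K.cc]; exact hV.stable _ _ hv
  have hnn : ∀ v ∈ V, v ≠ -v := by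
    intro v hv h
    apply hV.nz v hv
    have h1 : (2 : ℚ) • v = 0 := by
      rw [two_smul]; nth_rewrite 2 [h]; exact add_neg_cancel v
    exact (smul_eq_zero.1 h1).resolve_left two_ne_zero
  obtain ⟨f, hf⟩ : ∃ f : U → ℤ, ∀ v, f v = (S.count v : ℤ) - S.count (-v) := ⟨_, fun _ => rfl⟩
  have hfodd : ∀ v, f (-v) = -f v := by
    intro v; rw [hf, hf, neg_neg]; ring
  have hSc : ∀ v ∉ V, S.count v = 0 := fun v hv =>
    Multiset.count_eq_zero.2 fun h => hv (hSV v h)
  have hfout : ∀ v ∉ V, f v = 0 := by
    intro v hv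
    rw [hf, hSc v hv, hSc (-v) (fun h => hv (by
      have := hneg _ h
      rwa [neg_neg] at this))]
    rfl
  have hsumS : S.sum = ∑ v ∈ V, S.count v • v :=
    Finset.sum_multiset_count_of_subset S V fun v hv => hSV v (Multiset.mem_toFinset.1 hv)
  have hsumN : ∑ v ∈ V, S.count (-v) • v = -S.sum := by
    rw [hsumS, ← Finset.sum_neg_distrib]
    refine Finset.sum_nbij' (fun v => -v) (fun v => -v) hneg hneg (fun v _ => neg_neg v)
      (fun v _ => neg_neg v) (fun v _ => ?_)
    rw [smul_neg, neg_neg]
  have hsumf : ∑ v ∈ V, f v • v = (2 : ℤ) • S.sum := by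
    have h1 : ∀ v ∈ V, f v • v = S.count v • v - S.count (-v) • v := by
      intro v _
      rw [hf, sub_smul, natCast_zsmul, natCast_zsmul]
    rw [Finset.sum_congr rfl h1, Finset.sum_sub_distrib, hsumN, ← hsumS, two_smul, sub_neg_eq_add]
  -- the action
  have hact : ∀ (g : G) (n : ℤ) (v : U), g • (n • v) = n • (g • v) := fun g n v =>
    map_zsmul (DistribSMul.toAddMonoidHom U g) n v
  have hactn : ∀ (g : G) (n : ℕ) (v : U), g • (n • v) = n • (g • v) := fun g n v =>
    map_nsmul (DistribSMul.toAddMonoidHom U g) n v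
  have hkey0 : ∀ (g : G) (s : ℤ), g • y = s • y → ∀ v, f (g⁻¹ • v) = s * f v := by
    intro g s hgs v
    have h1 : IsRel V (fun v => f (g⁻¹ • v) - s * f v) := by
      refine ⟨?_, ?_, ?_⟩
      · intro v
        show f (g⁻¹ • -v) - s * f (-v) = -(f (g⁻¹ • v) - s * f v)
        rw [smul_neg, hfodd, hfodd]; ring
      · intro v hv
        show f (g⁻¹ • v) - s * f v = 0
        rw [hfout v hv, hfout (g⁻¹ • v) (fun h => hv (by
          have := hV.stable g _ h
          rwa [smul_inv_smul] at this)), mul_zero, sub_zero]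
      · have h2 : ∑ v ∈ V, f (g⁻¹ • v) • v = g • ((2 : ℤ) • S.sum) := by
          rw [← hsumf, Finset.smul_sum]
          refine Finset.sum_nbij' (fun v => g⁻¹ • v) (fun v => g • v)
            (fun v hv => hV.stable _ _ hv) (fun v hv => hV.stable _ _ hv)
            (fun v _ => smul_inv_smul g v) (fun v _ => inv_smul_smul g v) (fun v _ => ?_)
          rw [hact, smul_inv_smul]
        have h3 : g • ((2 : ℤ) • S.sum) = s • ((2 : ℤ) • S.sum) := by
          have h5 : g • S.sum = s • S.sum := by
            rw [hS1, smul_neg, hactn, hgs, smul_comm k s, smul_neg]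
          rw [hact, h5, smul_comm]
        have h4 : ∀ v ∈ V, (f (g⁻¹ • v) - s * f v) • v = f (g⁻¹ • v) • v - s • (f v • v) := by
          intro v _
          rw [sub_smul, mul_smul]
        show ∑ v ∈ V, (f (g⁻¹ • v) - s * f v) • v = 0
        rw [Finset.sum_congr rfl h4, Finset.sum_sub_distrib, h2, h3, ← Finset.smul_sum, hsumf,
          sub_self]
    have h2 := congrFun (hrel _ h1) v
    have h3 : f (g⁻¹ • v) - s * f v = 0 := h2
    linarith
  have hplus : ∀ g : G, g • y = y → ∀ v, f (g • v) = f v := by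
    intro g hg v
    have h1 := hkey0 g 1 (by rw [one_smul]; exact hg) (g • v)
    rw [inv_smul_smul, one_mul] at h1
    exact h1.symm
  have hminus : ∀ g : G, g • y = -y → ∀ v, f (g • v) = -f v := by
    intro g hg v
    have h1 := hkey0 g (-1) (by rw [neg_smul, one_smul]; exact hg) (g • v)
    rw [inv_smul_smul] at h1
    linarith
  obtain ⟨v0, hv0⟩ := hV.ne
  obtain ⟨a, ha⟩ : ∃ a : ℕ, a = (f v0).natAbs := ⟨_, rfl⟩
  have habs : ∀ v ∈ V, (f v).natAbs = a := by
    intro v hv
    obtain ⟨g, rfl⟩ := hV.trans v0 hv0 v hv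
    rcases hy.2 g with h | h
    · rw [hplus g h, ha]
    · rw [hminus g h, Int.natAbs_neg, ha]
  have hcnt : ∀ v ∈ V, (S.count v = a ∧ S.count (-v) = 0) ∨ (S.count v = 0 ∧ S.count (-v) = a) := by
    intro v hv
    have h1 := habs v hv
    rw [hf] at h1
    have h2 : S.count v = 0 ∨ S.count (-v) = 0 := by
      by_contra hc
      rw [not_or, Multiset.count_eq_zero, Multiset.count_eq_zero, not_not, not_not] at hc
      have h3 : ({v, -v} : Multiset U) ≤ S := by
        rw [Multiset.le_iff_subset (by
          rw [Multiset.insert_eq_cons, Multiset.nodup_cons, Multiset.mem_singleton]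
          exact ⟨hnn v hv, Multiset.nodup_singleton _⟩)]
        intro x hx
        rw [Multiset.insert_eq_cons, Multiset.mem_cons, Multiset.mem_singleton] at hx
        rcases hx with rfl | rfl
        · exact hc.1
        · exact hc.2
      exact hNP v (-v) h3 (add_neg_cancel v)
    rcases h2 with h2 | h2
    · right; refine ⟨h2, ?_⟩; omega
    · left; refine ⟨?_, h2⟩; omega
  have ha0 : 0 < a := by
    rcases Nat.eq_zero_or_pos a with h | h
    · exfalso
      have h1 : S.sum = 0 := by
        rw [hsumS]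
        apply Finset.sum_eq_zero
        intro v hv
        rcases hcnt v hv with h2 | h2
        · rw [h2.1, h, zero_smul]
        · rw [h2.1, zero_smul]
      rw [h1, zero_add] at hsum
      exact hy.1 (htf y hsum)
    · exact h
  obtain ⟨J, hJ⟩ : ∃ J : Finset U, J = S.toFinset := ⟨_, rfl⟩
  have hJS : ∀ v, v ∈ J ↔ v ∈ S := fun v => by rw [hJ, Multiset.mem_toFinset]
  have hJV : J ⊆ V := fun v hv => hSV v ((hJS v).1 hv)
  have hJc : ∀ v ∈ J, S.count v = a := by
    intro v hv
    rcases hcnt v (hJV hv) with h | h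
    · exact h.1
    · exact absurd h.1 (Multiset.count_ne_zero.2 ((hJS v).1 hv))
  have hSJ : S = a • J.val := by
    apply Multiset.ext.2
    intro v
    rw [Multiset.count_nsmul]
    by_cases hv : v ∈ J
    · rw [hJc v hv, Multiset.count_eq_one_of_mem J.nodup hv, mul_one]
    · rw [Multiset.count_eq_zero.2 (fun h => hv ((hJS v).2 h)),
        Multiset.count_eq_zero.2 (fun h => hv h), mul_zero]
  have hJf : ∀ v, v ∈ J ↔ 0 < f v := by
    intro v
    constructor
    · intro hv
      rcases hcnt v (hJV hv) with h | h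
      · rw [hf, h.1, h.2]; push_cast; omega
      · exact absurd h.1 (Multiset.count_ne_zero.2 ((hJS v).1 hv))
    · intro h
      rw [hf] at h
      rw [hJS, ← Multiset.count_pos]
      omega
  -- the number of elements
  have hJ3 : J.card = 3 := by
    have h1 : V = J ∪ J.image (fun v => -v) := by
      ext v
      rw [Finset.mem_union, Finset.mem_image]
      constructor
      · intro hv
        rcases hcnt v hv with h | h
        · left; rw [hJS, ← Multiset.count_pos, h.1]; exact ha0
        · right
          refine ⟨-v, ?_, neg_neg v⟩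
          rw [hJS, ← Multiset.count_pos, h.2]; exact ha0
      · rintro (h | ⟨u, hu, rfl⟩)
        · exact hJV h
        · exact hneg _ (hJV hu)
    have h2 : Disjoint J (J.image (fun v => -v)) := by
      rw [Finset.disjoint_left]
      intro v hv hv'
      obtain ⟨u, hu, rfl⟩ := Finset.mem_image.1 hv'
      have e1 := (hJf _).1 hv
      have e2 := (hJf _).1 hu
      rw [hfodd] at e1
      omega
    have h3 : V.card = J.card + (J.image (fun v => -v)).card := by
      rw [← Finset.card_union_of_disjoint h2, ← h1]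
    rw [Finset.card_image_of_injective _ neg_injective, hV6] at h3
    omega
  obtain ⟨N, hN⟩ := OX6_half K hV J.card J rfl hJV (by
    intro d hd v hv
    rw [hJf, hplus d (hDy d hd) v]
    exact (hJf v).1 hv)
  have hle : ∀ v ∈ J, -1 ≤ K.w v ∧ K.w v ≤ 1 := fun v hv => abs_le.1 (hV.le_one v (hJV hv))
  have hsw : ∑ v ∈ J, K.w v = 2 * N - 3 := by
    rw [Finset.sum_add_distrib, Finset.sum_const, hJ3] at hN
    simp only [nsmul_eq_mul, mul_one] at hN
    push_cast at hN
    linarith
  have hN3 : N ≤ 3 := by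
    have h1 : ∑ v ∈ J, (K.w v + 1) ≤ ∑ _v ∈ J, (2 : ℝ) :=
      Finset.sum_le_sum fun v hv => by linarith [(hle v hv).2]
    rw [hN, Finset.sum_const, hJ3] at h1
    simp only [nsmul_eq_mul] at h1
    push_cast at h1
    have h2 : (N : ℝ) ≤ 3 := by linarith
    exact_mod_cast h2
  have hJsum : a • (J.sum id) + k • y = 0 := by
    have h1 : S.sum = a • (J.sum id) := by
      rw [hSJ, Multiset.sum_nsmul]
      congr 1
      rw [Finset.sum, Multiset.map_id]
    rw [← h1]
    exact hsum
  have hw : (a : ℝ) * ∑ v ∈ J, K.w v + k * K.w y = 0 := by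
    have h1 := congrArg K.w hJsum
    rw [map_add, map_nsmul, map_nsmul, map_sum, map_zero, nsmul_eq_mul, nsmul_eq_mul] at h1
    exact h1
  -- not all the weights are equal
  have hne : ∀ e : ℝ, ¬ ∀ v ∈ J, K.w v = e := by
    intro e he
    obtain ⟨v, hv, v', hv', hvv⟩ := Finset.one_lt_card.1 (by rw [hJ3]; norm_num : 1 < J.card)
    apply hvv
    have h1 : v - v' = 0 := by
      apply K.kron
      intro g
      rw [smul_sub, map_sub]
      rcases hy.2 g with h | h
      · rw [he (g • v) ((hJf _).2 (by rw [hplus g h]; exact (hJf _).1 hv)),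
          he (g • v') ((hJf _).2 (by rw [hplus g h]; exact (hJf _).1 hv')), sub_self]
      · have e1 := he (-(g • v)) ((hJf _).2 (by
          rw [hfodd, hminus g h, neg_neg]; exact (hJf _).1 hv))
        have e2 := he (-(g • v')) ((hJf _).2 (by
          rw [hfodd, hminus g h, neg_neg]; exact (hJf _).1 hv'))
        rw [map_neg] at e1 e2
        linarith
    exact sub_eq_zero.1 h1
  have hka : k = a := by
    have hkR : (0 : ℝ) < k := by exact_mod_cast hk
    have haR : (0 : ℝ) < a := by exact_mod_cast ha0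
    rw [hsw] at hw
    interval_cases N
    · exfalso
      apply hne (-1)
      have h1 : ∑ v ∈ J, (K.w v + 1) = 0 := by rw [hN]; norm_num
      intro v hv
      have h2 := (Finset.sum_eq_zero_iff_of_nonneg (fun v hv => by
        linarith [(hle v hv).1])).1 h1 v hv
      linarith
    · rcases hwy with h | h
      · rw [h] at hw
        have h1 : (k : ℝ) = a := by push_cast at hw; linarith
        exact_mod_cast h1
      · rw [h] at hw
        push_cast at hw
        linarith
    · rcases hwy with h | h
      · rw [h] at hw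
        push_cast at hw
        linarith
      · rw [h] at hw
        have h1 : (k : ℝ) = a := by push_cast at hw; linarith
        exact_mod_cast h1
    · exfalso
      apply hne 1
      have h1 : ∑ v ∈ J, (1 - K.w v) = 0 := by
        rw [Finset.sum_sub_distrib, hsw, Finset.sum_const, hJ3]
        norm_num
      intro v hv
      have h2 := (Finset.sum_eq_zero_iff_of_nonneg (fun v hv => by
        linarith [(hle v hv).2])).1 h1 v hv
      linarith
  refine ⟨J, by rw [hka]; exact hSJ, hJ3, hJV, ?_, ?_⟩
  · intro u v huv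
    apply hNP u v
    refine huv.trans ?_
    rw [Multiset.le_iff_subset J.nodup]
    intro x hx
    exact (hJS x).1 hx
  · apply htf
    rw [smul_add]
    rw [← hka] at hJsum
    exact hJsum

end Pool.T4
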