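import Pool.Agent.Work.MP_223b32_t4.Interface

/-! # Block PHI: a CM type with given local counts -/

namespace Pool.T4

theorem PHI_self {G X : Type} [Group G] [MulAction G X] (D : Subgroup G) (x : X) :
    x ∈ orb D x := ⟨1, D.one_mem, (one_smul G x).symm⟩

theorem PHI_eq {G X : Type} [Group G] [MulAction G X] (D : Subgroup G) {x y : X}
    (h : y ∈ orb D x) : orb D y = orb D x := by
  obtain ⟨d, hd, rfl⟩ := h
  ext z
  constructor
  · rintro ⟨e, he, rfl⟩
    exact ⟨e * d, D.mul_mem he hd, by rw [mul_smul]⟩
  · rintro ⟨e, he, rfl⟩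
    exact ⟨e * d⁻¹, D.mul_mem he (D.inv_mem hd), by rw [mul_smul, inv_smul_smul]⟩

theorem p_PHI : Stmt_PHI := by
  intro G X _ _ _ D c n hcc hne hcd hnd hsum
  classical
  -- injection into the natural numbers
  obtain ⟨e, he⟩ : ∃ e : X → ℕ, Function.Injective e :=
    ⟨fun x => (Fintype.equivFin X x : ℕ), fun a b h =>
      (Fintype.equivFin X).injective (Fin.val_injective h)⟩
  -- representative of an orbit
  have hf : ∀ S : Set X, ∃ m : ℕ, S.Nonempty → ∃ y ∈ S, m = e y := by
    intro S
    by_cases hS : S.Nonempty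
    · obtain ⟨y, hy⟩ := hS
      exact ⟨e y, fun _ => ⟨y, hy, rfl⟩⟩
    · exact ⟨0, fun h => absurd h hS⟩
  choose f hf using hf
  -- subsets of given cardinality
  have hT : ∀ (S : Set X) (m : ℕ), ∃ T : Set X, m ≤ S.ncard → T ⊆ S ∧ T.ncard = m := by
    intro S m
    by_cases h : m ≤ S.ncard
    · obtain ⟨T, h1, h2⟩ := Set.exists_subset_card_eq h
      exact ⟨T, fun _ => ⟨h1, h2⟩⟩
    · exact ⟨∅, fun h' => absurd h' h⟩
  choose T hT using hT
  set k : X → ℕ := fun x => f (orb D x) with hk
  have hkeq : ∀ x y, k x = k y → y ∈ orb D x := by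
    intro x y h
    obtain ⟨a, ha, ea⟩ := hf (orb D x) ⟨x, PHI_self D x⟩
    obtain ⟨b, hb, eb⟩ := hf (orb D y) ⟨y, PHI_self D y⟩
    have hab : a = b := he (by rw [← ea, ← eb]; exact h)
    subst hab
    have h1 : orb D x = orb D y := (PHI_eq D ha).symm.trans (PHI_eq D hb)
    rw [h1]
    exact PHI_self D y
  have hcorb : ∀ x y, y ∈ orb D x → c y ∈ orb D (c x) := by
    rintro x y ⟨d, hd, rfl⟩
    exact ⟨d, hd, hcd d hd x⟩
  have hnorb : ∀ x y, y ∈ orb D x → n y = n x := by
    rintro x y ⟨d, hd, rfl⟩
    exact hnd d hd x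
  have hinj : Function.Injective c := fun a b h => by rw [← hcc a, ← hcc b, h]
  set Phi : Set X := {x | (c x ∈ orb D x ∧ e x < e (c x)) ∨
    (c x ∉ orb D x ∧ k x < k (c x) ∧ x ∈ T (orb D x) (n x)) ∨
    (c x ∉ orb D x ∧ k (c x) < k x ∧ c x ∉ T (orb D (c x)) (n (c x)))} with hPhi
  have hmem : ∀ x, x ∈ Phi ↔ ((c x ∈ orb D x ∧ e x < e (c x)) ∨
    (c x ∉ orb D x ∧ k x < k (c x) ∧ x ∈ T (orb D x) (n x)) ∨
    (c x ∉ orb D x ∧ k (c x) < k x ∧ c x ∉ T (orb D (c x)) (n (c x)))) := fun x => Iff.rfl
  have hsym : ∀ x, c x ∈ orb D x → x ∈ orb D (c x) := by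
    intro x hx
    rw [PHI_eq D hx]
    exact PHI_self D x
  have hsym' : ∀ x, c x ∉ orb D x → x ∉ orb D (c x) := by
    intro x hx h
    apply hx
    rw [PHI_eq D h]
    exact PHI_self D (c x)
  refine ⟨Phi, ?_, ?_⟩
  · intro x
    rw [hmem, hmem, hcc]
    by_cases h1 : c x ∈ orb D x
    · have h2 := hsym x h1
      have h3 : e x ≠ e (c x) := fun h => hne x (he h).symm
      constructor
      · rintro (⟨-, h⟩ | ⟨h, -⟩ | ⟨h, -⟩)
        · rintro (⟨-, h'⟩ | ⟨h', -⟩ | ⟨h', -⟩)
          · omega
          · exact h' h2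
          · exact h' h2
        · exact absurd h1 h
        · exact absurd h1 h
      · intro h
        left
        refine ⟨h1, ?_⟩
        by_contra h4
        exact h (Or.inl ⟨h2, by omega⟩)
    · have h2 := hsym' x h1
      have h3 : k x ≠ k (c x) := fun h => h1 (hkeq x (c x) h)
      rcases lt_or_gt_of_ne h3 with h4 | h4
      · constructor
        · rintro (⟨h, -⟩ | ⟨-, -, h⟩ | ⟨-, h, -⟩)
          · exact absurd h h1
          · rintro (⟨h', -⟩ | ⟨-, h', -⟩ | ⟨-, -, h'⟩)
            · exact h2 h'
            · omega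
            · exact h' h
          · omega
        · intro h
          right; left
          refine ⟨h1, h4, ?_⟩
          by_contra h5
          exact h (Or.inr (Or.inr ⟨h2, h4, h5⟩))
      · constructor
        · rintro (⟨h, -⟩ | ⟨-, h, -⟩ | ⟨-, -, h⟩)
          · exact absurd h h1
          · omega
          · rintro (⟨h', -⟩ | ⟨-, -, h'⟩ | ⟨-, h', -⟩)
            · exact h2 h'
            · exact h h'
            · omega
        · intro h
          right; right
          refine ⟨h1, h4, ?_⟩
          intro h5
          exact h (Or.inr (Or.inl ⟨h2, h4, h5⟩))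
  · intro x
    have hfin : (orb D x).Finite := Set.toFinite _
    by_cases h1 : c x ∈ orb D x
    · have hc1 : ∀ y ∈ orb D x, c y ∈ orb D x := by
        intro y hy
        have := hcorb x y hy
        rwa [PHI_eq D h1] at this
      have hA : Phi ∩ orb D x = {y | y ∈ orb D x ∧ e y < e (c y)} := by
        ext y
        constructor
        · rintro ⟨h, hy⟩
          have hy' : c y ∈ orb D y := by rw [PHI_eq D hy]; exact hc1 y hy
          rcases (hmem y).1 h with h | h | h
          · exact ⟨hy, h.2⟩
          · exact absurd hy' h.1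
          · exact absurd hy' h.1
        · rintro ⟨hy, h⟩
          have hy' : c y ∈ orb D y := by rw [PHI_eq D hy]; exact hc1 y hy
          exact ⟨Or.inl ⟨hy', h⟩, hy⟩
      rw [hA]
      have hB : c '' {y | y ∈ orb D x ∧ e y < e (c y)} = {y | y ∈ orb D x ∧ e (c y) < e y} := by
        ext z
        constructor
        · rintro ⟨y, ⟨hy, h⟩, rfl⟩
          exact ⟨hc1 y hy, by rw [hcc]; exact h⟩
        · rintro ⟨hz, h⟩
          exact ⟨c z, ⟨hc1 z hz, by rw [hcc]; exact h⟩, hcc z⟩
      have hBn : ({y | y ∈ orb D x ∧ e (c y) < e y} : Set X).ncard =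
          ({y | y ∈ orb D x ∧ e y < e (c y)} : Set X).ncard := by
        rw [← hB, Set.ncard_image_of_injective _ hinj]
      have hU : ({y | y ∈ orb D x ∧ e y < e (c y)} : Set X) ∪
          {y | y ∈ orb D x ∧ e (c y) < e y} = orb D x := by
        ext y
        constructor
        · rintro (⟨h, -⟩ | ⟨h, -⟩) <;> exact h
        · intro hy
          have h3 : e y ≠ e (c y) := fun h => hne y (he h).symm
          rcases lt_or_gt_of_ne h3 with h4 | h4
          · exact Or.inl ⟨hy, h4⟩
          · exact Or.inr ⟨hy, h4⟩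
      have hdis : Disjoint ({y | y ∈ orb D x ∧ e y < e (c y)} : Set X)
          {y | y ∈ orb D x ∧ e (c y) < e y} := by
        rw [Set.disjoint_left]
        rintro y ⟨-, h⟩ ⟨-, h'⟩
        omega
      have hcard := Set.ncard_union_eq hdis (Set.toFinite _) (Set.toFinite _)
      rw [hU, hBn] at hcard
      have h5 := hsum x
      have h6 : n (c x) = n x := hnorb x (c x) h1
      omega
    · have hc1 : ∀ y ∈ orb D x, c y ∉ orb D y := by
        intro y hy h
        apply h1
        have h7 := hcorb x y hy
        rw [PHI_eq D hy] at h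
        have h8 : orb D (c y) = orb D x := PHI_eq D h
        rw [PHI_eq D h7] at h8
        rw [← h8]
        exact PHI_self D (c x)
      have hky : ∀ y ∈ orb D x, k y = k x := fun y hy => by
        show f (orb D y) = f (orb D x)
        rw [PHI_eq D hy]
      have hkcy : ∀ y ∈ orb D x, k (c y) = k (c x) := fun y hy => by
        show f (orb D (c y)) = f (orb D (c x))
        rw [PHI_eq D (hcorb x y hy)]
      have h3 : k x ≠ k (c x) := fun h => h1 (hkeq x (c x) h)
      have hs := hsum x
      rcases lt_or_gt_of_ne h3 with h4 | h4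
      · obtain ⟨hT1, hT2⟩ := hT (orb D x) (n x) (by omega)
        have hA : Phi ∩ orb D x = T (orb D x) (n x) := by
          ext y
          constructor
          · rintro ⟨h, hy⟩
            rcases (hmem y).1 h with h | h | h
            · exact absurd h.1 (hc1 y hy)
            · have h9 := h.2.2
              rwa [PHI_eq D hy, hnorb x y hy] at h9
            · have h9 := h.2.1
              rw [hky y hy, hkcy y hy] at h9
              omega
          · intro h
            have hy := hT1 h
            refine ⟨Or.inr (Or.inl ⟨hc1 y hy, ?_, ?_⟩), hy⟩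
            · rw [hky y hy, hkcy y hy]; exact h4
            · rw [PHI_eq D hy, hnorb x y hy]; exact h
        rw [hA, hT2]
      · have hs' := hsum (c x)
        rw [hcc] at hs'
        obtain ⟨hT1, hT2⟩ := hT (orb D (c x)) (n (c x)) (by omega)
        have hsub : c '' T (orb D (c x)) (n (c x)) ⊆ orb D x := by
          rintro z ⟨y, hy, rfl⟩
          have := hcorb (c x) y (hT1 hy)
          rwa [hcc] at this
        have hA : Phi ∩ orb D x = orb D x \ c '' T (orb D (c x)) (n (c x)) := by
          ext y
          constructor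
          · rintro ⟨h, hy⟩
            refine ⟨hy, ?_⟩
            rcases (hmem y).1 h with h | h | h
            · exact absurd h.1 (hc1 y hy)
            · have h9 := h.2.1
              rw [hky y hy, hkcy y hy] at h9
              omega
            · rintro ⟨z, hz, rfl⟩
              apply h.2.2
              rw [hcc]
              have h10 : z ∈ orb D (c x) := hT1 hz
              rw [PHI_eq D h10, hnorb (c x) z h10]
              exact hz
          · rintro ⟨hy, h⟩
            refine ⟨Or.inr (Or.inr ⟨hc1 y hy, ?_, ?_⟩), hy⟩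
            · rw [hky y hy, hkcy y hy]; exact h4
            · intro h11
              apply h
              have h12 : c y ∈ orb D (c x) := hcorb x y hy
              rw [PHI_eq D h12, hnorb (c x) (c y) h12] at h11
              exact ⟨c y, h11, hcc y⟩
        rw [hA]
        have h13 := Set.ncard_sdiff_add_ncard_of_subset hsub (Set.toFinite _)
        rw [Set.ncard_image_of_injective _ hinj, hT2] at h13
        omega

end Pool.T4
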