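import Pool.Agent.Work.MP_223b32_t4.Interface

/-! # (PLA) two independent relations between eight vectors put them in a plane -/

namespace Pool.T4

open Pool.Agent.Work.MP_223b32_ag

/-- Removing a pair of opposite vectors. -/
theorem PLA_pair {U : Type} [AddCommGroup U] [Module ℚ U] (V : Finset U)
    (hneg : ∀ v ∈ V, -v ∈ V) (h0 : ∀ v ∈ V, v ≠ 0) (x : U) (hx : x ∈ V) :
    ∃ V' : Finset U, (∀ v ∈ V', -v ∈ V') ∧ (∀ v ∈ V', v ≠ 0) ∧ V'.card + 2 = V.card ∧
      (∀ v ∈ V, v = x ∨ v = -x ∨ v ∈ V') ∧ (∀ v ∈ V', v ≠ x ∧ v ≠ -x) ∧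
      ∀ f : U → ℤ, (∀ v, f (-v) = -f v) →
        ∑ w ∈ V, f w • w = (2 * f x) • x + ∑ w ∈ V', f w • w := by
  classical
  have hxne : -x ≠ x := by
    intro h
    have h2 : (2 : ℚ) • x = 0 := by
      rw [two_smul]
      nth_rewrite 1 [← h]
      exact neg_add_cancel x
    exact h0 x hx ((smul_eq_zero.mp h2).resolve_left (by norm_num))
  have hnx : -x ∈ V.erase x := Finset.mem_erase.mpr ⟨hxne, hneg x hx⟩
  refine ⟨(V.erase x).erase (-x), ?_, ?_, ?_, ?_, ?_, ?_⟩
  · intro v hv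
    rw [Finset.mem_erase, Finset.mem_erase] at hv ⊢
    refine ⟨?_, ?_, hneg v hv.2.2⟩
    · intro h
      exact hv.2.1 (neg_injective h)
    · intro h
      exact hv.1 (by rw [← h, neg_neg])
  · intro v hv
    rw [Finset.mem_erase, Finset.mem_erase] at hv
    exact h0 v hv.2.2
  · have h1 := Finset.card_erase_add_one hnx
    have h2 := Finset.card_erase_add_one hx
    omega
  · intro v hv
    by_cases h1 : v = x
    · exact Or.inl h1
    · by_cases h2 : v = -x
      · exact Or.inr (Or.inl h2)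
      · exact Or.inr (Or.inr (Finset.mem_erase.mpr ⟨h2, Finset.mem_erase.mpr ⟨h1, hv⟩⟩))
  · intro v hv
    rw [Finset.mem_erase, Finset.mem_erase] at hv
    exact ⟨hv.2.1, hv.1⟩
  · intro f hf
    rw [← Finset.add_sum_erase V (fun w => f w • w) hx,
      ← Finset.add_sum_erase (V.erase x) (fun w => f w • w) hnx]
    simp only [hf x]
    module

/-- (PLA) -/
theorem p_PLA : Stmt_PLA := by
  intro G U _ _ _ _ K V m hV hcard f h hf hh huv
  classical
  obtain ⟨u, v, huv⟩ := huv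
  have hneg : ∀ v ∈ V, -v ∈ V := by
    intro v hv
    rw [← K.cc v]
    exact hV.stable _ _ hv
  have hu : u ∈ V := by
    by_contra hu
    exact huv (by rw [hf.2.1 u hu, hh.2.1 u hu]; ring)
  have hv : v ∈ V := by
    by_contra hv
    exact huv (by rw [hf.2.1 v hv, hh.2.1 v hv]; ring)
  obtain ⟨V1, hneg1, hz1, hc1, hm1, hn1, hs1⟩ := PLA_pair V hneg hV.nz u hu
  have hv1 : v ∈ V1 := by
    rcases hm1 v hv with h1 | h1 | h1
    · exact absurd (by rw [h1]) huv
    · exact absurd (by rw [h1, hf.1, hh.1]; ring) huv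
    · exact h1
  obtain ⟨V2, hneg2, hz2, hc2, hm2, hn2, hs2⟩ := PLA_pair V1 hneg1 hz1 v hv1
  have hne2 : V2.Nonempty := by
    rw [← Finset.card_pos]
    omega
  obtain ⟨a, ha⟩ := hne2
  obtain ⟨V3, hneg3, hz3, hc3, hm3, hn3, hs3⟩ := PLA_pair V2 hneg2 hz2 a ha
  have hne3 : V3.Nonempty := by
    rw [← Finset.card_pos]
    omega
  obtain ⟨b, hb⟩ := hne3
  obtain ⟨V4, hneg4, hz4, hc4, hm4, hn4, hs4⟩ := PLA_pair V3 hneg3 hz3 b hb
  have h4 : V4 = ∅ := by
    rw [← Finset.card_eq_zero]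
    omega
  have key : ∀ g : U → ℤ, IsRel V g →
      (g u : ℚ) • u + (g v : ℚ) • v + (g a : ℚ) • a + (g b : ℚ) • b = 0 := by
    intro g hg
    have e := hg.2.2
    rw [hs1 g hg.1, hs2 g hg.1, hs3 g hg.1, hs4 g hg.1, h4, Finset.sum_empty] at e
    have e2 : (2 : ℚ) • ((g u : ℚ) • u + (g v : ℚ) • v + (g a : ℚ) • a + (g b : ℚ) • b) = 0 := by
      rw [← e]
      simp only [← Int.cast_smul_eq_zsmul ℚ]
      push_cast
      module
    exact (smul_eq_zero.mp e2).resolve_left (by norm_num)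
  have ef := key f hf
  have eh := key h hh
  have hd : ((f u : ℚ) * h v - f v * h u) ≠ 0 := by
    intro h0
    apply huv
    have h1 : (f u : ℚ) * h v = f v * h u := by linarith
    exact_mod_cast h1
  have eu : ∃ s t : ℚ, u = s • a + t • b := by
    refine ⟨((f u : ℚ) * h v - f v * h u)⁻¹ * (f v * h a - h v * f a),
      ((f u : ℚ) * h v - f v * h u)⁻¹ * (f v * h b - h v * f b), ?_⟩
    have e1 : ((f u : ℚ) * h v - f v * h u) • u =
        ((f v : ℚ) * h a - h v * f a) • a + ((f v : ℚ) * h b - h v * f b) • b := by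
      have e2 : (h v : ℚ) • ((f u : ℚ) • u + (f v : ℚ) • v + (f a : ℚ) • a + (f b : ℚ) • b) -
        (f v : ℚ) • ((h u : ℚ) • u + (h v : ℚ) • v + (h a : ℚ) • a + (h b : ℚ) • b) = 0 := by
        rw [ef, eh, smul_zero, smul_zero, sub_zero]
      rw [← sub_eq_zero, ← e2]
      module
    rw [mul_smul, mul_smul, ← smul_add, ← e1, smul_smul, inv_mul_cancel₀ hd, one_smul]
  have ev : ∃ s t : ℚ, v = s • a + t • b := by
    refine ⟨((f u : ℚ) * h v - f v * h u)⁻¹ * (h u * f a - f u * h a),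
      ((f u : ℚ) * h v - f v * h u)⁻¹ * (h u * f b - f u * h b), ?_⟩
    have e1 : ((f u : ℚ) * h v - f v * h u) • v =
        ((h u : ℚ) * f a - f u * h a) • a + ((h u : ℚ) * f b - f u * h b) • b := by
      have e2 : (f u : ℚ) • ((h u : ℚ) • u + (h v : ℚ) • v + (h a : ℚ) • a + (h b : ℚ) • b) -
        (h u : ℚ) • ((f u : ℚ) • u + (f v : ℚ) • v + (f a : ℚ) • a + (f b : ℚ) • b) = 0 := by
        rw [ef, eh, smul_zero, smul_zero, sub_zero]
      rw [← sub_eq_zero, ← e2]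
      module
    rw [mul_smul, mul_smul, ← smul_add, ← e1, smul_smul, inv_mul_cancel₀ hd, one_smul]
  have hngo : ∀ x : U, (∃ s t : ℚ, x = s • a + t • b) → ∃ s t : ℚ, -x = s • a + t • b := by
    rintro x ⟨s, t, hx⟩
    exact ⟨-s, -t, by rw [hx]; module⟩
  refine ⟨a, b, fun w hw => ?_⟩
  rcases hm1 w hw with h1 | h1 | h1
  · rw [h1]; exact eu
  · rw [h1]; exact hngo u eu
  rcases hm2 w h1 with h2 | h2 | h2
  · rw [h2]; exact ev
  · rw [h2]; exact hngo v ev
  rcases hm3 w h2 with h3 | h3 | h3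
  · rw [h3]; exact ⟨1, 0, by module⟩
  · rw [h3]; exact ⟨-1, 0, by module⟩
  rcases hm4 w h3 with h4' | h4' | h4'
  · rw [h4']; exact ⟨0, 1, by module⟩
  · rw [h4']; exact ⟨0, -1, by module⟩
  · rw [h4] at h4'
    exact absurd h4' (Finset.notMem_empty w)

end Pool.T4
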