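import Pool.Agent.Work.MP_223b32_t4.DefsInd
import Pool.Agent.Work.MP_223b32_t4.PRD

/-! # Block PRI: products of powers of independent abelian varieties -/

set_option autoImplicit false

namespace Pool.T4

/-- (PRI) products of powers of independent abelian varieties -/
def Stmt_PRI : Prop :=
  ∀ (p : ℕ) [Fact p.Prime] (a : ℕ) (ι : Qb →+* PadicAlgCl p), 0 < a →
    ∀ (n : ℕ) (R : Fin n → Multiset Qb), (∀ i, IsAV (p ^ a) ι (R i)) →
      (∀ i, ∀ T, PowOf (p ^ a) (R i) T → TateProp (p ^ a) ι T) → Indep (p ^ a) R →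
      ∀ T, PowOf (p ^ a) (∑ i, R i) T → TateProp (p ^ a) ι T

theorem p_PRI (hDIC : Stmt_DIC) : Stmt_PRI := by
  intro p _ a ι ha n R hR hT hI
  have hq : 0 < p ^ a := pow_pos (Fact.out (p := p.Prime)).pos a
  obtain ⟨g, hg1, hg2⟩ := hI
  exact PRD_family hq (hDIC p a ι ha) R (fun i => (hR i).weil)
    (fun i => ⟨g i, hg1 i, fun j hj => hg2 i j hj.symm⟩) hT Finset.univ

end Pool.T4
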