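import Pool.Agent.Work.MP_223b32_t4.Interface

/-! # Block RHO: the algebraic closure of `ℚ` embeds in `ℂ` -/

namespace Pool.T4

open Pool.Agent.Work.MP_223b32_ag

theorem p_RHO : Stmt_RHO := by
  have hA : Algebra.IsAlgebraic ℚ Qb := by
    have h := AlgebraicClosure.isAlgebraic ℚ
    convert h
    · rfl
    · exact Subsingleton.elim (α := Algebra ℚ (AlgebraicClosure ℚ)) _ _
  exact ⟨(IsAlgClosed.lift : Qb →ₐ[ℚ] ℂ).toRingHom⟩

end Pool.T4
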