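import Pool.Agent.Work.MP_223b32_t4.Interface

/-! # Block RK1: all relations are proportional -/

namespace Pool.T4

theorem RK1_even {G U : Type} [Group G] [AddCommGroup U] [Module ℚ U] [DistribMulAction G U]
    (K : Core G U) (V : Finset U) (m : ℕ) (hV : IsOrb K V m) : Even V.card := by
  have h : ∑ _v ∈ V, (1 : ZMod 2) = 0 := by
    refine Finset.sum_involution (fun v _ => -v) (fun _ _ => by decide) ?_ ?_ ?_
    · intro v hv _ h
      apply hV.nz v hv
      have h2 : (2 : ℚ) • v = 0 := by
        rw [two_smul]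
        have h3 : v + v = -v + v := by rw [h]
        rw [h3, neg_add_cancel]
      exact (smul_eq_zero.1 h2).resolve_left (by norm_num)
    · intro v hv
      have := hV.stable K.c0 v hv
      rwa [K.cc v] at this
    · intro v hv
      exact neg_neg v
  rw [Finset.sum_const, nsmul_eq_mul, mul_one] at h
  exact (ZMod.natCast_eq_zero_iff_even).1 h

theorem p_RK1 (h1 : Stmt_FR3) (h2 : Stmt_PLA) (h3 : Stmt_ORB) (h4 : Stmt_SQU) : Stmt_RK1 := by
  intro G U _ _ _ _ K V m hV f h hf hh u v
  have hc : V.card ≤ 8 := by
    have a := hV.card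
    have b := hV.m_pos
    nlinarith
  have he := RK1_even K V m hV
  rcases Nat.lt_or_ge V.card 7 with h7 | h7
  · exact h1 G U K V m hV (by omega) f h hf hh u v
  · have h8 : V.card = 8 := by
      obtain ⟨k, hk⟩ := he
      omega
    by_contra hne
    have hp := h2 G U K V m hV h8 f h hf hh ⟨u, v, hne⟩
    exact h4 G U K V m hV h8 hp (h3 G U K V m hV h8 hp)

end Pool.T4
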