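import Pool.Agent.Work.MP_223b32_t4.Interface

/-! # Block RST: restriction to the decomposition group -/

namespace Pool.T4

theorem p_RST : Stmt_RST := by
  intro p _ ι σ
  have hAlg : Algebra.IsAlgebraic ℚ Qb := AlgebraicClosure.isAlgebraic ℚ
  obtain ⟨iA, hiA⟩ : ∃ f : Qb →ₐ[ℚ] PadicAlgCl p, ∀ x, f x = ι x :=
    ⟨RingHom.toRatAlgHom ι, fun _ => rfl⟩
  obtain ⟨tA, htA⟩ : ∃ f : Qb →ₐ[ℚ] PadicAlgCl p, ∀ x, f x = σ (ι x) :=
    ⟨RingHom.toRatAlgHom ((σ : PadicAlgCl p →+* PadicAlgCl p).comp ι), fun _ => rfl⟩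
  have hr : ∀ x, tA x ∈ iA.range := by
    intro x
    have hint : IsIntegral ℚ x := Algebra.IsIntegral.isIntegral x
    have h1 : tA x ∈ (minpoly ℚ x).rootSet (PadicAlgCl p) := by
      rw [Polynomial.mem_rootSet]
      refine ⟨minpoly.ne_zero hint, ?_⟩
      rw [Polynomial.aeval_algHom_apply, minpoly.aeval, map_zero]
    have h2 := Polynomial.Splits.image_rootSet
      (IsAlgClosed.splits ((minpoly ℚ x).map (algebraMap ℚ Qb))) iA
    rw [← h2] at h1
    obtain ⟨y, -, hy⟩ := h1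
    exact ⟨y, hy⟩
  have hinj : Function.Injective iA := iA.toRingHom.injective
  let e := AlgEquiv.ofInjective iA hinj
  let g0 : Qb →ₐ[ℚ] Qb := e.symm.toAlgHom.comp (tA.codRestrict iA.range hr)
  have hg0 : ∀ x, iA (g0 x) = tA x := by
    intro x
    have h1 : e (g0 x) = tA.codRestrict iA.range hr x := e.apply_symm_apply _
    have h2 := congrArg Subtype.val h1
    exact h2
  let g : GQ := AlgEquiv.ofBijective g0 (Algebra.IsAlgebraic.algHom_bijective g0)
  have hg : ∀ x, ι (g x) = σ (ι x) := by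
    intro x
    rw [← hiA, ← htA]
    exact hg0 x
  refine ⟨g, ?_, hg⟩
  intro x
  rw [hg]
  exact (spectralNorm_eq_of_equiv σ (ι x)).symm

end Pool.T4
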