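import Pool.Agent.Work.MP_223b32_t4.Interface

/-! # Block RTX: the CM algebra `F(r)`, `F` totally real with one place over `p` -/

namespace Pool.T4

theorem RTX_norm_p {p : ℕ} [Fact p.Prime] : ‖((p : ℕ) : PadicAlgCl p)‖ = (p : ℝ)⁻¹ := by
  have h1 := PadicAlgCl.norm_extends p ((p : ℕ) : ℚ_[p])
  rw [Padic.norm_p] at h1
  rw [← h1]
  congr 1

theorem RTX_norm_q {p : ℕ} [Fact p.Prime] (a : ℕ) (ι : Qb →+* PadicAlgCl p) :
    ‖ι (((p ^ a : ℕ) : Qb))‖ = ((p ^ a : ℕ) : ℝ)⁻¹ := by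
  rw [map_natCast, Nat.cast_pow, norm_pow, RTX_norm_p, Nat.cast_pow, inv_pow]

theorem RTX_sq {r : Qb} {m : ℚ} (hr : r ^ 2 = -(m : Qb)) (g : GQ) : g r = r ∨ g r = -r := by
  have h : (g r) ^ 2 = r ^ 2 := by rw [← map_pow, hr, map_neg, map_ratCast]
  exact sq_eq_sq_iff_eq_or_eq_neg.1 h

theorem RTX_conj {r : Qb} {m : ℚ} (hm : 0 < m) (hr : r ^ 2 = -(m : Qb)) {ρ : Qb →+* ℂ} {g : GQ}
    (hg : IsConj g ρ) : g r = -r := by
  rcases RTX_sq hr g with h | h
  · exfalso
    have h1 := hg r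
    rw [h] at h1
    have h2 : (ρ r).im = 0 := Complex.conj_eq_iff_im.1 h1.symm
    have h3 : (ρ r) ^ 2 = -(m : ℂ) := by rw [← map_pow, hr, map_neg, map_ratCast]
    have h4 := congrArg Complex.re h3
    rw [sq, Complex.mul_re, h2, Complex.neg_re, Complex.ratCast_re] at h4
    have h5 : (0 : ℝ) < m := by exact_mod_cast hm
    nlinarith [mul_self_nonneg (ρ r).re]
  · exact h

/-- the action on the product of two stable finite sets -/
@[reducible] noncomputable def RTX_act (T E : Finset Qb) (hT : ∀ g : GQ, ∀ t ∈ T, g t ∈ T)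
    (hE : ∀ g : GQ, ∀ t ∈ E, g t ∈ E) : MulAction GQ (T × E) where
  smul g z := (⟨g z.1.1, hT g _ z.1.2⟩, ⟨g z.2.1, hE g _ z.2.2⟩)
  one_smul _ := rfl
  mul_smul _ _ _ := rfl

theorem RTX_open (T E : Finset Qb) (hT : ∀ g : GQ, ∀ t ∈ T, g t ∈ T)
    (hE : ∀ g : GQ, ∀ t ∈ E, g t ∈ E) :
    ∃ L : IntermediateField ℚ Qb, FiniteDimensional ℚ L ∧
      ∀ g : GQ, (∀ y ∈ L, g y = y) → ∀ z : T × E, (RTX_act T E hT hE).toSMul.smul g z = z := by
  classical
  have hAlg : Algebra.IsAlgebraic ℚ Qb := AlgebraicClosure.isAlgebraic ℚ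
  refine ⟨IntermediateField.adjoin ℚ ((T ∪ E : Finset Qb) : Set Qb), ?_, ?_⟩
  · exact IntermediateField.finiteDimensional_adjoin fun y _ => Algebra.IsIntegral.isIntegral y
  · intro g hg z
    have h1 : g z.1.1 = z.1.1 :=
      hg _ (IntermediateField.subset_adjoin _ _ (by
        rw [Finset.mem_coe, Finset.mem_union]; exact Or.inl z.1.2))
    have h2 : g z.2.1 = z.2.1 :=
      hg _ (IntermediateField.subset_adjoin _ _ (by
        rw [Finset.mem_coe, Finset.mem_union]; exact Or.inr z.2.2))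
    exact Prod.ext (Subtype.ext h1) (Subtype.ext h2)

theorem p_RTX (hCCJ : Stmt_CCJ) (hRHO : Stmt_RHO) : Stmt_RTX := by
  classical
  intro p _ a ι ha hD r m hm hr hdr T hTne hT hTt hTc x n hx hxs hxn
  have hp1 : (1 : ℝ) < p := by exact_mod_cast (Fact.out : p.Prime).one_lt
  have hQ1 : (1 : ℝ) < ((p ^ a : ℕ) : ℝ) := by
    rw [Nat.cast_pow]; exact one_lt_pow₀ hp1 ha.ne'
  have hQ0 : (0 : ℝ) < ((p ^ a : ℕ) : ℝ) := lt_trans one_pos hQ1
  obtain ⟨ρ⟩ := hRHO
  obtain ⟨c0, hc0⟩ := hCCJ ρ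
  have hc0r : c0 r = -r := RTX_conj hm hr hc0
  have hr0 : r ≠ 0 := by
    rintro rfl
    have h1 : (m : Qb) = 0 := by
      have h2 : (0 : Qb) ^ 2 = 0 := by norm_num
      rw [h2] at hr
      exact neg_eq_zero.1 hr.symm
    exact hm.ne' (by exact_mod_cast h1)
  have hrr : -r ≠ r := fun h => hr0 (neg_eq_self.1 h)
  -- `n ≤ T.card`
  have hnT : n ≤ T.card := by
    have h1 := (hD.nrm x hx 1 T.card n).1 hxn
    have h2 := (abs_le.1 (hD.le_one x hx 1)).2
    have h3 : (0 : ℝ) ≤ T.card := Nat.cast_nonneg _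
    have h4 : (2 : ℝ) * n ≤ 2 * T.card := by nlinarith
    have h5 : (n : ℝ) ≤ T.card := by linarith
    exact_mod_cast h5
  obtain ⟨A, hAT, hAn⟩ := Finset.exists_subset_card_eq hnT
  -- the two elements
  obtain ⟨E, hE⟩ : ∃ E : Finset Qb, ∀ e, e ∈ E ↔ e = r ∨ e = -r :=
    ⟨{r, -r}, fun e => by rw [Finset.mem_insert, Finset.mem_singleton]⟩
  have hEs : ∀ g : GQ, ∀ e ∈ E, g e ∈ E := by
    intro g e he
    rw [hE] at he ⊢
    rcases he with rfl | rfl
    · exact RTX_sq hr g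
    · rcases RTX_sq hr g with h | h
      · right; rw [map_neg, h]
      · left; rw [map_neg, h, neg_neg]
  have hEn : ∀ e ∈ E, -e ∈ E := by
    intro e he
    rw [hE] at he ⊢
    rcases he with rfl | rfl
    · exact Or.inr rfl
    · left; rw [neg_neg]
  have hEcard : E.card = 2 := by
    have h1 : E = {r, -r} := by
      ext e; rw [hE, Finset.mem_insert, Finset.mem_singleton]
    rw [h1, Finset.card_pair hrr.symm]
  have hsim : ∀ h h' : GQ, h r = h' r → Sim (h x) (h' x) := by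
    intro h h' e
    have h1 : (h'⁻¹ * h) r = r := by
      rw [AlgEquiv.mul_apply, e, ← AlgEquiv.mul_apply, inv_mul_cancel, AlgEquiv.one_apply]
    obtain ⟨N, hN, h2⟩ := hxs _ h1
    refine ⟨N, hN, ?_⟩
    have h3 := congrArg h' h2
    rw [map_pow, map_pow, ← AlgEquiv.mul_apply, mul_inv_cancel_left] at h3
    exact h3
  obtain ⟨ch, hchr, hchn⟩ : ∃ ch : E → GQ, (∀ e, e.1 = r → ch e = 1) ∧
      (∀ e, e.1 ≠ r → ch e = c0) :=
    ⟨fun e => if e.1 = r then 1 else c0, fun e h => if_pos h, fun e h => if_neg h⟩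
  have hch : ∀ e : E, ch e r = e := by
    intro e
    by_cases h : e.1 = r
    · rw [hchr e h, h, AlgEquiv.one_apply]
    · rw [hchn e h, hc0r]
      exact (((hE _).1 e.2).resolve_left h).symm
  let iX : MulAction GQ (T × E) := RTX_act T E hT hEs
  let B : CMAlg (p ^ a) (T × E) r m :=
    { c := fun z => (z.1, ⟨-z.2.1, hEn _ z.2.2⟩)
      al := fun z => ch z.2 x
      ka := fun z => z.2.1
      isOpen := RTX_open T E hT hEs
      conj := by
        intro ρ' g hg z
        have h1 : g z.1.1 = z.1.1 := hTc ρ' g hg _ z.1.2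
        have h2 : g z.2.1 = -z.2.1 := by
          have h3 := RTX_conj hm hr hg
          rcases (hE _).1 z.2.2 with h | h
          · rw [h, h3]
          · rw [h, map_neg, h3]
        exact Prod.ext (Subtype.ext h1) (Subtype.ext h2)
      c_ne := by
        intro z h
        have h1 : -z.2.1 = z.2.1 := congrArg (fun w : T × E => w.2.1) h
        rcases (hE _).1 z.2.2 with h2 | h2
        · rw [h2] at h1; exact hrr h1
        · rw [h2, neg_neg] at h1; exact hrr h1.symm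
      weil := fun z => hD.weil x hx _
      al_smul := by
        intro g z
        apply hsim (ch (g • z).2) (g * ch z.2)
        rw [hch, AlgEquiv.mul_apply, hch]
        rfl
      m_pos := hm
      r_sq := hr
      ka_eq := fun z => (hE _).1 z.2.2
      ka_smul := fun g z => rfl }
  -- the local orbits
  have horb : ∀ z : T × E, locOrb ι z = (fun t : T => (t, z.2)) '' Set.univ := by
    intro z
    have hz : ∀ d ∈ dec ι, d z.2.1 = z.2.1 := by
      intro d hd
      rcases (hE _).1 z.2.2 with h | h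
      · rw [h, hdr d hd]
      · rw [h, map_neg, hdr d hd]
    ext w
    constructor
    · rintro ⟨d, hd, rfl⟩
      exact ⟨(d • z).1, trivial, Prod.ext rfl (Subtype.ext (hz d hd).symm)⟩
    · rintro ⟨t, -, rfl⟩
      obtain ⟨d, hd, h⟩ := hTt z.1.1 z.1.2 t.1 t.2
      exact ⟨d, hd, Prod.ext (Subtype.ext h.symm) (Subtype.ext (hz d hd).symm)⟩
  have hinj : ∀ e : E, Function.Injective (fun t : T => (t, e)) := fun e t t' h =>
    congrArg Prod.fst h
  have hcard : ∀ z : T × E, (locOrb ι z).ncard = T.card := by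
    intro z
    rw [horb, Set.ncard_image_of_injective _ (hinj z.2), Set.ncard_univ, Nat.card_eq_fintype_card,
      Fintype.card_coe]
  -- number of elements of `A`
  have hsubA : ({t : T | t.1 ∈ A} : Set T).ncard = n := by
    have h1 : ({t : T | t.1 ∈ A} : Set T) = Subtype.val ⁻¹' (A : Set Qb) := rfl
    rw [h1, Set.ncard_preimage_of_injective_subset_range Subtype.val_injective (by
      intro t ht
      exact ⟨⟨t, hAT ht⟩, rfl⟩), Set.ncard_coe_finset, hAn]
  have hsubA' : ({t : T | t.1 ∉ A} : Set T).ncard = T.card - n := by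
    have h1 : ({t : T | t.1 ∉ A} : Set T) = ({t : T | t.1 ∈ A} : Set T)ᶜ := rfl
    have h2 := Set.ncard_add_ncard_compl ({t : T | t.1 ∈ A} : Set T)
    rw [hsubA, Nat.card_eq_fintype_card, Fintype.card_coe] at h2
    rw [h1]
    omega
  obtain ⟨Phi, hPhi⟩ : ∃ Phi : Set (T × E), ∀ z, z ∈ Phi ↔ (z.2.1 = r ↔ z.1.1 ∈ A) :=
    ⟨{z | z.2.1 = r ↔ z.1.1 ∈ A}, fun z => Iff.rfl⟩
  have hPr : ∀ z : T × E, z.2.1 = r → Phi ∩ locOrb ι z = (fun t : T => (t, z.2)) '' {t | t.1 ∈ A} := by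
    intro z hz
    ext w
    rw [Set.mem_inter_iff, hPhi, horb]
    constructor
    · rintro ⟨h1, ⟨t, -, rfl⟩⟩
      exact ⟨t, h1.1 hz, rfl⟩
    · rintro ⟨t, ht, rfl⟩
      exact ⟨⟨fun _ => ht, fun _ => hz⟩, ⟨t, trivial, rfl⟩⟩
  have hPn : ∀ z : T × E, z.2.1 ≠ r → Phi ∩ locOrb ι z = (fun t : T => (t, z.2)) '' {t | t.1 ∉ A} := by
    intro z hz
    ext w
    rw [Set.mem_inter_iff, hPhi, horb]
    constructor
    · rintro ⟨h1, ⟨t, -, rfl⟩⟩
      exact ⟨t, fun h => hz (h1.2 h), rfl⟩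
    · rintro ⟨t, ht, rfl⟩
      exact ⟨⟨fun h => absurd h hz, fun h => absurd h ht⟩, ⟨t, trivial, rfl⟩⟩
  have hst1 : ‖ι (c0 x)‖ ^ T.card * ((p ^ a : ℕ) : ℝ) ^ (T.card - n) = 1 := by
    have h1 : x * c0 x = ((p ^ a : ℕ) : Qb) := hD.conj x hx ρ c0 hc0
    have h2 : ‖ι x‖ * ‖ι (c0 x)‖ = ((p ^ a : ℕ) : ℝ)⁻¹ := by
      rw [← norm_mul, ← map_mul, h1, RTX_norm_q]
    have h3 : (‖ι x‖ * ‖ι (c0 x)‖) ^ T.card * ((p ^ a : ℕ) : ℝ) ^ T.card = 1 := by
      rw [h2, ← mul_pow, inv_mul_cancel₀ hQ0.ne', one_pow]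
    have h4 : (‖ι x‖ ^ T.card * ((p ^ a : ℕ) : ℝ) ^ n) *
        (‖ι (c0 x)‖ ^ T.card * ((p ^ a : ℕ) : ℝ) ^ (T.card - n)) = 1 := by
      rw [← h3]
      have h5 : ((p ^ a : ℕ) : ℝ) ^ T.card =
          ((p ^ a : ℕ) : ℝ) ^ n * ((p ^ a : ℕ) : ℝ) ^ (T.card - n) := by
        rw [← pow_add]; congr 1; omega
      rw [h5, mul_pow]
      ring
    rwa [hxn, one_mul] at h4
  let C : CMSet (p ^ a) ι (T × E) r m :=
    { toCMAlg := B
      Phi := Phi
      type := by
        intro z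
        rw [hPhi, hPhi]
        show (z.2.1 = r ↔ z.1.1 ∈ A) ↔ ¬ (-z.2.1 = r ↔ z.1.1 ∈ A)
        rcases (hE _).1 z.2.2 with h | h
        · rw [h]
          constructor
          · intro h1 h2
            exact hrr (h2.2 (h1.1 rfl))
          · intro h1
            refine ⟨fun _ => ?_, fun _ => rfl⟩
            by_contra h3
            exact h1 ⟨fun h4 => absurd h4 hrr, fun h4 => absurd h4 h3⟩
        · rw [h, neg_neg]
          constructor
          · intro h1 h2
            exact hrr (h1.2 (h2.1 rfl))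
          · intro h1
            refine ⟨fun h4 => absurd h4 hrr, fun h4 => ?_⟩
            exact absurd ⟨fun _ => h4, fun _ => rfl⟩ h1
      st := by
        intro z
        rw [hcard]
        by_cases hz : z.2.1 = r
        · rw [hPr z hz, Set.ncard_image_of_injective _ (hinj z.2), hsubA]
          show ‖ι (ch z.2 x)‖ ^ T.card * _ = 1
          rw [hchr _ hz]
          exact hxn
        · rw [hPn z hz, Set.ncard_image_of_injective _ (hinj z.2), hsubA']
          show ‖ι (ch z.2 x)‖ ^ T.card * _ = 1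
          rw [hchn _ hz]
          exact hst1 }
  -- the half
  have hhalf : ∀ z : T × E, z ∈ C.half ↔ z.2.1 = r := by
    intro z
    show z ∈ Finset.univ.filter (fun x : T × E => C.ka x = r) ↔ _
    rw [Finset.mem_filter]
    exact ⟨fun h => h.2, fun h => ⟨Finset.mem_univ _, h⟩⟩
  obtain ⟨rE, hrE⟩ : ∃ rE : E, rE.1 = r := ⟨⟨r, (hE r).2 (Or.inl rfl)⟩, rfl⟩
  have hhalf' : C.half = Finset.univ.image (fun t : T => (t, rE)) := by
    ext z
    rw [hhalf, Finset.mem_image]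
    constructor
    · intro h
      exact ⟨z.1, Finset.mem_univ _, Prod.ext rfl (Subtype.ext (hrE.trans h.symm))⟩
    · rintro ⟨t, -, rfl⟩
      exact hrE
  have hhc : C.half.card = T.card := by
    rw [hhalf', Finset.card_image_of_injective _ (hinj rE), Finset.card_univ, Fintype.card_coe]
  refine ⟨T × E, inferInstance, iX, C, ?_, ?_, ?_, ?_⟩
  · rw [Fintype.card_prod, Fintype.card_coe, Fintype.card_coe, hEcard, mul_comm]
  · have h1 : (C.Phi ∩ (C.half : Set (T × E))) = (fun t : T => (t, rE)) '' {t | t.1 ∈ A} := by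
      ext z
      rw [Set.mem_inter_iff, Finset.mem_coe, hhalf]
      constructor
      · rintro ⟨h1, h2⟩
        exact ⟨z.1, ((hPhi z).1 h1).1 h2, Prod.ext rfl (Subtype.ext (hrE.trans h2.symm))⟩
      · rintro ⟨t, ht, rfl⟩
        exact ⟨(hPhi _).2 ⟨fun _ => ht, fun _ => hrE⟩, hrE⟩
    rw [h1, Set.ncard_image_of_injective _ (hinj rE), hsubA]
  · rw [Multiset.eq_replicate]
    refine ⟨by rw [Multiset.card_map]; exact hhc, ?_⟩
    intro b hb
    obtain ⟨z, hz, rfl⟩ := Multiset.mem_map.1 hb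
    have h1 : z.2.1 = r := (hhalf z).1 hz
    show ch z.2 x = x
    rw [hchr _ h1]
    rfl
  · intro h
    exact absurd h Bool.false_ne_true

end Pool.T4
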