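import Pool.Agent.Work.MP_223b32_t4.Interface2
import Pool.Agent.Work.MP_223b32_t4.HTC

/-! # Block SAV: the part of an abelian variety which belongs to a stable set of vectors -/

namespace Pool.T4

theorem SAV_cf {α : Type*} {_ : DecidableEq α} {P : α → Prop} {_ : DecidablePred P}
    {s : Multiset α} {a : α} (h : P a) : (s.filter P).count a = s.count a :=
  Multiset.count_filter_of_pos h

theorem p_SAV : Stmt_SAV := by
  classical
  intro p _ a ι _ D R hR V hV
  -- stability as an equivalence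
  have hV' : ∀ (g : GQ) (v : UU ι), g • v ∈ V ↔ v ∈ V := by
    intro g v
    refine ⟨fun h => ?_, hV g v⟩
    have h1 := hV g⁻¹ _ h
    rwa [inv_smul_smul] at h1
  obtain ⟨R1, hR1⟩ : ∃ R1 : Multiset Qb, R1 = R.filter (fun x => uu (p ^ a) ι x ∈ V) := ⟨_, rfl⟩
  have hmem : ∀ x, x ∈ R1 ↔ x ∈ R ∧ uu (p ^ a) ι x ∈ V := by
    intro x
    rw [hR1, Multiset.mem_filter]
  -- the filter on the germs
  have hgerm : ∀ S : Multiset Qb, (∀ x ∈ S, Weil (p ^ a) x) →
      (S.filter (fun x => uu (p ^ a) ι x ∈ V)).map germ =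
        (S.map germ).filter (fun c => HTC_F (p ^ a) ι c ∈ V) := by
    intro S hS
    rw [Multiset.filter_map]
    congr 1
    refine Multiset.filter_congr fun x hx => ?_
    change uu (p ^ a) ι x ∈ V ↔ HTC_F (p ^ a) ι (germ x) ∈ V
    rw [HTC_F_germ D (hS x hx)]
  have hRg : ∀ g : GQ, ∀ x ∈ R.map g, Weil (p ^ a) x := by
    intro g x hx
    obtain ⟨y, hy, rfl⟩ := Multiset.mem_map.1 hx
    exact D.weil y (hR.weil y hy) g
  have hmap : ∀ g : GQ, R1.map g = (R.map g).filter (fun x => uu (p ^ a) ι x ∈ V) := by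
    intro g
    rw [Multiset.filter_map, hR1]
    congr 1
    refine Multiset.filter_congr fun x hx => ?_
    change uu (p ^ a) ι x ∈ V ↔ uu (p ^ a) ι (g x) ∈ V
    rw [D.smul x (hR.weil x hx) g, hV' g]
  have hmult : ∀ x ∈ R1, mult R1 x = mult R x := by
    intro x hx
    unfold mult
    have h1 : R1.map germ = (R.map germ).filter (fun c => HTC_F (p ^ a) ι c ∈ V) := by
      rw [hR1]
      exact hgerm R hR.weil
    rw [h1]
    refine Multiset.count_filter_of_pos ?_
    rw [HTC_F_germ D (hR.weil x ((hmem x).1 hx).1)]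
    exact ((hmem x).1 hx).2
  refine ⟨R1, ?_, ⟨?_, ?_, ?_⟩, hmem, ?_⟩
  · rw [hR1]
    exact Multiset.filter_le _ _
  · intro x hx
    exact hR.weil x ((hmem x).1 hx).1
  · intro g
    rw [hmap g, hgerm _ (hRg g), hR.stable g, hR1]
    exact (hgerm R hR.weil).symm
  · intro x hx
    obtain ⟨n, hn⟩ := hR.ht x ((hmem x).1 hx).1
    refine ⟨n, ?_⟩
    rw [hmult x hx]
    exact hn
  · intro v hv
    unfold cnt
    have h1 : R1.map (uu (p ^ a) ι) = (R.map (uu (p ^ a) ι)).filter (fun v => v ∈ V) := by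
      rw [Multiset.filter_map, hR1]
      rfl
    rw [h1]
    exact SAV_cf hv

end Pool.T4
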