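import Pool.Agent.Work.MP_223b32_t4.B_SQU

/-! Block SQU is in `B_SQU.lean`. -/
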