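import Pool.Agent.Work.MP_223b32_t4.Interface

/-! # Block SUM -/

namespace Pool.T4

open Pool.Agent.Work.MP_223b32_ag

theorem SUM_ne (hRHO : Stmt_RHO) {q : ℕ} (hq : 0 < q) {x : Qb} (hx : Weil q x) : x ≠ 0 := by
  obtain ⟨ρ⟩ := hRHO
  rintro rfl
  have h := hx.2 ρ
  rw [map_zero, norm_zero] at h
  have h1 : (0 : ℝ) < q := by exact_mod_cast hq
  norm_num at h
  linarith

theorem SUM_normp {p : ℕ} [Fact p.Prime] (ι : Qb →+* PadicAlgCl p) (q : ℕ) (a : ℕ) (hq : q = p ^ a) :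
    ‖ι (q : Qb)‖ = (q : ℝ)⁻¹ := by
  rw [map_natCast, hq]
  push_cast
  rw [norm_pow]
  have h : ‖(p : PadicAlgCl p)‖ = (p : ℝ)⁻¹ := by
    have h1 := PadicAlgCl.norm_extends p (p : ℚ_[p])
    rw [map_natCast] at h1
    rw [h1, Padic.norm_p]
  rw [h, inv_pow]

theorem SUM_key {p : ℕ} [Fact p.Prime] (ι : Qb →+* PadicAlgCl p) (q : ℕ) (g : GQ) (S : Multiset Qb)
    (hS : ∀ x ∈ S, x ≠ 0) :
    S.prod ≠ 0 ∧ (S.map fun x => ur q ι x g).sum = -2 * Real.logb q ‖ι (g S.prod)‖ - S.card := by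
  induction S using Multiset.induction_on with
  | empty => simp
  | cons x S ih =>
    obtain ⟨h1, h2⟩ := ih fun y hy => hS y (Multiset.mem_cons_of_mem hy)
    have hx := hS x (Multiset.mem_cons_self x S)
    refine ⟨?_, ?_⟩
    · rw [Multiset.prod_cons]
      exact mul_ne_zero hx h1
    · have e1 : ‖ι (g x)‖ ≠ 0 := by
        rw [norm_ne_zero_iff]
        exact (map_ne_zero ι).2 ((map_ne_zero g).2 hx)
      have e2 : ‖ι (g S.prod)‖ ≠ 0 := by
        rw [norm_ne_zero_iff]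
        exact (map_ne_zero ι).2 ((map_ne_zero g).2 h1)
      rw [Multiset.map_cons, Multiset.sum_cons, h2, Multiset.prod_cons, map_mul, map_mul, norm_mul,
        Real.logb_mul e1 e2, Multiset.card_cons]
      unfold ur
      push_cast
      ring

theorem SUM_iff {y : ℝ} {q n : ℕ} (hq : 1 < q) (hy : 0 < y) :
    -2 * Real.logb q y - n = 0 ↔ y ^ 2 = ((q : ℝ) ^ n)⁻¹ := by
  have hq1 : (1 : ℝ) < q := by exact_mod_cast hq
  have hq0 : (0 : ℝ) < q := by linarith
  have h1 : Real.logb q (y ^ 2) = 2 * Real.logb q y := by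
    rw [Real.logb_pow]
    norm_num
  have h2 : Real.logb q (((q : ℝ) ^ n)⁻¹) = -n := by
    rw [Real.logb_inv, Real.logb_pow, Real.logb_self_eq_one hq1, mul_one]
  constructor
  · intro h
    have h3 : Real.logb q (y ^ 2) = Real.logb q (((q : ℝ) ^ n)⁻¹) := by
      rw [h1, h2]
      linarith
    exact Real.logb_injOn_pos hq1 (by simp only [Set.mem_Ioi]; positivity)
      (by simp only [Set.mem_Ioi]; positivity) h3
  · intro h
    have h3 : Real.logb q (y ^ 2) = Real.logb q (((q : ℝ) ^ n)⁻¹) := by rw [h]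
    rw [h1, h2] at h3
    linarith

theorem SUM_rho {q : ℕ} (ρ : Qb →+* ℂ) (S : Multiset Qb) (hS : ∀ x ∈ S, Weil q x) :
    ‖ρ S.prod‖ ^ 2 = (q : ℝ) ^ S.card := by
  induction S using Multiset.induction_on with
  | empty => simp
  | cons x S ih =>
    have h := ih fun y hy => hS y (Multiset.mem_cons_of_mem hy)
    have hx := (hS x (Multiset.mem_cons_self x S)).2 ρ
    rw [Multiset.prod_cons, map_mul, norm_mul, mul_pow, h, hx, Multiset.card_cons, pow_succ]
    ring

theorem p_SUM (hKRO : Stmt_KRO) (hRHO : Stmt_RHO) : Stmt_SUM := by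
  intro p _ a ι ha S hS
  have hp : p.Prime := Fact.out
  obtain ⟨q, hq⟩ : ∃ q, p ^ a = q := ⟨_, rfl⟩
  rw [hq] at hS ⊢
  have hq1 : 1 < q := by rw [← hq]; exact Nat.one_lt_pow ha.ne' hp.one_lt
  have hqR : (0 : ℝ) < q := by exact_mod_cast (by omega : 0 < q)
  have hqQ : (q : Qb) ≠ 0 := by exact_mod_cast (by omega : q ≠ 0)
  have hS0 : ∀ x ∈ S, x ≠ 0 := fun x hx => SUM_ne hRHO (by omega) (hS x hx)
  have hnq : ∀ g : GQ, ‖ι (g ((q : Qb) ^ S.card))‖ = ((q : ℝ) ^ S.card)⁻¹ := by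
    intro g
    rw [map_pow, map_natCast, map_pow, norm_pow, SUM_normp ι q a hq.symm, inv_pow]
  have hcrit : ∀ g : GQ, ((S.map fun x => ur q ι x g).sum = 0) ↔
      ‖ι (g S.prod)‖ ^ 2 = ((q : ℝ) ^ S.card)⁻¹ := by
    intro g
    obtain ⟨h1, h2⟩ := SUM_key ι q g S hS0
    rw [h2]
    refine SUM_iff hq1 ?_
    rw [norm_pos_iff]
    exact (map_ne_zero ι).2 ((map_ne_zero g).2 h1)
  constructor
  · intro h
    have hz := hKRO p ι (S.prod ^ 2 / (q : Qb) ^ S.card) (a * S.card) ?_ ?_ ?_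
    · obtain ⟨N, hN, hz⟩ := hz
      refine ⟨N, hN, ?_⟩
      rw [div_pow, div_eq_one_iff_eq (pow_ne_zero _ (pow_ne_zero _ hqQ))] at hz
      exact hz
    · have e : (p : Qb) ^ (a * S.card) * (S.prod ^ 2 / (q : Qb) ^ S.card) = S.prod ^ 2 := by
        have e1 : (p : Qb) ^ (a * S.card) = (q : Qb) ^ S.card := by
          rw [pow_mul, ← hq]
          push_cast
          rfl
        rw [e1, mul_div_cancel₀]
        exact pow_ne_zero _ hqQ
      rw [e]
      exact (IsIntegral.multiset_prod fun x hx => (hS x hx).1).pow 2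
    · intro g
      have e1 := (hcrit g).1 (h g)
      rw [map_div₀, map_div₀, norm_div, map_pow, map_pow, norm_pow, e1, hnq g, div_self]
      positivity
    · intro ρ
      rw [map_div₀, norm_div, map_pow, norm_pow, SUM_rho ρ S hS, map_pow, map_natCast, norm_pow,
        Complex.norm_natCast, div_self]
      positivity
  · rintro ⟨N, hN, h⟩ g
    rw [hcrit g]
    have h1 := congrArg (fun x => ‖ι (g x)‖) h
    simp only [map_pow g, map_pow ι, norm_pow] at h1
    have h2 := hnq g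
    simp only [map_pow g, map_pow ι, norm_pow] at h2
    rw [h2] at h1
    exact (pow_left_inj₀ (by positivity) (by positivity) hN.ne').1 h1

end Pool.T4
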