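import Pool.Agent.Work.MP_223b32_t4.Interface

namespace Pool.T4

theorem THR_ss_sim {q : ℕ} {x y : Qb} (h : Sim x y) (hx : SS q x) : SS q y := by
  obtain ⟨M, hM, e⟩ := hx
  obtain ⟨N, hN, f⟩ := h
  refine ⟨M * N, Nat.mul_pos hM hN, ?_⟩
  calc (y ^ 2) ^ (M * N) = (y ^ N) ^ (2 * M) := by ring
    _ = (x ^ N) ^ (2 * M) := by rw [f]
    _ = ((x ^ 2) ^ M) ^ N := by ring
    _ = ((q : Qb) ^ M) ^ N := by rw [e]
    _ = (q : Qb) ^ (M * N) := by ring

theorem THR_ss_g {q : ℕ} (g : GQ) (x : Qb) : SS q (g x) ↔ SS q x := by
  constructor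
  · rintro ⟨M, hM, e⟩
    refine ⟨M, hM, ?_⟩
    apply g.injective
    rw [map_pow, map_pow, map_pow, map_natCast]
    exact e
  · rintro ⟨M, hM, e⟩
    refine ⟨M, hM, ?_⟩
    have := congrArg g e
    rwa [map_pow, map_pow, map_pow, map_natCast] at this

/-- the predicate on germs -/
def THR_P (q : ℕ) : Quotient simSetoid → Prop :=
  Quotient.lift (fun x => ¬ SS q x) (fun _ _ h => propext
    ⟨fun hx hy => hx (THR_ss_sim (simSetoid.symm h) hy), fun hy hx => hy (THR_ss_sim h hx)⟩)

theorem THR_P_germ {q : ℕ} (x : Qb) : THR_P q (germ x) ↔ ¬ SS q x := Iff.rfl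

open Classical in
theorem THR_map {q : ℕ} (R : Multiset Qb) :
    (R.filter fun x => ¬ SS q x).map germ = (R.map germ).filter (THR_P q) := by
  rw [Multiset.filter_map]
  congr 1
  exact Multiset.filter_congr fun x _ => Iff.rfl

theorem p_THR : Stmt_THR := by
  classical
  intro p _ a ι ha hD R hR V hV6 hV hV1 s hs
  have hq0 : 0 < p ^ a := pow_pos (Fact.out : p.Prime).pos a
  set q : ℕ := p ^ a with hq
  have hsw : Weil q s := by
    refine ⟨IsIntegral.of_pow (n := 2) two_pos ?_, fun ρ => ?_⟩
    · rw [hs]
      have : IsIntegral ℤ (algebraMap ℤ Qb (q : ℤ)) := isIntegral_algebraMap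
      simpa using this
    · rw [← norm_pow, ← map_pow, hs, map_natCast]
      simp
  have hss : SS q s := ⟨1, one_pos, by rw [hs]⟩
  have hRw : ∀ x ∈ R, Weil q x := hR.weil
  have hg2 : ∀ g : GQ, germ (g s) = germ s := by
    intro g
    apply Quotient.sound
    refine ⟨2, two_pos, ?_⟩
    rw [← map_pow, hs, map_natCast]
  refine ⟨R.filter fun x => ¬ SS q x, ⟨?_, ?_, ?_⟩, ?_⟩
  · intro x hx
    rcases Multiset.mem_add.1 hx with h | h
    · exact hRw x (Multiset.mem_filter.1 h).1
    · have : x = s := by simpa using h
      rw [this]; exact hsw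
  · intro g
    rw [Multiset.map_add, Multiset.map_add, Multiset.map_add]
    congr 1
    · have h1 : (R.filter fun x => ¬ SS q x).map g = (R.map g).filter fun x => ¬ SS q x := by
        rw [Multiset.filter_map]
        congr 1
        refine Multiset.filter_congr fun x _ => ?_
        simp only [Function.comp_apply]
        rw [THR_ss_g]
      rw [h1, THR_map, THR_map, hR.stable g]
    · simp [hg2 g]
  · intro x hx
    rcases Multiset.mem_add.1 hx with h | h
    · obtain ⟨hxR, hxs⟩ := Multiset.mem_filter.1 h
      have hm : mult ((R.filter fun x => ¬ SS q x) + {s, s}) x = mult R x := by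
        unfold mult
        rw [Multiset.map_add, Multiset.count_add, THR_map]
        have h2 : Multiset.count (germ x) (Multiset.map germ {s, s}) = 0 := by
          rw [Multiset.count_eq_zero]
          intro hmem
          have h3 : germ x = germ s := by simpa using hmem
          have h4 : Sim x s := Quotient.exact h3
          exact hxs (THR_ss_sim (simSetoid.symm h4) hss)
        rw [h2, add_zero, Multiset.count_filter_of_pos]
        exact (THR_P_germ x).2 hxs
      rw [hm]
      exact hR.ht x hxR
    · have hxe : x = s := by simpa using h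
      subst hxe
      have hm : mult ((R.filter fun y => ¬ SS q y) + {x, x}) x = 2 := by
        unfold mult
        rw [Multiset.map_add, Multiset.count_add, THR_map]
        have h2 : Multiset.count (germ x) (Multiset.filter (THR_P q) (Multiset.map germ R)) = 0 := by
          rw [Multiset.count_eq_zero]
          intro hmem
          exact (THR_P_germ x).1 (Multiset.mem_filter.1 hmem).2 hss
        rw [h2]
        simp
      have ho : (locOrbit ι x).ncard = 1 := by
        have : locOrbit ι x = {germ x} := by
          ext c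
          constructor
          · rintro ⟨g, _, rfl⟩
            exact hg2 g
          · rintro rfl
            exact ⟨1, (dec ι).one_mem, by rw [AlgEquiv.one_apply]⟩
        rw [this, Set.ncard_singleton]
      refine ⟨1, ?_⟩
      rw [hm, ho]
      have h3 : uu q ι x = 0 := (hD.ss x hsw).1 hss
      have h4 : ur q ι x 1 = 0 := by
        rw [← hD.mem x hsw, h3]
        rfl
      have h5 := (hD.nrm x hsw 1 2 1).2 (by rw [h4]; norm_num)
      rw [AlgEquiv.one_apply] at h5
      simpa using h5
  · refine Multiset.ext.2 fun v => ?_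
    have hcount : ∀ v, v ≠ 0 → Multiset.count v ((R.filter fun x => ¬ SS q x).map (uu q ι)) =
        cnt v (R.map (uu q ι)) := by
      intro v hv
      unfold cnt
      have h6 : (R.filter fun x => ¬ SS q x).map (uu q ι) =
          (R.map (uu q ι)).filter fun w => w ≠ 0 := by
        rw [Multiset.filter_map]
        congr 1
        refine Multiset.filter_congr fun x hx => ?_
        simp only [Function.comp_apply]
        rw [hD.ss x (hRw x hx)]
      rw [h6]
      have key : ∀ (d1 d2 : DecidableEq (UU ι)) (M : Multiset (UU ι)),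
          @Multiset.count _ d1 v M = @Multiset.count _ d2 v M := by
        intro d1 d2 M
        have hd : d1 = d2 := Subsingleton.elim _ _
        rw [hd]
      exact (Multiset.count_filter_of_pos (p := fun w => w ≠ 0) (s := R.map (uu q ι))
        (a := v) hv).trans (key _ _ _)
    by_cases hv : v ∈ V
    · rw [hcount v ((hV v).1 hv).1, hV1 v hv]
      exact (Multiset.count_eq_one_of_mem V.nodup hv).symm
    · have h7 : Multiset.count v V.val = 0 := Multiset.count_eq_zero.2 hv
      rw [h7, Multiset.count_eq_zero]
      intro hmem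
      obtain ⟨x, hx, rfl⟩ := Multiset.mem_map.1 hmem
      obtain ⟨hxR, hxs⟩ := Multiset.mem_filter.1 hx
      refine hv ((hV _).2 ⟨fun h0 => hxs ((hD.ss x (hRw x hxR)).2 h0), Multiset.mem_map_of_mem _ hxR⟩)

end Pool.T4
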