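import Pool.Agent.Work.MP_223b32_t4.Interface

namespace Pool.T4

theorem TNS_orb {p : ℕ} [Fact p.Prime] {ι : Qb →+* PadicAlgCl p} {q : ℕ} {X : Type} [Fintype X]
    [MulAction GQ X] {r : Qb} {m : ℚ} (C : CMAlg q X r m) (d : GQ) (hd : d ∈ dec ι)
    (hdr : d r = -r) (hr : r ≠ -r) (x : X) :
    2 * (locOrb ι x ∩ {y | C.ka y = r}).ncard = (locOrb ι x).ncard ∧
    2 * (locOrb ι x ∩ {y | C.ka y ≠ r}).ncard = (locOrb ι x).ncard := by
  classical
  have hO : ∀ y ∈ locOrb ι x, ∀ g ∈ dec ι, g • y ∈ locOrb ι x := by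
    rintro y ⟨h, hh, rfl⟩ g hg
    exact ⟨g * h, (dec ι).mul_mem hg hh, by rw [mul_smul]⟩
  have hmap : (fun y : X => d • y) '' (locOrb ι x ∩ {y | C.ka y = r}) =
      locOrb ι x ∩ {y | C.ka y ≠ r} := by
    ext z
    constructor
    · rintro ⟨y, ⟨hy, hk⟩, rfl⟩
      refine ⟨hO y hy d hd, ?_⟩
      show C.ka (d • y) ≠ r
      have hk' : C.ka y = r := hk
      rw [C.ka_smul, hk', hdr]
      exact fun h => hr h.symm
    · rintro ⟨hz, hk⟩
      have hk' : C.ka z ≠ r := hk
      refine ⟨d⁻¹ • z, ⟨hO z hz _ ((dec ι).inv_mem hd), ?_⟩, ?_⟩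
      · show C.ka (d⁻¹ • z) = r
        rcases C.ka_eq (d⁻¹ • z) with h | h
        · exact h
        · exfalso
          apply hk'
          have h1 : C.ka (d • (d⁻¹ • z)) = d (C.ka (d⁻¹ • z)) := C.ka_smul d _
          rw [smul_inv_smul, h, map_neg, hdr, neg_neg] at h1
          exact h1
      · show d • d⁻¹ • z = z
        exact smul_inv_smul d z
  have hcard : (locOrb ι x ∩ {y | C.ka y ≠ r}).ncard = (locOrb ι x ∩ {y | C.ka y = r}).ncard := by
    rw [← hmap]
    exact Set.ncard_image_of_injective _ (MulAction.injective d)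
  have hsum : (locOrb ι x ∩ {y | C.ka y = r}).ncard + (locOrb ι x ∩ {y | C.ka y ≠ r}).ncard =
      (locOrb ι x).ncard := by
    rw [← Set.ncard_union_eq _ (Set.toFinite _) (Set.toFinite _)]
    · congr 1
      ext z
      constructor
      · rintro (h | h) <;> exact h.1
      · intro h
        by_cases hk : C.ka z = r
        · exact Or.inl ⟨h, hk⟩
        · exact Or.inr ⟨h, hk⟩
    · rw [Set.disjoint_left]
      rintro z ⟨_, h1⟩ ⟨_, h2⟩
      exact h2 h1
  constructor <;> omega

theorem p_TNS (hHLF : Stmt_HLF) : Stmt_TNS := by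
  intro p _ a ι ha D X _ _ r m C hd hn
  obtain ⟨d, hdd, hdr⟩ := hd
  obtain ⟨h2, hcc, hka, hcg, hgr⟩ := hHLF (p ^ a) X r m C.toCMAlg
  have hdr' : d r = -r := (hgr d).resolve_left hdr
  have hr : r ≠ -r := by
    intro h
    apply hdr
    rw [hdr', ← h]
  have hmem : ∀ x, x ∈ C.half ↔ C.ka x = r := by
    intro x
    unfold CMAlg.half
    simp
  -- the key cardinality
  have hkey : ∀ x, 2 * (C.Phi ∩ locOrb ι x).ncard = (locOrb ι x).ncard := by
    intro x
    obtain ⟨h1, h3⟩ := TNS_orb (ι := ι) C.toCMAlg d hdd hdr' hr x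
    rcases hn with hn | hn
    · -- Phi is the complement of half
      have hemp : C.Phi ∩ (C.half : Set X) = ∅ := by
        rwa [Set.ncard_eq_zero (Set.toFinite _)] at hn
      have hP : ∀ y, y ∈ C.Phi ↔ C.ka y ≠ r := by
        intro y
        constructor
        · intro hy hk
          have : y ∈ C.Phi ∩ (C.half : Set X) := ⟨hy, by rw [Finset.mem_coe, hmem]; exact hk⟩
          rw [hemp] at this
          exact this
        · intro hk
          rw [C.type]
          intro hc
          have hkc : C.ka (C.c y) = r := by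
            rw [hka]
            rcases C.ka_eq y with h | h
            · exact absurd h hk
            · rw [h, neg_neg]
          have : C.c y ∈ C.Phi ∩ (C.half : Set X) := ⟨hc, by rw [Finset.mem_coe, hmem]; exact hkc⟩
          rw [hemp] at this
          exact this
      have hE : C.Phi ∩ locOrb ι x = locOrb ι x ∩ {y | C.ka y ≠ r} := by
        ext z
        constructor
        · rintro ⟨h4, h5⟩
          exact ⟨h5, (hP z).1 h4⟩
        · rintro ⟨h5, h4⟩
          exact ⟨(hP z).2 h4, h5⟩
      rw [hE]; exact h3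
    · -- Phi = half
      have hsub : (C.half : Set X) ⊆ C.Phi := by
        have hE : C.Phi ∩ (C.half : Set X) = (C.half : Set X) := by
          apply Set.eq_of_subset_of_ncard_le Set.inter_subset_right
          rw [hn, Set.ncard_coe_finset]
        intro z hz
        rw [← hE] at hz
        exact hz.1
      have hP : ∀ y, y ∈ C.Phi ↔ C.ka y = r := by
        intro y
        constructor
        · intro hy
          by_contra hk
          have hkc : C.ka (C.c y) = r := by
            rw [hka]
            rcases C.ka_eq y with h | h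
            · exact absurd h hk
            · rw [h, neg_neg]
          have h6 : C.c y ∈ C.Phi := hsub (by rw [Finset.mem_coe, hmem]; exact hkc)
          exact (C.type y).1 hy h6
        · intro hk
          exact hsub (by rw [Finset.mem_coe, hmem]; exact hk)
      have hE : C.Phi ∩ locOrb ι x = locOrb ι x ∩ {y | C.ka y = r} := by
        ext z
        constructor
        · rintro ⟨h4, h5⟩
          exact ⟨h5, (hP z).1 h4⟩
        · rintro ⟨h5, h4⟩
          exact ⟨(hP z).2 h4, h5⟩
      rw [hE]; exact h1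
  have hur1 : ∀ x, ur (p ^ a) ι (C.al x) 1 = 0 := by
    intro x
    have hst := C.st x
    have hnrm := (D.nrm (C.al x) (C.weil x) 1 (locOrb ι x).ncard (C.Phi ∩ locOrb ι x).ncard).1
      (by rw [AlgEquiv.one_apply]; exact hst)
    have hk := hkey x
    have hkR : (2 : ℝ) * ((C.Phi ∩ locOrb ι x).ncard : ℝ) = ((locOrb ι x).ncard : ℝ) := by
      exact_mod_cast hk
    rw [hkR] at hnrm
    have hpos : (0 : ℝ) < ((locOrb ι x).ncard : ℝ) := by
      have : 0 < (locOrb ι x).ncard := by
        rw [Set.ncard_pos (Set.toFinite _)]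
        exact ⟨x, 1, (dec ι).one_mem, (one_smul _ x).symm⟩
      exact_mod_cast this
    have h7 : ((locOrb ι x).ncard : ℝ) * ur (p ^ a) ι (C.al x) 1 = 0 := by linarith
    rcases mul_eq_zero.1 h7 with h | h
    · exact absurd h hpos.ne'
    · exact h
  intro x
  apply Subtype.ext
  rw [D.mem (C.al x) (C.weil x)]
  funext g
  show ur (p ^ a) ι (C.al x) g = 0
  have h8 : ur (p ^ a) ι (C.al x) g = ur (p ^ a) ι (g (C.al x)) 1 := by
    unfold ur
    rw [AlgEquiv.one_apply]
  have h9 : uu (p ^ a) ι (C.al (g • x)) = uu (p ^ a) ι (g (C.al x)) :=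
    (D.sim _ _ (C.weil _) (D.weil _ (C.weil x) g)).1 (C.al_smul g x)
  have h10 : ur (p ^ a) ι (g (C.al x)) 1 = ur (p ^ a) ι (C.al (g • x)) 1 := by
    rw [← D.mem _ (D.weil _ (C.weil x) g), ← D.mem _ (C.weil (g • x)), h9]
  rw [h8, h10, hur1]

end Pool.T4
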