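import Pool.Agent.Work.MP_223b32_t4.Interface6
import Pool.Agent.Work.MP_223b32_t4.SGN
import Pool.Agent.Work.MP_223b32_t4.EQG

/-! # Block TW4: two orbits of four elements with a relation -/

namespace Pool.T4

section

variable {G U : Type} [Group G] [AddCommGroup U] [Module ℚ U] [DistribMulAction G U]

theorem TW4_smul (g : G) (c : ℚ) (x : U) : g • (c • x) = c • (g • x) :=
  map_rat_smul (DistribSMul.toAddMonoidHom U g) c x

theorem TW4_w (K : Core G U) (c : ℚ) (x : U) : K.w (c • x) = (c : ℝ) * K.w x := by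
  rw [map_rat_smul K.w c x, Rat.smul_def]

/-- the four elements `v, -v, r v, -r v` with `r (r v) = -v` are different and they are `V` -/
theorem TW4_cov (K : Core G U) {V : Finset U} (hs : ∀ g : G, ∀ v ∈ V, g • v ∈ V)
    (hc : V.card = 4) {v : U} {r : G} (hv : v ∈ V) (h0 : v ≠ 0) (hr : r • (r • v) = -v) :
    ∀ u ∈ V, u = v ∨ u = -v ∨ u = r • v ∨ u = -(r • v) := by
  classical
  have hneg : ∀ v ∈ V, -v ∈ V := by
    intro v hv
    have := hs K.c0 v hv
    rwa [K.cc v] at this
  have hrv := hs r v hv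
  have h1 : v ≠ -v := SGN_neg_ne h0
  have h2 : r • v ≠ v := by
    intro h
    rw [h, h] at hr
    exact h1 hr
  have h3 : r • v ≠ -v := by
    intro h
    rw [h, smul_neg, h, neg_neg] at hr
    exact h1 hr
  have h4 : r • v ≠ 0 := by
    intro h
    rw [h, smul_zero] at hr
    exact h0 (by rw [← neg_neg v, ← hr, neg_zero])
  have h5 : r • v ≠ -(r • v) := SGN_neg_ne h4
  have hsub : ({v, -v, r • v, -(r • v)} : Finset U) ⊆ V := by
    intro u hu
    simp only [Finset.mem_insert, Finset.mem_singleton] at hu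
    rcases hu with rfl | rfl | rfl | rfl
    · exact hv
    · exact hneg _ hv
    · exact hrv
    · exact hneg _ hrv
  have hcard : ({v, -v, r • v, -(r • v)} : Finset U).card = 4 := by
    have e4 : v ≠ -(r • v) := fun h => h3 (by
      have := congrArg Neg.neg h
      rw [neg_neg] at this
      exact this.symm)
    have e5 : -v ≠ r • v := fun h => h3 h.symm
    have e6 : -v ≠ -(r • v) := fun h => h2 (neg_injective h).symm
    rw [Finset.card_insert_of_notMem, Finset.card_insert_of_notMem,
      Finset.card_insert_of_notMem, Finset.card_singleton]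
    · simpa using h5
    · simp [e5, e6]
    · simp only [Finset.mem_insert, Finset.mem_singleton, not_or]
      exact ⟨h1, fun h => h2 h.symm, e4⟩
  have heq : ({v, -v, r • v, -(r • v)} : Finset U) = V :=
    Finset.eq_of_subset_of_card_le hsub (by omega)
  intro u hu
  rw [← heq] at hu
  simpa using hu

/-- there is a rotation -/
theorem TW4_rot (hOF : Stmt_OF4) (K : Core G U) (V : Finset U) (hV : IsOrb K V 1)
    (hc : V.card = 4) : ∃ (v : U) (r : G), v ∈ V ∧ r • (r • v) = -v := by
  classical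
  have hneg : ∀ v ∈ V, -v ∈ V := by
    intro v hv
    have := hV.stable K.c0 v hv
    rwa [K.cc v] at this
  obtain ⟨v1, h1⟩ := hV.ne
  have hc2 : ({v1, -v1} : Finset U).card ≤ 2 := Finset.card_le_two
  obtain ⟨v2, h2, h2'⟩ : ∃ v2 ∈ V, v2 ∉ ({v1, -v1} : Finset U) := by
    apply Finset.exists_mem_notMem_of_card_lt_card
    omega
  simp only [Finset.mem_insert, Finset.mem_singleton, not_or] at h2'
  obtain ⟨ha, hb⟩ := h2'
  have e1 : v1 ≠ -v1 := SGN_neg_ne (hV.nz v1 h1)
  have e2 : v2 ≠ -v2 := SGN_neg_ne (hV.nz v2 h2)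
  have e3 : v1 ≠ v2 := fun h => ha h.symm
  have e4 : v1 ≠ -v2 := fun h => hb (by rw [h, neg_neg])
  have e5 : -v1 ≠ v2 := fun h => hb h.symm
  have e6 : -v1 ≠ -v2 := fun h => e3 (neg_injective h)
  have hsub : ({v1, -v1, v2, -v2} : Finset U) ⊆ V := by
    intro v hv
    simp only [Finset.mem_insert, Finset.mem_singleton] at hv
    rcases hv with rfl | rfl | rfl | rfl
    · exact h1
    · exact hneg _ h1
    · exact h2
    · exact hneg _ h2
  have hcard : ({v1, -v1, v2, -v2} : Finset U).card = 4 := by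
    rw [Finset.card_insert_of_notMem, Finset.card_insert_of_notMem,
      Finset.card_insert_of_notMem, Finset.card_singleton]
    · simpa using e2
    · simp [e5, e6]
    · simp only [Finset.mem_insert, Finset.mem_singleton, not_or]
      exact ⟨e1, e3, e4⟩
  have heq : ({v1, -v1, v2, -v2} : Finset U) = V :=
    Finset.eq_of_subset_of_card_le hsub (by omega)
  have hall : ∀ u ∈ V, u = v1 ∨ u = -v1 ∨ u = v2 ∨ u = -v2 := by
    intro v hv
    rw [← heq] at hv
    simpa using hv
  have inj : ∀ (g : G) (a b : U), g • a = g • b → a = b := fun g a b h => smul_left_cancel g h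
  by_contra hno
  have hno' : ∀ r : G, r • v1 = v2 → r • v2 = -v1 → False := by
    intro r e1 e2
    exact hno ⟨v1, r, h1, by rw [e1, e2]⟩
  obtain ⟨g1, hg1⟩ := hV.trans v1 h1 v2 h2
  have hg2 : g1 • v2 = v1 := by
    rcases hall _ (hV.stable g1 v2 h2) with h | h | h | h
    · exact h
    · exact (hno' g1 hg1 h).elim
    · exact absurd (inj g1 v1 v2 (by rw [hg1, h])) e3
    · exact absurd (inj g1 v1 (-v2) (by rw [hg1, smul_neg, h, neg_neg])) e4
  apply hOF G U K V hV hc (v1 + v2) ⟨?_, ?_⟩
  · exact Submodule.add_mem _ (Submodule.subset_span h1) (Submodule.subset_span h2)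
  · intro h
    exact hb (eq_neg_of_add_eq_zero_right h)
  · intro g
    rcases hall _ (hV.stable g v1 h1) with a1 | a1 | a1 | a1 <;>
      rcases hall _ (hV.stable g v2 h2) with a2 | a2 | a2 | a2
    · exact absurd (inj g v1 v2 (by rw [a1, a2])) e3
    · exact absurd (inj g v1 (-v2) (by rw [smul_neg, a1, a2, neg_neg])) e4
    · left
      rw [smul_add, a1, a2]
    · exact (hno' (g1 * g) (by rw [mul_smul, a1, hg1]) (by rw [mul_smul, a2, smul_neg, hg2])).elim
    · exact absurd (inj g v1 (-v2) (by rw [smul_neg, a1, a2])) e4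
    · exact absurd (inj g v1 v2 (by rw [a1, a2])) e3
    · exact (hno' (g * g1) (by rw [mul_smul, hg1, a2]) (by rw [mul_smul, hg2, a1])).elim
    · right
      rw [smul_add, a1, a2]
      abel
    · left
      rw [smul_add, a1, a2]
      abel
    · exact (hno' g a1 a2).elim
    · exact absurd (inj g v1 v2 (by rw [a1, a2])) e3
    · exact absurd (inj g v1 (-v2) (by rw [smul_neg, a1, a2, neg_neg])) e4
    · exact (hno' g⁻¹ (inv_smul_eq_iff.2 a2.symm)
        (inv_smul_eq_iff.2 (by rw [smul_neg, a1, neg_neg]))).elim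
    · right
      rw [smul_add, a1, a2]
      abel
    · exact absurd (inj g v1 (-v2) (by rw [smul_neg, a1, a2])) e4
    · exact absurd (inj g v1 v2 (by rw [a1, a2])) e3

/-- independence of `v` and `r v` -/
theorem TW4_ind {v : U} {r : G} (h0 : v ≠ 0) (hr : r • (r • v) = -v) {a b : ℚ}
    (h : a • v + b • (r • v) = 0) : a = 0 ∧ b = 0 := by
  have h' : a • (r • v) - b • v = 0 := by
    have h1 : r • (a • v + b • (r • v)) = 0 := by rw [h, smul_zero]
    rw [smul_add, TW4_smul, TW4_smul, hr] at h1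
    rw [← h1]
    generalize r • v = z
    module
  have h2 : (a ^ 2 + b ^ 2) • v = 0 := by
    have : (a ^ 2 + b ^ 2) • v = a • (a • v + b • (r • v)) - b • (a • (r • v) - b • v) := by
      generalize r • v = z
      module
    rw [this, h, h', smul_zero, smul_zero, sub_zero]
  have h3 : a ^ 2 + b ^ 2 = 0 := (smul_eq_zero.1 h2).resolve_right h0
  constructor <;> nlinarith [sq_nonneg a, sq_nonneg b]

/-- the sum of a multiset in `V` -/
theorem TW4_sum {v : U} {r : G} (h0 : v ≠ 0) (hr : r • (r • v) = -v) (S : Multiset U)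
    (hS : ∀ u ∈ S, u = v ∨ u = -v ∨ u = r • v ∨ u = -(r • v)) :
    ∃ a b : ℚ, S.sum = a • v + b • (r • v) ∧ (NoPair S → S ≠ 0 → a ≠ 0 ∨ b ≠ 0) := by
  classical
  have h1 : v ≠ -v := SGN_neg_ne h0
  have h2 : r • v ≠ v := by
    intro h
    rw [h, h] at hr
    exact h1 hr
  have h3 : r • v ≠ -v := by
    intro h
    rw [h, smul_neg, h, neg_neg] at hr
    exact h1 hr
  have h4 : r • v ≠ 0 := by
    intro h
    rw [h, smul_zero] at hr
    exact h0 (by rw [← neg_neg v, ← hr, neg_zero])
  have h5 : r • v ≠ -(r • v) := SGN_neg_ne h4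
  have e5 : -v ≠ r • v := fun h => h3 h.symm
  have e6 : -v ≠ -(r • v) := fun h => h2 (neg_injective h).symm
  have e4 : v ≠ -(r • v) := fun h => h3 (by
    have := congrArg Neg.neg h
    rw [neg_neg] at this
    exact this.symm)
  refine ⟨(S.count v : ℚ) - S.count (-v), (S.count (r • v) : ℚ) - S.count (-(r • v)), ?_, ?_⟩
  · have hsum := Finset.sum_multiset_count_of_subset S ({v, -v, r • v, -(r • v)} : Finset U) (by
      intro u hu
      have := hS u (Multiset.mem_toFinset.1 hu)
      simpa using this)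
    rw [Finset.sum_insert (by simp [h1, Ne.symm h2, e4]), Finset.sum_insert (by simp [e5, e6]),
      Finset.sum_insert (by simpa using h5), Finset.sum_singleton] at hsum
    rw [hsum, ← Nat.cast_smul_eq_nsmul ℚ, ← Nat.cast_smul_eq_nsmul ℚ, ← Nat.cast_smul_eq_nsmul ℚ,
      ← Nat.cast_smul_eq_nsmul ℚ]
    generalize Multiset.count (r • v) S = c1
    generalize Multiset.count (-(r • v)) S = c2
    generalize r • v = z
    module
  · intro hnp hne
    obtain ⟨u, hu⟩ := Multiset.exists_mem_of_ne_zero hne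
    have hc := Multiset.count_pos.2 hu
    have key : ∀ z : U, z ≠ 0 → z ∈ S → S.count (-z) = 0 := fun z hz hm =>
      Multiset.count_eq_zero_of_notMem (SGN_notMem hnp hm hz)
    have hpos : ∀ z : U, z ∈ S → (0 : ℚ) < S.count z := fun z hz => by
      exact_mod_cast Multiset.count_pos.2 hz
    rcases hS u hu with rfl | rfl | rfl | rfl
    · left
      have := hpos _ hu
      rw [key _ h0 hu]
      intro h
      push_cast at h
      linarith
    · left
      have h7 := hpos _ hu
      have h8 := key _ (neg_ne_zero.2 h0) hu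
      rw [neg_neg] at h8
      rw [h8]
      intro h
      push_cast at h
      linarith
    · right
      have := hpos _ hu
      rw [key _ h4 hu]
      intro h
      push_cast at h
      linarith
    · right
      have h7 := hpos _ hu
      have h8 := key _ (neg_ne_zero.2 h4) hu
      rw [neg_neg] at h8
      rw [h8]
      intro h
      push_cast at h
      linarith

/-- the weights are `0`, `1`, `-1` -/
theorem TW4_ht (K : Core G U) {V : Finset U} (hV : IsOrb K V 1) {v : U} {r : G} (hv : v ∈ V)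
    (hall : ∀ u ∈ V, u = v ∨ u = -v ∨ u = r • v ∨ u = -(r • v)) :
    ∀ u ∈ V, K.w u = 0 ∨ K.w u = 1 ∨ K.w u = -1 := by
  classical
  intro u hu
  have hoV : ∀ z ∈ orb K.D u, z ∈ V := by
    rintro z ⟨d, _, rfl⟩
    exact hV.stable d u hu
  have hw : ∀ z ∈ orb K.D u, K.w z = K.w u := by
    rintro z ⟨d, hd, rfl⟩
    exact K.wD d hd u
  by_cases hop : ∃ z ∈ orb K.D u, -z ∈ orb K.D u
  · obtain ⟨z, hz1, hz2⟩ := hop
    have h1 := hw z hz1
    have h2 := hw _ hz2
    rw [map_neg] at h2
    left
    linarith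
  · have hno : ∀ z ∈ orb K.D u, -z ∉ orb K.D u := fun z h1 h2 => hop ⟨z, h1, h2⟩
    obtain ⟨e1, he1⟩ : ∃ e1 : U, ∀ z ∈ orb K.D u, z = v ∨ z = -v → z = e1 := by
      by_cases h : v ∈ orb K.D u
      · refine ⟨v, fun z hz h' => ?_⟩
        rcases h' with h' | h'
        · exact h'
        · exact absurd (h' ▸ hz) (hno v h)
      · refine ⟨-v, fun z hz h' => ?_⟩
        rcases h' with h' | h'
        · exact absurd (h' ▸ hz) h
        · exact h'
    obtain ⟨e2, he2⟩ : ∃ e2 : U, ∀ z ∈ orb K.D u, z = r • v ∨ z = -(r • v) → z = e2 := by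
      by_cases h : r • v ∈ orb K.D u
      · refine ⟨r • v, fun z hz h' => ?_⟩
        rcases h' with h' | h'
        · exact h'
        · exact absurd (h' ▸ hz) (hno _ h)
      · refine ⟨-(r • v), fun z hz h' => ?_⟩
        rcases h' with h' | h'
        · exact absurd (h' ▸ hz) h
        · exact h'
    have hsub : orb K.D u ⊆ (({e1, e2} : Finset U) : Set U) := by
      intro z hz
      rw [Finset.coe_insert, Finset.coe_singleton]
      rcases hall z (hoV z hz) with h | h | h | h
      · exact Or.inl (he1 z hz (Or.inl h))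
      · exact Or.inl (he1 z hz (Or.inr h))
      · exact Or.inr (he2 z hz (Or.inl h))
      · exact Or.inr (he2 z hz (Or.inr h))
    have hle : (orb K.D u).ncard ≤ 2 := by
      refine (Set.ncard_le_ncard hsub (Finset.finite_toSet _)).trans ?_
      rw [Set.ncard_coe_finset]
      exact Finset.card_le_two
    have hge : 0 < (orb K.D u).ncard := by
      rw [Set.ncard_pos ((Finset.finite_toSet _).subset hsub)]
      exact ⟨u, 1, K.D.one_mem, (one_smul G u).symm⟩
    obtain ⟨n, hn⟩ := hV.ht u hu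
    have hab := abs_le.1 (hV.le_one u hu)
    rw [one_mul] at hn
    have h12 : (orb K.D u).ncard = 1 ∨ (orb K.D u).ncard = 2 := by omega
    rcases h12 with h | h
    · rw [h, Nat.cast_one, one_mul] at hn
      have hn1 : n < 2 := by
        have : (n : ℝ) < 2 := by linarith
        exact_mod_cast this
      interval_cases n
      · right; right; push_cast at hn; linarith
      · right; left; push_cast at hn; linarith
    · rw [h] at hn
      push_cast at hn
      have hn1 : n < 3 := by
        have : (n : ℝ) < 3 := by linarith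
        exact_mod_cast this
      interval_cases n
      · right; right; push_cast at hn; linarith
      · left; push_cast at hn; linarith
      · right; left; push_cast at hn; linarith

/-- `w` is not zero on `V` -/
theorem TW4_nz (K : Core G U) {V : Finset U} (hV : IsOrb K V 1) {v : U} {r : G} (hv : v ∈ V)
    (hall : ∀ u ∈ V, u = v ∨ u = -v ∨ u = r • v ∨ u = -(r • v)) :
    K.w v ≠ 0 ∨ K.w (r • v) ≠ 0 := by
  by_contra h
  push Not at h
  apply hV.nz v hv
  apply K.kron
  intro g
  rcases hall _ (hV.stable g v hv) with e | e | e | e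
  · rw [e]; exact h.1
  · rw [e, map_neg, h.1, neg_zero]
  · rw [e]; exact h.2
  · rw [e, map_neg, h.2, neg_zero]

/-- injectivity of `phi` -/
theorem TW4_inj (K : Core G U) {v y : U} {r : G} (hr : r • (r • v) = -v)
    (hw : K.w v ≠ 0 ∨ K.w (r • v) ≠ 0) {N A B : ℚ} (hN : N ≠ 0)
    (hy : N • y = A • v + B • (r • v)) (i j : ℚ) (h1 : K.w y = i * K.w v + j * K.w (r • v))
    (h2 : K.w (r • y) = i * K.w (r • v) - j * K.w v) : y = i • v + j • (r • v) := by
  have h3 : (N : ℝ) * K.w y = A * K.w v + B * K.w (r • v) := by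
    rw [← TW4_w, hy, map_add, TW4_w, TW4_w]
  have h4 : (N : ℝ) * K.w (r • y) = A * K.w (r • v) - B * K.w v := by
    rw [← TW4_w, ← TW4_smul, hy, smul_add, TW4_smul, TW4_smul, hr, map_add, TW4_w, TW4_w, map_neg]
    ring
  have hpos : K.w v ^ 2 + K.w (r • v) ^ 2 ≠ 0 := by
    intro h
    rcases hw with hw | hw
    · apply hw
      nlinarith [sq_nonneg (K.w v), sq_nonneg (K.w (r • v))]
    · apply hw
      nlinarith [sq_nonneg (K.w v), sq_nonneg (K.w (r • v))]
  rw [h1] at h3
  rw [h2] at h4
  have hA : A = N * i := by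
    have h5 : ((A : ℝ) - N * i) * (K.w v ^ 2 + K.w (r • v) ^ 2) = 0 := by
      linear_combination (-K.w v) * h3 + (-K.w (r • v)) * h4
    have h6 := (mul_eq_zero.1 h5).resolve_right hpos
    have h7 : (A : ℝ) = ((N * i : ℚ) : ℝ) := by
      push_cast
      linarith
    exact_mod_cast h7
  have hB : B = N * j := by
    have h5 : ((B : ℝ) - N * j) * (K.w v ^ 2 + K.w (r • v) ^ 2) = 0 := by
      linear_combination (-K.w (r • v)) * h3 + (K.w v) * h4
    have h6 := (mul_eq_zero.1 h5).resolve_right hpos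
    have h7 : (B : ℝ) = ((N * j : ℚ) : ℝ) := by
      push_cast
      linarith
    exact_mod_cast h7
  have h8 : N • y = N • (i • v + j • (r • v)) := by
    rw [hy, hA, hB]
    generalize r • v = z
    module
  have h9 := congrArg (fun z => N⁻¹ • z) h8
  simp only [smul_smul, inv_mul_cancel₀ hN, one_smul] at h9
  exact h9

/-- a relation between the two planes -/
theorem TW4_rel {v y : U} {r : G} (hv : r • (r • v) = -v) (hy : r • (r • y) = -y) {a b c d : ℚ}
    (h : a • v + b • (r • v) + (c • y + d • (r • y)) = 0) :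
    (c ^ 2 + d ^ 2) • y = (-(c * a) - d * b) • v + (d * a - c * b) • (r • v) := by
  have h' : a • (r • v) - b • v + (c • (r • y) - d • y) = 0 := by
    have h1 : r • (a • v + b • (r • v) + (c • y + d • (r • y))) = 0 := by rw [h, smul_zero]
    rw [smul_add, smul_add, smul_add, TW4_smul, TW4_smul, TW4_smul, TW4_smul, hv, hy] at h1
    rw [← h1]
    generalize r • v = z
    generalize r • y = z'
    module
  have h2 : (c ^ 2 + d ^ 2) • y = (-(c * a) - d * b) • v + (d * a - c * b) • (r • v) +
      (c • (a • v + b • (r • v) + (c • y + d • (r • y))) -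
        d • (a • (r • v) - b • v + (c • (r • y) - d • y))) := by
    generalize r • v = z
    generalize r • y = z'
    module
  rw [h2, h, h', smul_zero, smul_zero, sub_zero, add_zero]

/-- the end: `V` of the second kind, `V'` of the first kind -/
theorem TW4_end (K : Core G U) {V V' : Finset U} (hc : V.card = 4) (hc' : V'.card = 4)
    {v y : U} {r : G} (hv : r • (r • v) = -v) (hy : r • (r • y) = -y)
    (hall : ∀ u ∈ V, u = v ∨ u = -v ∨ u = r • v ∨ u = -(r • v))
    (hall' : ∀ u ∈ V', u = y ∨ u = -y ∨ u = r • y ∨ u = -(r • y)) {i j : ℚ}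
    (hi : i = 1 ∨ i = -1) (hj : j = 1 ∨ j = -1) (h : y = i • v + j • (r • v)) :
    V.val + V'.val = {v, -v, r • v, -(r • v), v + r • v, -(v + r • v), v - r • v, -(v - r • v)} := by
  have hV : V.val = {v, -v, r • v, -(r • v)} := by
    apply Multiset.eq_of_le_of_card_le
    · rw [Multiset.le_iff_subset V.nodup]
      intro u hu
      simpa using hall u hu
    · simp [hc]
  have hry : r • y = i • (r • v) - j • v := by
    rw [h, smul_add, TW4_smul, TW4_smul, hv]
    generalize r • v = z
    module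
  have hV' : V'.val = {v + r • v, -(v + r • v), v - r • v, -(v - r • v)} := by
    apply Multiset.eq_of_le_of_card_le
    · rw [Multiset.le_iff_subset V'.nodup]
      intro u hu
      have h1 := hall' u hu
      rw [hry, h] at h1
      simp only [Multiset.insert_eq_cons, Multiset.mem_cons, Multiset.mem_singleton]
      rcases hi with rfl | rfl <;> rcases hj with rfl | rfl <;>
        simp only [one_smul, neg_smul] at h1 <;> rcases h1 with h1 | h1 | h1 | h1
      · left; rw [h1]
      · right; left; rw [h1]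
      · right; right; right; rw [h1]; abel
      · right; right; left; rw [h1]; abel
      · right; right; left; rw [h1]; abel
      · right; right; right; rw [h1]; abel
      · left; rw [h1]; abel
      · right; left; rw [h1]; abel
      · right; right; right; rw [h1]; abel
      · right; right; left; rw [h1]; abel
      · right; left; rw [h1]; abel
      · left; rw [h1]; abel
      · right; left; rw [h1]; abel
      · left; rw [h1]; abel
      · right; right; left; rw [h1]; abel
      · right; right; right; rw [h1]; abel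
    · simp [hc']
  rw [hV, hV']
  rfl

/-- one of the two kinds is of the second kind -/
theorem TW4_fin (K : Core G U) {V V' : Finset U} (hV : IsOrb K V 1) (hV' : IsOrb K V' 1)
    (hc : V.card = 4) (hc' : V'.card = 4) (hd : ∀ v ∈ V, v ∉ V')
    {v y : U} {r : G} (hvV : v ∈ V) (hyV : y ∈ V') (hv : r • (r • v) = -v)
    (hy : r • (r • y) = -y)
    (hall : ∀ u ∈ V, u = v ∨ u = -v ∨ u = r • v ∨ u = -(r • v))
    (hall' : ∀ u ∈ V', u = y ∨ u = -y ∨ u = r • y ∨ u = -(r • y))
    {N A B : ℚ} (hN : N ≠ 0) (hNy : N • y = A • v + B • (r • v))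
    (hk : K.w v = 0 ∨ K.w (r • v) = 0 ∨ (K.w y ≠ 0 ∧ K.w (r • y) ≠ 0)) : ExcV4 (V.val + V'.val) := by
  have hneg : ∀ v ∈ V, -v ∈ V := by
    intro v hv
    have := hV.stable K.c0 v hv
    rwa [K.cc v] at this
  have hnz := TW4_nz K hV hvV hall
  have hnz' := TW4_nz K hV' hyV hall'
  have hrv := hV.stable r v hvV
  have hry := hV'.stable r y hyV
  have inj := TW4_inj K hv hnz hN hNy
  have hno : ∀ i j : ℚ, (i = 1 ∧ j = 0) ∨ (i = -1 ∧ j = 0) ∨ (i = 0 ∧ j = 1) ∨
      (i = 0 ∧ j = -1) → y ≠ i • v + j • (r • v) := by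
    intro i j hij h
    apply hd y _ hyV
    rcases hij with ⟨rfl, rfl⟩ | ⟨rfl, rfl⟩ | ⟨rfl, rfl⟩ | ⟨rfl, rfl⟩
    · rw [h, one_smul, zero_smul, add_zero]; exact hvV
    · rw [h, neg_smul, one_smul, zero_smul, add_zero]; exact hneg _ hvV
    · rw [h, one_smul, zero_smul, zero_add]; exact hrv
    · rw [h, neg_smul, one_smul, zero_smul, zero_add]; exact hneg _ hrv
  have fin : ∀ i j : ℚ, i = 1 ∨ i = -1 → j = 1 ∨ j = -1 →
      y = i • v + j • (r • v) → ExcV4 (V.val + V'.val) := fun i j hi hj h =>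
    ⟨v, r • v, TW4_end K hc hc' hv hy hall hall' hi hj h⟩
  have a1 := TW4_ht K hV hvV hall v hvV
  have a2 := TW4_ht K hV hvV hall _ hrv
  have b1 := TW4_ht K hV' hyV hall' y hyV
  have b2 := TW4_ht K hV' hyV hall' _ hry
  rcases a1 with a1 | a1 | a1 <;> rcases a2 with a2 | a2 | a2 <;>
    rcases b1 with b1 | b1 | b1 <;> rcases b2 with b2 | b2 | b2 <;>
    rw [a1, a2, b1, b2] at inj <;>
    first
    | (exfalso; rcases hnz with h | h <;> [exact h a1; exact h a2])
    | (exfalso; rcases hnz' with h | h <;> [exact h b1; exact h b2])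
    | (refine absurd (inj 1 0 ?_ ?_) (hno 1 0 ?_) <;> (norm_num; done))
    | (refine absurd (inj (-1) 0 ?_ ?_) (hno (-1) 0 ?_) <;> (norm_num; done))
    | (refine absurd (inj 0 1 ?_ ?_) (hno 0 1 ?_) <;> (norm_num; done))
    | (refine absurd (inj 0 (-1) ?_ ?_) (hno 0 (-1) ?_) <;> (norm_num; done))
    | (refine fin 1 1 ?_ ?_ (inj 1 1 ?_ ?_) <;> (norm_num; done))
    | (refine fin 1 (-1) ?_ ?_ (inj 1 (-1) ?_ ?_) <;> (norm_num; done))
    | (refine fin (-1) 1 ?_ ?_ (inj (-1) 1 ?_ ?_) <;> (norm_num; done))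
    | (refine fin (-1) (-1) ?_ ?_ (inj (-1) (-1) ?_ ?_) <;> (norm_num; done))
    | (exfalso; rcases hk with h | h | ⟨h, h'⟩ <;>
        [(rw [a1] at h; norm_num at h); (rw [a2] at h; norm_num at h);
          first | exact h b1 | exact h' b2])

end

theorem p_TW4 (hOFS : Stmt_OFS) (hOF4 : Stmt_OF4) : Stmt_TW4 := by
  classical
  intro G U _ _ _ _ K R hR hcard x hx y hy hx0 hy0 hxc hyc hxy S hS hsum hnp hne
  obtain ⟨V, hVo, hVm, hVR, _, hVc⟩ := hOFS G U K R hR hcard x hx hx0
  obtain ⟨V', hVo', hVm', hVR', _, hVc'⟩ := hOFS G U K R hR hcard y hy hy0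
  rw [hxc] at hVc
  rw [hyc] at hVc'
  have hd : ∀ v ∈ V, v ∉ V' := EQG_disj hVm hVm' (fun h => hxy ((hVm y).1 h))
  have hle := EQG_le (R := R) (m := cnt x R) (m' := cnt y R)
    (fun v hv => by rw [← EQG_cnt]; exact (hVR v hv).2)
    (fun v hv => by rw [← EQG_cnt]; exact (hVR' v hv).2) hd
  have hcl := Multiset.card_le_card hle
  rw [Multiset.card_add, Multiset.card_nsmul, Multiset.card_nsmul, Finset.card_val,
    Finset.card_val, ← hVc, ← hVc'] at hcl
  have hp := hVo.m_pos
  have hp' := hVo'.m_pos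
  have hm : cnt x R = 1 := by omega
  have hm' : cnt y R = 1 := by omega
  rw [hm] at hVo hle
  rw [hm'] at hVo' hle
  rw [one_nsmul, one_nsmul] at hle
  have hRV : V.val + V'.val = R := by
    apply Multiset.eq_of_le_of_card_le hle
    rw [Multiset.card_add, Finset.card_val, Finset.card_val, ← hVc, ← hVc']
    exact hcard
  obtain ⟨v, r, hvV, hrv⟩ := TW4_rot hOF4 K V hVo hVc.symm
  obtain ⟨z, r', hzV, hrz⟩ := TW4_rot hOF4 K V' hVo' hVc'.symm
  have hall := TW4_cov K hVo.stable hVc.symm hvV (hVo.nz v hvV) hrv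
  have hallz := TW4_cov K hVo'.stable hVc'.symm hzV (hVo'.nz z hzV) hrz
  have hv0 := hVo.nz v hvV
  have hz0 := hVo'.nz z hzV
  obtain ⟨S1, S2, hSS, hS1, hS2⟩ : ∃ S1 S2 : Multiset U, S1 + S2 = S ∧ (∀ u ∈ S1, u ∈ V) ∧
      (∀ u ∈ S2, u ∈ V') := by
    refine ⟨S.filter (· ∈ V), S.filter (fun u => ¬ u ∈ V), Multiset.filter_add_not _ S, ?_, ?_⟩
    · intro u hu
      exact (Multiset.mem_filter.1 hu).2
    · intro u hu
      obtain ⟨h1, h2⟩ := Multiset.mem_filter.1 hu
      have h3 := (hS u h1).1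
      rw [← hRV, Multiset.mem_add] at h3
      exact h3.resolve_left h2
  have hnp1 : NoPair S1 := EQG_mono (by rw [← hSS]; exact Multiset.le_add_right _ _) hnp
  have hnp2 : NoPair S2 := EQG_mono (by rw [← hSS]; exact Multiset.le_add_left _ _) hnp
  obtain ⟨a, b, hab, hab'⟩ := TW4_sum hv0 hrv S1 (fun u hu => hall u (hS1 u hu))
  obtain ⟨c', d', hcd, hcd'⟩ := TW4_sum hz0 hrz S2 (fun u hu => hallz u (hS2 u hu))
  rw [← hSS, Multiset.sum_add] at hsum
  have hS2ne : S2.sum ≠ 0 := by
    intro h0
    have h1 : S2 = 0 := by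
      by_contra hne2
      have h3 := TW4_ind hz0 hrz (hcd.symm.trans h0)
      rcases hcd' hnp2 hne2 with h4 | h4
      · exact h4 h3.1
      · exact h4 h3.2
    have h2 : S1 = 0 := by
      by_contra hne1
      rw [h0, add_zero] at hsum
      have h3 := TW4_ind hv0 hrv (hab.symm.trans hsum)
      rcases hab' hnp1 hne1 with h4 | h4
      · exact h4 h3.1
      · exact h4 h3.2
    exact hne (by rw [← hSS, h1, h2, add_zero])
  have hrr : r • (r • S2.sum) = -S2.sum := by
    have h1 : S2.sum = -S1.sum := (neg_eq_of_add_eq_zero_right hsum).symm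
    rw [h1, hab, smul_neg, smul_neg, smul_add, smul_add, TW4_smul, TW4_smul, TW4_smul, TW4_smul,
      hrv, smul_neg, smul_neg, smul_neg]
    abel
  have inj : ∀ (a b : U), r • a = r • b → a = b := fun a b h => smul_left_cancel r h
  have hz1 : z ≠ -z := SGN_neg_ne hz0
  have hz2 : r' • z ≠ z := by
    intro h
    rw [h, h] at hrz
    exact hz1 hrz
  have hz3 : r' • z ≠ -z := by
    intro h
    rw [h, smul_neg, h, neg_neg] at hrz
    exact hz1 hrz
  have hrz' : r • (r • z) = -z := by
    have hno : ¬ (r • (r • z) = z ∧ r • (r • (r' • z)) = r' • z) := by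
      rintro ⟨e1, e2⟩
      rw [hcd, smul_add, smul_add, TW4_smul, TW4_smul, TW4_smul, TW4_smul, e1, e2, ← hcd] at hrr
      exact hS2ne (by
        by_contra h
        exact SGN_neg_ne h hrr)
    rcases hallz _ (hVo'.stable r z hzV) with e | e | e | e <;>
      rcases hallz _ (hVo'.stable r _ (hVo'.stable r' z hzV)) with f | f | f | f
    · exact absurd (inj _ _ (f.trans e.symm)) hz2
    · exact absurd (inj (r' • z) (-z) (by rw [f, smul_neg, e])) hz3
    · exact absurd ⟨by rw [e, e], by rw [f, f]⟩ hno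
    · exact absurd ⟨by rw [e, e], by rw [f, smul_neg, f, neg_neg]⟩ hno
    · exact absurd (inj (r' • z) (-z) (by rw [f, smul_neg, e, neg_neg])) hz3
    · exact absurd (inj _ _ (f.trans e.symm)) hz2
    · exact absurd ⟨by rw [e, smul_neg, e, neg_neg], by rw [f, f]⟩ hno
    · exact absurd ⟨by rw [e, smul_neg, e, neg_neg], by rw [f, smul_neg, f, neg_neg]⟩ hno
    · exact absurd ⟨by rw [e, f], by rw [f, e]⟩ hno
    · rw [e, f]
    · exact absurd (inj _ _ (f.trans e.symm)) hz2
    · exact absurd (inj (r' • z) (-z) (by rw [f, smul_neg, e])) hz3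
    · rw [e, smul_neg, f]
    · exact absurd ⟨by rw [e, smul_neg, f, neg_neg], by rw [f, smul_neg, e, neg_neg]⟩ hno
    · exact absurd (inj (r' • z) (-z) (by rw [f, smul_neg, e, neg_neg])) hz3
    · exact absurd (inj _ _ (f.trans e.symm)) hz2
  have hallz' := TW4_cov K hVo'.stable hVc'.symm hzV hz0 hrz'
  obtain ⟨c, d, hcd2, _⟩ := TW4_sum hz0 hrz' S2 (fun u hu => hallz' u (hS2 u hu))
  rw [hab, hcd2] at hsum
  have hrel1 := TW4_rel hrv hrz' hsum
  rw [add_comm] at hsum
  have hrel2 := TW4_rel hrz' hrv hsum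
  have hN1 : c ^ 2 + d ^ 2 ≠ 0 := by
    intro h
    have h1 : c = 0 := by nlinarith [sq_nonneg c, sq_nonneg d]
    have h2 : d = 0 := by nlinarith [sq_nonneg c, sq_nonneg d]
    apply hS2ne
    rw [hcd2, h1, h2, zero_smul, zero_smul, add_zero]
  have hN2 : a ^ 2 + b ^ 2 ≠ 0 := by
    intro h
    have h1 : a = 0 := by nlinarith [sq_nonneg a, sq_nonneg b]
    have h2 : b = 0 := by nlinarith [sq_nonneg a, sq_nonneg b]
    apply hS2ne
    rw [hcd2]
    rw [h1, h2, zero_smul, zero_smul, add_zero, add_zero] at hsum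
    exact hsum
  have hd' : ∀ u ∈ V', u ∉ V := fun u h1 h2 => hd u h2 h1
  by_cases hk : K.w v = 0 ∨ K.w (r • v) = 0 ∨ (K.w z ≠ 0 ∧ K.w (r • z) ≠ 0)
  · rw [← hRV]
    exact TW4_fin K hVo hVo' hVc.symm hVc'.symm hd hvV hzV hrv hrz' hall hallz' hN1 hrel1 hk
  · rw [← hRV, add_comm]
    refine TW4_fin K hVo' hVo hVc'.symm hVc.symm hd' hzV hvV hrz' hrv hallz' hall hN2 hrel2 ?_
    push Not at hk
    exact Or.inr (Or.inr ⟨hk.1, hk.2.1⟩)

end Pool.T4
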