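import Pool.Agent.Work.MP_223b32_t4.Interface

namespace Pool.T4

theorem UME_norm_p {p : ℕ} [hp : Fact p.Prime] : ‖((p : ℕ) : PadicAlgCl p)‖ = (p : ℝ)⁻¹ := by
  have h1 := PadicAlgCl.norm_extends p ((p : ℕ) : ℚ_[p])
  rw [Padic.norm_p] at h1
  rw [← h1]
  congr 1

theorem UME_norm_q {p : ℕ} [hp : Fact p.Prime] (a : ℕ) (ι : Qb →+* PadicAlgCl p) :
    ‖ι (((p ^ a : ℕ)) : Qb)‖ = (((p ^ a : ℕ) : ℝ))⁻¹ := by
  rw [map_natCast, Nat.cast_pow, norm_pow, UME_norm_p, inv_pow, Nat.cast_pow]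

/-- integral elements have norm at most one -/
theorem UME_integral {p : ℕ} [hp : Fact p.Prime] (y : PadicAlgCl p) (hy : IsIntegral ℤ y) :
    ‖y‖ ≤ 1 := by
  let A : ValuationSubring (PadicAlgCl p) := (Valued.v (R := PadicAlgCl p)).valuationSubring
  have h1 : IsIntegral A y := hy.tower_top
  obtain ⟨z, hz⟩ := IsIntegrallyClosed.isIntegral_iff.1 h1
  have h2 : Valued.v (y : PadicAlgCl p) ≤ 1 := by
    rw [← hz]
    exact z.2
  rw [← PadicAlgCl.valuation_coe]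
  exact_mod_cast h2

theorem UME_mul_conj {q : ℕ} {x : Qb} (hx : Weil q x) {ρ : Qb →+* ℂ} {c : GQ} (hc : IsConj c ρ) :
    c x * x = (q : Qb) := by
  apply ρ.injective
  rw [map_mul, hc x, map_natCast]
  have h := hx.2 ρ
  rw [mul_comm, Complex.mul_conj]
  rw [← Complex.sq_norm]
  exact_mod_cast h

theorem p_UME (hC : Stmt_CCJ) (hR : Stmt_RHO) : Stmt_UME := by
  intro p _ a ι ha x hx
  obtain ⟨ρ0⟩ := hR
  obtain ⟨c0, hc0⟩ := hC ρ0
  have hp1 : 1 < p := (Fact.out (p := p.Prime)).one_lt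
  have hq1 : (1 : ℝ) < ((p ^ a : ℕ) : ℝ) := by
    rw [Nat.cast_pow]
    exact one_lt_pow₀ (by exact_mod_cast hp1) ha.ne'
  have hq0 : (0 : ℝ) < ((p ^ a : ℕ) : ℝ) := by linarith
  have hqne : ((p ^ a : ℕ) : Qb) ≠ 0 := by
    have : (p ^ a : ℕ) ≠ 0 := pow_ne_zero _ (by omega)
    exact_mod_cast this
  have hx0 : x ≠ 0 := by
    intro h
    have h1 := UME_mul_conj hx hc0
    rw [h, mul_zero] at h1
    exact hqne h1.symm
  have hgx : ∀ g : GQ, (0 : ℝ) < ‖ι (g x)‖ := by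
    intro g
    rw [norm_pos_iff]
    intro h
    have h1 : g x = 0 := by
      apply ι.injective
      rw [h, map_zero]
    exact hx0 (by simpa using h1)
  have hsum : ∀ (ρ : Qb →+* ℂ) (c : GQ), IsConj c ρ → ∀ g : GQ,
      Real.logb ((p ^ a : ℕ) : ℝ) ‖ι ((g * c) x)‖ + Real.logb ((p ^ a : ℕ) : ℝ) ‖ι (g x)‖ = -1 := by
    intro ρ c hc g
    rw [← Real.logb_mul (hgx (g * c)).ne' (hgx g).ne', ← norm_mul, ← map_mul, AlgEquiv.mul_apply,
      ← map_mul, UME_mul_conj hx hc, map_natCast g (p ^ a), UME_norm_q, Real.logb_inv,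
      Real.logb_self_eq_one hq1]
  have hle : ∀ g : GQ, Real.logb ((p ^ a : ℕ) : ℝ) ‖ι (g x)‖ ≤ 0 := by
    intro g
    have h1 : IsIntegral ℤ (ι (g x)) := by
      have h2 : IsIntegral ℤ (g x) := hx.1.map (g : Qb →+* Qb).toIntAlgHom
      exact h2.map ι.toIntAlgHom
    exact (Real.logb_nonpos_iff hq1 (hgx g)).2 (UME_integral _ h1)
  refine ⟨⟨?_, ?_⟩, ?_, ?_⟩
  · intro d hd g
    show -2 * Real.logb ((p ^ a : ℕ) : ℝ) ‖ι ((d * g) x)‖ - 1 = _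
    rw [AlgEquiv.mul_apply, hd (g x)]
    rfl
  · intro ρ c hc g
    have h := hsum ρ c hc g
    show -2 * Real.logb ((p ^ a : ℕ) : ℝ) ‖ι ((g * c) x)‖ - 1 =
      -(-2 * Real.logb ((p ^ a : ℕ) : ℝ) ‖ι (g x)‖ - 1)
    linarith
  · intro g
    have h := hsum ρ0 c0 hc0 g
    have h1 := hle g
    have h2 := hle (g * c0)
    show |-2 * Real.logb ((p ^ a : ℕ) : ℝ) ‖ι (g x)‖ - 1| ≤ 1
    rw [abs_le]
    constructor <;> linarith
  · intro g M n
    show _ ↔ (M : ℝ) * (-2 * Real.logb ((p ^ a : ℕ) : ℝ) ‖ι (g x)‖ - 1 + 1) = 2 * n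
    have hpos : (0 : ℝ) < ‖ι (g x)‖ ^ M * ((p ^ a : ℕ) : ℝ) ^ n :=
      mul_pos (pow_pos (hgx g) _) (pow_pos hq0 _)
    have hlog : Real.logb ((p ^ a : ℕ) : ℝ) (‖ι (g x)‖ ^ M * ((p ^ a : ℕ) : ℝ) ^ n) =
        M * Real.logb ((p ^ a : ℕ) : ℝ) ‖ι (g x)‖ + n := by
      rw [Real.logb_mul (pow_pos (hgx g) _).ne' (pow_pos hq0 _).ne', Real.logb_pow, Real.logb_pow,
        Real.logb_self_eq_one hq1, mul_one]
    constructor
    · intro h
      rw [h, Real.logb_one] at hlog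
      linarith
    · intro h
      have h1 : Real.logb ((p ^ a : ℕ) : ℝ) (‖ι (g x)‖ ^ M * ((p ^ a : ℕ) : ℝ) ^ n) = 0 := by
        rw [hlog]; linarith
      rcases Real.logb_eq_zero.1 h1 with h2 | h2 | h2 | h2 | h2 | h2 <;> first | exact h2 | linarith

end Pool.T4
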