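import Pool.Agent.Work.MP_223b32_t4.Interface

/-! # Block VOR -/

set_option autoImplicit false

namespace Pool.T4

open Pool.Agent.Work.MP_223b32_ag

section

variable {G U : Type} [Group G] [AddCommGroup U] [Module ℚ U] [DistribMulAction G U]

theorem VOR_cnt (g : G) (J : Multiset U) (h : tr g J = J) (v : U) :
    cnt (g • v) J = cnt v J := by
  classical
  unfold cnt
  have h1 := Multiset.count_map_eq_count' (fun v : U => g • v) J (MulAction.injective g) v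
  have h2 : (J.map fun v : U => g • v) = J := h
  rw [h2] at h1
  exact h1

theorem VOR_pure (K : Core G U) (J : Multiset U) (hR : IsR K J) (hcard : J.card ≤ 8) (v0 : U)
    (hv0 : v0 ∈ J) (hv1 : v0 ≠ 0)
    (htr : ∀ u ∈ J, ∀ v ∈ J, u ≠ 0 → v ≠ 0 → ∃ g : G, g • u = v) :
    ∃ (V : Finset U) (m : ℕ), IsOrb K V m ∧ (∀ v, v ∈ V ↔ v ≠ 0 ∧ v ∈ J) ∧
      (∀ v ∈ V, cnt v J = m) := by
  classical
  have hmem : ∀ v, v ∈ J.toFinset.filter (fun v => v ≠ 0) ↔ v ≠ 0 ∧ v ∈ J := by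
    intro v
    rw [Finset.mem_filter, Multiset.mem_toFinset, and_comm]
  have hcnt : ∀ v ∈ J.toFinset.filter (fun v => v ≠ 0), cnt v J = cnt v0 J := by
    intro v hv
    obtain ⟨h1, h2⟩ := (hmem v).1 hv
    obtain ⟨g, rfl⟩ := htr v0 hv0 v h2 hv1 h1
    exact VOR_cnt g J (hR.stable g) v0
  refine ⟨J.toFinset.filter (fun v => v ≠ 0), cnt v0 J, ?_, hmem, hcnt⟩
  refine
    { ne := ⟨v0, (hmem v0).2 ⟨hv1, hv0⟩⟩
      nz := fun v hv => ((hmem v).1 hv).1
      stable := ?_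
      trans := ?_
      m_pos := ?_
      card := ?_
      le_one := fun v hv => hR.le_one v ((hmem v).1 hv).2
      ht := ?_ }
  · intro g v hv
    obtain ⟨h1, h2⟩ := (hmem v).1 hv
    refine (hmem _).2 ⟨?_, ?_⟩
    · intro h
      apply h1
      have h3 : g⁻¹ • (g • v) = g⁻¹ • (0 : U) := by rw [h]
      rwa [inv_smul_smul, smul_zero] at h3
    · have h3 : g • v ∈ tr g J := Multiset.mem_map_of_mem _ h2
      rwa [hR.stable g] at h3
  · intro u hu v hv
    obtain ⟨h1, h2⟩ := (hmem u).1 hu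
    obtain ⟨h3, h4⟩ := (hmem v).1 hv
    exact htr u h2 v h4 h1 h3
  · unfold cnt
    exact Multiset.count_pos.2 hv0
  · have h1 : ∑ v ∈ J.toFinset.filter (fun v => v ≠ 0), cnt v J =
        (J.toFinset.filter (fun v => v ≠ 0)).card * cnt v0 J := by
      rw [Finset.sum_congr rfl hcnt, Finset.sum_const, smul_eq_mul]
    have h2 : ∑ v ∈ J.toFinset.filter (fun v => v ≠ 0), cnt v J ≤ ∑ v ∈ J.toFinset, cnt v J :=
      Finset.sum_le_sum_of_subset (Finset.filter_subset _ _)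
    have h3 : ∑ v ∈ J.toFinset, cnt v J = J.card := Multiset.toFinset_sum_count_eq J
    rw [mul_comm, ← h1]
    omega
  · intro v hv
    obtain ⟨n, hn⟩ := hR.ht v ((hmem v).1 hv).2
    refine ⟨n, ?_⟩
    rw [hcnt v hv] at hn
    exact hn

end

theorem p_VOR (hHTC : Stmt_HTC) : Stmt_VOR := by
  intro p _ a ι ρ c hc ha hD R hAV hcard hx htr
  obtain ⟨x0, hx0, hx1⟩ := hx
  refine VOR_pure (coreU ι ρ c hc) (R.map (uu (p ^ a) ι)) (hHTC p a ι ρ c hc ha hD R hAV)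
    (by rwa [Multiset.card_map]) (uu (p ^ a) ι x0) (Multiset.mem_map_of_mem _ hx0)
    (fun h => hx1 ((hD.ss x0 (hAV.weil x0 hx0)).2 h)) ?_
  intro u hu v hv hu0 hv0
  obtain ⟨x, hxR, rfl⟩ := Multiset.mem_map.1 hu
  obtain ⟨y, hyR, rfl⟩ := Multiset.mem_map.1 hv
  have hwx := hAV.weil x hxR
  have hwy := hAV.weil y hyR
  rcases htr x hxR y hyR with h | h | ⟨g, hg⟩
  · exact absurd ((hD.ss x hwx).1 h) hu0
  · exact absurd ((hD.ss y hwy).1 h) hv0
  · refine ⟨g, ?_⟩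
    rw [← hD.smul x hwx g]
    exact (hD.sim (g x) y (hD.weil x hwx g) hwy).1 hg

end Pool.T4
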