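import Pool.Agent.Work.MP_223b32_t4.Interface
import Pool.Agent.Work.MP_223b32_t4.Interface2
import Pool.Agent.Work.MP_223b32_t4.Interface5
import Pool.Agent.Work.MP_223b32_t4.BLD
import Pool.Agent.Work.MP_223b32_t4.CAR
import Pool.Agent.Work.MP_223b32_t4.CCJ
import Pool.Agent.Work.MP_223b32_t4.CYD
import Pool.Agent.Work.MP_223b32_t4.CYM
import Pool.Agent.Work.MP_223b32_t4.DIC
import Pool.Agent.Work.MP_223b32_t4.EIS
import Pool.Agent.Work.MP_223b32_t4.EQG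
import Pool.Agent.Work.MP_223b32_t4.EX5
import Pool.Agent.Work.MP_223b32_t4.F55
import Pool.Agent.Work.MP_223b32_t4.FN3
import Pool.Agent.Work.MP_223b32_t4.FR3
import Pool.Agent.Work.MP_223b32_t4.GLU
import Pool.Agent.Work.MP_223b32_t4.HLF
import Pool.Agent.Work.MP_223b32_t4.HTC
import Pool.Agent.Work.MP_223b32_t4.IND
import Pool.Agent.Work.MP_223b32_t4.LF5
import Pool.Agent.Work.MP_223b32_t4.LIN
import Pool.Agent.Work.MP_223b32_t4.LN2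
import Pool.Agent.Work.MP_223b32_t4.LNE
import Pool.Agent.Work.MP_223b32_t4.LNT
import Pool.Agent.Work.MP_223b32_t4.MKA
import Pool.Agent.Work.MP_223b32_t4.OF6
import Pool.Agent.Work.MP_223b32_t4.OFS
import Pool.Agent.Work.MP_223b32_t4.ORB
import Pool.Agent.Work.MP_223b32_t4.OX4
import Pool.Agent.Work.MP_223b32_t4.OX6
import Pool.Agent.Work.MP_223b32_t4.PHI
import Pool.Agent.Work.MP_223b32_t4.PLA
import Pool.Agent.Work.MP_223b32_t4.PMN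
import Pool.Agent.Work.MP_223b32_t4.RHO
import Pool.Agent.Work.MP_223b32_t4.RK1
import Pool.Agent.Work.MP_223b32_t4.RNP
import Pool.Agent.Work.MP_223b32_t4.RST
import Pool.Agent.Work.MP_223b32_t4.RTX
import Pool.Agent.Work.MP_223b32_t4.SAV
import Pool.Agent.Work.MP_223b32_t4.SGN
import Pool.Agent.Work.MP_223b32_t4.SPN
import Pool.Agent.Work.MP_223b32_t4.SUM
import Pool.Agent.Work.MP_223b32_t4.TNS
import Pool.Agent.Work.MP_223b32_t4.TSP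
import Pool.Agent.Work.MP_223b32_t4.UME
import Pool.Agent.Work.MP_223b32_t4.B_EQC
import Pool.Agent.Work.MP_223b32_t4.B_MKX
import Pool.Agent.Work.MP_223b32_t4.B_QUD
import Pool.Agent.Work.MP_223b32_t4.B_RQU
import Pool.Agent.Work.MP_223b32_t4.SQU
import Pool.Agent.Work.MP_223b32_t4.B_OF4
import Pool.Agent.Work.MP_223b32_t4.B_CA5
import Pool.Agent.Work.MP_223b32_t5.P55
import Pool.Agent.Work.MP_223b32_t4.MUL
import Pool.Agent.Work.MP_223b32_t4.KRO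
import Pool.Agent.Work.MP_223b32_t4.FN1
import Pool.Agent.Work.MP_223b32_t4.CYS
import Pool.Agent.Work.MP_223b32_t4.THR
import Pool.Agent.Work.MP_223b32_t4.FN4
import Pool.Agent.Work.MP_223b32_t4.FN8
import Pool.Agent.Work.MP_223b32_t4.FN7
import Pool.Agent.Work.MP_223b32_t4.CY7
import Pool.Agent.Work.MP_223b32_t4.MX7
import Pool.Agent.Work.MP_223b32_t4.MK7
import Pool.Agent.Work.MP_223b32_t4.PH7
import Pool.Agent.Work.MP_223b32_t4.EQ7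
import Pool.Agent.Work.MP_223b32_t4.EQ6
import Pool.Agent.Work.MP_223b32_t4.TW4
import Pool.Agent.Work.MP_223b32_t4.EX4
import Pool.Agent.Work.MP_223b32_t4.FN2
import Pool.Agent.Work.MP_223b32_t4.VOR
import Pool.Agent.Work.MP_223b32_t4.Defs5
import Pool.Agent.Work.MP_223b32_t4.Defs6
import Pool.Agent.Work.MP_223b32_t4.PRI
import Pool.Agent.Work.MP_223b32_t4.DefsFac

/-! # Assembly -/

namespace Pool.T4

open Pool.Agent.Work.MP_223b32_ag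

/-- The final statement. -/
def MainStatement9 : Prop :=
  ∀ (p : ℕ) [Fact p.Prime] (a : ℕ) (ι : Qb →+* PadicAlgCl p), 0 < a →
    ∀ R T : Multiset Qb, IsAV (p ^ a) ι R →
      (T = R ∧ R.card ≤ 10 ∧ ¬ Exc5 (p ^ a) R) ∨
        (PowOf (p ^ a) R T ∧
          ((R.card ≤ 8 ∧ ¬ Exc4 (p ^ a) R) ∨ (R.card ≤ 10 ∧ Isotypic (p ^ a) R))) →
      TateProp (p ^ a) ι T ∧
      ∀ (ρ : Qb →+* ℂ) (V : Type) [AddCommGroup V] [Module ℂ V] [Module.Finite ℂ V]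
      (F : Module.End ℂ V), F.IsSemisimple →
      F.charpoly = (T.map fun x => Polynomial.X - Polynomial.C (ρ x)).prod →
      ∀ N j : ℕ, 0 < N →
        tateClasses (F ^ N) (((p ^ a : ℕ) : ℂ) ^ N) j ≤ algClasses (p ^ a) ι ρ F j ∧
        HasPoleOrder (Lfun (F ^ N) (((p ^ a : ℕ) : ℝ) ^ N) j) j
          (Module.finrank ℂ (tateClasses (F ^ N) (((p ^ a : ℕ) : ℂ) ^ N) j))

theorem main9 : MainStatement9 := by
  have hCCJ := p_CCJ
  have hRHO := p_RHO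
  have hLIN := p_LIN
  have hHLF := p_HLF hCCJ hRHO
  have hTNS := p_TNS hHLF
  have hTSP := p_TSP
  have hBLD := p_BLD p_PHI hHLF hCCJ hRHO
  have hMKX := p_MKX (p_MKA p_SGN) hBLD hHLF hTSP hTNS
  have hCYD := p_CYD hMKX p_GLU p_PMN
  have hCYM := p_CYM (p_EIS p_RST) (p_RTX hCCJ hRHO) p_GLU
  have hDIC := p_DIC (p_UME hCCJ hRHO) (p_SUM p_KRO hRHO) hCCJ hRHO
  have hRQU := p_RQU (p_QUD hCCJ hRHO)
  have h1 := p_FN1 p_CAR p_SGN p_MUL hCYD hCYM hRQU p_RNP p_HTC hDIC hCCJ hRHO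
  have hRK1 := p_RK1 (p_FR3 hLIN) p_PLA (p_ORB hLIN) p_SQU
  have hEQC := p_EQC hRK1
  have hLNT := p_LNT p_LNE
  have hLN2 := p_LN2 hLNT p_IND
  have hOF4 := p_OF4 p_LNE hLIN
  have hOX4 := p_OX4 hLNT p_IND hOF4
  have hOX6 := p_OX6 (p_OF6 hRK1) p_LNE
  have hEQG := p_EQG p_OFS hEQC hLN2 hOX4 hOX6 p_LNE
  have hEQ6 := p_EQ6 hEQG (p_TW4 p_OFS hOF4)
  have h2 := p_FN2 h1 (p_VOR p_HTC) hEQC p_THR p_RNP p_CYS hDIC hCCJ hRHO
  have h4 := p_FN4 h1 hEQ6 p_SAV p_THR p_RNP p_CYS p_HTC hDIC hCCJ hRHO p_EX4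
  have h5 := p_F55 h1 hDIC p_HTC p_RNP hCCJ hRHO (Pool.T5.p_P55 p_CA5) p_LF5 p_EX5
  have hCY7 := p_CY7 (p_MX7 p_MK7 hBLD hHLF hTSP p_PH7) p_PMN p_GLU hRQU
  have h7 := p_FN7 p_EQ7 hCY7 p_RNP p_CYS p_HTC hDIC hCCJ hRHO
  have h8 := p_FN8 h7 h2 p_SAV p_RNP p_HTC hDIC hCCJ hRHO
  intro p _ a ι ha R T hR hT
  have h : TateProp (p ^ a) ι T := by
    rcases hT with ⟨rfl, hc, he⟩ | ⟨hT, ⟨hc, he⟩ | ⟨hc, hi⟩⟩
    · exact h5 p a ι ha T hR hc he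
    · exact h4 p a ι ha R T hR hc he hT
    · exact h8 p a ι ha R T hR hc ⟨hi, hT⟩
  exact ⟨h, fun ρ V _ _ _ F hF hch N j hN => p_SPN p a ι ha T h ρ V F hF hch N j hN⟩

theorem tate_product (p : ℕ) [Fact p.Prime] (a : ℕ) (ι : Qb →+* PadicAlgCl p) (ha : 0 < a) (n : ℕ)
    (R : Fin n → Multiset Qb) (hR : ∀ i, Factor (p ^ a) ι (R i)) (hI : n = 1 ∨ Indep (p ^ a) R)
    (T : Multiset Qb) (hT : PowOf (p ^ a) (∑ i, R i) T) : TateProp (p ^ a) ι T := by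
  have h1 : ∀ i, ∀ T, PowOf (p ^ a) (R i) T → TateProp (p ^ a) ι T := fun i T hT =>
    (main9 p a ι ha (R i) T (hR i).1 (Or.inr ⟨hT, (hR i).2⟩)).1
  rcases hI with rfl | hI
  · refine h1 0 T ?_
    have h2 : ∑ i, R i = R 0 := by simp
    rwa [h2] at hT
  · have hDIC := p_DIC (p_UME p_CCJ p_RHO) (p_SUM p_KRO p_RHO) p_CCJ p_RHO
    exact p_PRI hDIC p a ι ha n R (fun i => (hR i).1) h1 hI T hT

/-- The theorem with products. -/
theorem main10 (p : ℕ) [Fact p.Prime] (a : ℕ) (ι : Qb →+* PadicAlgCl p) (ha : 0 < a)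
    (T : Multiset Qb)
    (hT : (IsAV (p ^ a) ι T ∧ T.card ≤ 10 ∧ ¬ Exc5 (p ^ a) T) ∨
      ∃ (n : ℕ) (R : Fin n → Multiset Qb), (∀ i, Factor (p ^ a) ι (R i)) ∧
        (n = 1 ∨ Indep (p ^ a) R) ∧ PowOf (p ^ a) (∑ i, R i) T) :
    TateProp (p ^ a) ι T ∧
      ∀ (ρ : Qb →+* ℂ) (V : Type) [AddCommGroup V] [Module ℂ V] [Module.Finite ℂ V]
      (F : Module.End ℂ V), F.IsSemisimple →
      F.charpoly = (T.map fun x => Polynomial.X - Polynomial.C (ρ x)).prod →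
      ∀ N j : ℕ, 0 < N →
        tateClasses (F ^ N) (((p ^ a : ℕ) : ℂ) ^ N) j ≤ algClasses (p ^ a) ι ρ F j ∧
        HasPoleOrder (Lfun (F ^ N) (((p ^ a : ℕ) : ℝ) ^ N) j) j
          (Module.finrank ℂ (tateClasses (F ^ N) (((p ^ a : ℕ) : ℂ) ^ N) j)) := by
  have h : TateProp (p ^ a) ι T := by
    rcases hT with ⟨h1, h2, h3⟩ | ⟨n, R, h1, h2, h3⟩
    · exact (main9 p a ι ha T T h1 (Or.inl ⟨rfl, h2, h3⟩)).1
    · exact tate_product p a ι ha n R h1 h2 T h3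
  exact ⟨h, fun ρ V _ _ _ F hF hch N j hN => p_SPN p a ι ha T h ρ V F hF hch N j hN⟩

end Pool.T4
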