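import Pool.Agent.Work.MP_223b32_t4.Interface

set_option autoImplicit false

/-! # Block SQU: eight vectors in a plane -/

namespace Pool.T4

open Pool.Agent.Work.MP_223b32_ag

theorem SQU_lin {G U : Type} [Group G] [AddCommGroup U] [Module ℚ U] [DistribMulAction G U]
    (K : Core G U) (g : G) (s t : ℚ) (x y : U) :
    K.w (g • (s • x + t • y)) = s * K.w (g • x) + t * K.w (g • y) := by
  have h := map_rat_smul (K.w.comp (DistribSMul.toAddMonoidHom U g)) s x
  have h' := map_rat_smul (K.w.comp (DistribSMul.toAddMonoidHom U g)) t y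
  simp only [AddMonoidHom.coe_comp, Function.comp_apply, DistribSMul.toAddMonoidHom_apply,
    Rat.smul_def] at h h'
  rw [smul_add, map_add, h, h']

theorem SQU_alg (A1 B1 A2 B2 : ℝ) (s2 t2 s3 t3 : ℚ) (h1 : A1 ≠ 0 ∨ B1 ≠ 0)
    (h2 : (s2 : ℝ) * A1 + t2 * B1 = 0) (h3 : (s2 : ℝ) * A2 + t2 * B2 ≠ 0)
    (h4 : (s3 : ℝ) * A1 + t3 * B1 = 0) (h5 : (s3 : ℝ) * A2 + t3 * B2 = 0) : s3 = 0 ∧ t3 = 0 := by
  have hd : (s2 : ℝ) * t3 - s3 * t2 = 0 := by
    rcases h1 with h | h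
    · refine (mul_eq_zero.1 (?_ : ((s2 : ℝ) * t3 - s3 * t2) * A1 = 0)).resolve_right h
      linear_combination (t3 : ℝ) * h2 - (t2 : ℝ) * h4
    · refine (mul_eq_zero.1 (?_ : ((s2 : ℝ) * t3 - s3 * t2) * B1 = 0)).resolve_right h
      linear_combination (s2 : ℝ) * h4 - (s3 : ℝ) * h2
  constructor
  · have : (s3 : ℝ) = 0 := by
      refine (mul_eq_zero.1 (?_ : (s3 : ℝ) * ((s2 : ℝ) * A2 + t2 * B2) = 0)).resolve_right h3
      linear_combination (s2 : ℝ) * h5 - B2 * hd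
    exact_mod_cast this
  · have : (t3 : ℝ) = 0 := by
      refine (mul_eq_zero.1 (?_ : (t3 : ℝ) * ((s2 : ℝ) * A2 + t2 * B2) = 0)).resolve_right h3
      linear_combination (t2 : ℝ) * h5 + A2 * hd
    exact_mod_cast this

theorem p_SQU : Stmt_SQU := by
  classical
  intro G U _ _ _ _ K V m hV hc hpl hw
  obtain ⟨a, b, hab⟩ := hpl
  obtain ⟨v0, hv0⟩ := hV.ne
  have hg1 : ∃ g : G, K.w (g • v0) ≠ 0 := by
    by_contra h
    push Not at h
    exact hV.nz v0 hv0 (K.kron v0 h)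
  obtain ⟨g1, hg1⟩ := hg1
  have hr : ∀ v ∈ V, ∃ r : ℚ, (r = 0 ∨ r = 1 ∨ r = -1) ∧ K.w (g1 • v) = r * K.w (g1 • v0) := by
    intro v hv
    have h0 := hw _ (hV.stable g1 v0 hv0)
    rcases h0 with h0 | h0 | h0
    · exact absurd h0 hg1
    · rcases hw _ (hV.stable g1 v hv) with h | h | h
      · exact ⟨0, Or.inl rfl, by rw [h, h0]; simp⟩
      · exact ⟨1, Or.inr (Or.inl rfl), by rw [h, h0]; simp⟩
      · exact ⟨-1, Or.inr (Or.inr rfl), by rw [h, h0]; simp⟩
    · rcases hw _ (hV.stable g1 v hv) with h | h | h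
      · exact ⟨0, Or.inl rfl, by rw [h, h0]; simp⟩
      · exact ⟨-1, Or.inr (Or.inr rfl), by rw [h, h0]; simp⟩
      · exact ⟨1, Or.inr (Or.inl rfl), by rw [h, h0]; simp⟩
  have hk : ∃ k : U, k ≠ 0 ∧ K.w (g1 • k) = 0 ∧ ∃ s t : ℚ, k = s • a + t • b := by
    by_contra hno
    push Not at hno
    have hsub : V ⊆ ({0, v0, -v0} : Finset U) := by
      intro v hv
      obtain ⟨r, hr1, hr2⟩ := hr v hv
      have h0 : v - r • v0 = 0 := by
        by_contra hne
        have h1 : K.w (g1 • (v - r • v0)) = 0 := by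
          have h2 := SQU_lin K g1 1 (-r) v v0
          have h3 : (1 : ℚ) • v + (-r) • v0 = v - r • v0 := by
            rw [one_smul, neg_smul, sub_eq_add_neg]
          rw [h3] at h2
          rw [h2, hr2]
          push_cast
          ring
        obtain ⟨s, t, hst⟩ := hab v hv
        obtain ⟨s', t', hst'⟩ := hab v0 hv0
        refine hno _ hne h1 (s - r * s') (t - r * t') ?_
        rw [hst']
        nth_rewrite 1 [hst]
        module
      have h1 : v = r • v0 := sub_eq_zero.1 h0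
      rcases hr1 with h | h | h
      · rw [h1, h, zero_smul]; simp
      · rw [h1, h, one_smul]; simp
      · rw [h1, h, neg_smul, one_smul]; simp
    have h1 := Finset.card_le_card hsub
    have h2 : ({0, v0, -v0} : Finset U).card ≤ 3 := Finset.card_le_three
    omega
  obtain ⟨k0, hk0, hk1, s2, t2, hk2⟩ := hk
  have hg2 : ∃ g : G, K.w (g • k0) ≠ 0 := by
    by_contra h
    push Not at h
    exact hk0 (K.kron k0 h)
  obtain ⟨g2, hg2⟩ := hg2
  have hAB : K.w (g1 • a) ≠ 0 ∨ K.w (g1 • b) ≠ 0 := by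
    by_contra h
    push Not at h
    obtain ⟨s, t, hst⟩ := hab v0 hv0
    apply hg1
    rw [hst, SQU_lin, h.1, h.2]
    simp
  have hinj : ∀ z : U, (∃ s t : ℚ, z = s • a + t • b) → K.w (g1 • z) = 0 → K.w (g2 • z) = 0 →
      z = 0 := by
    rintro z ⟨s3, t3, hz⟩ h1 h2
    rw [hz, SQU_lin] at h1 h2
    rw [hk2, SQU_lin] at hk1 hg2
    obtain ⟨e1, e2⟩ := SQU_alg _ _ _ _ s2 t2 s3 t3 hAB hk1 hg2 h1 h2
    rw [hz, e1, e2, zero_smul, zero_smul, add_zero]
  -- combinations of three elements of `V`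
  have hcomb : ∀ x ∈ V, ∀ y ∈ V, ∀ z ∈ V, K.w (g1 • x) + K.w (g1 • y) = K.w (g1 • z) →
      K.w (g2 • x) + K.w (g2 • y) = K.w (g2 • z) → x + y = z := by
    intro x hx y hy z hz h1 h2
    obtain ⟨s, t, h⟩ := hab x hx
    obtain ⟨s', t', h'⟩ := hab y hy
    obtain ⟨s'', t'', h''⟩ := hab z hz
    have h3 : x + y - z = 0 := by
      refine hinj _ ⟨s + s' - s'', t + t' - t'', ?_⟩ ?_ ?_
      · rw [h, h', h'']; module
      · rw [smul_sub, smul_add, map_sub, map_add, h1, sub_self]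
      · rw [smul_sub, smul_add, map_sub, map_add, h2, sub_self]
    exact sub_eq_zero.1 h3
  have hinj2 : ∀ x ∈ V, ∀ y ∈ V, K.w (g1 • x) = K.w (g1 • y) → K.w (g2 • x) = K.w (g2 • y) →
      x = y := by
    intro x hx y hy h1 h2
    obtain ⟨s, t, h⟩ := hab x hx
    obtain ⟨s', t', h'⟩ := hab y hy
    have h3 : x - y = 0 := by
      refine hinj _ ⟨s - s', t - t', ?_⟩ ?_ ?_
      · rw [h, h']; module
      · rw [smul_sub, map_sub, h1, sub_self]
      · rw [smul_sub, map_sub, h2, sub_self]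
    exact sub_eq_zero.1 h3
  -- the image is everything
  set P : U → ℝ × ℝ := fun v => (K.w (g1 • v), K.w (g2 • v)) with hP
  set T : Finset (ℝ × ℝ) := (((Finset.Icc (-1) 1 : Finset ℤ) ×ˢ (Finset.Icc (-1) 1 : Finset ℤ)).erase
    (0, 0)).image (fun p => ((p.1 : ℝ), (p.2 : ℝ))) with hT
  have hTc : T.card ≤ 8 := Finset.card_image_le.trans (by decide)
  have hsub : V.image P ⊆ T := by
    intro q hq
    obtain ⟨v, hv, rfl⟩ := Finset.mem_image.1 hq
    have hn : ¬ (K.w (g1 • v) = 0 ∧ K.w (g2 • v) = 0) := fun h =>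
      hV.nz v hv (hinj v (hab v hv) h.1 h.2)
    rw [hT, Finset.mem_image]
    rcases hw _ (hV.stable g1 v hv) with h | h | h <;>
      rcases hw _ (hV.stable g2 v hv) with h' | h' | h'
    · exact absurd ⟨h, h'⟩ hn
    · exact ⟨(0, 1), by decide, by simp [hP, h, h']⟩
    · exact ⟨(0, -1), by decide, by simp [hP, h, h']⟩
    · exact ⟨(1, 0), by decide, by simp [hP, h, h']⟩
    · exact ⟨(1, 1), by decide, by simp [hP, h, h']⟩
    · exact ⟨(1, -1), by decide, by simp [hP, h, h']⟩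
    · exact ⟨(-1, 0), by decide, by simp [hP, h, h']⟩
    · exact ⟨(-1, 1), by decide, by simp [hP, h, h']⟩
    · exact ⟨(-1, -1), by decide, by simp [hP, h, h']⟩
  have hci : (V.image P).card = 8 := by
    rw [Finset.card_image_of_injOn, hc]
    intro x hx y hy hxy
    exact hinj2 x hx y hy (congrArg Prod.fst hxy) (congrArg Prod.snd hxy)
  have heq : V.image P = T := Finset.eq_of_subset_of_card_le hsub (by rw [hci]; exact hTc)
  have hsur : ∀ i j : ℤ, (i, j) ∈ ((Finset.Icc (-1) 1 : Finset ℤ) ×ˢ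
      (Finset.Icc (-1) 1 : Finset ℤ)).erase (0, 0) → ∃ v ∈ V, K.w (g1 • v) = i ∧ K.w (g2 • v) = j := by
    intro i j hij
    have h1 : ((i : ℝ), (j : ℝ)) ∈ T := by
      rw [hT]
      exact Finset.mem_image_of_mem (fun p : ℤ × ℤ => ((p.1 : ℝ), (p.2 : ℝ))) hij
    rw [← heq, Finset.mem_image] at h1
    obtain ⟨v, hv, hvP⟩ := h1
    exact ⟨v, hv, congrArg Prod.fst hvP, congrArg Prod.snd hvP⟩
  obtain ⟨x10, hx10, p10, q10⟩ := hsur 1 0 (by decide)
  obtain ⟨x01, hx01, p01, q01⟩ := hsur 0 1 (by decide)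
  obtain ⟨x11, hx11, p11, q11⟩ := hsur 1 1 (by decide)
  obtain ⟨x0m, hx0m, p0m, q0m⟩ := hsur 0 (-1) (by decide)
  obtain ⟨x1m, hx1m, p1m, q1m⟩ := hsur 1 (-1) (by decide)
  push_cast at p10 q10 p01 q01 p11 q11 p0m q0m p1m q1m
  -- the pairs with sum `x11`
  have hS : ∀ x ∈ V, x11 - x ∈ V → x = x10 ∨ x = x01 := by
    intro x hx hy
    have e1 : K.w (g1 • x) + K.w (g1 • (x11 - x)) = 1 := by
      rw [smul_sub, map_sub, p11]; ring
    have e2 : K.w (g2 • x) + K.w (g2 • (x11 - x)) = 1 := by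
      rw [smul_sub, map_sub, q11]; ring
    have n1 : ¬ (K.w (g1 • x) = 0 ∧ K.w (g2 • x) = 0) := fun h =>
      hV.nz x hx (hinj x (hab x hx) h.1 h.2)
    have n2 : ¬ (K.w (g1 • (x11 - x)) = 0 ∧ K.w (g2 • (x11 - x)) = 0) := fun h =>
      hV.nz _ hy (hinj _ (hab _ hy) h.1 h.2)
    rcases hw _ (hV.stable g1 x hx) with h | h | h
    · rcases hw _ (hV.stable g2 x hx) with h' | h' | h'
      · exact absurd ⟨h, h'⟩ n1
      · exact Or.inr (hinj2 x hx x01 hx01 (by rw [h, p01]) (by rw [h', q01]))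
      · exfalso
        have h2 : K.w (g2 • (x11 - x)) = 2 := by rw [h'] at e2; linarith
        rcases hw _ (hV.stable g2 _ hy) with h3 | h3 | h3 <;> rw [h3] at h2 <;> norm_num at h2
    · rcases hw _ (hV.stable g2 x hx) with h' | h' | h'
      · exact Or.inl (hinj2 x hx x10 hx10 (by rw [h, p10]) (by rw [h', q10]))
      · exact absurd ⟨by rw [h] at e1; linarith, by rw [h'] at e2; linarith⟩ n2
      · exfalso
        have h2 : K.w (g2 • (x11 - x)) = 2 := by rw [h'] at e2; linarith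
        rcases hw _ (hV.stable g2 _ hy) with h3 | h3 | h3 <;> rw [h3] at h2 <;> norm_num at h2
    · exfalso
      have h2 : K.w (g1 • (x11 - x)) = 2 := by rw [h] at e1; linarith
      rcases hw _ (hV.stable g1 _ hy) with h3 | h3 | h3 <;> rw [h3] at h2 <;> norm_num at h2
  obtain ⟨g, hg⟩ := hV.trans x11 hx11 x10 hx10
  have hgi : g⁻¹ • x10 = x11 := by rw [← hg, inv_smul_smul]
  have key : ∀ x ∈ V, ∀ y ∈ V, x + y = x10 → g⁻¹ • x = x10 ∨ g⁻¹ • x = x01 := by
    intro x hx y hy hxy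
    apply hS _ (hV.stable _ _ hx)
    have h1 : x11 - g⁻¹ • x = g⁻¹ • y := by
      rw [← hgi, ← smul_sub, ← hxy, add_sub_cancel_left]
    rw [h1]
    exact hV.stable _ _ hy
  have k1 := key x01 hx01 x1m hx1m (hcomb _ hx01 _ hx1m _ hx10 (by rw [p01, p1m, p10]; norm_num)
    (by rw [q01, q1m, q10]; norm_num))
  have k2 := key x0m hx0m x11 hx11 (hcomb _ hx0m _ hx11 _ hx10 (by rw [p0m, p11, p10]; norm_num)
    (by rw [q0m, q11, q10]; norm_num))
  have k3 := key x11 hx11 x0m hx0m (hcomb _ hx11 _ hx0m _ hx10 (by rw [p0m, p11, p10]; norm_num)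
    (by rw [q0m, q11, q10]; norm_num))
  have d12 : x01 ≠ x0m := fun h => by
    rw [h, q0m] at q01; norm_num at q01
  have d13 : x01 ≠ x11 := fun h => by
    rw [h, p11] at p01; norm_num at p01
  have d23 : x0m ≠ x11 := fun h => by
    rw [h, p11] at p0m; norm_num at p0m
  have inj' : ∀ x y u : U, g⁻¹ • x = u → g⁻¹ • y = u → x = y := fun x y u h h' =>
    smul_left_cancel g⁻¹ (h.trans h'.symm)
  rcases k1 with h1 | h1 <;> rcases k2 with h2 | h2 <;> rcases k3 with h3 | h3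
  · exact d12 (inj' _ _ _ h1 h2)
  · exact d12 (inj' _ _ _ h1 h2)
  · exact d13 (inj' _ _ _ h1 h3)
  · exact d23 (inj' _ _ _ h2 h3)
  · exact d23 (inj' _ _ _ h2 h3)
  · exact d13 (inj' _ _ _ h1 h3)
  · exact d12 (inj' _ _ _ h1 h2)
  · exact d12 (inj' _ _ _ h1 h2)

end Pool.T4
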