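import Pool.Agent.Work.MP_223b32_t4.Interface9
import Pool.Agent.Work.MP_223b32_t4.CYM
import Pool.Agent.Work.MP_223b32_t4.SGN

/-! # Block CY9: the Weil classes in dimension six -/

namespace Pool.T4

open Pool.Agent.Work.MP_223b32_ag

section

variable {G U : Type} [Group G] [AddCommGroup U] [Module ℚ U] [DistribMulAction G U]

theorem CY9_neg (K : Core G U) {V : Finset U} {m : ℕ} (h : IsOrb K V m) {v : U} (hv : v ∈ V) :
    -v ∈ V := by
  rw [← K.cc v]
  exact h.stable K.c0 v hv

omit [AddCommGroup U] [Module ℚ U] in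
/-- the image of a finset under an injective self-map -/
theorem CY9_perm {P : Finset U} (f : U → U) (hf : Function.Injective f)
    (h : ∀ v ∈ P, f v ∈ P) : P.val.map f = P.val := by
  classical
  have h1 : P.image f = P := by
    refine Finset.eq_of_subset_of_card_le ?_ ?_
    · intro v hv
      obtain ⟨u, hu, rfl⟩ := Finset.mem_image.1 hv
      exact h u hu
    · rw [Finset.card_image_of_injective _ hf]
  have h2 : (P.image f).val = P.val.map f := Finset.image_val_of_injOn hf.injOn
  rw [← h2, h1]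

omit [Module ℚ U] in
theorem CY9_pos {y : U} {V P : Finset U} (h : Half G y V P) (m : ℕ) {g : G} (hg : g • y = y) :
    tr g (m • P.val + {-y, -y}) = m • P.val + {-y, -y} := by
  unfold tr
  rw [Multiset.map_add, Multiset.map_nsmul,
    CY9_perm (fun v => g • v) (MulAction.injective g) (h.pos g hg)]
  simp [hg]

omit [Module ℚ U] in
theorem CY9_opp {y : U} {V P : Finset U} (h : Half G y V P) (m : ℕ) {g : G} (hg : g • y = -y) :
    tr g (m • P.val + {-y, -y}) = ng (m • P.val + {-y, -y}) := by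
  unfold tr ng
  have hinj : Function.Injective (fun v : U => -(g • v)) :=
    neg_injective.comp (MulAction.injective g)
  have h1 : (P.val.map fun v => -(g • v)).map (fun v => -v) = P.val.map fun v => -v := by
    rw [CY9_perm (fun v => -(g • v)) hinj (h.neg g hg)]
  rw [Multiset.map_map] at h1
  have h2 : ((fun v : U => -v) ∘ fun v : U => -(g • v)) = fun v : U => g • v := by
    funext v
    simp
  rw [h2] at h1
  rw [Multiset.map_add, Multiset.map_add, Multiset.map_nsmul, Multiset.map_nsmul, h1]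
  simp [hg]

theorem CY9_flip (K : Core G U) {R : Multiset U} {y : U} {V : Finset U} {m : ℕ} {P : Finset U}
    (h : Hex K R y V m P) : ∃ P' : Finset U, Hex K R (-y) V m P' ∧
      m • P'.val = ng (m • P.val) := by
  classical
  have hmem : ∀ v : U, v ∈ P.image (fun u => -u) ↔ -v ∈ P := by
    intro v
    rw [Finset.mem_image]
    constructor
    · rintro ⟨u, hu, rfl⟩
      rw [neg_neg]
      exact hu
    · intro hv
      exact ⟨-v, hv, neg_neg v⟩
  have hval : (P.image (fun u => -u)).val = P.val.map fun u => -u :=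
    Finset.image_val_of_injOn neg_injective.injOn
  refine ⟨P.image (fun u => -u), ⟨⟨neg_ne_zero.2 h.line.1, fun g => ?_⟩, ?_, h.orbit, h.card,
    ?_, ⟨?_, ?_, ?_, ?_, ?_⟩, ?_, ?_, h.mul⟩, ?_⟩
  · rcases h.line.2 g with h1 | h1
    · left
      rw [smul_neg, h1]
    · right
      rw [smul_neg, h1]
  · rcases h.wy with h1 | h1
    · right
      rw [map_neg, h1]
    · left
      rw [map_neg, h1, neg_neg]
  · intro h1
    have h2 := CY9_neg K h.orbit h1
    rw [neg_neg] at h2
    exact h.ny h2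
  · intro v hv
    rw [hmem] at hv
    have h2 := CY9_neg K h.orbit (h.half.sub hv)
    rw [neg_neg] at h2
    exact h2
  · intro v hv
    rw [hmem, hmem, neg_neg]
    have h1 := h.half.half v hv
    tauto
  · intro g hg v hv
    rw [hmem] at hv ⊢
    have h1 : g • y = y := by
      rw [smul_neg] at hg
      exact neg_injective hg
    have h2 := h.half.pos g h1 _ hv
    rw [smul_neg] at h2
    exact h2
  · intro g hg v hv
    rw [hmem] at hv ⊢
    have h1 : g • y = -y := by
      rw [smul_neg] at hg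
      exact neg_injective hg
    have h2 := h.half.neg g h1 _ hv
    rw [smul_neg] at h2
    exact h2
  · intro u hu v hv
    rw [hmem] at hu hv
    obtain ⟨g, hg, h1⟩ := h.half.tra _ hu _ hv
    refine ⟨g, by rw [smul_neg, hg], ?_⟩
    rw [smul_neg] at h1
    exact neg_injective h1
  · have h1 : (P.image (fun u => -u)).sum id = -(P.sum id) := by
      rw [Finset.sum_image (fun u _ v _ h2 => neg_injective h2)]
      show ∑ x ∈ P, -x = -∑ x ∈ P, x
      exact Finset.sum_neg_distrib _
    rw [h1, smul_neg, h.sum, smul_neg]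
  · intro v hv
    rcases h.mem v hv with h1 | h1 | h1
    · exact Or.inl h1
    · right; right
      rw [neg_neg]
      exact h1
    · right; left
      exact h1
  · unfold ng
    rw [hval, Multiset.map_nsmul]

end

/-- a CM algebra of dimension one has a point which is fixed up to complex conjugation -/
theorem CY9_one {q p : ℕ} [Fact p.Prime] {ι : Qb →+* PadicAlgCl p} {r : Qb} {m : ℚ} {t : ℕ}
    {S : Multiset Qb} (h : HasCM q ι r m 1 t false S) : HasCM q ι r m 1 t true S := by
  classical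
  obtain ⟨X, F, act, C, h1, h2, h3, _⟩ := h
  refine ⟨X, F, act, C, h1, h2, h3, fun _ => ?_⟩
  have hpos : 0 < Fintype.card X := by rw [h1]; norm_num
  obtain ⟨x0⟩ := Fintype.card_pos_iff.1 hpos
  refine ⟨x0, fun g => ?_⟩
  by_contra hcon
  push Not at hcon
  obtain ⟨h4, h5⟩ := hcon
  have h6 : ({g • x0, x0, C.c x0} : Finset X).card = 3 := by
    rw [Finset.card_eq_three]
    exact ⟨_, _, _, h4, h5, (C.c_ne x0).symm, rfl⟩
  have h7 := Finset.card_le_univ ({g • x0, x0, C.c x0} : Finset X)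
  rw [h6, h1] at h7
  omega

theorem CY9_main (hLNE : Stmt_LNE) (hDT : Stmt_DT9) (hRE : Stmt_RE9) (hMT : Stmt_MT9)
    (hBLD : Stmt_BLD) (hHLF : Stmt_HLF) (hTSP : Stmt_TSP) (hRTX : Stmt_RTX) (hGLU : Stmt_GLU)
    (hRQU : Stmt_RQU) (p : ℕ) [Fact p.Prime] (a : ℕ) (ι : Qb →+* PadicAlgCl p) (ρ : Qb →+* ℂ)
    (c : GQ) (hc : IsConj c ρ) (ha : 0 < a) (hD : Dict (p ^ a) ι) (R : Multiset Qb)
    (hR : IsAV (p ^ a) ι R) (y : UU ι) (V : Finset (UU ι)) (m : ℕ) (P : Finset (UU ι))
    (hH : Hex (coreU ι ρ c hc) (R.map (uu (p ^ a) ι)) y V m P) (J : Multiset Qb)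
    (hJ : ∀ x ∈ J, Weil (p ^ a) x) (hM : J.map (uu (p ^ a) ι) = m • P.val + {-y, -y}) :
    Cyc (p ^ a) ι J := by
  classical
  have hy0 : y ≠ 0 := hH.line.1
  have hne : ng (J.map (uu (p ^ a) ι)) ≠ J.map (uu (p ^ a) ι) := by
    intro h
    have h1 : -y ∈ J.map (uu (p ^ a) ι) := by
      rw [hM, Multiset.mem_add]
      right
      simp
    have h2 : y ∈ J.map (uu (p ^ a) ι) := by
      rw [← h]
      unfold ng
      rw [Multiset.mem_map]
      exact ⟨-y, h1, neg_neg y⟩
    rw [hM, Multiset.mem_add] at h2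
    rcases h2 with h2 | h2
    · exact hH.ny (hH.half.sub (Multiset.mem_of_mem_nsmul h2))
    · have h3 : y = -y := by simpa using h2
      exact SGN_neg_ne hy0 h3
  have hsgn : ∀ g : GQ, tr g (J.map (uu (p ^ a) ι)) = J.map (uu (p ^ a) ι) ∨
      tr g (J.map (uu (p ^ a) ι)) = ng (J.map (uu (p ^ a) ι)) := by
    intro g
    rw [hM]
    rcases hH.line.2 g with h | h
    · exact Or.inl (CY9_pos hH.half m h)
    · exact Or.inr (CY9_opp hH.half m h)
  obtain ⟨r, m0, hm0, hr, hgM⟩ := hRQU p a ι ha hD J hJ hsgn hne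
  have hgr : ∀ g : GQ, g r = r ↔ g • y = y := by
    intro g
    rw [hgM]
    constructor
    · intro h
      rcases hH.line.2 g with h1 | h1
      · exact h1
      · exfalso
        have h2 := CY9_opp hH.half m h1
        rw [← hM, h] at h2
        exact hne h2.symm
    · intro h
      rw [hM]
      exact CY9_pos hH.half m h
  have hdy := (hLNE GQ (UU ι) (coreU ι ρ c hc) y hH.line).2
  have hdr : ∀ d ∈ dec ι, d r = r := fun d hd => (hgr d).2 (hdy d hd)
  obtain ⟨hmP, hcase⟩ := hDT GQ (UU ι) (coreU ι ρ c hc) _ y V m P hH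
  have hm3 : m = 1 ∨ m = 2 ∨ m = 4 := by
    rcases hcase with h | ⟨h | h, _⟩
    · exact Or.inl h
    · exact Or.inr (Or.inl h)
    · exact Or.inr (Or.inr h)
  have hm2 : m = 1 ∨ ∀ d ∈ dec ι, ∀ v ∈ V, d • v = v := by
    rcases hcase with h | ⟨_, h⟩
    · exact Or.inl h
    · exact Or.inr h
  obtain ⟨T, hTm, hTs, hTt, hTc⟩ := hRE p ι m hm3
  obtain ⟨X, _, _, A, hAn, hmap⟩ := hMT p a ι ρ c hc ha hD R hR y V m P hH hm2 T hTm hTs hTt hTc
    r m0 hm0 hr hgr
  obtain ⟨C, rfl⟩ := hBLD p a ι ha hD X r m0 A hAn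
  have hcard : C.half.card = 4 := by
    have h1 := congrArg Multiset.card hmap
    rw [Multiset.card_map, Multiset.card_map, Multiset.card_nsmul] at h1
    have h2 : C.half.val.card = C.half.card := rfl
    have h3 : P.val.card = P.card := rfl
    rw [← h2, h1, h3, hmP]
  have hX8 := (hHLF (p ^ a) X r m0 C.toCMAlg).1
  have hsum : ∑ x ∈ C.half, ur (p ^ a) ι (C.al x) 1 = 2 * (coreU ι ρ c hc).w y := by
    have h1 : (∑ x ∈ C.half, uu (p ^ a) ι (C.al x)) = 2 • y := by
      have h2 := congrArg Multiset.sum hmap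
      rw [Multiset.map_map, Multiset.sum_nsmul] at h2
      have h3 : P.val.sum = P.sum id := by
        rw [Finset.sum_eq_multiset_sum, Multiset.map_id]
      rw [h3, hH.sum] at h2
      exact h2
    have h2 : (∑ x ∈ C.half, uu (p ^ a) ι (C.al x)).1 1
        = ∑ x ∈ C.half, ur (p ^ a) ι (C.al x) 1 := by
      rw [Submodule.coe_sum, Finset.sum_apply]
      apply Finset.sum_congr rfl
      intro x _
      rw [hD.mem _ (C.weil x)]
    rw [← h2, h1]
    show (coreU ι ρ c hc).w (2 • y) = _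
    rw [map_nsmul, nsmul_eq_mul]
    norm_num
  have ht := hTSP p a ι ha hD X r m0 C hdr
  rw [Finset.sum_add_distrib, hsum, Finset.sum_const, hcard, nsmul_eq_mul, mul_one] at ht
  have hcm : HasCM (p ^ a) ι r m0 4 (C.Phi ∩ C.half).ncard false (C.half.val.map C.al) := by
    refine ⟨X, inferInstance, inferInstance, C, ?_, rfl, rfl, fun h => absurd h (by decide)⟩
    rw [← hX8, hcard]
  have hx : ∃ x ∈ J, uu (p ^ a) ι x = -y := by
    have h1 : -y ∈ J.map (uu (p ^ a) ι) := by
      rw [hM, Multiset.mem_add]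
      right
      simp
    exact Multiset.mem_map.1 h1
  obtain ⟨x, hxJ, hxy⟩ := hx
  have hWx := hJ x hxJ
  have hwx : ur (p ^ a) ι x 1 = -(coreU ι ρ c hc).w y := by
    rw [← map_neg, ← hxy, ← hD.mem x hWx]
    rfl
  have hsim : ∀ g : GQ, g r = r → Sim (g x) x := fun g hg => by
    rw [hD.sim _ _ (hD.weil x hWx g) hWx, hD.smul x hWx g, hxy, smul_neg, (hgr g).1 hg]
  have key : ∀ n : ℕ, (1 : ℝ) * (ur (p ^ a) ι x 1 + 1) = 2 * n →
      (C.Phi ∩ C.half).ncard + n + n = 3 → Cyc (p ^ a) ι J := by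
    intro n hn h3
    have h1 := hRTX p a ι ha hD r m0 hm0 hr hdr {0} (Finset.singleton_nonempty 0) (by
        intro g t ht
        rw [Finset.mem_singleton] at ht
        rw [ht, map_zero]
        exact Finset.mem_singleton_self 0) (by
        intro t ht t' ht'
        rw [Finset.mem_singleton] at ht ht'
        exact ⟨1, (dec ι).one_mem, by rw [ht, ht']; rfl⟩) (by
        intro ρ' c' _ t ht
        rw [Finset.mem_singleton] at ht
        rw [ht, map_zero]) x n hWx hsim (by
      have h3 := (hD.nrm x hWx 1 1 n).2 (by exact_mod_cast hn)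
      simpa using h3)
    rw [Finset.card_singleton] at h1
    have h2 := CY9_one h1
    have h4 := hGLU (p ^ a) p ι r m0 _ _ _ _ _ _ _ _
      (hGLU (p ^ a) p ι r m0 _ _ _ _ _ _ _ _ hcm h2) h2
    rw [h3] at h4
    have h5 := Cyc.weil6 r m0 _ h4
    refine Cyc.sim _ J (CYM_germ hD ?_ hJ ?_) h5
    · intro z hz
      rw [Multiset.mem_add, Multiset.mem_add] at hz
      rcases hz with (hz | hz) | hz
      · obtain ⟨w, _, rfl⟩ := Multiset.mem_map.1 hz
        exact C.weil w
      · rw [Multiset.eq_of_mem_replicate hz]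
        exact hWx
      · rw [Multiset.eq_of_mem_replicate hz]
        exact hWx
    · rw [Multiset.map_add, Multiset.map_add, hmap, Multiset.map_replicate, hxy, hM, add_assoc]
      rfl
  rcases hH.wy with h | h
  · refine key 0 (by rw [hwx, h]; norm_num) ?_
    rw [h] at ht
    have h1 : ((C.Phi ∩ C.half).ncard : ℝ) = 3 := by
      push_cast at ht
      linarith
    have h2 : (C.Phi ∩ C.half).ncard = 3 := by exact_mod_cast h1
    omega
  · refine key 1 (by rw [hwx, h]; norm_num) ?_
    rw [h] at ht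
    have h1 : ((C.Phi ∩ C.half).ncard : ℝ) = 1 := by
      push_cast at ht
      linarith
    have h2 : (C.Phi ∩ C.half).ncard = 1 := by exact_mod_cast h1
    omega

theorem p_CY9 (hLNE : Stmt_LNE) (hDT : Stmt_DT9) (hRE : Stmt_RE9) (hMT : Stmt_MT9)
    (hBLD : Stmt_BLD) (hHLF : Stmt_HLF) (hTSP : Stmt_TSP) (hRTX : Stmt_RTX) (hGLU : Stmt_GLU)
    (hRQU : Stmt_RQU) : Stmt_CY9 := by
  intro p _ a ι ρ c hc ha hD R hR y V m P hH J hJ hM
  rcases hM with hM | hM
  · exact CY9_main hLNE hDT hRE hMT hBLD hHLF hTSP hRTX hGLU hRQU p a ι ρ c hc ha hD R hR y V m P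
      hH J hJ hM
  · obtain ⟨P', hP', hv⟩ := CY9_flip (coreU ι ρ c hc) hH
    refine CY9_main hLNE hDT hRE hMT hBLD hHLF hTSP hRTX hGLU hRQU p a ι ρ c hc ha hD R hR (-y) V m
      P' hP' J hJ ?_
    rw [hM, hv, neg_neg]

end Pool.T4
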