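import Pool.Agent.Work.MP_223b32_ag.Defs

/-!
# Definitions: Frobenius eigenvalues of abelian varieties over finite fields, CM types and the
algebraic classes which are known

`p` is a prime, `q = p ^ a`, `ι` an embedding of the algebraic closure `Qb` of `ℚ` in an algebraic
closure of `ℚ_p`.
-/

namespace Pool.T4

open Pool.Agent.Work.MP_223b32_ag

/-- The algebraic closure of `ℚ`. -/
abbrev Qb := AlgebraicClosure ℚ

/-- The Galois group of `ℚ`. -/
abbrev GQ := Qb ≃ₐ[ℚ] Qb

/-- `x` and `y` are equal after a finite extension of the finite field: `x ^ N = y ^ N`. -/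
def Sim (x y : Qb) : Prop := ∃ N : ℕ, 0 < N ∧ x ^ N = y ^ N

/-- The equivalence relation `Sim`. -/
instance simSetoid : Setoid Qb where
  r := Sim
  iseqv := ⟨fun _ => ⟨1, one_pos, rfl⟩, fun ⟨N, h, e⟩ => ⟨N, h, e.symm⟩, by
    rintro x y z ⟨M, hM, e⟩ ⟨N, hN, f⟩
    exact ⟨M * N, Nat.mul_pos hM hN, by
      rw [pow_mul, e, ← pow_mul, mul_comm M N, pow_mul, f, ← pow_mul, mul_comm N M]⟩⟩

/-- The germ of a Weil number (Frobenius over the algebraic closure of the finite field). -/
def germ (x : Qb) : Quotient simSetoid := Quotient.mk _ x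

/-- `x` is a Weil `q`-number. -/
def Weil (q : ℕ) (x : Qb) : Prop := IsIntegral ℤ x ∧ ∀ ρ : Qb →+* ℂ, ‖ρ x‖ ^ 2 = q

/-- `x` is supersingular. -/
def SS (q : ℕ) (x : Qb) : Prop := Sim (x ^ 2) q

/-- `g` is the complex conjugation belonging to the embedding `ρ`. -/
def IsConj (g : GQ) (ρ : Qb →+* ℂ) : Prop := ∀ y, ρ (g y) = starRingEnd ℂ (ρ y)

variable {p : ℕ} [Fact p.Prime]

/-- The decomposition group of the place `ι`. -/
def dec (ι : Qb →+* PadicAlgCl p) : Subgroup GQ where
  carrier := {g | ∀ x, ‖ι (g x)‖ = ‖ι x‖}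
  mul_mem' := fun {g h} hg hh x => by rw [AlgEquiv.mul_apply, hg, hh]
  one_mem' := fun x => rfl
  inv_mem' := fun {g} hg x => by
    have h := hg (g⁻¹ x)
    rw [← AlgEquiv.mul_apply, mul_inv_cancel, AlgEquiv.one_apply] at h
    exact h.symm

/-- The orbit of the germ of `x` under the decomposition group.  The number of its elements is the
degree over `ℚ_p` of the completion of `ℚ(x ^ N)`, `N` sufficiently divisible, at the place `ι`. -/
def locOrbit (ι : Qb →+* PadicAlgCl p) (x : Qb) : Set (Quotient simSetoid) :=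
  {c | ∃ g ∈ dec ι, c = germ (g x)}

/-- The multiplicity of the germ of `x` in `R`. -/
noncomputable def mult (R : Multiset Qb) (x : Qb) : ℕ := by
  classical exact (R.map germ).count (germ x)

/-- The properties of the multiset `R` of the Frobenius eigenvalues on `H^1` of an abelian variety
over `F_q`, of dimension `card R / 2`: Weil numbers, stable under the Galois group, and the
condition of Honda and Tate over all extensions of `F_q`: the multiplicity of the germ of `x` times
its slope times the local degree is an integer. -/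
structure IsAV (q : ℕ) (ι : Qb →+* PadicAlgCl p) (R : Multiset Qb) : Prop where
  weil : ∀ x ∈ R, Weil q x
  stable : ∀ g : GQ, (R.map g).map germ = R.map germ
  ht : ∀ x ∈ R, ∃ n : ℕ, ‖ι x‖ ^ (mult R x * (locOrbit ι x).ncard) * (q : ℝ) ^ n = 1

/-- The orbit of a point under the decomposition group. -/
def locOrb (ι : Qb →+* PadicAlgCl p) {X : Type} [MulAction GQ X] (x : X) : Set X :=
  {y | ∃ g ∈ dec ι, y = g • x}

/-- A finite set `X` with an action of the Galois group is the set `Hom(P, Qb)` of a product `P` of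
number fields.  `c`: `P` is a CM algebra.  `ka`: `P` contains the imaginary quadratic field
`ℚ(r)`, `r ^ 2 = -m`.  `al`: a germ of a Weil number in `P`. -/
structure CMAlg (q : ℕ) (X : Type) [MulAction GQ X] (r : Qb) (m : ℚ) where
  c : X → X
  al : X → Qb
  ka : X → Qb
  isOpen : ∃ L : IntermediateField ℚ Qb, FiniteDimensional ℚ L ∧
    ∀ g : GQ, (∀ y ∈ L, g y = y) → ∀ x : X, g • x = x
  conj : ∀ (ρ : Qb →+* ℂ) (g : GQ), IsConj g ρ → ∀ x : X, g • x = c x
  c_ne : ∀ x, c x ≠ x
  weil : ∀ x, Weil q (al x)
  al_smul : ∀ (g : GQ) (x : X), Sim (al (g • x)) (g (al x))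
  m_pos : 0 < m
  r_sq : r ^ 2 = -(m : Qb)
  ka_eq : ∀ x, ka x = r ∨ ka x = -r
  ka_smul : ∀ (g : GQ) (x : X), ka (g • x) = g (ka x)

/-- In addition a CM type `Phi` of `P`; `al` is the germ of the Frobenius of the reduction of the
abelian varieties with CM type `(P, Phi)`, by the formula of Shimura and Taniyama. -/
structure CMSet (q : ℕ) (ι : Qb →+* PadicAlgCl p) (X : Type) [MulAction GQ X] (r : Qb) (m : ℚ)
    extends CMAlg q X r m where
  Phi : Set X
  type : ∀ x, x ∈ Phi ↔ c x ∉ Phi
  st : ∀ x, ‖ι (al x)‖ ^ (locOrb ι x).ncard * (q : ℝ) ^ (Phi ∩ locOrb ι x).ncard = 1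

/-- The embeddings of `P` which are the given one on `ℚ(r)`; the Weil classes are the vectors with
these eigenvalues. -/
noncomputable def CMAlg.half {q : ℕ} {X : Type} [MulAction GQ X] {r : Qb} {m : ℚ} [Fintype X]
    (C : CMAlg q X r m) : Finset X := by
  classical exact Finset.univ.filter fun x => C.ka x = r

/-- `S` is the multiset of the Frobenius eigenvalues of the Weil classes (for `ℚ(r)`) on the
reduction of an abelian variety with complex multiplication, of dimension `n`, where `t` of the
`n` embeddings in `half` are in the CM type; `b = true`: one factor is an elliptic curve. -/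
def HasCM (q : ℕ) (ι : Qb →+* PadicAlgCl p) (r : Qb) (m : ℚ) (n t : ℕ) (b : Bool)
    (S : Multiset Qb) : Prop :=
  ∃ (X : Type) (_ : Fintype X) (_ : MulAction GQ X) (C : CMSet q ι X r m),
    Fintype.card X = 2 * n ∧ (C.Phi ∩ C.half).ncard = t ∧ C.half.val.map C.al = S ∧
      (b = true → ∃ y : X, ∀ g : GQ, g • y = y ∨ g • y = C.c y)

/-- The multisets of Weil numbers `{x_1, …, x_2j}` for which the class `v_1 ∧ … ∧ v_2j`, `v_i` in
`H^1` with eigenvalue `x_i`, is algebraic by known results: the smallest set of multisets which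
satisfies the following rules.  `pair`: Tate's theorem.  `join`: products.  `cancel`: multiplication
with a divisor on `Y × Y`, complementary class and direct image.  `weil4`, `weil6`: reduction of
Weil classes on abelian varieties with complex multiplication of dimension `4`, and of dimension `6`
with an elliptic curve as a factor (then the discriminant can be changed by the polarisation);
Markman's theorem. -/
inductive Cyc (q : ℕ) (ι : Qb →+* PadicAlgCl p) : Multiset Qb → Prop
  | zero : Cyc q ι 0
  | sim (S T : Multiset Qb) : S.map germ = T.map germ → Cyc q ι S → Cyc q ι T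
  | pair (x y : Qb) : Weil q x → Sim (x * y) q → Cyc q ι {x, y}
  | join (S T : Multiset Qb) : Cyc q ι S → Cyc q ι T → Cyc q ι (S + T)
  | cancel (S : Multiset Qb) (x y : Qb) : Weil q x → Sim (x * y) q →
      Cyc q ι (S + {x, y}) → Cyc q ι S
  | weil4 (r : Qb) (m : ℚ) (b : Bool) (S : Multiset Qb) : HasCM q ι r m 4 2 b S → Cyc q ι S
  | weil6 (r : Qb) (m : ℚ) (S : Multiset Qb) : HasCM q ι r m 6 3 true S → Cyc q ι S

/-- The Tate property for the multiset `R`: all Tate relations are in `Cyc`. -/
def TateProp (q : ℕ) (ι : Qb →+* PadicAlgCl p) (R : Multiset Qb) : Prop :=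
  ∀ (S : Multiset Qb) (j : ℕ), S ≤ R → S.card = 2 * j → Sim S.prod ((q : Qb) ^ j) → Cyc q ι S

/-- The classes `v_1 ∧ … ∧ v_2j`, `v_i` eigenvectors with eigenvalues `ρ (x_i)`, where the multiset
of the `x_i` is in `Cyc`, span this subspace of the exterior algebra. -/
noncomputable def algClasses {V : Type} [AddCommGroup V] [Module ℂ V] (q : ℕ)
    (ι : Qb →+* PadicAlgCl p) (ρ : Qb →+* ℂ) (F : Module.End ℂ V) (j : ℕ) :
    Submodule ℂ (ExteriorAlgebra ℂ V) :=
  Submodule.span ℂ {w | ∃ (v : Fin (2 * j) → V) (x : Fin (2 * j) → Qb),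
    (∀ i, F (v i) = ρ (x i) • v i) ∧ Cyc q ι (Finset.univ.val.map x) ∧
      w = ExteriorAlgebra.ιMulti ℂ (2 * j) v}

end Pool.T4
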