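import Pool.Agent.Work.MP_223b32_t4.Defs

/-! # Definitions for powers -/

namespace Pool.T4

/-- `T` has only germs which are in `R` or supersingular (for instance the eigenvalues of a power
of the abelian variety times a supersingular one). -/
def PowOf (q : ℕ) (R T : Multiset Qb) : Prop := ∀ x ∈ T, SS q x ∨ ∃ y ∈ R, Sim x y

/-- `A` is isogenous, over the algebraic closure of the finite field, to a power of a simple abelian
variety times a supersingular one: any two Frobenius eigenvalues which are not supersingular are
conjugate, up to roots of unity. -/
def Isotypic (q : ℕ) (R : Multiset Qb) : Prop :=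
  ∀ x ∈ R, ∀ y ∈ R, SS q x ∨ SS q y ∨ ∃ g : GQ, Sim (g x) y

end Pool.T4
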