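import Pool.Agent.Work.MP_223b32_t4.DefsInd
import Pool.Agent.Work.MP_223b32_t4.Defs2

/-!
# Definitions for abelian varieties of dimension six

The rule `weil6` of `Cyc` without the elliptic curve, and simple abelian varieties of dimension six.
-/

namespace Pool.T4

open Pool.Agent.Work.MP_223b32_ag

variable {p : ℕ} [Fact p.Prime]

/-- As `Cyc`, but in the rule `weil6` no elliptic curve is needed: Weil classes on ALL abelian
varieties of dimension `6` with complex multiplication (by a CM algebra `P` with an imaginary
quadratic field `K = ℚ(r)`, `r ^ 2 = -m`, in `P`, signature `(3, 3)`) are algebraic.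

Markman's theorem says this for polarised abelian varieties of dimension `2 n = 6` whose hermitian
form has discriminant `(-1) ^ n = -1` (for `2 n = 4`, discriminant `1`: Markman, JEMS 25 (2023)).
LEMMA. If `(P, Phi)` is a CM type with exactly `n` of the `2 n` embeddings over `K` in `Phi` then
the abelian variety has a polarisation of discriminant `(-1) ^ n`.
Proof. `F = P⁺` is a product of totally real fields `F_i`, `P_i = K F_i`.  The polarisations are
`Tr(t ξ x ȳ)`, `t ∈ F` totally positive.  With `η = ξ / r ∈ F` the hermitian form is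
`H_t = Tr_{P/K}(t η x ȳ)`, `det H_t = Nm(t) Nm(η) disc(F)`, and `Nm(η)` has the sign `(-1) ^ n`
(signature), `disc(F) > 0`.  Let `d = (-1) ^ n det H_1 > 0` and let `χ_l` be the norm residue
character of `K` at the prime `l`.  By Hasse's norm theorem we want `χ_l(d) χ_l(Nm t) = 1` for all
`l`.  `χ_l(Nm t)` is the product over the places `w | l` of `F` of the symbols `(t, P/F)_w`.
(a) If `l` does not split in `K` and all `w | l` split in `P` then `K_l ⊆ F_w` for all `w | l`,
`P_w = F_w × F_w`, the involution exchanges the factors, `F_w × 0` is isotropic, so `H_1` is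
hyperbolic at `l` and `χ_l(d) = 1`.
(b) The set of the `l` with `χ_l(d) = -1` is finite and even (product formula).  For each such `l`
choose by (a) a place `w | l` of some `F_i` not split in `P`, and prescribe the sign `-1` there.  If
for some `i` the product of the signs is `-1` there are evenly many such `i`; pair them, and for a
pair `i, i'` take a new prime `l₀` inert in `K` and totally split in `F` (Chebotarev; the Galois
closure of `F` is totally real) and change the signs at one place of `F_i` and one of `F_i'` over
`l₀`.  Now the product of the signs is `1` for all `i`, and for each `l` the product of the signs at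
the `w | l` is `χ_l(d)`.  By class field theory of `P_i / F_i` some `t_i ∈ F_i`, totally positive,
has these symbols. -/
inductive CycW (q : ℕ) (ι : Qb →+* PadicAlgCl p) : Multiset Qb → Prop
  | zero : CycW q ι 0
  | sim (S T : Multiset Qb) : S.map germ = T.map germ → CycW q ι S → CycW q ι T
  | pair (x y : Qb) : Weil q x → Sim (x * y) q → CycW q ι {x, y}
  | join (S T : Multiset Qb) : CycW q ι S → CycW q ι T → CycW q ι (S + T)
  | cancel (S : Multiset Qb) (x y : Qb) : Weil q x → Sim (x * y) q →
      CycW q ι (S + {x, y}) → CycW q ι S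
  | weil4 (r : Qb) (m : ℚ) (b : Bool) (S : Multiset Qb) : HasCM q ι r m 4 2 b S → CycW q ι S
  | weil6 (r : Qb) (m : ℚ) (b : Bool) (S : Multiset Qb) : HasCM q ι r m 6 3 b S → CycW q ι S

/-- The Tate property for the multiset `R`, with `CycW`. -/
def TateW (q : ℕ) (ι : Qb →+* PadicAlgCl p) (R : Multiset Qb) : Prop :=
  ∀ (S : Multiset Qb) (j : ℕ), S ≤ R → S.card = 2 * j → Sim S.prod ((q : Qb) ^ j) → CycW q ι S

/-- As `algClasses`, with `CycW`. -/
noncomputable def algClassesW {V : Type} [AddCommGroup V] [Module ℂ V] (q : ℕ)
    (ι : Qb →+* PadicAlgCl p) (ρ : Qb →+* ℂ) (F : Module.End ℂ V) (j : ℕ) :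
    Submodule ℂ (ExteriorAlgebra ℂ V) :=
  Submodule.span ℂ {w | ∃ (v : Fin (2 * j) → V) (x : Fin (2 * j) → Qb),
    (∀ i, F (v i) = ρ (x i) • v i) ∧ CycW q ι (Finset.univ.val.map x) ∧
      w = ExteriorAlgebra.ιMulti ℂ (2 * j) v}

/-- Some automorphism permutes the germs in `R` with order five: `5` divides the degree of the
Galois closure of `ℚ(x ^ N : x ∈ R)`, `N` sufficiently divisible. -/
def HasFive (R : Multiset Qb) : Prop :=
  ∃ g : GQ, (∃ x ∈ R, ¬ Sim (g x) x) ∧ ∀ x ∈ R, Sim ((g ^ 5 : GQ) x) x

/-- The slopes are `0` and `1`: the abelian variety is ordinary. -/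
def Ordin (q : ℕ) (ι : Qb →+* PadicAlgCl p) (R : Multiset Qb) : Prop :=
  ∀ x ∈ R, ‖ι x‖ = 1 ∨ ‖ι x‖ * (q : ℝ) = 1

/-- An element of the decomposition group maps the germ of some `x ∈ R` to its complex conjugate:
the place of `ℚ(x ^ N + (q / x) ^ N)` below `ι` does not split in `ℚ(x ^ N)`. -/
def SelfConj (q : ℕ) (ι : Qb →+* PadicAlgCl p) (R : Multiset Qb) : Prop :=
  ∃ x ∈ R, ∃ d ∈ dec ι, Sim (x * d x) (q : Qb)

/-- The Weil numbers of an absolutely simple abelian variety of dimension six, with twelve different
germs, such that five divides the degree of the Galois closure, which is ordinary or has a place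
over `p` of the totally real field which does not split. -/
def SimpleSix (q : ℕ) (ι : Qb →+* PadicAlgCl p) (R : Multiset Qb) : Prop :=
  R.card ≤ 12 ∧ (∃ x ∈ R, (galOrbit x).ncard = 12) ∧ HasFive R ∧
    (Ordin q ι R ∨ SelfConj q ι R)

end Pool.T4
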