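import Pool.Agent.Work.MP_223b32_t4.InterfaceJ
import Pool.Agent.Work.MP_223b32_t4.EQU

/-! # Block EQJ: all relations are multiples of one of length six -/

set_option autoImplicit false

namespace Pool.T4

theorem EQJ_aux {U : Type} [AddCommGroup U] [DecidableEq U] (S J : Multiset U) (t : ℕ)
    (ht : 0 < t) (hJ : J.Nodup) (hS : ∀ v ∈ S, v ∈ J ∨ -v ∈ J) (hnot : ∀ v ∈ S, -v ∉ S)
    (h : ∀ v ∈ J, (S.count v : ℤ) - (S.count (-v) : ℤ) = t) : S = t • J := by
  have h1 : ∀ v ∈ J, v ∈ S ∧ S.count v = t := by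
    intro v hv
    have h2 := h v hv
    have h3 : v ∈ S := by
      by_contra hc
      rw [Multiset.count_eq_zero.2 hc] at h2
      omega
    rw [Multiset.count_eq_zero.2 (hnot v h3)] at h2
    exact ⟨h3, by omega⟩
  refine Multiset.ext.2 fun v => ?_
  rw [Multiset.count_nsmul]
  by_cases hv : v ∈ J
  · rw [Multiset.count_eq_one_of_mem hJ hv, (h1 v hv).2, mul_one]
  · rw [Multiset.count_eq_zero.2 hv, mul_zero]
    refine Multiset.count_eq_zero.2 fun hvS => ?_
    rcases hS v hvS with h2 | h2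
    · exact hv h2
    · exact hnot v hvS (h1 (-v) h2).1

theorem p_EQJ (hEQU : Stmt_EQU) : Stmt_EQJ := by
  classical
  intro G U _ _ _ _ K R hR hnd hcard hone J hJR hJ6 hJ0 hJp S hSR hS0 hSp hSne
  have hJne0 : J ≠ 0 := by
    rintro rfl
    simp at hJ6
  obtain ⟨hJnd, hJnz, hJsgn, hJne, hJle⟩ := hEQU G U K R hR hnd hone J hJR hJ0 hJp hJne0
  have h0R : (0 : U) ∉ R := EQU_zero K hR hnd
  have hngc : (ng J).card = 6 := by
    unfold ng
    rw [Multiset.card_map]
    exact hJ6
  have hReq : R = J + ng J := by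
    refine (Multiset.eq_of_le_of_card_le hJle ?_).symm
    rw [Multiset.card_add, hJ6, hngc, hcard]
  have hngng : ng (ng J) = J := by
    unfold ng
    rw [Multiset.map_map]
    simp
  have hmng : ∀ v, v ∈ ng J ↔ -v ∈ J := fun v => EQ7_memng
  have hH1 : HexW K R J := ⟨hR, hJ6, hReq, hJ0, hJp, hJnd, hJnz, hJsgn, hJne⟩
  have hneg : ∀ v ∈ R, -v ∈ R := by
    intro v hv
    rw [hReq, Multiset.mem_add, hmng] at hv ⊢
    rw [neg_neg]
    exact hv.symm
  have hJnot : ∀ v ∈ J, -v ∉ J := fun v hv => SGN_notMem hJp hv (hJnz v hv)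
  have hSnot : ∀ v ∈ S, -v ∉ S := fun v hv =>
    SGN_notMem hSp hv fun h => h0R (h ▸ hSR v hv)
  have hH2 : HexW K R (ng J) := by
    refine ⟨hR, hngc, ?_, ?_, ?_, ?_, ?_, ?_, ?_⟩
    · rw [hngng, hReq, add_comm]
    · unfold ng
      rw [Multiset.sum_map_neg', hJ0, neg_zero]
    · intro u v huv h
      have hu : -u ∈ J := (hmng u).1 (Multiset.mem_of_le huv (by simp))
      have hv : -v ∈ J := (hmng v).1 (Multiset.mem_of_le huv (by simp))
      have h1 : v = -u := (neg_eq_of_add_eq_zero_right h).symm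
      rw [h1, neg_neg] at hv
      exact hJnot u hv hu
    · unfold ng
      exact hJnd.map neg_injective
    · intro v hv h
      rw [h] at hv
      have h1 := (hmng 0).1 hv
      rw [neg_zero] at h1
      exact hJnz 0 h1 rfl
    · intro g
      have h1 : tr g (ng J) = ng (tr g J) := by
        unfold tr ng
        rw [Multiset.map_map, Multiset.map_map]
        refine Multiset.map_congr rfl fun v _ => ?_
        exact smul_neg g v
      rw [h1]
      rcases hJsgn g with h | h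
      · left; rw [h]
      · right; rw [h]
    · intro h
      rw [hngng] at h
      exact hJne h.symm
  have hVn : ∀ v ∈ R.toFinset, -v ∈ R.toFinset := fun v hv =>
    Multiset.mem_toFinset.2 (hneg v (Multiset.mem_toFinset.1 hv))
  obtain ⟨f, hf⟩ : ∃ f : U → ℤ, f = fun v => (S.count v : ℤ) - (S.count (-v) : ℤ) := ⟨_, rfl⟩
  obtain ⟨h, hh⟩ : ∃ h : U → ℤ, h = fun v => (J.count v : ℤ) - (J.count (-v) : ℤ) := ⟨_, rfl⟩
  have hfr : IsRel R.toFinset f := by
    rw [hf]
    exact EQW_relS R.toFinset hVn S (fun v hv => Multiset.mem_toFinset.2 (hSR v hv)) hS0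
  have hhr : IsRel R.toFinset h := by
    rw [hh]
    exact EQW_relS R.toFinset hVn J
      (fun v hv => Multiset.mem_toFinset.2 (Multiset.mem_of_le hJR hv)) hJ0
  have hpr := hone R.toFinset (fun v => Multiset.mem_toFinset) f h hfr hhr
  have hh1 : ∀ v ∈ J, h v = 1 := by
    intro v hv
    rw [hh]
    show (J.count v : ℤ) - (J.count (-v) : ℤ) = 1
    rw [Multiset.count_eq_one_of_mem hJnd hv, Multiset.count_eq_zero.2 (hJnot v hv)]
    norm_num
  obtain ⟨j0, hj0⟩ := Multiset.exists_mem_of_ne_zero hJne0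
  have hfl : ∀ u, f u = f j0 * h u := by
    intro u
    have h1 := hpr u j0
    rw [hh1 j0 hj0, mul_one] at h1
    exact h1
  have hfS : ∀ v, f v = (S.count v : ℤ) - (S.count (-v) : ℤ) := fun v => by rw [hf]
  have hSJ : ∀ v ∈ S, v ∈ J ∨ -v ∈ J := by
    intro v hv
    have h1 := hSR v hv
    rw [hReq, Multiset.mem_add, hmng] at h1
    exact h1
  rcases lt_trichotomy (f j0) 0 with h1 | h1 | h1
  · obtain ⟨t, ht⟩ : ∃ t : ℕ, (t : ℤ) = -f j0 := ⟨(-f j0).toNat, by omega⟩
    refine ⟨t, ng J, by omega, ?_, hH2⟩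
    refine EQJ_aux S (ng J) t (by omega) hH2.nodup ?_ hSnot ?_
    · intro v hv
      rw [hmng, hmng, neg_neg]
      exact (hSJ v hv).symm
    · intro v hv
      rw [← hfS v, hfl v]
      have h2 : h v = -1 := by
        have h3 := hh1 (-v) ((hmng v).1 hv)
        rw [hhr.1 v] at h3
        omega
      rw [h2, ht]
      ring
  · exfalso
    obtain ⟨s0, hs0⟩ := Multiset.exists_mem_of_ne_zero hSne
    have h2 := hfl s0
    rw [h1, zero_mul, hfS s0, Multiset.count_eq_zero.2 (hSnot s0 hs0)] at h2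
    have h3 : 0 < S.count s0 := Multiset.count_pos.2 hs0
    omega
  · obtain ⟨t, ht⟩ : ∃ t : ℕ, (t : ℤ) = f j0 := ⟨(f j0).toNat, by omega⟩
    refine ⟨t, J, by omega, ?_, hH1⟩
    refine EQJ_aux S J t (by omega) hJnd hSJ hSnot ?_
    intro v hv
    rw [← hfS v, hfl v, hh1 v hv, ht, mul_one]

end Pool.T4
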