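import Pool.Agent.Work.MP_223b32_t4.InterfaceW
import Pool.Agent.Work.MP_223b32_t4.FN2
import Pool.Agent.Work.MP_223b32_t4.FN3

/-! # Block FNW: powers of an absolutely simple abelian variety of dimension six (after FN7) -/

set_option autoImplicit false

namespace Pool.T4

open Pool.Agent.Work.MP_223b32_ag

theorem p_FNW (hEQW : Stmt_EQW) (hCYW : Stmt_CYW)
    (hRNW : Stmt_RNW) (hCSW : Stmt_CSW) (hHTC : Stmt_HTC) (hDIC : Stmt_DIC) (hCCJ : Stmt_CCJ)
    (hRHO : Stmt_RHO) : Stmt_FNW := by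
  classical
  intro p _ a ι ha R T hR hsix hI S j hST hSc hSs
  obtain ⟨hcard, hOrb, hfive, hslope⟩ := hsix
  have hq : 0 < p ^ a := pow_pos (Fact.out (p := p.Prime)).pos a
  have hd := hDIC p a ι ha
  obtain ⟨ρ⟩ := hRHO
  obtain ⟨c, hc⟩ := hCCJ ρ
  obtain ⟨s, hs, hsw⟩ := CYD_sqrt (p ^ a) hq
  have hTw : ∀ x ∈ T, Weil (p ^ a) x := fun x hx => by
    rcases hI x hx with h | ⟨y, hy, N, hN, h⟩
    · exact FN2_weil_of_ss hq h
    · exact FN2_weil_of_pow hN (hR.weil y hy) h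
  have hSw : ∀ x ∈ S, Weil (p ^ a) x := fun x hx => hTw x (Multiset.mem_of_le hST hx)
  obtain ⟨J, hJS, hJnp, hJsum, hJev, hJcyc⟩ := hRNW p a ι ha hd S hSw
  refine hJcyc ?_
  have hJw : ∀ x ∈ J, Weil (p ^ a) x := fun x hx => hSw x (Multiset.mem_of_le hJS hx)
  have hS0 : (S.map (uu (p ^ a) ι)).sum = 0 := by
    rw [hd.sum S hSw, hSc]
    exact FN2_sim' hSs
  rw [hS0] at hJsum
  have hJe : Even J.card := hJev.2 ⟨j, by rw [hSc]; ring⟩
  obtain ⟨S', z, hJ', hnz, hsum⟩ := FN2_split (J.map (uu (p ^ a) ι))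
  rw [hJsum] at hsum
  have hS'le : S' ≤ J.map (uu (p ^ a) ι) := by rw [hJ']; exact Multiset.le_add_right _ _
  have hS'np : NoPair S' := FN2_noPair hS'le hJnp
  have hcardJ : J.card = S'.card + z := by
    have h1 := congrArg Multiset.card hJ'
    rwa [Multiset.card_map, Multiset.card_add, Multiset.card_replicate] at h1
  have hR' : ∀ v ∈ S', v ∈ R.map (uu (p ^ a) ι) := fun v hv => by
    obtain ⟨x, hx, rfl⟩ := Multiset.mem_map.1 (Multiset.mem_of_le hS'le hv)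
    have hxT : x ∈ T := Multiset.mem_of_le (hJS.trans hST) hx
    rcases hI x hxT with h | ⟨y, hy, h⟩
    · exact absurd ((hd.ss x (hTw x hxT)).1 h) (hnz _ hv)
    · rw [(hd.sim x y (hTw x hxT) (hR.weil y hy)).1 h]
      exact Multiset.mem_map_of_mem _ hy
  by_cases hS'0 : S' = 0
  · have h1 : J = 0 := by
      rw [← Multiset.card_eq_zero]
      have hz : z ≤ 1 := by
        by_contra hz
        push Not at hz
        refine hJnp 0 0 ?_ (add_zero 0)
        rw [hJ']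
        refine le_trans ?_ (Multiset.le_add_left _ _)
        have h1 : ({0, 0} : Multiset (UU ι)) = Multiset.replicate 2 0 := rfl
        rw [h1]
        exact (Multiset.replicate_le_replicate (0 : UU ι)).2 hz
      rw [hS'0, Multiset.card_zero, zero_add] at hcardJ
      obtain ⟨k, hk⟩ := hJe
      omega
    rw [h1]
    exact CycW.zero
  have hRK : IsR (coreU ι ρ c hc) (R.map (uu (p ^ a) ι)) := hHTC p a ι ρ c hc ha hd R hR
  obtain ⟨x, hxR, hx10⟩ := hOrb
  obtain ⟨t, J1, ht, hSt, hP⟩ :=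
    hEQW GQ (UU ι) (coreU ι ρ c hc) (R.map (uu (p ^ a) ι)) hRK
      (by rw [Multiset.card_map]; exact hcard)
      (uu (p ^ a) ι x) (Multiset.mem_map_of_mem _ hxR)
      (by rw [FN3_orb hd (hR.weil x hxR)]; exact hx10)
      (by
        obtain ⟨g, ⟨y, hy, hgy⟩, hg5⟩ := hfive
        refine ⟨g, ⟨uu (p ^ a) ι y, Multiset.mem_map_of_mem _ hy, fun h => hgy ?_⟩, fun v hv => ?_⟩
        · rw [← hd.smul y (hR.weil y hy) g] at h
          exact (hd.sim _ _ (hd.weil y (hR.weil y hy) g) (hR.weil y hy)).2 h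
        · obtain ⟨y, hy, rfl⟩ := Multiset.mem_map.1 hv
          rw [← hd.smul y (hR.weil y hy) (g ^ 5)]
          exact (hd.sim _ _ (hd.weil y (hR.weil y hy) _) (hR.weil y hy)).1 (hg5 y hy))
      S' hR' hsum hS'np hS'0
  have hS'card : S'.card = t * J1.card := by
    rw [hSt, Multiset.card_nsmul]
  have hJ1R : J1 ≤ R.map (uu (p ^ a) ι) := by
    rw [hP.eq]
    exact Multiset.le_add_right _ _
  obtain ⟨J0, hJ0, hJ0m⟩ := FN2_lift (uu (p ^ a) ι) hJ1R
  have hJ0w : ∀ x ∈ J0, Weil (p ^ a) x := fun x hx => hR.weil x (Multiset.mem_of_le hJ0 hx)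
  have hcyc : CycW (p ^ a) ι (J0 + Multiset.replicate 0 s) := by
    rw [Multiset.replicate_zero, add_zero]
    exact hCYW p a ι ρ c hc ha hd R J0 hR hJ0 (by rw [hJ0m]; exact hP) hslope
  refine hCSW p a ι ha hd s hs J0 J hJ0w hJw 0 t z hcyc ?_ ?_
  · obtain ⟨k, hk⟩ := hJe
    rw [hcardJ, hS'card, hP.card] at hk
    exact ⟨k - 3 * t, by omega⟩
  · rw [hJ', hSt, hJ0m]

end Pool.T4
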