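import Pool.Agent.Work.MP_223b32_t4.InterfaceV

/-! # (HEV) a stable half -/

namespace Pool.T4

open Pool.Agent.Work.MP_223b32_ag

theorem HEV_orb {G X : Type} [Group G] [MulAction G X] (D : Subgroup G) (d : G) (hd : d ∈ D)
    (x : X) : orb D (d • x) = orb D x := by
  ext y
  constructor
  · rintro ⟨g, hg, rfl⟩
    exact ⟨g * d, D.mul_mem hg hd, by rw [mul_smul]⟩
  · rintro ⟨g, hg, rfl⟩
    exact ⟨g * d⁻¹, D.mul_mem hg (D.inv_mem hd), by rw [mul_smul, inv_smul_smul]⟩

/-- (HEV) -/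
theorem p_HEV : Stmt_HEV := by
  intro G X _ _ _ D c s hcc hcd hco hs
  classical
  obtain ⟨e, he⟩ : ∃ e : Set X → ℕ, Function.Injective e :=
    ⟨fun A => (Finite.equivFin (Set X) A : ℕ), fun A B h =>
      (Finite.equivFin (Set X)).injective (Fin.ext h)⟩
  have hne : ∀ x, e (orb D x) ≠ e (orb D (c x)) := by
    intro x h
    have h1 : c x ∈ orb D (c x) := ⟨1, D.one_mem, (one_smul G (c x)).symm⟩
    rw [← he h] at h1
    exact hco x h1
  refine ⟨{x | s x < s (c x) ∨ (s x = s (c x) ∧ e (orb D x) < e (orb D (c x)))}, ?_, ?_, ?_⟩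
  · intro x
    have h1 := hne x
    simp only [Set.mem_ofPred_eq, hcc]
    constructor
    · rintro (h | ⟨h, h'⟩) (k | ⟨k, k'⟩)
      · exact absurd (h.trans k) (lt_irrefl _)
      · exact absurd k (ne_of_gt h)
      · exact absurd h (ne_of_gt k)
      · exact absurd (h'.trans k') (lt_irrefl _)
    · intro h
      rw [not_or, not_and, not_lt, not_lt] at h
      rcases lt_or_eq_of_le h.1 with h2 | h2
      · exact Or.inl h2
      · exact Or.inr ⟨h2, lt_of_le_of_ne (h.2 h2.symm) h1⟩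
  · intro d hd x hx
    have h2 : c (d • x) = d • c x := hcd d hd x
    simp only [Set.mem_ofPred_eq, h2, hs d hd, HEV_orb D d hd] at hx ⊢
    exact hx
  · rintro x (h | ⟨h, -⟩)
    · exact h.le
    · exact h.le

end Pool.T4
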