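import Pool.Agent.Work.MP_223b32_t4.Defs

/-! # Interface of the blocks -/

namespace Pool.T4

open Pool.Agent.Work.MP_223b32_ag

/-! ## Pure part -/

/-- The orbit of `x` under a subgroup. -/
def orb {G X : Type} [Group G] [MulAction G X] (D : Subgroup G) (x : X) : Set X :=
  {y | ∃ d ∈ D, y = d • x}

/-- The pure setting: `D` the decomposition group, `w` the weight, `c0` complex conjugation. -/
structure Core (G U : Type) [Group G] [AddCommGroup U] [Module ℚ U] [DistribMulAction G U] where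
  D : Subgroup G
  w : U →+ ℝ
  c0 : G
  cc : ∀ v : U, c0 • v = -v
  wD : ∀ d ∈ D, ∀ v : U, w (d • v) = w v
  kron : ∀ v : U, (∀ g : G, w (g • v) = 0) → v = 0

/-- No two elements of `J` are opposite (so `0` occurs at most once). -/
def NoPair {U : Type} [AddCommGroup U] (J : Multiset U) : Prop :=
  ∀ a b : U, ({a, b} : Multiset U) ≤ J → a + b ≠ 0

/-- number of times `v` occurs -/
noncomputable def cnt {U : Type} (v : U) (J : Multiset U) : ℕ := by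
  classical exact J.count v

section

variable {G U : Type} [Group G] [AddCommGroup U] [Module ℚ U] [DistribMulAction G U]

/-- `g J` -/
def tr (g : G) (J : Multiset U) : Multiset U := J.map fun v => g • v

/-- `-J` -/
def ng (J : Multiset U) : Multiset U := J.map fun v => -v

/-- The vectors of an abelian variety. -/
structure IsR (K : Core G U) (R : Multiset U) : Prop where
  stable : ∀ g : G, tr g R = R
  le_one : ∀ v ∈ R, |K.w v| ≤ 1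
  ht : ∀ v ∈ R, ∃ n : ℕ, ((cnt v R * (orb K.D v).ncard : ℕ) : ℝ) * (K.w v + 1) = 2 * n

/-- An exotic relation. -/
structure Good (K : Core G U) (R J : Multiset U) : Prop where
  isR : IsR K R
  card : J.card = 4
  eq : R = J + ng J
  sum : J.sum = 0
  noPair : NoPair J

end

/-- (CAR) -/
def Stmt_CAR : Prop :=
  ∀ (G U : Type) [Group G] [AddCommGroup U] [Module ℚ U] [DistribMulAction G U] (K : Core G U)
    (R J : Multiset U), IsR K R → R.card ≤ 8 → J ≤ R → J.sum = 0 → Even J.card → NoPair J →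
    J = 0 ∨ Good K R J

/-- (SGN) -/
def Stmt_SGN : Prop :=
  ∀ (G U : Type) [Group G] [AddCommGroup U] [Module ℚ U] [DistribMulAction G U] (K : Core G U)
    (R J : Multiset U), Good K R J → (∀ g : G, tr g J = J ∨ tr g J = ng J) ∧ ng J ≠ J

/-- (MUL) -/
def Stmt_MUL : Prop :=
  ∀ (G U : Type) [Group G] [AddCommGroup U] [Module ℚ U] [DistribMulAction G U] (K : Core G U)
    (R J : Multiset U), Good K R J → (∀ g : G, tr g J = J ∨ tr g J = ng J) → ng J ≠ J →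
    J.Nodup ∨ ∃ v v' : U, J = {v, v, v, v'} ∧ (∀ g : G, tr g J = J → g • v = v ∧ g • v' = v') ∧
      (∀ d ∈ K.D, tr d J = J) ∧
      ((K.w v = 1 / 3 ∧ K.w v' = -1) ∨ (K.w v = -(1 / 3) ∧ K.w v' = 1))

/-- (PHI) -/
def Stmt_PHI : Prop :=
  ∀ (G X : Type) [Group G] [Fintype X] [MulAction G X] (D : Subgroup G) (c : X → X) (n : X → ℕ),
    (∀ x, c (c x) = x) → (∀ x, c x ≠ x) → (∀ d ∈ D, ∀ x, c (d • x) = d • c x) →
    (∀ d ∈ D, ∀ x, n (d • x) = n x) → (∀ x, n x + n (c x) = (orb D x).ncard) →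
    ∃ Phi : Set X, (∀ x, x ∈ Phi ↔ c x ∉ Phi) ∧ ∀ x, (Phi ∩ orb D x).ncard = n x

section

variable {G U : Type} [Group G] [AddCommGroup U] [Module ℚ U] [DistribMulAction G U]

/-- `V` is one orbit of nonzero vectors, with at most `8` elements, and they have multiplicity `m`
in an abelian variety of dimension at most `4`. -/
structure IsOrb (K : Core G U) (V : Finset U) (m : ℕ) : Prop where
  ne : V.Nonempty
  nz : ∀ v ∈ V, v ≠ 0
  stable : ∀ g : G, ∀ v ∈ V, g • v ∈ V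
  trans : ∀ u ∈ V, ∀ v ∈ V, ∃ g : G, g • u = v
  m_pos : 0 < m
  card : m * V.card ≤ 8
  le_one : ∀ v ∈ V, |K.w v| ≤ 1
  ht : ∀ v ∈ V, ∃ n : ℕ, ((m * (orb K.D v).ncard : ℕ) : ℝ) * (K.w v + 1) = 2 * n

/-- `f` is a linear relation between the elements of `V`, written as an odd function. -/
def IsRel (V : Finset U) (f : U → ℤ) : Prop :=
  (∀ v, f (-v) = -f v) ∧ (∀ v ∉ V, f v = 0) ∧ ∑ v ∈ V, f v • v = 0

end

/-- (LIN) all the vectors are multiples of one of them -/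
def Stmt_LIN : Prop :=
  ∀ (G U : Type) [Group G] [AddCommGroup U] [Module ℚ U] [DistribMulAction G U] (K : Core G U)
    (V : Finset U) (m : ℕ), IsOrb K V m → (∃ u : U, ∀ v ∈ V, ∃ t : ℚ, v = t • u) → V.card = 2

/-- (FR3) two independent relations and `V.card ≤ 6` -/
def Stmt_FR3 : Prop :=
  ∀ (G U : Type) [Group G] [AddCommGroup U] [Module ℚ U] [DistribMulAction G U] (K : Core G U)
    (V : Finset U) (m : ℕ), IsOrb K V m → V.card ≤ 6 → ∀ f h : U → ℤ, IsRel V f → IsRel V h →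
    ∀ u v : U, f u * h v = f v * h u

/-- (PLA) two independent relations and `V.card = 8`: the vectors are in a plane -/
def Stmt_PLA : Prop :=
  ∀ (G U : Type) [Group G] [AddCommGroup U] [Module ℚ U] [DistribMulAction G U] (K : Core G U)
    (V : Finset U) (m : ℕ), IsOrb K V m → V.card = 8 → ∀ f h : U → ℤ, IsRel V f → IsRel V h →
    (∃ u v : U, f u * h v ≠ f v * h u) →
    ∃ a b : U, ∀ v ∈ V, ∃ s t : ℚ, v = s • a + t • b

/-- (ORB) in a plane the orbits of `D` have at most two elements -/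
def Stmt_ORB : Prop :=
  ∀ (G U : Type) [Group G] [AddCommGroup U] [Module ℚ U] [DistribMulAction G U] (K : Core G U)
    (V : Finset U) (m : ℕ), IsOrb K V m → V.card = 8 →
    (∃ a b : U, ∀ v ∈ V, ∃ s t : ℚ, v = s • a + t • b) →
    ∀ v ∈ V, K.w v = 0 ∨ K.w v = 1 ∨ K.w v = -1

/-- (SQU) the contradiction for `V.card = 8` in a plane -/
def Stmt_SQU : Prop :=
  ∀ (G U : Type) [Group G] [AddCommGroup U] [Module ℚ U] [DistribMulAction G U] (K : Core G U)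
    (V : Finset U) (m : ℕ), IsOrb K V m → V.card = 8 →
    (∃ a b : U, ∀ v ∈ V, ∃ s t : ℚ, v = s • a + t • b) →
    (∀ v ∈ V, K.w v = 0 ∨ K.w v = 1 ∨ K.w v = -1) → False

/-- (RK1) all relations are proportional -/
def Stmt_RK1 : Prop :=
  ∀ (G U : Type) [Group G] [AddCommGroup U] [Module ℚ U] [DistribMulAction G U] (K : Core G U)
    (V : Finset U) (m : ℕ), IsOrb K V m → ∀ f h : U → ℤ, IsRel V f → IsRel V h →
    ∀ u v : U, f u * h v = f v * h u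

/-- (EQC) a Tate relation supported in `V` is a multiple of one with coefficients `± 1` -/
def Stmt_EQC : Prop :=
  ∀ (G U : Type) [Group G] [AddCommGroup U] [Module ℚ U] [DistribMulAction G U] (K : Core G U)
    (V : Finset U) (m : ℕ), IsOrb K V m → ∀ S : Multiset U, (∀ v ∈ S, v ∈ V) → S.sum = 0 →
    NoPair S → S ≠ 0 → ∃ (t : ℕ) (J : Finset U), 0 < t ∧ S = t • J.val ∧ J.sum id = 0 ∧
      NoPair J.val ∧ J ⊆ V ∧ (∀ v ∈ V, v ∈ J ∨ -v ∈ J) ∧ 2 * J.card = V.card ∧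
      (J.card = 3 ∨ J.card = 4)

/-! ## Arithmetic part -/

/-- (CCJ) -/
def Stmt_CCJ : Prop := ∀ ρ : Qb →+* ℂ, ∃ g : GQ, IsConj g ρ

/-- (RHO) -/
def Stmt_RHO : Prop := Nonempty (Qb →+* ℂ)

/-- (KRO) Kronecker's theorem -/
def Stmt_KRO : Prop :=
  ∀ (p : ℕ) [Fact p.Prime] (ι : Qb →+* PadicAlgCl p) (z : Qb) (k : ℕ),
    IsIntegral ℤ ((p : Qb) ^ k * z) → (∀ g : GQ, ‖ι (g z)‖ ≤ 1) →
    (∀ ρ : Qb →+* ℂ, ‖ρ z‖ = 1) → ∃ N : ℕ, 0 < N ∧ z ^ N = 1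

/-- Functions on the Galois group which are invariant under the decomposition group and odd for all
complex conjugations. -/
def UU {p : ℕ} [Fact p.Prime] (ι : Qb →+* PadicAlgCl p) : Submodule ℚ (GQ → ℝ) where
  carrier := {f | (∀ d ∈ dec ι, ∀ g, f (d * g) = f g) ∧
    ∀ (ρ : Qb →+* ℂ) (c : GQ), IsConj c ρ → ∀ g, f (g * c) = -f g}
  add_mem' := fun {f h} hf hh => ⟨fun d hd g => by
      rw [Pi.add_apply, Pi.add_apply, hf.1 d hd, hh.1 d hd], fun ρ c hc g => by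
      rw [Pi.add_apply, Pi.add_apply, hf.2 ρ c hc, hh.2 ρ c hc, neg_add]⟩
  zero_mem' := ⟨fun _ _ _ => rfl, fun _ _ _ _ => by simp⟩
  smul_mem' := fun t f hf => ⟨fun d hd g => by
      rw [Pi.smul_apply, Pi.smul_apply, hf.1 d hd], fun ρ c hc g => by
      rw [Pi.smul_apply, Pi.smul_apply, hf.2 ρ c hc, smul_neg]⟩

theorem IsConj.trans {g c : GQ} {ρ : Qb →+* ℂ} (h : IsConj c ρ) :
    IsConj (g⁻¹ * c * g) (ρ.comp (g : Qb →+* Qb)) := fun y => by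
  have h1 := h (g y)
  have h2 : g ((g⁻¹ * c * g) y) = c (g y) := by
    rw [mul_assoc, AlgEquiv.mul_apply, ← AlgEquiv.mul_apply g, mul_inv_cancel, AlgEquiv.one_apply,
      AlgEquiv.mul_apply]
  show ρ (g ((g⁻¹ * c * g) y)) = starRingEnd ℂ (ρ (g y))
  rw [h2, h1]

section

variable {p : ℕ} [Fact p.Prime] {ι : Qb →+* PadicAlgCl p}

noncomputable instance instSMulUU : SMul GQ (UU ι) where
  smul g f := ⟨fun h => f.1 (h * g), fun d hd h => by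
      show f.1 (d * h * g) = f.1 (h * g)
      rw [mul_assoc]; exact f.2.1 d hd _, fun ρ c hc h => by
      show f.1 (h * c * g) = -f.1 (h * g)
      have h1 := f.2.2 _ _ (hc.trans (g := g)) (h * g)
      rw [← h1]
      congr 1
      group⟩

theorem smul_val (g : GQ) (f : UU ι) (h : GQ) : (g • f).1 h = f.1 (h * g) := rfl

noncomputable instance instActUU : DistribMulAction GQ (UU ι) where
  one_smul f := by
    apply Subtype.ext; funext h; rw [smul_val, mul_one]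
  mul_smul g g' f := by
    apply Subtype.ext; funext h; rw [smul_val, smul_val, smul_val, mul_assoc]
  smul_zero g := rfl
  smul_add g f f' := rfl

/-- The core of the arithmetic situation. -/
noncomputable def coreU (ι : Qb →+* PadicAlgCl p) (ρ : Qb →+* ℂ) (c : GQ) (hc : IsConj c ρ) :
    Core GQ (UU ι) where
  D := dec ι
  w := { toFun := fun f => f.1 1, map_zero' := rfl, map_add' := fun _ _ => rfl }
  c0 := c
  cc v := by
    apply Subtype.ext; funext h; exact v.2.2 ρ c hc h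
  wD d hd v := by
    show v.1 (1 * d) = v.1 1
    rw [one_mul]
    have h := v.2.1 d hd 1
    rwa [mul_one] at h
  kron v hv := by
    apply Subtype.ext; funext h
    have h1 : v.1 (1 * h) = 0 := hv h
    rwa [one_mul] at h1

/-- The weights of all conjugates of `x`. -/
noncomputable def ur (q : ℕ) (ι : Qb →+* PadicAlgCl p) (x : Qb) : GQ → ℝ :=
  fun g => -2 * Real.logb q ‖ι (g x)‖ - 1

/-- The vector of a Weil number. -/
noncomputable def uu (q : ℕ) (ι : Qb →+* PadicAlgCl p) (x : Qb) : UU ι := by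
  classical exact if h : ur q ι x ∈ UU ι then ⟨ur q ι x, h⟩ else 0

/-- The dictionary between Weil numbers and vectors. -/
structure Dict (q : ℕ) (ι : Qb →+* PadicAlgCl p) : Prop where
  mem : ∀ x, Weil q x → (uu q ι x).1 = ur q ι x
  weil : ∀ x, Weil q x → ∀ g : GQ, Weil q (g x)
  smul : ∀ x, Weil q x → ∀ g : GQ, uu q ι (g x) = g • uu q ι x
  sim : ∀ x y, Weil q x → Weil q y → (Sim x y ↔ uu q ι x = uu q ι y)
  sum : ∀ S : Multiset Qb, (∀ x ∈ S, Weil q x) →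
    ((S.map (uu q ι)).sum = 0 ↔ Sim (S.prod ^ 2) ((q : Qb) ^ S.card))
  le_one : ∀ x, Weil q x → ∀ g : GQ, |ur q ι x g| ≤ 1
  nrm : ∀ x, Weil q x → ∀ g : GQ, ∀ M n : ℕ,
    (‖ι (g x)‖ ^ M * (q : ℝ) ^ n = 1 ↔ (M : ℝ) * (ur q ι x g + 1) = 2 * n)
  conj : ∀ x, Weil q x → ∀ (ρ : Qb →+* ℂ) (c : GQ), IsConj c ρ → x * c x = (q : Qb)
  ss : ∀ x, Weil q x → (SS q x ↔ uu q ι x = 0)

end

/-- (UME) `ur x` is in `UU` -/
def Stmt_UME : Prop :=
  ∀ (p : ℕ) [Fact p.Prime] (a : ℕ) (ι : Qb →+* PadicAlgCl p), 0 < a →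
    ∀ x, Weil (p ^ a) x → ur (p ^ a) ι x ∈ UU ι ∧ (∀ g : GQ, |ur (p ^ a) ι x g| ≤ 1) ∧
      ∀ g : GQ, ∀ M n : ℕ, (‖ι (g x)‖ ^ M * ((p ^ a : ℕ) : ℝ) ^ n = 1 ↔
        (M : ℝ) * (ur (p ^ a) ι x g + 1) = 2 * n)

/-- (SUM) the sum of the vectors and the product of the Weil numbers -/
def Stmt_SUM : Prop :=
  ∀ (p : ℕ) [Fact p.Prime] (a : ℕ) (ι : Qb →+* PadicAlgCl p), 0 < a →
    ∀ S : Multiset Qb, (∀ x ∈ S, Weil (p ^ a) x) →
      ((∀ g : GQ, (S.map fun x => ur (p ^ a) ι x g).sum = 0) ↔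
        Sim (S.prod ^ 2) (((p ^ a : ℕ) : Qb) ^ S.card))

/-- (DIC) -/
def Stmt_DIC : Prop :=
  ∀ (p : ℕ) [Fact p.Prime] (a : ℕ) (ι : Qb →+* PadicAlgCl p), 0 < a → Dict (p ^ a) ι

/-- (HTC) -/
def Stmt_HTC : Prop :=
  ∀ (p : ℕ) [Fact p.Prime] (a : ℕ) (ι : Qb →+* PadicAlgCl p) (ρ : Qb →+* ℂ) (c : GQ)
    (hc : IsConj c ρ), 0 < a → Dict (p ^ a) ι → ∀ R : Multiset Qb, IsAV (p ^ a) ι R →
    IsR (coreU ι ρ c hc) (R.map (uu (p ^ a) ι))

/-- (QUD) an open subgroup of index two without complex conjugations -/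
def Stmt_QUD : Prop :=
  ∀ (H : Subgroup GQ), (∃ L : IntermediateField ℚ Qb, FiniteDimensional ℚ L ∧
      ∀ g : GQ, (∀ y ∈ L, g y = y) → g ∈ H) →
    (∀ g h : GQ, g ∉ H → h ∉ H → g * h ∈ H) → (∀ (ρ : Qb →+* ℂ) (c : GQ), IsConj c ρ → c ∉ H) →
    ∃ (r : Qb) (m : ℚ), 0 < m ∧ r ^ 2 = -(m : Qb) ∧ ∀ g : GQ, g r = r ↔ g ∈ H

/-- (BLD) the CM type -/
def Stmt_BLD : Prop :=
  ∀ (p : ℕ) [Fact p.Prime] (a : ℕ) (ι : Qb →+* PadicAlgCl p), 0 < a → Dict (p ^ a) ι →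
    ∀ (X : Type) [Fintype X] [MulAction GQ X] (r : Qb) (m : ℚ) (A : CMAlg (p ^ a) X r m),
    (∀ x, ∃ n : ℕ, ‖ι (A.al x)‖ ^ (locOrb ι x).ncard * ((p ^ a : ℕ) : ℝ) ^ n = 1) →
    ∃ C : CMSet (p ^ a) ι X r m, C.toCMAlg = A

/-- (HLF) -/
def Stmt_HLF : Prop :=
  ∀ (q : ℕ) (X : Type) [Fintype X] [MulAction GQ X] (r : Qb) (m : ℚ) (A : CMAlg q X r m),
    2 * A.half.card = Fintype.card X ∧ (∀ x, A.c (A.c x) = x) ∧
      (∀ x, A.ka (A.c x) = -A.ka x) ∧ (∀ (g : GQ) (x : X), A.c (g • x) = g • A.c x) ∧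
      ∀ g : GQ, g r = r ∨ g r = -r

/-- (TSP) split case: the signature is the sum of the slopes -/
def Stmt_TSP : Prop :=
  ∀ (p : ℕ) [Fact p.Prime] (a : ℕ) (ι : Qb →+* PadicAlgCl p), 0 < a → Dict (p ^ a) ι →
    ∀ (X : Type) [Fintype X] [MulAction GQ X] (r : Qb) (m : ℚ) (C : CMSet (p ^ a) ι X r m),
    (∀ d ∈ dec ι, d r = r) →
    (2 : ℝ) * (C.Phi ∩ C.half).ncard = ∑ x ∈ C.half, (ur (p ^ a) ι (C.al x) 1 + 1)

/-- (TNS) non-split case: signature `0` or `n` only if all slopes are `1 / 2` -/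
def Stmt_TNS : Prop :=
  ∀ (p : ℕ) [Fact p.Prime] (a : ℕ) (ι : Qb →+* PadicAlgCl p), 0 < a → Dict (p ^ a) ι →
    ∀ (X : Type) [Fintype X] [MulAction GQ X] (r : Qb) (m : ℚ) (C : CMSet (p ^ a) ι X r m),
    (∃ d ∈ dec ι, d r ≠ r) →
    ((C.Phi ∩ C.half).ncard = 0 ∨ (C.Phi ∩ C.half).ncard = C.half.card) →
    ∀ x, uu (p ^ a) ι (C.al x) = 0

/-- (GLU) the product of two CM algebras -/
def Stmt_GLU : Prop :=
  ∀ (q p : ℕ) [Fact p.Prime] (ι : Qb →+* PadicAlgCl p) (r : Qb) (m : ℚ) (n t n' t' : ℕ)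
    (b b' : Bool) (S S' : Multiset Qb), HasCM q ι r m n t b S → HasCM q ι r m n' t' b' S' →
    HasCM q ι r m (n + n') (t + t') (b || b') (S + S')

/-- (PMN) the elliptic curve with complex multiplication by `ℚ(r)`, supersingular -/
def Stmt_PMN : Prop :=
  ∀ (p : ℕ) [Fact p.Prime] (a : ℕ) (ι : Qb →+* PadicAlgCl p), 0 < a → Dict (p ^ a) ι →
    ∀ (r : Qb) (m : ℚ), 0 < m → r ^ 2 = -(m : Qb) → (∃ d ∈ dec ι, d r ≠ r) →
    ∀ (s : Qb), s ^ 2 = ((p ^ a : ℕ) : Qb) → ∀ t : ℕ, t = 0 ∨ t = 1 →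
    HasCM (p ^ a) ι r m 1 t true {s}

/-- (RTX) split case: the CM algebra `F(r)`, `F` totally real with one place over `p` -/
def Stmt_RTX : Prop :=
  ∀ (p : ℕ) [Fact p.Prime] (a : ℕ) (ι : Qb →+* PadicAlgCl p), 0 < a → Dict (p ^ a) ι →
    ∀ (r : Qb) (m : ℚ), 0 < m → r ^ 2 = -(m : Qb) → (∀ d ∈ dec ι, d r = r) →
    ∀ (T : Finset Qb), T.Nonempty → (∀ g : GQ, ∀ t ∈ T, g t ∈ T) →
    (∀ t ∈ T, ∀ t' ∈ T, ∃ d ∈ dec ι, d t = t') →
    (∀ (ρ : Qb →+* ℂ) (c : GQ), IsConj c ρ → ∀ t ∈ T, c t = t) →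
    ∀ (x : Qb) (n : ℕ), Weil (p ^ a) x → (∀ g : GQ, g r = r → Sim (g x) x) →
    ‖ι x‖ ^ T.card * ((p ^ a : ℕ) : ℝ) ^ n = 1 →
    HasCM (p ^ a) ι r m T.card n false (Multiset.replicate T.card x)

/-- (RST) automorphisms of the algebraic closure of `ℚ_p` restrict to the decomposition group -/
def Stmt_RST : Prop :=
  ∀ (p : ℕ) [Fact p.Prime] (ι : Qb →+* PadicAlgCl p) (σ : PadicAlgCl p ≃ₐ[ℚ_[p]] PadicAlgCl p),
    ∃ g ∈ dec ι, ∀ x, ι (g x) = σ (ι x)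

/-- (EIS) a totally real cubic field which is totally ramified at `p` -/
def Stmt_EIS : Prop :=
  ∀ (p : ℕ) [Fact p.Prime] (ι : Qb →+* PadicAlgCl p), ∃ T : Finset Qb, T.card = 3 ∧
    (∀ g : GQ, ∀ t ∈ T, g t ∈ T) ∧ (∀ t ∈ T, ∀ t' ∈ T, ∃ d ∈ dec ι, d t = t') ∧
    ∀ (ρ : Qb →+* ℂ) (c : GQ), IsConj c ρ → ∀ t ∈ T, c t = t

/-- (MKA) the CM algebra of a relation without multiplicities -/
def Stmt_MKA : Prop :=
  ∀ (p : ℕ) [Fact p.Prime] (a : ℕ) (ι : Qb →+* PadicAlgCl p) (ρ : Qb →+* ℂ) (c : GQ)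
    (hc : IsConj c ρ), 0 < a → Dict (p ^ a) ι → ∀ R J : Multiset Qb,
    IsAV (p ^ a) ι R → J ≤ R →
    Good (coreU ι ρ c hc) (R.map (uu (p ^ a) ι)) (J.map (uu (p ^ a) ι)) →
    (J.map (uu (p ^ a) ι)).Nodup → ∀ (r : Qb) (m : ℚ), 0 < m → r ^ 2 = -(m : Qb) →
    (∀ g : GQ, g r = r ↔ tr g (J.map (uu (p ^ a) ι)) = J.map (uu (p ^ a) ι)) →
    ∃ (X : Type) (_ : Fintype X) (_ : MulAction GQ X) (A : CMAlg (p ^ a) X r m),
      (∀ x, uu (p ^ a) ι (A.al x) ≠ 0) ∧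
      (∀ x, ∃ n : ℕ, ‖ι (A.al x)‖ ^ (locOrb ι x).ncard * ((p ^ a : ℕ) : ℝ) ^ n = 1) ∧
      ∃ z : Multiset Qb, (∀ y ∈ z, SS (p ^ a) y) ∧ z.card ≤ 1 ∧
        (A.half.val.map A.al + z).map germ = J.map germ

/-- (MKX) the CM type of a relation without multiplicities -/
def Stmt_MKX : Prop :=
  ∀ (p : ℕ) [Fact p.Prime] (a : ℕ) (ι : Qb →+* PadicAlgCl p) (ρ : Qb →+* ℂ) (c : GQ)
    (hc : IsConj c ρ), 0 < a → Dict (p ^ a) ι → ∀ R J : Multiset Qb,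
    IsAV (p ^ a) ι R → J ≤ R →
    Good (coreU ι ρ c hc) (R.map (uu (p ^ a) ι)) (J.map (uu (p ^ a) ι)) →
    (J.map (uu (p ^ a) ι)).Nodup → ∀ (r : Qb) (m : ℚ), 0 < m → r ^ 2 = -(m : Qb) →
    (∀ g : GQ, g r = r ↔ tr g (J.map (uu (p ^ a) ι)) = J.map (uu (p ^ a) ι)) →
    ∃ (S z : Multiset Qb) (n t : ℕ), (∀ y ∈ z, SS (p ^ a) y) ∧
      (S + z).map germ = J.map germ ∧ HasCM (p ^ a) ι r m n t false S ∧
      ((n = 4 ∧ z = 0 ∧ t = 2) ∨
        ((∃ d ∈ dec ι, d r ≠ r) ∧ 0 < t ∧ t < n ∧ ((n = 4 ∧ z = 0) ∨ (n = 3 ∧ z.card = 1))))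

/-- (CYD) case without multiplicities -/
def Stmt_CYD : Prop :=
  ∀ (p : ℕ) [Fact p.Prime] (a : ℕ) (ι : Qb →+* PadicAlgCl p) (ρ : Qb →+* ℂ) (c : GQ)
    (hc : IsConj c ρ), 0 < a → Dict (p ^ a) ι → ∀ R J : Multiset Qb,
    IsAV (p ^ a) ι R → J ≤ R →
    Good (coreU ι ρ c hc) (R.map (uu (p ^ a) ι)) (J.map (uu (p ^ a) ι)) →
    (J.map (uu (p ^ a) ι)).Nodup → ∀ (r : Qb) (m : ℚ), 0 < m → r ^ 2 = -(m : Qb) →
    (∀ g : GQ, g r = r ↔ tr g (J.map (uu (p ^ a) ι)) = J.map (uu (p ^ a) ι)) →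
    Cyc (p ^ a) ι J

/-- (CYM) case of the slopes `1 / 3`, `2 / 3` -/
def Stmt_CYM : Prop :=
  ∀ (p : ℕ) [Fact p.Prime] (a : ℕ) (ι : Qb →+* PadicAlgCl p) (ρ : Qb →+* ℂ) (c : GQ)
    (hc : IsConj c ρ), 0 < a → Dict (p ^ a) ι → ∀ J : Multiset Qb, (∀ x ∈ J, Weil (p ^ a) x) →
    ∀ v v' : UU ι, J.map (uu (p ^ a) ι) = {v, v, v, v'} → ∀ (r : Qb) (m : ℚ), 0 < m →
    r ^ 2 = -(m : Qb) → (∀ g : GQ, g r = r → g • v = v ∧ g • v' = v') →
    (∀ d ∈ dec ι, d r = r) →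
    (((coreU ι ρ c hc).w v = 1 / 3 ∧ (coreU ι ρ c hc).w v' = -1) ∨
      ((coreU ι ρ c hc).w v = -(1 / 3) ∧ (coreU ι ρ c hc).w v' = 1)) →
    Cyc (p ^ a) ι J

/-- (RQU) the imaginary quadratic field of a relation -/
def Stmt_RQU : Prop :=
  ∀ (p : ℕ) [Fact p.Prime] (a : ℕ) (ι : Qb →+* PadicAlgCl p), 0 < a → Dict (p ^ a) ι →
    ∀ J : Multiset Qb, (∀ x ∈ J, Weil (p ^ a) x) →
    (∀ g : GQ, tr g (J.map (uu (p ^ a) ι)) = J.map (uu (p ^ a) ι) ∨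
      tr g (J.map (uu (p ^ a) ι)) = ng (J.map (uu (p ^ a) ι))) →
    ng (J.map (uu (p ^ a) ι)) ≠ J.map (uu (p ^ a) ι) →
    ∃ (r : Qb) (m : ℚ), 0 < m ∧ r ^ 2 = -(m : Qb) ∧
      ∀ g : GQ, g r = r ↔ tr g (J.map (uu (p ^ a) ι)) = J.map (uu (p ^ a) ι)

/-- (FN1) part (1) of the theorem -/
def Stmt_FN1 : Prop :=
  ∀ (p : ℕ) [Fact p.Prime] (a : ℕ) (ι : Qb →+* PadicAlgCl p), 0 < a →
    ∀ R : Multiset Qb, IsAV (p ^ a) ι R → R.card ≤ 8 → TateProp (p ^ a) ι R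

/-- All the Weil numbers in `R` which are not supersingular are conjugate (over the algebraic
closure of the finite field), and `T` has only these and supersingular elements. -/
def Isot (q : ℕ) (R T : Multiset Qb) : Prop :=
  (∀ x ∈ R, ∀ y ∈ R, SS q x ∨ SS q y ∨ ∃ g : GQ, Sim (g x) y) ∧
    ∀ x ∈ T, SS q x ∨ ∃ y ∈ R, Sim x y

/-- (VOR) the orbit of the vectors which are not zero -/
def Stmt_VOR : Prop :=
  ∀ (p : ℕ) [Fact p.Prime] (a : ℕ) (ι : Qb →+* PadicAlgCl p) (ρ : Qb →+* ℂ) (c : GQ)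
    (hc : IsConj c ρ), 0 < a → Dict (p ^ a) ι → ∀ R : Multiset Qb,
    IsAV (p ^ a) ι R → R.card ≤ 8 → (∃ x ∈ R, ¬ SS (p ^ a) x) →
    (∀ x ∈ R, ∀ y ∈ R, SS (p ^ a) x ∨ SS (p ^ a) y ∨ ∃ g : GQ, Sim (g x) y) →
    ∃ (V : Finset (UU ι)) (m : ℕ), IsOrb (coreU ι ρ c hc) V m ∧
      (∀ v, v ∈ V ↔ v ≠ 0 ∧ v ∈ R.map (uu (p ^ a) ι)) ∧
      (∀ v ∈ V, cnt v (R.map (uu (p ^ a) ι)) = m)

/-- (THR) the abelian variety of dimension four which belongs to three pairs of vectors -/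
def Stmt_THR : Prop :=
  ∀ (p : ℕ) [Fact p.Prime] (a : ℕ) (ι : Qb →+* PadicAlgCl p), 0 < a → Dict (p ^ a) ι →
    ∀ R : Multiset Qb, IsAV (p ^ a) ι R → ∀ V : Finset (UU ι), V.card = 6 →
    (∀ v, v ∈ V ↔ v ≠ 0 ∧ v ∈ R.map (uu (p ^ a) ι)) →
    (∀ v ∈ V, cnt v (R.map (uu (p ^ a) ι)) = 1) →
    ∀ s : Qb, s ^ 2 = ((p ^ a : ℕ) : Qb) →
    ∃ R' : Multiset Qb, IsAV (p ^ a) ι (R' + {s, s}) ∧ R'.map (uu (p ^ a) ι) = V.val

/-- (RNP) removal of pairs -/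
def Stmt_RNP : Prop :=
  ∀ (p : ℕ) [Fact p.Prime] (a : ℕ) (ι : Qb →+* PadicAlgCl p), 0 < a → Dict (p ^ a) ι →
    ∀ S : Multiset Qb, (∀ x ∈ S, Weil (p ^ a) x) → ∃ J : Multiset Qb, J ≤ S ∧
      NoPair (J.map (uu (p ^ a) ι)) ∧ (J.map (uu (p ^ a) ι)).sum = (S.map (uu (p ^ a) ι)).sum ∧
      (Even J.card ↔ Even S.card) ∧ (Cyc (p ^ a) ι J → Cyc (p ^ a) ι S)

/-- (CYS) closure under multiples -/
def Stmt_CYS : Prop :=
  ∀ (p : ℕ) [Fact p.Prime] (a : ℕ) (ι : Qb →+* PadicAlgCl p), 0 < a → Dict (p ^ a) ι →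
    ∀ (s : Qb), s ^ 2 = ((p ^ a : ℕ) : Qb) → ∀ J S : Multiset Qb, (∀ x ∈ J, Weil (p ^ a) x) →
    (∀ x ∈ S, Weil (p ^ a) x) → ∀ e t z : ℕ, Cyc (p ^ a) ι (J + Multiset.replicate e s) →
    Even (e * t + z) →
    S.map (uu (p ^ a) ι) = t • J.map (uu (p ^ a) ι) + Multiset.replicate z 0 →
    Cyc (p ^ a) ι S

/-- (FN2) part (2) of the theorem -/
def Stmt_FN2 : Prop :=
  ∀ (p : ℕ) [Fact p.Prime] (a : ℕ) (ι : Qb →+* PadicAlgCl p), 0 < a →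
    ∀ R T : Multiset Qb, IsAV (p ^ a) ι R → R.card ≤ 8 → Isot (p ^ a) R T →
      TateProp (p ^ a) ι T

/-- (SPN) the span and the pole -/
def Stmt_SPN : Prop :=
  ∀ (p : ℕ) [Fact p.Prime] (a : ℕ) (ι : Qb →+* PadicAlgCl p), 0 < a →
    ∀ T : Multiset Qb, TateProp (p ^ a) ι T →
    ∀ (ρ : Qb →+* ℂ) (V : Type) [AddCommGroup V] [Module ℂ V] [Module.Finite ℂ V]
      (F : Module.End ℂ V), F.IsSemisimple →
      F.charpoly = (T.map fun x => Polynomial.X - Polynomial.C (ρ x)).prod →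
      ∀ N j : ℕ, 0 < N →
        tateClasses (F ^ N) (((p ^ a : ℕ) : ℂ) ^ N) j ≤ algClasses (p ^ a) ι ρ F j ∧
        HasPoleOrder (Lfun (F ^ N) (((p ^ a : ℕ) : ℝ) ^ N) j) j
          (Module.finrank ℂ (tateClasses (F ^ N) (((p ^ a : ℕ) : ℂ) ^ N) j))

/-- The theorem. -/
def MainStatement : Prop :=
  ∀ (p : ℕ) [Fact p.Prime] (a : ℕ) (ι : Qb →+* PadicAlgCl p), 0 < a →
    ∀ R T : Multiset Qb, IsAV (p ^ a) ι R → R.card ≤ 8 → T = R ∨ Isot (p ^ a) R T →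
      TateProp (p ^ a) ι T ∧
      ∀ (ρ : Qb →+* ℂ) (V : Type) [AddCommGroup V] [Module ℂ V] [Module.Finite ℂ V]
      (F : Module.End ℂ V), F.IsSemisimple →
      F.charpoly = (T.map fun x => Polynomial.X - Polynomial.C (ρ x)).prod →
      ∀ N j : ℕ, 0 < N →
        tateClasses (F ^ N) (((p ^ a : ℕ) : ℂ) ^ N) j ≤ algClasses (p ^ a) ι ρ F j ∧
        HasPoleOrder (Lfun (F ^ N) (((p ^ a : ℕ) : ℝ) ^ N) j) j
          (Module.finrank ℂ (tateClasses (F ^ N) (((p ^ a : ℕ) : ℂ) ^ N) j))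

end Pool.T4
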