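import Pool.Agent.Work.MP_223b32_t4.Interface2
import Pool.Agent.Work.MP_223b32_t4.Defs6

/-!
# Interface of the blocks for the sharp form of the theorem on powers (helper56)
-/

namespace Pool.T4

open Pool.Agent.Work.MP_223b32_ag

/-- The exceptional multiset of vectors for powers in dimension four. -/
def ExcV4 {U : Type} [AddCommGroup U] (R : Multiset U) : Prop :=
  ∃ x y : U, R = {x, -x, y, -y, x + y, -(x + y), x - y, -(x - y)}

/-- (TW4) two orbits of four elements with a relation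

Proof. OFS gives `V`, `V'` (orbits of `x`, `y`), `V ≠ V'` disjoint, `V.card = V'.card = 4`; `R.card ≤ 8`, so
`R = V.val + V'.val` and the multiplicity is `1` (`IsOrb K V 1`).
(r) There are `v1, v2 ∈ V` and `r : G` with `V = {v1, -v1, v2, -v2}`, `r v1 = v2`, `r v2 = -v1`: take any
`v1, v2` with `V = {± v1, ± v2}`; if no `g` maps `(v1, v2)` to `(v2, -v1)` or `(-v2, v1)` (if `(-v2, v1)`
replace `g` by `g⁻¹`) then: `G` is transitive on `V`, there is `g1` with `g1 v1 = v2`, `g1 v2 = ± v1`, so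
`g1 v2 = v1`; every `g` maps `v1 + v2` to `± (v1 + v2)`: if `g v1 = ± v1`, `g v2 = ∓ v2` then `g1 g` or `g g1`
maps `(v1, v2)` to `(± v2, ∓ v1)`; if `g v1 = ± v2` then `g v2 = ± v1` with the same sign. So `v1 + v2` is a
`Line` in `span V`: contradiction to OF4.
(E) `S = S1 + S2` (`S1` the part in `V`), `p = S1.sum = -S2.sum`. If `S1 ≠ 0` then `p ≠ 0`: `p = a v1 + b v2`,
`(a, b) ≠ (0, 0)` (`NoPair`), `r p = a v2 - b v1`, so `p = 0` gives `(a ^ 2 + b ^ 2) v1 = 0`. The same for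
`S2`, `V'` (with its own `r'`). So `p ≠ 0`, `p ∈ span V`, `p ∈ span V'`. `p`, `r p` are independent (`r² = -1` on
`span V`) and both in `span V'`, which has dimension `≤ 2`: `span V = span V' = E`, `r² = -1` on `E`.
(phi) `phi v = (w v, w (r v))`. If `v ∈ E`, `v ≠ 0`, `phi v = 0` then `phi (r v) = 0` and `v`, `r v` span `E`:
`w = 0` on `E`, `v = 0` by `kron`: contradiction. So `phi` is injective on `E`.
(ht) `w v ∈ {-1, 0, 1}` for `v ∈ V` (and `V'`): `orb D v ⊆ V`; one element: `w v + 1 = 2n`; two elements: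
`w v + 1 = n`; three or four: it contains two opposite vectors and `± v1`, `± v2`, so `w = 0` on `V`.
So `phi v1 = (s, t)`, `phi v2 = (t, -s)`, `s, t ∈ {-1, 0, 1}` not both `0`: `phi '' V` is the set of the four
`(± 1, ± 1)` or of the four `(± 1, 0), (0, ± 1)`. In the same way for `V'` (`V' = {± y1, ± r y1}`, as
`r y1 = ± y1` contradicts `r² = -1`). `V`, `V'` are disjoint and `phi` is injective: one of them, say `V`, is
of the second kind, the other of the first kind. `phi (v1 + v2)` and `phi (v1 - v2)` are of the form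
`(± 1, ± 1)`, so `v1 + v2, v1 - v2 ∈ V'`, `V' = {± (v1 + v2), ± (v1 - v2)}`, `R = V + V'`. -/
def Stmt_TW4 : Prop :=
  ∀ (G U : Type) [Group G] [AddCommGroup U] [Module ℚ U] [DistribMulAction G U] (K : Core G U)
    (R : Multiset U), IsR K R → R.card ≤ 8 →
    ∀ x ∈ R, ∀ y ∈ R, x ≠ 0 → y ≠ 0 → (gorb G x).ncard = 4 → (gorb G y).ncard = 4 →
    y ∉ gorb G x →
    ∀ S : Multiset U, (∀ v ∈ S, v ∈ R ∧ v ≠ 0) → S.sum = 0 → NoPair S → S ≠ 0 → ExcV4 R

/-- (EQ6) the sharp form of EQG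

Proof. EQG if all orbits of four elements are equal, TW4 otherwise. -/
def Stmt_EQ6 : Prop :=
  ∀ (G U : Type) [Group G] [AddCommGroup U] [Module ℚ U] [DistribMulAction G U] (K : Core G U)
    (R : Multiset U), IsR K R → R.card ≤ 8 → ¬ ExcV4 R →
    ∀ S : Multiset U, (∀ v ∈ S, v ∈ R ∧ v ≠ 0) → S.sum = 0 → NoPair S → S ≠ 0 →
    ∃ (t : ℕ) (J : Multiset U), 0 < t ∧ S = t • J ∧ J.sum = 0 ∧ NoPair J ∧
      ((J.card = 4 ∧ J ≤ R) ∨ (J.card = 3 ∧ J.Nodup ∧ (∀ v ∈ J, cnt v R = 1) ∧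
        ∀ g : G, ∀ v ∈ J, g • v ∈ J ∨ -(g • v) ∈ J))

/-- (EX4) the exception for vectors and for Weil numbers: adapt `EX5.lean` (two elements less). -/
def Stmt_EX4 : Prop :=
  ∀ (p : ℕ) [Fact p.Prime] (a : ℕ) (ι : Qb →+* PadicAlgCl p) (ρ : Qb →+* ℂ) (c : GQ)
    (_ : IsConj c ρ), 0 < a → Dict (p ^ a) ι → ∀ R : Multiset Qb,
    IsAV (p ^ a) ι R → ExcV4 (R.map (uu (p ^ a) ι)) → Exc4 (p ^ a) R

/-- (FN4) the theorem for powers, sharp form: copy `FN3.lean` with EQ6 and EX4 instead of EQG. -/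
def Stmt_FN4 : Prop :=
  ∀ (p : ℕ) [Fact p.Prime] (a : ℕ) (ι : Qb →+* PadicAlgCl p), 0 < a →
    ∀ R T : Multiset Qb, IsAV (p ^ a) ι R → R.card ≤ 8 → ¬ Exc4 (p ^ a) R →
      PowOf (p ^ a) R T → TateProp (p ^ a) ι T

end Pool.T4
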