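import Pool.Agent.Work.MP_223b32_t4.Interface6

/-!
# Interface of the blocks for powers of absolutely simple abelian varieties of dimension five
(helper56)
-/

namespace Pool.T4

open Pool.Agent.Work.MP_223b32_ag

section

variable {G U : Type} [Group G] [AddCommGroup U] [Module ℚ U] [DistribMulAction G U]

/-- `R` is one orbit of ten vectors, `J` has one vector of each of the five pairs, with sum zero. -/
structure Pent (K : Core G U) (R J : Multiset U) : Prop where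
  isR : IsR K R
  card : J.card = 5
  eq : R = J + ng J
  sum : J.sum = 0
  noPair : NoPair J
  nodup : J.Nodup
  nz : ∀ v ∈ J, v ≠ 0
  sgn : ∀ g : G, tr g J = J ∨ tr g J = ng J
  ne : ng J ≠ J

end

/-- (EQ7) an orbit of ten vectors

Proof. The orbit `gorb G x` is contained in `R` and has ten elements, `R.card ≤ 10`, so `R` is nodup and
`R.toFinset` is the orbit; `c0` acts as `-1`: `R = {± v1, .., ± v5}`.
(g) There is `g : G` with `v1, g v1, g^2 v1, g^3 v1, g^4 v1` one of each pair (up to renumbering the `vi`)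
and `g^5 v1 = v1`: the image of `G` in the (finite) permutation group of `R.toFinset` is transitive on ten
elements, so its order is divisible by `5` (orbit stabilizer); Cauchy (`exists_prime_orderOf_dvd_card`)
gives an element of order `5`; as a permutation it is not the identity and its fifth power is; if `g v = ± v`
for all `v` then `g^2 = 1` on `R`, so `g = g^5 g^(-4) = 1`: no; so `g v1 ≠ ± v1` for some `v1`, and the pairs
of `g^i v1`, `i = 0..4`, are different (`g^i v1 = ± g^j v1` gives `g^(2(i-j)) v1 = v1`, with `g^5 v1 = v1`: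
`g v1 = v1`).
(c) A relation `∑ c_i • g^i v1 = 0` (`i = 0..4`, `c_i` rational) has all `c_i` equal: `P = ∑ c_i X^i`,
`Phi5 = 1 + X + .. + X^4 = cyclotomic 5` is irreducible over `ℚ`. If `Phi5` does not divide `P` then
`A P + B Phi5 = 1` (coprime), so `v1 = B(g) Phi5(g) v1` and `(g - 1) v1 = B(g) (g^5 - 1) v1 = 0`: `g v1 = v1`: no.
So `P = c Phi5` (degree).
(end) `S` is supported in `R`, `0 ∉ R`. `c_i = count (g^i v1) S - count (-g^i v1) S` is a relation, not all `0`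
(`NoPair`, `S ≠ 0`). So all `c_i = c`, `t = |c|`, `J = {e g^i v1}`, `e` the sign of `c`, `S = t • J` (`NoPair`: one of the
two counts is `0`), `J.sum = 0` as `c ≠ 0`. `sgn`: `tr h J` is one of each pair with sum `0`, so by (c) it is
`J` or `ng J`. `ne`: `NoPair` and `nz`. -/
def Stmt_EQ7 : Prop :=
  ∀ (G U : Type) [Group G] [AddCommGroup U] [Module ℚ U] [DistribMulAction G U] (K : Core G U)
    (R : Multiset U), IsR K R → R.card ≤ 10 → ∀ x ∈ R, (gorb G x).ncard = 10 →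
    ∀ S : Multiset U, (∀ v ∈ S, v ∈ R) → S.sum = 0 → NoPair S → S ≠ 0 →
    ∃ (t : ℕ) (J : Multiset U), 0 < t ∧ S = t • J ∧ Pent K R J

/-- (PH7) moving a CM type

Proof. Call `Psi` good if it is a type (`x ∈ Psi ↔ c x ∉ Psi`) with the counts of `Phi` on all orbits of `D`;
`T Psi = (Psi ∩ H).ncard`. `Psi` and `c '' Psi` are complementary, `H` and `c '' H` too, so `Psi.ncard = 5`. With
`d ∈ D` exchanging `H` and its complement `d • Psi` (image) is good and `T (d • Psi) = 5 - T Psi` (`T (d • Psi)`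
is the number of `x ∈ Psi` with `d • x ∈ H`, that is `x ∉ H`). Suppose no good `Psi` has `T Psi ∈ {2, 3}`. Then there
are good `A`, `B` with `T A ≤ 1` and `T B ≥ 4` (`Phi`, `d • Phi`). Choose them with `(A \ B).ncard` minimal. `A ≠ B`,
both have five elements, take `x ∈ A \ B`, so `c x ∈ B \ A`.
If `c x ∈ orb D x`: `A' = (A \ {x}) ∪ {c x}` is good (`orb D (c x) = orb D x`), `(A' \ B).ncard < (A \ B).ncard`,
`T A' ≤ T A + 1 ≤ 2`, so `T A' ≤ 1`: contradiction to minimality.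
If `c x ∉ orb D x`: `(A ∩ orb D x).ncard = (B ∩ orb D x).ncard` and `x ∈ A \ B` give `y ∈ orb D x`, `y ∈ B \ A`.
`c y ∈ A \ B`, `c y ∈ orb D (c x) ≠ orb D x`. `A' = (A \ {x, c y}) ∪ {y, c x}` is good, `(A' \ B).ncard` is smaller by
two, `T A' ≤ T A + 2 ≤ 3`, so `T A' ≤ 1`: contradiction. -/
def Stmt_PH7 : Prop :=
  ∀ (G X : Type) [Group G] [Fintype X] [MulAction G X] (D : Subgroup G) (c : X → X)
    (H Phi : Set X), (∀ x, c (c x) = x) → (∀ d ∈ D, ∀ x, c (d • x) = d • c x) →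
    (∀ x, x ∈ H ↔ c x ∉ H) → H.ncard = 5 → (∃ d ∈ D, ∀ x, x ∈ H ↔ d • x ∉ H) →
    (∀ x, x ∈ Phi ↔ c x ∉ Phi) →
    ∃ Psi : Set X, (∀ x, x ∈ Psi ↔ c x ∉ Psi) ∧
      (∀ x, (Psi ∩ orb D x).ncard = (Phi ∩ orb D x).ncard) ∧
      ((Psi ∩ H).ncard = 2 ∨ (Psi ∩ H).ncard = 3)

/-- (MK7) the CM algebra: copy `MKA.lean` (`hG.eq`, `hG.noPair`, `hG.isR` are the same fields, use
`hG.sgn`, `hG.ne` instead of SGN, `hG.nodup` instead of `hnd`; there is no vector `0` in `J` by `hG.nz`, so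
the multiset `z` of `MKA` is `0`). -/
def Stmt_MK7 : Prop :=
  ∀ (p : ℕ) [Fact p.Prime] (a : ℕ) (ι : Qb →+* PadicAlgCl p) (ρ : Qb →+* ℂ) (c : GQ)
    (hc : IsConj c ρ), 0 < a → Dict (p ^ a) ι → ∀ R J : Multiset Qb,
    IsAV (p ^ a) ι R → J ≤ R →
    Pent (coreU ι ρ c hc) (R.map (uu (p ^ a) ι)) (J.map (uu (p ^ a) ι)) →
    ∀ (r : Qb) (m : ℚ), 0 < m → r ^ 2 = -(m : Qb) →
    (∀ g : GQ, g r = r ↔ tr g (J.map (uu (p ^ a) ι)) = J.map (uu (p ^ a) ι)) →
    ∃ (X : Type) (_ : Fintype X) (_ : MulAction GQ X) (A : CMAlg (p ^ a) X r m),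
      (∀ x, ∃ n : ℕ, ‖ι (A.al x)‖ ^ (locOrb ι x).ncard * ((p ^ a : ℕ) : ℝ) ^ n = 1) ∧
      (A.half.val.map A.al).map germ = J.map germ

/-- (MX7) the CM type

Proof. See `B_MKX.lean`. MK7, BLD: `C` with `C.toCMAlg = A`; `half.card = 5` (cards of `germ` images), the sum of
`ur (al x) 1` over `half` is `0` (`Pent.sum`). If all `d ∈ dec ι` fix `r`, TSP gives `2 * (Phi ∩ half).ncard = 5`: no.
So some `d ∈ dec ι` has `d r ≠ r`, `d r = -r` (HLF) and `x ∈ half ↔ d • x ∉ half` (`ka_smul`). PH7 with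
`D = dec ι`, `H = half` gives `Psi`; `{C with Phi := Psi}` is a `CMSet` (`st` because of the counts; `locOrb` and
`orb (dec ι)` are the same by `rfl`). -/
def Stmt_MX7 : Prop :=
  ∀ (p : ℕ) [Fact p.Prime] (a : ℕ) (ι : Qb →+* PadicAlgCl p) (ρ : Qb →+* ℂ) (c : GQ)
    (hc : IsConj c ρ), 0 < a → Dict (p ^ a) ι → ∀ R J : Multiset Qb,
    IsAV (p ^ a) ι R → J ≤ R →
    Pent (coreU ι ρ c hc) (R.map (uu (p ^ a) ι)) (J.map (uu (p ^ a) ι)) →
    ∀ (r : Qb) (m : ℚ), 0 < m → r ^ 2 = -(m : Qb) →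
    (∀ g : GQ, g r = r ↔ tr g (J.map (uu (p ^ a) ι)) = J.map (uu (p ^ a) ι)) →
    ∃ (S : Multiset Qb) (t : ℕ), S.map germ = J.map germ ∧ (∃ d ∈ dec ι, d r ≠ r) ∧
      HasCM (p ^ a) ι r m 5 t false S ∧ (t = 2 ∨ t = 3)

/-- (CY7) the sixfold

Proof. See `CYD.lean`. MX7, PMN with `3 - t`, GLU: `HasCM .. 6 3 true (S + {s})`, `weil6`, `sim`. -/
def Stmt_CY7 : Prop :=
  ∀ (p : ℕ) [Fact p.Prime] (a : ℕ) (ι : Qb →+* PadicAlgCl p) (ρ : Qb →+* ℂ) (c : GQ)
    (hc : IsConj c ρ), 0 < a → Dict (p ^ a) ι → ∀ R J : Multiset Qb,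
    IsAV (p ^ a) ι R → J ≤ R →
    Pent (coreU ι ρ c hc) (R.map (uu (p ^ a) ι)) (J.map (uu (p ^ a) ι)) →
    ∀ s : Qb, s ^ 2 = ((p ^ a : ℕ) : Qb) → Cyc (p ^ a) ι (J + {s})

/-- (FN7) the theorem for powers of an absolutely simple abelian variety of dimension five.

Proof. See `FN3.lean`. RNP, `FN2_split`: the nonzero vectors `S'` of `J`, `z ≤ 1` zeros. `S' = 0`: `J = 0` (even
card). `S' ≠ 0`: EQ7 (`gorb`: `FN3_orb`): `S' = t • J1`, `Pent`. `FN2_lift`: `J0 ≤ R` with `J0.map uu = J1`. RQU for `J0`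
is used in CY7; CY7: `J0 + {s}` in `Cyc`; CYS with `e = 1` (`5 t + z` even, so `1 * t + z` is even). -/
def Stmt_FN7 : Prop :=
  ∀ (p : ℕ) [Fact p.Prime] (a : ℕ) (ι : Qb →+* PadicAlgCl p), 0 < a →
    ∀ R T : Multiset Qb, IsAV (p ^ a) ι R → R.card ≤ 10 → (∃ x ∈ R, (galOrbit x).ncard = 10) →
      PowOf (p ^ a) R T → TateProp (p ^ a) ι T

end Pool.T4
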