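import Pool.Agent.Work.MP_223b32_t4.Interface7

/-!
# Interface of the last block on powers in dimension five (helper56)
-/

namespace Pool.T4

open Pool.Agent.Work.MP_223b32_ag

/-- (FN8) all powers (times supersingular) of isotypic abelian varieties of dimension at most five.

Proof. If some `x ∈ R` has `(galOrbit x).ncard = 10`: FN7. Otherwise let `V` be the set of nonzero vectors of
`R.map uu` (a `Finset`, stable under `GQ`), `R1` from SAV. If `V` is empty all elements of `R`, `T` are
supersingular: `TateProp T` by RNP (the vectors are `0`, `NoPair`, so `J.card ≤ 1`, even, `J = 0`); or use FN2 with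
`R = 0`. If `R1.card ≤ 8`: FN2 for `R1`, `T` (`Isot q R1 T`: an element of `T` is supersingular or `~ y ∈ R`, and then
`uu y ∈ V` or `y` is supersingular). Otherwise `9 ≤ R1.card ≤ 10`. `V` is one orbit (the hypothesis, `Dict.sim`,
`Dict.smul`), `cnt v` is the same number `m` for all `v ∈ V` (`stable`), `R1.card = m * V.card`, `V.card` is even
(`v ↦ -v` has no fixed point), so `R1.card = 10`, `V.card = 2` or `10`; `10` is the first case (`FN3_orb`). So
`V = {v, -v}`. `S ≤ T` as in FN3: RNP, `FN2_split`: `S'` is supported in `V`, `NoPair`, sum `0`: `S' = k • v` or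
`k • (-v)`, so `S' = 0`, `J = 0` (even card, at most one zero). -/
def Stmt_FN8 : Prop :=
  ∀ (p : ℕ) [Fact p.Prime] (a : ℕ) (ι : Qb →+* PadicAlgCl p), 0 < a →
    ∀ R T : Multiset Qb, IsAV (p ^ a) ι R → R.card ≤ 10 → Isot (p ^ a) R T →
      TateProp (p ^ a) ι T

end Pool.T4
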