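import Pool.Agent.Work.MP_223b32_t4.Interface2
import Pool.Agent.Work.MP_223b32_t4.DefsW

/-!
# Interface of the blocks for simple abelian varieties of dimension six (helper9)
-/

namespace Pool.T4

open Pool.Agent.Work.MP_223b32_ag

section

variable {G U : Type} [Group G] [AddCommGroup U] [Module ℚ U] [DistribMulAction G U]

/-- `R` is one orbit of twelve vectors, `J` has one vector of each of the six pairs, with sum
zero. -/
structure HexW (K : Core G U) (R J : Multiset U) : Prop where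
  isR : IsR K R
  card : J.card = 6
  eq : R = J + ng J
  sum : J.sum = 0
  noPair : NoPair J
  nodup : J.Nodup
  nz : ∀ v ∈ J, v ≠ 0
  sgn : ∀ g : G, tr g J = J ∨ tr g J = ng J
  ne : ng J ≠ J

end

/-- (EQW) an orbit of twelve vectors and an element of order five -/
def Stmt_EQW : Prop :=
  ∀ (G U : Type) [Group G] [AddCommGroup U] [Module ℚ U] [DistribMulAction G U] (K : Core G U)
    (R : Multiset U), IsR K R → R.card ≤ 12 → ∀ x ∈ R, (gorb G x).ncard = 12 →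
    (∃ g : G, (∃ v ∈ R, g • v ≠ v) ∧ ∀ v ∈ R, g ^ 5 • v = v) →
    ∀ S : Multiset U, (∀ v ∈ S, v ∈ R) → S.sum = 0 → NoPair S → S ≠ 0 →
    ∃ (t : ℕ) (J : Multiset U), 0 < t ∧ S = t • J ∧ HexW K R J

/-- (PHW) moving a CM type

Proof. Call `Psi` good if it is a type (`x ∈ Psi ↔ c x ∉ Psi`) with the counts of `Phi` on all orbits
of `D`; `T Psi = (Psi ∩ H).ncard`. `T (d • Psi) = 6 - T Psi`. Suppose no good `Psi` has `T Psi = 3`.
There are good `A`, `B` with `T A ≤ 2`, `T B ≥ 4` (`Phi`, `d • Phi`), take them with `(A \ B).ncard`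
minimal. If some `x ∈ A \ B` has `c x ∈ orb D x` then `A' = (A \ {x}) ∪ {c x}` is good, nearer to `B`,
`T A' ≤ T A + 1 ≤ 3`, so `T A' ≤ 2`: contradiction. So `A`, `B` agree on the self conjugate elements
(`c x ∈ orb D x`). Take `x ∈ A \ B`, `y ∈ orb D x ∩ B \ A`, `A' = (A \ {x, c y}) ∪ {y, c x}`: good, nearer,
`T A' ≤ T A + 2`, so `T A' ≥ 4` and `T A = 2`, `T A' = 4`. `A` and `A'` agree on the self conjugate
elements. Let `z` be self conjugate, `z ∈ A` (replace `z` by `c z`). If `z ∉ H` then `c z ∈ H` and the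
flip `(A \ {z}) ∪ {c z}` has `T = 3`. If `z ∈ H` the flip of `A'` has `T = 3`. -/
def Stmt_PHW : Prop :=
  ∀ (G X : Type) [Group G] [Fintype X] [MulAction G X] (D : Subgroup G) (c : X → X)
    (H Phi : Set X), (∀ x, c (c x) = x) → (∀ d ∈ D, ∀ x, c (d • x) = d • c x) →
    (∀ x, x ∈ H ↔ c x ∉ H) → H.ncard = 6 → (∃ d ∈ D, ∀ x, x ∈ H ↔ d • x ∉ H) →
    (∀ x, x ∈ Phi ↔ c x ∉ Phi) → (∃ z, c z ∈ orb D z) →
    ∃ Psi : Set X, (∀ x, x ∈ Psi ↔ c x ∉ Psi) ∧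
      (∀ x, (Psi ∩ orb D x).ncard = (Phi ∩ orb D x).ncard) ∧ (Psi ∩ H).ncard = 3

/-- (MKW) the CM algebra: as MK7, `al` has its values in `R`. -/
def Stmt_MKW : Prop :=
  ∀ (p : ℕ) [Fact p.Prime] (a : ℕ) (ι : Qb →+* PadicAlgCl p) (ρ : Qb →+* ℂ) (c : GQ)
    (hc : IsConj c ρ), 0 < a → Dict (p ^ a) ι → ∀ R J : Multiset Qb,
    IsAV (p ^ a) ι R → J ≤ R →
    HexW (coreU ι ρ c hc) (R.map (uu (p ^ a) ι)) (J.map (uu (p ^ a) ι)) →
    ∀ (r : Qb) (m : ℚ), 0 < m → r ^ 2 = -(m : Qb) →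
    (∀ g : GQ, g r = r ↔ tr g (J.map (uu (p ^ a) ι)) = J.map (uu (p ^ a) ι)) →
    ∃ (X : Type) (_ : Fintype X) (_ : MulAction GQ X) (A : CMAlg (p ^ a) X r m),
      (∀ x, ∃ n : ℕ, ‖ι (A.al x)‖ ^ (locOrb ι x).ncard * ((p ^ a : ℕ) : ℝ) ^ n = 1) ∧
      (A.half.val.map A.al).map germ = J.map germ ∧ (∀ x, A.al x ∈ R) ∧
      (∀ y ∈ R, ∃ x, Sim (A.al x) y) ∧
      (∀ x x', Sim (A.al x) (A.al x') → x = x')

/-- (ODW) ordinary abelian varieties: the signature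

Proof. `st` for `x`: if `‖ι (al x)‖ = 1` then `q ^ k = 1`, `k = 0`, no element of `locOrb ι x` (for
instance `x`) is in `Phi`, `ur (al x) 1 = -1`. If `‖ι (al x)‖ = q⁻¹` then `k = n`, `locOrb ι x ⊆ Phi`,
`x ∈ Phi`, `ur (al x) 1 = 1`. The sum over `half` is `t - (card half - t) = 0`. -/
def Stmt_ODW : Prop :=
  ∀ (p : ℕ) [Fact p.Prime] (a : ℕ) (ι : Qb →+* PadicAlgCl p), 0 < a →
    ∀ (X : Type) [Fintype X] [MulAction GQ X] (r : Qb) (m : ℚ) (C : CMSet (p ^ a) ι X r m),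
    (∀ x, ‖ι (C.al x)‖ = 1 ∨ ‖ι (C.al x)‖ * ((p ^ a : ℕ) : ℝ) = 1) →
    ∑ x ∈ C.half, ur (p ^ a) ι (C.al x) 1 = 0 →
    2 * (C.Phi ∩ C.half).ncard = C.half.card

/-- (MXW) the CM type with signature `(3, 3)`

Proof. See `MX7.lean`. MKW, BLD: `C` with `C.toCMAlg = A`; `half.card = 6`, the sum of `ur (al x) 1`
over `half` is `0`. If all `d ∈ dec ι` fix `r`, TSP gives `2 * (Phi ∩ half).ncard = 6`. Otherwise
some `d ∈ dec ι` exchanges `half` and its complement. If `R` is ordinary: ODW. If `Sim (y * d y) q`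
for some `y ∈ R`, `d ∈ dec ι`: `y ~ al x`, `al (d • x) ~ d (al x) ~ d y`, and `al (c x) ~ q / y`
(`conj`, `Dict.conj`), so `d • x = c x` by the last property of MKW: `c x ∈ orb (dec ι) x`. PHW gives
`Psi`, and `{C with Phi := Psi}` is a `CMSet`. -/
def Stmt_MXW : Prop :=
  ∀ (p : ℕ) [Fact p.Prime] (a : ℕ) (ι : Qb →+* PadicAlgCl p) (ρ : Qb →+* ℂ) (c : GQ)
    (hc : IsConj c ρ), 0 < a → Dict (p ^ a) ι → ∀ R J : Multiset Qb,
    IsAV (p ^ a) ι R → J ≤ R →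
    HexW (coreU ι ρ c hc) (R.map (uu (p ^ a) ι)) (J.map (uu (p ^ a) ι)) →
    (Ordin (p ^ a) ι R ∨ SelfConj (p ^ a) ι R) →
    ∀ (r : Qb) (m : ℚ), 0 < m → r ^ 2 = -(m : Qb) →
    (∀ g : GQ, g r = r ↔ tr g (J.map (uu (p ^ a) ι)) = J.map (uu (p ^ a) ι)) →
    ∃ S : Multiset Qb, S.map germ = J.map germ ∧ HasCM (p ^ a) ι r m 6 3 false S

/-- (CYW) the sixfold: RQU, MXW, `CycW.weil6`, `CycW.sim`. -/
def Stmt_CYW : Prop :=
  ∀ (p : ℕ) [Fact p.Prime] (a : ℕ) (ι : Qb →+* PadicAlgCl p) (ρ : Qb →+* ℂ) (c : GQ)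
    (hc : IsConj c ρ), 0 < a → Dict (p ^ a) ι → ∀ R J : Multiset Qb,
    IsAV (p ^ a) ι R → J ≤ R →
    HexW (coreU ι ρ c hc) (R.map (uu (p ^ a) ι)) (J.map (uu (p ^ a) ι)) →
    (Ordin (p ^ a) ι R ∨ SelfConj (p ^ a) ι R) → CycW (p ^ a) ι J

/-- (RNW) removal of pairs: as RNP. -/
def Stmt_RNW : Prop :=
  ∀ (p : ℕ) [Fact p.Prime] (a : ℕ) (ι : Qb →+* PadicAlgCl p), 0 < a → Dict (p ^ a) ι →
    ∀ S : Multiset Qb, (∀ x ∈ S, Weil (p ^ a) x) → ∃ J : Multiset Qb, J ≤ S ∧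
      NoPair (J.map (uu (p ^ a) ι)) ∧ (J.map (uu (p ^ a) ι)).sum = (S.map (uu (p ^ a) ι)).sum ∧
      (Even J.card ↔ Even S.card) ∧ (CycW (p ^ a) ι J → CycW (p ^ a) ι S)

/-- (CSW) closure under multiples: as CYS. -/
def Stmt_CSW : Prop :=
  ∀ (p : ℕ) [Fact p.Prime] (a : ℕ) (ι : Qb →+* PadicAlgCl p), 0 < a → Dict (p ^ a) ι →
    ∀ (s : Qb), s ^ 2 = ((p ^ a : ℕ) : Qb) → ∀ J S : Multiset Qb, (∀ x ∈ J, Weil (p ^ a) x) →
    (∀ x ∈ S, Weil (p ^ a) x) → ∀ e t z : ℕ, CycW (p ^ a) ι (J + Multiset.replicate e s) →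
    Even (e * t + z) →
    S.map (uu (p ^ a) ι) = t • J.map (uu (p ^ a) ι) + Multiset.replicate z 0 →
    CycW (p ^ a) ι S

/-- (MOW) `Cyc` implies `CycW` -/
def Stmt_MOW : Prop :=
  ∀ (p : ℕ) [Fact p.Prime] (q : ℕ) (ι : Qb →+* PadicAlgCl p),
    (∀ S, Cyc q ι S → CycW q ι S) ∧ ∀ R, TateProp q ι R → TateW q ι R

/-- (PRW) products of powers of independent abelian varieties: as PRI. -/
def Stmt_PRW : Prop :=
  ∀ (p : ℕ) [Fact p.Prime] (a : ℕ) (ι : Qb →+* PadicAlgCl p), 0 < a →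
    ∀ (n : ℕ) (R : Fin n → Multiset Qb), (∀ i, IsAV (p ^ a) ι (R i)) →
      (∀ i, ∀ T, PowOf (p ^ a) (R i) T → TateW (p ^ a) ι T) → Indep (p ^ a) R →
      ∀ T, PowOf (p ^ a) (∑ i, R i) T → TateW (p ^ a) ι T

/-- (SPW) the span and the pole: as SPN. -/
def Stmt_SPW : Prop :=
  ∀ (p : ℕ) [Fact p.Prime] (a : ℕ) (ι : Qb →+* PadicAlgCl p), 0 < a →
    ∀ T : Multiset Qb, TateW (p ^ a) ι T →
    ∀ (ρ : Qb →+* ℂ) (V : Type) [AddCommGroup V] [Module ℂ V] [Module.Finite ℂ V]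
      (F : Module.End ℂ V), F.IsSemisimple →
      F.charpoly = (T.map fun x => Polynomial.X - Polynomial.C (ρ x)).prod →
      ∀ N j : ℕ, 0 < N →
        tateClasses (F ^ N) (((p ^ a : ℕ) : ℂ) ^ N) j ≤ algClassesW (p ^ a) ι ρ F j ∧
        HasPoleOrder (Lfun (F ^ N) (((p ^ a : ℕ) : ℝ) ^ N) j) j
          (Module.finrank ℂ (tateClasses (F ^ N) (((p ^ a : ℕ) : ℂ) ^ N) j))

/-- (FNW) all powers (times supersingular) of simple abelian varieties of dimension six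

Proof. See `FN7.lean`. RNW, `FN2_split`, EQW (the element of order five: `Dict.sim`, `Dict.smul`),
CYW, CSW with `e = 0` (`6 t + z` even). -/
def Stmt_FNW : Prop :=
  ∀ (p : ℕ) [Fact p.Prime] (a : ℕ) (ι : Qb →+* PadicAlgCl p), 0 < a →
    ∀ R T : Multiset Qb, IsAV (p ^ a) ι R → SimpleSix (p ^ a) ι R → PowOf (p ^ a) R T →
      TateW (p ^ a) ι T

end Pool.T4
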