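import Pool.Agent.Work.MP_223b32_t4.Interface
import Pool.Agent.Work.MP_223b32_ag.Kron

/-! # Block KRO (helper58): Kronecker's theorem -/

namespace Pool.T4

open Pool.Agent.Work.MP_223b32_ag Polynomial

theorem KRO_alg : Algebra.IsAlgebraic ℚ Qb := AlgebraicClosure.isAlgebraic ℚ

theorem KRO_normal : Normal ℚ Qb := by
  have h1 : Algebra.IsAlgebraic ℚ Qb := KRO_alg
  have h2 : IsAlgClosed Qb := AlgebraicClosure.isAlgClosed ℚ
  have h3 : IsAlgClosure ℚ Qb := ⟨h2, h1⟩
  exact IsAlgClosure.normal ℚ Qb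

theorem KRO_integral (p : ℕ) [Fact p.Prime] (ι : Qb →+* PadicAlgCl p) (z : Qb) (k : ℕ)
    (hz : IsIntegral ℤ ((p : Qb) ^ k * z)) (hb : ∀ g : GQ, ‖ι (g z)‖ ≤ 1) : IsIntegral ℤ z := by
  have hA : Algebra.IsAlgebraic ℚ Qb := KRO_alg
  have hN : Normal ℚ Qb := KRO_normal
  obtain ⟨toC⟩ : Nonempty (Qb →ₐ[ℚ] ℂ) := ⟨IsAlgClosed.lift⟩
  obtain ⟨toP, htoP⟩ : ∃ toP : Qb →ₐ[ℚ] PadicAlgCl p, ∀ x, toP x = ι x := ⟨ι.toRatAlgHom, fun _ => rfl⟩
  have hintu : IsIntegral ℚ z := Algebra.IsIntegral.isIntegral z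
  have hcoeff : ∀ i, ∃ c : ℤ, (c : ℚ) = (minpoly ℚ z).coeff i := by
    intro i
    apply rat_int_of (p := p)
    · refine coeff_mem_of_roots (unitBall p) (minpoly.monic hintu) (fun r hr => ?_) i
      obtain ⟨σ, rfl⟩ := exists_conj toP _ hr
      show ‖toP (σ z)‖ ≤ 1
      rw [htoP]
      exact hb σ
    · refine coeff_mem_of_roots (awayRing p) (minpoly.monic hintu) (fun r hr => ?_) i
      obtain ⟨σ, rfl⟩ := exists_conj toC _ hr
      refine ⟨k, ?_⟩
      have h1 : (p : ℂ) ^ k * toC (σ z) = (toC.comp σ.toAlgHom) ((p : Qb) ^ k * z) := by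
        rw [map_mul, map_pow, map_natCast]
        rfl
      rw [h1]
      exact hz.map ((toC.comp σ.toAlgHom).restrictScalars ℤ)
  have hlift : minpoly ℚ z ∈ lifts (Int.castRingHom ℚ) := by
    rw [lifts_iff_coeff_lifts]
    intro i
    obtain ⟨c, hc⟩ := hcoeff i
    exact ⟨c, hc⟩
  obtain ⟨g, hg, -, hgm⟩ := lifts_and_natDegree_eq_and_monic hlift (minpoly.monic hintu)
  refine ⟨g, hgm, ?_⟩
  have h1 := minpoly.aeval ℚ z
  have h2 : (algebraMap ℚ Qb).comp (Int.castRingHom ℚ) = algebraMap ℤ Qb := RingHom.ext_int _ _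
  rw [← hg, aeval_def, eval₂_map, h2] at h1
  exact h1

theorem p_KRO : Stmt_KRO := by
  intro p hp ι z k hz hb hn
  have hzi := KRO_integral p ι z k hz hb
  have hA : Algebra.IsAlgebraic ℚ Qb := KRO_alg
  have hNo : Normal ℚ Qb := KRO_normal
  have hintu : IsIntegral ℚ z := Algebra.IsIntegral.isIntegral z
  obtain ⟨toC⟩ : Nonempty (Qb →ₐ[ℚ] ℂ) := ⟨IsAlgClosed.lift⟩
  have hfd : FiniteDimensional ℚ (IntermediateField.adjoin ℚ {z}) :=
    IntermediateField.adjoin.finiteDimensional hintu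
  have hL : NumberField (IntermediateField.adjoin ℚ {z}) :=
    { to_charZero := inferInstance
      to_finiteDimensional := by
        have h : (DivisionRing.toRatAlgebra : Algebra ℚ (IntermediateField.adjoin ℚ {z})) =
            (IntermediateField.adjoin ℚ {z}).algebra' := Subsingleton.elim _ _
        rw [h]
        exact hfd }
  have hgi : IsIntegral ℤ (IntermediateField.AdjoinSimple.gen ℚ z) := by
    have h := hzi
    rw [← IntermediateField.AdjoinSimple.algebraMap_gen ℚ z] at h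
    exact (isIntegral_algebraMap_iff
      (algebraMap (IntermediateField.adjoin ℚ {z}) Qb).injective).1 h
  obtain ⟨N, hN, h2⟩ := NumberField.Embeddings.pow_eq_one_of_norm_eq_one
    (IntermediateField.adjoin ℚ {z}) ℂ hgi (fun φ => by
    let φ' : (IntermediateField.adjoin ℚ {z}) →ₐ[ℚ] ℂ := φ.toRatAlgHom
    have h3 : aeval (φ' (IntermediateField.AdjoinSimple.gen ℚ z)) (minpoly ℚ z) = 0 := by
      have h := IntermediateField.aeval_gen_minpoly ℚ z
      rw [aeval_algHom_apply]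
      exact (congrArg φ' h).trans (map_zero φ')
    obtain ⟨σ, hσ⟩ := exists_conj toC z h3
    have h4 := hn ((toC.comp σ.toAlgHom) : Qb →+* ℂ)
    show ‖φ' (IntermediateField.AdjoinSimple.gen ℚ z)‖ = 1
    rw [hσ]
    exact h4)
  refine ⟨N, hN, ?_⟩
  have h5 := congrArg (algebraMap (IntermediateField.adjoin ℚ {z}) Qb) h2
  rw [map_pow, map_one, IntermediateField.AdjoinSimple.algebraMap_gen] at h5
  exact h5

end Pool.T4
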