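import Pool.Agent.Work.MP_223b32_t4.Interface2

/-! # LN2 (a relation between lines), typed by helper88 -/

set_option autoImplicit false

namespace Pool.T4

open Pool.Agent.Work.MP_223b32_ag

theorem LN2_pair {U : Type} [AddCommGroup U] {S : Multiset U} (h : NoPair S) {a b : U}
    (ha : a ∈ S) (hb : b ∈ S) (hab : a ≠ b) : a + b ≠ 0 := by
  apply h
  rw [Multiset.le_iff_subset]
  · intro x hx
    simp only [Multiset.insert_eq_cons, Multiset.mem_cons, Multiset.mem_singleton] at hx
    rcases hx with rfl | rfl
    · exact ha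
    · exact hb
  · simp [hab]

theorem LN2_aux (G U : Type) [Group G] [AddCommGroup U] [Module ℚ U] [DistribMulAction G U]
    (K : Core G U) (R : Multiset U) (hR : IsR K R) (hc : R.card ≤ 8) (S : Multiset U)
    (hS : ∀ v ∈ S, v ∈ R ∧ Line G v) (h0 : S.sum = 0) (hP : NoPair S) (y y' : U) (hy : y ∈ S)
    (hy' : y' ∈ S) (hne : y ≠ y') (hcy : cnt y R = 3) (hcy' : cnt y' R = 1)
    (h3 : 3 • y = y' ∨ 3 • y = -y') :
    ∃ (t : ℕ) (v v' : U), 0 < t ∧ S = t • ({v, v, v, v'} : Multiset U) ∧ 3 • v + v' = 0 ∧
      cnt v R = 3 ∧ cnt v' R = 1 := by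
  classical
  have hyz : y ≠ 0 := (hS y hy).2.1
  have hyz' : y' ≠ 0 := (hS y' hy').2.1
  have hself : ∀ u : U, u ≠ 0 → u ≠ -u := by
    intro u hu h
    have h1 : (2 : ℚ) • u = 0 := by
      rw [two_smul]
      nth_rewrite 2 [h]
      exact add_neg_cancel u
    rcases smul_eq_zero.1 h1 with h2 | h2
    · norm_num at h2
    · exact hu h2
  have hnn : y ≠ -y' := fun h => LN2_pair hP hy hy' hne (by rw [h, neg_add_cancel])
  have hcnt : ∀ u : U, cnt u R = R.count u := by
    intro u
    unfold cnt
    congr
  have hneg : ∀ u : U, R.count (-u) = R.count u := by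
    intro u
    have h1 : R.map (fun v => -v) = R := by
      have := hR.stable K.c0
      unfold tr at this
      simp only [K.cc] at this
      exact this
    have h2 : (R.map (fun v => -v)).count (-u) = R.count u :=
      Multiset.count_map_eq_count' (fun v => -v) R neg_injective u
    rw [h1] at h2
    exact h2
  rw [hcnt] at hcy hcy'
  have hM : Multiset.replicate 3 y + Multiset.replicate 3 (-y) + {y'} + {-y'} ≤ R := by
    rw [Multiset.le_iff_count]
    intro a
    rw [Multiset.count_add, Multiset.count_add, Multiset.count_add, Multiset.count_replicate,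
      Multiset.count_replicate, Multiset.count_singleton, Multiset.count_singleton]
    have e1 := hneg y
    have e2 := hneg y'
    have n1 : y ≠ -y := hself y hyz
    have n2 : y' ≠ -y' := hself y' hyz'
    have n3 : -y ≠ y' := fun h => hnn (by rw [← h, neg_neg])
    have n4 : -y ≠ -y' := fun h => hne (neg_injective h)
    by_cases q1 : y = a
    · subst q1
      rw [if_pos rfl, if_neg n1.symm, if_neg hne, if_neg hnn]
      omega
    · by_cases q2 : -y = a
      · subst q2
        rw [if_neg q1, if_pos rfl, if_neg n3, if_neg n4]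
        omega
      · by_cases q3 : a = y'
        · subst q3
          rw [if_neg q1, if_neg q2, if_pos rfl, if_neg n2]
          omega
        · by_cases q4 : a = -y'
          · subst q4
            rw [if_neg q1, if_neg q2, if_neg q3, if_pos rfl]
            omega
          · rw [if_neg q1, if_neg q2, if_neg q3, if_neg q4]
            omega
  have hMR := Multiset.eq_of_le_of_card_le hM (by simpa using hc)
  have hmem : ∀ v ∈ S, v = y ∨ v = y' := by
    intro v hv
    have h1 : v ∈ Multiset.replicate 3 y + Multiset.replicate 3 (-y) + {y'} + {-y'} := by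
      rw [hMR]
      exact (hS v hv).1
    simp only [Multiset.mem_add, Multiset.mem_replicate, Multiset.mem_singleton] at h1
    rcases h1 with ((h1 | h1) | h1) | h1
    · exact Or.inl h1.2
    · exfalso
      rw [h1.2] at hv
      exact LN2_pair hP hy hv (hself y hyz) (add_neg_cancel y)
    · exact Or.inr h1
    · exfalso
      rw [h1] at hv
      exact LN2_pair hP hy' hv (hself y' hyz') (add_neg_cancel y')
  have hSe : S = Multiset.replicate (S.count y) y + Multiset.replicate (S.count y') y' := by
    ext a
    rw [Multiset.count_add, Multiset.count_replicate, Multiset.count_replicate]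
    by_cases q1 : y = a
    · subst q1
      rw [if_pos rfl, if_neg hne.symm, add_zero]
    · by_cases q2 : y' = a
      · subst q2
        rw [if_neg q1, if_pos rfl, zero_add]
      · rw [if_neg q1, if_neg q2]
        apply Multiset.count_eq_zero_of_notMem
        intro ha
        rcases hmem a ha with h | h
        · exact q1 h.symm
        · exact q2 h.symm
  have ha1 : 0 < S.count y := Multiset.count_pos.2 hy
  have hb1 : 0 < S.count y' := Multiset.count_pos.2 hy'
  set a := S.count y with ha
  set b := S.count y' with hb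
  have hsum : a • y + b • y' = 0 := by
    rw [← h0]
    conv_rhs => rw [hSe]
    rw [Multiset.sum_add, Multiset.sum_replicate, Multiset.sum_replicate]
  rcases h3 with h3 | h3
  · exfalso
    rw [← h3, smul_smul, ← add_smul] at hsum
    have h4 : ((a + b * 3 : ℕ) : ℚ) • y = 0 := by
      rw [Nat.cast_smul_eq_nsmul]
      exact hsum
    rcases smul_eq_zero.1 h4 with h5 | h5
    · have : a + b * 3 = 0 := by exact_mod_cast h5
      omega
    · exact hyz h5
  · have h3' : y' = -(3 • y) := by rw [h3, neg_neg]
    have hab : a = 3 * b := by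
      rw [h3', smul_neg, smul_smul, add_neg_eq_zero] at hsum
      have h4 : ((a : ℚ) - ((b * 3 : ℕ) : ℚ)) • y = 0 := by
        rw [sub_smul, Nat.cast_smul_eq_nsmul, Nat.cast_smul_eq_nsmul, hsum, sub_self]
      rcases smul_eq_zero.1 h4 with h5 | h5
      · have h6 : (a : ℚ) = ((b * 3 : ℕ) : ℚ) := sub_eq_zero.1 h5
        have : a = b * 3 := by exact_mod_cast h6
        omega
      · exact absurd h5 hyz
    refine ⟨b, y, y', hb1, ?_, by rw [h3', add_neg_cancel], by rw [hcnt, hcy], by rw [hcnt, hcy']⟩
    rw [hSe, hab]
    ext x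
    rw [Multiset.count_add, Multiset.count_replicate, Multiset.count_replicate, Multiset.count_nsmul]
    simp only [Multiset.insert_eq_cons, Multiset.count_cons, Multiset.count_singleton]
    by_cases q1 : y = x
    · subst q1
      rw [if_pos rfl, if_neg hne.symm, if_neg hne, if_pos rfl]
      omega
    · by_cases q2 : y' = x
      · subst q2
        rw [if_neg q1, if_pos rfl, if_pos rfl, if_neg (Ne.symm q1)]
        omega
      · rw [if_neg q1, if_neg q2, if_neg (Ne.symm q2), if_neg (Ne.symm q1)]
        omega

theorem p_LN2 (h1 : Stmt_LNT) (h2 : Stmt_IND) : Stmt_LN2 := by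
  intro G U _ _ _ _ K R hR hc S hS h0 hP hne
  classical
  by_cases hex : ∃ y ∈ S, ∃ y' ∈ S, y ≠ y' ∧ ∀ g : G, g • y = y ↔ g • y' = y'
  · obtain ⟨y, hy, y', hy', hyy, hg⟩ := hex
    have hn : y ≠ -y' := fun h => LN2_pair hP hy hy' hyy (by rw [h, neg_add_cancel])
    rcases h1 G U K R hR hc y (hS y hy).1 y' (hS y' hy').1 (hS y hy).2 (hS y' hy').2 hg hyy hn with h | h
    · exact LN2_aux G U K R hR hc S hS h0 hP y y' hy hy' hyy h.1 h.2.1 h.2.2
    · exact LN2_aux G U K R hR hc S hS h0 hP y' y hy' hy hyy.symm h.2.1 h.1 h.2.2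
  · exfalso
    obtain ⟨y, hy⟩ := Multiset.exists_mem_of_ne_zero hne
    have h3 := h2 G U (⊥ : Submodule ℚ U) (fun g v hv => by
        rw [Submodule.mem_bot] at hv ⊢
        rw [hv, smul_zero]) S.toFinset (fun u => (S.count u : ℚ))
      (fun u hu => (hS u (Multiset.mem_toFinset.1 hu)).2)
      (fun u hu u' hu' huu => by
        by_contra hcon
        apply hex
        refine ⟨u, Multiset.mem_toFinset.1 hu, u', Multiset.mem_toFinset.1 hu', huu, fun g => ?_⟩
        by_contra hg
        exact hcon ⟨g, hg⟩)
      (by
        rw [Submodule.mem_bot, ← h0, Finset.sum_multiset_count]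
        apply Finset.sum_congr rfl
        intro u _
        rw [Nat.cast_smul_eq_nsmul])
      y (Multiset.mem_toFinset.2 hy)
    rw [Submodule.mem_bot] at h3
    rcases smul_eq_zero.1 h3 with h4 | h4
    · have h5 : S.count y = 0 := by exact_mod_cast h4
      exact absurd hy (Multiset.count_eq_zero.1 h5)
    · exact (hS y hy).2.1 h4

end Pool.T4
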