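import Pool.Agent.Work.MP_223b32_t4.Interface5
import Pool.Agent.Work.MP_223b32_t4.DE5

/-! # Block MO5 -/

set_option autoImplicit false

namespace Pool.T4

theorem MO5_cnt {G U : Type} [Group G] [AddCommGroup U] [DistribMulAction G U] (g : G)
    (J : Multiset U) (h : tr g J = J) (v : U) : cnt (g • v) J = cnt v J := by
  classical
  unfold cnt
  have h1 := Multiset.count_map_eq_count' (fun v : U => g • v) J (MulAction.injective g) v
  have h2 : (J.map fun v : U => g • v) = J := h
  rw [h2] at h1
  exact h1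

/-- The number of times `w` occurs in `J` and the choice of the sign. -/
theorem MO5_sgn {U : Type} [AddCommGroup U] [Module ℚ U] [DecidableEq U] (J : Multiset U)
    (hJ : NoPair J) (w : U) (hw : w ≠ 0) (m : ℕ) (hm : J.count w + J.count (-w) = m) :
    ∃ a : U, (a = w ∨ a = -w) ∧ J.count a = m ∧ J.count (-a) = 0 := by
  by_cases h1 : w ∈ J
  · have h2 : J.count (-w) = 0 := Multiset.count_eq_zero.2 (CAR_pair J hJ w hw h1)
    exact ⟨w, Or.inl rfl, by omega, h2⟩
  · have h2 : J.count w = 0 := Multiset.count_eq_zero.2 h1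
    exact ⟨-w, Or.inr rfl, by omega, by rw [neg_neg]; exact h2⟩

theorem MO5_A {G U : Type} [Group G] [AddCommGroup U] [Module ℚ U] [DistribMulAction G U]
    [DecidableEq U] (K : Core G U) (R J : Multiset U) (u w : U) (hM : Miss K R J u)
    (hu : u ≠ 0) (hw : w ≠ 0) (h1 : w ≠ u) (h2 : w ≠ -u) (m : ℕ) (hcu : R.count u = m)
    (hcw : R.count w = m) :
    1 ≤ m ∧ m ≤ 2 ∧ (m = 2 → ∃ b a z : U, (b = u ∨ b = -u) ∧ (a = w ∨ a = -w) ∧
      J = {b, a, a, z} ∧ b + a + a + z = 0 ∧ z ≠ u ∧ z ≠ -u ∧ z ≠ w ∧ z ≠ -w) := by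
  have huu : u ≠ -u := fun h => hu (DE5_self u h.symm)
  have hR := hM.eq
  have e1 : R.count u = J.count u + J.count (-u) + 1 := by
    rw [hR, Multiset.count_add, Multiset.count_add, CAR_count_ng]
    have h3 : ({u, -u} : Multiset U) = u ::ₘ {-u} := rfl
    rw [h3, Multiset.count_cons_self, Multiset.count_singleton, if_neg huu]
  have e2 : R.count w = J.count w + J.count (-w) := by
    rw [hR, Multiset.count_add, Multiset.count_add, CAR_count_ng]
    have h3 : ({u, -u} : Multiset U) = u ::ₘ {-u} := rfl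
    rw [h3, Multiset.count_cons_of_ne h1, Multiset.count_singleton, if_neg h2, add_zero]
  obtain ⟨b, hb, hb1, hb2⟩ := MO5_sgn J hM.noPair u hu (m - 1) (by omega)
  obtain ⟨a, ha, ha1, ha2⟩ := MO5_sgn J hM.noPair w hw m (by omega)
  have hab : a ≠ b := by
    rcases ha with rfl | rfl <;> rcases hb with rfl | rfl
    · exact h1
    · exact h2
    · intro h
      exact h2 (by rw [← h, neg_neg])
    · intro h
      exact h1 (neg_injective h)
  have hm1 : 1 ≤ m := by omega
  have hle : Multiset.replicate m a + Multiset.replicate (m - 1) b ≤ J := by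
    rw [Multiset.le_iff_count]
    intro x
    rw [Multiset.count_add, Multiset.count_replicate, Multiset.count_replicate]
    by_cases hx : a = x
    · subst hx
      rw [if_pos rfl, if_neg hab.symm]
      omega
    · rw [if_neg hx]
      by_cases hx2 : b = x
      · subst hx2
        rw [if_pos rfl]
        omega
      · rw [if_neg hx2]
        omega
  have hcard := Multiset.card_le_card hle
  rw [Multiset.card_add, Multiset.card_replicate, Multiset.card_replicate, hM.card] at hcard
  refine ⟨hm1, by omega, ?_⟩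
  intro hm2
  subst hm2
  obtain ⟨Q, hQ⟩ := Multiset.le_iff_exists_add.1 hle
  have hQc : Q.card = 1 := by
    have h3 := congrArg Multiset.card hQ
    rw [Multiset.card_add, Multiset.card_add, Multiset.card_replicate, Multiset.card_replicate,
      hM.card] at h3
    omega
  obtain ⟨z, hz⟩ := Multiset.card_eq_one.1 hQc
  have hJ : J = {b, a, a, z} := by
    rw [hQ, hz]
    have h4 : Multiset.replicate 2 a = {a} + {a} := rfl
    have h5 : Multiset.replicate (2 - 1) b = {b} := rfl
    have h6 : ({b, a, a, z} : Multiset U) = {b} + ({a} + ({a} + {z})) := rfl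
    rw [h4, h5, h6]
    abel
  have hs := hM.sum
  rw [hJ] at hs
  have hs2 : b + a + a + z = 0 := by
    have h6 : ({b, a, a, z} : Multiset U).sum = b + (a + (a + (z + 0))) := by
      simp [Multiset.insert_eq_cons]
    rw [h6] at hs
    rw [← hs]
    abel
  have hzb : z ≠ b := by
    intro h
    rw [hQ, hz, h, Multiset.count_add, Multiset.count_add, Multiset.count_replicate,
      Multiset.count_replicate, if_neg hab, if_pos rfl, Multiset.count_singleton_self] at hb1
    omega
  have hzb' : z ≠ -b := by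
    intro h
    rw [Multiset.count_eq_zero] at hb2
    apply hb2
    rw [hJ, ← h]
    simp
  have hza : z ≠ a := by
    intro h
    rw [hQ, hz, h, Multiset.count_add, Multiset.count_add, Multiset.count_replicate,
      Multiset.count_replicate, if_neg hab.symm, if_pos rfl, Multiset.count_singleton_self] at ha1
    omega
  have hza' : z ≠ -a := by
    intro h
    rw [Multiset.count_eq_zero] at ha2
    apply ha2
    rw [hJ, ← h]
    simp
  refine ⟨b, a, z, hb, ha, hJ, hs2, ?_, ?_, ?_, ?_⟩
  · rcases hb with rfl | rfl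
    · exact hzb
    · rwa [neg_neg] at hzb'
  · rcases hb with rfl | rfl
    · exact hzb'
    · exact hzb
  · rcases ha with rfl | rfl
    · exact hza
    · rwa [neg_neg] at hza'
  · rcases ha with rfl | rfl
    · exact hza'
    · exact hza

theorem MO5_sq {U : Type} [AddCommGroup U] [Module ℚ U] {a w : U} (h : a = w ∨ a = -w) :
    ∃ s : ℚ, (s = 1 ∨ s = -1) ∧ a = s • w := by
  rcases h with h | h
  · exact ⟨1, Or.inl rfl, by rw [h, one_smul]⟩
  · exact ⟨-1, Or.inr rfl, by rw [h, neg_smul, one_smul]⟩

theorem MO5_key {U : Type} [AddCommGroup U] [Module ℚ U] (u v z : U) (s1 s2 s3 s4 s5 : ℚ)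
    (h1 : s1 • u + s2 • v + s2 • v + z = 0) (h2 : s3 • v + s4 • u + s4 • u + s5 • z = 0) :
    (s3 - 2 * s5 * s2) • v = (s5 * s1 - 2 * s4) • u := by
  linear_combination (norm := module) h2 - s5 • h1

theorem p_MO5 (hSC5 : Stmt_SC5) (hTR5 : Stmt_TR5) : Stmt_MO5 := by
  classical
  intro G U _ _ _ _ K R J u hM g hg1 hg2
  have hu : u ≠ 0 := by
    intro h
    apply hg1
    rw [h, smul_zero]
  have hv : g • u ≠ 0 := by
    intro h
    apply hu
    have h3 : g⁻¹ • (g • u) = g⁻¹ • (0 : U) := by rw [h]
    rwa [inv_smul_smul, smul_zero] at h3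
  have hcv : R.count (g • u) = R.count u := MO5_cnt g R (hM.isR.stable g) u
  have hu1 : u ≠ g • u := fun h => hg1 h.symm
  have hu2 : u ≠ -(g • u) := by
    intro h
    apply hg2
    rw [h, neg_neg, ← h]
  obtain ⟨hm1, hm2, hm3⟩ := MO5_A K R J u (g • u) hM hu hv hg1 hg2 (R.count u) rfl hcv
  have hM' := hTR5 G U K R J u hM g
  obtain ⟨-, -, hm4⟩ := MO5_A K R (tr g J) (g • u) u hM' hv hu hu1 hu2 (R.count u) hcv rfl
  show R.count u = 1
  by_contra hne
  have h2 : R.count u = 2 := by omega
  obtain ⟨b, a, z, hb, ha, hJ, hs, hz1, hz2, hz3, hz4⟩ := hm3 h2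
  obtain ⟨a', b', z', ha', hb', hJ', hs', hz1', hz2', hz3', hz4'⟩ := hm4 h2
  have hzz : z' = z ∨ z' = -z := by
    have h3 : z' ∈ R := by
      rw [hM'.eq, Multiset.mem_add, Multiset.mem_add]
      left; left
      rw [hJ']
      simp
    rw [hM.eq, Multiset.mem_add, Multiset.mem_add, hJ] at h3
    rcases h3 with (h3 | h3) | h3
    · have h4 : z' = b ∨ z' = a ∨ z' = a ∨ z' = z := by simpa using h3
      rcases h4 with h4 | h4 | h4 | h4
      · rcases hb with h | h
        · exact absurd (h4.trans h) hz3'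
        · exact absurd (h4.trans h) hz4'
      · rcases ha with h | h
        · exact absurd (h4.trans h) hz1'
        · exact absurd (h4.trans h) hz2'
      · rcases ha with h | h
        · exact absurd (h4.trans h) hz1'
        · exact absurd (h4.trans h) hz2'
      · exact Or.inl h4
    · have h3' : z' ∈ ({-b, -a, -a, -z} : Multiset U) := h3
      have h4 : z' = -b ∨ z' = -a ∨ z' = -a ∨ z' = -z := by simpa using h3'
      rcases h4 with h4 | h4 | h4 | h4
      · rcases hb with h | h
        · exact absurd (h4.trans (by rw [h])) hz4'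
        · exact absurd (h4.trans (by rw [h, neg_neg])) hz3'
      · rcases ha with h | h
        · exact absurd (h4.trans (by rw [h])) hz2'
        · exact absurd (h4.trans (by rw [h, neg_neg])) hz1'
      · rcases ha with h | h
        · exact absurd (h4.trans (by rw [h])) hz2'
        · exact absurd (h4.trans (by rw [h, neg_neg])) hz1'
      · exact Or.inr h4
    · have h4 : z' = u ∨ z' = -u := by simpa using h3
      rcases h4 with h4 | h4
      · exact absurd h4 hz3'
      · exact absurd h4 hz4'
  obtain ⟨s1, hs1, hb⟩ := MO5_sq hb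
  obtain ⟨s2, hs2, ha⟩ := MO5_sq ha
  obtain ⟨s3, hs3, ha'⟩ := MO5_sq ha'
  obtain ⟨s4, hs4, hb'⟩ := MO5_sq hb'
  obtain ⟨s5, hs5, hzz⟩ := MO5_sq hzz
  rw [hb, ha] at hs
  rw [ha', hb', hzz] at hs'
  have key := MO5_key u (g • u) z s1 s2 s3 s4 s5 hs hs'
  have hα : s3 - 2 * s5 * s2 ≠ 0 := by
    rcases hs3 with h | h <;> rcases hs5 with h' | h' <;> rcases hs2 with h'' | h'' <;>
      rw [h, h', h''] <;> norm_num
  have hv2 : g • u = ((s3 - 2 * s5 * s2)⁻¹ * (s5 * s1 - 2 * s4)) • u := by
    rw [mul_smul, ← key, smul_smul, inv_mul_cancel₀ hα, one_smul]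
  have huR : u ∈ R := by
    rw [← Multiset.count_pos]
    omega
  rcases hSC5 G U K R hM.isR u huR hu g _ hv2 with h | h
  · rw [h, one_smul] at hv2
    exact hg1 hv2
  · rw [h, neg_smul, one_smul] at hv2
    exact hg2 hv2

end Pool.T4
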