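import Pool.Agent.Work.MP_223b32_t4.InterfaceV

/-! Block MXV of the table six_blocks (helper67), after MXW.lean (helper1) -/

set_option autoImplicit false

namespace Pool.T4

open Pool.Agent.Work.MP_223b32_ag

theorem MXV_germ {x y : Qb} : germ x = germ y ↔ Sim x y := by
  unfold germ
  exact Quotient.eq

theorem MXV_map {p : ℕ} [Fact p.Prime] {ι : Qb →+* PadicAlgCl p} {q : ℕ} (hD : Dict q ι)
    (J T : Multiset Qb) (hJ : ∀ x ∈ J, Weil q x) (hT : ∀ x ∈ T, Weil q x)
    (h : T.map germ = J.map germ) : T.map (uu q ι) = J.map (uu q ι) := by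
  rw [← Multiset.rel_eq, Multiset.rel_map] at h ⊢
  refine h.mono ?_
  intro a ha b hb hab
  exact (hD.sim a b (hT a ha) (hJ b hb)).mp (MXV_germ.mp hab)

/-- `d y` is opposite to `y` if `y * d y` is similar to `q`. -/
theorem MXV_opp {p : ℕ} [Fact p.Prime] {ι : Qb →+* PadicAlgCl p} {q : ℕ} (hD : Dict q ι)
    (y : Qb) (d : GQ) (hy : Weil q y) (h : Sim (y * d y) (q : Qb)) :
    uu q ι (d y) = - uu q ι y := by
  have h1 : Sim ((({y, d y} : Multiset Qb)).prod ^ 2)
      ((q : Qb) ^ (({y, d y} : Multiset Qb)).card) := by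
    obtain ⟨N, hN, he⟩ := h
    refine ⟨N, hN, ?_⟩
    have e1 : (({y, d y} : Multiset Qb)).prod = y * d y := by simp
    have e2 : (({y, d y} : Multiset Qb)).card = 2 := by simp
    rw [e1, e2, ← pow_mul, ← pow_mul, mul_comm 2 N, pow_mul, pow_mul, he]
  have h2 : ∀ x ∈ ({y, d y} : Multiset Qb), Weil q x := by
    intro x hx
    simp only [Multiset.insert_eq_cons, Multiset.mem_cons, Multiset.mem_singleton] at hx
    rcases hx with rfl | rfl
    · exact hy
    · exact hD.weil y hy d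
  have h3 := (hD.sum _ h2).mpr h1
  have e3 : (({y, d y} : Multiset Qb).map (uu q ι)).sum = uu q ι y + uu q ι (d y) := by
    simp
  rw [e3] at h3
  exact eq_neg_of_add_eq_zero_right h3


/-- similar elements have the same norm -/
theorem MXV_norm {p : ℕ} [Fact p.Prime] (ι : Qb →+* PadicAlgCl p) {x y : Qb} (h : Sim x y) :
    ‖ι x‖ = ‖ι y‖ := by
  obtain ⟨N, hN, he⟩ := h
  have h1 : ‖ι x‖ ^ N = ‖ι y‖ ^ N := by
    rw [← norm_pow, ← norm_pow, ← map_pow, ← map_pow, he]
  exact (pow_left_inj₀ (norm_nonneg _) (norm_nonneg _) hN.ne').mp h1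

/-- the vectors of `R` are different -/
theorem MXV_nodup {G U : Type} [Group G] [AddCommGroup U] [Module ℚ U] [DistribMulAction G U]
    (K : Core G U) (R J : Multiset U) (h : HexW K R J) : R.Nodup := by
  rw [h.eq]
  have hng : (ng J).Nodup := h.nodup.map neg_injective
  rw [Multiset.nodup_add]
  refine ⟨h.nodup, hng, ?_⟩
  rw [Multiset.disjoint_left]
  intro v hv hv'
  obtain ⟨w, hw, hwv⟩ := Multiset.mem_map.mp hv'
  by_cases e : v = w
  · subst e
    have h1 : v + v = 0 := by
      nth_rewrite 1 [← hwv]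
      exact neg_add_cancel v
    have h2 : (2 : ℚ) • v = 0 := by rw [two_smul]; exact h1
    rcases smul_eq_zero.mp h2 with h3 | h3
    · norm_num at h3
    · exact h.nz v hv h3
  · have h1 : ({v, w} : Multiset U) ≤ J := by
      rw [Multiset.le_iff_subset (by
        rw [Multiset.insert_eq_cons, Multiset.nodup_cons]
        exact ⟨by rw [Multiset.mem_singleton]; exact e, Multiset.nodup_singleton _⟩)]
      intro z hz
      rw [Multiset.insert_eq_cons, Multiset.mem_cons, Multiset.mem_singleton] at hz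
      rcases hz with rfl | rfl
      · exact hv
      · exact hw
    apply h.noPair v w h1
    rw [← hwv]
    exact neg_add_cancel w

theorem p_MXV (hMKW : Stmt_MKW) (hBLD : Stmt_BLD) (hHLF : Stmt_HLF) (hTSP : Stmt_TSP)
    (hPHW : Stmt_PHW) (hSGV : Stmt_SGV) (hPHV : Stmt_PHV) : Stmt_MXV := by
  intro p _ a ι ρ c hc ha hD R J hR hJR hG hOS r m hm hr hst
  obtain ⟨X, _, _, A, hAn, hz3, hAR, hRA, hinj⟩ :=
    hMKW p a ι ρ c hc ha hD R J hR hJR hG r m hm hr hst
  obtain ⟨C, rfl⟩ := hBLD p a ι ha hD X r m A hAn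
  obtain ⟨hh1, hh2, hh3, hh4, hh5⟩ := hHLF (p ^ a) X r m C.toCMAlg
  have hJW : ∀ x ∈ J, Weil (p ^ a) x := fun x hx => hR.weil x (Multiset.mem_of_le hJR hx)
  have hcard : C.half.card = 6 := by
    have h1 := congrArg Multiset.card hz3
    rw [Multiset.card_map, Multiset.card_map, Multiset.card_map] at h1
    have h2 := hG.card
    rw [Multiset.card_map] at h2
    have h3 : C.half.val.card = C.half.card := rfl
    omega
  have hTW : ∀ x ∈ C.half.val.map C.al, Weil (p ^ a) x := by
    intro x hx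
    obtain ⟨y, _, rfl⟩ := Multiset.mem_map.mp hx
    exact C.weil y
  have hmap := MXV_map hD J (C.half.val.map C.al) hJW hTW hz3
  have hsum : (∑ x ∈ C.half, uu (p ^ a) ι (C.al x)) = 0 := by
    have h1 := hG.sum
    rw [← hmap, Multiset.map_map] at h1
    exact h1
  have hsum1 : (∑ x ∈ C.half, ur (p ^ a) ι (C.al x) 1) = 0 := by
    have h1 := congrArg (fun v : UU ι => v.1 1) hsum
    have h2 : (∑ x ∈ C.half, uu (p ^ a) ι (C.al x)).1 1
        = ∑ x ∈ C.half, ur (p ^ a) ι (C.al x) 1 := by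
      rw [Submodule.coe_sum, Finset.sum_apply]
      apply Finset.sum_congr rfl
      intro x _
      rw [hD.mem _ (C.weil x)]
    rw [← h2]
    exact h1
  -- it is enough to have the signature `(3, 3)`
  have done : ∀ (Psi : Set X) (hP1 : ∀ x, x ∈ Psi ↔ C.c x ∉ Psi)
      (hP2 : ∀ x, (Psi ∩ locOrb ι x).ncard = (C.Phi ∩ locOrb ι x).ncard)
      (hP3 : (Psi ∩ C.half).ncard = 3),
      ∃ S : Multiset Qb, S.map germ = J.map germ ∧ HasCM (p ^ a) ι r m 6 3 false S := by
    intro Psi hP1 hP2 hP3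
    have hst' : ∀ x, ‖ι (C.al x)‖ ^ (locOrb ι x).ncard *
        ((p ^ a : ℕ) : ℝ) ^ (Psi ∩ locOrb ι x).ncard = 1 := by
      intro x
      rw [hP2 x]
      exact C.st x
    refine ⟨C.half.val.map C.al, hz3,
      ⟨X, _, _, { toCMAlg := C.toCMAlg, Phi := Psi, type := hP1, st := hst' }, ?_, hP3, rfl, ?_⟩⟩
    · rw [← hh1, hcard]
    · intro h
      exact absurd h (by decide)
  by_cases hsp : ∀ d ∈ dec ι, d r = r
  · have h1 := hTSP p a ι ha hD X r m C hsp
    rw [Finset.sum_add_distrib, hsum1, Finset.sum_const, nsmul_eq_mul, mul_one, zero_add] at h1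
    have h2 : 2 * (C.Phi ∩ C.half).ncard = C.half.card := by exact_mod_cast h1
    exact done C.Phi C.type (fun _ => rfl) (by omega)
  have hd : ∃ d ∈ dec ι, d r ≠ r := by
    push Not at hsp
    exact hsp
  -- `r ≠ -r`
  have hr0 : r ≠ 0 := by
    intro h
    rw [h, zero_pow two_ne_zero] at hr
    have h1 : (m : Qb) = 0 := by
      have h2 := congrArg (fun z => -z) hr
      simpa using h2.symm
    have h2 : m = 0 := by exact_mod_cast h1
    rw [h2] at hm
    exact lt_irrefl _ hm
  have hrr : -r ≠ r := by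
    intro h
    exact hr0 (self_eq_neg.1 h.symm)
  have hH : ∀ x, x ∈ (C.half : Set X) ↔ C.ka x = r := by
    intro x
    rw [Finset.mem_coe]
    unfold CMAlg.half
    simp
  have hHc : ∀ x, x ∈ (C.half : Set X) ↔ C.c x ∉ (C.half : Set X) := by
    intro x
    rw [hH, hH, hh3 x]
    constructor
    · intro h1 h2
      rw [h1] at h2
      exact hrr h2
    · intro h1
      rcases C.ka_eq x with h2 | h2
      · exact h2
      · exfalso
        rw [h2, neg_neg] at h1
        exact h1 rfl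
  have hH6 : (C.half : Set X).ncard = 6 := by
    rw [Set.ncard_coe_finset, hcard]
  have hdH : ∃ d ∈ dec ι, ∀ x, x ∈ (C.half : Set X) ↔ d • x ∉ (C.half : Set X) := by
    obtain ⟨d, hd1, hd2⟩ := hd
    have hd3 : d r = -r := (hh5 d).resolve_left hd2
    refine ⟨d, hd1, fun x => ?_⟩
    rw [hH, hH, C.ka_smul d x]
    constructor
    · intro h1 h2
      rw [h1, hd3] at h2
      exact hrr h2
    · intro h1
      rcases C.ka_eq x with h2 | h2
      · exact h2
      · exfalso
        rw [h2, map_neg, hd3, neg_neg] at h1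
        exact h1 rfl
  -- a self conjugate element
  by_cases hself : ∃ z, C.c z ∈ orb (dec ι) z
  · obtain ⟨Psi, hP1, hP2, hP3⟩ := hPHW GQ X (dec ι) C.c (C.half : Set X) C.Phi hh2
      (fun d _ x => hh4 d x) hHc hH6 hdH C.type hself
    exact done Psi hP1 hP2 hP3
  have hnself : ∀ z, C.c z ∉ orb (dec ι) z := fun z hz => hself ⟨z, hz⟩
  have hnS : ¬ SelfConj (p ^ a) ι R := by
    intro hS
    apply hself
    obtain ⟨y, hyR, d, hdd, hyd⟩ := hS
    obtain ⟨x, hx⟩ := hRA y hyR
    have hyW : Weil (p ^ a) y := hR.weil y hyR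
    have e1 : uu (p ^ a) ι (C.al x) = uu (p ^ a) ι y :=
      (hD.sim _ _ (C.weil x) hyW).mp hx
    have e2 : uu (p ^ a) ι (C.al (d • x)) = - uu (p ^ a) ι y := by
      rw [(hD.sim _ _ (C.weil _) (hD.weil _ (C.weil x) d)).mp (C.al_smul d x),
        hD.smul _ (C.weil x), e1, ← hD.smul _ hyW]
      exact MXV_opp hD y d hyW hyd
    have e3 : uu (p ^ a) ι (C.al (C.c x)) = - uu (p ^ a) ι y := by
      rw [← C.conj ρ c hc x, (hD.sim _ _ (C.weil _) (hD.weil _ (C.weil x) c)).mp (C.al_smul c x),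
        hD.smul _ (C.weil x), e1]
      exact (coreU ι ρ c hc).cc _
    have e4 : Sim (C.al (d • x)) (C.al (C.c x)) :=
      (hD.sim _ _ (C.weil _) (C.weil _)).mpr (e2.trans e3.symm)
    exact ⟨x, d, hdd, (hinj _ _ e4).symm⟩
  have hnK : ¬ KSplit ι R := by
    intro hK
    obtain ⟨d, hd1, hd2⟩ := hd
    apply hd2
    refine hK r m hm hr ?_ d hd1
    intro g hg
    rw [hst g]
    unfold tr
    rw [Multiset.map_map]
    apply Multiset.map_congr rfl
    intro x hx
    rw [Function.comp_apply, ← hD.smul x (hJW x hx) g]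
    exact (hD.sim _ _ (hD.weil x (hJW x hx) g) (hJW x hx)).mp
      (hg x (Multiset.mem_of_le hJR hx))
  have hnM : ¬ MidOne (p ^ a) ι R := by
    rcases hOS with h | h | h
    · exact absurd h hnK
    · exact absurd h hnS
    · exact h
  -- `R` is the image of `X`
  have hRnd : (R.map (uu (p ^ a) ι)).Nodup := MXV_nodup _ _ _ hG
  have hRe : R = (Finset.univ : Finset X).val.map C.al := by
    have hn1 : R.Nodup := Multiset.Nodup.of_map _ hRnd
    have hn2 : ((Finset.univ : Finset X).val.map C.al).Nodup := by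
      apply Multiset.Nodup.map _ Finset.univ.nodup
      intro x x' hxx
      exact hinj x x' ⟨1, one_pos, by rw [hxx]⟩
    rw [Multiset.Nodup.ext hn1 hn2]
    intro y
    constructor
    · intro hy
      obtain ⟨x, hx⟩ := hRA y hy
      rw [Multiset.mem_map]
      refine ⟨x, Finset.mem_univ x, ?_⟩
      have e1 : uu (p ^ a) ι (C.al x) = uu (p ^ a) ι y :=
        (hD.sim _ _ (C.weil x) (hR.weil y hy)).mp hx
      exact Multiset.inj_on_of_nodup_map hRnd _ (hAR x) _ hy e1
    · intro hy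
      obtain ⟨x, _, rfl⟩ := Multiset.mem_map.mp hy
      exact hAR x
  have hprod : (∏ x, max ‖ι (C.al x)‖ (((p ^ a : ℕ) : ℝ) * ‖ι (C.al x)‖)⁻¹)
      * ((p ^ a : ℕ) : ℝ) ^ 2 ≠ 1 := by
    intro h
    apply hnM
    unfold MidOne
    rw [hRe, Multiset.map_map]
    exact h
  -- some slope is not one half
  have hslope : ∃ x, ur (p ^ a) ι (C.al x) 1 ≠ 0 := by
    by_contra hcon
    push Not at hcon
    have hz : ∀ x, uu (p ^ a) ι (C.al x) = 0 := by
      intro x
      apply Subtype.ext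
      funext g
      rw [hD.mem _ (C.weil x)]
      have e1 : ur (p ^ a) ι (C.al x) g = ur (p ^ a) ι (g (C.al x)) 1 := rfl
      have e2 : uu (p ^ a) ι (C.al (g • x)) = uu (p ^ a) ι (g (C.al x)) :=
        (hD.sim _ _ (C.weil _) (hD.weil _ (C.weil x) g)).mp (C.al_smul g x)
      have e3 : ur (p ^ a) ι (C.al (g • x)) = ur (p ^ a) ι (g (C.al x)) := by
        rw [← hD.mem _ (C.weil _), ← hD.mem _ (hD.weil _ (C.weil x) g), e2]
      rw [e1, ← e3, hcon (g • x)]
      rfl
    have hne : C.half.Nonempty := by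
      rw [← Finset.card_pos, hcard]
      norm_num
    obtain ⟨x, hx⟩ := hne
    have h1 : uu (p ^ a) ι (C.al x) ∈ J.map (uu (p ^ a) ι) := by
      rw [← hmap, Multiset.map_map]
      exact Multiset.mem_map.mpr ⟨x, hx, rfl⟩
    exact hG.nz _ h1 (hz x)
  have hodd := hSGV p a ι ha hD X r m C hcard hd hnself hslope hprod
  obtain ⟨Psi, hP1, hP2, hP3⟩ := hPHV GQ X (dec ι) C.c (C.half : Set X) C.Phi hh2
    (fun d _ x => hh4 d x) hHc hH6 hdH C.type hnself hodd
  exact done Psi hP1 hP2 hP3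

end Pool.T4
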