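import Pool.Agent.Work.MP_223b32_t4.InterfaceW

/-! Block MXW of the table six_blocks (helper1), after MX7.lean (helper45) -/

set_option autoImplicit false

namespace Pool.T4

open Pool.Agent.Work.MP_223b32_ag

theorem MXW_germ {x y : Qb} : germ x = germ y ↔ Sim x y := by
  unfold germ
  exact Quotient.eq

theorem MXW_map {p : ℕ} [Fact p.Prime] {ι : Qb →+* PadicAlgCl p} {q : ℕ} (hD : Dict q ι)
    (J T : Multiset Qb) (hJ : ∀ x ∈ J, Weil q x) (hT : ∀ x ∈ T, Weil q x)
    (h : T.map germ = J.map germ) : T.map (uu q ι) = J.map (uu q ι) := by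
  rw [← Multiset.rel_eq, Multiset.rel_map] at h ⊢
  refine h.mono ?_
  intro a ha b hb hab
  exact (hD.sim a b (hT a ha) (hJ b hb)).mp (MXW_germ.mp hab)

/-- `d y` is opposite to `y` if `y * d y` is similar to `q`. -/
theorem MXW_opp {p : ℕ} [Fact p.Prime] {ι : Qb →+* PadicAlgCl p} {q : ℕ} (hD : Dict q ι)
    (y : Qb) (d : GQ) (hy : Weil q y) (h : Sim (y * d y) (q : Qb)) :
    uu q ι (d y) = - uu q ι y := by
  have h1 : Sim ((({y, d y} : Multiset Qb)).prod ^ 2)
      ((q : Qb) ^ (({y, d y} : Multiset Qb)).card) := by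
    obtain ⟨N, hN, he⟩ := h
    refine ⟨N, hN, ?_⟩
    have e1 : (({y, d y} : Multiset Qb)).prod = y * d y := by simp
    have e2 : (({y, d y} : Multiset Qb)).card = 2 := by simp
    rw [e1, e2, ← pow_mul, ← pow_mul, mul_comm 2 N, pow_mul, pow_mul, he]
  have h2 : ∀ x ∈ ({y, d y} : Multiset Qb), Weil q x := by
    intro x hx
    simp only [Multiset.insert_eq_cons, Multiset.mem_cons, Multiset.mem_singleton] at hx
    rcases hx with rfl | rfl
    · exact hy
    · exact hD.weil y hy d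
  have h3 := (hD.sum _ h2).mpr h1
  have e3 : (({y, d y} : Multiset Qb).map (uu q ι)).sum = uu q ι y + uu q ι (d y) := by
    simp
  rw [e3] at h3
  exact eq_neg_of_add_eq_zero_right h3

theorem p_MXW (hMKW : Stmt_MKW) (hBLD : Stmt_BLD) (hHLF : Stmt_HLF) (hTSP : Stmt_TSP)
    (hODW : Stmt_ODW) (hPHW : Stmt_PHW) : Stmt_MXW := by
  intro p _ a ι ρ c hc ha hD R J hR hJR hG hOS r m hm hr hst
  obtain ⟨X, _, _, A, hAn, hz3, hAR, hRA, hinj⟩ :=
    hMKW p a ι ρ c hc ha hD R J hR hJR hG r m hm hr hst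
  obtain ⟨C, rfl⟩ := hBLD p a ι ha hD X r m A hAn
  obtain ⟨hh1, hh2, hh3, hh4, hh5⟩ := hHLF (p ^ a) X r m C.toCMAlg
  have hJW : ∀ x ∈ J, Weil (p ^ a) x := fun x hx => hR.weil x (Multiset.mem_of_le hJR hx)
  have hcard : C.half.card = 6 := by
    have h1 := congrArg Multiset.card hz3
    rw [Multiset.card_map, Multiset.card_map, Multiset.card_map] at h1
    have h2 := hG.card
    rw [Multiset.card_map] at h2
    have h3 : C.half.val.card = C.half.card := rfl
    omega
  have hTW : ∀ x ∈ C.half.val.map C.al, Weil (p ^ a) x := by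
    intro x hx
    obtain ⟨y, _, rfl⟩ := Multiset.mem_map.mp hx
    exact C.weil y
  have hmap := MXW_map hD J (C.half.val.map C.al) hJW hTW hz3
  have hsum : (∑ x ∈ C.half, uu (p ^ a) ι (C.al x)) = 0 := by
    have h1 := hG.sum
    rw [← hmap, Multiset.map_map] at h1
    exact h1
  have hsum1 : (∑ x ∈ C.half, ur (p ^ a) ι (C.al x) 1) = 0 := by
    have h1 := congrArg (fun v : UU ι => v.1 1) hsum
    have h2 : (∑ x ∈ C.half, uu (p ^ a) ι (C.al x)).1 1
        = ∑ x ∈ C.half, ur (p ^ a) ι (C.al x) 1 := by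
      rw [Submodule.coe_sum, Finset.sum_apply]
      apply Finset.sum_congr rfl
      intro x _
      rw [hD.mem _ (C.weil x)]
    rw [← h2]
    exact h1
  -- it is enough to have the signature `(3, 3)`
  have done : ∀ (Psi : Set X) (hP1 : ∀ x, x ∈ Psi ↔ C.c x ∉ Psi)
      (hP2 : ∀ x, (Psi ∩ locOrb ι x).ncard = (C.Phi ∩ locOrb ι x).ncard)
      (hP3 : (Psi ∩ C.half).ncard = 3),
      ∃ S : Multiset Qb, S.map germ = J.map germ ∧ HasCM (p ^ a) ι r m 6 3 false S := by
    intro Psi hP1 hP2 hP3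
    have hst' : ∀ x, ‖ι (C.al x)‖ ^ (locOrb ι x).ncard *
        ((p ^ a : ℕ) : ℝ) ^ (Psi ∩ locOrb ι x).ncard = 1 := by
      intro x
      rw [hP2 x]
      exact C.st x
    refine ⟨C.half.val.map C.al, hz3,
      ⟨X, _, _, { toCMAlg := C.toCMAlg, Phi := Psi, type := hP1, st := hst' }, ?_, hP3, rfl, ?_⟩⟩
    · rw [← hh1, hcard]
    · intro h
      exact absurd h (by decide)
  by_cases hsp : ∀ d ∈ dec ι, d r = r
  · have h1 := hTSP p a ι ha hD X r m C hsp
    rw [Finset.sum_add_distrib, hsum1, Finset.sum_const, nsmul_eq_mul, mul_one, zero_add] at h1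
    have h2 : 2 * (C.Phi ∩ C.half).ncard = C.half.card := by exact_mod_cast h1
    exact done C.Phi C.type (fun _ => rfl) (by omega)
  rcases hOS with hO | hS
  · have h1 := hODW p a ι ha X r m C (fun x => hO _ (hAR x)) hsum1
    exact done C.Phi C.type (fun _ => rfl) (by omega)
  have hd : ∃ d ∈ dec ι, d r ≠ r := by
    push Not at hsp
    exact hsp
  -- `r ≠ -r`
  have hr0 : r ≠ 0 := by
    intro h
    rw [h, zero_pow two_ne_zero] at hr
    have h1 : (m : Qb) = 0 := by
      have h2 := congrArg (fun z => -z) hr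
      simpa using h2.symm
    have h2 : m = 0 := by exact_mod_cast h1
    rw [h2] at hm
    exact lt_irrefl _ hm
  have hrr : -r ≠ r := by
    intro h
    exact hr0 (self_eq_neg.1 h.symm)
  have hH : ∀ x, x ∈ (C.half : Set X) ↔ C.ka x = r := by
    intro x
    rw [Finset.mem_coe]
    unfold CMAlg.half
    simp
  have hHc : ∀ x, x ∈ (C.half : Set X) ↔ C.c x ∉ (C.half : Set X) := by
    intro x
    rw [hH, hH, hh3 x]
    constructor
    · intro h1 h2
      rw [h1] at h2
      exact hrr h2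
    · intro h1
      rcases C.ka_eq x with h2 | h2
      · exact h2
      · exfalso
        rw [h2, neg_neg] at h1
        exact h1 rfl
  have hH6 : (C.half : Set X).ncard = 6 := by
    rw [Set.ncard_coe_finset, hcard]
  have hdH : ∃ d ∈ dec ι, ∀ x, x ∈ (C.half : Set X) ↔ d • x ∉ (C.half : Set X) := by
    obtain ⟨d, hd1, hd2⟩ := hd
    have hd3 : d r = -r := (hh5 d).resolve_left hd2
    refine ⟨d, hd1, fun x => ?_⟩
    rw [hH, hH, C.ka_smul d x]
    constructor
    · intro h1 h2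
      rw [h1, hd3] at h2
      exact hrr h2
    · intro h1
      rcases C.ka_eq x with h2 | h2
      · exact h2
      · exfalso
        rw [h2, map_neg, hd3, neg_neg] at h1
        exact h1 rfl
  -- a self conjugate element
  have hself : ∃ z, C.c z ∈ orb (dec ι) z := by
    obtain ⟨y, hyR, d, hdd, hyd⟩ := hS
    obtain ⟨x, hx⟩ := hRA y hyR
    have hyW : Weil (p ^ a) y := hR.weil y hyR
    have e1 : uu (p ^ a) ι (C.al x) = uu (p ^ a) ι y :=
      (hD.sim _ _ (C.weil x) hyW).mp hx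
    have e2 : uu (p ^ a) ι (C.al (d • x)) = - uu (p ^ a) ι y := by
      rw [(hD.sim _ _ (C.weil _) (hD.weil _ (C.weil x) d)).mp (C.al_smul d x),
        hD.smul _ (C.weil x), e1, ← hD.smul _ hyW]
      exact MXW_opp hD y d hyW hyd
    have e3 : uu (p ^ a) ι (C.al (C.c x)) = - uu (p ^ a) ι y := by
      rw [← C.conj ρ c hc x, (hD.sim _ _ (C.weil _) (hD.weil _ (C.weil x) c)).mp (C.al_smul c x),
        hD.smul _ (C.weil x), e1]
      exact (coreU ι ρ c hc).cc _
    have e4 : Sim (C.al (d • x)) (C.al (C.c x)) :=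
      (hD.sim _ _ (C.weil _) (C.weil _)).mpr (e2.trans e3.symm)
    exact ⟨x, d, hdd, (hinj _ _ e4).symm⟩
  obtain ⟨Psi, hP1, hP2, hP3⟩ := hPHW GQ X (dec ι) C.c (C.half : Set X) C.Phi hh2
    (fun d _ x => hh4 d x) hHc hH6 hdH C.type hself
  exact done Psi hP1 hP2 hP3

end Pool.T4
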