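import Pool.Agent.Work.MP_223b32_t4.InterfaceW

/-!
# Block ODW (ordinary abelian varieties: the signature), typed by helper92
-/

namespace Pool.T4

open Pool.Agent.Work.MP_223b32_ag

theorem p_ODW : Stmt_ODW := by
  intro p _ a ι ha X _ _ r m C hord hsum
  classical
  have hq : (1 : ℝ) < ((p ^ a : ℕ) : ℝ) := by
    exact_mod_cast Nat.one_lt_pow ha.ne' (Fact.out : p.Prime).one_lt
  have hur : ∀ x : X, ur (p ^ a) ι (C.al x) 1 = if x ∈ C.Phi then 1 else -1 := by
    intro x
    have hst := C.st x
    have hself : x ∈ locOrb ι x := ⟨1, (dec ι).one_mem, by rw [one_smul]⟩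
    rcases hord x with h1 | h1
    · rw [h1, one_pow, one_mul] at hst
      have hk : (C.Phi ∩ locOrb ι x).ncard = 0 := by
        by_contra hne
        have := one_lt_pow₀ hq hne
        linarith
      have hx : x ∉ C.Phi := by
        intro hx
        rw [Set.ncard_eq_zero (Set.toFinite _)] at hk
        have h2 : x ∈ C.Phi ∩ locOrb ι x := ⟨hx, hself⟩
        rw [hk] at h2
        exact h2
      rw [if_neg hx]
      unfold ur
      rw [AlgEquiv.one_apply, h1, Real.logb_one]
      norm_num
    · have hn : ‖ι (C.al x)‖ = (((p ^ a : ℕ) : ℝ))⁻¹ := eq_inv_of_mul_eq_one_left h1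
      rw [hn, inv_pow, inv_mul_eq_one₀ (by positivity)] at hst
      have hk : (locOrb ι x).ncard = (C.Phi ∩ locOrb ι x).ncard :=
        pow_right_injective₀ (by linarith) (ne_of_gt hq) hst
      have hx : x ∈ C.Phi := by
        have h2 : C.Phi ∩ locOrb ι x = locOrb ι x :=
          Set.eq_of_subset_of_ncard_le Set.inter_subset_right hk.le (Set.toFinite _)
        have h3 : x ∈ C.Phi ∩ locOrb ι x := by rw [h2]; exact hself
        exact h3.1
      rw [if_pos hx]
      unfold ur
      rw [AlgEquiv.one_apply, hn, Real.logb_inv, Real.logb_self_eq_one hq]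
      norm_num
  have h1 : (C.Phi ∩ (C.half : Set X)) = ((C.half.filter fun x => x ∈ C.Phi : Finset X) : Set X) := by
    ext x
    simp [and_comm]
  have h2 := Finset.card_filter_add_card_filter_not (s := C.half) (fun x => x ∈ C.Phi)
  rw [Finset.sum_congr rfl fun x _ => hur x, Finset.sum_ite, Finset.sum_const, Finset.sum_const,
    nsmul_eq_mul, nsmul_eq_mul] at hsum
  rw [h1, Set.ncard_coe_finset]
  have h3 : ((C.half.filter fun x => x ∈ C.Phi).card : ℝ) =
      ((C.half.filter fun x => x ∉ C.Phi).card : ℝ) := by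
    linarith
  have h4 : (C.half.filter fun x => x ∈ C.Phi).card = (C.half.filter fun x => x ∉ C.Phi).card := by
    exact_mod_cast h3
  omega

end Pool.T4
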