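import Pool.Agent.Work.MP_223b32_t4.Interface5

/-!
# Block ON5, typed by helper56
-/

namespace Pool.T4

open Pool.Agent.Work.MP_223b32_ag

section

variable {G U : Type} [Group G] [AddCommGroup U] [Module ℚ U] [DistribMulAction G U]

/-- `v` is in the orbit of `u`. -/
def ON5_O (G : Type) {U : Type} [Group G] [AddCommGroup U] [DistribMulAction G U] (u v : U) :
    Prop := ∃ h : G, h • u = v

theorem ON5_neg (K : Core G U) {u v : U} (h : ON5_O G u v) : ON5_O G u (-v) := by
  obtain ⟨k, rfl⟩ := h
  exact ⟨k * K.c0, by rw [mul_smul, K.cc, smul_neg]⟩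

omit [Module ℚ U] in
theorem ON5_self (u : U) : ON5_O G u u := ⟨1, one_smul _ _⟩

theorem ON5_mem_u {K : Core G U} {R J : Multiset U} {u : U} (M : Miss K R J u) : u ∈ R := by
  rw [M.eq]
  simp

theorem ON5_mem {K : Core G U} {R J : Multiset U} {u v : U} (M : Miss K R J u)
    (h : ON5_O G u v) : v ∈ R := by
  obtain ⟨k, rfl⟩ := h
  rw [← M.isR.stable k]
  exact Multiset.mem_map_of_mem _ (ON5_mem_u M)

theorem ON5_mid (hXP : Stmt_XP5) {K : Core G U} {R J : Multiset U} {u : U} (M : Miss K R J u)
    {a b z : U} (ha : ON5_O G u a) (hb : ON5_O G u b) (hz : ON5_O G u z) (e : a + b = z + z) :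
    a = z ∧ b = z := by
  classical
  refine hXP G U K (R.toFinset.filter fun v => ON5_O G u v) ?_ ?_ a ?_ b ?_ z ?_ e
  · intro g v hv
    rw [Finset.mem_filter] at hv ⊢
    obtain ⟨k, hk⟩ := hv.2
    have h1 : ON5_O G u (g • v) := ⟨g * k, by rw [mul_smul, hk]⟩
    exact ⟨Multiset.mem_toFinset.2 (ON5_mem M h1), h1⟩
  · intro v hv v' hv'
    rw [Finset.mem_filter] at hv hv'
    obtain ⟨k, hk⟩ := hv.2
    obtain ⟨k', hk'⟩ := hv'.2
    exact ⟨k' * k⁻¹, by rw [← hk, mul_smul, inv_smul_smul, hk']⟩
  · exact Finset.mem_filter.2 ⟨Multiset.mem_toFinset.2 (ON5_mem M ha), ha⟩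
  · exact Finset.mem_filter.2 ⟨Multiset.mem_toFinset.2 (ON5_mem M hb), hb⟩
  · exact Finset.mem_filter.2 ⟨Multiset.mem_toFinset.2 (ON5_mem M hz), hz⟩

theorem ON5_zero {v : U} (h : v + v = 0) : v = 0 := by
  have h1 : v = (1 / 2 : ℚ) • (v + v) := by
    rw [← two_smul ℚ v, smul_smul]
    norm_num
  rw [h1, h, smul_zero]

theorem ON5_first (hXP : Stmt_XP5) {K : Core G U} {R J : Multiset U} {u : U}
    (M : Miss K R J u) {g : G} (h1 : g • u ≠ u) (h2 : g • u ≠ -u) {a b x y z : U}
    (ha : a = g • u ∨ a = -(g • u)) (hb : b = u ∨ b = -u) (s1 : a + x + y + z = 0)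
    (s2 : b + x + y = z) : ¬ ON5_O G u z := by
  intro hz
  have oa : ON5_O G u a := by
    rcases ha with rfl | rfl
    · exact ⟨g, rfl⟩
    · exact ON5_neg K ⟨g, rfl⟩
  have ob : ON5_O G u b := by
    rcases hb with rfl | rfl
    · exact ON5_self _
    · exact ON5_neg K (ON5_self _)
  have e : b + -a = z + z := by
    have e1 : b + -a = (b + x + y) - (a + x + y + z) + z := by abel
    rw [e1, s1, s2]
    abel
  obtain ⟨e2, e3⟩ := ON5_mid hXP M ob (ON5_neg K oa) hz e
  have e4 : b = -a := by rw [e2, e3]
  rcases ha with rfl | rfl <;> rcases hb with rfl | rfl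
  · exact h2 (neg_eq_iff_eq_neg.mp e4.symm)
  · exact h1 (neg_injective e4).symm
  · exact h1 (by rw [neg_neg] at e4; exact e4.symm)
  · refine h2 ?_
    rw [neg_neg] at e4
    exact e4.symm

omit [Module ℚ U] in
/-- two different places of a multiset -/
theorem ON5_pair2 {J : Multiset U} (hJ : NoPair J) {a x y z : U} (e : J = {a, x, y, z}) :
    a ≠ -x := by
  intro h
  refine hJ a x ?_ (by rw [h]; abel)
  rw [e]
  have h1 : ({a, x, y, z} : Multiset U) = {a, x} + {y, z} := rfl
  rw [h1]
  exact Multiset.le_add_right _ _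

theorem ON5_x (hXP : Stmt_XP5) (hTR : Stmt_TR5) (hMO : Stmt_MO5) (hPR : Stmt_PR5)
    {K : Core G U} {R J : Multiset U} {u : U}
    (M : Miss K R J u) {g : G} (h1 : g • u ≠ u) (h2 : g • u ≠ -u) {a b x y z : U}
    (ha : a = g • u ∨ a = -(g • u)) (hb : b = u ∨ b = -u) (eJ : J = {a, x, y, z})
    (s1 : a + x + y + z = 0) (s2 : b + x + y = z) : ¬ ON5_O G u x := by
  classical
  intro ox
  have hz := ON5_first hXP M h1 h2 ha hb s1 s2
  have oa : ON5_O G u a := by
    rcases ha with rfl | rfl
    · exact ⟨g, rfl⟩
    · exact ON5_neg K ⟨g, rfl⟩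
  have ob : ON5_O G u b := by
    rcases hb with rfl | rfl
    · exact ON5_self _
    · exact ON5_neg K (ON5_self _)
  have e : z + z = b + -a := by
    have e1 : b + -a = (b + x + y) - (a + x + y + z) + z := by abel
    rw [e1, s1, s2]
    abel
  -- `u` occurs once
  have m1 : R.count u = 1 := hMO G U K R J u M g h1 h2
  have u0 : u ≠ 0 := by
    rintro rfl
    exact h1 (smul_zero g)
  have hcu : ∀ v : U, ON5_O G u v → R.count v = 1 := by
    rintro v ⟨k, rfl⟩
    have h3 := Multiset.count_map_eq_count' (fun v : U => k • v) R (MulAction.injective k) u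
    have h4 : R.map (fun v : U => k • v) = R := M.isR.stable k
    rw [h4] at h3
    have h5 : R.count (k • u) = R.count u := h3
    rw [h5, m1]
  have huJ : u ∉ J := by
    intro h3
    have h4 : 2 ≤ R.count u := by
      rw [M.eq, Multiset.count_add, Multiset.count_add]
      have h5 : 0 < J.count u := Multiset.count_pos.2 h3
      have h6 : 0 < Multiset.count u ({u, -u} : Multiset U) := Multiset.count_pos.2 (by simp)
      omega
    omega
  have hnuJ : -u ∉ J := by
    intro h3
    have h7 : R.count (-u) = 1 := hcu _ (ON5_neg K (ON5_self u))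
    have h4 : 2 ≤ R.count (-u) := by
      rw [M.eq, Multiset.count_add, Multiset.count_add]
      have h5 : 0 < J.count (-u) := Multiset.count_pos.2 h3
      have h6 : 0 < Multiset.count (-u) ({u, -u} : Multiset U) := Multiset.count_pos.2 (by simp)
      omega
    omega
  have hxJ : x ∈ J := by rw [eJ]; simp
  have haJ : a ∈ J := by rw [eJ]; simp
  have xu : x ≠ u := fun h => huJ (h ▸ hxJ)
  have xnu : x ≠ -u := fun h => hnuJ (h ▸ hxJ)
  have au : a ≠ u := fun h => huJ (h ▸ haJ)
  have anu : a ≠ -u := fun h => hnuJ (h ▸ haJ)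
  have xb : x ≠ b := by rcases hb with rfl | rfl <;> assumption
  have xnb : x ≠ -b := by
    rcases hb with rfl | rfl
    · exact xnu
    · rw [neg_neg]; exact xu
  have ab : a ≠ b := by rcases hb with rfl | rfl <;> assumption
  have anb : a ≠ -b := by
    rcases hb with rfl | rfl
    · exact anu
    · rw [neg_neg]; exact au
  have anx : a ≠ -x := ON5_pair2 M.noPair eJ
  have ax : a ≠ x := by
    intro h
    have h3 := hcu x ox
    have h4 : 2 ≤ R.count x := by
      rw [M.eq, Multiset.count_add, Multiset.count_add]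
      have h5 : 2 ≤ J.count x := by
        rw [eJ, h]
        have h6 : ({x, x, y, z} : Multiset U) = {x, x} + {y, z} := rfl
        rw [h6, Multiset.count_add]
        have h7 : Multiset.count x ({x, x} : Multiset U) = 2 := by
          rw [Multiset.insert_eq_cons, Multiset.count_cons_self, Multiset.count_singleton_self]
        omega
      omega
    omega
  have x0 : x ≠ 0 := by
    obtain ⟨k, rfl⟩ := ox
    intro h
    exact u0 (by rwa [smul_eq_zero_iff_eq] at h)
  have nxJ : -x ∉ J := by
    intro h
    refine M.noPair x (-x) ?_ (add_neg_cancel x)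
    have hnd : ({x, -x} : Multiset U).Nodup := by
      rw [Multiset.insert_eq_cons, Multiset.nodup_cons]
      refine ⟨?_, Multiset.nodup_singleton _⟩
      rw [Multiset.mem_singleton]
      intro h3
      refine x0 (ON5_zero ?_)
      nth_rewrite 2 [h3]
      exact add_neg_cancel x
    rw [Multiset.le_iff_subset hnd]
    intro v hv
    rw [Multiset.insert_eq_cons, Multiset.mem_cons, Multiset.mem_singleton] at hv
    rcases hv with rfl | rfl
    · exact hxJ
    · exact h
  -- the second relation
  obtain ⟨h, hh⟩ := ox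
  have ox : ON5_O G u x := ⟨h, hh⟩
  obtain ⟨a2, b2, x2, y2, z2, ha2, hb2, eJ2, s3, s4⟩ :=
    hPR G U K R J u M h (by rw [hh]; exact xu) (by rw [hh]; exact xnu)
  have hz2 := ON5_first hXP M (by rw [hh]; exact xu) (by rw [hh]; exact xnu) ha2 hb2 s3 s4
  rw [hh] at ha2
  have ea2 : a2 = x := by
    rcases ha2 with h3 | h3
    · exact h3
    · exfalso
      refine nxJ ?_
      rw [← h3, eJ2]
      simp
  subst ea2
  have ob2 : ON5_O G u b2 := by
    rcases hb2 with rfl | rfl
    · exact ON5_self _
    · exact ON5_neg K (ON5_self _)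
  have xb2 : a2 ≠ b2 := by rcases hb2 with rfl | rfl <;> assumption
  have e2 : z2 + z2 = b2 + -a2 := by
    have e1 : b2 + -a2 = (b2 + x2 + y2) - (a2 + x2 + y2 + z2) + z2 := by abel
    rw [e1, s3, s4]
    abel
  have hz2J : z2 ∈ J := by rw [eJ2]; simp
  rw [eJ] at hz2J
  simp only [Multiset.insert_eq_cons, Multiset.mem_cons, Multiset.mem_singleton] at hz2J
  have nab2 : a ≠ b2 := by rcases hb2 with rfl | rfl <;> assumption
  have nanb2 : a ≠ -b2 := by
    rcases hb2 with rfl | rfl
    · exact anu
    · rw [neg_neg]; exact au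
  rcases hz2J with h3 | h3 | h3 | h3
  · exact hz2 (h3 ▸ oa)
  · exact hz2 (h3 ▸ ox)
  · -- `z2 = y`
    rw [h3] at e2
    have M' := hTR G U K R J u M g
    have hk : (h * g⁻¹) • (g • u) = a2 := by rw [mul_smul, inv_smul_smul, hh]
    have k1 : (h * g⁻¹) • (g • u) ≠ g • u := by
      rw [hk]
      rcases ha with h4 | h4
      · rw [← h4]; exact ax.symm
      · intro h5
        refine anx ?_
        rw [h4, h5]
    have k2 : (h * g⁻¹) • (g • u) ≠ -(g • u) := by
      rw [hk]
      rcases ha with h4 | h4
      · intro h5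
        refine anx ?_
        rw [h4, h5, neg_neg]
      · rw [← h4]; exact ax.symm
    obtain ⟨a3, b3, x3, y3, z3, ha3, hb3, eJ3, s5, s6⟩ :=
      hPR G U K R (tr g J) (g • u) M' (h * g⁻¹) k1 k2
    have hz3' := ON5_first hXP M' k1 k2 ha3 hb3 s5 s6
    have hz3 : ¬ ON5_O G u z3 := by
      rintro ⟨k, hk'⟩
      exact hz3' ⟨k * g⁻¹, by rw [mul_smul, inv_smul_smul, hk']⟩
    rw [hk] at ha3
    have e3 : z3 + z3 = b3 + -a3 := by
      have e1 : b3 + -a3 = (b3 + x3 + y3) - (a3 + x3 + y3 + z3) + z3 := by abel
      rw [e1, s5, s6]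
      abel
    have hb3' : b3 = a ∨ b3 = -a := by
      rcases ha with h4 | h4 <;> rcases hb3 with h5 | h5
      · left; rw [h4, h5]
      · right; rw [h4, h5]
      · right; rw [h4, h5, neg_neg]
      · left; rw [h4, h5]
    have hz3R : z3 ∈ R := by
      rw [M'.eq, eJ3]
      simp
    rw [M.eq] at hz3R
    simp only [Multiset.mem_add, Multiset.insert_eq_cons, Multiset.mem_cons,
      Multiset.mem_singleton] at hz3R
    have ona2 : ON5_O G u (-a2) := ON5_neg K ox
    have ona : ON5_O G u (-a) := ON5_neg K oa
    have hcase : z3 = y ∨ z3 = z ∨ z3 = -y ∨ z3 = -z := by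
      rcases hz3R with (h4 | h4) | h4 | h4
      · rw [eJ] at h4
        simp only [Multiset.insert_eq_cons, Multiset.mem_cons, Multiset.mem_singleton] at h4
        rcases h4 with h4 | h4 | h4 | h4
        · exact absurd (h4 ▸ oa) hz3
        · exact absurd (h4 ▸ ox) hz3
        · exact Or.inl h4
        · exact Or.inr (Or.inl h4)
      · unfold ng at h4
        rw [Multiset.mem_map] at h4
        obtain ⟨v, hv, hv'⟩ := h4
        rw [eJ] at hv
        simp only [Multiset.insert_eq_cons, Multiset.mem_cons, Multiset.mem_singleton] at hv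
        rcases hv with rfl | rfl | rfl | rfl
        · exact absurd (hv' ▸ ona) hz3
        · exact absurd (hv' ▸ ona2) hz3
        · exact Or.inr (Or.inr (Or.inl hv'.symm))
        · exact Or.inr (Or.inr (Or.inr hv'.symm))
      · refine absurd ?_ hz3
        rw [h4]
        exact ON5_self u
      · refine absurd ?_ hz3
        rw [h4]
        exact ON5_neg K (ON5_self u)
    rcases hcase with h4 | h4 | h4 | h4
    · -- `z3 = y`
      rw [h4, e2] at e3
      rcases ha3 with h5 | h5
      · rw [h5] at e3
        have h6 : b2 = b3 := add_right_cancel e3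
        rcases hb3' with h7 | h7
        · exact nab2 (by rw [h6, h7])
        · exact nanb2 (by rw [h6, h7, neg_neg])
      · rw [h5, neg_neg] at e3
        have h6 : b2 + -b3 = a2 + a2 := by
          have h7 : b2 + -b3 = (b2 + -a2) + a2 - b3 := by abel
          rw [h7, e3]
          abel
        have ob3 : ON5_O G u (-b3) := by
          rcases hb3' with h7 | h7
          · rw [h7]; exact ona
          · rw [h7, neg_neg]; exact oa
        exact xb2 (ON5_mid hXP M ob2 ob3 ox h6).1.symm
    · -- `z3 = z`
      rw [h4, e] at e3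
      rcases hb3' with h5 | h5
      · rw [h5] at e3
        have h6 : b + a3 = a + a := by
          have h7 : b + a3 = (b + -a) + a + a3 := by abel
          rw [h7, e3]
          abel
        have oa3 : ON5_O G u a3 := by
          rcases ha3 with h7 | h7
          · rw [h7]; exact ox
          · rw [h7]; exact ona2
        exact ab (ON5_mid hXP M ob oa3 oa h6).1.symm
      · rw [h5] at e3
        have h6 : b = -a3 := by
          have h7 : b = (b + -a) + a := by abel
          rw [h7, e3]
          abel
        rcases ha3 with h7 | h7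
        · exact xnb (by rw [h6, h7, neg_neg])
        · exact xb (by rw [h6, h7, neg_neg])
    · -- `z3 = -y`
      have e4 : a2 + -b2 = b3 + -a3 := by
        rw [← e3, h4, ← neg_add, e2]
        abel
      rcases ha3 with h5 | h5
      · rw [h5] at e4
        have h6 : b2 + b3 = a2 + a2 := by
          have h7 : b2 + b3 = (b3 + -a2) + a2 + b2 := by abel
          rw [h7, ← e4]
          abel
        have ob3 : ON5_O G u b3 := by
          rcases hb3' with h7 | h7
          · rw [h7]; exact oa
          · rw [h7]; exact ona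
        exact xb2 (ON5_mid hXP M ob2 ob3 ox h6).1.symm
      · rw [h5, neg_neg] at e4
        have h6 : -b2 = b3 := by
          have h7 : -b2 = (a2 + -b2) - a2 := by abel
          rw [h7, e4]
          abel
        rcases hb3' with h7 | h7
        · exact nanb2 (by rw [h6, h7])
        · refine nab2 ?_
          rw [h7] at h6
          exact (neg_injective h6).symm
    · -- `z3 = -z`
      have e4 : a + -b = b3 + -a3 := by
        rw [← e3, h4, ← neg_add, e]
        abel
      rcases hb3' with h5 | h5
      · rw [h5] at e4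
        have h6 : b = a3 := by
          have h7 : -b = -a3 := add_left_cancel e4
          exact neg_injective h7
        rcases ha3 with h7 | h7
        · exact xb (by rw [h6, h7])
        · exact xnb (by rw [h6, h7, neg_neg])
      · rw [h5] at e4
        have h6 : b + -a3 = a + a := by
          have h7 : b + -a3 = (-a + -a3) + a + b := by abel
          rw [h7, ← e4]
          abel
        have oa3 : ON5_O G u (-a3) := by
          rcases ha3 with h7 | h7
          · rw [h7]; exact ona2
          · rw [h7, neg_neg]; exact ox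
        exact ab (ON5_mid hXP M ob oa3 oa h6).1.symm
  · -- `z2 = z`
    rw [h3, e] at e2
    have hbb : b2 = b ∨ b2 = -b := by
      rcases hb with rfl | rfl <;> rcases hb2 with h4 | h4
      · exact Or.inl h4
      · exact Or.inr h4
      · exact Or.inr (by rw [h4, neg_neg])
      · exact Or.inl h4
    rcases hbb with h4 | h4
    · rw [h4] at e2
      exact ax (neg_injective (add_left_cancel e2))
    · rw [h4] at e2
      have h5 : a + -a2 = b + b := by
        have h6 : a + -a2 = (-b + -a2) + b + a := by abel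
        rw [h6, ← e2]
        abel
      exact ab (ON5_mid hXP M oa (ON5_neg K ox) ob h5).1

end

theorem p_ON5 (hXP : Stmt_XP5) (hTR : Stmt_TR5) (hMO : Stmt_MO5) (hPR : Stmt_PR5) :
    Stmt_ON5 := by
  intro G U _ _ _ _ K R J u M g h1 h2 a b x y z ha hb eJ s1 s2 h
  refine ⟨fun e => ?_, fun e => ?_, fun e => ?_⟩
  · exact ON5_x hXP hTR hMO hPR M h1 h2 ha hb eJ s1 s2 ⟨h, e⟩
  · have eJ' : J = {a, y, x, z} := by
      rw [eJ, Multiset.insert_eq_cons, Multiset.insert_eq_cons, Multiset.insert_eq_cons,
        Multiset.insert_eq_cons, Multiset.insert_eq_cons, Multiset.insert_eq_cons,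
        Multiset.cons_swap x y]
    have s1' : a + y + x + z = 0 := by
      rw [← s1]; abel
    have s2' : b + y + x = z := by
      rw [← s2]; abel
    exact ON5_x hXP hTR hMO hPR M h1 h2 ha hb eJ' s1' s2' ⟨h, e⟩
  · exact ON5_first hXP M h1 h2 ha hb s1 s2 ⟨h, e⟩

end Pool.T4
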