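import Pool.Agent.Work.MP_223b32_t4.Interface5

/-! # Block P55 -/

namespace Pool.T4

theorem p_P55 (h1 : Stmt_DE5) (h2 : Stmt_CA5) (h3 : Stmt_PR5) (h4 : Stmt_ON5) (h5 : Stmt_FB5) :
    Stmt_P55 := by
  intro G U _ _ _ _ K R J hR hc hJ hJ4 hs hn
  rcases h1 G U K R J hR hc hJ hJ4 hs hn with hg | ⟨u, hm⟩
  · left
    have e := hg.eq
    refine ⟨e.ge, ⟨?_, hJ4, rfl, hs, hn⟩⟩
    rw [← e]
    exact hR
  · by_cases h : ∀ g : G, g • u = u ∨ g • u = -u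
    · left
      refine ⟨?_, ⟨h2 G U K R J u hm h, hJ4, rfl, hs, hn⟩⟩
      rw [hm.eq]
      exact Multiset.le_add_right _ _
    · right
      push Not at h
      obtain ⟨g, g1, g2⟩ := h
      obtain ⟨a, b, x, y, z, e1, e2, e3, e4, e5⟩ := h3 G U K R J u hm g g1 g2
      exact h5 G U K R J u hm g g1 g2 a b x y z e1 e2 e3 e4 e5
        (h4 G U K R J u hm g g1 g2 a b x y z e1 e2 e3 e4 e5)

end Pool.T4
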