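import Pool.Agent.Work.MP_223b32_t4.Interface

namespace Pool.T4

open Pool.Agent.Work.MP_223b32_ag

/-- `r` or `-r`. -/
noncomputable def PMN_ka (r : Qb) (x : Bool) : Qb := if x = true then r else -r

theorem PMN_gr {r : Qb} {m : ℚ} (hr : r ^ 2 = -(m : Qb)) (g : GQ) : g r = r ∨ g r = -r := by
  apply sq_eq_sq_iff_eq_or_eq_neg.1
  rw [← map_pow, hr, map_neg, map_ratCast]

theorem PMN_ne {r : Qb} {m : ℚ} (hm : 0 < m) (hr : r ^ 2 = -(m : Qb)) : r ≠ 0 := by
  rintro rfl
  have h1 : ((m : ℚ) : Qb) = 0 := by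
    have h2 : (0 : Qb) ^ 2 = 0 := by norm_num
    rw [h2] at hr
    exact neg_eq_zero.1 hr.symm
  exact hm.ne' (by exact_mod_cast h1)

theorem PMN_inj {r : Qb} (hr : r ≠ 0) : Function.Injective (PMN_ka r) := by
  have h : r ≠ -r := fun h => hr (self_eq_neg.1 h)
  intro x y hxy
  cases x <;> cases y
  · rfl
  · exact absurd hxy.symm h
  · exact absurd hxy h
  · rfl

open Classical in
/-- The action. -/
noncomputable def PMN_sm (r : Qb) (g : GQ) (x : Bool) : Bool := if g r = r then x else !x

theorem PMN_ka_sm {r : Qb} {m : ℚ} (hr : r ^ 2 = -(m : Qb)) (g : GQ) (x : Bool) :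
    PMN_ka r (PMN_sm r g x) = g (PMN_ka r x) := by
  by_cases h : g r = r
  · have h1 : PMN_sm r g x = x := if_pos h
    rw [h1]
    cases x
    · show -r = g (-r)
      rw [map_neg, h]
    · exact h.symm
  · have h1 : PMN_sm r g x = !x := if_neg h
    have h2 := (PMN_gr hr g).resolve_left h
    rw [h1]
    cases x
    · show r = g (-r)
      rw [map_neg, h2, neg_neg]
    · exact h2.symm

theorem PMN_normp {p : ℕ} [Fact p.Prime] : ‖((p : ℕ) : PadicAlgCl p)‖ = (p : ℝ)⁻¹ := by
  have h1 := PadicAlgCl.norm_extends p ((p : ℕ) : ℚ_[p])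
  rw [Padic.norm_p] at h1
  rw [← h1]
  congr 1

/-- The action on the two embeddings. -/
noncomputable abbrev PMN_act {r : Qb} {m : ℚ} (hm : 0 < m) (hr : r ^ 2 = -(m : Qb)) :
    MulAction GQ Bool where
  smul g x := PMN_sm r g x
  one_smul x := by
    apply PMN_inj (PMN_ne hm hr)
    show PMN_ka r (PMN_sm r 1 x) = _
    rw [PMN_ka_sm hr]
    rfl
  mul_smul g h x := by
    apply PMN_inj (PMN_ne hm hr)
    show PMN_ka r (PMN_sm r (g * h) x) = PMN_ka r (PMN_sm r g (PMN_sm r h x))
    rw [PMN_ka_sm hr, PMN_ka_sm hr, PMN_ka_sm hr]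
    rfl

theorem p_PMN : Stmt_PMN := by
  intro p hp a ι ha _ r m hm hr hd s hs t ht
  have hr0 := PMN_ne hm hr
  have hinj := PMN_inj hr0
  have hrr : r ≠ -r := fun h => hr0 (self_eq_neg.1 h)
  let act : MulAction GQ Bool := PMN_act hm hr
  have hka : ∀ (g : GQ) (x : Bool), PMN_ka r (g • x) = g (PMN_ka r x) := PMN_ka_sm hr
  have hconj : ∀ (ρ : Qb →+* ℂ) (g : GQ), IsConj g ρ → g r = -r := by
    intro ρ g hg
    rcases PMN_gr hr g with h | h
    · exfalso
      have h1 := hg r
      rw [h] at h1
      have h2 : (ρ r) ^ 2 = -(m : ℂ) := by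
        rw [← map_pow, hr, map_neg, map_ratCast]
      obtain ⟨y, hy⟩ : ∃ y : ℝ, ρ r = (y : ℂ) := ⟨(ρ r).re, (Complex.conj_eq_iff_re.1 h1.symm).symm⟩
      rw [hy] at h2
      have h3 : (y ^ 2 : ℝ) = -(m : ℝ) := by exact_mod_cast h2
      have h4 : (0 : ℝ) < m := by exact_mod_cast hm
      nlinarith [sq_nonneg y]
    · exact h
  have hneg : ∀ (x : Bool), PMN_ka r (!x) = -PMN_ka r x := by
    intro x
    cases x
    · show r = - -r
      rw [neg_neg]
    · rfl
  have hweil : Weil (p ^ a) s := by
    refine ⟨?_, fun ρ => ?_⟩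
    · refine IsIntegral.of_pow (n := 2) two_pos ?_
      rw [hs]
      exact isIntegral_algebraMap (R := ℤ) (x := ((p ^ a : ℕ) : ℤ))
    · have h1 : (ρ s) ^ 2 = ((p ^ a : ℕ) : ℂ) := by
        rw [← map_pow, hs, map_natCast]
      rw [← norm_pow, h1, Complex.norm_natCast]
  have hsw : ∃ d ∈ dec ι, ∀ x : Bool, d • x = !x := by
    obtain ⟨d, hdd, hdr⟩ := hd
    refine ⟨d, hdd, fun x => ?_⟩
    show PMN_sm r d x = !x
    exact if_neg hdr
  have horb : ∀ x : Bool, locOrb ι x = Set.univ := by
    intro x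
    apply Set.eq_univ_of_forall
    intro y
    by_cases hxy : y = x
    · exact ⟨1, one_mem _, by rw [one_smul]; exact hxy⟩
    · obtain ⟨d, hdd, hdx⟩ := hsw
      refine ⟨d, hdd, ?_⟩
      rw [hdx]
      cases x <;> cases y <;> simp_all
  have hst : ‖ι s‖ ^ 2 * ((p ^ a : ℕ) : ℝ) = 1 := by
    have hp0 : (p : ℝ) ≠ 0 := by exact_mod_cast hp.out.ne_zero
    rw [← norm_pow, ← map_pow, hs, map_natCast, Nat.cast_pow, norm_pow, PMN_normp, Nat.cast_pow,
      ← mul_pow, inv_mul_cancel₀ hp0, one_pow]
  let A : CMAlg (p ^ a) Bool r m :=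
    { c := fun x => !x
      al := fun _ => s
      ka := PMN_ka r
      isOpen := by
        refine ⟨IntermediateField.adjoin ℚ {r}, ?_, ?_⟩
        · have : IsIntegral ℚ r := by
            refine IsIntegral.of_pow (n := 2) two_pos ?_
            rw [hr]
            exact (isIntegral_algebraMap (R := ℚ) (x := m)).neg
          exact IntermediateField.adjoin.finiteDimensional this
        · intro g hg x
          have h1 : g r = r := hg r (IntermediateField.mem_adjoin_simple_self ℚ r)
          exact if_pos h1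
      conj := by
        intro ρ g hg x
        have h1 : g r ≠ r := by
          rw [hconj ρ g hg]
          exact hrr.symm
        exact if_neg h1
      c_ne := fun x => by cases x <;> simp
      weil := fun _ => hweil
      al_smul := fun g _ => ⟨2, two_pos, by
        show s ^ 2 = (g s) ^ 2
        rw [← map_pow, hs, map_natCast]⟩
      m_pos := hm
      r_sq := hr
      ka_eq := fun x => by
        cases x
        · exact Or.inr rfl
        · exact Or.inl rfl
      ka_smul := hka }
  let b0 : Bool := if t = 1 then true else false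
  let C : CMSet (p ^ a) ι Bool r m :=
    { A with
      Phi := {b0}
      type := fun x => by
        show x ∈ ({b0} : Set Bool) ↔ (!x) ∉ ({b0} : Set Bool)
        rw [Set.mem_singleton_iff, Set.mem_singleton_iff]
        cases x <;> cases b0 <;> simp
      st := fun x => by
        show ‖ι s‖ ^ (locOrb ι x).ncard * (((p ^ a : ℕ) : ℕ) : ℝ) ^ (({b0} : Set Bool) ∩ locOrb ι x).ncard = 1
        rw [horb, Set.inter_univ, Set.ncard_singleton, pow_one]
        have h2 : (Set.univ : Set Bool).ncard = 2 := by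
          rw [Set.ncard_univ, Nat.card_eq_fintype_card, Fintype.card_bool]
        rw [h2]
        exact hst }
  have hhalf : C.half = {true} := by
    ext x
    unfold CMAlg.half
    simp only [Finset.mem_filter, Finset.mem_univ, true_and, Finset.mem_singleton]
    show PMN_ka r x = r ↔ _
    cases x
    · constructor
      · intro h
        exact absurd h.symm hrr
      · intro h
        exact absurd h (by simp)
    · simp [PMN_ka]
  refine ⟨Bool, inferInstance, act, C, by simp, ?_, ?_, ?_⟩
  · rw [hhalf]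
    show (({b0} : Set Bool) ∩ (({true} : Finset Bool) : Set Bool)).ncard = t
    rcases ht with rfl | rfl
    · simp [b0]
    · simp [b0]
  · rw [hhalf]
    rfl
  · intro _
    refine ⟨true, fun g => ?_⟩
    by_cases h : g r = r
    · left
      exact if_pos h
    · right
      exact if_neg h

end Pool.T4
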