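import Pool.Agent.Work.MP_223b32_t4.Interface5

/-! # Block PR5: the relation `J` and its translate `g J` (helper12) -/

set_option autoImplicit false

namespace Pool.T4

open Pool.Agent.Work.MP_223b32_ag

theorem PR5_ng_cons {U : Type} [AddCommGroup U] (a : U) (T : Multiset U) :
    ng (a ::ₘ T) = -a ::ₘ ng T := Multiset.map_cons _ _ _

theorem PR5_mem_ng {U : Type} [AddCommGroup U] {a : U} {T : Multiset U} (h : a ∈ ng T) :
    -a ∈ T := by
  unfold ng at h
  obtain ⟨b, hb, hba⟩ := Multiset.mem_map.mp h
  rw [← hba, neg_neg]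
  exact hb

/-- Two multisets with the same union with their negatives agree up to signs. -/
theorem PR5_rel {U : Type} [AddCommGroup U] (T : Multiset U) :
    ∀ T' : Multiset U, T + ng T = T' + ng T' → Multiset.Rel (fun a b => b = a ∨ b = -a) T T' := by
  induction T using Multiset.induction with
  | empty =>
    intro T' h
    have h1 : T' = 0 := by
      have h2 : (T' + ng T').card = 0 := by
        rw [← h]
        rfl
      rw [Multiset.card_add] at h2
      exact Multiset.card_eq_zero.mp (by omega)
    rw [h1]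
    exact Multiset.Rel.zero
  | cons x T1 ih =>
    intro T' h
    have hx : x ∈ T' + ng T' := by
      rw [← h]
      exact Multiset.mem_add.mpr (Or.inl (Multiset.mem_cons_self x T1))
    have key : ∀ y : U, (y = x ∨ y = -x) → y ∈ T' →
        Multiset.Rel (fun a b => b = a ∨ b = -a) (x ::ₘ T1) T' := by
      intro y hy hyT
      obtain ⟨T2, rfl⟩ := Multiset.exists_cons_of_mem hyT
      refine Multiset.Rel.cons hy (ih T2 ?_)
      rw [PR5_ng_cons, PR5_ng_cons] at h
      have e1 : x ::ₘ T1 + -x ::ₘ ng T1 = {x, -x} + (T1 + ng T1) := by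
        rw [← Multiset.singleton_add, ← Multiset.singleton_add (-x), Multiset.insert_eq_cons,
          ← Multiset.singleton_add x {-x}]
        abel
      have e2 : y ::ₘ T2 + -y ::ₘ ng T2 = {x, -x} + (T2 + ng T2) := by
        have e3 : y ::ₘ T2 + -y ::ₘ ng T2 = {y, -y} + (T2 + ng T2) := by
          rw [← Multiset.singleton_add, ← Multiset.singleton_add (-y), Multiset.insert_eq_cons,
            ← Multiset.singleton_add y {-y}]
          abel
        rw [e3]
        congr 1
        rcases hy with rfl | rfl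
        · rfl
        · rw [neg_neg]
          exact Multiset.pair_comm _ _
      rw [e1, e2] at h
      exact add_left_cancel h
    rcases Multiset.mem_add.mp hx with h1 | h1
    · exact key x (Or.inl rfl) h1
    · exact key (-x) (Or.inr rfl) (PR5_mem_ng h1)

section

variable {G U : Type} [Group G] [AddCommGroup U] [Module ℚ U] [DistribMulAction G U]

theorem PR5_split (K : Core G U) (R J : Multiset U) (u : U) (hM : Miss K R J u) (v : U)
    (hv : v ∈ R) (h1 : v ≠ u) (h2 : v ≠ -u) :
    ∃ (a : U) (T : Multiset U), (a = v ∨ a = -v) ∧ J = a ::ₘ T ∧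
      R = (T + ng T) + ({v, -v} + {u, -u}) := by
  have hv' := hv
  rw [hM.eq] at hv'
  have key : ∀ a : U, (a = v ∨ a = -v) → a ∈ J → ∃ (a : U) (T : Multiset U),
      (a = v ∨ a = -v) ∧ J = a ::ₘ T ∧ R = (T + ng T) + ({v, -v} + {u, -u}) := by
    intro a ha haJ
    obtain ⟨T, hT⟩ := Multiset.exists_cons_of_mem haJ
    refine ⟨a, T, ha, hT, ?_⟩
    have e1 : ({v, -v} : Multiset U) = {a} + {-a} := by
      rcases ha with rfl | rfl
      · rfl
      · rw [neg_neg]
        exact Multiset.pair_comm _ _
    rw [hM.eq, hT, PR5_ng_cons, e1, ← Multiset.singleton_add, ← Multiset.singleton_add (-a)]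
    abel
  rcases Multiset.mem_add.mp hv' with h | h
  · rcases Multiset.mem_add.mp h with h | h
    · exact key v (Or.inl rfl) h
    · exact key (-v) (Or.inr rfl) (PR5_mem_ng h)
  · exfalso
    simp only [Multiset.insert_eq_cons, Multiset.mem_cons, Multiset.mem_singleton] at h
    rcases h with h | h
    · exact h1 h
    · exact h2 h

end

theorem PR5_perm1 {U : Type} (a x y z : U) : ({a, x, y, z} : Multiset U) = {a, x, z, y} := by
  simp only [Multiset.insert_eq_cons]
  rw [show (y ::ₘ {z} : Multiset U) = z ::ₘ {y} from Multiset.pair_comm y z]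

theorem PR5_perm2 {U : Type} (a x y z : U) : ({a, x, y, z} : Multiset U) = {a, y, z, x} := by
  rw [PR5_perm1 a y z x]
  simp only [Multiset.insert_eq_cons]
  rw [Multiset.cons_swap x y]

theorem p_PR5 (hTR : Stmt_TR5) (_ : Stmt_MO5) : Stmt_PR5 := by
  intro G U _ _ _ _ K R J u hM g h1 h2
  have hM' := hTR G U K R J u hM g
  have hu : u ∈ R := by
    rw [hM.eq]
    exact Multiset.mem_add.mpr (Or.inr (by simp))
  have hv : g • u ∈ R := by
    rw [← hM.isR.stable g]
    exact Multiset.mem_map_of_mem _ hu
  have h1' : u ≠ g • u := fun h => h1 h.symm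
  have h2' : u ≠ -(g • u) := by
    intro h
    have h3 := congrArg Neg.neg h
    rw [neg_neg] at h3
    exact h2 h3.symm
  obtain ⟨a, T, ha, hT, hR⟩ := PR5_split K R J u hM (g • u) hv h1 h2
  obtain ⟨b, T', hb, hT', hR'⟩ := PR5_split K R (tr g J) (g • u) hM' u hu h1' h2'
  have hTT : T + ng T = T' + ng T' := by
    have e : (T + ng T) + ({g • u, -(g • u)} + {u, -u}) =
        (T' + ng T') + ({g • u, -(g • u)} + {u, -u}) := by
      rw [← hR, add_comm ({g • u, -(g • u)} : Multiset U) {u, -u}, ← hR']
    exact add_right_cancel e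
  have hrel := PR5_rel T T' hTT
  have hc : T.card = 3 := by
    have := hM.card
    rw [hT, Multiset.card_cons] at this
    omega
  obtain ⟨x, y, z, rfl⟩ := Multiset.card_eq_three.mp hc
  have hrel' : ∃ x' y' z' : U, (x' = x ∨ x' = -x) ∧ (y' = y ∨ y' = -y) ∧ (z' = z ∨ z' = -z) ∧
      T' = {x', y', z'} := by
    rw [Multiset.insert_eq_cons, Multiset.insert_eq_cons, Multiset.rel_cons_left] at hrel
    obtain ⟨x', T1, hx', hr1, rfl⟩ := hrel
    rw [Multiset.rel_cons_left] at hr1
    obtain ⟨y', T2, hy', hr2, rfl⟩ := hr1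
    rw [← Multiset.cons_zero, Multiset.rel_cons_left] at hr2
    obtain ⟨z', T3, hz', hr3, rfl⟩ := hr2
    rw [Multiset.rel_zero_left] at hr3
    subst hr3
    exact ⟨x', y', z', hx', hy', hz', rfl⟩
  obtain ⟨x', y', z', hx', hy', hz', rfl⟩ := hrel'
  have hJ : J = {a, x, y, z} := hT
  have s1 : a + x + y + z = 0 := by
    have := hM.sum
    rw [hJ] at this
    rw [← this]
    simp only [Multiset.insert_eq_cons, Multiset.sum_cons, Multiset.sum_singleton]
    abel
  have s2 : b + x' + y' + z' = 0 := by
    have := hM'.sum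
    rw [hT'] at this
    rw [← this]
    simp only [Multiset.insert_eq_cons, Multiset.sum_cons, Multiset.sum_singleton]
    abel
  have hb' : -b = u ∨ -b = -u := by
    rcases hb with rfl | rfl
    · exact Or.inr rfl
    · exact Or.inl (neg_neg _)
  have hne : ∀ c : U, (c = u ∨ c = -u) → a ≠ c := by
    rintro c hc rfl
    rcases hc with rfl | rfl
    · rcases ha with h | h
      · exact h1 h.symm
      · exact h2' h
    · rcases ha with h | h
      · exact h2 h.symm
      · exact h1 (neg_injective h).symm
  rcases hx' with rfl | rfl <;> rcases hy' with rfl | rfl <;> rcases hz' with rfl | rfl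
  · -- + + +
    exfalso
    refine hne b hb ?_
    have e : a - b = (a + x' + y' + z') - (b + x' + y' + z') := by abel
    rw [s1, s2, sub_zero] at e
    exact sub_eq_zero.mp e
  · -- + + -
    refine ⟨a, b, x', y', z, ha, hb, hJ, s1, ?_⟩
    have e : b + x' + y' - z = b + x' + y' + -z := by abel
    rw [s2] at e
    exact sub_eq_zero.mp e
  · -- + - +
    refine ⟨a, b, x', z', y, ha, hb, ?_, ?_, ?_⟩
    · rw [hJ, PR5_perm1]
    · rw [← s1]
      abel
    · have e : b + x' + z' - y = b + x' + -y + z' := by abel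
      rw [s2] at e
      exact sub_eq_zero.mp e
  · -- + - -
    refine ⟨a, -b, y, z, x', ha, hb', ?_, ?_, ?_⟩
    · rw [hJ, PR5_perm2]
    · rw [← s1]
      abel
    · have e : -b + y + z - x' = -(b + x' + -y + -z) := by abel
      rw [s2, neg_zero] at e
      exact sub_eq_zero.mp e
  · -- - + +
    refine ⟨a, b, y', z', x, ha, hb, ?_, ?_, ?_⟩
    · rw [hJ, PR5_perm2]
    · rw [← s1]
      abel
    · have e : b + y' + z' - x = b + -x + y' + z' := by abel
      rw [s2] at e
      exact sub_eq_zero.mp e
  · -- - + -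
    refine ⟨a, -b, x, z, y', ha, hb', ?_, ?_, ?_⟩
    · rw [hJ, PR5_perm1]
    · rw [← s1]
      abel
    · have e : -b + x + z - y' = -(b + -x + y' + -z) := by abel
      rw [s2, neg_zero] at e
      exact sub_eq_zero.mp e
  · -- - - +
    refine ⟨a, -b, x, y, z', ha, hb', hJ, s1, ?_⟩
    have e : -b + x + y - z' = -(b + -x + -y + z') := by abel
    rw [s2, neg_zero] at e
    exact sub_eq_zero.mp e
  · -- - - -
    exfalso
    refine hne (-b) hb' ?_
    have e : a - -b = (a + x + y + z) + (b + -x + -y + -z) := by abel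
    rw [s1, s2, add_zero] at e
    exact sub_eq_zero.mp e

end Pool.T4
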