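import Pool.Agent.Work.MP_223b32_t4.Interface5

namespace Pool.T4

theorem p_SC5 : Stmt_SC5 := by
  classical
  intro G U _ _ _ _ K R hR v hv hv0 g t hgt
  have hpow : ∀ n : ℕ, (g ^ n) • v = (t ^ n) • v := by
    intro n
    induction n with
    | zero => simp
    | succ n ih =>
      have hlin : ∀ (s : ℚ) (w : U), g • (s • w) = s • (g • w) := fun s w =>
        map_rat_smul (DistribSMul.toAddMonoidHom U g) s w
      rw [pow_succ', mul_smul, ih, hlin, hgt, smul_smul, pow_succ]
  have hmem : ∀ n : ℕ, (t ^ n) • v ∈ R := by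
    intro n
    have h1 : (g ^ n) • v ∈ tr (g ^ n) R := Multiset.mem_map_of_mem _ hv
    rw [hR.stable (g ^ n)] at h1
    rwa [hpow] at h1
  have hfin : Set.Finite {w | w ∈ R} := by
    have : {w | w ∈ R} = (R.toFinset : Set U) := by ext; simp
    rw [this]; exact R.toFinset.finite_toSet
  obtain ⟨i, j, hij, hne⟩ : ∃ i j : ℕ, (t ^ i) • v = (t ^ j) • v ∧ i ≠ j := by
    by_contra hcon
    push Not at hcon
    have hinj : Function.Injective (fun n : ℕ => (t ^ n) • v) := fun i j h => hcon i j h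
    exact Set.infinite_range_of_injective hinj (hfin.subset (by rintro _ ⟨n, rfl⟩; exact hmem n))
  have ht0 : t ≠ 0 := by
    rintro rfl
    rw [zero_smul] at hgt
    exact hv0 ((smul_eq_zero_iff_eq g).1 hgt)
  have hpe : t ^ i = t ^ j := by
    by_contra hc
    have h1 : (t ^ i - t ^ j) • v = 0 := by rw [sub_smul, hij, sub_self]
    rcases smul_eq_zero.1 h1 with h2 | h2
    · exact hc (sub_eq_zero.1 h2)
    · exact hv0 h2
  have habs : |t| = 1 := by
    have h1 : |t| ^ i = |t| ^ j := by rw [← abs_pow, ← abs_pow, hpe]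
    by_contra hc
    exact hne ((pow_right_injective₀ (abs_pos.2 ht0) hc) h1)
  rcases abs_eq (zero_le_one : (0:ℚ) ≤ 1) |>.1 habs with h | h
  · exact Or.inl h
  · exact Or.inr h

end Pool.T4
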