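import Pool.Agent.Work.MP_223b32_t4.Interface5

/-! Block TR5. -/

namespace Pool.T4

open Pool.Agent.Work.MP_223b32_ag

theorem TR5_inv {G U : Type} [Group G] [AddCommGroup U] [Module ℚ U] [DistribMulAction G U]
    (g : G) (J : Multiset U) : tr g⁻¹ (tr g J) = J := by
  unfold tr
  rw [Multiset.map_map]
  have h : ((fun v : U => g⁻¹ • v) ∘ fun v : U => g • v) = id := by
    funext v
    simp
  rw [h, Multiset.map_id]

theorem TR5_ng {G U : Type} [Group G] [AddCommGroup U] [Module ℚ U] [DistribMulAction G U]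
    (g : G) (J : Multiset U) : tr g (ng J) = ng (tr g J) := by
  unfold tr ng
  rw [Multiset.map_map, Multiset.map_map]
  refine Multiset.map_congr rfl fun v _ => ?_
  simp

theorem TR5_sum {G U : Type} [Group G] [AddCommGroup U] [Module ℚ U] [DistribMulAction G U]
    (g : G) (J : Multiset U) : (tr g J).sum = g • J.sum := by
  have h := map_multiset_sum (DistribSMul.toAddMonoidHom U g) J
  simp only [DistribSMul.toAddMonoidHom_apply] at h
  exact h.symm

theorem p_TR5 : Stmt_TR5 := by
  intro G U _ _ _ _ K R J u h g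
  refine ⟨h.isR, ?_, ?_, ?_, ?_⟩
  · unfold tr
    rw [Multiset.card_map, h.card]
  · have h1 := h.isR.stable g
    have h2 : tr g R = tr g (J + ng J + {u, -u}) := congrArg (tr g) h.eq
    rw [h1] at h2
    rw [← TR5_ng]
    have h3 : tr g (J + ng J + {u, -u}) = tr g J + tr g (ng J) + {g • u, -(g • u)} := by
      unfold tr
      rw [Multiset.map_add, Multiset.map_add]
      simp
    rw [h3] at h2
    exact h2
  · rw [TR5_sum, h.sum, smul_zero]
  · intro a b hab hs
    have h4 : tr g⁻¹ ({a, b} : Multiset U) ≤ tr g⁻¹ (tr g J) := Multiset.map_le_map hab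
    rw [TR5_inv] at h4
    have h5 : tr g⁻¹ ({a, b} : Multiset U) = {g⁻¹ • a, g⁻¹ • b} := by
      unfold tr
      simp
    rw [h5] at h4
    refine h.noPair _ _ h4 ?_
    rw [← smul_add, hs, smul_zero]

end Pool.T4
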