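import Pool.Agent.Work.MP_223b32_t4.Interface

/-!
# Block TSP (split case: the signature is the sum of the slopes), typed by helper56
-/

namespace Pool.T4

open Pool.Agent.Work.MP_223b32_ag

theorem TSP_symm {p : ℕ} [Fact p.Prime] (ι : Qb →+* PadicAlgCl p) {X : Type} [MulAction GQ X]
    {x y : X} (h : y ∈ locOrb ι x) : x ∈ locOrb ι y := by
  obtain ⟨g, hg, rfl⟩ := h
  exact ⟨g⁻¹, (dec ι).inv_mem hg, by rw [inv_smul_smul]⟩

theorem TSP_trans {p : ℕ} [Fact p.Prime] (ι : Qb →+* PadicAlgCl p) {X : Type} [MulAction GQ X]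
    {x y z : X} (h : y ∈ locOrb ι x) (h' : z ∈ locOrb ι y) : z ∈ locOrb ι x := by
  obtain ⟨g, hg, rfl⟩ := h
  obtain ⟨k, hk, rfl⟩ := h'
  exact ⟨k * g, (dec ι).mul_mem hk hg, by rw [mul_smul]⟩

theorem TSP_eq {p : ℕ} [Fact p.Prime] (ι : Qb →+* PadicAlgCl p) {X : Type} [MulAction GQ X]
    {x y : X} (h : y ∈ locOrb ι x) : locOrb ι y = locOrb ι x := by
  ext z
  exact ⟨fun hz => TSP_trans ι h hz, fun hz => TSP_trans ι (TSP_symm ι h) hz⟩

theorem TSP_self {p : ℕ} [Fact p.Prime] (ι : Qb →+* PadicAlgCl p) {X : Type} [MulAction GQ X]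
    (x : X) : x ∈ locOrb ι x := ⟨1, (dec ι).one_mem, by rw [one_smul]⟩

theorem p_TSP : Stmt_TSP := by
  intro p _ a ι ha hD X _ _ r m C hr
  classical
  have hmem : ∀ x : X, x ∈ C.half ↔ C.ka x = r := by
    intro x
    unfold CMAlg.half
    simp
  have hhalf : ∀ x y : X, y ∈ locOrb ι x → x ∈ C.half → y ∈ C.half := by
    rintro x y ⟨g, hg, rfl⟩ hx
    rw [hmem] at hx ⊢
    rw [C.ka_smul, hx, hr g hg]
  have hval : ∀ x : X, ((locOrb ι x).ncard : ℝ) * (ur (p ^ a) ι (C.al x) 1 + 1) =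
      2 * (C.Phi ∩ locOrb ι x).ncard := by
    intro x
    have h1 := C.st x
    refine (hD.nrm (C.al x) (C.weil x) 1 _ _).mp ?_
    rw [AlgEquiv.one_apply]
    exact h1
  have hpos : ∀ x : X, (0 : ℝ) < ((locOrb ι x).ncard : ℝ) := by
    intro x
    have : 0 < (locOrb ι x).ncard := by
      rw [Set.ncard_pos (Set.toFinite _)]
      exact ⟨x, TSP_self ι x⟩
    exact_mod_cast this
  have hcard : ∀ s : Set X, (s.ncard : ℝ) = ∑ y : X, if y ∈ s then (1 : ℝ) else 0 := by
    intro s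
    rw [Finset.sum_boole]
    congr 1
    rw [← Set.ncard_coe_finset]
    congr 1
    ext y
    simp
  have h1 : ∀ x ∈ C.half, ur (p ^ a) ι (C.al x) 1 + 1 =
      ∑ y : X, if y ∈ C.Phi ∩ locOrb ι x then 2 / ((locOrb ι x).ncard : ℝ) else 0 := by
    intro x _
    have h2 := hval x
    have h3 := hpos x
    have h4 : (∑ y : X, if y ∈ C.Phi ∩ locOrb ι x then 2 / ((locOrb ι x).ncard : ℝ) else 0) =
        2 / ((locOrb ι x).ncard : ℝ) * ((C.Phi ∩ locOrb ι x).ncard : ℝ) := by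
      rw [hcard (C.Phi ∩ locOrb ι x), Finset.mul_sum]
      refine Finset.sum_congr rfl fun y _ => ?_
      split_ifs <;> simp
    rw [h4]
    field_simp
    linarith
  rw [Finset.sum_congr rfl h1, Finset.sum_comm]
  have h5 : ∀ y : X, (∑ x ∈ C.half, if y ∈ C.Phi ∩ locOrb ι x then
      2 / ((locOrb ι x).ncard : ℝ) else 0) = if y ∈ C.Phi ∩ (C.half : Set X) then (2 : ℝ) else 0 := by
    intro y
    by_cases hy : y ∈ C.Phi ∩ (C.half : Set X)
    · rw [if_pos hy]
      have h6 : ∀ x ∈ C.half, (if y ∈ C.Phi ∩ locOrb ι x then 2 / ((locOrb ι x).ncard : ℝ) else 0) =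
          if x ∈ locOrb ι y then 2 / ((locOrb ι y).ncard : ℝ) else 0 := by
        intro x hx
        by_cases hxy : x ∈ locOrb ι y
        · rw [if_pos hxy, if_pos ⟨hy.1, TSP_symm ι hxy⟩, TSP_eq ι hxy]
        · rw [if_neg hxy, if_neg (fun h => hxy (TSP_symm ι h.2))]
      rw [Finset.sum_congr rfl h6]
      have h7 : (∑ x ∈ C.half, if x ∈ locOrb ι y then 2 / ((locOrb ι y).ncard : ℝ) else 0) =
          ∑ x : X, if x ∈ locOrb ι y then 2 / ((locOrb ι y).ncard : ℝ) else 0 := by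
        refine Finset.sum_subset (Finset.subset_univ _) fun x _ hx => ?_
        rw [if_neg]
        intro hxy
        exact hx (hhalf y x hxy hy.2)
      rw [h7]
      have h8 : (∑ x : X, if x ∈ locOrb ι y then 2 / ((locOrb ι y).ncard : ℝ) else 0) =
          2 / ((locOrb ι y).ncard : ℝ) * ((locOrb ι y).ncard : ℝ) := by
        conv_rhs => rw [hcard (locOrb ι y), Finset.mul_sum]
        rw [← hcard (locOrb ι y)]
        refine Finset.sum_congr rfl fun x _ => ?_
        split_ifs <;> simp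
      rw [h8]
      exact div_mul_cancel₀ _ (hpos y).ne'
    · rw [if_neg hy]
      refine Finset.sum_eq_zero fun x hx => ?_
      rw [if_neg]
      rintro ⟨h9, h10⟩
      exact hy ⟨h9, hhalf x y h10 hx⟩
  rw [Finset.sum_congr rfl fun y _ => h5 y, hcard, Finset.mul_sum]
  refine Finset.sum_congr rfl fun y _ => ?_
  split_ifs <;> simp

end Pool.T4
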