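import Pool.Agent.Work.MP_223b32_t4.Interface9

/-! # Block XM9: the sum of a half (helper41) -/

set_option autoImplicit false

namespace Pool.T4

open Pool.Agent.Work.MP_223b32_ag

theorem XM9_sum {U : Type} [AddCommGroup U] (P : Finset U) (f : U → U)
    (hi : Function.Injective f) (hm : ∀ v ∈ P, f v ∈ P) : ∑ v ∈ P, f v = ∑ v ∈ P, v := by
  classical
  have h : P.image f = P := by
    apply Finset.eq_of_subset_of_card_le
    · intro x hx
      obtain ⟨v, hv, rfl⟩ := Finset.mem_image.1 hx
      exact hm v hv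
    · rw [Finset.card_image_of_injective P hi]
  conv_rhs => rw [← h]
  rw [Finset.sum_image fun a _ b _ hab => hi hab]

theorem XM9_ht {G U : Type} [Group G] [AddCommGroup U] [Module ℚ U] [DistribMulAction G U]
    (K : Core G U) (V : Finset U) (m : ℕ) (hV : IsOrb K V m) :
    ∀ (k : ℕ) (Q : Finset U), Q.card = k → Q ⊆ V → (∀ d ∈ K.D, ∀ v ∈ Q, d • v ∈ Q) →
      ∃ N : ℕ, (m : ℝ) * ∑ v ∈ Q, (K.w v + 1) = 2 * N := by
  classical
  intro k
  induction k using Nat.strong_induction_on with
  | _ k ih =>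
    intro Q hk hQV hD
    rcases Q.eq_empty_or_nonempty with hQ | ⟨v, hv⟩
    · exact ⟨0, by rw [hQ]; simp⟩
    · set O : Finset U := Q.filter (fun u => u ∈ orb K.D v) with hO
      have memO : ∀ u, u ∈ O ↔ u ∈ Q ∧ u ∈ orb K.D v := fun u => by rw [hO, Finset.mem_filter]
      have hvO : v ∈ O := (memO v).2 ⟨hv, 1, K.D.one_mem, (one_smul G v).symm⟩
      have hOeq : (O : Set U) = orb K.D v := by
        ext u
        rw [Finset.mem_coe, memO]
        constructor
        · exact fun h => h.2
        · rintro ⟨d, hd, rfl⟩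
          exact ⟨hD d hd v hv, d, hd, rfl⟩
      have hcard : (orb K.D v).ncard = O.card := by rw [← hOeq, Set.ncard_coe_finset]
      have hw : ∀ u ∈ O, K.w u = K.w v := by
        intro u hu
        obtain ⟨d, hd, rfl⟩ := ((memO u).1 hu).2
        exact K.wD d hd v
      obtain ⟨N1, hN1⟩ := ih (Q \ O).card (by
          rw [← hk]
          apply Finset.card_lt_card
          refine ⟨Finset.sdiff_subset, fun h => ?_⟩
          exact (Finset.mem_sdiff.1 (h hv)).2 hvO) (Q \ O) rfl
        (Finset.sdiff_subset.trans hQV) (by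
          intro d hd u hu
          obtain ⟨h1, h2⟩ := Finset.mem_sdiff.1 hu
          refine Finset.mem_sdiff.2 ⟨hD d hd u h1, fun h3 => h2 ?_⟩
          obtain ⟨d', hd', he⟩ := ((memO _).1 h3).2
          refine (memO u).2 ⟨h1, d⁻¹ * d', K.D.mul_mem (K.D.inv_mem hd) hd', ?_⟩
          rw [mul_smul, ← he, inv_smul_smul])
      obtain ⟨n, hn⟩ := hV.ht v (hQV hv)
      refine ⟨N1 + n, ?_⟩
      have hsum : ∑ u ∈ Q, (K.w u + 1) = ∑ u ∈ Q \ O, (K.w u + 1) + ∑ u ∈ O, (K.w u + 1) :=
        (Finset.sum_sdiff (Finset.filter_subset _ _)).symm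
      have hsO : ∑ u ∈ O, (K.w u + 1) = O.card * (K.w v + 1) := by
        rw [Finset.sum_congr rfl (fun u hu => by rw [hw u hu]), Finset.sum_const, nsmul_eq_mul]
      rw [hsum, mul_add, hN1, hsO, ← mul_assoc]
      rw [hcard] at hn
      push_cast at hn ⊢
      rw [hn]
      ring

theorem p_XM9 (hLNE : Stmt_LNE) (hLL9 : Stmt_LL9) : Stmt_XM9 := by
  classical
  intro G U _ _ _ _ K V P m y hV hc hy hwy hyV hP hσ0
  have hneg : ∀ v ∈ V, -v ∈ V := by
    intro v hv
    have h := hV.stable K.c0 v hv
    rwa [K.cc v] at h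
  obtain ⟨-, hDy⟩ := hLNE G U K y hy
  have hσ : P.sum id = ∑ v ∈ P, v := rfl
  have hcard : 2 * P.card = V.card := by
    have h1 : V.filter (fun v => v ∈ P) = P := by
      ext v
      rw [Finset.mem_filter]
      exact ⟨fun h => h.2, fun h => ⟨hP.sub h, h⟩⟩
    have h2 : V.filter (fun v => ¬ v ∈ P) = P.image (fun v => -v) := by
      ext v
      rw [Finset.mem_filter, Finset.mem_image]
      constructor
      · rintro ⟨h1, h2⟩
        refine ⟨-v, ?_, neg_neg v⟩
        by_contra h3
        exact h2 ((hP.half v h1).2 h3)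
      · rintro ⟨u, hu, rfl⟩
        exact ⟨hneg u (hP.sub hu), (hP.half u (hP.sub hu)).1 hu⟩
    have h3 : (V.filter (fun v => v ∈ P)).card + (V.filter (fun v => ¬ v ∈ P)).card = V.card := by
      rw [← Finset.card_union_of_disjoint (Finset.disjoint_filter_filter_not V V _),
        Finset.filter_union_filter_not_eq]
    rw [h1, h2, Finset.card_image_of_injective _ neg_injective] at h3
    omega
  have hm4 : m * P.card = 4 := by
    have h1 : m * (2 * P.card) = 8 := by rw [hcard]; exact hc
    have h2 : m * (2 * P.card) = 2 * (m * P.card) := by ring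
    omega
  have hg1 : ∀ g : G, g • y = y → g • (P.sum id) = P.sum id := by
    intro g hg
    rw [hσ, Finset.smul_sum]
    exact XM9_sum P (fun v => g • v) (MulAction.injective g) (fun v hv => hP.pos g hg v hv)
  have hg2 : ∀ g : G, g • y = -y → g • (P.sum id) = -(P.sum id) := by
    intro g hg
    have h := XM9_sum P (fun v => -(g • v))
      (fun a b hab => MulAction.injective g (neg_injective hab))
      (fun v hv => hP.neg g hg v hv)
    rw [Finset.sum_neg_distrib, ← Finset.smul_sum] at h
    rw [hσ]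
    exact neg_eq_iff_eq_neg.1 h
  obtain ⟨N, hN⟩ := XM9_ht K V m hV P.card P rfl hP.sub
    (fun d hd v hv => hP.pos d (hDy d hd) v hv)
  have hwσ : K.w (P.sum id) = ∑ v ∈ P, K.w v := by rw [hσ, map_sum]
  have hm4' : (m : ℝ) * P.card = 4 := by exact_mod_cast hm4
  have h5 : (m : ℝ) * K.w (P.sum id) = 2 * N - 4 := by
    have h6 := hN
    rw [Finset.sum_add_distrib, Finset.sum_const, nsmul_eq_mul, mul_one, mul_add, hm4',
      ← hwσ] at h6
    linarith
  have hmpos : (0 : ℝ) < m := by exact_mod_cast hV.m_pos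
  have hb : |K.w (P.sum id)| ≤ P.card := by
    rw [hwσ]
    calc |∑ v ∈ P, K.w v| ≤ ∑ v ∈ P, |K.w v| := Finset.abs_sum_le_sum_abs _ _
      _ ≤ ∑ v ∈ P, (1 : ℝ) := Finset.sum_le_sum fun v hv => hV.le_one v (hP.sub hv)
      _ = P.card := by simp
  have hb2 : |(m : ℝ) * K.w (P.sum id)| ≤ 4 := by
    rw [abs_mul, abs_of_pos hmpos, ← hm4']
    exact mul_le_mul_of_nonneg_left hb hmpos.le
  rw [h5] at hb2
  have hN4 : N ≤ 4 := by
    have h6 := (abs_le.1 hb2).2
    have h7 : (N : ℝ) ≤ 4 := by linarith
    exact_mod_cast h7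
  -- the extreme case
  have hext : ∀ e : ℝ, (e = 1 ∨ e = -1) → (∀ v ∈ P, K.w v = e) → False := by
    intro e he hall
    obtain ⟨v0, hv0⟩ := hV.ne
    obtain ⟨v, hv⟩ : ∃ v, v ∈ P := by
      by_cases h : v0 ∈ P
      · exact ⟨v0, h⟩
      · refine ⟨-v0, ?_⟩
        by_contra h2
        exact h ((hP.half v0 hv0).2 h2)
    have key : ∀ z : U, (z = y ∨ z = -y) → K.w z = e → v = z := by
      intro z hz hwz
      rw [← sub_eq_zero]
      apply K.kron
      intro g
      rw [smul_sub, map_sub]
      rcases hy.2 g with h | h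
      · have h1 : g • z = z := by
          rcases hz with hz | hz
          · rw [hz]; exact h
          · rw [hz, smul_neg, h]
        rw [hall _ (hP.pos g h v hv), h1, hwz, sub_self]
      · have h1 : g • z = -z := by
          rcases hz with hz | hz
          · rw [hz]; exact h
          · rw [hz, smul_neg, h]
        have h2 := hall _ (hP.neg g h v hv)
        rw [map_neg] at h2
        rw [h1, map_neg, hwz]
        linarith
    have hvz : v = y ∨ v = -y := by
      rcases he with he | he <;> rcases hwy with h | h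
      · exact Or.inl (key y (Or.inl rfl) (by rw [h, he]))
      · exact Or.inr (key (-y) (Or.inr rfl) (by rw [map_neg, h, he, neg_neg]))
      · exact Or.inr (key (-y) (Or.inr rfl) (by rw [map_neg, h, he]))
      · exact Or.inl (key y (Or.inl rfl) (by rw [h, he]))
    rcases hvz with h | h
    · exact hyV (h ▸ hP.sub hv)
    · apply hyV
      have h2 := hneg v (hP.sub hv)
      rwa [h, neg_neg] at h2
  have hgm : ∀ g : G, g • (m • P.sum id) = m • (g • P.sum id) := fun g =>
    map_nsmul (DistribSMul.toAddMonoidHom U g) m (P.sum id)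
  have hfin : ∀ e : ℚ, (e = 2 ∨ e = -2) → (m : ℝ) * K.w (P.sum id) = (e : ℝ) * K.w y →
      m • P.sum id = 2 • y ∨ m • P.sum id = -(2 • y) := by
    intro e he hw
    have h := hLL9 G U K y (m • P.sum id) hy (fun g hg => by rw [hgm, hg1 g hg])
      (fun g hg => by rw [hgm, hg2 g hg, smul_neg]) e
      (by rw [map_nsmul, nsmul_eq_mul]; exact hw)
    rcases he with he | he
    · left
      rw [h, he]
      exact ofNat_smul_eq_nsmul ℚ 2 y
    · right
      rw [h, he, neg_smul]
      congr 1
      exact ofNat_smul_eq_nsmul ℚ 2 y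
  have hcases : N = 0 ∨ N = 1 ∨ N = 2 ∨ N = 3 ∨ N = 4 := by omega
  rcases hcases with h | h | h | h | h
  · -- all weights are `-1`
    exfalso
    apply hext (-1) (Or.inr rfl)
    rw [h] at hN
    have h6 : ∑ v ∈ P, (K.w v + 1) = 0 := by
      have h7 : (m : ℝ) * ∑ v ∈ P, (K.w v + 1) = 0 := by
        rw [hN]
        norm_num
      exact (mul_eq_zero.1 h7).resolve_left hmpos.ne'
    intro v hv
    have h8 := (Finset.sum_eq_zero_iff_of_nonneg (fun v hv => by
      have := (abs_le.1 (hV.le_one v (hP.sub hv))).1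
      linarith)).1 h6 v hv
    linarith
  · rw [h] at h5
    rcases hwy with h6 | h6
    · exact hfin (-2) (Or.inr rfl) (by rw [h5, h6]; push_cast; norm_num)
    · exact hfin 2 (Or.inl rfl) (by rw [h5, h6]; push_cast; norm_num)
  · exfalso
    apply hσ0
    rw [h] at h5
    have h6 : K.w (P.sum id) = 0 := by
      have h7 : (m : ℝ) * K.w (P.sum id) = 0 := by
        rw [h5]
        norm_num
      exact (mul_eq_zero.1 h7).resolve_left hmpos.ne'
    apply K.kron
    intro g
    rcases hy.2 g with h8 | h8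
    · rw [hg1 g h8, h6]
    · rw [hg2 g h8, map_neg, h6, neg_zero]
  · rw [h] at h5
    rcases hwy with h6 | h6
    · exact hfin 2 (Or.inl rfl) (by rw [h5, h6]; push_cast; norm_num)
    · exact hfin (-2) (Or.inr rfl) (by rw [h5, h6]; push_cast; norm_num)
  · -- all weights are `1`
    exfalso
    apply hext 1 (Or.inl rfl)
    rw [h] at h5
    have h6 : ∑ v ∈ P, (1 - K.w v) = 0 := by
      rw [Finset.sum_sub_distrib, Finset.sum_const, nsmul_eq_mul, mul_one, ← hwσ]
      have h7 : (m : ℝ) * (P.card - K.w (P.sum id)) = 0 := by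
        rw [mul_sub, hm4', h5]
        push_cast
        norm_num
      exact (mul_eq_zero.1 h7).resolve_left hmpos.ne'
    intro v hv
    have h8 := (Finset.sum_eq_zero_iff_of_nonneg (fun v hv => by
      have := (abs_le.1 (hV.le_one v (hP.sub hv))).2
      linarith)).1 h6 v hv
    linarith

end Pool.T4
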